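import Mathlib

/-! Roots of monic polynomials with simple roots: continuous and analytic root functions. -/

open Polynomial Topology Filter Set

namespace Pool.Agent.RC.Spread

/-- the monic polynomial of degree `d` with lower coefficients `c` -/
noncomputable def mpP {d : ℕ} (c : Fin d → ℂ) : ℂ[X] := X ^ d + ∑ k : Fin d, C (c k) * X ^ (k : ℕ)

/-- value of the monic polynomial -/
noncomputable def mp {d : ℕ} (c : Fin d → ℂ) (s : ℂ) : ℂ := s ^ d + ∑ k : Fin d, c k * s ^ (k : ℕ)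

theorem eval_mpP {d : ℕ} (c : Fin d → ℂ) (s : ℂ) : (mpP c).eval s = mp c s := by
  simp [mpP, mp, eval_finsetSum]

theorem mpP_monic {d : ℕ} (c : Fin d → ℂ) : (mpP c).Monic :=
  monic_X_pow_add (degree_sum_fin_lt c)

/-- all roots are simple -/
def Simple {d : ℕ} (c : Fin d → ℂ) : Prop := ∀ s, mp c s = 0 → (derivative (mpP c)).eval s ≠ 0

theorem root_bound {d : ℕ} (hd : 0 < d) (c : Fin d → ℂ) (s : ℂ) :
    ‖s‖ ≤ 1 + ‖mp c s‖ + ∑ k, ‖c k‖ := by
  have h0 : 0 ≤ ∑ k, ‖c k‖ := Finset.sum_nonneg fun _ _ => norm_nonneg _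
  by_cases hs : ‖s‖ ≤ 1
  · have := norm_nonneg (mp c s); linarith
  push Not at hs
  obtain ⟨e, rfl⟩ : ∃ e, d = e + 1 := ⟨d - 1, by omega⟩
  have h1 : (1 : ℝ) ≤ ‖s‖ ^ e := one_le_pow₀ hs.le
  have h2 : s ^ (e + 1) = mp c s - ∑ k : Fin (e + 1), c k * s ^ (k : ℕ) := by simp [mp]
  have h3 : ‖∑ k : Fin (e + 1), c k * s ^ (k : ℕ)‖ ≤ (∑ k, ‖c k‖) * ‖s‖ ^ e := by
    rw [Finset.sum_mul]
    refine (norm_sum_le _ _).trans (Finset.sum_le_sum fun k _ => ?_)
    rw [norm_mul, norm_pow]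
    exact mul_le_mul_of_nonneg_left (pow_le_pow_right₀ hs.le (Nat.lt_succ_iff.mp k.2))
      (norm_nonneg _)
  have h4 : ‖s‖ ^ e * ‖s‖ ≤ ‖mp c s‖ + (∑ k, ‖c k‖) * ‖s‖ ^ e := by
    rw [← pow_succ, ← norm_pow, h2]
    exact (norm_sub_le _ _).trans (by linarith)
  have h5 : ‖mp c s‖ ≤ ‖mp c s‖ * ‖s‖ ^ e := le_mul_of_one_le_right (norm_nonneg _) h1
  have h6 : ‖s‖ ^ e * ‖s‖ ≤ ‖s‖ ^ e * (‖mp c s‖ + ∑ k, ‖c k‖) := by nlinarith
  have := le_of_mul_le_mul_left h6 (by linarith)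
  linarith

/-- the universal evaluation map -/
noncomputable def Phi (d : ℕ) (p : (Fin d → ℂ) × ℂ) : (Fin d → ℂ) × ℂ := (p.1, mp p.1 p.2)

theorem Phi_contDiff (d : ℕ) (n : WithTop ℕ∞) : ContDiff ℂ n (Phi d) := by
  unfold Phi mp
  refine contDiff_fst.prodMk ((contDiff_snd.pow d).add (ContDiff.sum fun k _ => ?_))
  exact ((contDiff_apply ℂ ℂ k).comp contDiff_fst).mul (contDiff_snd.pow _)

theorem Phi_closed {d : ℕ} (hd : 0 < d) : IsClosedMap (Phi d) := by
  refine IsProperMap.isClosedMap (isProperMap_iff_isCompact_preimage.2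
    ⟨(Phi_contDiff d 0).continuous, fun K hK => ?_⟩)
  obtain ⟨R, hR⟩ := hK.isBounded.exists_norm_le
  refine Metric.isCompact_of_isClosed_isBounded
    (hK.isClosed.preimage (Phi_contDiff d 0).continuous) ?_
  refine isBounded_iff_forall_norm_le.2 ⟨1 + |R| + d * |R|, fun p hp => ?_⟩
  have h1 := hR _ hp
  have ha : ‖p.1‖ ≤ |R| := ((norm_fst_le (Phi d p)).trans h1).trans (le_abs_self R)
  have hb : ‖mp p.1 p.2‖ ≤ |R| := ((norm_snd_le (Phi d p)).trans h1).trans (le_abs_self R)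
  have hc : ∑ k, ‖p.1 k‖ ≤ d * |R| := by
    have := Finset.sum_le_card_nsmul Finset.univ (fun k => ‖p.1 k‖) |R|
      fun k _ => (norm_le_pi_norm p.1 k).trans ha
    simpa using this
  have hd' : 0 ≤ (d : ℝ) * |R| := by positivity
  have := root_bound hd p.1 p.2
  rw [Prod.norm_def]
  exact max_le (by linarith) (by linarith)

theorem Phi_equiv {d : ℕ} (p : (Fin d → ℂ) × ℂ) (h : (derivative (mpP p.1)).eval p.2 ≠ 0) :
    ∃ L : ((Fin d → ℂ) × ℂ) ≃L[ℂ] ((Fin d → ℂ) × ℂ),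
      HasFDerivAt (Phi d) (L : ((Fin d → ℂ) × ℂ) →L[ℂ] ((Fin d → ℂ) × ℂ)) p := by
  have hF : HasFDerivAt (Phi d) (fderiv ℂ (Phi d) p) p :=
    ((Phi_contDiff d 1).differentiable one_ne_zero p).hasFDerivAt
  set L := fderiv ℂ (Phi d) p
  have h1 : ∀ v, (L v).1 = v.1 := by
    intro v
    have e1 : HasFDerivAt (fun q => (Phi d q).1)
        ((ContinuousLinearMap.fst ℂ (Fin d → ℂ) ℂ).comp L) p := hF.fst
    have e2 : HasFDerivAt (fun q => (Phi d q).1) (ContinuousLinearMap.fst ℂ (Fin d → ℂ) ℂ) p :=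
      hasFDerivAt_fst
    have := e1.unique e2
    exact congrArg (fun T : ((Fin d → ℂ) × ℂ) →L[ℂ] (Fin d → ℂ) => T v) this
  have h2 : L (0, 1) = (0, (derivative (mpP p.1)).eval p.2) := by
    have e0 : HasDerivAt (fun s : ℂ => ((p.1, s) : (Fin d → ℂ) × ℂ)) (0, 1) p.2 :=
      (hasDerivAt_const p.2 p.1).prodMk (hasDerivAt_id p.2)
    have e1 : HasDerivAt (fun s : ℂ => Phi d (p.1, s)) (L (0, 1)) p.2 :=
      HasFDerivAt.comp_hasDerivAt p.2 (l := Phi d) (f := fun s : ℂ => (p.1, s)) hF e0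
    have e2 : HasDerivAt (fun s : ℂ => Phi d (p.1, s))
        (0, (derivative (mpP p.1)).eval p.2) p.2 := by
      have := (hasDerivAt_const p.2 p.1).prodMk ((mpP p.1).hasDerivAt p.2)
      simpa only [eval_mpP, Phi] using this
    exact e1.unique e2
  have hinj : Function.Injective (L : ((Fin d → ℂ) × ℂ) →ₗ[ℂ] ((Fin d → ℂ) × ℂ)) := by
    rw [injective_iff_map_eq_zero]
    intro v hv
    have hv' : L v = 0 := hv
    have a1 : v.1 = 0 := by rw [← h1 v, hv']; rfl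
    have a2 : v = v.2 • ((0, 1) : (Fin d → ℂ) × ℂ) := by
      ext <;> simp [a1]
    rw [a2, map_smul, h2] at hv'
    have a3 : v.2 * (derivative (mpP p.1)).eval p.2 = 0 := by
      simpa using congrArg Prod.snd hv'
    have a4 : v.2 = 0 := (mul_eq_zero.1 a3).resolve_right h
    exact Prod.ext a1 a4
  refine ⟨(LinearEquiv.ofInjectiveEndo _ hinj).toContinuousLinearEquiv, ?_⟩
  have : (((LinearEquiv.ofInjectiveEndo _ hinj).toContinuousLinearEquiv :
      ((Fin d → ℂ) × ℂ) ≃L[ℂ] ((Fin d → ℂ) × ℂ)) :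
      ((Fin d → ℂ) × ℂ) →L[ℂ] ((Fin d → ℂ) × ℂ)) = L := by
    refine ContinuousLinearMap.ext fun v => rfl
  rw [this]; exact hF

theorem roots_finite {d : ℕ} (c : Fin d → ℂ) : {s | mp c s = 0}.Finite := by
  have := (mpP c).finite_setOfPred_isRoot (mpP_monic c).ne_zero
  simpa only [IsRoot, eval_mpP] using this

theorem Phi_covering {d : ℕ} (hd : 0 < d) :
    IsCoveringMapOn (Phi d) {y | y.2 = 0 ∧ Simple y.1} := by
  refine (Phi_closed hd).isCoveringMapOn_of_isLocalHomeomorphOn (fun y hy => ?_) fun p hp => ?_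
  · refine ((roots_finite y.1).image fun s => (y.1, s)).subset fun p hp => ?_
    have hp' : Phi d p = y := hp
    have a1 : p.1 = y.1 := (congrArg Prod.fst hp' : (Phi d p).1 = y.1)
    have a2 : mp p.1 p.2 = y.2 := congrArg Prod.snd hp'
    exact ⟨p.2, by rw [mem_ofPred_eq, ← a1, a2, hy.1], by rw [← a1]⟩
  · obtain ⟨L, hL⟩ := Phi_equiv p (hp.2 p.2 hp.1)
    exact ⟨(Phi_contDiff d 1).contDiffAt.toOpenPartialHomeomorph _ hL one_ne_zero,
      ContDiffAt.mem_toOpenPartialHomeomorph_source _ hL one_ne_zero, rfl⟩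

/-- a root can be followed over a simply connected parameter space -/
theorem root_lift {d : ℕ} (hd : 0 < d) {A : Type*} [TopologicalSpace A] [SimplyConnectedSpace A]
    [LocallyPathConnectedSpace A] (c : A → Fin d → ℂ) (hc : Continuous c) (hs : ∀ a, Simple (c a))
    (a0 : A) (s0 : ℂ) (h0 : mp (c a0) s0 = 0) :
    ∃ s : A → ℂ, Continuous s ∧ s a0 = s0 ∧ ∀ a, mp (c a) (s a) = 0 := by
  obtain ⟨F, ⟨hF0, hF⟩, -⟩ := (Phi_covering hd).existsUnique_continuousMap_lifts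
    (⟨fun a => (c a, 0), hc.prodMk continuous_const⟩ : C(A, (Fin d → ℂ) × ℂ)) (a₀ := a0)
    (e₀ := (c a0, s0)) (by simp [Phi, h0]) (fun a => ⟨rfl, hs a⟩)
  refine ⟨fun a => (F a).2, F.continuous.snd, by simp only [hF0], fun a => ?_⟩
  have h1 : Phi d (F a) = (c a, 0) := congrFun hF a
  have a1 : (F a).1 = c a := congrArg Prod.fst h1
  have a2 : mp (F a).1 (F a).2 = 0 := congrArg Prod.snd h1
  rwa [a1] at a2

/-- two continuous root functions on a preconnected space that agree once agree -/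
theorem root_unique {d : ℕ} (hd : 0 < d) {A : Type*} [TopologicalSpace A] [PreconnectedSpace A]
    (c : A → Fin d → ℂ) (hc : Continuous c) (hs : ∀ a, Simple (c a)) (s s' : A → ℂ)
    (h1 : Continuous s) (h2 : Continuous s') (e1 : ∀ a, mp (c a) (s a) = 0)
    (e2 : ∀ a, mp (c a) (s' a) = 0) (a0 : A) (h0 : s a0 = s' a0) : s = s' := by
  let S : Set ((Fin d → ℂ) × ℂ) := {y | y.2 = 0 ∧ Simple y.1}
  let g : A → Phi d ⁻¹' S := fun a => ⟨(c a, s a), e1 a, hs a⟩
  let g' : A → Phi d ⁻¹' S := fun a => ⟨(c a, s' a), e2 a, hs a⟩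
  have hg : Continuous g := (hc.prodMk h1).subtype_mk _
  have hg' : Continuous g' := (hc.prodMk h2).subtype_mk _
  have := (Phi_covering hd).isCoveringMap_restrictPreimage.eq_of_comp_eq hg hg'
    (by funext a; exact Subtype.ext (Prod.ext rfl ((e1 a).trans (e2 a).symm))) a0
    (Subtype.ext (Prod.ext rfl h0))
  funext a
  exact congrArg (fun q : Phi d ⁻¹' S => q.1.2) (congrFun this a)

/-- local analytic root through a simple root; every continuous root function agrees with it -/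
theorem root_local {d : ℕ} {G : Type*} [NormedAddCommGroup G] [NormedSpace ℂ G] [CompleteSpace G]
    (c : G → Fin d → ℂ) (z0 : G) (hc : AnalyticAt ℂ c z0) (s0 : ℂ) (h0 : mp (c z0) s0 = 0)
    (hs : (derivative (mpP (c z0))).eval s0 ≠ 0) :
    ∃ r : G → ℂ, AnalyticAt ℂ r z0 ∧ r z0 = s0 ∧ (∀ᶠ z in 𝓝 z0, mp (c z) (r z) = 0) ∧
      ∀ s : G → ℂ, ContinuousAt s z0 → s z0 = s0 → (∀ᶠ z in 𝓝 z0, mp (c z) (s z) = 0) →
        s =ᶠ[𝓝 z0] r := by
  obtain ⟨L, hL⟩ := Phi_equiv (c z0, s0) hs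
  have hC : ContDiffAt ℂ ⊤ (Phi d) (c z0, s0) := (Phi_contDiff d ⊤).contDiffAt
  have hn : (⊤ : WithTop ℕ∞) ≠ 0 := by simp
  have hst := hC.hasStrictFDerivAt' hL hn
  have hP : Phi d (c z0, s0) = (c z0, 0) := by simp [Phi, h0]
  have hinv : AnalyticAt ℂ (hC.localInverse hL hn) (c z0, 0) := by
    have := hC.to_localInverse hL hn
    rw [hP] at this
    exact this.analyticAt
  have hpair : AnalyticAt ℂ (fun z => ((c z, 0) : (Fin d → ℂ) × ℂ)) z0 := hc.prod analyticAt_const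
  have hcomp : AnalyticAt ℂ (fun z => hC.localInverse hL hn (c z, 0)) z0 :=
    AnalyticAt.comp (f := fun z => ((c z, 0) : (Fin d → ℂ) × ℂ)) hinv hpair
  refine ⟨fun z => (hC.localInverse hL hn (c z, 0)).2, analyticAt_snd.comp hcomp, ?_, ?_, ?_⟩
  · have := hC.localInverse_apply_image hL hn
    rw [hP] at this
    simp only [this]
  · have hr := hst.eventually_right_inverse
    rw [hP] at hr
    filter_upwards [hpair.continuousAt.eventually hr] with z hz
    have hz' : Phi d (hC.localInverse hL hn (c z, 0)) = (c z, 0) := hz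
    have a1 : (hC.localInverse hL hn (c z, 0)).1 = c z := congrArg Prod.fst hz'
    have a2 : mp (hC.localInverse hL hn (c z, 0)).1 (hC.localInverse hL hn (c z, 0)).2 = 0 :=
      congrArg Prod.snd hz'
    rwa [a1] at a2
  · intro s hs1 hs2 hs3
    have hl := hst.eventually_left_inverse
    have ht : Tendsto (fun z => ((c z, s z) : (Fin d → ℂ) × ℂ)) (𝓝 z0) (𝓝 (c z0, s0)) := by
      rw [← hs2]; exact hc.continuousAt.prodMk hs1
    filter_upwards [ht.eventually hl, hs3] with z hz hz3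
    have hz' : hC.localInverse hL hn (Phi d (c z, s z)) = (c z, s z) := hz
    have : Phi d (c z, s z) = (c z, 0) := by simp [Phi, hz3]
    rw [this] at hz'
    simp only [hz']

/-- a continuous simple root of an analytic family is analytic -/
theorem root_analytic {d : ℕ} {G : Type*} [NormedAddCommGroup G] [NormedSpace ℂ G]
    [CompleteSpace G] (c : G → Fin d → ℂ) (z0 : G) (hc : AnalyticAt ℂ c z0) (s : G → ℂ)
    (hs1 : ContinuousAt s z0) (hs3 : ∀ᶠ z in 𝓝 z0, mp (c z) (s z) = 0) (hs : Simple (c z0)) :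
    AnalyticAt ℂ s z0 := by
  obtain ⟨r, hr, -, -, h⟩ := root_local c z0 hc (s z0) hs3.self_of_nhds (hs _ hs3.self_of_nhds)
  exact hr.congr (h s hs1 rfl hs3).symm

end Pool.Agent.RC.Spread
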