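import Mathlib

set_option autoImplicit false

open Cardinal

noncomputable section

namespace Pool.Agent.RC.H89

/-- two uncountable algebraically closed extensions of a countable ring with the same cardinality
are isomorphic over the ring -/
theorem exists_equiv_over {R K L : Type} [CommRing R] [Countable R] [Field K] [Field L]
    [IsAlgClosed K] [IsAlgClosed L] [Algebra R K] [Algebra R L] [FaithfulSMul R K]
    [FaithfulSMul R L] (hK : ℵ₀ < #K) (hKL : #K = #L) :
    ∃ τ : K ≃+* L, ∀ r : R, τ (algebraMap R K r) = algebraMap R L r := by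
  have : Nontrivial R := RingHom.domain_nontrivial (algebraMap R K)
  obtain ⟨s, hs⟩ := exists_isTranscendenceBasis R K
  obtain ⟨t, ht⟩ := exists_isTranscendenceBasis R L
  have hR : #R ≤ ℵ₀ := Cardinal.mk_le_aleph0
  have h1 := IsAlgClosed.cardinal_eq_cardinal_transcendence_basis_of_aleph0_lt' _ hs hR hK
  have h2 := IsAlgClosed.cardinal_eq_cardinal_transcendence_basis_of_aleph0_lt' _ ht hR
    (hKL ▸ hK)
  obtain ⟨e⟩ : Nonempty (s ≃ t) := Cardinal.eq.1 (h1.symm.trans (hKL.trans h2))
  have := IsAlgClosed.isAlgClosure_of_transcendence_basis _ hs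
  have := IsAlgClosed.isAlgClosure_of_transcendence_basis _ ht
  let e' : Algebra.adjoin R (Set.range ((↑) : s → K)) ≃ₐ[R]
      Algebra.adjoin R (Set.range ((↑) : t → L)) :=
    (hs.1.aevalEquiv.symm.trans (MvPolynomial.renameEquiv R e)).trans ht.1.aevalEquiv
  refine ⟨IsAlgClosure.equivOfEquiv K L e'.toRingEquiv, fun r => ?_⟩
  have h3 := IsAlgClosure.equivOfEquiv_algebraMap K L e'.toRingEquiv
    (algebraMap R (Algebra.adjoin R (Set.range ((↑) : s → K))) r)
  have h4 : e'.toRingEquiv (algebraMap R _ r) = algebraMap R _ r := e'.commutes r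
  rw [h4, ← IsScalarTower.algebraMap_apply, ← IsScalarTower.algebraMap_apply] at h3
  exact h3

/-- two embeddings of a countable ring into `ℂ` differ by an automorphism of `ℂ` -/
theorem exists_aut_of_injective {R : Type} [CommRing R] [Countable R] (f g : R →+* ℂ)
    (hf : Function.Injective f) (hg : Function.Injective g) :
    ∃ τ : ℂ ≃+* ℂ, ∀ r : R, τ (f r) = g r := by
  have hK : ℵ₀ < #ℂ := by
    rw [Cardinal.mk_complex]
    exact Cardinal.aleph0_lt_continuum
  exact @exists_equiv_over R ℂ ℂ _ _ _ _ _ _ f.toAlgebra g.toAlgebra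
    ((@faithfulSMul_iff_algebraMap_injective R ℂ _ _ f.toAlgebra).2 hf)
    ((@faithfulSMul_iff_algebraMap_injective R ℂ _ _ g.toAlgebra).2 hg) hK rfl

/-- two maps of a countable ring to `ℂ` with the same kernel differ by an automorphism of `ℂ` -/
theorem exists_aut_of_ker {R : Type} [CommRing R] [Countable R] (f g : R →+* ℂ)
    (h : ∀ r, f r = 0 ↔ g r = 0) : ∃ τ : ℂ ≃+* ℂ, ∀ r : R, τ (f r) = g r := by
  have : Countable (R ⧸ RingHom.ker f) := Ideal.Quotient.mk_surjective.countable
  have hk : RingHom.ker f = RingHom.ker g := by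
    ext r
    simpa [RingHom.mem_ker] using h r
  obtain ⟨τ, hτ⟩ := exists_aut_of_injective (R := R ⧸ RingHom.ker f) (RingHom.kerLift f)
    (Ideal.Quotient.lift _ g (fun r hr => (h r).1 hr)) (RingHom.kerLift_injective f)
    (RingHom.lift_injective_of_ker_le_ideal _ _ hk.ge)
  exact ⟨τ, fun r => hτ (Ideal.Quotient.mk _ r)⟩

/-- AUT: two countable families with the same relations over a countable ring of constants are
conjugate under an automorphism of `ℂ` fixing the constants -/
theorem aut {k I : Type} [CommRing k] [Countable k] [Countable I] (c : k →+* ℂ) (a a' : I → ℂ)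
    (h : ∀ Φ : MvPolynomial I k,
      MvPolynomial.eval₂ c a Φ = 0 ↔ MvPolynomial.eval₂ c a' Φ = 0) :
    ∃ τ : ℂ ≃+* ℂ, (∀ x : k, τ (c x) = c x) ∧ ∀ i, τ (a i) = a' i := by
  have : Countable (MvPolynomial I k) := by
    rw [← Cardinal.mk_le_aleph0_iff]
    refine MvPolynomial.cardinalMk_le_max.trans ?_
    exact max_le (max_le Cardinal.mk_le_aleph0 Cardinal.mk_le_aleph0) le_rfl
  obtain ⟨τ, hτ⟩ := exists_aut_of_ker (MvPolynomial.eval₂Hom c a) (MvPolynomial.eval₂Hom c a') h
  refine ⟨τ, fun x => ?_, fun i => ?_⟩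
  · simpa using hτ (MvPolynomial.C x)
  · simpa using hτ (MvPolynomial.X i)

/-- AUT for a countable subring of `ℂ` -/
theorem aut_subring {I : Type} [Countable I] (k : Subring ℂ) (hk : (k : Set ℂ).Countable)
    (a a' : I → ℂ)
    (h : ∀ Φ : MvPolynomial I k, MvPolynomial.aeval a Φ = 0 ↔ MvPolynomial.aeval a' Φ = 0) :
    ∃ τ : ℂ ≃+* ℂ, (∀ x ∈ k, τ x = x) ∧ ∀ i, τ (a i) = a' i := by
  have : Countable k := hk.to_subtype
  obtain ⟨τ, h1, h2⟩ := aut (algebraMap k ℂ) a a' h
  exact ⟨τ, fun x hx => h1 ⟨x, hx⟩, h2⟩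

end Pool.Agent.RC.H89
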