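import Pool.Agent.Lib.RC.Lin67b

set_option autoImplicit false

open MeasureTheory Metric Set Filter Complex
open scoped Topology

noncomputable section

namespace Pool.Agent.Lib.RC

namespace Lin

open Pool.Agent.RC.Lat Pool.Agent.RC.Ker

variable {n : ℕ}

/-- the meromorphic solution on the class of `i` -/
def sol (K : Comb) (M : ℝ) (L : Cell → Cell → E n →L[ℂ] E n) (c : Cell → Cell → ℂ → E n)
    (i : Cell) (z : ℂ) : E n := AA K (c i) z - U (r1 K) (r2 K) (bb K M L c i) z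

variable {K : Comb} {C1 M ε δ B : ℝ} {L : Cell → Cell → E n →L[ℂ] E n}
  {c : Cell → Cell → ℂ → E n} {z w : ℂ} {i j k l t : Cell}

theorem k0 (K : Comb) : K.κ ≠ 0 := by
  have := K.κ1
  intro h
  linarith

theorem cls_shift (ht : (false, t) ∈ K.G) (i j : Cell) :
    K.cls (i + t) = K.cls (j + t) ↔ K.cls i = K.cls j := K.Gcls _ ht i j

theorem sum_shift (H : LinHyp K C1 M ε δ L c) (ht : (false, t) ∈ K.G) (hi : z ∈ Q K.κ i)
    (φ : Cell → ℂ → ℂ) (h0 : ∀ l, z ∉ Cl K.κ l → φ l z = 0)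
    (h1 : ∀ l, φ (l + t) (z + pt K.κ t) = φ l z) :
    ∑ d ∈ nb, φ (i + t + d) (z + pt K.κ t) • c (i + t) (i + t + d) (z + pt K.κ t) =
      ∑ d ∈ nb, φ (i + d) z • c i (i + d) z := by
  refine Finset.sum_congr rfl fun d _ => ?_
  rw [add_right_comm i t d, h1]
  by_cases hz : z ∈ Cl K.κ (i + d)
  · exact congrArg (φ (i + d) z • ·) (H.cs _ ht i (i + d) z ⟨hi, Cl_sub hz⟩)
  · rw [h0 _ hz, zero_smul, zero_smul]

theorem AA_shift (H : LinHyp K C1 M ε δ L c) (ht : (false, t) ∈ K.G) (hi : z ∈ Q K.κ i) :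
    AA K (c (i + t)) (z + pt K.κ t) = AA K (c i) z := by
  rw [AA_eq _ hi, AA_eq _ ((Q_shift (k0 K)).2 hi)]
  exact sum_shift H ht hi (fun l z => (br K.κ l z : ℂ)) (fun _ h => br0 h)
    fun l => by rw [br_shift (k0 K)]

theorem om_shift (H : LinHyp K C1 M ε δ L c) (ht : (false, t) ∈ K.G) (hi : z ∈ Q K.κ i) :
    om K (c (i + t)) (z + pt K.κ t) = om K (c i) z := by
  rw [om_eq _ hi, om_eq _ ((Q_shift (k0 K)).2 hi)]
  exact sum_shift H ht hi (db K.κ) (fun _ h => db_zero h) fun l => db_shift (k0 K)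

theorem bb_shift (H : LinHyp K C1 M ε δ L c) (ht : (false, t) ∈ K.G) (i : Cell) (w : ℂ) :
    bb K M L c (i + t) (w + pt K.κ t) = bb K M L c i w := by
  have e1 : w + pt K.κ t ∈ WW K (i + t) ↔ w ∈ WW K i := by
    constructor
    · rintro ⟨j, hj, hw⟩
      obtain ⟨j, rfl⟩ : ∃ j', j = j' + t := ⟨j - t, by abel⟩
      exact ⟨j, (cls_shift ht _ _).1 hj, (Q_shift (k0 K)).1 hw⟩
    · rintro ⟨j, hj, hw⟩
      exact ⟨j + t, (cls_shift ht _ _).2 hj, (Q_shift (k0 K)).2 hw⟩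
  have e2 : ∀ k, Nr K M (i + t) (k + t) ↔ Nr K M i k := by
    intro k
    constructor
    · rintro ⟨j, hj, hw⟩
      obtain ⟨j, rfl⟩ : ∃ j', j = j' + t := ⟨j - t, by abel⟩
      exact ⟨j, (cls_shift ht _ _).1 hj, by rwa [dist_add_right] at hw⟩
    · rintro ⟨j, hj, hw⟩
      exact ⟨j + t, (cls_shift ht _ _).2 hj, by rwa [dist_add_right]⟩
  unfold bb
  rw [cell_shift (k0 K)]
  by_cases h1 : w ∈ WW K i
  · rw [if_pos h1, if_pos (e1.2 h1)]
    obtain ⟨j, hj, hw⟩ := h1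
    rw [← c_cl H hj, ← c_cl H ((cls_shift ht _ _).2 hj), om_shift H ht hw]
  · rw [if_neg h1, if_neg (fun h => h1 (e1.1 h))]
    by_cases h2 : Nr K M i (cell K.κ w)
    · rw [if_pos h2, if_pos ((e2 _).2 h2), om_shift H ht (cell_mem _ _)]
      obtain ⟨j, hj, hw⟩ := h2
      rw [← H.Lcl j i _ hj, ← H.Lcl _ _ _ ((cls_shift ht _ _).2 hj)]
      exact H.Ls _ ht j _ hw _
    · rw [if_neg h2, if_neg (fun h => h2 ((e2 _).1 h))]

theorem off_shift (ht : (false, t) ∈ K.G) (k : Cell) : off K (k + t) = off K k := by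
  have h : ∀ i, K.pole (i + t) ↔ K.pole i := K.Gpole _ ht
  have : Gd K (k + t) = Gd K k := by
    funext d
    unfold Gd
    rw [add_right_comm k t, add_right_comm k t, h, h]
  unfold off
  rw [this]

theorem sol_shift (H : LinHyp K C1 M ε δ L c) (ht : (false, t) ∈ K.G) (hi : z ∈ Q K.κ i) :
    sol K M L c (i + t) (z + pt K.κ t) = sol K M L c i z := by
  unfold sol
  rw [AA_shift H ht hi, U_shift (r1 := r1 K) (r2 := r2 K) (b := bb K M L c i) (pt K.κ t)
    (fun w _ => ?_) (fun w _ => ?_) (bb_shift H ht i)]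
  · unfold r1
    rw [cell_shift (k0 K), off_shift ht, add_right_comm, pt_add]
  · unfold r2
    rw [cell_shift (k0 K), off_shift ht, add_right_comm, pt_add]

theorem sep_np (hi : z ∈ Q K.κ i) (h : ¬ K.pole i) : ∀ q ∈ PP K, 1 / 10 ≤ ‖z - q‖ := by
  rintro q ⟨l, hl, rfl⟩
  exact sepP K.κ1 hi fun e => h (e ▸ hl)

theorem ex (H : LinHyp K C1 M ε δ L c) (hC : 1 ≤ C1) (hδ : 0 ≤ δ) (hB0 : 0 ≤ B)
    (hB : ∀ l z, ‖db K.κ l z‖ ≤ B) (i : Cell) :
    ∃ (g : ℂ → E n) (v : E n), DifferentiableOn ℂ g (Q K.κ i) ∧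
      (∀ z ∈ Q K.κ i, z ≠ pt K.κ i → sol K M L c i z = g z + (z - pt K.κ i)⁻¹ • v) ∧
      ‖v‖ ≤ (18 + 20 * CK * (C1 * 9 * B)) * δ ∧
      (∀ z ∈ Q K.κ i, ‖g z‖ ≤ (18 + 20 * CK * (C1 * 9 * B)) * δ) ∧
      (¬ K.pole i → g = sol K M L c i ∧ v = 0) := by
  have hA := adm H hC hδ hB0 hB i
  have hb : ∀ w ∈ Q K.κ i, bb K M L c i w = dbar (AA K (c i)) w := fun w hw => by
    rw [bb_Q M L c hw, AA_dbar H hw]
  have hK := one_le_CK
  have h0 : 0 ≤ CK * (C1 * (9 * B * δ)) := by positivity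
  by_cases hp : K.pole i
  · obtain ⟨g, v, h1, h2, h3, h4⟩ := hA.pole (Sym84.isOpen_Q _ _) (AA_smooth H i) hb
      (ball_sub K.κ1 i) (α := 9 * 1 * δ) (by
        rintro q ⟨l, -, rfl⟩ hq z hz
        exact sepP K.κ1 hz fun e => hq (by rw [e])) (fun z hz => AA_bd H hδ hz)
    exact ⟨g, v, h1, h2, by nlinarith, fun z hz => (h4 z hz).trans_eq (by ring),
      fun h => absurd hp h⟩
  · refine ⟨sol K M L c i, 0, fun z hz => (hA.differentiableAt (Sym84.isOpen_Q _ _)
      (AA_smooth H i) hb hz (by norm_num) (sep_np hz hp)).differentiableWithinAt,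
      fun z _ _ => by simp, by rw [norm_zero]; positivity, fun z hz => ?_, fun _ => ⟨rfl, rfl⟩⟩
    have h1 := hA.norm_U_le (ρ := 1 / 10) (by norm_num) (by norm_num) (sep_np hz hp)
    have h2 := AA_bd H hδ hz
    have h3 := norm_sub_le (AA K (c i) z) (U (r1 K) (r2 K) (bb K M L c i) z)
    unfold sol
    nlinarith

theorem est_b (H : LinHyp K C1 M ε δ L c) (hC : 1 ≤ C1) (hM : 10 ≤ M) (hε : 0 ≤ ε) (hδ : 0 ≤ δ)
    (hB0 : 0 ≤ B) (hB : ∀ l z, ‖db K.κ l z‖ ≤ B) (hij : i ≠ j) (hi : z ∈ Q K.κ i)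
    (hj : z ∈ Q K.κ j) :
    ‖sol K M L c i z - L i j (sol K M L c j z) - c i j z‖ ≤
      (9 + 90 * CK * B * (2 + C1)) * (ε * δ) + 20 * CK * (1 + C1) * (C1 * 9 * B) * (δ / M) := by
  have h0 : 0 ≤ ε * δ := mul_nonneg hε hδ
  have hK := one_le_CK
  have hz : ∀ q ∈ PP K, 1 / 10 ≤ ‖z - q‖ := by
    rintro q ⟨l, -, rfl⟩
    by_cases h : l = i
    · exact sepP K.κ1 hj (h ▸ hij)
    · exact sepP K.κ1 hi h
  have hd := Sym84.dist_le_one hi hj
  have hL : ‖L i j‖ ≤ C1 := H.Lb i j (by linarith)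
  have Ai := adm H hC hδ hB0 hB i
  have Aj := adm H hC hδ hB0 hB j
  have e1 := Ai.U_sub_clm Aj (L i j) (by norm_num) hz
  have e2 := (Ai.sub_clm Aj (L i j)).norm_U_le_tail (ρ := 1 / 10) (by norm_num) (by norm_num) hz
    (T := M - 2) (m := 9 * B * (ε * δ) * (2 + C1)) (by linarith) (by positivity) (by
      intro w hw
      have d1 : dist i (cell K.κ w) ≤ M := (far K.κ1 hi (cell_mem _ w)).trans (by linarith)
      have d2 : dist j (cell K.κ w) ≤ M := (far K.κ1 hj (cell_mem _ w)).trans (by linarith)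
      have n1 := bb_near H h0 hB0 hB d1
      have n2 := bb_near H h0 hB0 hB d2
      have n3 := H.Lco i j _ hd d1 d2
      have n4 := om_bd H hδ hB0 hB (cell_mem K.κ w)
      set o := om K (c (cell K.κ w)) w
      have e : bb K M L c i w - L i j (bb K M L c j w) =
          (bb K M L c i w - L i (cell K.κ w) o) - L i j (bb K M L c j w - L j (cell K.κ w) o) -
            ((L i j).comp (L j (cell K.κ w)) - L i (cell K.κ w)) o := by
        simp only [map_sub, sub_apply, ContinuousLinearMap.comp_apply]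
        abel
      have n5 := ((L i j).le_opNorm _).trans (mul_le_mul hL n2 (norm_nonneg _) (by linarith))
      have n6 := (ContinuousLinearMap.le_opNorm _ o).trans (mul_le_mul n3 n4 (norm_nonneg _) hε)
      rw [e]
      refine (norm_sub_le _ _).trans ((add_le_add (norm_sub_le _ _) le_rfl).trans ?_)
      nlinarith)
  have e3 := AA_co H h0 hi hj
  have e4 : sol K M L c i z - L i j (sol K M L c j z) - c i j z =
      (AA K (c i) z - L i j (AA K (c j) z) - c i j z) -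
        U (r1 K) (r2 K) (fun w => bb K M L c i w - L i j (bb K M L c j w)) z := by
    rw [e1]
    unfold sol
    rw [map_sub]
    abel
  have e5 : (C1 * (9 * B * δ) + ‖L i j‖ * (C1 * (9 * B * δ))) / (M - 2) ≤
      2 * (1 + C1) * (C1 * 9 * B) * (δ / M) := by
    have h1 : 0 ≤ C1 * (9 * B * δ) := by positivity
    have h2 : C1 * (9 * B * δ) + ‖L i j‖ * (C1 * (9 * B * δ)) ≤ (1 + C1) * (C1 * (9 * B * δ)) := by
      nlinarith
    calc _ ≤ (1 + C1) * (C1 * (9 * B * δ)) / (M / 2) := by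
          gcongr
          linarith
      _ = _ := by field_simp
  rw [e4]
  refine (norm_sub_le _ _).trans ?_
  have e6 : CK / (1 / 10) * (9 * B * (ε * δ) * (2 + C1) +
      (C1 * (9 * B * δ) + ‖L i j‖ * (C1 * (9 * B * δ))) / (M - 2)) ≤
      CK / (1 / 10) * (9 * B * (ε * δ) * (2 + C1) + 2 * (1 + C1) * (C1 * 9 * B) * (δ / M)) := by
    gcongr
  nlinarith

theorem est_c (H : LinHyp K C1 M ε δ L c) (hC : 1 ≤ C1) (hδ : 0 ≤ δ)
    (hB0 : 0 ≤ B) (hB : ∀ l z, ‖db K.κ l z‖ ≤ B) {D : ℝ} (hD : 6 ≤ D) (hp : ¬ K.pole i)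
    (h : ∀ j, dist j i ≤ D → K.cls j = K.cls i) (hi : z ∈ Q K.κ i) :
    ‖sol K M L c i z‖ ≤ 20 * CK * (C1 * 9 * B) * δ / D := by
  have hK := one_le_CK
  have e1 : AA K (c i) z = 0 := by
    rw [AA_eq _ hi]
    exact deep_zero H (fun l => (br K.κ l z : ℂ)) fun l hl => h l (by linarith)
  have e2 := (adm H hC hδ hB0 hB i).norm_U_le_tail (ρ := 1 / 10) (by norm_num) (by norm_num)
    (sep_np hi hp) (T := D - 3) (m := 0) (by linarith) le_rfl (by
      intro w hw
      have d1 := far K.κ1 hi (cell_mem K.κ w)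
      rw [dist_comm] at d1
      rw [bb_zero H fun l hl => (h l ?_).trans (h _ (by linarith)).symm, norm_zero]
      linarith [dist_triangle l (cell K.κ w) i])
  unfold sol
  rw [e1, zero_sub, norm_neg]
  refine e2.trans ?_
  calc _ ≤ CK / (1 / 10) * (0 + C1 * (9 * B * δ) / (D / 2)) := by
        gcongr
        linarith
    _ = _ := by field_simp; ring

end Lin

open Lin Pool.Agent.RC.Ker in
theorem st_LINT : St_LINT := by
  intro n C1 hC
  obtain ⟨B, hB1, hB⟩ := db_bd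
  have hB0 : 0 ≤ B := by linarith
  have hK := one_le_CK
  have p1 : 0 ≤ 20 * CK * (C1 * 9 * B) := by positivity
  have p2 : 0 ≤ 90 * CK * B * (2 + C1) := by positivity
  have p3 : 0 ≤ 20 * CK * (1 + C1) * (C1 * 9 * B) := by positivity
  refine ⟨6 * (18 + 20 * CK * (C1 * 9 * B)) + (9 + 90 * CK * B * (2 + C1)) +
    20 * CK * (1 + C1) * (C1 * 9 * B), by linarith, ?_⟩
  intro K M ε δ hG hM hε _ hδ L c H
  choose g v h1 h2 h3 h4 h5 using ex H hC hδ hB0 (hB K.κ K.κ1)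
  have hs : ∀ s ∈ K.G, ∀ i, v (rc s i) = v i ∧ ∀ z ∈ Q K.κ i, g (rc s i) (rz K.κ s z) = g i z := by
    rintro ⟨b, t⟩ ht i
    obtain rfl : b = false := hG _ ht
    refine pole_unique (g := fun z => g (i + t) (z + pt K.κ t)) (Sym84.isOpen_Q K.κ i)
      (ball_sub K.κ1 i (mem_closedBall_self (by norm_num)))
      ((h1 (i + t)).continuousOn.comp (by fun_prop) fun z hz => (Q_shift (k0 K)).2 hz)
      (h1 i).continuousOn fun z hz hne => ?_
    rw [← h2 i z hz hne, ← sol_shift H ht hz, h2 (i + t) _ ((Q_shift (k0 K)).2 hz)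
      (by rw [pt_add]; exact fun e => hne (add_right_cancel e)), pt_add, add_sub_add_right_eq_sub]
    rfl
  refine ⟨g, v, ⟨fun i j hij => ?_, fun i hi => (h5 i hi).2, h1, fun s ht i z hz => ?_,
    fun s ht i => ?_⟩, fun i z hz => (h4 i z hz).trans
      (mul_le_mul_of_nonneg_right (by linarith) hδ),
    fun i => (h3 i).trans (mul_le_mul_of_nonneg_right (by linarith) hδ),
    fun i j hij z hz => ?_, fun i D hD h z hz => ?_⟩
  · by_cases hp : K.pole i
    · rw [K.sing i j hp hij]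
    · have hq : ¬ K.pole j := fun hq => hp (K.sing j i hq hij.symm ▸ hq)
      rw [(h5 i hp).1, (h5 j hq).1]
      funext z
      unfold sol
      rw [c_cl H hij, bb_cl H hij]
  · rw [(hs s ht i).2 z hz, hG s ht]
    rfl
  · rw [(hs s ht i).1, hG s ht]
    rfl
  · have hne : i ≠ j := fun e => hij (by rw [e])
    have n1 : z ≠ pt K.κ i := fun e => by
      have := sepP K.κ1 hz.2 hne
      rw [e, sub_self, norm_zero] at this
      linarith
    have n2 : z ≠ pt K.κ j := fun e => by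
      have := sepP K.κ1 hz.1 hne.symm
      rw [e, sub_self, norm_zero] at this
      linarith
    rw [← h2 i z hz.1 n1, ← h2 j z hz.2 n2]
    refine (est_b H hC hM hε hδ hB0 (hB K.κ K.κ1) hne hz.1 hz.2).trans ?_
    have q1 : 0 ≤ ε * δ := mul_nonneg hε hδ
    have q2 : 0 ≤ δ / M := by positivity
    rw [mul_assoc _ (ε + 1 / M) δ, add_mul ε, show 1 / M * δ = δ / M by ring, mul_add _ (ε * δ)]
    exact add_le_add (mul_le_mul_of_nonneg_right (by linarith) q1)
      (mul_le_mul_of_nonneg_right (by linarith) q2)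
  · have hp : ¬ K.pole i := fun hp => by
      have h6 : dist (i + (1, 0)) i ≤ 1 := dist_nb (by decide) i
      have h7 := K.sing i _ hp (h _ (h6.trans hD)).symm
      simp at h7
    rcases le_total D 6 with h6 | h6
    · refine (h4 i z hz).trans ?_
      rw [le_div_iff₀ (by linarith)]
      have q1 : 0 ≤ (18 + 20 * CK * (C1 * 9 * B)) * δ := by positivity
      nlinarith [mul_nonneg p2 hδ, mul_nonneg p3 hδ]
    · rw [(h5 i hp).1]
      refine (est_c H hC hδ hB0 (hB K.κ K.κ1) h6 hp h hz).trans ?_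
      gcongr
      linarith

theorem st_LIN : St_LIN := lin_of_T st_LINT

end Pool.Agent.Lib.RC
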