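import Pool.Agent.Lib.RC.AAll0
import Pool.Agent.Lib.RC.B_LIN

/-! Part I: Theorem (A) in all its modes, without hypotheses. -/

namespace Pool.Agent.Lib.RC

theorem thm_A1 : St_A1 := a1_of st_LIN
theorem thm_Atr : St_Atr := atr_of st_LIN
theorem thm_Arefl : St_Arefl := arefl_of st_LIN
theorem thm_Ator : St_Ator := ator_of st_LIN
theorem thm_Asph : St_Asph := asph_of st_LIN

end Pool.Agent.Lib.RC
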