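import Pool.Agent.Lib.RC.Laur10

set_option autoImplicit false

open Metric Set Filter Complex
open scoped Topology

noncomputable section

namespace Pool.Agent.RC.Bub

open Pool.Agent.RC.Laur

variable {E : Type*} [NormedAddCommGroup E] [NormedSpace ℂ E]

theorem lin_bound [CompleteSpace E] {f : ℂ → E} (hf : AnalyticOnNhd ℂ f (closedBall 0 1)) :
    ∃ C : ℝ, 1 ≤ C ∧ ∀ u : ℂ, ‖u‖ ≤ 1 → ‖f u - f 0‖ ≤ C * ‖u‖ := by
  obtain ⟨C, hC⟩ := (isCompact_closedBall (0 : ℂ) 1).exists_bound_of_continuousOn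
    hf.deriv.continuousOn
  refine ⟨max C 1, le_max_right _ _, fun u hu => ?_⟩
  have := (convex_closedBall (0 : ℂ) 1).norm_image_sub_le_of_norm_deriv_le (𝕜 := ℂ) (f := f)
    (C := max C 1) (fun x hx => (hf x hx).differentiableAt)
    (fun x hx => (hC x hx).trans (le_max_left _ _)) (mem_closedBall_self zero_le_one)
    (show u ∈ closedBall (0 : ℂ) 1 by simpa using hu)
  simpa using this

theorem unit_near [FiniteDimensional ℂ E] {S : ℂ → E →L[ℂ] E}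
    (hS : AnalyticOnNhd ℂ S (closedBall 0 1)) {u1 : ℂ} (h1 : ‖u1‖ ≤ 1)
    (hi : Function.Injective (S u1)) :
    ∃ ε : ℝ, 0 < ε ∧ ∀ u : ℂ, u ≠ 0 → ‖u‖ ≤ ε → IsUnit (S u) := by
  classical
  have : CompleteSpace E := FiniteDimensional.complete ℂ E
  obtain ⟨b⟩ : Nonempty (Module.Basis (Fin (Module.finrank ℂ E)) ℂ E) := ⟨Module.finBasis ℂ E⟩
  obtain ⟨d, hd⟩ : ∃ d : ℂ → ℂ, d = fun u => LinearMap.det (S u : E →ₗ[ℂ] E) := ⟨_, rfl⟩
  have hunit : ∀ u, IsUnit (S u) ↔ d u ≠ 0 := by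
    intro u
    rw [ContinuousLinearMap.isUnit_iff_isUnit_toLinearMap, LinearMap.isUnit_iff_isUnit_det,
      isUnit_iff_ne_zero, hd]
  have hent : ∀ i j, AnalyticOnNhd ℂ (fun u => LinearMap.toMatrix b b (S u : E →ₗ[ℂ] E) i j)
      (closedBall 0 1) := by
    intro i j u hu
    have := (((LinearMap.toContinuousLinearMap (b.coord i)).comp
      (ContinuousLinearMap.apply ℂ E (b j))).analyticAt (S u)).comp (hS u hu)
    refine this.congr (Eventually.of_forall fun z => ?_)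
    simp [LinearMap.toMatrix_apply]
  have hda : AnalyticOnNhd ℂ d (closedBall 0 1) := by
    have e1 : d = fun u => ∑ σ : Equiv.Perm (Fin (Module.finrank ℂ E)),
        ((Equiv.Perm.sign σ : ℤ) : ℂ) * ∏ i, LinearMap.toMatrix b b (S u : E →ₗ[ℂ] E) (σ i) i := by
      funext u
      rw [hd]
      beta_reduce
      rw [← LinearMap.det_toMatrix b, Matrix.det_apply']
    rw [e1]
    intro u hu
    refine Finset.analyticAt_fun_sum _ fun σ _ => analyticAt_const.mul ?_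
    exact Finset.analyticAt_fun_prod _ fun i _ => hent _ _ u hu
  have hd1 : d u1 ≠ 0 := by
    rw [← hunit, ContinuousLinearMap.isUnit_iff_isUnit_toLinearMap,
      LinearMap.isUnit_iff_ker_eq_bot, LinearMap.ker_eq_bot]
    exact hi
  have h0 : (0 : ℂ) ∈ closedBall (0 : ℂ) 1 := mem_closedBall_self zero_le_one
  rcases (hda 0 h0).eventually_eq_zero_or_eventually_ne_zero with h | h
  · exact absurd (hda.eqOn_zero_of_preconnected_of_eventuallyEq_zero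
      (convex_closedBall (0 : ℂ) 1).isPreconnected h0 h (by simpa using h1)) hd1
  · rw [eventually_nhdsWithin_iff, Metric.eventually_nhds_iff] at h
    obtain ⟨ε, hε, h⟩ := h
    refine ⟨ε / 2, by positivity, fun u hu hu' => (hunit u).2 (h ?_ hu)⟩
    rw [dist_zero_right]
    linarith

/-- a bound that improves itself -/
theorem boot {α : Type*} {U : Set α} {f : α → ℝ} {a B : ℝ} (ha : 0 ≤ a) (hB : ∀ s ∈ U, f s ≤ B)
    (h : ∀ D : ℝ, (∀ s ∈ U, f s ≤ D) → ∀ s ∈ U, f s ≤ a + D / 2) : ∀ s ∈ U, f s ≤ 2 * a := by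
  have h1 : ∀ k : ℕ, ∀ s ∈ U, f s ≤ 2 * a + |B| * (1 / 2) ^ k := by
    intro k
    induction k with
    | zero => intro s hs; have := hB s hs; have := le_abs_self B; simp; linarith
    | succ k ih =>
      intro s hs
      have := h _ ih s hs
      rw [pow_succ]
      linarith
  intro s hs
  have h2 : Tendsto (fun k : ℕ => 2 * a + |B| * (1 / 2 : ℝ) ^ k) atTop (𝓝 (2 * a + |B| * 0)) :=
    ((tendsto_pow_atTop_nhds_zero_of_lt_one (by norm_num) (by norm_num)).const_mul _).const_add _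
  have := ge_of_tendsto' h2 fun k => h1 k s hs
  simpa using this

/-- fixed point of a contraction of bounded holomorphic maps -/
theorem fix_hol [CompleteSpace E] {U : Set ℂ} (hU : IsOpen U) (t0 : E) {δ : ℝ} (hδ : 0 ≤ δ)
    (Φ : (ℂ → E) → ℂ → E)
    (hΦ : ∀ t, DifferentiableOn ℂ t U → (∀ s ∈ U, ‖t s - t0‖ ≤ δ) →
      DifferentiableOn ℂ (Φ t) U ∧ ∀ s ∈ U, ‖Φ t s - t0‖ ≤ δ)
    (hL : ∀ t t' (d : ℝ), DifferentiableOn ℂ t U → (∀ s ∈ U, ‖t s - t0‖ ≤ δ) →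
      DifferentiableOn ℂ t' U → (∀ s ∈ U, ‖t' s - t0‖ ≤ δ) → (∀ s ∈ U, ‖t s - t' s‖ ≤ d) →
      ∀ s ∈ U, ‖Φ t s - Φ t' s‖ ≤ d / 2) :
    ∃ t, DifferentiableOn ℂ t U ∧ (∀ s ∈ U, ‖t s - t0‖ ≤ δ) ∧ ∀ s ∈ U, Φ t s = t s := by
  obtain ⟨x, hx0, hxs⟩ : ∃ x : ℕ → ℂ → E, x 0 = (fun _ => t0) ∧ ∀ k, x (k + 1) = Φ (x k) :=
    ⟨fun k => Φ^[k] (fun _ => t0), rfl, fun k => Function.iterate_succ_apply' _ _ _⟩
  have hP : ∀ k, DifferentiableOn ℂ (x k) U ∧ ∀ s ∈ U, ‖x k s - t0‖ ≤ δ := by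
    intro k
    induction k with
    | zero => rw [hx0]; exact ⟨differentiableOn_const _, fun s _ => by simpa using hδ⟩
    | succ k ih => rw [hxs]; exact hΦ _ ih.1 ih.2
  have hD : ∀ k, ∀ s ∈ U, ‖x k s - x (k + 1) s‖ ≤ δ * (1 / 2) ^ k := by
    intro k
    induction k with
    | zero =>
      intro s hs
      rw [norm_sub_rev, hx0]
      simpa using (hP 1).2 s hs
    | succ k ih =>
      intro s hs
      have := hL _ _ _ (hP k).1 (hP k).2 (hP (k + 1)).1 (hP (k + 1)).2 ih s hs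
      rw [← hxs, ← hxs] at this
      rw [pow_succ]
      linarith
  have hC : ∀ s ∈ U, ∃ y, Tendsto (fun k => x k s) atTop (𝓝 y) := fun s hs =>
    cauchySeq_tendsto_of_complete (cauchySeq_of_le_geometric (1 / 2) δ (by norm_num)
      fun k => by rw [dist_eq_norm]; exact hD k s hs)
  choose! t ht using hC
  have hT : ∀ k, ∀ s ∈ U, ‖x k s - t s‖ ≤ 2 * δ * (1 / 2) ^ k := by
    intro k s hs
    have := dist_le_of_le_geometric_of_tendsto (1 / 2) δ (by norm_num)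
      (fun k => by rw [dist_eq_norm]; exact hD k s hs) (ht s hs) k
    rw [dist_eq_norm] at this
    exact this.trans (le_of_eq (by ring))
  have hz : Tendsto (fun k : ℕ => 2 * δ * (1 / 2 : ℝ) ^ k) atTop (𝓝 0) := by
    have := (tendsto_pow_atTop_nhds_zero_of_lt_one (r := (1 / 2 : ℝ)) (by norm_num)
      (by norm_num)).const_mul (2 * δ)
    simpa using this
  have hunif : TendstoUniformlyOn x t atTop U := by
    rw [Metric.tendstoUniformlyOn_iff]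
    intro ε hε
    filter_upwards [hz.eventually (gt_mem_nhds hε)] with k hk s hs
    rw [dist_comm, dist_eq_norm]
    exact (hT k s hs).trans_lt hk
  have htd : DifferentiableOn ℂ t U :=
    hunif.tendstoLocallyUniformlyOn.differentiableOn (Eventually.of_forall fun k => (hP k).1) hU
  have htb : ∀ s ∈ U, ‖t s - t0‖ ≤ δ := fun s hs =>
    le_of_tendsto' ((ht s hs).sub_const t0).norm fun k => (hP k).2 s hs
  refine ⟨t, htd, htb, fun s hs => ?_⟩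
  have h1 : Tendsto (fun k => x (k + 1) s) atTop (𝓝 (Φ t s)) := by
    rw [tendsto_iff_norm_sub_tendsto_zero]
    refine squeeze_zero (fun _ => norm_nonneg _) (fun k => ?_) hz
    have := hL _ _ _ (hP k).1 (hP k).2 htd htb (hT k) s hs
    rw [← hxs] at this
    have h2 : 0 ≤ 2 * δ * (1 / 2 : ℝ) ^ k := by positivity
    linarith
  exact tendsto_nhds_unique h1 ((tendsto_add_atTop_iff_nat 1).2 (ht s hs))

/-- admissible data -/
def Adm (e : E) (r : ℝ) (g : ℂ → E) (v : E) : Prop :=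
  DifferentiableOn ℂ g (ball 0 1) ∧ (∀ s ∈ ball (0 : ℂ) 1, ‖g s - e‖ ≤ r) ∧ ‖v‖ ≤ r

theorem Ann_sub : Ann ⊆ ball (0 : ℂ) 1 := fun s hs => by simpa using hs.2

theorem norm_inv_smul_le {s : ℂ} (hs : s ∈ Ann) {v : E} {r : ℝ} (hv : ‖v‖ ≤ r) :
    ‖s⁻¹ • v‖ ≤ 2 * r := by
  rw [norm_smul, norm_inv]
  refine mul_le_mul ?_ hv (norm_nonneg _) (by norm_num)
  have := inv_anti₀ (by norm_num) hs.1.le
  simpa using this

/-- the right hand side of the splitting problem -/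
def hh (R : ℂ → E →L[ℂ] E) (q : ℂ → E → E) (e : E) (g : ℂ → E) (v : E) (t : ℂ → E) (s : ℂ) : E :=
  R s (g s + s⁻¹ • v - e - q s (t s))

theorem core [CompleteSpace E] (a : ℂ → E) (S R : ℂ → E →L[ℂ] E) (q : ℂ → E → E) (t0 e : E)
    (c N ε δ r : ℝ) (hc : 0 ≤ c) (hN : 0 ≤ N) (hε : 0 ≤ ε) (hδ : 0 ≤ δ) (hδ1 : δ ≤ 1)
    (ha : DifferentiableOn ℂ a {s | 1 / 2 < ‖s‖}) (hS : DifferentiableOn ℂ S {s | 1 / 2 < ‖s‖})
    (hab : ∀ s : ℂ, 1 / 2 < ‖s‖ → ‖a s‖ ≤ c / ‖s‖ ^ 2)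
    (hSb : ∀ s : ℂ, 1 / 2 < ‖s‖ → ‖S s‖ ≤ c / ‖s‖ ^ 2)
    (hR : DifferentiableOn ℂ R Ann) (hRb : ∀ s ∈ Ann, ‖R s‖ ≤ N)
    (hSR : ∀ s ∈ Ann, ∀ y, S s (R s y) = y)
    (hq : ∀ t : ℂ → E, DifferentiableOn ℂ t (ball 0 1) → (∀ s ∈ ball (0 : ℂ) 1, ‖t s - t0‖ ≤ δ) →
      DifferentiableOn ℂ (fun s => q s (t s)) Ann)
    (hq0 : ∀ s ∈ Ann, q s t0 = 0)
    (hqL : ∀ s ∈ Ann, ∀ t t', ‖t - t0‖ ≤ δ → ‖t' - t0‖ ≤ δ → ‖q s t - q s t'‖ ≤ ε * ‖t - t'‖)
    (h1 : 14 * N * ε ≤ 1) (h2 : 42 * N * r ≤ δ) :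
    ∃ Ψ T : (ℂ → E) → E → ℂ → E,
      (∀ g v, Adm e r g v →
        DifferentiableOn ℂ (T g v) (ball 0 1) ∧ (∀ s ∈ ball (0 : ℂ) 1, ‖T g v s - t0‖ ≤ δ) ∧
        DifferentiableOn ℂ (Ψ g v) {s | 1 / 2 < ‖s‖} ∧
        (∀ s : ℂ, 1 / 2 < ‖s‖ → ‖Ψ g v s‖ ≤ 2 * c / ‖s‖ ^ 2) ∧
        ∀ s ∈ Ann, e + a s + S s (T g v s - t0) + q s (T g v s) = g s + s⁻¹ • v + Ψ g v s) ∧
      ∀ g v g' v' (d : ℝ), Adm e r g v → Adm e r g' v' →
        (∀ s ∈ ball (0 : ℂ) 1, ‖g s - g' s‖ ≤ d) → ‖v - v'‖ ≤ d →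
        ∀ s : ℂ, 1 / 2 < ‖s‖ → ‖Ψ g v s - Ψ g' v' s‖ ≤ 42 * N * c * d / ‖s‖ ^ 2 := by
  have hd : ∀ g v t, Adm e r g v → DifferentiableOn ℂ t (ball 0 1) →
      (∀ s ∈ ball (0 : ℂ) 1, ‖t s - t0‖ ≤ δ) → DifferentiableOn ℂ (hh R q e g v t) Ann := by
    intro g v t hg ht htb
    refine hR.clm_apply (((hg.1.mono Ann_sub).add (DifferentiableOn.smul ?_
      (differentiableOn_const v))).sub_const e |>.sub (hq t ht htb))
    refine differentiableOn_id.inv fun s hs h0 => ?_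
    have h3 := hs.1
    rw [show s = 0 from h0, norm_zero] at h3
    linarith
  have hb : ∀ g v t, Adm e r g v → (∀ s ∈ ball (0 : ℂ) 1, ‖t s - t0‖ ≤ δ) →
      ∀ s ∈ Ann, ‖hh R q e g v t s‖ ≤ δ / 7 := by
    intro g v t hg htb s hs
    have b1 := hg.2.1 s (Ann_sub hs)
    have b2 := norm_inv_smul_le hs hg.2.2
    have b3 := hqL s hs (t s) t0 (htb s (Ann_sub hs)) (by simpa using hδ)
    rw [hq0 s hs, sub_zero] at b3
    have b4 : ε * ‖t s - t0‖ ≤ ε * δ := mul_le_mul_of_nonneg_left (htb s (Ann_sub hs)) hε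
    have b5 : ‖g s + s⁻¹ • v - e - q s (t s)‖ ≤ 3 * r + ε * δ := by
      have e1 : g s + s⁻¹ • v - e - q s (t s) = (g s - e) + s⁻¹ • v - q s (t s) := by abel
      rw [e1]
      linarith [norm_sub_le ((g s - e) + s⁻¹ • v) (q s (t s)), norm_add_le (g s - e) (s⁻¹ • v)]
    have b6 := ((R s).le_opNorm _).trans (mul_le_mul (hRb s hs) b5 (norm_nonneg _) hN)
    have b7 : 14 * N * ε * δ ≤ 1 * δ := mul_le_mul_of_nonneg_right h1 hδ
    unfold hh
    linarith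
  have hl : ∀ g v g' v' t t' (d D : ℝ), (∀ s ∈ ball (0 : ℂ) 1, ‖g s - g' s‖ ≤ d) → ‖v - v'‖ ≤ d →
      (∀ s ∈ ball (0 : ℂ) 1, ‖t s - t0‖ ≤ δ) → (∀ s ∈ ball (0 : ℂ) 1, ‖t' s - t0‖ ≤ δ) →
      (∀ s ∈ ball (0 : ℂ) 1, ‖t s - t' s‖ ≤ D) →
      ∀ s ∈ Ann, ‖hh R q e g v t s - hh R q e g' v' t' s‖ ≤ (21 * N * d + D / 2) / 7 := by
    intro g v g' v' t t' d D hg hv ht ht' hD s hs
    have b0 : 0 ≤ D := (norm_nonneg _).trans (hD s (Ann_sub hs))
    have b1 := hg s (Ann_sub hs)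
    have b2 := norm_inv_smul_le hs hv
    have b3 := hqL s hs (t s) (t' s) (ht s (Ann_sub hs)) (ht' s (Ann_sub hs))
    have b4 : ε * ‖t s - t' s‖ ≤ ε * D := mul_le_mul_of_nonneg_left (hD s (Ann_sub hs)) hε
    have b5 : ‖(g s + s⁻¹ • v - e - q s (t s)) - (g' s + s⁻¹ • v' - e - q s (t' s))‖ ≤
        3 * d + ε * D := by
      have e1 : (g s + s⁻¹ • v - e - q s (t s)) - (g' s + s⁻¹ • v' - e - q s (t' s)) =
          (g s - g' s) + s⁻¹ • (v - v') - (q s (t s) - q s (t' s)) := by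
        rw [smul_sub]
        abel
      rw [e1]
      linarith [norm_sub_le ((g s - g' s) + s⁻¹ • (v - v')) (q s (t s) - q s (t' s)),
        norm_add_le (g s - g' s) (s⁻¹ • (v - v'))]
    have b6 := ((R s).le_opNorm _).trans (mul_le_mul (hRb s hs) b5 (norm_nonneg _) hN)
    have b7 : 14 * N * ε * D ≤ 1 * D := mul_le_mul_of_nonneg_right h1 b0
    unfold hh
    rw [← map_sub]
    linarith
  have hfix : ∀ g v, Adm e r g v → ∃ t, DifferentiableOn ℂ t (ball 0 1) ∧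
      (∀ s ∈ ball (0 : ℂ) 1, ‖t s - t0‖ ≤ δ) ∧
      ∀ s ∈ ball (0 : ℂ) 1, t0 + Lp (hh R q e g v t) s = t s := by
    intro g v hg
    refine fix_hol isOpen_ball t0 hδ (fun t s => t0 + Lp (hh R q e g v t) s) ?_ ?_
    · intro t ht htb
      refine ⟨(differentiableOn_Lp (hd g v t hg ht htb)).const_add t0, fun s hs => ?_⟩
      have := norm_Lp_le (hb g v t hg htb) (s := s) (by simpa using hs)
      rw [add_sub_cancel_left]
      linarith
    · intro t t' d ht htb ht' htb' hD s hs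
      have := norm_Lp_le (hl g v g v t t' 0 d (by simp) (by simp) htb htb' hD) (s := s)
        (by simpa using hs)
      rw [Lp_sub (hd g v t hg ht htb).continuousOn (hd g v t' hg ht' htb').continuousOn] at this
      rw [add_sub_add_left_eq_sub]
      linarith
  choose! T hT using hfix
  refine ⟨fun g v s => a s - S s (Lm (hh R q e g v (T g v)) s), T, fun g v hg => ?_, ?_⟩
  · obtain ⟨t1, t2, t3⟩ := hT g v hg
    refine ⟨t1, t2, ha.sub (hS.clm_apply (differentiableOn_Lm (hd g v _ hg t1 t2))),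
      fun s hs => ?_, fun s hs => ?_⟩
    · have b1 := norm_Lm_le (hb g v _ hg t2) hs
      have b2 : ‖Lm (hh R q e g v (T g v)) s‖ ≤ 1 := by linarith
      have b3 := ((S s).le_opNorm _).trans (mul_le_mul (hSb s hs) b2 (norm_nonneg _)
        (by positivity))
      have b4 := hab s hs
      have b5 : 2 * c / ‖s‖ ^ 2 = c / ‖s‖ ^ 2 + c / ‖s‖ ^ 2 := by ring
      linarith [norm_sub_le (a s) (S s (Lm (hh R q e g v (T g v)) s))]
    · have e1 : T g v s - t0 = hh R q e g v (T g v) s - Lm (hh R q e g v (T g v)) s := by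
        rw [← Lp_add_Lm (hh R q e g v (T g v)) s, add_sub_cancel_right, eq_comm,
          eq_sub_iff_add_eq']
        exact t3 s (Ann_sub hs)
      have e2 : S s (hh R q e g v (T g v) s) = g s + s⁻¹ • v - e - q s (T g v s) := hSR s hs _
      rw [e1, map_sub, e2]
      beta_reduce
      abel
  · intro g v g' v' d hg hg' hgd hvd s hs
    obtain ⟨t1, t2, t3⟩ := hT g v hg
    obtain ⟨t1', t2', t3'⟩ := hT g' v' hg'
    have hd0 : 0 ≤ d := (norm_nonneg _).trans hvd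
    have c1 := (hd g v _ hg t1 t2).continuousOn
    have c2 := (hd g' v' _ hg' t1' t2').continuousOn
    have hTT : ∀ z ∈ ball (0 : ℂ) 1, ‖T g v z - T g' v' z‖ ≤ 2 * (21 * N * d) := by
      refine boot (B := 2 * δ) (by positivity) (fun z hz => ?_) fun D hD z hz => ?_
      · have e1 : T g v z - T g' v' z = (T g v z - t0) - (T g' v' z - t0) := by abel
        rw [e1]
        linarith [norm_sub_le (T g v z - t0) (T g' v' z - t0), t2 z hz, t2' z hz]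
      · have := norm_Lp_le (hl g v g' v' _ _ d D hgd hvd t2 t2' hD) (s := z) (by simpa using hz)
        rw [Lp_sub c1 c2] at this
        rw [← t3 z hz, ← t3' z hz, add_sub_add_left_eq_sub]
        linarith
    have b1 := norm_Lm_le (hl g v g' v' _ _ d _ hgd hvd t2 t2' hTT) hs
    rw [Lm_sub c1 c2] at b1
    have b2 : ‖Lm (hh R q e g v (T g v)) s - Lm (hh R q e g' v' (T g' v')) s‖ ≤ 42 * N * d := by
      linarith
    have b3 := ((S s).le_opNorm _).trans (mul_le_mul (hSb s hs) b2 (norm_nonneg _)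
      (by positivity))
    have e1 : a s - S s (Lm (hh R q e g v (T g v)) s) - (a s - S s (Lm (hh R q e g' v' (T g' v')) s))
        = -S s (Lm (hh R q e g v (T g v)) s - Lm (hh R q e g' v' (T g' v')) s) := by
      rw [map_sub]
      abel
    beta_reduce
    rw [e1, norm_neg]
    exact b3.trans (le_of_eq (by ring))

theorem norm_uu {lam : ℝ} (s : ℂ) : ‖(lam : ℂ) ^ 2 / s ^ 2‖ = lam ^ 2 / ‖s‖ ^ 2 := by
  rw [norm_div, norm_pow, norm_pow, Complex.norm_real, Real.norm_eq_abs, sq_abs]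

theorem norm_uu_le {lam : ℝ} {s : ℂ} (hs : 1 / 2 ≤ ‖s‖) : ‖(lam : ℂ) ^ 2 / s ^ 2‖ ≤ 4 * lam ^ 2 := by
  rw [norm_uu, div_le_iff₀ (by positivity)]
  have h1 : 1 / 4 ≤ ‖s‖ ^ 2 := by nlinarith
  nlinarith [sq_nonneg lam]

theorem diff_uu (lam : ℝ) {s : ℂ} (hs : 1 / 2 ≤ ‖s‖) :
    DifferentiableAt ℂ (fun z : ℂ => (lam : ℂ) ^ 2 / z ^ 2) s := by
  have h0 : s ≠ 0 := fun h => by
    rw [h, norm_zero] at hs
    linarith
  exact (differentiableAt_const _).div (differentiableAt_id.pow 2) (pow_ne_zero 2 h0)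

theorem bb_core [FiniteDimensional ℂ E] (φ : ℂ × E → E) (t0 e : E) (δ ρ : ℝ) (hδ : 0 < δ)
    (hρ : 0 < ρ) (hφ : AnalyticOnNhd ℂ φ (closedBall 0 1 ×ˢ closedBall t0 δ))
    (h0 : ∀ t ∈ closedBall t0 δ, φ (0, t) = e)
    (h1 : ∃ u : ℂ, ‖u‖ ≤ 1 ∧ Function.Injective (fderiv ℂ (fun t => φ (u, t)) t0)) :
    ∃ (lam r r' C : ℝ) (Ψ T : (ℂ → E) → E → ℂ → E), 0 < lam ∧ lam ≤ 1 / 2 ∧ 0 < r ∧ r ≤ r' ∧
      r' ≤ ρ ∧ 0 ≤ C ∧
      (∀ g v, Adm e r g v →
        DifferentiableOn ℂ (T g v) (ball 0 1) ∧ (∀ s ∈ ball (0 : ℂ) 1, ‖T g v s - t0‖ ≤ δ) ∧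
        DifferentiableOn ℂ (Ψ g v) {s | 1 / 2 < ‖s‖} ∧
        (∀ s : ℂ, 1 / 2 < ‖s‖ → ‖Ψ g v s‖ ≤ r' / ‖s‖ ^ 2) ∧
        ∀ s ∈ Ann, φ ((lam : ℂ) ^ 2 / s ^ 2, T g v s) = g s + s⁻¹ • v + Ψ g v s) ∧
      ∀ g v g' v' (d : ℝ), Adm e r g v → Adm e r g' v' →
        (∀ s ∈ ball (0 : ℂ) 1, ‖g s - g' s‖ ≤ d) → ‖v - v'‖ ≤ d →
        ∀ s : ℂ, 1 / 2 < ‖s‖ → ‖Ψ g v s - Ψ g' v' s‖ ≤ C * d / ‖s‖ ^ 2 := by
  have : CompleteSpace E := FiniteDimensional.complete ℂ E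
  have ht0 : t0 ∈ closedBall t0 δ := mem_closedBall_self hδ.le
  obtain ⟨D, hD⟩ : ∃ D : ℂ × E → E →L[ℂ] E,
      D = fun p => (fderiv ℂ φ p).comp (ContinuousLinearMap.inr ℂ ℂ E) := ⟨_, rfl⟩
  have hDa : AnalyticOnNhd ℂ D (closedBall 0 1 ×ˢ closedBall t0 δ) := by
    intro p hp
    rw [hD]
    exact (((ContinuousLinearMap.compL ℂ E (ℂ × E) E).flip
      (ContinuousLinearMap.inr ℂ ℂ E)).analyticAt _).comp (hφ.fderiv p hp)
  have hDd : ∀ u : ℂ, ‖u‖ ≤ 1 → ∀ t ∈ closedBall t0 δ,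
      HasFDerivAt (fun t => φ (u, t)) (D (u, t)) t := by
    intro u hu t ht
    rw [hD]
    exact (hφ (u, t) ⟨by simpa using hu, ht⟩).differentiableAt.hasFDerivAt.comp t
      (hasFDerivAt_prodMk_right u t)
  have hin : ∀ u ∈ closedBall (0 : ℂ) 1, AnalyticAt ℂ (fun u : ℂ => (u, t0)) u :=
    fun u _ => analyticAt_id.prod analyticAt_const
  have hSa : AnalyticOnNhd ℂ (fun u : ℂ => D (u, t0)) (closedBall 0 1) := fun u hu =>
    AnalyticAt.comp (g := D) (f := fun u : ℂ => (u, t0)) (hDa (u, t0) ⟨hu, ht0⟩) (hin u hu)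
  have hAa : AnalyticOnNhd ℂ (fun u : ℂ => φ (u, t0)) (closedBall 0 1) := fun u hu =>
    AnalyticAt.comp (g := φ) (f := fun u : ℂ => (u, t0)) (hφ (u, t0) ⟨hu, ht0⟩) (hin u hu)
  have hS0 : D (0, t0) = 0 := by
    refine (hDd 0 (by simp) t0 ht0).unique ((hasFDerivAt_const e t0).congr_of_eventuallyEq ?_)
    filter_upwards [closedBall_mem_nhds t0 hδ] with t ht using h0 t ht
  obtain ⟨C1, hC1, hA⟩ := lin_bound hAa
  obtain ⟨C2, hC2, hS⟩ := lin_bound hSa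
  simp only [h0 t0 ht0] at hA
  simp only [hS0, sub_zero] at hS
  obtain ⟨u1, hu1, hi⟩ := h1
  rw [(hDd u1 hu1 t0 ht0).fderiv] at hi
  obtain ⟨ε0, hε0, hunit⟩ := unit_near hSa hu1 hi
  obtain ⟨lam, hl0, hl1, hl2, hl3⟩ : ∃ lam : ℝ, 0 < lam ∧ lam ≤ 1 / 2 ∧ 4 * lam ^ 2 ≤ ε0 ∧
      2 * ((C1 + C2) * lam ^ 2) ≤ ρ := by
    refine ⟨min (1 / 2) (min (ε0 / 2) (ρ / (C1 + C2))), by positivity, min_le_left _ _, ?_, ?_⟩
    · have a1 := min_le_left (1 / 2) (min (ε0 / 2) (ρ / (C1 + C2)))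
      have a2 := (min_le_right (1 / 2) _).trans (min_le_left (ε0 / 2) (ρ / (C1 + C2)))
      have a3 : 0 < min (1 / 2) (min (ε0 / 2) (ρ / (C1 + C2))) := by positivity
      nlinarith
    · have a1 := min_le_left (1 / 2) (min (ε0 / 2) (ρ / (C1 + C2)))
      have a2 := (min_le_right (1 / 2) _).trans (min_le_right (ε0 / 2) (ρ / (C1 + C2)))
      have a3 : 0 < min (1 / 2) (min (ε0 / 2) (ρ / (C1 + C2))) := by positivity
      rw [le_div_iff₀ (by positivity)] at a2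
      generalize min (1 / 2) (min (ε0 / 2) (ρ / (C1 + C2))) = m at a1 a2 a3
      have a4 : 0 ≤ m * (C1 + C2) := by positivity
      nlinarith
  have hu : ∀ s : ℂ, 1 / 2 ≤ ‖s‖ → ‖(lam : ℂ) ^ 2 / s ^ 2‖ ≤ 1 := fun s hs =>
    (norm_uu_le hs).trans (by nlinarith)
  have hum : ∀ s : ℂ, 1 / 2 ≤ ‖s‖ → (lam : ℂ) ^ 2 / s ^ 2 ∈ closedBall (0 : ℂ) 1 := fun s hs => by
    simpa only [mem_closedBall, dist_zero_right] using hu s hs
  have hun : ∀ s : ℂ, 1 / 2 ≤ ‖s‖ → IsUnit (D ((lam : ℂ) ^ 2 / s ^ 2, t0)) := by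
    intro s hs
    have h0 : s ≠ 0 := fun h => by
      rw [h, norm_zero] at hs
      linarith
    exact hunit _ (div_ne_zero (pow_ne_zero 2 (by exact_mod_cast hl0.ne')) (pow_ne_zero 2 h0))
      ((norm_uu_le hs).trans hl2)
  have hSd : ∀ s : ℂ, 1 / 2 ≤ ‖s‖ →
      DifferentiableAt ℂ (fun z : ℂ => D ((lam : ℂ) ^ 2 / z ^ 2, t0)) s := fun s hs =>
    DifferentiableAt.comp (g := fun u : ℂ => D (u, t0)) s (hSa _ (hum s hs)).differentiableAt
      (diff_uu lam hs)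
  have hAd : ∀ s : ℂ, 1 / 2 ≤ ‖s‖ →
      DifferentiableAt ℂ (fun z : ℂ => φ ((lam : ℂ) ^ 2 / z ^ 2, t0)) s := fun s hs =>
    DifferentiableAt.comp (g := fun u : ℂ => φ (u, t0)) s (hAa _ (hum s hs)).differentiableAt
      (diff_uu lam hs)
  have hRd : ∀ s : ℂ, 1 / 2 ≤ ‖s‖ →
      DifferentiableAt ℂ (fun z : ℂ => Ring.inverse (D ((lam : ℂ) ^ 2 / z ^ 2, t0))) s :=
    fun s hs => (hSd s hs).inverse (hun s hs)
  obtain ⟨N0, hN0⟩ := ((isCompact_closedBall (0 : ℂ) 1).inter_right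
    (isClosed_le continuous_const continuous_norm : IsClosed {s : ℂ | 1 / 2 ≤ ‖s‖})
    ).exists_bound_of_continuousOn
    (f := fun z : ℂ => Ring.inverse (D ((lam : ℂ) ^ 2 / z ^ 2, t0)))
    (fun s hs => (hRd s hs.2).continuousAt.continuousWithinAt)
  obtain ⟨N, hN1, hNN⟩ : ∃ N : ℝ, 1 ≤ N ∧ N0 ≤ N := ⟨max 1 N0, le_max_left _ _, le_max_right _ _⟩
  have huc := Metric.uniformContinuousOn_iff.1
    (((isCompact_closedBall (0 : ℂ) 1).prod (isCompact_closedBall t0 δ)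
      ).uniformContinuousOn_of_continuous hDa.continuousOn) (1 / (14 * N)) (by positivity)
  obtain ⟨δ', hδ', huc⟩ := huc
  obtain ⟨δ1, hd0, hd1, hd2, hd3⟩ : ∃ δ1 : ℝ, 0 < δ1 ∧ δ1 ≤ 1 ∧ δ1 ≤ δ ∧ δ1 < δ' :=
    ⟨min 1 (min δ (δ' / 2)), by positivity, min_le_left _ _,
      (min_le_right _ _).trans (min_le_left _ _),
      ((min_le_right _ _).trans (min_le_right _ _)).trans_lt (by linarith)⟩
  obtain ⟨r, hr0, hr1, hr2⟩ : ∃ r : ℝ, 0 < r ∧ r ≤ 2 * ((C1 + C2) * lam ^ 2) ∧ 42 * N * r ≤ δ1 := by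
    refine ⟨min (2 * ((C1 + C2) * lam ^ 2)) (δ1 / (42 * N)), by positivity, min_le_left _ _, ?_⟩
    have a1 := min_le_right (2 * ((C1 + C2) * lam ^ 2)) (δ1 / (42 * N))
    rw [le_div_iff₀ (by positivity)] at a1
    linarith
  have hmem : ∀ t : E, ‖t - t0‖ ≤ δ1 → t ∈ closedBall t0 δ := fun t ht => by
    rw [mem_closedBall, dist_eq_norm]
    linarith
  have hbd : ∀ (C : ℝ) (s : ℂ), C ≤ C1 + C2 →
      C * ‖(lam : ℂ) ^ 2 / s ^ 2‖ ≤ (C1 + C2) * lam ^ 2 / ‖s‖ ^ 2 := by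
    intro C s hC
    rw [norm_uu, mul_div_assoc]
    exact mul_le_mul_of_nonneg_right hC (by positivity)
  obtain ⟨Ψ, T, k1, k2⟩ := core (fun s => φ ((lam : ℂ) ^ 2 / s ^ 2, t0) - e)
    (fun s => D ((lam : ℂ) ^ 2 / s ^ 2, t0))
    (fun s => Ring.inverse (D ((lam : ℂ) ^ 2 / s ^ 2, t0)))
    (fun s t => φ ((lam : ℂ) ^ 2 / s ^ 2, t) - φ ((lam : ℂ) ^ 2 / s ^ 2, t0) -
      D ((lam : ℂ) ^ 2 / s ^ 2, t0) (t - t0)) t0 e ((C1 + C2) * lam ^ 2) N (1 / (14 * N)) δ1 r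
    (by positivity) (by positivity) (by positivity) hd0.le hd1
    (fun s hs => ((hAd s (le_of_lt hs)).sub_const e).differentiableWithinAt)
    (fun s hs => (hSd s (le_of_lt hs)).differentiableWithinAt)
    (fun s hs => (hA _ (hu s hs.le)).trans (hbd C1 s (by linarith)))
    (fun s hs => (hS _ (hu s hs.le)).trans (hbd C2 s (by linarith)))
    (fun s hs => (hRd s hs.1.le).differentiableWithinAt)
    (fun s hs => (hN0 s ⟨by simpa using hs.2.le, hs.1.le⟩).trans hNN)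
    (fun s hs y => by
      have := congrArg (fun L : E →L[ℂ] E => L y) (Ring.mul_inverse_cancel _ (hun s hs.1.le))
      exact this)
    (fun t ht htb s hs => by
      have a1 : DifferentiableAt ℂ t s := ht.differentiableAt (isOpen_ball.mem_nhds (Ann_sub hs))
      have a2 : DifferentiableAt ℂ (fun z : ℂ => φ ((lam : ℂ) ^ 2 / z ^ 2, t z)) s :=
        DifferentiableAt.comp (g := φ) (f := fun z : ℂ => ((lam : ℂ) ^ 2 / z ^ 2, t z)) s
          (hφ _ ⟨hum s hs.1.le, hmem _ (htb s (Ann_sub hs))⟩).differentiableAt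
          ((diff_uu lam hs.1.le).prodMk a1)
      exact ((a2.sub (hAd s hs.1.le)).sub
        ((hSd s hs.1.le).clm_apply (a1.sub_const t0))).differentiableWithinAt)
    (fun s _ => by simp)
    (fun s hs t t' ht ht' => by
      have a1 := (convex_closedBall t0 δ1).norm_image_sub_le_of_norm_hasFDerivWithin_le'
        (𝕜 := ℂ) (f := fun t => φ ((lam : ℂ) ^ 2 / s ^ 2, t))
        (f' := fun t => D ((lam : ℂ) ^ 2 / s ^ 2, t)) (φ := D ((lam : ℂ) ^ 2 / s ^ 2, t0))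
        (C := 1 / (14 * N)) (x := t') (y := t)
        (fun x hx => (hDd _ (hu s hs.1.le) x (hmem x (by simpa [dist_eq_norm] using hx))
          ).hasFDerivWithinAt)
        (fun x hx => by
          have b1 : ‖x - t0‖ ≤ δ1 := by simpa [dist_eq_norm] using hx
          have b2 := huc ((lam : ℂ) ^ 2 / s ^ 2, x) ⟨hum s hs.1.le, hmem x b1⟩
            ((lam : ℂ) ^ 2 / s ^ 2, t0) ⟨hum s hs.1.le, ht0⟩ (by
              rw [Prod.dist_eq, dist_self, dist_eq_norm]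
              exact max_lt hδ' (b1.trans_lt hd3))
          rw [dist_eq_norm] at b2
          exact b2.le)
        (by simpa [dist_eq_norm] using ht') (by simpa [dist_eq_norm] using ht)
      refine le_of_eq_of_le (congrArg norm ?_) a1
      simp only [map_sub]
      abel)
    (le_of_eq (by field_simp)) hr2
  refine ⟨lam, r, 2 * ((C1 + C2) * lam ^ 2), 42 * N * ((C1 + C2) * lam ^ 2), Ψ, T, hl0, hl1, hr0,
    hr1, hl3, by positivity, fun g v hg => ?_, k2⟩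
  obtain ⟨j1, j2, j3, j4, j5⟩ := k1 g v hg
  refine ⟨j1, fun s hs => (j2 s hs).trans hd2, j3, j4, fun s hs => ?_⟩
  rw [← j5 s hs]
  abel

end Pool.Agent.RC.Bub
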