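import Pool.Agent.Lib.RC.BlueA
import Pool.Agent.Lib.RC.Bub10

set_option autoImplicit false

open Set Metric

namespace Pool.Agent.Lib.RC

theorem st_BB : St_BB := by
  intro n X _ 𝒜 ψ x φ t0 δ hψ hx hδ hφ h0 h1 hG
  obtain ⟨ρ, hρ, hb⟩ := Metric.isOpen_iff.1 ψ.open_target _ (ψ.map_source hx)
  obtain ⟨lam, r, r', C, Ψ, T, l0, l1, r0, rr, rρ, -, k1, k2⟩ :=
    Pool.Agent.RC.Bub.bb_core φ t0 (ψ x) δ (ρ / 8) hδ (by positivity) hφ h0 h1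
  refine ⟨ψ, ψ x, r, r', C, Ψ, ⟨hψ, r0, rr, (ball_subset_ball (by linarith)).trans hb,
    fun g v hg => (k1 g v hg).2.2.1, fun g v hg => (k1 g v hg).2.2.2.1, k2, fun g v hg => ?_⟩,
    hx, ?_⟩
  · obtain ⟨j1, j2, -, -, j5⟩ := k1 g v hg
    obtain ⟨G, hG1, hG2⟩ := hG lam l0 l1 (T g v) j1 j2
    exact ⟨G, hG1, fun s a1 a2 => by rw [hG2 s a1 a2, j5 s ⟨a1, a2⟩]⟩
  · rw [sub_self, norm_zero]
    positivity

end Pool.Agent.Lib.RC
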