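import Pool.Agent.Lib.RC.BlueA

namespace Pool.Agent.Lib.RC

open Set Metric Complex

namespace COMB

theorem pt_rc (κ : ℝ) (s : Sy) (i : Cell) : pt κ (rc s i) = rz κ s (pt κ i) := by
  obtain ⟨b, a⟩ := s
  cases b
  · simp only [pt, rc, rz, cj, Bool.false_eq_true, if_false, Prod.fst_add, Prod.snd_add,
      Int.cast_add]
    ring
  · simp only [pt, rc, rz, cj, if_true, Prod.fst_add, Prod.snd_add, Int.cast_add, Int.cast_neg,
      map_add, map_mul, conj_ofReal, conj_I, map_intCast]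
    ring

theorem rc_inj (s : Sy) : Function.Injective (rc s) := by
  obtain ⟨b, a⟩ := s
  intro i j hij
  cases b
  · simpa [rc] using hij
  · simp only [rc, if_true, add_left_inj, Prod.mk.injEq, neg_inj] at hij
    exact Prod.ext hij.1 hij.2

theorem rz_inj (κ : ℝ) (s : Sy) : Function.Injective (rz κ s) := by
  obtain ⟨b, a⟩ := s
  intro z w hzw
  cases b
  · simpa [rz, cj] using hzw
  · simp only [rz, cj, if_true, add_left_inj, neg_inj] at hzw
    exact (starRingEnd ℂ).injective hzw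

theorem dist_pt {h κ : ℝ} (hh : 0 < h) (h1 : 1 ≤ κ) (h2 : κ ≤ 2) (i j : Cell) :
    dist ((h : ℂ) * pt κ i) ((h : ℂ) * pt κ j) ≤ 3 * h * dist i j := by
  have e1 : (h : ℂ) * pt κ i - (h : ℂ) * pt κ j
      = (h : ℂ) * ((κ : ℂ) * (((i.1 : ℝ) - (j.1 : ℝ) : ℝ) : ℂ)
        + I * (((i.2 : ℝ) - (j.2 : ℝ) : ℝ) : ℂ)) := by
    simp only [pt]; push_cast; ring
  have d1 : |(i.1 : ℝ) - j.1| ≤ dist i j := by
    rw [Prod.dist_eq, ← Int.dist_eq]; exact le_max_left _ _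
  have d2 : |(i.2 : ℝ) - j.2| ≤ dist i j := by
    rw [Prod.dist_eq, ← Int.dist_eq]; exact le_max_right _ _
  have e2 := norm_add_le ((κ : ℂ) * (((i.1 : ℝ) - (j.1 : ℝ) : ℝ) : ℂ))
    (I * (((i.2 : ℝ) - (j.2 : ℝ) : ℝ) : ℂ))
  rw [norm_mul, norm_mul, norm_I, one_mul, norm_real, norm_real, norm_real, Real.norm_eq_abs,
    Real.norm_eq_abs, Real.norm_eq_abs, abs_of_pos (by linarith : 0 < κ)] at e2
  rw [dist_eq_norm, e1, norm_mul, norm_real, Real.norm_of_nonneg hh.le]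
  have e3 : κ * |(i.1 : ℝ) - j.1| ≤ 2 * dist i j :=
    mul_le_mul h2 d1 (abs_nonneg _) (by norm_num)
  nlinarith

end COMB

theorem st_COMB : St_COMB := by
  intro 𝒞 d0 h κ G hconv hsep hh hd h1 h2 hG hsym
  have hh0 : (h : ℂ) ≠ 0 := ofReal_ne_zero.2 hh.ne'
  have near : ∀ (i j : Cell), dist i j ≤ 2 → ∀ U ∈ 𝒞, ∀ V ∈ 𝒞, (h : ℂ) * pt κ i ∈ U →
      (h : ℂ) * pt κ j ∈ V → U = V := by
    intro i j hij U hU V hV hi hj
    refine hsep U hU V hV _ hi _ hj ((COMB.dist_pt hh h1 h2 i j).trans_lt ?_)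
    nlinarith
  let S : Setoid Cell :=
    { r := fun i j => i = j ∨ ∃ U ∈ 𝒞, (h : ℂ) * pt κ i ∈ U ∧ (h : ℂ) * pt κ j ∈ U
      iseqv :=
        { refl := fun _ => Or.inl rfl
          symm := by
            rintro i j (rfl | ⟨U, hU, hi, hj⟩)
            · exact Or.inl rfl
            · exact Or.inr ⟨U, hU, hj, hi⟩
          trans := by
            rintro i j k (rfl | ⟨U, hU, hi, hj⟩) hjk
            · exact hjk
            · rcases hjk with rfl | ⟨V, hV, hj', hk⟩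
              · exact Or.inr ⟨U, hU, hi, hj⟩
              · obtain rfl := near j j (by simp) U hU V hV hj hj'
                exact Or.inr ⟨U, hU, hi, hk⟩ } }
  have hcls : ∀ i j : Cell, (Quotient.mk S i).out = (Quotient.mk S j).out ↔
      i = j ∨ ∃ U ∈ 𝒞, (h : ℂ) * pt κ i ∈ U ∧ (h : ℂ) * pt κ j ∈ U := fun i j =>
    Quotient.out_inj.trans Quotient.eq
  have hφ : ∀ (s : Sy) (i : Cell),
      (h : ℂ) * pt κ (rc s i) = h * rz κ s ((h : ℂ) * pt κ i / h) := fun s i => by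
    rw [mul_div_cancel_left₀ _ hh0, COMB.pt_rc]
  have hφi : ∀ s : Sy, Function.Injective (fun w : ℂ => (h : ℂ) * rz κ s (w / h)) := by
    intro s z w hzw
    exact (div_left_inj' hh0).1 (COMB.rz_inj κ s (mul_left_cancel₀ hh0 hzw))
  have hboth : ∀ s ∈ G, ∀ i j : Cell,
      (∃ U ∈ 𝒞, (h : ℂ) * pt κ (rc s i) ∈ U ∧ (h : ℂ) * pt κ (rc s j) ∈ U) ↔
        ∃ U ∈ 𝒞, (h : ℂ) * pt κ i ∈ U ∧ (h : ℂ) * pt κ j ∈ U := by
    intro s hs i j
    rw [hφ, hφ]
    constructor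
    · rintro ⟨U, hU, hi, hj⟩
      exact ⟨_, (hsym s hs U).1 hU, hi, hj⟩
    · rintro ⟨U, hU, hi, hj⟩
      refine ⟨(fun w : ℂ => (h : ℂ) * rz κ s (w / h)) '' U, (hsym s hs _).2 ?_,
        mem_image_of_mem _ hi, mem_image_of_mem _ hj⟩
      rw [preimage_image_eq _ (hφi s)]
      exact hU
  have hside : ∀ m : Cell, (∀ U ∈ 𝒞, (h : ℂ) * pt κ m ∉ U) → ∃ b : Cell, m ≠ b ∧
      (∀ U ∈ 𝒞, (h : ℂ) * pt κ b ∉ U) ∧ dist b m ≤ 1 := by
    intro m hm
    have dp : dist ((m.1 + 1, m.2) : Cell) m ≤ 1 := by simp [Prod.dist_eq]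
    have dm : dist ((m.1 - 1, m.2) : Cell) m ≤ 1 := by simp [Prod.dist_eq]
    by_cases hp : ∀ U ∈ 𝒞, (h : ℂ) * pt κ (m.1 + 1, m.2) ∉ U
    · exact ⟨_, fun e => by simpa using congrArg Prod.fst e, hp, dp⟩
    by_cases hn : ∀ U ∈ 𝒞, (h : ℂ) * pt κ (m.1 - 1, m.2) ∉ U
    · refine ⟨_, fun e => ?_, hn, dm⟩
      have := congrArg Prod.fst e
      simp only at this
      omega
    push Not at hp hn
    obtain ⟨U, hU, hp⟩ := hp
    obtain ⟨V, hV, hn⟩ := hn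
    obtain rfl := near _ _ ((dist_triangle_right _ _ m).trans (by linarith)) U hU V hV hp hn
    have h3 := hconv U hU hp hn (a := 1 / 2) (b := 1 / 2) (by norm_num) (by norm_num)
      (by norm_num)
    refine absurd ?_ (hm U hU)
    have e : (h : ℂ) * pt κ m = (1 / 2 : ℝ) • ((h : ℂ) * pt κ (m.1 + 1, m.2))
        + (1 / 2 : ℝ) • ((h : ℂ) * pt κ (m.1 - 1, m.2)) := by
      simp only [pt, real_smul]; push_cast; ring
    rw [e]; exact h3
  refine ⟨{ κ := κ, κ1 := h1, κ2 := h2, cls := fun i => (Quotient.mk S i).out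
            pole := fun i => ∀ U ∈ 𝒞, (h : ℂ) * pt κ i ∉ U
            sing := ?_, two := ?_, G := G, Gok := hG, Gcls := ?_, Gpole := ?_ },
    rfl, rfl, fun _ => Iff.rfl, hcls⟩
  · intro i j hi hij
    rcases (hcls i j).1 hij with e | ⟨U, hU, hiU, -⟩
    · exact e
    · exact absurd hiU (hi U hU)
  · intro k l hkl hne
    have hm : ∃ m : Cell, (∀ U ∈ 𝒞, (h : ℂ) * pt κ m ∉ U) ∧ dist m k ≤ 1 := by
      by_cases hk : ∀ U ∈ 𝒞, (h : ℂ) * pt κ k ∉ U
      · exact ⟨k, hk, by simp⟩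
      by_cases hl : ∀ U ∈ 𝒞, (h : ℂ) * pt κ l ∉ U
      · exact ⟨l, hl, by rw [dist_comm]; exact hkl⟩
      push Not at hk hl
      obtain ⟨U, hU, hk⟩ := hk
      obtain ⟨V, hV, hl⟩ := hl
      obtain rfl := near k l (by linarith) U hU V hV hk hl
      exact absurd ((hcls k l).2 (Or.inr ⟨U, hU, hk, hl⟩)) hne
    obtain ⟨m, hm, hmk⟩ := hm
    obtain ⟨b, hmb, hb, hbm⟩ := hside m hm
    exact ⟨m, b, hmb, hm, hb, by linarith, (dist_triangle b m k).trans (by linarith)⟩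
  · intro s hs i j
    rw [hcls, hcls, hboth s hs, (COMB.rc_inj s).eq_iff]
  · intro s hs i
    have h3 := hboth s hs i i
    simp only [and_self] at h3
    constructor
    · intro h4 U hU hi
      obtain ⟨V, hV, h5⟩ := h3.2 ⟨U, hU, hi⟩
      exact h4 V hV h5
    · intro h4 U hU hi
      obtain ⟨V, hV, h5⟩ := h3.1 ⟨U, hU, hi⟩
      exact h4 V hV h5

end Pool.Agent.Lib.RC
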