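import Pool.Agent.Lib.RC.NL1

set_option autoImplicit false

open Set Metric Complex Filter Topology

namespace Pool.Agent.Lib.RC

namespace Glue

open NL

variable {n : ℕ} {X : Type} [TopologicalSpace X] {𝒜 : Atlas X n} {K : Comb}
  {C1 M ε r r' C δ0 η ϱ : ℝ} {ψ : Cell → Chart X n} {e : Cell → E n} {g0 : Cell → ℂ → E n}
  {Ψ : Cell → (ℂ → E n) → E n → ℂ → E n} {g : Cell → ℂ → E n} {v : Cell → E n}

theorem nd (hS : Solved K r δ0 ϱ ψ e Ψ g v) (w : ℂ) : ‖w / ϱ‖ = ‖w‖ / ϱ := by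
  rw [norm_div, norm_real, Real.norm_eq_abs, abs_of_pos hS.ϱ0]

theorem locQ (hS : Solved K r δ0 ϱ ψ e Ψ g v) (i : Cell) {s : ℂ} (hs : s ∈ ball (0 : ℂ) 1) :
    pt K.κ i + ϱ * s ∈ Q K.κ i := by
  refine ball_Q K.κ1 i ?_
  rw [norm_mul, norm_real, Real.norm_eq_abs, abs_of_pos hS.ϱ0]
  have h1 : ‖s‖ < 1 := by simpa using hs
  nlinarith [hS.ϱ0, hS.ϱ1, norm_nonneg s]

theorem adm (hr : 0 < r) (hS : Solved K r δ0 ϱ ψ e Ψ g v) {i : Cell} {e' : E n} {ri : ℝ}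
    (h1 : r ≤ ri) (he : ‖e i - e'‖ ≤ ri / 4) :
    Adm e' ri (fun s => g i (pt K.κ i + ϱ * s)) ((ϱ : ℂ)⁻¹ • v i) := by
  refine ⟨(hS.state.hol i).comp (by fun_prop) fun s hs => locQ hS i hs, fun s hs => ?_, ?_⟩
  · have h2 := hS.gb i _ (locQ hS i hs)
    have h3 := norm_sub_le_norm_sub_add_norm_sub (g i (pt K.κ i + ϱ * s)) (e i) e'
    linarith
  · rw [norm_smul, norm_inv, norm_real, Real.norm_eq_abs, abs_of_pos hS.ϱ0, inv_mul_eq_div,
      div_le_iff₀ hS.ϱ0]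
    exact (hS.vb i).trans (mul_le_mul_of_nonneg_right h1 hS.ϱ0.le)

theorem far (hS : Solved K r δ0 ϱ ψ e Ψ g v) {w : ℂ} (hw : 1 / 5 ≤ ‖w‖) : 1 < ‖w / ϱ‖ := by
  rw [nd hS, lt_div_iff₀ hS.ϱ0]
  linarith [hS.ϱ1]

theorem Fo_np (hS : Solved K r δ0 ϱ ψ e Ψ g v) {i : Cell} (hp : ¬ K.pole i) :
    Fo K ϱ Ψ g v i = g i := by
  funext z
  simp [Fo, hp, hS.state.np i hp]

theorem Fo_p {i : Cell} (hp : K.pole i) (z : ℂ) :
    Fo K ϱ Ψ g v i z = g i z + (z - pt K.κ i)⁻¹ • v i +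
      Ψ i (fun s => g i (pt K.κ i + ϱ * s)) ((ϱ : ℂ)⁻¹ • v i) ((z - pt K.κ i) / ϱ) := by
  simp [Fo, hp]

theorem res_eq (hS : Solved K r δ0 ϱ ψ e Ψ g v) (w : ℂ) (x : E n) :
    (w / ϱ)⁻¹ • ((ϱ : ℂ)⁻¹ • x) = w⁻¹ • x := by
  have h0 : (ϱ : ℂ) ≠ 0 := by exact_mod_cast hS.ϱ0.ne'
  rw [smul_smul, inv_div, div_mul_eq_mul_div, mul_inv_cancel₀ h0, one_div]

/-- the outer representation is holomorphic and stays in the chart -/
theorem holAt_Fo (hr : 0 < r) (H : NLHyp 𝒜 K C1 M ε r r' C δ0 η ψ e g0 Ψ)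
    (hS : Solved K r δ0 ϱ ψ e Ψ g v) {i : Cell} {z : ℂ} (hz : z ∈ Q K.κ i)
    (h : K.pole i → 1 / 2 < ‖(z - pt K.κ i) / ϱ‖) :
    HolAt 𝒜 (fun z => (ψ i).symm (Fo K ϱ Ψ g v i z)) z := by
  have hg := (hS.state.hol i).differentiableAt ((isOpen_Q _ _).mem_nhds hz)
  by_cases hp : K.pole i
  · obtain ⟨e', ri, ri', Ci, D, h1, -, -, h4⟩ := H.dat i hp
    have a1 := adm hr hS h1 h4
    have h2 := h hp
    have h0 : z - pt K.κ i ≠ 0 := fun h0 => by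
      rw [h0, zero_div, norm_zero] at h2
      linarith
    refine holAt_symm (H.mem i) ?_ (D.tgt ?_)
    · have e1 : Fo K ϱ Ψ g v i = fun z => g i z + (z - pt K.κ i)⁻¹ • v i +
          Ψ i (fun s => g i (pt K.κ i + ϱ * s)) ((ϱ : ℂ)⁻¹ • v i) ((z - pt K.κ i) / ϱ) :=
        funext (Fo_p hp)
      rw [e1]
      have hi : DifferentiableAt ℂ (fun z : ℂ => (z - pt K.κ i)⁻¹) z :=
        DifferentiableAt.inv (h := fun z : ℂ => z - pt K.κ i) (by fun_prop) h0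
      refine (hg.add (hi.smul_const (v i))).add ?_
      exact DifferentiableAt.comp (f := fun z : ℂ => (z - pt K.κ i) / ϱ) z
        ((D.hol _ _ a1).differentiableAt
          ((isOpen_lt continuous_const continuous_norm).mem_nhds h2)) (by fun_prop)
    · have b1 := hS.gb i z hz
      have b2 := D.bd _ _ a1 _ h2
      have b3 : ‖(z - pt K.κ i)⁻¹ • v i‖ ≤ 2 * ri := by
        rw [← res_eq hS, norm_smul, norm_inv]
        refine mul_le_mul ?_ a1.2.2 (norm_nonneg _) (by norm_num)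
        simpa using inv_anti₀ (by norm_num) h2.le
      have b0 := D.r0
      have b4 := D.rr
      have b5 : ri' / ‖(z - pt K.κ i) / ϱ‖ ^ 2 ≤ 4 * ri' := by
        rw [div_le_iff₀ (by positivity)]
        have : 1 / 4 ≤ ‖(z - pt K.κ i) / ϱ‖ ^ 2 := by nlinarith
        nlinarith
      rw [mem_ball, dist_eq_norm, Fo_p hp]
      generalize Ψ i (fun s => g i (pt K.κ i + ϱ * s)) ((ϱ : ℂ)⁻¹ • v i) ((z - pt K.κ i) / ϱ) = τ
        at b2
      generalize (z - pt K.κ i)⁻¹ • v i = w at b3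
      have e2 : g i z + w + τ - e' = (g i z - e i) + (e i - e') + w + τ := by abel
      rw [e2]
      linarith [norm_add_le ((g i z - e i) + (e i - e') + w) τ,
        norm_add_le ((g i z - e i) + (e i - e')) w, norm_add_le (g i z - e i) (e i - e')]
  · refine holAt_symm (H.mem i) ?_ (H.tgt i (hS.Fb i z hz fun h => absurd h hp))
    rw [Fo_np hS hp]
    exact hg

theorem Fo_sym (hr : 0 < r) (H : NLHyp 𝒜 K C1 M ε r r' C δ0 η ψ e g0 Ψ)
    (hS : Solved K r δ0 ϱ ψ e Ψ g v) {s : Sy} (hs : s ∈ K.G) {i : Cell} {z : ℂ}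
    (hz : z ∈ Q K.κ i) (h : 1 / 5 ≤ ‖z - pt K.κ i‖) :
    Fo K ϱ Ψ g v (rc s i) (rz K.κ s z) = st s.1 (Fo K ϱ Ψ g v i z) := by
  by_cases hp : K.pole i
  · have hp' := (K.Gpole s hs i).2 hp
    rw [Fo_p hp, Fo_p hp', st_add, st_add, hS.state.sg s hs i z hz, rz_sub, ← H.sΨ s hs i hp,
      ← cj_div]
    obtain ⟨e', ri, ri', Ci, D, h1, -, -, h4⟩ := H.dat _ hp'
    have a1 := adm hr hS h1 h4
    have e1 : ∀ w ∈ ball (0 : ℂ) 1, g (rc s i) (pt K.κ (rc s i) + ϱ * w) =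
        st s.1 (g i (pt K.κ i + ϱ * cj s.1 w)) := fun w hw => by
      rw [← hS.state.sg s hs i _ (locQ hS i (by simpa [norm_cj] using hw)), rz_add]
    rw [hS.state.sr s hs i, sv_smul] at a1 ⊢
    have a2 : Adm e' ri (fun w => st s.1 (g i (pt K.κ i + ϱ * cj s.1 w)))
        (sv s.1 ((ϱ : ℂ)⁻¹ • v i)) :=
      ⟨a1.1.congr fun w hw => (e1 w hw).symm, fun w hw => by
        have := a1.2.1 w hw
        beta_reduce at this ⊢
        rwa [e1 w hw] at this, a1.2.2⟩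
    have a3 := D.lip _ _ _ _ 0 a1 a2 (fun w hw => by simp [e1 w hw]) (by simp)
      (cj s.1 ((z - pt K.κ i) / ϱ)) (by rw [norm_cj]; linarith [far hS h])
    rw [mul_zero, zero_div, norm_le_zero_iff, sub_eq_zero] at a3
    rw [a3, st_res]
  · rw [Fo_np hS hp, Fo_np hS fun h => hp ((K.Gpole s hs i).1 h), hS.state.sg s hs i z hz]

/-- the local maps -/
theorem loc (hr : 0 < r) (H : NLHyp 𝒜 K C1 M ε r r' C δ0 η ψ e g0 Ψ)
    (hS : Solved K r δ0 ϱ ψ e Ψ g v) (i : Cell) :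
    ∃ h : ℂ → X, (∀ z ∈ Q K.κ i, HolAt 𝒜 h z) ∧
      ∀ z, (K.pole i → 1 / 5 ≤ ‖z - pt K.κ i‖) → h z = (ψ i).symm (Fo K ϱ Ψ g v i z) := by
  classical
  by_cases hp : K.pole i
  · obtain ⟨e', ri, ri', Ci, D, h1, -, -, h4⟩ := H.dat i hp
    obtain ⟨G, hG, hG'⟩ := D.bub _ _ (adm hr hS h1 h4)
    have h0 : (ϱ : ℂ) ≠ 0 := by exact_mod_cast hS.ϱ0.ne'
    have hc : Continuous fun z : ℂ => ‖(z - pt K.κ i) / ϱ‖ := by fun_prop
    refine ⟨fun z => if ‖(z - pt K.κ i) / ϱ‖ < 1 then G ((z - pt K.κ i) / ϱ)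
      else (ψ i).symm (Fo K ϱ Ψ g v i z), fun z hz => ?_, fun z hz => ?_⟩
    · by_cases h2 : ‖(z - pt K.κ i) / ϱ‖ < 1
      · refine HolAt.congr (HolAt.comp (u := fun z : ℂ => (z - pt K.κ i) / ϱ)
          ((hol_iff isOpen_ball).1 hG _ (by simpa using h2)) (by fun_prop)) ?_
        filter_upwards [(isOpen_lt hc continuous_const).mem_nhds h2] with w hw
        exact if_pos hw
      · have h3 : 1 / 2 < ‖(z - pt K.κ i) / ϱ‖ := by linarith [not_lt.1 h2]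
        refine HolAt.congr (holAt_Fo hr H hS hz fun _ => h3) ?_
        filter_upwards [(isOpen_lt continuous_const hc).mem_nhds h3] with w hw
        split_ifs with h5
        · rw [hG' _ hw h5, Fo_p hp, res_eq hS]
          have e1 : pt K.κ i + ϱ * ((w - pt K.κ i) / ϱ) = w := by
            field_simp
            ring
          rw [e1]
        · rfl
    · exact if_neg (not_lt.2 (far hS (hz hp)).le)
  · exact ⟨fun z => (ψ i).symm (Fo K ϱ Ψ g v i z),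
      fun z hz => holAt_Fo hr H hS hz fun h => absurd h hp, fun z _ => rfl⟩

end Glue

open NL in
theorem st_GLUE : St_GLUE := by
  intro n X _ _ 𝒜 K C1 M ε r r' C δ0 η ϱ ψ e g0 Ψ g v hM hr H hS
  choose h hh he using Glue.loc hr H hS
  choose c hc using exists_Q K.κ
  have hfit : ∀ i j, ∀ z ∈ Q K.κ i, z ∈ Q K.κ j → h j z = h i z := by
    intro i j z hi hj
    by_cases hij : i = j
    · rw [hij]
    · have s1 := sep K.κ1 hi hj hij
      have s2 := sep K.κ1 hj hi (Ne.symm hij)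
      rw [he i z fun _ => s1, he j z fun _ => s2, ← hS.fit i j hij z ⟨hi, hj⟩,
        (ψ i).left_inv (H.src i j ((adj hi hj).trans (by linarith)) _ (hS.Fb j z hj fun _ => s2))]
  have hloc : ∀ i, ∀ z ∈ Q K.κ i, h (c z) z = h i z := fun i z hz => hfit i (c z) z hz (hc z)
  have hf : ∀ z, HolAt 𝒜 (fun z => h (c z) z) z := by
    intro z
    refine HolAt.congr (hh (c z) z (hc z)) ?_
    filter_upwards [(isOpen_Q _ _).mem_nhds (hc z)] with w hw using hloc _ w hw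
  refine ⟨fun z => h (c z) z, (hol_iff isOpen_univ).2 fun z _ => hf z, fun s hs z => ?_,
    fun i z hz hp => (hloc i z hz).trans (he i z hp)⟩
  have h1 : pt K.κ (0, 0) + ((1 / 2 : ℝ) : ℂ) ∈ Q K.κ (0, 0) :=
    ball_Q K.κ1 _ (by rw [norm_real, Real.norm_eq_abs, abs_of_pos (by norm_num)])
  have h2 : 1 / 5 < ‖pt K.κ (0, 0) + ((1 / 2 : ℝ) : ℂ) - pt K.κ (0, 0)‖ := by
    rw [add_sub_cancel_left, norm_real, Real.norm_eq_abs, abs_of_pos (by norm_num)]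
    norm_num
  have key := hol_id (holAt_mirror hf K.κ s) hf (z0 := pt K.κ (0, 0) + ((1 / 2 : ℝ) : ℂ)) (by
    filter_upwards [(isOpen_Q _ _).mem_nhds h1, (isOpen_lt continuous_const
      (f := fun _ : ℂ => (1 / 5 : ℝ)) (g := fun w : ℂ => ‖w - pt K.κ (0, 0)‖)
      (by fun_prop)).mem_nhds h2] with w hw hw'
    have hw2 : 1 / 5 ≤ ‖w - pt K.κ (0, 0)‖ := le_of_lt hw'
    rw [hloc _ _ (rz_Q K.κ1 s hw), hloc _ _ hw, he _ w fun _ => hw2,
      he _ _ fun _ => by rw [rz_sub, norm_cj]; exact hw2, Glue.Fo_sym hr H hS hs hw hw2,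
      H.sψ' s hs, sx_sx])
  have := congrFun key z
  beta_reduce at this ⊢
  rw [← this, sx_sx]

end Pool.Agent.Lib.RC
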