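import Pool.Agent.Lib.RC.NL2

namespace Pool.Agent.Lib.RC

open Set Metric Complex Filter Topology

namespace NL

variable {n : ℕ} {X : Type} [TopologicalSpace X] {𝒜 : Atlas X n} {K : Comb}
  {C1 C2 M ε r r' C δ0 η m δs ϱ : ℝ} {ψ : Cell → Chart X n}
  {e : Cell → E n} {g0 : Cell → ℂ → E n} {Ψ : Cell → (ℂ → E n) → E n → ℂ → E n}
  {μ μ' : ℝ} {g g' : Cell → ℂ → E n} {v v' : Cell → E n}

/-- the conclusion of LIN for the constants in use -/
def Lin (n : ℕ) (K : Comb) (C1 C2 M ε : ℝ) : Prop :=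
  ∀ δ : ℝ, 0 ≤ δ → ∀ (L : Cell → Cell → E n →L[ℂ] E n) (c : Cell → Cell → ℂ → E n),
    LinHyp K C1 M ε δ L c → ∃ (g : Cell → ℂ → E n) (v : Cell → E n), State K g v ∧
      (∀ i, ∀ z ∈ Q K.κ i, ‖g i z‖ ≤ C2 * δ) ∧ (∀ i, ‖v i‖ ≤ C2 * δ) ∧
      (∀ i j, K.cls i ≠ K.cls j → ∀ z ∈ Q K.κ i ∩ Q K.κ j,
        ‖g i z + (z - pt K.κ i)⁻¹ • v i - L i j (g j z + (z - pt K.κ j)⁻¹ • v j) - c i j z‖ ≤
          C2 * (ε + 1 / M) * δ) ∧
      ∀ i (D : ℝ), 1 ≤ D → (∀ j, dist j i ≤ D → K.cls j = K.cls i) →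
        ∀ z ∈ Q K.κ i, ‖g i z‖ ≤ C2 * δ / D

theorem lim_geo {u : ℕ → E n} (h : ∀ N, ‖u (N + 1) - u N‖ ≤ m / 2 / 2 ^ N) :
    Tendsto u atTop (𝓝 (limUnder atTop u)) ∧ ∀ N, ‖limUnder atTop u - u N‖ ≤ m / 2 ^ N := by
  have h' : ∀ N, dist (u N) (u (N + 1)) ≤ m / 2 / 2 ^ N := fun N => by
    rw [dist_comm, dist_eq_norm]; exact h N
  have t := (cauchySeq_of_le_geometric_two h').tendsto_limUnder
  exact ⟨t, fun N => by
    rw [← dist_eq_norm, dist_comm]; exact dist_le_of_le_geometric_two_of_tendsto h' t N⟩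

theorem seq {α : Type} (P : ℕ → α → Prop) (R : ℕ → α → α → Prop) (a : α) (h0 : P 0 a)
    (hs : ∀ N p, P N p → ∃ q, P (N + 1) q ∧ R N p q) :
    ∃ S : ℕ → α, (∀ N, P N (S N)) ∧ ∀ N, R N (S N) (S (N + 1)) := by
  choose! nx h1 h2 using hs
  have h3 : ∀ N, P N (Nat.rec a nx N) := fun N => by
    induction N with
    | zero => exact h0
    | succ N ih => exact h1 N _ ih
  exact ⟨fun N => Nat.rec a nx N, h3, fun N => h2 N _ (h3 N)⟩

theorem geo0 (a : ℝ) : Tendsto (fun N : ℕ => a / 2 ^ N) atTop (𝓝 0) :=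
  tendsto_const_nhds.div_atTop (tendsto_pow_atTop_atTop_of_one_lt one_lt_two)

section
variable (H : NLHyp 𝒜 K C1 M ε r r' C δ0 η ψ e g0 Ψ) (c : Cst C1 C2 M ε r r' C δ0 η m δs ϱ)
include H c

theorem init : Nr K g0 0 g0 0 ∧ Mis K ψ (FF K Ψ ϱ g0 0) δs := by
  have h : Nr K g0 0 g0 0 := ⟨H.s0, by simp, by simp, by simp⟩
  refine ⟨h, fun i k z hz => ?_⟩
  unfold mis
  split_ifs with hc
  · simpa using c.ds0.le
  · have hn : i ≠ k := fun h => hc (h ▸ rfl)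
    have hd : dist i k ≤ M := (adj hz.1 hz.2).trans (by linarith [c.M'])
    have gk := gd_of hz.2 hz.1 hn.symm
    have h1 := T_lip H hd (F_ball H c h c.m0.le gk)
      (mem_ball_self (by linarith [c.bl, c.η0, c.m0, c.ds0]))
    have h2 := (F_gd H c h c.m0.le gk).2.2
    have h3 := (F_gd H c h c.m0.le (gd_of hz.1 hz.2 hn)).2.2
    have h4 : ‖TT ψ i k (e k) - e i‖ ≤ η := H.ctr i k hd
    have h5 := norm_sub_le_norm_sub_add_norm_sub (TT ψ i k (FF K Ψ ϱ g0 0 k z)) (TT ψ i k (e k)) (e i)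
    have h6 := norm_sub_le_norm_sub_add_norm_sub (TT ψ i k (FF K Ψ ϱ g0 0 k z)) (e i)
      (FF K Ψ ϱ g0 0 i z)
    rw [norm_sub_rev (e i)] at h6
    have h7 := mul_le_mul (by linarith [c.ε1] : C1 + ε ≤ C1 + 1) h2 (norm_nonneg _)
      (by linarith [c.C1'])
    rw [c.ds]
    linarith

theorem F_near (h : Nr K g0 μ g v) (hμ : μ ≤ m) (h' : Nr K g0 μ' g' v') (hμ' : μ' ≤ m) {d : ℝ}
    {i : Cell} (hg : ∀ z ∈ Q K.κ i, ‖g' i z - g i z‖ ≤ d) (hv : ‖v' i - v i‖ ≤ d) {z : ℂ}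
    (hz : Gd K i z) : ‖FF K Ψ ϱ g' v' i z - FF K Ψ ϱ g v i z‖ ≤ 7 * d := by
  have d0 : 0 ≤ d := (norm_nonneg _).trans hv
  have h1 := tau_lip H c h hμ h' hμ' hg hv hz
  have h2 := res_le (w := v' i - v i) hz fun hp => by rw [h.st.np i hp, h'.st.np i hp, sub_zero]
  have h3 : 25 * C * ϱ ≤ 1 := by
    have := mul_nonneg (mul_nonneg (by norm_num : (0 : ℝ) ≤ 25) c.C0) c.ρ0.le
    nlinarith [c.t2, c.C1', c.C2', mul_nonneg (sub_nonneg.2 c.C1') (sub_nonneg.2 c.C2'),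
      mul_nonneg this (sub_nonneg.2 c.C1'), mul_nonneg this (sub_nonneg.2 c.C2'),
      mul_nonneg this (mul_nonneg (sub_nonneg.2 c.C1') (sub_nonneg.2 c.C2'))]
  have e1 : FF K Ψ ϱ g' v' i z - FF K Ψ ϱ g v i z = g' i z - g i z +
      (z - pt K.κ i)⁻¹ • (v' i - v i) + (tau K Ψ ϱ g' v' i z - tau K Ψ ϱ g v i z) := by
    unfold FF; rw [smul_sub]; abel
  rw [e1]
  refine norm_add₃_le.trans ?_
  nlinarith [hg z hz.1, mul_le_mul_of_nonneg_right h3 d0]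

theorem step (hL : Lin n K C1 C2 M (ε * C1)) (h : Nr K g0 μ g v) {δ : ℝ} (d0 : 0 ≤ δ)
    (hδ : δ ≤ δs) (hμ : μ + C2 * δ ≤ m) (hm : Mis K ψ (FF K Ψ ϱ g v) δ) :
    ∃ g' v', Nr K g0 (μ + C2 * δ) g' v' ∧ Mis K ψ (FF K Ψ ϱ g' v') (δ / 2) ∧
      (∀ i, ∀ z ∈ Q K.κ i, ‖g' i z - g i z‖ ≤ C2 * δ) ∧ ∀ i, ‖v' i - v i‖ ≤ C2 * δ := by
  have := c.C2'
  have hμ0 : μ ≤ m := by nlinarith
  obtain ⟨a, w, hs, ha, hw, hb, hD⟩ := hL δ d0 _ _ (linHyp H c h hμ0 hδ hm)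
  have h' : Nr K g0 (μ + C2 * δ) (g + a) (v + w) := by
    refine ⟨⟨fun i j hc => ?_, fun i hp => ?_, fun i => (h.st.hol i).add (hs.hol i),
      fun s hG i z hz => ?_, fun s hG i => ?_⟩, fun i z hz => ?_, fun i => ?_,
      fun i D h1 h2 z hz => ?_⟩
    · simp [h.st.cl i j hc, hs.cl i j hc]
    · simp [h.st.np i hp, hs.np i hp]
    · simp only [Pi.add_apply, st_add, h.st.sg s hG i z hz, hs.sg s hG i z hz]
    · simp only [Pi.add_apply, sv_add, h.st.sr s hG i, hs.sr s hG i]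
    · rw [Pi.add_apply, Pi.add_apply, add_sub_right_comm]
      exact norm_add_le_of_le (h.gb i z hz) (ha i z hz)
    · exact norm_add_le_of_le (h.vb i) (hw i)
    · rw [Pi.add_apply, Pi.add_apply, add_sub_right_comm, add_div]
      exact norm_add_le_of_le (h.dp i D h1 h2 z hz) (hD i D h1 h2 z hz)
  have hg : ∀ i, ∀ z ∈ Q K.κ i, ‖(g + a) i z - g i z‖ ≤ C2 * δ := fun i z hz => by
    simpa using ha i z hz
  have hv : ∀ i, ‖(v + w) i - v i‖ ≤ C2 * δ := fun i => by simpa using hw i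
  refine ⟨g + a, v + w, h', fun i k z hz => ?_, hg, hv⟩
  by_cases hc : K.cls i = K.cls k
  · simp only [mis, if_pos hc, Pi.zero_apply, norm_zero]; positivity
  have hn : i ≠ k := fun h => hc (h ▸ rfl)
  have hd : dist i k ≤ M := (adj hz.1 hz.2).trans (by linarith [c.M'])
  have gi := gd_of hz.1 hz.2 hn
  have gk := gd_of hz.2 hz.1 hn.symm
  have h1 := hb i k hc z hz
  rw [mis_eq H c h hμ0 gk] at h1
  rw [mis_eq H c h' hμ gk]
  have h2 := (T_app H hd (F_ball H c h' hμ gk) (F_ball H c h hμ0 gk)).trans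
    (mul_le_mul_of_nonneg_left (F_near H c h hμ0 h' hμ (hg k) (hv k) gk) c.e0)
  have h3 := tau_lip H c h hμ0 h' hμ (hg i) (hv i) gi
  have h4 := ((LL ψ e i k).le_of_opNorm_le (H.Lb i k hd) _).trans (mul_le_mul_of_nonneg_left
    (tau_lip H c h hμ0 h' hμ (hg k) (hv k) gk) (by linarith [c.C1']))
  have e1 : ∀ j, FF K Ψ ϱ (g + a) (v + w) j z - FF K Ψ ϱ g v j z = a j z + (z - pt K.κ j)⁻¹ • w j +
      (tau K Ψ ϱ (g + a) (v + w) j z - tau K Ψ ϱ g v j z) := fun j => by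
    unfold FF; simp only [Pi.add_apply, smul_add]; abel
  rw [e1, map_add] at h2
  rw [eq_add_of_sub_eq (e1 i)]
  generalize tau K Ψ ϱ (g + a) (v + w) i z - tau K Ψ ϱ g v i z = t1 at *
  generalize LL ψ e i k (tau K Ψ ϱ (g + a) (v + w) k z - tau K Ψ ϱ g v k z) = t2 at *
  generalize LL ψ e i k (a k z + (z - pt K.κ k)⁻¹ • w k) = t3 at *
  generalize a i z + (z - pt K.κ i)⁻¹ • w i = t4 at *
  generalize TT ψ i k (FF K Ψ ϱ (g + a) (v + w) k z) = t5 at *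
  generalize TT ψ i k (FF K Ψ ϱ g v k z) = t6 at *
  generalize FF K Ψ ϱ g v i z = t7 at *
  have e2 : t5 - (t4 + t1 + t7) = (t5 - t6 - (t3 + t2)) + t2 - (t4 - t3 - (t6 - t7)) - t1 := by abel
  rw [e2]
  have h5 := norm_sub_le_of_le (norm_sub_le_of_le (norm_add_le_of_le h2 h4) h1) h3
  nlinarith [mul_le_mul_of_nonneg_right c.stp d0, mul_le_mul_of_nonneg_right c.t2 d0]

theorem limit (hL : Lin n K C1 C2 M (ε * C1)) :
    ∃ g v, Nr K g0 m g v ∧ Mis K ψ (FF K Ψ ϱ g v) 0 := by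
  have := c.m0
  have := c.ds0
  obtain ⟨S, hS, hR⟩ : ∃ S : ℕ → (Cell → ℂ → E n) × (Cell → E n),
      (∀ N, Nr K g0 (m - m / 2 ^ N) (S N).1 (S N).2 ∧
        Mis K ψ (FF K Ψ ϱ (S N).1 (S N).2) (δs / 2 ^ N)) ∧
      ∀ N, (∀ i, ∀ z ∈ Q K.κ i, ‖(S (N + 1)).1 i z - (S N).1 i z‖ ≤ m / 2 / 2 ^ N) ∧
        ∀ i, ‖(S (N + 1)).2 i - (S N).2 i‖ ≤ m / 2 / 2 ^ N := by
    refine seq (α := (Cell → ℂ → E n) × (Cell → E n))
      (fun N p => Nr K g0 (m - m / 2 ^ N) p.1 p.2 ∧ Mis K ψ (FF K Ψ ϱ p.1 p.2) (δs / 2 ^ N))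
      (fun N p q => (∀ i, ∀ z ∈ Q K.κ i, ‖q.1 i z - p.1 i z‖ ≤ m / 2 / 2 ^ N) ∧
        ∀ i, ‖q.2 i - p.2 i‖ ≤ m / 2 / 2 ^ N) (g0, 0) (by simpa using init H c) fun N p hp => ?_
    have e1 : C2 * (δs / 2 ^ N) = m / 2 / 2 ^ N := by rw [c.hm]; ring
    have e2 : m - m / 2 ^ N + m / 2 / 2 ^ N = m - m / 2 ^ (N + 1) := by ring
    have e3 : δs / 2 ^ N / 2 = δs / 2 ^ (N + 1) := by ring
    obtain ⟨g', v', h1, h2, h3⟩ := step H c hL hp.1 (by positivity)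
      (div_le_self this.le (one_le_pow₀ one_le_two))
      (by rw [e1, e2]; exact sub_le_self _ (by positivity)) hp.2
    rw [e1] at h1 h3
    rw [e2] at h1
    rw [e3] at h2
    exact ⟨(g', v'), ⟨h1, h2⟩, h3⟩
  have hle : ∀ N : ℕ, m - m / 2 ^ N ≤ m := fun N => sub_le_self _ (by positivity)
  have tg := fun i z hz => lim_geo (u := fun N => (S N).1 i z) fun N => (hR N).1 i z hz
  have tv := fun i => lim_geo (u := fun N => (S N).2 i) fun N => (hR N).2 i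
  have h : Nr K g0 m (fun i z => limUnder atTop fun N => (S N).1 i z)
      fun i => limUnder atTop fun N => (S N).2 i := by
    refine ⟨⟨fun i j hc => ?_, fun i hp => ?_, fun i => ?_, fun s hG i z hz => ?_,
      fun s hG i => ?_⟩, fun i z hz => ?_, fun i => ?_, fun i D h1 h2 z hz => ?_⟩
    · simp only [fun N => (hS N).1.st.cl i j hc]
    · simp only [fun N => (hS N).1.st.np i hp]; exact tendsto_const_nhds.limUnder_eq
    · refine TendstoLocallyUniformlyOn.differentiableOn (φ := atTop) (F := fun N => (S N).1 i)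
        (TendstoUniformlyOn.tendstoLocallyUniformlyOn ?_)
        (Eventually.of_forall fun N => (hS N).1.st.hol i) (isOpen_Q _ _)
      refine Metric.tendstoUniformlyOn_iff.2 fun a ha => ?_
      filter_upwards [(geo0 m).eventually (gt_mem_nhds ha)] with N hN z hz
      rw [dist_eq_norm]; exact ((tg i z hz).2 N).trans_lt hN
    · simp only [fun N => (hS N).1.st.sg s hG i z hz]
      exact (((cont_st _).tendsto _).comp (tg i z hz).1).limUnder_eq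
    · simp only [fun N => (hS N).1.st.sr s hG i]
      exact (((cont_sv _).tendsto _).comp (tv i).1).limUnder_eq
    · exact le_of_tendsto' ((tg i z hz).1.sub_const _).norm
        fun N => ((hS N).1.gb i z hz).trans (hle N)
    · exact le_of_tendsto' (tv i).1.norm fun N => ((hS N).1.vb i).trans (hle N)
    · exact le_of_tendsto' ((tg i z hz).1.sub_const _).norm fun N =>
        ((hS N).1.dp i D h1 h2 z hz).trans (div_le_div_of_nonneg_right (hle N) (by linarith))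
  refine ⟨_, _, h, fun i k z hz => ?_⟩
  by_cases hc : K.cls i = K.cls k
  · simp [mis, if_pos hc]
  have hn : i ≠ k := fun h => hc (h ▸ rfl)
  have hd : dist i k ≤ M := (adj hz.1 hz.2).trans (by linarith [c.M'])
  have gi := gd_of hz.1 hz.2 hn
  have gk := gd_of hz.2 hz.1 hn.symm
  refine ge_of_tendsto' (geo0 (δs + (C1 + ε + 1) * 7 * m)) fun N => ?_
  have h1 := (hS N).2 i k z hz
  rw [mis_eq H c (hS N).1 (hle N) gk] at h1
  rw [mis_eq H c h le_rfl gk]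
  have h2 := (T_lip H hd (F_ball H c h le_rfl gk) (F_ball H c (hS N).1 (hle N) gk)).trans
    (mul_le_mul_of_nonneg_left (F_near H c (hS N).1 (hle N) h le_rfl (fun z hz => (tg k z hz).2 N)
      ((tv k).2 N) gk) (by linarith [c.C1', c.e0]))
  have h3 := F_near H c (hS N).1 (hle N) h le_rfl (fun z hz => (tg i z hz).2 N) ((tv i).2 N) gi
  have e2 : ∀ a b a' b' : E n, a - b = a - a' + (a' - b') - (b - b') := fun _ _ _ _ => by abel
  rw [e2]
  exact (norm_sub_le_of_le (norm_add_le_of_le h2 h1) h3).trans_eq (by ring)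

end

theorem small (a : ℝ) {b : ℝ} (hb : 0 < b) : ∀ᶠ η in 𝓝 (0 : ℝ), a * η < b :=
  ((continuous_const.mul continuous_id).tendsto' 0 0 (by simp)).eventually (gt_mem_nhds hb)

end NL

open NL in
theorem st_NLE (hL : St_LIN) : St_NLE := by
  intro n C1 hC1
  obtain ⟨C2, hC2, hL⟩ := hL n C1 hC1
  obtain ⟨B, hB⟩ : ∃ B, B = 2 * C2 * (2 * C1 + 5) := ⟨_, rfl⟩
  have B0 : 0 < B := by rw [hB]; positivity
  refine ⟨1 / (64 * C1 * C2), 10 * C2, 6 * B + 1, by positivity, by linarith, by positivity,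
    fun r r' C δ0 hr hδ => ?_⟩
  obtain ⟨η0, hη0, hη⟩ := Metric.eventually_nhds_iff.1 ((small (B / r) (by norm_num : (0 : ℝ) < 1 / 10)).and
    ((small (25 * r' * (B / r) ^ 2) one_pos).and
    ((small ((C1 + 1) * (25 * |C| * (B / r)) * C2) (by norm_num : (0 : ℝ) < 1 / 8)).and
    ((small (1 + B) (half_pos hr)).and (small (2 + 6 * B + (2 * C1 + 5)) hδ)))))
  refine ⟨η0 / 2, half_pos hη0, fun η h0 h1 X _ _ 𝒜 K ψ e g0 Ψ H0 => ?_⟩
  obtain ⟨a1, a2, a3, a4, a5⟩ := hη (y := η)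
    (by rw [dist_zero_right, Real.norm_eq_abs, abs_of_pos h0]; linarith)
  have H : NLHyp 𝒜 K C1 (10 * C2) (1 / (64 * C1 * C2)) r r' |C| δ0 η ψ e g0 Ψ :=
    { H0 with
      dat := fun i hp => by
        obtain ⟨e', ri, ri', Ci, D, b1, b2, b3, b4⟩ := H0.dat i hp
        exact ⟨e', ri, ri', Ci, D, b1, b2, b3.trans (le_abs_self C), b4⟩ }
  have e1 : 1 / (64 * C1 * C2) * C1 = 1 / (64 * C2) := by field_simp
  have e2 : 1 / (64 * C2) ≤ 1 := by rw [div_le_one (by positivity)]; linarith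
  have c : Cst C1 C2 (10 * C2) (1 / (64 * C1 * C2)) r r' |C| δ0 η (B * η) ((2 * C1 + 5) * η)
      (B / r * η) := by
    refine ⟨hC1, hC2, by linarith, by positivity, e1 ▸ e2, ?_, hr, abs_nonneg C, h0, rfl,
      by rw [hB]; ring, by field_simp, by positivity, a1.le, by nlinarith, by linarith,
      by linarith, by linarith⟩
    have e3 : C2 * (1 / (64 * C1 * C2) * C1 + 1 / (10 * C2)) + 7 * (1 / (64 * C1 * C2)) * C2 =
      1 / 64 + 1 / 10 + 7 / 64 / C1 := by field_simp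
    linarith [div_le_self (by norm_num : (0 : ℝ) ≤ 7 / 64) hC1]
  obtain ⟨g, v, h, hm⟩ := limit H c fun δ hδ =>
    hL K _ _ δ (by linarith) (by positivity) (e1 ▸ e2) hδ
  refine ⟨B / r * η, g, v, ⟨c.ρ0, c.ρ1, h.st, fun i z hz => ?_, fun i => ?_,
    fun i z hz hp => F_ball H c h le_rfl ⟨hz, hp⟩, fun i j hn z hz => ?_⟩,
    fun i z hz hp => ((F_gd H c h le_rfl ⟨hz, hp⟩).2.1).trans_eq (by ring),
    fun i D hD hc z hz => (h.dp i D hD hc z hz).trans ?_⟩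
  · linarith [norm_sub_le_norm_sub_add_norm_sub (g i z) (g0 i z) (e i), h.gb i z hz, H.g0b i z hz,
      c.ad]
  · rw [mul_comm, c.hρ]; exact h.vb i
  · have := hm i j z hz
    rw [mis_eq H c h le_rfl (gd_of hz.2 hz.1 hn.symm), norm_le_zero_iff, sub_eq_zero] at this
    exact this
  · exact div_le_div_of_nonneg_right (by nlinarith) (by linarith)

end Pool.Agent.Lib.RC
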