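import Pool.Agent.Lib.RC.BlueA

namespace Pool.Agent.Lib.RC.UC

open Set Metric Complex Filter Topology

/-- uniform continuity at the points of a compact set -/
theorem unif_at {α β : Type*} [PseudoMetricSpace α] [PseudoMetricSpace β] {K : Set α}
    (hK : IsCompact K) {f : α → β} (hf : ∀ a ∈ K, ContinuousAt f a) {ε : ℝ} (hε : 0 < ε) :
    ∃ δ > 0, ∀ x ∈ K, ∀ y, dist y x < δ → dist (f y) (f x) < ε := by
  have h := hK.uniformContinuousAt_of_continuousAt f hf (dist_mem_uniformity hε)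
  obtain ⟨δ, hδ, h⟩ := mem_uniformity_dist.1 h
  refine ⟨δ, hδ, fun x hx y hy => ?_⟩
  rw [dist_comm] at hy ⊢
  exact h hy hx

theorem nhd_sub {α : Type*} [PseudoMetricSpace α] {K U : Set α} (hK : IsCompact K)
    (hU : IsOpen U) (h : K ⊆ U) : ∃ δ > 0, ∀ x ∈ K, ∀ y, dist y x < δ → y ∈ U := by
  obtain ⟨δ, hδ, hs⟩ := hK.exists_thickening_subset_open hU h
  exact ⟨δ, hδ, fun x hx y hy => hs (mem_thickening_iff.2 ⟨x, hx, hy⟩)⟩

theorem ev_small {p : ℝ → Prop} (hm : ∀ a b, 0 < a → a ≤ b → p b → p a) {δ : ℝ} (hδ : 0 < δ)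
    (h : p δ) : ∀ᶠ a in 𝓝[>] (0 : ℝ), p a := by
  filter_upwards [Ioo_mem_nhdsGT hδ] with a ha using hm a δ ha.1 ha.2.le h

theorem ex_small {p : ℝ → Prop} (h : ∀ᶠ a in 𝓝[>] (0 : ℝ), p a) : ∃ a, 0 < a ∧ p a :=
  (Filter.Eventually.and (self_mem_nhdsWithin : ∀ᶠ a in 𝓝[>] (0 : ℝ), a ∈ Ioi (0 : ℝ)) h).exists

variable {X : Type} [MetricSpace X] {n : ℕ}

/-- forward modulus of a chart on a compact set -/
theorem chart_fwd (ψ : Chart X n) {K : Set X} (hK : IsCompact K) (hs : K ⊆ ψ.source) {η : ℝ}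
    (hη : 0 < η) : ∀ᶠ γ in 𝓝[>] (0 : ℝ), ∀ x ∈ K, ∀ y, dist y x < γ → ‖ψ y - ψ x‖ ≤ η := by
  obtain ⟨γ, hγ, h⟩ := unif_at hK (fun a ha => ψ.continuousAt (hs ha)) hη
  refine ev_small (fun a b _ hab hb x hx y hy => hb x hx y (hy.trans_le hab)) hγ ?_
  intro x hx y hy
  rw [← dist_eq_norm]
  exact (h x hx y hy).le

/-- backward modulus of a chart on a compact set -/
theorem chart_bwd (ψ : Chart X n) {K : Set X} (hK : IsCompact K) (hs : K ⊆ ψ.source) {ε : ℝ}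
    (hε : 0 < ε) : ∀ᶠ δ in 𝓝[>] (0 : ℝ), ∀ x ∈ K, ∀ y ∈ ψ.source, ‖ψ y - ψ x‖ < δ →
      dist y x < ε := by
  have hK' : IsCompact (ψ '' K) := hK.image_of_continuousOn (ψ.continuousOn.mono hs)
  obtain ⟨δ, hδ, h⟩ := unif_at hK' (f := ψ.symm) (by
    rintro _ ⟨a, ha, rfl⟩
    exact ψ.continuousAt_symm (ψ.map_source (hs ha))) hε
  refine ev_small (fun a b _ hab hb x hx y hy hxy => hb x hx y hy (hxy.trans_le hab)) hδ ?_
  intro x hx y hy hxy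
  have := h _ (mem_image_of_mem _ hx) (ψ y) (by rwa [dist_eq_norm])
  rwa [ψ.left_inv hy, ψ.left_inv (hs hx)] at this

/-- uniform chart change for one pair of stations -/
def UCP (ψ : Chart X n) (K : Set X) (ψ' : Chart X n) (K' : Set X) (C1 ε δ : ℝ) : Prop :=
  ∀ x ∈ K', ∀ y ∈ K, dist x y < δ →
    (∀ w ∈ ball (ψ' x) δ, w ∈ ψ'.target ∧ ψ'.symm w ∈ ψ.source ∧
      ‖fderiv ℂ (fun y => ψ (ψ'.symm y)) w - fderiv ℂ (fun y => ψ (ψ'.symm y)) (ψ' x)‖ ≤ ε) ∧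
    ‖fderiv ℂ (fun y => ψ (ψ'.symm y)) (ψ' x)‖ ≤ C1

theorem uc_pair (𝒜 : Atlas X n) {ψ ψ' : Chart X n} (hψ : ψ ∈ 𝒜.A) (hψ' : ψ' ∈ 𝒜.A)
    {K K' : Set X} (hK : IsCompact K) (hs : K ⊆ ψ.source) (hK' : IsCompact K')
    (hs' : K' ⊆ ψ'.source) :
    ∀ᶠ C1 in (atTop : Filter ℝ), ∀ ε > 0, ∀ᶠ δ in 𝓝[>] (0 : ℝ), UCP ψ K ψ' K' C1 ε δ := by
  obtain ⟨γ, hγ, hγs⟩ := hK.exists_cthickening_subset_open ψ.open_source hs
  have hN : IsCompact (K' ∩ cthickening γ K) := hK'.inter_right isClosed_cthickening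
  have hN' : IsCompact (ψ' '' (K' ∩ cthickening γ K)) :=
    hN.image_of_continuousOn (ψ'.continuousOn.mono fun a ha => hs' ha.1)
  have hO : ψ' '' (K' ∩ cthickening γ K) ⊆ ψ'.target ∩ ψ'.symm ⁻¹' ψ.source := by
    rintro _ ⟨a, ha, rfl⟩
    refine ⟨ψ'.map_source (hs' ha.1), ?_⟩
    rw [mem_preimage, ψ'.left_inv (hs' ha.1)]
    exact hγs ha.2
  have hc : ∀ w ∈ ψ' '' (K' ∩ cthickening γ K),
      ContinuousAt (fderiv ℂ (fun y => ψ (ψ'.symm y))) w := fun w hw =>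
    (𝒜.tr ψ' hψ' ψ hψ w (hO hw).1 (hO hw).2).fderiv.continuousAt
  obtain ⟨C, hC⟩ := hN'.exists_bound_of_continuousOn
    (fun w hw => (hc w hw).continuousWithinAt)
  obtain ⟨δ1, hδ1, h1⟩ := nhd_sub hN' (ψ'.isOpen_inter_preimage_symm ψ.open_source) hO
  filter_upwards [eventually_ge_atTop C] with C1 hC1 ε hε
  obtain ⟨δ2, hδ2, h2⟩ := unif_at hN' hc hε
  filter_upwards [Ioo_mem_nhdsGT (lt_min hγ (lt_min hδ1 hδ2))] with δ hδ x hx y hy hxy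
  have hd := hδ.2
  simp only [lt_min_iff] at hd
  have hxN : ψ' x ∈ ψ' '' (K' ∩ cthickening γ K) :=
    mem_image_of_mem _ ⟨hx, mem_cthickening_of_dist_le x y γ K hy (hxy.trans hd.1).le⟩
  refine ⟨fun w hw => ?_, (hC _ hxN).trans hC1⟩
  have h3 := h1 _ hxN w ((mem_ball.1 hw).trans hd.2.1)
  refine ⟨h3.1, h3.2, ?_⟩
  rw [← dist_eq_norm]
  exact (h2 _ hxN w ((mem_ball.1 hw).trans hd.2.2)).le

end Pool.Agent.Lib.RC.UC

namespace Pool.Agent.Lib.RC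

open Set Metric Filter Topology UC

theorem st_UC : St_UC := by
  intro n X _ 𝒜 S _ ψ Kc hA hK hs
  have h1 : ∀ᶠ C1 in (atTop : Filter ℝ), ∀ a b, ∀ ε > 0, ∀ᶠ δ in 𝓝[>] (0 : ℝ),
      UCP (ψ a) (Kc a) (ψ b) (Kc b) C1 ε δ :=
    eventually_all.2 fun a => eventually_all.2 fun b =>
      uc_pair 𝒜 (hA a) (hA b) (hK a) (hs a) (hK b) (hs b)
  obtain ⟨C1, hC1, hU⟩ := ((eventually_ge_atTop (1 : ℝ)).and h1).exists
  refine ⟨C1, hC1, fun ε hε => ?_, fun η hη => ?_, fun ε hε => ?_⟩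
  · obtain ⟨δ, hδ, h⟩ := ex_small
      (eventually_all.2 fun a => eventually_all.2 fun b => hU a b ε hε)
    refine ⟨δ, δ / 2, hδ, by linarith, fun a b x hx x' hx' hd => ?_⟩
    have := h a b x' hx' x hx (by rw [dist_comm]; linarith)
    exact ⟨fun y hy => (this.1 y hy).1, fun y hy => (this.1 y hy).2, this.2⟩
  · have h2 : ∀ a, ∀ᶠ γ in 𝓝[>] (0 : ℝ), ∀ x ∈ Kc a, ∀ y, dist y x < γ → y ∈ (ψ a).source := by
      intro a
      obtain ⟨δ, hδ, h⟩ := nhd_sub (hK a) (ψ a).open_source (hs a)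
      exact ev_small (fun a b _ hab hb x hx y hy => hb x hx y (hy.trans_le hab)) hδ h
    obtain ⟨γ, hγ, h⟩ := ex_small (eventually_all.2 fun a =>
      (h2 a).and (chart_fwd (ψ a) (hK a) (hs a) hη))
    refine ⟨γ / 2, by linarith, fun a x hx x' hd => ?_⟩
    have h3 : dist x' x < γ := by rw [dist_comm]; linarith
    exact ⟨(h a).1 x hx x' h3, (h a).2 x hx x' h3⟩
  · obtain ⟨δ, hδ, h⟩ := ex_small (eventually_all.2 fun a => chart_bwd (ψ a) (hK a) (hs a) hε)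
    exact ⟨δ / 2, by linarith, fun a x hx x' hx' hd => h a x hx x' hx' (by linarith)⟩

end Pool.Agent.Lib.RC
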