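import Pool.Agent.Lib.RC.NL1

namespace Pool.Agent.Lib.RC.Mir2

open Set Metric Complex Filter Topology

variable {n : ℕ}

theorem cj_cj (z : ℂ) : cj true (cj true z) = z := by simp [cj]
theorem norm_cj (z : ℂ) : ‖cj true z‖ = ‖z‖ := by simp [cj]

theorem diffAt_mir {g : ℂ → E n} {z : ℂ} (h : DifferentiableAt ℂ g (cj true z)) :
    DifferentiableAt ℂ (fun w => star (g (cj true w))) z := by
  have h1 : DifferentiableAt ℂ (fun w => g (-w)) (starRingEnd ℂ z) :=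
    DifferentiableAt.comp (g := g) (f := fun w : ℂ => -w) _ h (by fun_prop)
  have h4 := h1.star_conj
  rw [conj_conj] at h4
  exact h4

theorem diffOn_mir {g : ℂ → E n} {U : Set ℂ} (hU : IsOpen U) (hs : ∀ z ∈ U, cj true z ∈ U)
    (h : DifferentiableOn ℂ g U) : DifferentiableOn ℂ (fun w => star (g (cj true w))) U :=
  fun z hz => (diffAt_mir (h.differentiableAt (hU.mem_nhds (hs z hz)))).differentiableWithinAt

theorem ball_cj {z : ℂ} (hz : z ∈ ball (0 : ℂ) 1) : cj true z ∈ ball (0 : ℂ) 1 := by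
  rwa [mem_ball_zero_iff, norm_cj, ← mem_ball_zero_iff]

theorem adm_mir {e : E n} {r : ℝ} {g : ℂ → E n} {v : E n} (h : Adm (star e) r g v) :
    Adm e r (fun w => star (g (cj true w))) (-star v) := by
  refine ⟨diffOn_mir isOpen_ball (fun z hz => ball_cj hz) h.1, fun s hs => ?_, by simpa using h.2.2⟩
  have := h.2.1 _ (ball_cj hs)
  rwa [← norm_star, star_sub, star_star] at this

variable {X : Type} [TopologicalSpace X] {𝒜 : Atlas X n}

theorem hol_mir {G : ℂ → X} {U : Set ℂ} (hU : IsOpen U) (hs : ∀ z ∈ U, cj true z ∈ U)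
    (h : Hol 𝒜 G U) : Hol 𝒜 (fun z => 𝒜.σ (G (cj true z))) U := by
  have hc : Continuous (cj true) := continuous_conj.neg
  rw [NL.hol_iff hU] at h ⊢
  intro z hz
  have h1 := h _ (hs z hz)
  refine ⟨𝒜.σc.continuousAt.comp (h1.1.comp hc.continuousAt), fun ψ hψ hx => ?_⟩
  obtain ⟨ψ', hψ', h2, h3, -⟩ := 𝒜.mir ψ hψ
  have h4 := diffAt_mir (h1.2 ψ' hψ' (by rw [h2]; exact hx))
  refine h4.congr_of_eventuallyEq (Eventually.of_forall fun w => ?_)
  simp [h3]

theorem st_MIR : St_MIR := by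
  intro n X _ 𝒜 ψ ψ' e r r' C Ψ hD hψ' hm
  have ho : IsOpen {s : ℂ | 1 / 2 < ‖s‖} := isOpen_lt continuous_const continuous_norm
  refine ⟨hψ', hD.r0, hD.rr, fun y hy => ?_, fun g v hA => ?_, fun g v hA s hs => ?_,
    fun g v g' v' d hA hA' h1 h2 s hs => ?_, fun g v hA => ?_⟩
  · have h1 : star y ∈ ψ.target := by
      refine hD.tgt ?_
      rw [mem_ball, dist_eq_norm] at hy ⊢
      rwa [← norm_star, star_sub, star_star]
    have h2 : 𝒜.σ (ψ.symm (star y)) ∈ ψ'.source := by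
      rw [hm.1, mem_preimage, 𝒜.σσ]
      exact ψ.map_target h1
    have h3 := ψ'.map_source h2
    rwa [hm.2.1, 𝒜.σσ, ψ.right_inv h1, star_star] at h3
  · exact diffOn_mir ho (fun z hz => by simpa [norm_cj] using hz) (hD.hol _ _ (adm_mir hA))
  · have := hD.bd _ _ (adm_mir hA) (cj true s) (by rwa [norm_cj])
    rwa [norm_cj, ← norm_star] at this
  · have := hD.lip _ _ _ _ d (adm_mir hA) (adm_mir hA') (fun w hw => by
      rw [← star_sub, norm_star]
      exact h1 _ (ball_cj hw)) (by rwa [neg_sub_neg, ← star_sub, norm_star, norm_sub_rev])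
      (cj true s) (by rwa [norm_cj])
    rwa [norm_cj, ← norm_star, star_sub] at this
  · obtain ⟨G, hG, he⟩ := hD.bub _ _ (adm_mir hA)
    refine ⟨_, hol_mir isOpen_ball (fun z hz => ball_cj hz) hG, fun s h1 h2 => ?_⟩
    rw [he _ (by rwa [norm_cj]) (by rwa [norm_cj]), hm.2.2]
    congr 2
    simp [mirΨ, cj, star_smul]

theorem isOpen_Good (𝒜 : Atlas X n) : IsOpen (Good 𝒜) := by
  rw [isOpen_iff_mem_nhds]
  rintro x ⟨ψ, e, r, r', C, Ψ, hD, hx, hn⟩
  have h1 : ContinuousAt (fun y => ‖ψ y - e‖) x :=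
    ((ψ.continuousAt hx).sub continuousAt_const).norm
  filter_upwards [ψ.open_source.mem_nhds hx, h1.eventually (gt_mem_nhds hn)] with y hy hy'
  exact ⟨ψ, e, r, r', C, Ψ, hD, hy, hy'⟩

open Classical in
theorem st_STN : St_STN := by
  intro n X _ 𝒜 K' hK hg
  have hg' : ∀ x : K', ∃ ψ e r r' C Ψ, Datum 𝒜 ψ e r r' C Ψ ∧ x.1 ∈ ψ.source ∧
      ‖ψ x - e‖ < r / 4 := fun x => hg x.2
  choose ψ e r r' C Ψ hD hx hn using hg'
  let O : K' → Set X := fun x => (ψ x).source ∩ (fun y => ‖ψ x y - e x‖) ⁻¹' Iio (r x / 4)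
  have hO : ∀ x, IsOpen (O x) := fun x =>
    ((ψ x).continuousOn.sub continuousOn_const).norm.isOpen_inter_preimage (ψ x).open_source
      isOpen_Iio
  obtain ⟨t, hc⟩ := hK.elim_finite_subcover O hO fun x h =>
    mem_iUnion.2 ⟨⟨x, h⟩, hx _, hn _⟩
  obtain ⟨Kc, k1, k2, k3⟩ := hK.finite_compact_cover t O (fun x _ => hO x) hc
  let a : Fin t.card → K' := fun i => (t.equivFin.symm i).1
  obtain ⟨r0, hr0, h0⟩ : ∃ r0 : ℝ, 0 < r0 ∧ ∀ i, r0 ≤ r (a i) := by
    rcases isEmpty_or_nonempty (Fin t.card) with h | h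
    · exact ⟨1, one_pos, fun i => h.elim i⟩
    · obtain ⟨i, hi⟩ := Finite.exists_min fun i => r (a i)
      exact ⟨_, (hD _).r0, hi⟩
  obtain ⟨r1, h1⟩ := (finite_range fun i => r' (a i)).bddAbove
  obtain ⟨C1, h2⟩ := (finite_range fun i => C (a i)).bddAbove
  refine ⟨t.card, fun i => ψ (a i), fun i => Kc (a i), fun i => Ψ (a i), r0, r1, C1, hr0,
    fun x hx' => ?_, fun i => ⟨k1 _, fun y hy => (k2 _ hy).1, e (a i), r (a i), r' (a i), C (a i),
      hD _, h0 i, h1 ⟨i, rfl⟩, h2 ⟨i, rfl⟩, fun y hy => le_of_lt (k2 _ hy).2⟩⟩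
  rw [k3] at hx'
  obtain ⟨y, hy, hxy⟩ := mem_iUnion₂.1 hx'
  exact ⟨t.equivFin ⟨y, hy⟩, by simpa [a] using hxy⟩

end Pool.Agent.Lib.RC.Mir2
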