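import Pool.Agent.Lib.RC.B_AREFL
import Pool.Agent.Lib.RC.Mir2
import Pool.Agent.Lib.RC.B_NLE
import Pool.Agent.Lib.RC.B_GLUE
import Pool.Agent.Lib.RC.B_UC
import Pool.Agent.Lib.RC.B_COMB
import Pool.Agent.Lib.RC.B_BB

/-! Part I assembled modulo the linear lemma. -/

namespace Pool.Agent.Lib.RC

theorem a1_of (h : St_LIN) : St_A1 := st_A1 (nl_of (st_NLE h) st_GLUE) st_UC
theorem atr_of (h : St_LIN) : St_Atr := st_Atr (a1_of h) st_COMB Mir2.st_STN
theorem arefl_of (h : St_LIN) : St_Arefl := st_Arefl (a1_of h) st_COMB Mir2.st_STN Mir2.st_MIR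
theorem ator_of (h : St_LIN) : St_Ator := st_Ator (atr_of h)
theorem asph_of (h : St_LIN) : St_Asph := st_Asph (arefl_of h)

end Pool.Agent.Lib.RC
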