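import Pool.Agent.Lib.RC.B_A1

namespace Pool.Agent.Lib.RC

open Set Metric Complex Filter Topology

namespace ACore

variable {X : Type} [MetricSpace X] {n : ℕ}

theorem hol_mul {𝒜 : Atlas X n} {f : ℂ → X} {Ω Ω' : Set ℂ} (hf : Hol 𝒜 f Ω) (c : ℂ)
    (h : ∀ z ∈ Ω', c * z ∈ Ω) : Hol 𝒜 (fun z => f (c * z)) Ω' := by
  refine ⟨hf.1.comp (by fun_prop) h, fun ψ hψ => ?_⟩
  exact (hf.2 ψ hψ).comp (f := fun z => c * z) (by fun_prop) fun z hz => ⟨h z hz.1, hz.2⟩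

theorem mem_Q_round (κ : ℝ) (z : ℂ) : z ∈ Q κ (round (z.re / κ), round z.im) :=
  ⟨(abs_sub_round _).trans_lt (by norm_num), (abs_sub_round _).trans_lt (by norm_num)⟩

theorem near_of {f f0 : ℂ → X} {𝒞 : Set (Set ℂ)} {ε : ℝ}
    (h1 : ∃ x1 : ℝ, ∀ w : ℂ, w.re = x1 → dist (f w) (f0 w) < ε)
    (h2 : ∀ ε' > 0, ∃ R > 0, ∀ c ∈ 𝒞, ∀ w, ball w R ⊆ c → dist (f w) (f0 w) < ε') :
    Near f f0 𝒞 ε := by
  have key : ∀ (l : Filter ℂ) (c : Set ℂ) (x : X), c ∈ 𝒞 → (∀ R > 0, ∀ᶠ w in l, ball w R ⊆ c) →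
      Tendsto f0 l (𝓝 x) → Tendsto f l (𝓝 x) := by
    intro l c x hc hl h0
    rw [Metric.tendsto_nhds] at h0 ⊢
    intro e he
    obtain ⟨R, hR, H⟩ := h2 (e / 2) (by linarith)
    filter_upwards [hl R hR, h0 (e / 2) (by linarith)] with w hw hw'
    have := dist_triangle (f w) (f0 w) x
    have := H c hc w hw
    linarith
  have hre : ∀ (w z : ℂ) (R : ℝ), z ∈ ball w R → |z.re - w.re| < R := by
    intro w z R hz
    rw [mem_ball, dist_eq_norm] at hz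
    simpa using (abs_re_le_norm (z - w)).trans_lt hz
  refine ⟨h1, h2, fun a x hc h0 => key _ _ x hc (fun R _ => ?_) h0,
    fun a x hc h0 => key _ _ x hc (fun R _ => ?_) h0⟩
  · have : ∀ᶠ w : ℂ in comap re atBot, w.re ≤ a - R :=
      tendsto_comap.eventually (eventually_le_atBot (a - R))
    filter_upwards [this] with w hw z hz
    have := abs_lt.1 (hre w z R hz)
    show z.re ≤ a
    linarith
  · have : ∀ᶠ w : ℂ in comap re atTop, a + R ≤ w.re :=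
      tendsto_comap.eventually (eventually_ge_atTop (a + R))
    filter_upwards [this] with w hw z hz
    have := abs_lt.1 (hre w z R hz)
    show a ≤ z.re
    linarith

/-- The common part of the modes of (A): everything except the choice of mesh and stations. -/
theorem core (h1 : St_A1) (h2 : St_COMB) {𝒜 : Atlas X n} {f0 : ℂ → X} {𝒞 : Set (Set ℂ)}
    {d0 : ℝ} (hC : Caps 𝒜 f0 𝒞 d0) (S : Type) [Finite S] (ψ : S → Chart X n) (Kc : S → Set X)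
    (hψ : ∀ a, ψ a ∈ 𝒜.A) (hK : ∀ a, IsCompact (Kc a)) (hKs : ∀ a, Kc a ⊆ (ψ a).source)
    (r r' C ε : ℝ) (hr : 0 < r) (hε : 0 < ε) :
    ∃ h0 : ℝ, 0 < h0 ∧ ∀ h κ : ℝ, 0 < h → h ≤ h0 → 1 ≤ κ → κ ≤ 2 → ∀ G : Set Sy, SyOk G →
      (∀ s ∈ G, ∀ U, U ∈ 𝒞 ↔ (fun w : ℂ => h * rz κ s (w / h)) ⁻¹' U ∈ 𝒞) →
      (∀ s ∈ G, ∀ w : ℂ, f0 (h * rz κ s (w / h)) = 𝒜.sx s.1 (f0 w)) →
      ∀ (sn : Cell → S) (Ψ : Cell → (ℂ → E n) → E n → ℂ → E n),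
      (∀ i j, ∀ U ∈ 𝒞, (h : ℂ) * pt κ i ∈ U → (h : ℂ) * pt κ j ∈ U → sn i = sn j) →
      (∀ i, ∀ U ∈ 𝒞, (h : ℂ) * pt κ i ∈ U → MapsTo f0 (thickening d0 U) (Kc (sn i))) →
      (∀ i, (∀ U ∈ 𝒞, (h : ℂ) * pt κ i ∉ U) → f0 (h * pt κ i) ∈ Kc (sn i) ∧
        ∃ e' ri ri' Ci, Datum 𝒜 (ψ (sn i)) e' ri ri' Ci (Ψ i) ∧ r ≤ ri ∧ ri' ≤ r' ∧ Ci ≤ C ∧
          ‖ψ (sn i) (f0 (h * pt κ i)) - e'‖ ≤ ri / 4) →
      (∀ s ∈ G, ∀ i x, ψ (sn (rc s i)) (𝒜.sx s.1 x) = st s.1 (ψ (sn i) x)) →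
      (∀ s ∈ G, ∀ i y, (ψ (sn (rc s i))).symm (st s.1 y) = 𝒜.sx s.1 ((ψ (sn i)).symm y)) →
      (∀ s ∈ G, ∀ i g v u,
        Ψ (rc s i) (fun w => st s.1 (g (cj s.1 w))) (sv s.1 v) (cj s.1 u) = st s.1 (Ψ i g v u)) →
      ∃ f : ℂ → X, Hol 𝒜 f univ ∧ Near f f0 𝒞 ε ∧
        ∀ s ∈ G, ∀ w : ℂ, f (h * rz κ s (w / h)) = 𝒜.sx s.1 (f w) := by
  obtain ⟨R, γ, hR, hγ, H⟩ := h1 n X 𝒜 S ψ Kc hψ hK hKs r r' C ε hr hε
  obtain ⟨ρ, hρ, hu⟩ := Metric.uniformContinuous_iff.1 hC.uc γ hγ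
  have hd0 := hC.pos
  refine ⟨min (d0 / 10) (ρ / (2 * R)), lt_min (by linarith) (by positivity), ?_⟩
  intro h κ hh hh0 κ1 κ2 G hG hGC hGf sn Ψ c1 c2 c3 s1 s2 s3
  have hh1 : 10 * h ≤ d0 := by
    have := hh0.trans (min_le_left _ _)
    linarith
  have hh2 : h * R < ρ := by
    have := hh0.trans (min_le_right _ _)
    rw [le_div_iff₀ (by positivity)] at this
    nlinarith
  have hhc : (h : ℂ) ≠ 0 := by exact_mod_cast hh.ne'
  have hdist : ∀ z w : ℂ, dist ((h : ℂ) * z) (h * w) = h * dist z w := by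
    intro z w
    rw [dist_eq_norm, dist_eq_norm, ← mul_sub, norm_mul, norm_real, Real.norm_eq_abs,
      abs_of_pos hh]
  obtain ⟨K, rfl, rfl, hp, hc⟩ := h2 𝒞 d0 h κ G hC.conv hC.sep hh hh1 κ1 κ2 hG hGC
  have hnp : ∀ i, ¬ K.pole i → ∃ U ∈ 𝒞, (h : ℂ) * pt K.κ i ∈ U := by
    intro i hi
    by_contra hn
    push Not at hn
    exact hi ((hp i).2 hn)
  have hth : ∀ i, ∀ U : Set ℂ, (h : ℂ) * pt K.κ i ∈ U → ∀ z ∈ Q K.κ i,
      (h : ℂ) * z ∈ thickening d0 U := by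
    intro i U hU z hz
    refine mem_thickening_iff.2 ⟨_, hU, ?_⟩
    rw [hdist, dist_comm]
    have := A1.dist_Q κ1 κ2 hz
    nlinarith
  have hA : A1Hyp 𝒜 ψ Kc r r' C R γ K (fun z => f0 (h * z)) sn Ψ := by
    refine ⟨fun z w hzw => (hu ?_).le, fun i j hij => ?_, fun i => ?_, fun i hi => ?_,
      fun i hi => (c3 i ((hp i).1 hi)).2, fun s hs z => ?_, s1, s2, fun s hs i _ => s3 s hs i⟩
    · rw [hdist]
      nlinarith
    · rcases (hc i j).1 hij with rfl | ⟨U, hU, h3, h4⟩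
      · rfl
      · exact c1 i j U hU h3 h4
    · by_cases hi : K.pole i
      · exact (c3 i ((hp i).1 hi)).1
      · obtain ⟨U, hU, h3⟩ := hnp i hi
        exact c2 i U hU h3 (self_subset_thickening hd0 U h3)
    · obtain ⟨U, hU, h3⟩ := hnp i hi
      exact ⟨hol_mul (hC.hol U hU) _ (hth i U h3), fun z hz => c2 i U hU h3 (hth i U h3 z hz)⟩
    · have := hGf s hs (h * z)
      rwa [mul_div_cancel_left₀ _ hhc] at this
  obtain ⟨f, hf, hs, hl, hd⟩ := H K _ sn Ψ hA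
  have hback : ∀ w : ℂ, (h : ℂ) * ((h : ℂ)⁻¹ * w) = w := fun w => by field_simp
  refine ⟨fun w => f ((h : ℂ)⁻¹ * w), hol_mul hf _ fun _ _ => mem_univ _, near_of ?_ ?_,
    fun s hs' w => ?_⟩
  · refine ⟨h * K.κ / 2, fun w hw => ?_⟩
    have h3 := hl _ _ (mem_Q_round K.κ ((h : ℂ)⁻¹ * w)) fun _ => ?_
    · simpa only [hback] using h3
    · refine le_trans ?_ (abs_re_le_norm _)
      have e1 : ((h : ℂ)⁻¹ * w).re = K.κ / 2 := by
        rw [← ofReal_inv, re_ofReal_mul, hw]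
        field_simp
      have hκ : (0 : ℝ) < K.κ := by linarith
      have e2 : ∀ a b : ℤ, ((h : ℂ)⁻¹ * w - pt K.κ (a, b)).re = K.κ * (1 / 2 - a) := by
        intro a b
        rw [sub_re, e1]
        simp [pt]
        ring
      rw [e2, abs_mul, abs_of_pos hκ]
      have e3 : ∀ a : ℤ, (1 : ℝ) / 2 ≤ |1 / 2 - (a : ℝ)| := by
        intro a
        rcases le_or_gt a 0 with ha | ha
        · have : (a : ℝ) ≤ 0 := by exact_mod_cast ha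
          exact le_abs.2 (Or.inl (by linarith))
        · have : (1 : ℝ) ≤ a := by exact_mod_cast ha
          exact le_abs.2 (Or.inr (by linarith))
      have := e3 (round (((h : ℂ)⁻¹ * w).re / K.κ))
      nlinarith
  · intro ε' hε'
    obtain ⟨D, hD⟩ := hd ε' hε'
    refine ⟨h * (3 * |D| + 4), by positivity, fun U hU w hw => ?_⟩
    have hz := mem_Q_round K.κ ((h : ℂ)⁻¹ * w)
    set i : Cell := (round (((h : ℂ)⁻¹ * w).re / K.κ), round ((h : ℂ)⁻¹ * w).im) with hi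
    have hin : ∀ j : Cell, dist j i ≤ |D| → (h : ℂ) * pt K.κ j ∈ U := by
      intro j hj
      refine hw ?_
      have e1 : dist ((h : ℂ) * pt K.κ j) w = h * dist (pt K.κ j) ((h : ℂ)⁻¹ * w) := by
        rw [← hdist, hback]
      rw [mem_ball, e1]
      have h3 := A1.dist_pt κ1 κ2 hj
      have h4 := A1.dist_Q κ1 κ2 hz
      have h5 := dist_triangle (pt K.κ j) (pt K.κ i) ((h : ℂ)⁻¹ * w)
      nlinarith
    have h3 := hD i (fun j hj => (hc j i).2 (Or.inr ⟨U, hU, hin j (hj.trans (le_abs_self D)),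
      hin i (by simp)⟩)) _ hz
    simpa only [hback] using h3
  · have e1 : (h : ℂ)⁻¹ * (h * rz K.κ s (w / h)) = rz K.κ s ((h : ℂ)⁻¹ * w) := by
      rw [← mul_assoc, inv_mul_cancel₀ hhc, one_mul, div_eq_inv_mul]
    simp only [e1]
    exact hs s hs' _

open Classical in
/-- A translation invariant choice of stations. -/
theorem stations (h3 : St_STN) {𝒜 : Atlas X n} {f0 : ℂ → X} {𝒞 : Set (Set ℂ)} {d0 : ℝ}
    (hC : Caps 𝒜 f0 𝒞 d0) :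
    ∃ (S : Type) (_ : Finite S) (ψ : S → Chart X n) (Kc : S → Set X)
      (Ψ : S → (ℂ → E n) → E n → ℂ → E n) (r r' C : ℝ) (sel : ℂ → S), 0 < r ∧
      (∀ a, ψ a ∈ 𝒜.A) ∧ (∀ a, IsCompact (Kc a)) ∧ (∀ a, Kc a ⊆ (ψ a).source) ∧
      (∀ w w', ∀ U ∈ 𝒞, w ∈ U → w' ∈ U → sel w = sel w') ∧
      (∀ w, ∀ U ∈ 𝒞, w ∈ U → MapsTo f0 (thickening d0 U) (Kc (sel w))) ∧
      (∀ w, (∀ U ∈ 𝒞, w ∉ U) → f0 w ∈ Kc (sel w) ∧
        ∃ e' ri ri' Ci, Datum 𝒜 (ψ (sel w)) e' ri ri' Ci (Ψ (sel w)) ∧ r ≤ ri ∧ ri' ≤ r' ∧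
          Ci ≤ C ∧ ‖ψ (sel w) (f0 w) - e'‖ ≤ ri / 4) ∧
      ∀ P, Per f0 𝒞 P → ∀ w, sel (w + P) = sel w := by
  obtain ⟨T, hT, hT1, hT2⟩ := hC.fin
  obtain ⟨K', hK', hg, hK2⟩ := hC.good
  obtain ⟨m, ψ, Kc, Ψ, r, r', C, hr, hcov, hst⟩ := h3 n X 𝒜 K' hK' hg
  have : Finite T := hT.to_subtype
  have hne : Nonempty (Fin m ⊕ T) := by
    by_cases h0 : ∀ U ∈ 𝒞, (0 : ℂ) ∉ U
    · obtain ⟨a, -⟩ := hcov _ (hK2 0 h0)
      exact ⟨Sum.inl a⟩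
    · push Not at h0
      obtain ⟨U, hU, -⟩ := h0
      obtain ⟨p, hp, -⟩ := hT2 U hU
      exact ⟨Sum.inr ⟨p, hp⟩⟩
  obtain ⟨a0⟩ := hne
  let sp : X → Fin m ⊕ T := fun x => if h : ∃ a, x ∈ Kc a then Sum.inl h.choose else a0
  let sc : Set X → Fin m ⊕ T := fun Y => if h : ∃ p : T, Y ⊆ p.1.2 then Sum.inr h.choose else a0
  let Y : ℂ → Set X := fun w => {x | ∃ U ∈ 𝒞, w ∈ U ∧ ∃ z ∈ thickening d0 U, f0 z = x}
  have hY : ∀ w, ∀ U ∈ 𝒞, w ∈ U → Y w = f0 '' thickening d0 U := by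
    intro w U hU hw
    ext x
    constructor
    · rintro ⟨V, hV, hwV, z, hz, rfl⟩
      have : V = U := hC.sep V hV U hU w hwV w hw (by simpa using hC.pos)
      exact ⟨z, this ▸ hz, rfl⟩
    · rintro ⟨z, hz, rfl⟩
      exact ⟨U, hU, hw, z, hz, rfl⟩
  refine ⟨Fin m ⊕ T, inferInstance, Sum.elim ψ fun p => p.1.1, Sum.elim Kc fun p => p.1.2,
    Sum.elim Ψ fun _ _ _ _ => 0, r, r', C,
    fun w => if ∀ U ∈ 𝒞, w ∉ U then sp (f0 w) else sc (Y w), hr, ?_, ?_, ?_, ?_, ?_, ?_, ?_⟩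
  · rintro (a | p)
    · obtain ⟨-, -, e', ri, ri', Ci, hD, -⟩ := hst a
      exact hD.mem
    · exact (hT1 p.1 p.2).1
  · rintro (a | p)
    · exact (hst a).1
    · exact (hT1 p.1 p.2).2.1
  · rintro (a | p)
    · exact (hst a).2.1
    · exact (hT1 p.1 p.2).2.2
  · intro w w' U hU hw hw'
    have e1 : ¬ ∀ U ∈ 𝒞, w ∉ U := fun h => h U hU hw
    have e2 : ¬ ∀ U ∈ 𝒞, w' ∉ U := fun h => h U hU hw'
    simp only [if_neg e1, if_neg e2, hY w U hU hw, hY w' U hU hw']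
  · intro w U hU hw
    have e1 : ¬ ∀ U ∈ 𝒞, w ∉ U := fun h => h U hU hw
    obtain ⟨p, hp, hm⟩ := hT2 U hU
    have e2 : ∃ p : T, f0 '' thickening d0 U ⊆ p.1.2 := ⟨⟨p, hp⟩, hm.image_subset⟩
    simp only [if_neg e1, hY w U hU hw, sc, dif_pos e2, Sum.elim_inr]
    exact fun z hz => e2.choose_spec ⟨z, hz, rfl⟩
  · intro w hw
    have e2 : ∃ a, f0 w ∈ Kc a := hcov _ (hK2 w hw)
    simp only [if_pos hw, sp, dif_pos e2, Sum.elim_inl]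
    obtain ⟨-, -, e', ri, ri', Ci, hD, h4, h5, h6, h7⟩ := hst e2.choose
    exact ⟨e2.choose_spec, e', ri, ri', Ci, hD, h4, h5, h6, h7 _ e2.choose_spec⟩
  · intro P hP w
    have hback : ∀ V ∈ 𝒞, (fun z => z - P) ⁻¹' V ∈ 𝒞 := by
      intro V hV
      refine (hP.2 _).2 ?_
      have : (fun w => w + P) ⁻¹' ((fun z => z - P) ⁻¹' V) = V := by
        ext z
        simp
      rwa [this]
    have e1 : (∀ U ∈ 𝒞, w + P ∉ U) ↔ ∀ U ∈ 𝒞, w ∉ U := by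
      constructor
      · intro h V hV hw
        exact h _ (hback V hV) (by simpa using hw)
      · intro h U hU hw
        exact h _ ((hP.2 U).1 hU) hw
    have e2 : Y (w + P) = Y w := by
      ext x
      constructor
      · rintro ⟨U, hU, hw, z, hz, rfl⟩
        refine ⟨_, (hP.2 U).1 hU, hw, z - P, ?_, ?_⟩
        · obtain ⟨y, hy, hd⟩ := mem_thickening_iff.1 hz
          exact mem_thickening_iff.2 ⟨y - P, by simpa using hy, by simpa using hd⟩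
        · rw [← hP.1 (z - P), sub_add_cancel]
      · rintro ⟨V, hV, hw, z, hz, rfl⟩
        refine ⟨_, hback V hV, by simpa using hw, z + P, ?_, hP.1 z⟩
        obtain ⟨y, hy, hd⟩ := mem_thickening_iff.1 hz
        exact mem_thickening_iff.2 ⟨y + P, by simpa using hy, by simpa using hd⟩
    simp only [e1, e2, hP.1 w]

end ACore

end Pool.Agent.Lib.RC
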