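import Mathlib

open AlgebraicGeometry CategoryTheory TopologicalSpace Topology Filter IsLocalRing

noncomputable section

namespace Pool.Agent.RC.An

section Ev

variable {X Y : Scheme.{0}} {R R' : CommRingCat.{0}}

/-- Pull-back of sections along a point with values in a ring. -/
def ev (p : Spec R ⟶ X) (U : X.Opens) (h : ⊤ ≤ p ⁻¹ᵁ U) : Γ(X, U) ⟶ R :=
  p.appLE U ⊤ h ≫ (Scheme.ΓSpecIso R).hom

lemma res_ev (p : Spec R ⟶ X) {U V : X.Opens} (i : V ≤ U) (h : ⊤ ≤ p ⁻¹ᵁ V) :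
    X.presheaf.map (homOfLE i).op ≫ ev p V h = ev p U (h.trans (p.preimage_mono i)) := by
  simp only [ev, Scheme.Hom.map_appLE_assoc]

lemma appLE_ev (p : Spec R ⟶ Y) (f : Y ⟶ X) (U : X.Opens) (V : Y.Opens) (e : V ≤ f ⁻¹ᵁ U)
    (h : ⊤ ≤ p ⁻¹ᵁ V) (h' : ⊤ ≤ (p ≫ f) ⁻¹ᵁ U) :
    f.appLE U V e ≫ ev p V h = ev (p ≫ f) U h' := by
  simp only [ev, Scheme.Hom.appLE_comp_appLE_assoc]

lemma ev_top (φ : R ⟶ R') (h) : ev (Spec.map φ) ⊤ h = (Scheme.ΓSpecIso R).hom ≫ φ := by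
  have : (Spec.map φ).appLE ⊤ ⊤ h = (Spec.map φ).appTop := by
    simp [Scheme.Hom.appTop, Scheme.Hom.appLE]
  rw [ev, this, Scheme.ΓSpecIso_naturality]

lemma ev_map (φ : R ⟶ R') (p : Spec R ⟶ X) (U : X.Opens) (h : ⊤ ≤ p ⁻¹ᵁ U)
    (h' : ⊤ ≤ (Spec.map φ ≫ p) ⁻¹ᵁ U) : ev (Spec.map φ ≫ p) U h' = ev p U h ≫ φ := by
  rw [← appLE_ev (Spec.map φ) p U ⊤ h le_top h', ev_top, ev, Category.assoc]

lemma map_ev (p : Spec R ⟶ X) {U : X.Opens} (hU : IsAffineOpen U) (h : ⊤ ≤ p ⁻¹ᵁ U) :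
    Spec.map (ev p U h) ≫ hU.fromSpec = p := by
  rw [ev, Spec.map_comp, Category.assoc,
    IsAffineOpen.SpecMap_appLE_fromSpec p hU (isAffineOpen_top _) h,
    IsAffineOpen.fromSpec_top, Scheme.isoSpec_Spec_inv, ← Spec.map_comp_assoc]
  simp

lemma top_le_fromSpec {U : X.Opens} (φ : Γ(X, U) ⟶ R) (hU : IsAffineOpen U) :
    ⊤ ≤ (Spec.map φ ≫ hU.fromSpec) ⁻¹ᵁ U := by
  intro x _
  have : hU.fromSpec (Spec.map φ x) ∈ Set.range hU.fromSpec := ⟨_, rfl⟩
  rw [hU.range_fromSpec] at this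
  simp

lemma ev_fromSpec {U : X.Opens} (hU : IsAffineOpen U) (φ : Γ(X, U) ⟶ R) (h) :
    ev (Spec.map φ ≫ hU.fromSpec) U h = φ := by
  have := map_ev (Spec.map φ ≫ hU.fromSpec) hU h
  rw [cancel_mono] at this
  exact Spec.map_injective this

lemma top_le_iff [IsLocalRing R] (p : Spec R ⟶ X) (U : X.Opens) :
    ⊤ ≤ p ⁻¹ᵁ U ↔ p (closedPoint R) ∈ U := by
  constructor
  · intro h
    exact h (show closedPoint R ∈ (⊤ : (Spec R).Opens) from trivial)
  · intro h x _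
    exact ((specializes_closedPoint x).map p.continuous).mem_open U.2 h

lemma top_le_basicOpen_iff (p : Spec R ⟶ X) (U : X.Opens) (h : ⊤ ≤ p ⁻¹ᵁ U) (g : Γ(X, U)) :
    ⊤ ≤ p ⁻¹ᵁ X.basicOpen g ↔ IsUnit ((ev p U h).hom g) := by
  have h1 : (Spec R).basicOpen ((p.appLE U ⊤ h).hom g) = p ⁻¹ᵁ X.basicOpen g := by
    rw [Scheme.basicOpen_appLE]; simp
  have h2 : IsUnit ((ev p U h).hom g) ↔ IsUnit ((p.appLE U ⊤ h).hom g) := by
    simp only [ev, CommRingCat.hom_comp, RingHom.comp_apply]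
    exact (isUnit_map_iff (Scheme.ΓSpecIso R).commRingCatIsoToRingEquiv _)
  rw [h2, ← h1]
  constructor
  · intro H
    refine RingedSpace.isUnit_of_isUnit_germ (Spec R).toRingedSpace ⊤ _ fun x hx => ?_
    exact ((Spec R).mem_basicOpen _ x hx).1 (H hx)
  · intro H
    rw [Scheme.basicOpen_of_isUnit _ H]

end Ev

section Points

variable {k : Type} [Field k] {X : Scheme.{0}} (s : X ⟶ Spec (.of k))

/-- Constants as sections. -/
def str (U : X.Opens) : CommRingCat.of k ⟶ Γ(X, U) :=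
  (Scheme.ΓSpecIso (.of k)).inv ≫ s.appLE ⊤ U le_top

lemma str_res {U V : X.Opens} (i : V ≤ U) :
    str s U ≫ X.presheaf.map (homOfLE i).op = str s V := by
  simp only [str, Category.assoc, Scheme.Hom.appLE_map]

lemma str_ev {R : CommRingCat.{0}} (p : Spec R ⟶ X) (φ : CommRingCat.of k ⟶ R)
    (hp : p ≫ s = Spec.map φ) (U : X.Opens) (h : ⊤ ≤ p ⁻¹ᵁ U) : str s U ≫ ev p U h = φ := by
  rw [str, Category.assoc, appLE_ev p s ⊤ U le_top h le_top]
  simp only [hp]
  rw [ev_top]; simp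

lemma fromSpec_str {U : X.Opens} (hU : IsAffineOpen U) :
    hU.fromSpec ≫ s = Spec.map (str s U) := by
  rw [str, Spec.map_comp,
    ← IsAffineOpen.SpecMap_appLE_fromSpec s (isAffineOpen_top _) hU le_top,
    IsAffineOpen.fromSpec_top, Scheme.isoSpec_Spec_inv]

variable [Algebra k ℂ]

/-- Complex points over `k`. -/
@[ext] structure Pts where
  hom : Spec (.of ℂ) ⟶ X
  comm : hom ≫ s = Spec.map (CommRingCat.ofHom (algebraMap k ℂ))

variable {s}

/-- The underlying point of the scheme. -/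
def pt (p : Pts s) : X := p.hom (closedPoint ℂ)

lemma top_le_iff_pt (p : Pts s) (U : X.Opens) : ⊤ ≤ p.hom ⁻¹ᵁ U ↔ pt p ∈ U :=
  top_le_iff p.hom U

/-- Evaluation at a complex point lying in `U`. -/
def evp (p : Pts s) (U : X.Opens) (h : pt p ∈ U) : Γ(X, U) →+* ℂ :=
  (ev p.hom U ((top_le_iff_pt p U).2 h)).hom

open Classical in
/-- The value of a section at a complex point (zero outside its domain). -/
def val (U : X.Opens) (a : Γ(X, U)) (p : Pts s) : ℂ :=
  if h : pt p ∈ U then evp p U h a else 0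

lemma val_eq {U : X.Opens} (a : Γ(X, U)) {p : Pts s} (h : pt p ∈ U) :
    val U a p = evp p U h a := dif_pos h

lemma val_of_notMem {U : X.Opens} (a : Γ(X, U)) {p : Pts s} (h : pt p ∉ U) :
    val U a p = 0 := dif_neg h

lemma val_add {U : X.Opens} (a b : Γ(X, U)) (p : Pts s) :
    val U (a + b) p = val U a p + val U b p := by
  by_cases h : pt p ∈ U
  · simp [val_eq _ h]
  · simp [val_of_notMem _ h]

lemma val_mul {U : X.Opens} (a b : Γ(X, U)) (p : Pts s) :
    val U (a * b) p = val U a p * val U b p := by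
  by_cases h : pt p ∈ U
  · simp [val_eq _ h]
  · simp [val_of_notMem _ h]

lemma val_neg {U : X.Opens} (a : Γ(X, U)) (p : Pts s) : val U (-a) p = -val U a p := by
  by_cases h : pt p ∈ U
  · simp [val_eq _ h]
  · simp [val_of_notMem _ h]

lemma val_zero {U : X.Opens} (p : Pts s) : val U 0 p = 0 := by
  by_cases h : pt p ∈ U
  · simp [val_eq _ h]
  · simp [val_of_notMem _ h]

lemma val_one {U : X.Opens} {p : Pts s} (h : pt p ∈ U) : val U 1 p = 1 := by
  simp [val_eq _ h]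

lemma val_pow {U : X.Opens} (a : Γ(X, U)) (m : ℕ) {p : Pts s} (h : pt p ∈ U) :
    val U (a ^ m) p = val U a p ^ m := by
  simp [val_eq _ h]

lemma val_str {U : X.Opens} (c : k) {p : Pts s} (h : pt p ∈ U) :
    val U ((str s U).hom c) p = algebraMap k ℂ c := by
  rw [val_eq _ h]
  have := str_ev s p.hom _ p.comm U ((top_le_iff_pt p U).2 h)
  exact congr(($this).hom c)

lemma val_res {U V : X.Opens} (i : V ≤ U) (a : Γ(X, U)) {p : Pts s} (h : pt p ∈ V) :
    val V ((X.presheaf.map (homOfLE i).op).hom a) p = val U a p := by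
  rw [val_eq _ h, val_eq _ (i h)]
  have := res_ev p.hom i ((top_le_iff_pt p V).2 h)
  exact congr(($this).hom a)

lemma mem_basicOpen_iff {U : X.Opens} (g : Γ(X, U)) (p : Pts s) :
    pt p ∈ X.basicOpen g ↔ val U g p ≠ 0 := by
  by_cases h : pt p ∈ U
  · rw [← top_le_iff_pt, top_le_basicOpen_iff p.hom U ((top_le_iff_pt p U).2 h), val_eq _ h,
      isUnit_iff_ne_zero]
    rfl
  · simp only [val_of_notMem _ h, ne_eq, not_true, iff_false]
    exact fun h' => h (X.basicOpen_le g h')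

/-- The complex point of an affine open defined by a homomorphism. -/
def ofHom {U : X.Opens} (hU : IsAffineOpen U) (φ : Γ(X, U) →+* ℂ)
    (hφ : ∀ c, φ ((str s U).hom c) = algebraMap k ℂ c) : Pts s where
  hom := Spec.map (CommRingCat.ofHom φ) ≫ hU.fromSpec
  comm := by
    rw [Category.assoc, fromSpec_str, ← Spec.map_comp]
    congr 1
    ext c
    exact hφ c

lemma pt_ofHom {U : X.Opens} (hU : IsAffineOpen U) (φ : Γ(X, U) →+* ℂ) (hφ) :
    pt (ofHom (s := s) hU φ hφ) ∈ U :=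
  (top_le_iff_pt _ U).1 (top_le_fromSpec _ hU)

lemma val_ofHom {U : X.Opens} (hU : IsAffineOpen U) (φ : Γ(X, U) →+* ℂ) (hφ) (a : Γ(X, U)) :
    val U a (ofHom (s := s) hU φ hφ) = φ a := by
  rw [val_eq _ (pt_ofHom hU φ hφ)]
  have := ev_fromSpec hU (CommRingCat.ofHom φ) (top_le_fromSpec _ hU)
  exact congr(($this).hom a)

lemma ext_affine {U : X.Opens} (hU : IsAffineOpen U) {p q : Pts s} (hp : pt p ∈ U)
    (hq : pt q ∈ U) (h : ∀ a, val U a p = val U a q) : p = q := by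
  apply Pts.ext
  rw [← map_ev p.hom hU ((top_le_iff_pt p U).2 hp), ← map_ev q.hom hU ((top_le_iff_pt q U).2 hq)]
  congr 2
  ext a
  have := h a
  rwa [val_eq _ hp, val_eq _ hq] at this

/-- A section near a point of an affine open is a quotient of sections of the affine open. -/
lemma exists_frac {U V : X.Opens} (hU : IsAffineOpen U) (a : Γ(X, V)) {x : X} (hxU : x ∈ U)
    (hxV : x ∈ V) : ∃ (g b : Γ(X, U)) (m : ℕ) (e : X.basicOpen g ≤ V), x ∈ X.basicOpen g ∧
      (X.presheaf.map (homOfLE e).op).hom a *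
        (X.presheaf.map (homOfLE (X.basicOpen_le g)).op).hom g ^ m =
        (X.presheaf.map (homOfLE (X.basicOpen_le g)).op).hom b := by
  obtain ⟨g, e, hg⟩ := hU.exists_basicOpen_le ⟨x, hxV⟩ hxU
  have := hU.isLocalization_basicOpen g
  obtain ⟨⟨b, _, m, rfl⟩, hb⟩ := IsLocalization.surj (Submonoid.powers g)
    ((X.presheaf.map (homOfLE e).op).hom a)
  refine ⟨g, b, m, e, hg, ?_⟩
  rw [← map_pow]
  exact hb

lemma exists_val_frac {U V : X.Opens} (hU : IsAffineOpen U) (a : Γ(X, V)) {x : X} (hxU : x ∈ U)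
    (hxV : x ∈ V) : ∃ (g b : Γ(X, U)) (m : ℕ), x ∈ X.basicOpen g ∧
      ∀ q : Pts s, val U g q ≠ 0 → pt q ∈ V ∧ val V a q = val U b q / val U g q ^ m := by
  obtain ⟨g, b, m, e, hx, h⟩ := exists_frac hU a hxU hxV
  refine ⟨g, b, m, hx, fun q hq => ?_⟩
  have hq' := (mem_basicOpen_iff g q).2 hq
  refine ⟨e hq', ?_⟩
  have := congr(val (X.basicOpen g) $h q)
  rw [val_mul, val_pow _ _ hq', val_res _ _ hq', val_res _ _ hq', val_res _ _ hq'] at this
  rw [← this, mul_div_cancel_right₀ _ (pow_ne_zero m hq)]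

lemma exists_affine (x : X) : ∃ U : X.Opens, IsAffineOpen U ∧ x ∈ U := by
  obtain ⟨_, ⟨U, hU, rfl⟩, hx, -⟩ :=
    X.isBasis_affineOpens.exists_subset_of_mem_open (Set.mem_univ x) isOpen_univ
  exact ⟨U, hU, hx⟩

instance : TopologicalSpace (Pts s) :=
  generateFrom {S | ∃ (U : X.Opens) (a : Γ(X, U)) (V : Set ℂ), IsOpen V ∧
    S = {p | pt p ∈ U ∧ val U a p ∈ V}}

lemma isOpen_val (U : X.Opens) (a : Γ(X, U)) {V : Set ℂ} (hV : IsOpen V) :
    IsOpen {p : Pts s | pt p ∈ U ∧ val U a p ∈ V} :=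
  isOpen_generateFrom_of_mem ⟨U, a, V, hV, rfl⟩

lemma isOpen_pt (U : X.Opens) : IsOpen {p : Pts s | pt p ∈ U} := by
  simpa using isOpen_val (s := s) U 0 isOpen_univ

lemma tendsto_iff {α : Type*} {l : Filter α} {f : α → Pts s} {p : Pts s} :
    Tendsto f l (𝓝 p) ↔ ∀ U : X.Opens, pt p ∈ U → (∀ᶠ x in l, pt (f x) ∈ U) ∧
      ∀ a : Γ(X, U), Tendsto (fun x => val U a (f x)) l (𝓝 (val U a p)) := by
  constructor
  · intro h U hp
    refine ⟨h.eventually ((isOpen_pt U).mem_nhds hp), fun a => ?_⟩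
    rw [tendsto_nhds]
    intro V hV hm
    filter_upwards [h.eventually ((isOpen_val U a hV).mem_nhds ⟨hp, hm⟩)] with x hx using hx.2
  · intro h
    rw [tendsto_nhds_generateFrom_iff]
    rintro _ ⟨U, a, V, hV, rfl⟩ ⟨hp, hm⟩
    filter_upwards [(h U hp).1, ((h U hp).2 a).eventually (hV.mem_nhds hm)] with x h1 h2
    exact ⟨h1, h2⟩

lemma continuousAt_val {U : X.Opens} (a : Γ(X, U)) {p : Pts s} (h : pt p ∈ U) :
    ContinuousAt (val U a) p := (tendsto_iff.1 tendsto_id U h).2 a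

lemma continuousOn_val (U : X.Opens) (a : Γ(X, U)) :
    ContinuousOn (val U a) {p : Pts s | pt p ∈ U} :=
  fun _ h => (continuousAt_val a h).continuousWithinAt

lemma tendsto_of_affine {α : Type*} {l : Filter α} {f : α → Pts s} {p : Pts s} {U : X.Opens}
    (hU : IsAffineOpen U) (hp : pt p ∈ U)
    (h : ∀ a : Γ(X, U), Tendsto (fun x => val U a (f x)) l (𝓝 (val U a p))) :
    Tendsto f l (𝓝 p) := by
  rw [tendsto_iff]
  intro V hV
  constructor
  · obtain ⟨g, b, m, hx, H⟩ := exists_val_frac (s := s) hU (0 : Γ(X, V)) hp hV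
    filter_upwards [(h g).eventually_ne ((mem_basicOpen_iff g p).1 hx)] with x hx using (H _ hx).1
  · intro a
    obtain ⟨g, b, m, hx, H⟩ := exists_val_frac (s := s) hU a hp hV
    have hg := (mem_basicOpen_iff g p).1 hx
    rw [(H p hg).2]
    refine ((h b).div ((h g).pow m) (pow_ne_zero m hg)).congr' ?_
    filter_upwards [(h g).eventually_ne hg] with x hx
    exact ((H _ hx).2).symm

end Points

end Pool.Agent.RC.An
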