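import Pool.Agent.Lib.RC.An7

open AlgebraicGeometry CategoryTheory TopologicalSpace Topology Filter IsLocalRing

noncomputable section

namespace Pool.Agent.RC.An

section Ultra

variable {ι : Type} (𝒰 : Ultrafilter ι)

/-- The ultrapower of the complex numbers. -/
abbrev UP : Type := Germ (𝒰 : Filter ι) ℂ

/-- The finite elements of the ultrapower. -/
def fin : ValuationSubring (UP 𝒰) where
  carrier := {x | ∃ c, x.Tendsto (𝓝 c)}
  mul_mem' := by
    rintro x y ⟨c, hc⟩ ⟨d, hd⟩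
    induction x using Germ.inductionOn
    induction y using Germ.inductionOn
    exact ⟨c * d, Tendsto.mul hc hd⟩
  one_mem' := ⟨1, tendsto_const_nhds⟩
  add_mem' := by
    rintro x y ⟨c, hc⟩ ⟨d, hd⟩
    induction x using Germ.inductionOn
    induction y using Germ.inductionOn
    exact ⟨c + d, Tendsto.add hc hd⟩
  zero_mem' := ⟨0, tendsto_const_nhds⟩
  neg_mem' := by
    rintro x ⟨c, hc⟩
    induction x using Germ.inductionOn
    exact ⟨-c, Tendsto.neg hc⟩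
  mem_or_inv_mem' := by
    have key : ∀ f : ι → ℂ, (∀ᶠ i in (𝒰 : Filter ι), ‖f i‖ ≤ 1) →
        ∃ c, Tendsto f (𝒰 : Filter ι) (𝓝 c) := by
      intro f hf
      obtain ⟨c, -, hc⟩ := (isCompact_closedBall (0 : ℂ) 1).ultrafilter_le_nhds (𝒰.map f)
        (le_principal_iff.2 (hf.mono fun i hi => mem_closedBall_zero_iff.2 hi))
      exact ⟨c, hc⟩
    intro x
    induction x using Germ.inductionOn with
    | h f =>
    rcases 𝒰.em (fun i => ‖f i‖ ≤ 1) with h | h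
    · exact Or.inl (key f h)
    · refine Or.inr (key (fun i => (f i)⁻¹) ?_)
      filter_upwards [h] with i hi
      rw [norm_inv]
      exact inv_le_one_of_one_le₀ (not_le.1 hi).le

lemma tendsto_unique {x : UP 𝒰} {c d : ℂ} (hc : x.Tendsto (𝓝 c)) (hd : x.Tendsto (𝓝 d)) :
    c = d := by
  induction x using Germ.inductionOn
  exact tendsto_nhds_unique hc hd

/-- The standard part. -/
def st : fin 𝒰 →+* ℂ where
  toFun x := x.2.choose
  map_one' := tendsto_unique 𝒰 (1 : fin 𝒰).2.choose_spec tendsto_const_nhds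
  map_zero' := tendsto_unique 𝒰 (0 : fin 𝒰).2.choose_spec tendsto_const_nhds
  map_mul' := by
    rintro ⟨x, hx⟩ ⟨y, hy⟩
    refine tendsto_unique 𝒰 (⟨x, hx⟩ * ⟨y, hy⟩ : fin 𝒰).2.choose_spec ?_
    have h1 := hx.choose_spec
    have h2 := hy.choose_spec
    generalize hx.choose = c at h1
    generalize hy.choose = d at h2
    induction x using Germ.inductionOn
    induction y using Germ.inductionOn
    exact Tendsto.mul h1 h2
  map_add' := by
    rintro ⟨x, hx⟩ ⟨y, hy⟩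
    refine tendsto_unique 𝒰 (⟨x, hx⟩ + ⟨y, hy⟩ : fin 𝒰).2.choose_spec ?_
    have h1 := hx.choose_spec
    have h2 := hy.choose_spec
    generalize hx.choose = c at h1
    generalize hy.choose = d at h2
    induction x using Germ.inductionOn
    induction y using Germ.inductionOn
    exact Tendsto.add h1 h2

lemma tendsto_st (x : fin 𝒰) : (x : UP 𝒰).Tendsto (𝓝 (st 𝒰 x)) := x.2.choose_spec

lemma st_eq {x : fin 𝒰} {c : ℂ} (h : (x : UP 𝒰).Tendsto (𝓝 c)) : st 𝒰 x = c :=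
  tendsto_unique 𝒰 (tendsto_st 𝒰 x) h

/-- Constants in the ring of finite elements. -/
def cst : ℂ →+* fin 𝒰 where
  toFun c := ⟨(c : UP 𝒰), c, tendsto_const_nhds⟩
  map_one' := rfl
  map_zero' := rfl
  map_mul' _ _ := rfl
  map_add' _ _ := rfl

lemma st_cst (c : ℂ) : st 𝒰 (cst 𝒰 c) = c := st_eq 𝒰 tendsto_const_nhds

instance : IsLocalHom (st 𝒰) := by
  refine ⟨fun x hx => ?_⟩
  have h := tendsto_st 𝒰 x
  have h0 := hx.ne_zero
  generalize st 𝒰 x = c at h h0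
  obtain ⟨x, hx'⟩ := x
  induction x using Germ.inductionOn with
  | h f =>
  have hf : Tendsto f (𝒰 : Filter ι) (𝓝 c) := h
  refine IsUnit.of_mul_eq_one ⟨((fun i => (f i)⁻¹ : ι → ℂ) : UP 𝒰), c⁻¹, hf.inv₀ h0⟩ ?_
  apply Subtype.ext
  change ((fun i => f i * (f i)⁻¹ : ι → ℂ) : UP 𝒰) = ((fun _ => 1 : ι → ℂ) : UP 𝒰)
  rw [Germ.coe_eq]
  filter_upwards [hf.eventually_ne h0] with i hi using mul_inv_cancel₀ hi

end Ultra

section Proper

variable {k : Type} [Field k] [Algebra k ℂ] {X : Scheme.{0}} {s : X ⟶ Spec (.of k)}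
variable (𝒰 : Ultrafilter (Pts s))

/-- The values of sections along an ultrafilter of points. -/
def germ (U : X.Opens) (h : ∀ᶠ q in (𝒰 : Filter (Pts s)), pt q ∈ U) : Γ(X, U) →+* UP 𝒰 where
  toFun a := (val U a : Pts s → ℂ)
  map_one' := Germ.coe_eq.2 (h.mono fun _ hq => val_one hq)
  map_zero' := Germ.coe_eq.2 (Eventually.of_forall fun q => val_zero q)
  map_mul' a b := Germ.coe_eq.2 (Eventually.of_forall fun q => val_mul a b q)
  map_add' a b := Germ.coe_eq.2 (Eventually.of_forall fun q => val_add a b q)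

/-- The point with values in the ultrapower. -/
def xi {U : X.Opens} (hU : IsAffineOpen U) (h : ∀ᶠ q in (𝒰 : Filter (Pts s)), pt q ∈ U) :
    Spec (.of (UP 𝒰)) ⟶ X := Spec.map (CommRingCat.ofHom (germ 𝒰 U h)) ≫ hU.fromSpec

lemma ev_xi {U : X.Opens} (hU : IsAffineOpen U) (h : ∀ᶠ q in (𝒰 : Filter (Pts s)), pt q ∈ U)
    (e) : ev (xi 𝒰 hU h) U e = CommRingCat.ofHom (germ 𝒰 U h) := ev_fromSpec hU _ e

lemma xi_le {U : X.Opens} (hU : IsAffineOpen U) (h : ∀ᶠ q in (𝒰 : Filter (Pts s)), pt q ∈ U) :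
    ⊤ ≤ xi 𝒰 hU h ⁻¹ᵁ U := top_le_fromSpec _ hU

lemma xi_basicOpen {U : X.Opens} (hU : IsAffineOpen U)
    (h : ∀ᶠ q in (𝒰 : Filter (Pts s)), pt q ∈ U) (g : Γ(X, U)) :
    ⊤ ≤ xi 𝒰 hU h ⁻¹ᵁ X.basicOpen g ↔ ∀ᶠ q in (𝒰 : Filter (Pts s)), val U g q ≠ 0 := by
  rw [top_le_basicOpen_iff _ U (xi_le 𝒰 hU h), ev_xi, isUnit_iff_ne_zero, Ultrafilter.eventually_not]
  exact not_congr Germ.coe_eq

lemma xi_key {U V : X.Opens} (hU : IsAffineOpen U) (h : ∀ᶠ q in (𝒰 : Filter (Pts s)), pt q ∈ U)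
    (e : ⊤ ≤ xi 𝒰 hU h ⁻¹ᵁ V) : (∀ᶠ q in (𝒰 : Filter (Pts s)), pt q ∈ V) ∧
      ∀ a, (ev (xi 𝒰 hU h) V e).hom a = ((val V a : Pts s → ℂ) : UP 𝒰) := by
  have hxU := (top_le_iff _ _).1 (xi_le 𝒰 hU h)
  have hxV := (top_le_iff _ _).1 e
  constructor
  · obtain ⟨g, b, m, i, hx, -⟩ := exists_frac hU (0 : Γ(X, V)) hxU hxV
    filter_upwards [(xi_basicOpen 𝒰 hU h g).1 ((top_le_iff _ _).2 hx)] with q hq
    exact i ((mem_basicOpen_iff g q).2 hq)
  · intro a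
    obtain ⟨g, b, m, i, hx, H⟩ := exists_frac hU a hxU hxV
    have eg := (top_le_iff _ _).2 hx
    have hg := (xi_basicOpen 𝒰 hU h g).1 eg
    have h1 := congr((ev (xi 𝒰 hU h) _ eg).hom $H)
    rw [map_mul, map_pow] at h1
    have r1 := congr(($(res_ev (xi 𝒰 hU h) i eg)).hom a)
    have r2 := congr(($(res_ev (xi 𝒰 hU h) (X.basicOpen_le g) eg)).hom g)
    have r3 := congr(($(res_ev (xi 𝒰 hU h) (X.basicOpen_le g) eg)).hom b)
    simp only [CommRingCat.hom_comp, RingHom.comp_apply] at r1 r2 r3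
    rw [r1, r2, r3, ev_xi] at h1
    have hg0 : germ 𝒰 U h g ≠ 0 := fun h0 =>
      (Ultrafilter.eventually_not.1 hg) (Germ.coe_eq.1 h0)
    refine mul_right_cancel₀ (pow_ne_zero m hg0) (h1.trans ?_)
    rw [← map_pow]
    change ((val U b : Pts s → ℂ) : UP 𝒰) = ((fun q => val V a q * val U (g ^ m) q : Pts s → ℂ) : UP 𝒰)
    rw [Germ.coe_eq]
    filter_upwards [hg] with q hq
    have hq' := (mem_basicOpen_iff g q).2 hq
    have := congr(val (X.basicOpen g) $H q)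
    rw [val_mul, ← map_pow, val_res _ _ hq', val_res _ _ hq', val_res _ _ hq'] at this
    exact this.symm

lemma xi_comm {U : X.Opens} (hU : IsAffineOpen U) (h : ∀ᶠ q in (𝒰 : Filter (Pts s)), pt q ∈ U) :
    CommSq (xi 𝒰 hU h) (Spec.map (CommRingCat.ofHom (algebraMap (fin 𝒰) (UP 𝒰)))) s
      (Spec.map (CommRingCat.ofHom ((cst 𝒰).comp (algebraMap k ℂ)))) := by
  refine ⟨?_⟩
  rw [xi, Category.assoc, fromSpec_str, ← Spec.map_comp, ← Spec.map_comp]
  congr 1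
  ext c
  exact Germ.coe_eq.2 (h.mono fun _ hq => val_str c hq)

/-- The limit point defined by a lift to the ring of finite elements. -/
def limPt (l : Spec (.of (fin 𝒰)) ⟶ X)
    (hl : l ≫ s = Spec.map (CommRingCat.ofHom ((cst 𝒰).comp (algebraMap k ℂ)))) : Pts s where
  hom := Spec.map (CommRingCat.ofHom (st 𝒰)) ≫ l
  comm := by
    rw [Category.assoc, hl, ← Spec.map_comp]
    congr 1
    ext c
    exact st_cst 𝒰 _

lemma pt_limPt (l : Spec (.of (fin 𝒰)) ⟶ X) (hl) :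
    pt (limPt 𝒰 l hl) = l (closedPoint (fin 𝒰)) := by
  have : Spec.map (CommRingCat.ofHom (st 𝒰)) (closedPoint ℂ) = closedPoint (fin 𝒰) :=
    comap_closedPoint (st 𝒰)
  simp only [pt, limPt, Scheme.Hom.comp_apply, this]

lemma le_nhds_limPt {U : X.Opens} (hU : IsAffineOpen U)
    (h : ∀ᶠ q in (𝒰 : Filter (Pts s)), pt q ∈ U) (l : Spec (.of (fin 𝒰)) ⟶ X) (hl)
    (h1 : Spec.map (CommRingCat.ofHom (algebraMap (fin 𝒰) (UP 𝒰))) ≫ l = xi 𝒰 hU h) :
    (𝒰 : Filter (Pts s)) ≤ 𝓝 (limPt 𝒰 l hl) := by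
  refine tendsto_iff (f := id).2 fun V hV => ?_
  have eV : ⊤ ≤ l ⁻¹ᵁ V := (top_le_iff l V).2 (pt_limPt 𝒰 l hl ▸ hV)
  have eV' : ⊤ ≤ (Spec.map (CommRingCat.ofHom (algebraMap (fin 𝒰) (UP 𝒰))) ≫ l) ⁻¹ᵁ V :=
    fun x _ => eV (show _ ∈ (⊤ : (Spec _).Opens) from trivial)
  have e : ⊤ ≤ xi 𝒰 hU h ⁻¹ᵁ V := h1 ▸ eV'
  obtain ⟨k1, k2⟩ := xi_key 𝒰 hU h e
  refine ⟨k1, fun a => ?_⟩
  have a1 : (((ev l V eV).hom a : fin 𝒰) : UP 𝒰) = ((val V a : Pts s → ℂ) : UP 𝒰) := by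
    rw [← k2 a]
    have := ev_map (CommRingCat.ofHom (algebraMap (fin 𝒰) (UP 𝒰))) l V eV eV'
    simp only [h1] at this
    rw [this]
    rfl
  have a2 : val V a (limPt 𝒰 l hl) = st 𝒰 ((ev l V eV).hom a) := by
    rw [val_eq _ hV]
    have := ev_map (CommRingCat.ofHom (st 𝒰)) l V eV ((top_le_iff_pt (limPt 𝒰 l hl) V).2 hV)
    exact congr(($this).hom a)
  have := tendsto_st 𝒰 ((ev l V eV).hom a)
  rw [a1, ← a2] at this
  exact this

theorem compactSpace [UniversallyClosed s] : CompactSpace (Pts s) := by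
  have hv : ValuativeCriterion.Existence s ∧ QuasiCompact s := by
    have := (inferInstance : UniversallyClosed s)
    rwa [UniversallyClosed.eq_valuativeCriterion] at this
  have := hv.2
  have : CompactSpace X := QuasiCompact.compactSpace_of_compactSpace s
  refine ⟨isCompact_iff_ultrafilter_le_nhds.2 fun 𝒰 _ => ?_⟩
  choose U hU hx using exists_affine (X := X)
  obtain ⟨t, -, ht⟩ := isCompact_univ.elim_nhds_subcover (fun x => (U x : Set X))
    fun x _ => (U x).2.mem_nhds (hx x)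
  have : ∃ x ∈ t, ∀ᶠ q in (𝒰 : Filter (Pts s)), pt q ∈ U x := by
    refine (Ultrafilter.eventually_exists_mem_iff t.finite_toSet).1 ?_
    refine Eventually.of_forall fun q => ?_
    simpa using ht (Set.mem_univ (pt q))
  obtain ⟨x, -, h⟩ := this
  obtain ⟨l, h1, h2⟩ := (hv.1 ⟨fin 𝒰, UP 𝒰, _, _, xi_comm 𝒰 (hU x) h⟩).exists_lift
  exact ⟨limPt 𝒰 l h2, trivial, le_nhds_limPt 𝒰 (hU x) h l h2 h1⟩

/-- The lift defined by a limit point. -/
def limHom {U : X.Opens} {p : Pts s} (hp : pt p ∈ U) (h : (𝒰 : Filter (Pts s)) ≤ 𝓝 p) :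
    Γ(X, U) →+* fin 𝒰 :=
  (germ 𝒰 U (tendsto_iff (f := id).1 h U hp).1).codRestrict (fin 𝒰).toSubring
    fun a => ⟨_, (tendsto_iff (f := id).1 h U hp).2 a⟩

theorem t2Space [IsSeparated s] : T2Space (Pts s) := by
  rw [t2_iff_ultrafilter]
  intro p q 𝒰 hp hq
  obtain ⟨U, hU, hpU⟩ := exists_affine (pt p)
  obtain ⟨V, hV, hqV⟩ := exists_affine (pt q)
  have eU := (tendsto_iff (f := id).1 hp U hpU).1
  have eV := (tendsto_iff (f := id).1 hq V hqV).1
  have : QuasiSeparatedSpace X := quasiSeparatedSpace_of_quasiSeparated s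
  have hc : IsCompact ((U : Set X) ∩ V) :=
    QuasiSeparatedSpace.inter_isCompact _ _ U.2 hU.isCompact V.2 hV.isCompact
  have e : ⊤ ≤ xi 𝒰 hU eU ⁻¹ᵁ V := by
    have : ∀ x : X, x ∈ (U : Set X) ∩ V → ∃ g : Γ(X, U), X.basicOpen g ≤ V ∧ x ∈ X.basicOpen g :=
      fun x hx => hU.exists_basicOpen_le ⟨x, hx.2⟩ hx.1
    choose g hg hx using this
    obtain ⟨t, ht⟩ := hc.elim_nhds_subcover' (fun x hx => (X.basicOpen (g x hx) : Set X))
      fun x h => (X.basicOpen (g x h)).2.mem_nhds (hx x h)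
    have : ∃ x ∈ t, ∀ᶠ r in (𝒰 : Filter (Pts s)), val U (g x.1 x.2) r ≠ 0 := by
      refine (Ultrafilter.eventually_exists_mem_iff t.finite_toSet).1 ?_
      filter_upwards [eU, eV] with r h1 h2
      obtain ⟨x, hx, hr⟩ := Set.mem_iUnion₂.1 (ht ⟨h1, h2⟩)
      exact ⟨x, hx, (mem_basicOpen_iff _ r).1 hr⟩
    obtain ⟨x, -, hx⟩ := this
    exact ((xi_basicOpen 𝒰 hU eU _).2 hx).trans ((xi 𝒰 hU eU).preimage_mono (hg _ _))
  have hxi : xi 𝒰 hV eV = xi 𝒰 hU eU := by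
    rw [← map_ev (xi 𝒰 hU eU) hV e, xi]
    congr 2
    ext a
    exact ((xi_key 𝒰 hU eU e).2 a).symm
  have L : ∀ {W : X.Opens} (hW : IsAffineOpen W) {r : Pts s} (hr : pt r ∈ W)
      (h : (𝒰 : Filter (Pts s)) ≤ 𝓝 r),
      Spec.map (CommRingCat.ofHom (algebraMap (fin 𝒰) (UP 𝒰))) ≫
        Spec.map (CommRingCat.ofHom (limHom 𝒰 hr h)) ≫ hW.fromSpec =
          xi 𝒰 hW (tendsto_iff (f := id).1 h W hr).1 ∧
      (Spec.map (CommRingCat.ofHom (limHom 𝒰 hr h)) ≫ hW.fromSpec) ≫ s =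
        Spec.map (CommRingCat.ofHom ((cst 𝒰).comp (algebraMap k ℂ))) ∧
      Spec.map (CommRingCat.ofHom (st 𝒰)) ≫
        Spec.map (CommRingCat.ofHom (limHom 𝒰 hr h)) ≫ hW.fromSpec = r.hom := by
    intro W hW r hr h
    refine ⟨?_, ?_, ?_⟩
    · rw [← Spec.map_comp_assoc]; rfl
    · rw [Category.assoc, fromSpec_str, ← Spec.map_comp]
      congr 1
      ext c
      exact Germ.coe_eq.2 ((tendsto_iff (f := id).1 h W hr).1.mono fun _ hq => val_str c hq)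
    · rw [← Spec.map_comp_assoc, ← map_ev r.hom hW ((top_le_iff_pt r W).2 hr)]
      congr 2
      ext a
      exact (st_eq 𝒰 (x := limHom 𝒰 hr h a) ((tendsto_iff (f := id).1 h W hr).2 a)).trans
        (val_eq a hr)
  obtain ⟨p1, p2, p3⟩ := L hU hpU hp
  obtain ⟨q1, q2, q3⟩ := L hV hqV hq
  have := (IsSeparated.valuativeCriterion s ⟨fin 𝒰, UP 𝒰, _, _, xi_comm 𝒰 hU eU⟩).elim
    ⟨_, p1, p2⟩ ⟨_, q1.trans hxi, q2⟩
  have h : Spec.map (CommRingCat.ofHom (limHom 𝒰 hpU hp)) ≫ hU.fromSpec =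
      Spec.map (CommRingCat.ofHom (limHom 𝒰 hqV hq)) ≫ hV.fromSpec :=
    congrArg CommSq.LiftStruct.l this
  apply Pts.ext
  rw [← p3, ← q3, h]

end Proper

end Pool.Agent.RC.An
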