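import Mathlib

open Topology Filter MvPolynomial

noncomputable section

namespace Pool.Agent.RC.An

variable {k : Type} [CommRing k] [Algebra k ℂ] {ι σ : Type} [Fintype ι]

lemma hasFDerivAt_aeval (P : MvPolynomial ι k) (z : ι → ℂ) :
    HasFDerivAt (fun z : ι → ℂ => aeval z P)
      (∑ i, aeval z (pderiv i P) • (ContinuousLinearMap.proj i : (ι → ℂ) →L[ℂ] ℂ)) z := by
  classical
  induction P using MvPolynomial.induction_on with
  | C a =>
    simp only [aeval_C]
    refine (hasFDerivAt_const (𝕜 := ℂ) (algebraMap k ℂ a) z).congr_fderiv ?_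
    ext v
    simp
  | add p q hp hq =>
    simp only [map_add]
    refine (hp.add hq).congr_fderiv ?_
    ext v
    simp [add_mul, Finset.sum_add_distrib]
  | mul_X p j hp =>
    have h := hp.mul (hasFDerivAt_apply (𝕜 := ℂ) j z)
    simp only [map_mul, aeval_X]
    refine h.congr_fderiv ?_
    ext v
    simp [Derivation.leibniz, pderiv_X, Pi.single_apply, Finset.sum_add_distrib, add_mul,
      Finset.mul_sum, mul_assoc, apply_ite (aeval z), ite_mul]

lemma analyticAt_aeval {E : Type*} [NormedAddCommGroup E] [NormedSpace ℂ E] {g : E → ι → ℂ}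
    {y : E} (hg : AnalyticAt ℂ g y) (P : MvPolynomial ι k) :
    AnalyticAt ℂ (fun y => aeval (g y) P) y := by
  induction P using MvPolynomial.induction_on with
  | C a => simpa using analyticAt_const
  | add p q hp hq =>
    simp only [map_add]
    exact hp.add hq
  | mul_X p j hp =>
    simp only [map_mul, aeval_X]
    exact hp.mul (analyticAt_pi_iff.1 hg j)

/-- Implicit function theorem for polynomial equations: the zero set is locally an analytic
graph over the remaining coordinates. -/
theorem exists_graph [Fintype σ] [DecidableEq σ] {n : ℕ} (m : σ → ι) (hm : Function.Injective m)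
    (e : Fin n → ι) (he : ∀ i, (∃ j, m j = i) ∨ ∃ j, e j = i)
    (hn : Fintype.card ι = Fintype.card σ + n) (f : σ → MvPolynomial ι k) (z0 : ι → ℂ)
    (hd : (Matrix.of fun i j => aeval z0 (pderiv (m i) (f j))).det ≠ 0) :
    ∃ (W : Set (ι → ℂ)) (T : Set (Fin n → ℂ)) (g : (Fin n → ℂ) → ι → ℂ), IsOpen W ∧ z0 ∈ W ∧
      IsOpen T ∧ AnalyticOnNhd ℂ g T ∧
      (∀ t ∈ T, g t ∈ W ∧ (∀ j, aeval (g t) (f j) = 0) ∧ (fun i => g t (e i)) = t) ∧
      ∀ z ∈ W, (∀ j, aeval z (f j) = 0) → (fun i => z (e i)) ∈ T ∧ g (fun i => z (e i)) = z := by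
  classical
  let Φ : (ι → ℂ) → (σ → ℂ) × (Fin n → ℂ) := fun z => (fun j => aeval z (f j), fun i => z (e i))
  have hΦ : AnalyticAt ℂ Φ z0 :=
    (analyticAt_pi_iff.2 fun j => analyticAt_aeval analyticAt_id (f j)).prod
      (analyticAt_pi_iff.2 fun i => analyticAt_pi_iff.1 analyticAt_id (e i))
  let D : (ι → ℂ) →L[ℂ] (σ → ℂ) × (Fin n → ℂ) :=
    (ContinuousLinearMap.pi fun j => ∑ i, aeval z0 (pderiv i (f j)) •
      (ContinuousLinearMap.proj i : (ι → ℂ) →L[ℂ] ℂ)).prod
      (ContinuousLinearMap.pi fun i => ContinuousLinearMap.proj (e i))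
  have hD : HasFDerivAt Φ D z0 :=
    (hasFDerivAt_pi.2 fun j => hasFDerivAt_aeval (f j) z0).prodMk
      (hasFDerivAt_pi.2 fun i => hasFDerivAt_apply (e i) z0)
  have hinj : Function.Injective D.toLinearMap := by
    rw [injective_iff_map_eq_zero]
    intro v hv
    have h1 : ∀ j, ∑ i, aeval z0 (pderiv i (f j)) * v i = 0 := fun j => by
      simpa [D] using congr(($hv).1 j)
    have h2 : ∀ i, v (e i) = 0 := fun i => by simpa [D] using congr(($hv).2 i)
    have h3 : (fun i => v (m i)) = 0 := by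
      refine Matrix.eq_zero_of_vecMul_eq_zero hd (funext fun j => ?_)
      rw [Pi.zero_apply, ← h1 j]
      simp only [Matrix.vecMul, dotProduct, Matrix.of_apply]
      refine Finset.sum_of_injOn m hm.injOn (by simp) (fun i _ hi => ?_) fun i _ => mul_comm _ _
      rcases he i with ⟨j, rfl⟩ | ⟨j, rfl⟩
      · exact absurd ⟨j, by simp, rfl⟩ hi
      · rw [h2, mul_zero]
    funext i
    rcases he i with ⟨j, rfl⟩ | ⟨j, rfl⟩
    · exact congrFun h3 j
    · exact h2 j
  let L : (ι → ℂ) ≃L[ℂ] (σ → ℂ) × (Fin n → ℂ) :=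
    (LinearMap.linearEquivOfInjective D.toLinearMap hinj (by simp [hn])).toContinuousLinearEquiv
  have hL : (L : (ι → ℂ) →L[ℂ] (σ → ℂ) × (Fin n → ℂ)) = D := by ext1 v; rfl
  have hs : HasStrictFDerivAt Φ (L : (ι → ℂ) →L[ℂ] (σ → ℂ) × (Fin n → ℂ)) z0 := by
    rw [hL, ← hD.fderiv]; exact hΦ.hasStrictFDerivAt
  let h := hs.toOpenPartialHomeomorph Φ
  have hc : (h : (ι → ℂ) → _) = Φ := rfl
  have ha : AnalyticAt ℂ h.symm (h z0) :=
    h.analyticAt_symm' (i := L) hs.mem_toOpenPartialHomeomorph_source hΦ (by rw [hc, hL, hD.fderiv])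
  obtain ⟨O, hO, hOo, hO0⟩ := eventually_nhds_iff.1 (ha.eventually_analyticAt.and
    (h.open_target.mem_nhds (h.map_source hs.mem_toOpenPartialHomeomorph_source)))
  refine ⟨h.source ∩ h ⁻¹' O, (fun t => ((0 : σ → ℂ), t)) ⁻¹' O, fun t => h.symm (0, t),
    h.isOpen_inter_preimage hOo, ⟨hs.mem_toOpenPartialHomeomorph_source, hO0⟩,
    hOo.preimage (by fun_prop), fun t ht => ?_, fun t ht => ?_, fun z hz hz0 => ?_⟩
  · exact AnalyticAt.comp (g := h.symm) (f := fun t => ((0 : σ → ℂ), t)) (hO _ ht).1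
      (analyticAt_const.prod analyticAt_id)
  · have hr := h.right_inv (hO _ ht).2
    refine ⟨⟨h.map_target (hO _ ht).2, ?_⟩, fun j => congr(($hr).1 j), congr(($hr).2)⟩
    rw [Set.mem_preimage, hr]; exact ht
  · have : h z = (0, fun i => z (e i)) := Prod.ext (funext hz0) rfl
    refine ⟨?_, ?_⟩
    · rw [Set.mem_preimage, ← this]; exact hz.2
    · beta_reduce
      rw [← this, h.left_inv hz.1]

section Star

variable {E F : Type*} [NormedAddCommGroup E] [NormedSpace ℂ E] [StarAddMonoid E]
  [NormedStarGroup E] [StarModule ℂ E] [NormedAddCommGroup F] [NormedSpace ℂ F] [StarAddMonoid F]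
  [NormedStarGroup F] [StarModule ℂ F]

/-- The conjugate of a multilinear map. -/
def starML {m : ℕ} (p : ContinuousMultilinearMap ℂ (fun _ : Fin m => E) F) :
    ContinuousMultilinearMap ℂ (fun _ : Fin m => E) F :=
  MultilinearMap.mkContinuous
    { toFun := fun v => star (p fun i => star (v i))
      map_update_add' := fun v i x y => by
        simp only [Function.apply_update (fun _ => star) v, star_add, p.map_update_add]
      map_update_smul' := fun v i c x => by
        simp only [Function.apply_update (fun _ => star) v, star_smul, p.map_update_smul,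
          star_star] } ‖p‖ fun v => by
    simpa using p.le_opNorm fun i => star (v i)

lemma norm_starML_le {m : ℕ} (p : ContinuousMultilinearMap ℂ (fun _ : Fin m => E) F) :
    ‖starML p‖ ≤ ‖p‖ := MultilinearMap.mkContinuous_norm_le _ (norm_nonneg _) _

theorem analyticAt_star_star {f : E → F} {y : E} (h : AnalyticAt ℂ f (star y)) :
    AnalyticAt ℂ (fun y => star (f (star y))) y := by
  obtain ⟨p, r, hp⟩ := h
  refine ⟨fun m => starML (p m), r, hp.r_le.trans ?_, hp.r_pos, fun {v} hv => ?_⟩
  · exact FormalMultilinearSeries.radius_le_of_le fun m => norm_starML_le _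
  · have hv' : star v ∈ Metric.eball (0 : E) r := by
      simpa [mem_eball_zero_iff, enorm_eq_nnnorm] using hv
    have := (hp.hasSum hv').star
    rw [star_add]
    exact this

end Star

end Pool.Agent.RC.An
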