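import Pool.Agent.Lib.RC.Blue3

open AlgebraicGeometry CategoryTheory Limits MvPolynomial

noncomputable section

namespace Pool.Agent.Lib.RC.RC1

attribute [local instance] MvPolynomial.gradedAlgebra

abbrev GA : ℕ → Submodule ℂ (MvPolynomial (Fin (1 + 1)) ℂ) := homogeneousSubmodule (Fin (1 + 1)) ℂ

lemma eval_smul {σ : Type} [Fintype σ] {r : MvPolynomial σ ℂ} {m : ℕ} (hr : r.IsHomogeneous m)
    (c : ℂ) (a : σ → ℂ) : eval (c • a) r = c ^ m * eval a r := by
  rw [eval_eq', eval_eq', Finset.mul_sum]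
  refine Finset.sum_congr rfl fun d hd => ?_
  have hdeg : m = ∑ j, d j := by
    have := hr (mem_support_iff.mp hd)
    rw [← this, Finsupp.weight_apply, Finsupp.sum_fintype] <;> simp
  simp only [Pi.smul_apply, smul_eq_mul, mul_pow, Finset.prod_mul_distrib,
    Finset.prod_pow_eq_pow_sum, hdeg]
  ring

/-- homogeneous forms of the prime `z` vanish at `a` -/
def Sub (z : ProjectiveSpectrum GA) (a : Fin (1 + 1) → ℂ) : Prop :=
  ∀ m, ∀ r ∈ GA m, r ∈ z.asHomogeneousIdeal → eval a r = 0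

lemma exists_coord (z : ProjectiveSpectrum GA) : ∃ a, a ≠ 0 ∧ Sub z a := by
  obtain ⟨r, hr, hz⟩ := SetLike.not_le_iff_exists.1 z.not_irrelevant_le
  have hp := z.isPrime
  have h1 : r ∉ vanishingIdeal ℂ (zeroLocus ℂ z.asHomogeneousIdeal.toIdeal) := by
    rw [vanishingIdeal_zeroLocus_eq_radical, hp.radical]
    exact hz
  rw [mem_vanishingIdeal_iff] at h1
  push Not at h1
  obtain ⟨a, ha, hra⟩ := h1
  refine ⟨a, ?_, fun m r _ h => by simpa [aeval_eq_eval] using ha r h⟩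
  rintro rfl
  apply hra
  rw [HomogeneousIdeal.mem_irrelevant_iff, GradedRing.proj_apply] at hr
  have h2 : homogeneousComponent 0 r = 0 := by
    rw [← decomposition.decompose'_apply]; exact hr
  rw [homogeneousComponent_zero, C_eq_zero] at h2
  rw [aeval_zero, constantCoeff_eq, h2, map_zero]

lemma Sub.smul {z : ProjectiveSpectrum GA} {a : Fin (1 + 1) → ℂ} (h : Sub z a) (c : ℂ) :
    Sub z (c • a) := fun m r hr hz => by rw [eval_smul hr, h m r hr hz, mul_zero]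

/-- the line through `a` and `b` -/
def lin (a b : Fin (1 + 1) → ℂ) : MvPolynomial (Fin (1 + 1)) ℂ →ₐ[ℂ] Polynomial ℂ :=
  aeval fun i => Polynomial.C (a i) * (1 - Polynomial.X) + Polynomial.C (b i) * Polynomial.X

lemma eval_lin (a b : Fin (1 + 1) → ℂ) (t : ℂ) (r : MvPolynomial (Fin (1 + 1)) ℂ) :
    (lin a b r).eval t = eval ((1 - t) • a + t • b) r := by
  have : (Polynomial.evalRingHom t).comp (lin a b : _ →+* _) = eval ((1 - t) • a + t • b) := by
    ext i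
    · simp [lin]
    · simp [lin]; ring
  exact congr($this r)

def linΓ (a b : Fin (1 + 1) → ℂ) :
    MvPolynomial (Fin (1 + 1)) ℂ →+* Γ(Spec (.of (Polynomial ℂ)), ⊤) :=
  (Scheme.ΓSpecIso (.of (Polynomial ℂ))).inv.hom.comp (lin a b : _ →+* _)

lemma linΓ_top {a b : Fin (1 + 1) → ℂ} (h : ∀ t : ℂ, (1 - t) • a + t • b ≠ 0) :
    (HomogeneousIdeal.irrelevant GA).toIdeal.map (linΓ a b) = ⊤ := by
  have hc : IsCoprime (lin a b (X 0)) (lin a b (X 1)) := by
    rw [Polynomial.isCoprime_iff_aeval_ne_zero_of_isAlgClosed ℂ ℂ]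
    intro t
    by_contra hn
    push Not at hn
    apply h t
    have h0 := eval_lin a b t (X 0)
    have h1 := eval_lin a b t (X 1)
    rw [eval_X] at h0 h1
    funext i
    fin_cases i
    · exact h0.symm.trans (by simpa using hn.1)
    · exact h1.symm.trans (by simpa using hn.2)
  obtain ⟨p, q, hpq⟩ := hc.map (Scheme.ΓSpecIso (.of (Polynomial ℂ))).inv.hom
  have hX : ∀ i, linΓ a b (X i) ∈ (HomogeneousIdeal.irrelevant GA).toIdeal.map (linΓ a b) :=
    fun i => Ideal.mem_map_of_mem _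
      (HomogeneousIdeal.mem_irrelevant_of_mem GA Nat.one_pos (isHomogeneous_X ℂ i))
  rw [Ideal.eq_top_iff_one, ← hpq]
  exact add_mem (Ideal.mul_mem_left _ _ (hX 0)) (Ideal.mul_mem_left _ _ (hX 1))

def line {a b : Fin (1 + 1) → ℂ} (h : ∀ t : ℂ, (1 - t) • a + t • b ≠ 0) :
    Spec (.of (Polynomial ℂ)) ⟶ PP ℂ 1 :=
  Proj.fromOfGlobalSections GA (linΓ a b) (linΓ_top h)

lemma line_str {a b : Fin (1 + 1) → ℂ} (h : ∀ t : ℂ, (1 - t) • a + t • b ≠ 0) :
    line h ≫ PPstr ℂ 1 = Spec.map (CommRingCat.ofHom (algebraMap ℂ (Polynomial ℂ))) := by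
  have h1 := Proj.fromOfGlobalSections_toSpecZero_assoc GA (linΓ a b) (linΓ_top h)
    (Spec.map (CommRingCat.ofHom (algebraMap ℂ (GA 0))))
  refine h1.trans ?_
  rw [← Spec.map_comp]
  have h2 : CommRingCat.ofHom (algebraMap ℂ (GA 0)) ≫
      CommRingCat.ofHom ((linΓ a b).comp (algebraMap (GA 0) _)) =
      CommRingCat.ofHom (algebraMap ℂ (Polynomial ℂ)) ≫
        (Scheme.ΓSpecIso (.of (Polynomial ℂ))).inv := by
    ext c
    exact congrArg (Scheme.ΓSpecIso (.of (Polynomial ℂ))).inv.hom ((lin a b).commutes c)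
  rw [h2, Spec.map_comp, toSpecΓ_SpecMap_ΓSpecIso_inv_assoc]

lemma line_mem {a b : Fin (1 + 1) → ℂ} (h : ∀ t : ℂ, (1 - t) • a + t • b ≠ 0) (t : ℂ)
    (z : ProjectiveSpectrum GA) (hz : Sub z ((1 - t) • a + t • b)) :
    (evA t ≫ line h) (IsLocalRing.closedPoint ℂ) ∈ closure ({z} : Set (PP ℂ 1)) := by
  refine (ProjectiveSpectrum.le_iff_mem_closure GA z _).1 ?_
  intro r hr
  rw [← HomogeneousIdeal.mem_iff, Ideal.IsHomogeneous.mem_iff GA
    (HomogeneousIdeal.isHomogeneous _)] at hr ⊢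
  intro m
  have h1 := hz m _ (DirectSum.decompose GA r m).2 (hr m)
  generalize ((DirectSum.decompose GA r) m) = r' at h1
  obtain ⟨r', hr'⟩ := r'
  dsimp only at h1 ⊢
  rcases Nat.eq_zero_or_pos m with rfl | hm
  · have h3 : r' = C (coeff 0 r') :=
      totalDegree_eq_zero_iff_eq_C.1 ((totalDegree_zero_iff_isHomogeneous _).2 hr')
    have h4 : r' = 0 := by
      rw [h3, eval_C] at h1
      rw [h3, h1, map_zero]
    rw [h4]
    exact zero_mem _
  · by_contra hn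
    have h5 : (evA t ≫ line h) (IsLocalRing.closedPoint ℂ) ∈ Proj.basicOpen GA r' :=
      (Proj.mem_basicOpen GA r' _).2 hn
    have h6 := Proj.fromOfGlobalSections_preimage_basicOpen GA (linΓ a b) (linΓ_top h) hm hr'
    have h7 : evA t (IsLocalRing.closedPoint ℂ) ∈
        (Spec (.of (Polynomial ℂ))).basicOpen (linΓ a b r') := by
      rw [← h6]; exact h5
    have h8 := basicOpen_eq_of_affine (R := .of (Polynomial ℂ)) (lin a b r')
    have h9 : evA t (IsLocalRing.closedPoint ℂ) ∈ PrimeSpectrum.basicOpen (lin a b r') := by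
      rw [← h8]; exact h7
    apply h9
    change Polynomial.eval t (lin a b r') ∈ IsLocalRing.maximalIdeal ℂ
    rw [eval_lin, h1]
    exact zero_mem _

lemma exists_pair (z w : ProjectiveSpectrum GA) : ∃ a b : Fin (1 + 1) → ℂ, Sub z a ∧ Sub w b ∧
    ∀ t : ℂ, (1 - t) • a + t • b ≠ 0 := by
  obtain ⟨a, ha, hz⟩ := exists_coord z
  obtain ⟨b, hb, hw⟩ := exists_coord w
  by_cases h : ∃ c : ℂ, a = c • b
  · obtain ⟨c, hc⟩ := h
    refine ⟨a, a, hz, hc ▸ hw.smul c, fun t => ?_⟩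
    rw [← add_smul, sub_add_cancel, one_smul]
    exact ha
  · refine ⟨a, b, hz, hw, fun t ht => ?_⟩
    by_cases h1 : t = 1
    · subst h1
      exact hb (by simpa using ht)
    · have h2 : 1 - t ≠ 0 := sub_ne_zero.2 (Ne.symm h1)
      refine h ⟨-t / (1 - t), ?_⟩
      rw [div_eq_inv_mul, mul_smul, eq_inv_smul_iff₀ h2, neg_smul]
      exact eq_neg_of_add_eq_zero_left ht

lemma pt_eq {Y : Scheme.{0}} (t : Y ⟶ Spec (.of ℂ)) [LocallyOfFiniteType t] (f : PP ℂ 1 ⟶ Y)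
    (hf : f ≫ t = PPstr ℂ 1) (x : Spec (.of ℂ) ⟶ Y) (hx : x ≫ t = 𝟙 _) (z : PP ℂ 1)
    (hz : f z = x (IsLocalRing.closedPoint ℂ)) {a b : Fin (1 + 1) → ℂ}
    (h : ∀ t : ℂ, (1 - t) • a + t • b ≠ 0) (u : ℂ) (hs : Sub z ((1 - u) • a + u • b)) :
    evA u ≫ line h ≫ f = x := by
  refine ext_of_apply_closedPoint_eq t ?_ hx ?_
  · rw [Category.assoc, Category.assoc, hf, line_str, ← Spec.map_comp, ← Spec.map_id]
    congr 1
    ext c
    simp
  · have hc : IsClosed {x (IsLocalRing.closedPoint ℂ)} := (pointEquivClosedPoint t ⟨x, hx⟩).2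
    exact closure_minimal (t := f ⁻¹' {x (IsLocalRing.closedPoint ℂ)})
      (Set.singleton_subset_iff.2 hz) (hc.preimage f.continuous) (line_mem h u z hs)

end Pool.Agent.Lib.RC.RC1

namespace Pool.Agent.Lib.RC

open RC1 in
theorem st_RC1 : St_RC1 := by
  rintro Y t _ ⟨U, hU, H⟩
  refine ⟨U, hU, fun z hz hzU => ?_⟩
  obtain ⟨f, hf, h1, h2⟩ := H z hz hzU
  obtain ⟨z1, hz1⟩ := h1 ⟨IsLocalRing.closedPoint ℂ, rfl⟩
  obtain ⟨z2, hz2⟩ := h2 ⟨IsLocalRing.closedPoint ℂ, rfl⟩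
  obtain ⟨a, b, ha, hb, h⟩ := exists_pair z1 z2
  refine ⟨line h ≫ f, by rw [Category.assoc, hf, line_str], ?_, ?_⟩
  · exact pt_eq t f hf _ (by simpa using hz) z1 hz1 h 0 (by simpa using ha)
  · exact pt_eq t f hf _ (by rw [Category.assoc, ← pullback.condition]; exact hz) z2 hz2 h 1
      (by simpa using hb)

end Pool.Agent.Lib.RC
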