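import Pool.Agent.Lib.RC.Space7

set_option autoImplicit false

open Set Metric Filter Topology MvPolynomial
open scoped Polynomial

namespace Pool.Agent.RC.G

open Pool.Agent.Lib.RC Pool.Agent.RC.Sp

variable {n : ℕ}

/-- the value of the rational curve `P / Q` at `u` -/
noncomputable def PQ {V : Type} (P : V → ℂ[X]) (Q : ℂ[X]) (u : ℂ) : V → ℂ :=
  fun i => (P i).eval u / Q.eval u

/-- a rational curve given in the chart `b` -/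
def Cur (M : Dat n) (b : M.B) (P : M.V b → ℂ[X]) (Q : ℂ[X]) : Prop :=
  Q ≠ 0 ∧ ∀ u, Q.eval u ≠ 0 → PQ P Q u ∈ M.Z ℂ b

/-- pairs of points with `h ≠ 0` exist and are joined by rational curves -/
def RCw (M : Dat n) (b : M.B) (h : MvPolynomial (M.V b ⊕ M.V b) ℂ) : Prop :=
  (∃ p ∈ M.Z ℂ b, ∃ q ∈ M.Z ℂ b, eval (Sum.elim p q) h ≠ 0) ∧
  ∀ p ∈ M.Z ℂ b, ∀ q ∈ M.Z ℂ b, eval (Sum.elim p q) h ≠ 0 →
    ∃ P Q, Cur M b P Q ∧ Q.eval 0 ≠ 0 ∧ Q.eval 1 ≠ 0 ∧ PQ P Q 0 = p ∧ PQ P Q 1 = q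

/-- geometric integrality and rational connectedness of the model -/
structure Ext (M : Dat n) : Prop where
  dom : ∀ b, (Ideal.span (Set.range fun i =>
    MvPolynomial.map (algebraMap ℝ ℂ) (M.eqn b i))).IsPrime
  meet : ∀ b g, ∃ p ∈ M.Z ℂ b, ∃ l, aeval p (M.ob b g l) ≠ 0
  rc : ∀ b, ∃ h, RCw M b h

/-- the conclusion: a point over the function field of the conic without real points -/
def Concl (M : Dat n) : Prop :=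
  ∃ (b : M.B) (A : M.V b → MvPolynomial (Fin 2) ℝ) (B : MvPolynomial (Fin 2) ℝ),
    (∃ x y : ℂ, x ^ 2 + y ^ 2 + 1 = 0 ∧ aeval ![x, y] B ≠ 0) ∧
    ∀ x y : ℂ, x ^ 2 + y ^ 2 + 1 = 0 → aeval ![x, y] B ≠ 0 →
      (fun i => aeval ![x, y] (A i) / aeval ![x, y] B) ∈ M.Z ℂ b

/-- for every countable ring of constants a nondegenerate rational curve passes through `p` -/
def Alg (M : Dat n) (b : M.B) (p : M.V b → ℂ) : Prop :=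
  ∀ (k : Type) [CommRing k] [Countable k] (c : k →+* ℂ),
    ∃ P Q, Cur M b P Q ∧ Q.eval 0 ≠ 0 ∧ PQ P Q 0 = p ∧
      ∀ Φ : MvPolynomial (M.V b) k, (∀ u, Q.eval u ≠ 0 → eval₂ c (PQ P Q u) Φ = 0) →
        ∀ z ∈ M.Z ℂ b, eval₂ c z Φ = 0

/-- `x` and `y` are the values at `0` and at infinity of a holomorphic map from the sphere -/
def Adj {X : Type} [TopologicalSpace X] (𝒜 : Atlas X n) (x y : X) : Prop :=
  ∃ f : ℂ → X, Hol 𝒜 f univ ∧ f 0 = x ∧ Tendsto f (cocompact ℂ) (𝓝 y)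

/-- ND, GEN and density of the charts -/
def St_ND : Prop := ∀ (n : ℕ) (M : Dat n) (H : M.Ok), Ext M → ∀ b,
  (∀ p ∈ M.Z ℂ b, ∀ F : MvPolynomial (M.V b) ℂ, (∀ᶠ q in 𝓝 p, q ∈ M.Z ℂ b → eval q F = 0) →
    ∀ q ∈ M.Z ℂ b, eval q F = 0) ∧
  (∀ (k : Type) [CommRing k] [Countable k] (c : k →+* ℂ), ∀ p ∈ M.Z ℂ b, ∀ N ∈ 𝓝 p,
    ∃ y ∈ N, y ∈ M.Z ℂ b ∧ ∀ Φ : MvPolynomial (M.V b) k, eval₂ c y Φ = 0 →
      ∀ z ∈ M.Z ℂ b, eval₂ c z Φ = 0) ∧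
  Dense (dom H b)

/-- extension over the poles of the coordinates -/
def St_EXT : Prop := ∀ (n : ℕ) (M : Dat n) (H : M.Ok) (b : M.B) (Ω : Set ℂ)
  (P : M.V b → ℂ → ℂ) (Q : ℂ → ℂ), IsOpen Ω → (∀ i, DifferentiableOn ℂ (P i) Ω) →
  DifferentiableOn ℂ Q Ω → (∀ s ∈ Ω, ∃ᶠ w in 𝓝 s, Q w ≠ 0) →
  (∀ s ∈ Ω, Q s ≠ 0 → (fun i => P i s / Q s) ∈ M.Z ℂ b) →
  ∃ f, Hol (atlas H) f Ω ∧ ∀ s ∈ Ω, Q s ≠ 0 → f s = ι H b fun i => P i s / Q s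

/-- coordinates of holomorphic maps are meromorphic -/
def St_MERO : Prop := ∀ (n : ℕ) (M : Dat n) (H : M.Ok) (f : ℂ → X H) (Ω : Set ℂ) (b : M.B),
  IsOpen Ω → IsPreconnected Ω → Hol (atlas H) f Ω → (∃ z ∈ Ω, f z ∈ dom H b) →
  ∀ z ∈ Ω, (∀ᶠ w in 𝓝[≠] z, f w ∈ dom H b) ∧ ∀ i, MeromorphicAt (fun w => crd H b (f w) i) z

/-- holomorphic maps from the sphere are rational, in any chart they meet -/
def St_ALG : Prop := ∀ (n : ℕ) (M : Dat n) (H : M.Ok) (f : ℂ → X H) (y : X H) (b : M.B)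
  (u0 : ℂ), Hol (atlas H) f univ → Tendsto f (cocompact ℂ) (𝓝 y) → f u0 ∈ dom H b →
  ∃ P Q, Cur M b P Q ∧ Q.eval u0 ≠ 0 ∧ ∀ u, Q.eval u ≠ 0 → f u = ι H b (PQ P Q u)

def St_LP : Prop := ∀ (n : ℕ) (M : Dat n) (H : M.Ok), Ext M → ∀ (f : ℂ → X H) (y : X H)
  (b : M.B), Hol (atlas H) f univ → f 0 ∈ dom H b → Tendsto f (cocompact ℂ) (𝓝 y) →
  y ∈ Good (atlas H) → {u | f u ∉ Good (atlas H)}.Countable → Alg M b (crd H b (f 0))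

def St_FAM : Prop := ∀ (n : ℕ) (M : Dat n) (H : M.Ok) (b : M.B) (p : M.V b → ℂ),
  Alg M b p → ι H b p ∈ Good (atlas H)

/-- field automorphisms move a point of a rational curve to almost every point of the curve -/
def St_MOVE : Prop := ∀ (n : ℕ) (M : Dat n) (b : M.B) (P : M.V b → ℂ[X]) (Q : ℂ[X]), Q ≠ 0 →
  ∃ N : Set ℂ, N.Countable ∧ (∀ u ∉ N, Q.eval u ≠ 0) ∧
    ∀ u ∉ N, ∀ u' ∉ N, Alg M b (PQ P Q u) → Alg M b (PQ P Q u')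

def St_STEP : Prop := ∀ (n : ℕ) (M : Dat n) (H : M.Ok), Ext M → ∀ x y : X H,
  Adj (atlas H) x y → y ∈ Good (atlas H) → x ∈ Good (atlas H)

/-- the good set contains an end point of general curves -/
def St_B0 : Prop := ∀ (n : ℕ) (M : Dat n) (H : M.Ok), Ext M → ∀ b h, RCw M b h →
  ∃ p ∈ M.Z ℂ b, ∃ q ∈ M.Z ℂ b, eval (Sum.elim p q) h ≠ 0 ∧ ι H b q ∈ Good (atlas H)

def St_CHAIN : Prop := ∀ (n : ℕ) (M : Dat n) (H : M.Ok), Ext M → ∀ b h, RCw M b h →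
  ∀ q ∈ M.Z ℂ b, (∃ p ∈ M.Z ℂ b, eval (Sum.elim p q) h ≠ 0) →
  ∀ p ∈ M.Z ℂ b, Relation.ReflTransGen (Adj (atlas H)) (ι H b p) (ι H b q)

def St_ALL : Prop := ∀ (n : ℕ) (M : Dat n) (H : M.Ok), Ext M →
  (∀ x, x ∈ Good (atlas H)) ∧ PathConnectedSpace (X H)

def St_PI1 : Prop := ∀ (n : ℕ) (M : Dat n) (H : M.Ok), (∀ x, x ∈ Good (atlas H)) →
  ∀ g : ℝ → X H, Continuous g → (∀ θ, g (θ + 2 * Real.pi) = g θ) →
    ∃ (F : unitInterval × ℝ → X H) (y : X H), Continuous F ∧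
      (∀ s θ, F (s, θ + 2 * Real.pi) = F (s, θ)) ∧ (∀ θ, F (0, θ) = g θ) ∧ ∀ θ, F (1, θ) = y

def St_MAIN : Prop := ∀ (n : ℕ) (M : Dat n), M.Ok → Ext M → Concl M

end Pool.Agent.RC.G
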