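import Pool.Agent.Lib.RC.Sch82e
import Pool.Agent.Lib.RC.BlueG
import Pool.Agent.Lib.RC.B_RC1

/-! Assembly of the scheme theoretic statement from the statement on polynomial data. -/

set_option autoImplicit false

open AlgebraicGeometry CategoryTheory

noncomputable section

namespace Pool.Agent.RC.S82

open Pool.Agent.RC.Sp Pool.Agent.Lib.RC

theorem Pres.ext_dat {X : Scheme.{0}} {s : X ⟶ Spec (.of ℝ)} {n : ℕ} (P : Pres s n)
    [GeometricallyIntegral s] (H : RCA1 (complexify s)) : G.Ext P.dat where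
  dom := P.dom
  meet := P.meet
  rc b := by
    obtain ⟨h, h1, h2⟩ := P.rc H b
    refine ⟨h, h1, fun p hp q hq hpq => ?_⟩
    obtain ⟨A, Q, c0, c1, c2, c3, c4⟩ := h2 p hp q hq hpq
    refine ⟨A, Q, ⟨?_, c4⟩, c0, c1, funext c2, funext c3⟩
    rintro rfl
    exact c0 Polynomial.eval_zero

theorem result_of (hM : G.St_MAIN) (hD : St_DALG) (hF : St_FIN) : St_RESULT := by
  intro X s _ _ _ hRC hno
  have : Subsingleton (Spec (CommRingCat.of ℝ)) := inferInstanceAs (Subsingleton (PrimeSpectrum ℝ))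
  have : IsIntegral X := GeometricallyIntegral.isIntegral_of_subsingleton s
  obtain ⟨n, ⟨P⟩⟩ := exists_Pres' s
  obtain ⟨b, A, B, hB, hZ⟩ := hM n P.dat P.ok (P.ext_dat (st_RC1 _ _ hRC))
  obtain ⟨g, hg⟩ := (P.ch b).conic_pt hD A B hB hZ
  exact hF X s hno g hg

end Pool.Agent.RC.S82
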