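import Pool.Agent.Lib.RC.BlueA

namespace Pool.Agent.Lib.RC

open Set Metric Complex Filter Topology

namespace A1

theorem pt_rc (κ : ℝ) (s : Sy) (i : Cell) : pt κ (rc s i) = rz κ s (pt κ i) := by
  obtain ⟨b, a⟩ := s
  cases b <;> simp [pt, rc, rz, cj] <;> ring

theorem dist_pt {κ : ℝ} (h1 : 1 ≤ κ) (h2 : κ ≤ 2) {i k : Cell} {M : ℝ} (h : dist i k ≤ M) :
    dist (pt κ i) (pt κ k) ≤ 3 * M := by
  have ha : |(i.1 : ℝ) - k.1| ≤ M := by
    have := (le_max_left _ _).trans (Prod.dist_eq (x := i) (y := k) ▸ h)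
    rwa [Int.dist_eq] at this
  have hb : |(i.2 : ℝ) - k.2| ≤ M := by
    have := (le_max_right _ _).trans (Prod.dist_eq (x := i) (y := k) ▸ h)
    rwa [Int.dist_eq] at this
  rw [dist_eq_norm]
  refine (norm_le_abs_re_add_abs_im _).trans ?_
  have e1 : (pt κ i - pt κ k).re = κ * ((i.1 : ℝ) - k.1) := by simp [pt]; ring
  have e2 : (pt κ i - pt κ k).im = (i.2 : ℝ) - k.2 := by simp [pt]
  rw [e1, e2, abs_mul, abs_of_pos (by linarith : (0 : ℝ) < κ)]
  have := abs_nonneg ((i.1 : ℝ) - k.1)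
  nlinarith

theorem dist_Q {κ : ℝ} (h1 : 1 ≤ κ) (h2 : κ ≤ 2) {i : Cell} {z : ℂ} (h : z ∈ Q κ i) :
    dist (pt κ i) z ≤ 3 := by
  obtain ⟨ha, hb⟩ := h
  have hκ : (0 : ℝ) < κ := by linarith
  rw [dist_comm, dist_eq_norm]
  refine (norm_le_abs_re_add_abs_im _).trans ?_
  have e1 : (z - pt κ i).re = κ * (z.re / κ - i.1) := by simp [pt]; field_simp
  have e2 : (z - pt κ i).im = z.im - i.2 := by simp [pt]
  rw [e1, e2, abs_mul, abs_of_pos hκ]
  have := abs_nonneg (z.re / κ - i.1)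
  nlinarith

theorem not_pole_of_deep (K : Comb) {i : Cell} {D : ℝ} (hD : 1 ≤ D)
    (hc : ∀ j, dist j i ≤ D → K.cls j = K.cls i) : ¬ K.pole i := by
  intro hp
  have h1 : K.cls (i.1 + 1, i.2) = K.cls i := by
    refine hc _ (le_trans ?_ hD)
    simp [Prod.dist_eq]
  have h2 := K.sing i _ hp h1.symm
  have h3 := congrArg Prod.fst h2
  simp at h3

theorem sv_zero {n : ℕ} (b : Bool) : sv b (0 : E n) = 0 := by
  cases b <;> simp [sv]

end A1

open A1 Classical in
theorem st_A1 (h1 : St_NL) (h2 : St_UC) : St_A1 := by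
  intro n X _ 𝒜 S _ ψ Kc hψ hK hKs r r' C ε hr hε
  obtain ⟨C1, hC1, U1, U2, U3⟩ := h2 n X 𝒜 S ψ Kc hψ hK hKs
  obtain ⟨ε1, M, C3, hε1, hM, hC3, H⟩ := h1 n C1 hC1
  obtain ⟨δ0, γ1, hδ0, hγ1, U1⟩ := U1 ε1 hε1
  obtain ⟨η0, hη0, H⟩ := H r r' C δ0 hr hδ0
  obtain ⟨η1, hη1, U3a⟩ := U3 (ε / 2) (by linarith)
  set η := min η0 (η1 / C3) with hη
  have hηp : 0 < η := lt_min hη0 (div_pos hη1 hC3)
  have hη3 : C3 * η ≤ η1 := by
    have : η ≤ η1 / C3 := min_le_right _ _
    rwa [le_div_iff₀ hC3, mul_comm] at this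
  obtain ⟨γ2, hγ2, U2⟩ := U2 η hηp
  set γ := min (min γ1 γ2) (ε / 2) with hγ
  have hγa : γ ≤ γ1 := (min_le_left _ _).trans (min_le_left _ _)
  have hγb : γ ≤ γ2 := (min_le_left _ _).trans (min_le_right _ _)
  have hγc : γ ≤ ε / 2 := min_le_right _ _
  refine ⟨3 * M, γ, by linarith, lt_min (lt_min hγ1 hγ2) (by linarith), fun K F0 sn Ψ hA => ?_⟩
  set x : Cell → X := fun i => F0 (pt K.κ i) with hx
  set e : Cell → E n := fun i => ψ (sn i) (x i) with he
  set g0 : Cell → ℂ → E n := fun i z => if K.pole i then e i else ψ (sn i) (F0 z) with hg0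
  have hxx : ∀ i k : Cell, dist i k ≤ M → dist (x i) (x k) ≤ γ := fun i k h =>
    hA.slow _ _ (dist_pt K.κ1 K.κ2 h)
  have hxz : ∀ i, ∀ z ∈ Q K.κ i, dist (x i) (F0 z) ≤ γ := fun i z hz =>
    hA.slow _ _ ((dist_Q K.κ1 K.κ2 hz).trans (by linarith))
  have hxs : ∀ i, x i ∈ (ψ (sn i)).source := fun i => hKs _ (hA.core i)
  have hes : ∀ s ∈ K.G, ∀ i, e (rc s i) = st s.1 (e i) := by
    intro s hs i
    simp only [he, hx]
    rw [pt_rc, hA.sF s hs, hA.sψ s hs]
  have hN : NLHyp 𝒜 K C1 M ε1 r r' C δ0 η (fun i => ψ (sn i)) e g0 Ψ := by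
    refine ⟨fun i => hψ _, fun i j h => by rw [hA.cl i j h], ⟨?_, fun _ _ => rfl, ?_, ?_, ?_⟩,
      ?_, hA.dat, ?_, ?_, ?_, ?_, ?_, hA.sψ, hA.sψ', hes, hA.sΨ⟩
    · intro i j h
      by_cases hi : K.pole i
      · rw [K.sing i j hi h]
      · by_cases hj : K.pole j
        · rw [K.sing j i hj h.symm]
        · funext z
          simp only [hg0, hi, hj, if_false, hA.cl i j h]
    · intro i
      by_cases hi : K.pole i
      · simp only [hg0, hi, if_true]
        exact differentiableOn_const _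
      · simp only [hg0, hi, if_false]
        obtain ⟨hh, hm⟩ := hA.cap i hi
        exact (hh.2 _ (hψ _)).mono fun z hz => ⟨hz, hKs _ (hm hz)⟩
    · intro s hs i z _
      by_cases hi : K.pole i
      · have hi' := (K.Gpole s hs i).2 hi
        simp only [hg0, hi, hi', if_true]
        exact hes s hs i
      · have hi' := mt (K.Gpole s hs i).1 hi
        simp only [hg0, hi, hi', if_false]
        rw [hA.sF s hs, hA.sψ s hs]
    · intro s _ i
      simp [sv_zero]
    · intro i z hz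
      by_cases hi : K.pole i
      · simp only [hg0, hi, if_true, sub_self, norm_zero]
        exact hηp.le
      · simp only [hg0, hi, if_false]
        exact (U2 _ _ (hA.core i) _ ((hxz i z hz).trans hγb)).2
    · intro k
      exact (U1 _ _ _ (hA.core k) _ (hA.core k) (by simpa using hγ1.le)).1
    · intro i k h y hy
      exact ((U1 _ _ _ (hA.core i) _ (hA.core k) ((hxx i k h).trans hγa)).2.1 y hy).1
    · intro i k h y hy
      exact ((U1 _ _ _ (hA.core i) _ (hA.core k) ((hxx i k h).trans hγa)).2.1 y hy).2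
    · intro i k h
      exact (U1 _ _ _ (hA.core i) _ (hA.core k) ((hxx i k h).trans hγa)).2.2
    · intro i k h
      simp only [he]
      rw [(ψ (sn k)).left_inv (hxs k)]
      exact (U2 _ _ (hA.core i) _ ((hxx i k h).trans hγb)).2
  obtain ⟨f, hf, hs, hc, hd⟩ := H η hηp (min_le_left _ _) X 𝒜 K _ e g0 Ψ hN
  refine ⟨f, hf, hs, fun i z hz hp => ?_, fun ε' hε' => ?_⟩
  · obtain ⟨h3, h4⟩ := hc i z hz hp
    by_cases hi : K.pole i
    · simp only [hg0, hi, if_true] at h4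
      have h5 := U3a _ _ (hA.core i) _ h3 (h4.trans hη3)
      have h6 := hxz i z hz
      have h7 := dist_triangle (f z) (x i) (F0 z)
      simp only [hx] at h6 h7
      linarith
    · simp only [hg0, hi, if_false] at h4
      have h5 := U3a _ _ ((hA.cap i hi).2 hz) _ h3 (h4.trans hη3)
      linarith
  · obtain ⟨η2, hη2, U3b⟩ := U3 ε' hε'
    refine ⟨max 1 (C3 * η / η2), fun i hi z hz => ?_⟩
    have hD : (1 : ℝ) ≤ max 1 (C3 * η / η2) := le_max_left _ _
    have hnp := not_pole_of_deep K hD hi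
    have h3 := (hc i z hz fun h => absurd h hnp).1
    have h4 := hd i _ hD hi z hz
    simp only [hg0, hnp, if_false] at h4
    refine U3b _ _ ((hA.cap i hnp).2 hz) _ h3 (h4.trans ?_)
    rw [div_le_iff₀ (by linarith)]
    have h5 : C3 * η / η2 ≤ max 1 (C3 * η / η2) := le_max_right _ _
    rw [div_le_iff₀ hη2] at h5
    linarith

end Pool.Agent.Lib.RC
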