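import Pool.Agent.Lib.RC.BlueG

set_option autoImplicit false

open Set Metric Filter Topology MvPolynomial

namespace Pool.Agent.RC.G

open Pool.Agent.Lib.RC Pool.Agent.RC.Sp

theorem Adj.joined {n : ℕ} {X : Type} [TopologicalSpace X] {𝒜 : Atlas X n} {x y : X}
    (h : Adj 𝒜 x y) : Joined x y := by
  obtain ⟨f, hf, h0, hy⟩ := h
  have hc : Continuous f := continuousOn_univ.1 hf.1
  let g : ℝ → X := fun t => if t < 1 then f ((t / (1 - t) : ℝ) : ℂ) else y
  have hg : ContinuousOn g (Icc 0 1) := by
    intro t ht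
    rcases ht.2.lt_or_eq with h1 | rfl
    · have h2 : g =ᶠ[𝓝 t] fun t => f ((t / (1 - t) : ℝ) : ℂ) := by
        filter_upwards [Iio_mem_nhds h1] with s hs
        exact if_pos hs
      refine (ContinuousAt.congr ?_ h2.symm).continuousWithinAt
      refine hc.continuousAt.comp (Complex.continuous_ofReal.continuousAt.comp ?_)
      exact continuousAt_id.div (continuousAt_const.sub continuousAt_id) (sub_pos.2 h1).ne'
    · have h3 : Tendsto (fun t : ℝ => t / (1 - t)) (𝓝[<] 1) atTop := by
        have h4 : Tendsto (fun t : ℝ => 1 - t) (𝓝[<] 1) (𝓝[>] 0) := by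
          refine tendsto_nhdsWithin_iff.2 ⟨?_, ?_⟩
          · have : Tendsto (fun t : ℝ => 1 - t) (𝓝 1) (𝓝 (1 - 1)) :=
              (continuous_const.sub continuous_id).tendsto 1
            rw [sub_self] at this
            exact this.mono_left nhdsWithin_le_nhds
          · filter_upwards [self_mem_nhdsWithin] with s hs
            exact sub_pos.2 (show s < 1 from hs)
        have h5 := tendsto_inv_nhdsGT_zero.comp h4
        have h6 : Tendsto (fun t : ℝ => t) (𝓝[<] 1) (𝓝 1) := tendsto_id.mono_left nhdsWithin_le_nhds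
        exact (h6.pos_mul_atTop one_pos h5).congr fun t => by simp [div_eq_mul_inv]
      have h7 : Tendsto (fun s : ℝ => (s : ℂ)) atTop (cocompact ℂ) := by
        rw [← Metric.cobounded_eq_cocompact, ← tendsto_norm_atTop_iff_cobounded]
        simpa using tendsto_abs_atTop_atTop
      have h8 : Tendsto g (𝓝[<] 1) (𝓝 y) := by
        refine ((hy.comp h7).comp h3).congr' ?_
        filter_upwards [self_mem_nhdsWithin] with s hs
        exact (if_pos hs).symm
      have h9 : g 1 = y := if_neg (lt_irrefl _)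
      have h10 : ContinuousWithinAt g (Iic 1) 1 := by
        rw [← continuousWithinAt_Iio_iff_Iic, ContinuousWithinAt, h9]
        exact h8
      exact h10.mono Icc_subset_Iic_self
  have h11 : g 0 = x := by simp [g, h0]
  have h12 : g 1 = y := if_neg (lt_irrefl _)
  exact ⟨⟨⟨fun t => g t, hg.comp_continuous continuous_subtype_val fun t => t.2⟩, h11, h12⟩⟩

theorem st_ALL (h1 : St_STEP) (h2 : St_B0) (h3 : St_CHAIN) : St_ALL := by
  intro n M H hE
  have key : ∀ b, ∃ q ∈ M.Z ℂ b, ι H b q ∈ Good (atlas H) ∧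
      ∀ x ∈ dom H b, Relation.ReflTransGen (Adj (atlas H)) x (ι H b q) := by
    intro b
    obtain ⟨h, hh⟩ := hE.rc b
    obtain ⟨p, hp, q, hq, hpq, hg⟩ := h2 n M H hE b h hh
    refine ⟨q, hq, hg, fun x hx => ?_⟩
    have := h3 n M H hE b h hh q hq ⟨p, hp, hpq⟩ _ (crd_mem H hx)
    rwa [ι_crd H hx] at this
  choose q hq hg hch using key
  have hj : ∀ x y : X H, Relation.ReflTransGen (Adj (atlas H)) x y → Joined x y := by
    intro x y h
    induction h with
    | refl => exact Joined.refl _
    | tail _ h ih => exact ih.trans h.joined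
  refine ⟨fun x => ?_, ⟨inferInstance, fun x y => ?_⟩⟩
  · obtain ⟨b, hb⟩ := exists_dom H x
    have h := hch b x hb
    have hy := hg b
    clear hb
    generalize ι H b (q b) = y at h hy
    induction h using Relation.ReflTransGen.head_induction_on with
    | refl => exact hy
    | head h _ ih => exact h1 n M H hE _ _ h ih
  · obtain ⟨b, hb⟩ := exists_dom H x
    obtain ⟨g, hg'⟩ := exists_dom H y
    obtain ⟨p, hp, l, hl⟩ := hE.meet b g
    have hzb := ι_mem H hp
    have hzg : ι H b p ∈ dom H g :=
      (mem_dom_of_ne H hzb (l := l) (by rwa [crd_ι H hp])).1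
    exact ((hj _ _ (hch b x hb)).trans (hj _ _ (hch b _ hzb)).symm).trans
      ((hj _ _ (hch g _ hzg)).trans (hj _ _ (hch g y hg')).symm)

end Pool.Agent.RC.G
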