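import Pool.Agent.Lib.RC.B_ATR

namespace Pool.Agent.Lib.RC

open Set Metric Complex Filter Topology

theorem rho_rho (w : ℂ) : rho (rho w) = w + 2 * Real.pi * I := by
  simp [rho]
  ring

theorem rho_re (w : ℂ) : (rho w).re = -w.re := by
  simp [rho]

open Classical in
theorem st_Arefl (h1 : St_A1) (h2 : St_COMB) (h3 : St_STN) (h4 : St_MIR) : St_Arefl := by
  intro n X _ _ 𝒜 f0 𝒞 d0 hC hf0 hc0 hside ε hε
  obtain ⟨S, _, ψ, Kc, Ψ, r, r', C, sel, hr, hψ, hK, hKs, c1, c2, c3, c4⟩ := ACore.stations h3 hC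
  choose ψ' hψ' hm using fun a => 𝒜.mir (ψ a) (hψ a)
  have hPer : Per f0 𝒞 (2 * Real.pi * I) := by
    refine ⟨fun w => by rw [← rho_rho, hf0, hf0, 𝒜.σσ], fun c => ?_⟩
    rw [hc0 c, hc0 (rho ⁻¹' c), ← preimage_comp]
    have : rho ∘ rho = fun w => w + 2 * Real.pi * I := funext rho_rho
    rw [this]
  let ψ2 : S × Bool → Chart X n := fun a => if a.2 then ψ' a.1 else ψ a.1
  let K2 : S × Bool → Set X := fun a => if a.2 then 𝒜.σ '' Kc a.1 else Kc a.1
  obtain ⟨h0, hh0, H⟩ := ACore.core h1 h2 hC (S × Bool) ψ2 K2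
    (by rintro ⟨a, _ | _⟩ <;> simp [ψ2, hψ, hψ'])
    (by
      rintro ⟨a, _ | _⟩
      · exact hK a
      · exact (hK a).image 𝒜.σc)
    (by
      rintro ⟨a, _ | _⟩
      · exact hKs a
      · rintro _ ⟨x, hx, rfl⟩
        show 𝒜.σ x ∈ (ψ' a).source
        rw [(hm a).1, mem_preimage, 𝒜.σσ]
        exact hKs a hx) r r' C ε hr hε
  have hpi := Real.pi_pos
  obtain ⟨N, hN⟩ := exists_nat_gt (Real.pi / h0)
  have hN0 : (0 : ℝ) < N := lt_trans (by positivity) hN
  have hNz : (0 : ℤ) < N := by exact_mod_cast hN0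
  set h : ℝ := Real.pi / N with hh
  have hhp : 0 < h := by positivity
  have hhm : h ≤ h0 := by
    rw [hh, div_le_iff₀ hN0]
    rw [div_lt_iff₀ hh0] at hN
    linarith
  have hhc : (h : ℂ) ≠ 0 := by exact_mod_cast hhp.ne'
  set s : Sy := (true, (0, (N : ℤ))) with hs
  have hT : ∀ w : ℂ, (h : ℂ) * rz 1 s (w / h) = rho w := by
    intro w
    have : (N : ℂ) ≠ 0 := by exact_mod_cast hN0.ne'
    have hp : (Real.pi : ℂ) ≠ 0 := by exact_mod_cast hpi.ne'
    simp only [hs, rz, cj, if_true, pt, rho, hh, map_div₀, conj_ofReal]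
    push_cast
    field_simp
    simp
    ring
  set w : Cell → ℂ := fun i => h * pt 1 i with hw
  have hwr : ∀ i, w (rc s i) = rho (w i) := by
    intro i
    have := hT (w i)
    rw [hw, mul_div_cancel_left₀ _ hhc] at this
    simp only [hw]
    rw [A1.pt_rc, this]
  have hwre : ∀ i, (w i).re = h * i.1 := by
    intro i
    simp [hw, pt]
  let FD : Cell → Prop := fun j => j.1 < 0 ∨ (j.1 = 0 ∧ j.2 % (2 * N) < N)
  have hFD : ∀ j, FD (rc s j) ↔ ¬ FD j := by
    rintro ⟨a, b⟩
    have e1 : rc s (a, b) = (-a, b + N) := by simp [hs, rc]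
    rw [e1]
    simp only [FD]
    have a1 := Int.emod_nonneg b (by omega : 2 * (N : ℤ) ≠ 0)
    have a2 := Int.emod_lt_of_pos b (by omega : 0 < 2 * (N : ℤ))
    have a3 : (b + N) % (2 * N) = if b % (2 * N) < N then b % (2 * N) + N else b % (2 * N) - N := by
      split_ifs with hlt
      · rw [← Int.emod_add_emod, Int.emod_eq_of_lt (by omega) (by omega)]
      · rw [← Int.emod_add_emod]
        have : b % (2 * N) + N = (b % (2 * N) - N) + (2 * N) * 1 := by ring
        rw [this, Int.add_mul_emod_self_left, Int.emod_eq_of_lt (by omega) (by omega)]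
    rw [a3]
    split_ifs <;> omega
  have hsel : ∀ i, sel (rho (rho (w i))) = sel (w i) := fun i => by rw [rho_rho, c4 _ hPer]
  let sn : Cell → S × Bool := fun i => if FD i then (sel (w i), false) else (sel (rho (w i)), true)
  let Ψ2 : Cell → (ℂ → E n) → E n → ℂ → E n := fun i =>
    if FD i then Ψ (sel (w i)) else mirΨ (Ψ (sel (rho (w i))))
  have hback : ∀ U ∈ 𝒞, ∃ V ∈ 𝒞, rho ⁻¹' V = U := by
    intro U hU
    have e1 : rho ⁻¹' ((fun z => rho (z - 2 * Real.pi * I)) ⁻¹' U) = U := by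
      ext z
      have : rho (rho z - 2 * Real.pi * I) = z := by
        simp [rho, map_ofNat]
        ring
      simp [this]
    exact ⟨_, (hc0 _).2 (e1.symm ▸ hU), e1⟩
  have hrd : ∀ a b, dist (rho a) (rho b) = dist a b := by
    intro a b
    rw [dist_eq_norm, dist_eq_norm, ← norm_conj (a - b), ← norm_neg]
    congr 1
    simp [rho]
    ring
  have cjcj : ∀ u, cj true (cj true u) = u := fun u => by simp [cj]
  have key := H h 1 hhp hhm le_rfl one_le_two {s} (Or.inr ⟨_, rfl⟩) ?_ ?_ sn Ψ2 ?_ ?_ ?_ ?_ ?_ ?_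
  · obtain ⟨f, hf, hn, hs'⟩ := key
    refine ⟨f, hf, hn, fun z => ?_⟩
    have := hs' s rfl z
    rwa [hT] at this
  · rintro _ rfl U
    simp only [hT]
    exact hc0 U
  · rintro _ rfl z
    rw [hT]
    exact hf0 z
  · intro i j U hU hi hj
    have hij : FD i ↔ FD j := by
      have hpos : ∀ k : Cell, (w k).re < 0 → FD k := by
        intro k hk
        rw [hwre] at hk
        have : (k.1 : ℝ) < 0 := by nlinarith
        exact Or.inl (by exact_mod_cast this)
      have hneg : ∀ k : Cell, 0 < (w k).re → ¬ FD k := by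
        intro k hk
        rw [hwre] at hk
        have : (0 : ℝ) < k.1 := by nlinarith
        have : 0 < k.1 := by exact_mod_cast this
        simp only [FD]
        omega
      rcases hside U hU with hs1 | hs1
      · exact iff_of_true (hpos i (hs1 _ hi)) (hpos j (hs1 _ hj))
      · exact iff_of_false (hneg i (hs1 _ hi)) (hneg j (hs1 _ hj))
    by_cases hF : FD i
    · simp only [sn, if_pos hF, if_pos (hij.1 hF)]
      rw [c1 _ _ U hU hi hj]
    · simp only [sn, if_neg hF, if_neg (mt hij.2 hF)]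
      obtain ⟨V, hV, rfl⟩ := hback U hU
      rw [c1 _ _ V hV hi hj]
  · intro i U hU hi
    by_cases hF : FD i
    · simp only [sn, if_pos hF]
      exact c2 _ U hU hi
    · simp only [sn, if_neg hF]
      obtain ⟨V, hV, rfl⟩ := hback U hU
      intro z hz
      refine ⟨f0 (rho z), c2 _ V hV hi ?_, by rw [hf0, 𝒜.σσ]⟩
      obtain ⟨y, hy, hd⟩ := mem_thickening_iff.1 hz
      exact mem_thickening_iff.2 ⟨rho y, hy, by rwa [hrd]⟩
  · intro i hi
    by_cases hF : FD i
    · simp only [sn, Ψ2, if_pos hF]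
      exact c3 _ hi
    · simp only [sn, Ψ2, if_neg hF]
      obtain ⟨a1, e', ri, ri', Ci, hD, a2, a3, a4, a5⟩ :=
        c3 (rho (w i)) fun V hV hV' => hi _ ((hc0 V).1 hV) hV'
      refine ⟨⟨_, a1, by rw [hf0, 𝒜.σσ]⟩, star e', ri, ri', Ci,
        h4 n X 𝒜 _ _ e' ri ri' Ci _ hD (hψ' _) (hm _), a2, a3, a4, ?_⟩
      show ‖ψ' _ (f0 (w i)) - star e'‖ ≤ ri / 4
      rw [(hm _).2.1, ← hf0, ← star_sub, norm_star]
      exact a5
  · rintro _ rfl i x
    by_cases hF : FD i
    · simp only [sn, if_pos hF, if_neg ((not_congr (hFD i)).2 (not_not.2 hF)), hwr, hsel]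
      show ψ' _ (𝒜.σ x) = star (ψ _ x)
      rw [(hm _).2.1, 𝒜.σσ]
    · simp only [sn, if_neg hF, if_pos ((hFD i).2 hF), hwr]
      show ψ _ (𝒜.σ x) = star (ψ' _ x)
      rw [(hm _).2.1, star_star]
  · rintro _ rfl i y
    by_cases hF : FD i
    · simp only [sn, if_pos hF, if_neg ((not_congr (hFD i)).2 (not_not.2 hF)), hwr, hsel]
      show (ψ' _).symm (star y) = 𝒜.σ ((ψ _).symm y)
      rw [(hm _).2.2, star_star]
    · simp only [sn, if_neg hF, if_pos ((hFD i).2 hF), hwr]
      show (ψ _).symm (star y) = 𝒜.σ ((ψ' _).symm y)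
      rw [(hm _).2.2, 𝒜.σσ]
  · rintro _ rfl i g v u
    by_cases hF : FD i
    · simp only [Ψ2, if_pos hF, if_neg ((not_congr (hFD i)).2 (not_not.2 hF)), hwr, hsel]
      simp [hs, mirΨ, st, sv, cjcj]
    · simp only [Ψ2, if_neg hF, if_pos ((hFD i).2 hF), hwr]
      simp [hs, mirΨ, st, sv]

theorem st_Asph (h : St_Arefl) : St_Asph := by
  intro n X _ _ 𝒜 f0 x hc hg hs hx
  have hpi := Real.pi_pos
  have p1 : ∀ w, f0 (w + 2 * Real.pi * I) = f0 w := fun w => by rw [← rho_rho, hs, hs, 𝒜.σσ]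
  have hx' : ∀ w : ℂ, 1 ≤ w.re → f0 w = 𝒜.σ x := by
    intro w hw
    rw [← hx (rho w) (by rw [rho_re]; linarith), hs, 𝒜.σσ]
  set K : Set ℂ := closedBall 0 (3 + 2 * Real.pi) with hK
  have hKc : IsCompact K := isCompact_closedBall _ _
  have hre : ∀ z w : ℂ, dist z w ≤ 1 → |z.re - w.re| ≤ 1 := by
    intro z w hz
    rw [dist_eq_norm] at hz
    simpa using (abs_re_le_norm (z - w)).trans hz
  have key : ∀ w, ∃ t, w + t ∈ K ∧ ∀ z, dist z w ≤ 1 → f0 (z + t) = f0 z := by
    intro w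
    by_cases h1 : w.re ≤ -2
    · refine ⟨-2 - w, ?_, fun z hz => ?_⟩
      · rw [hK, mem_closedBall, dist_zero_right]
        simp
        linarith
      · have := abs_le.1 (hre z w hz)
        rw [hx z (by linarith), hx _ (by simp; linarith)]
    by_cases h2 : 2 ≤ w.re
    · refine ⟨2 - w, ?_, fun z hz => ?_⟩
      · rw [hK, mem_closedBall, dist_zero_right]
        simp
        linarith
      · have := abs_le.1 (hre z w hz)
        rw [hx' z (by linarith), hx' _ (by simp; linarith)]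
    refine ⟨(-⌊w.im / (2 * Real.pi)⌋ : ℤ) * (2 * Real.pi * I), ?_, fun z _ => per_int p1 _ _⟩
    rw [hK, mem_closedBall, dist_zero_right]
    refine (norm_le_abs_re_add_abs_im _).trans (add_le_add ?_ ?_)
    · simp
      rw [abs_le]
      constructor <;> linarith
    · have a1 := Int.floor_le (w.im / (2 * Real.pi))
      have a2 := Int.lt_floor_add_one (w.im / (2 * Real.pi))
      rw [le_div_iff₀ (by positivity)] at a1
      rw [div_lt_iff₀ (by positivity)] at a2
      simp
      rw [abs_le]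
      constructor <;> nlinarith
  set L : Set ℂ := {w | w.re ≤ -2} with hL
  set R : Set ℂ := {w | 2 ≤ w.re} with hR
  have hLt : ∀ z ∈ thickening 1 L, f0 z = x := by
    intro z hz
    obtain ⟨y, hy, hd⟩ := mem_thickening_iff.1 hz
    have := abs_le.1 (hre z y hd.le)
    have hy' : y.re ≤ -2 := hy
    exact hx z (by linarith)
  have hRt : ∀ z ∈ thickening 1 R, f0 z = 𝒜.σ x := by
    intro z hz
    obtain ⟨y, hy, hd⟩ := mem_thickening_iff.1 hz
    have := abs_le.1 (hre z y hd.le)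
    have hy' : 2 ≤ y.re := hy
    exact hx' z (by linarith)
  have hconst : ∀ (Ω : Set ℂ) (y : X), (∀ z ∈ Ω, f0 z = y) → Hol 𝒜 f0 Ω := by
    intro Ω y hy
    refine ⟨hc.continuousOn, fun ψ _ => (differentiableOn_const (ψ y)).congr fun z hz => ?_⟩
    rw [hy z hz.1]
  obtain ⟨ψ1, m1, s1⟩ := 𝒜.cover x
  obtain ⟨ψ2, m2, s2⟩ := 𝒜.cover (𝒜.σ x)
  have hC : Caps 𝒜 f0 {L, R} 1 := by
    refine ⟨uniformContinuous_of_per hc hKc key, one_pos, ?_, ?_, ?_,
      ⟨{(ψ1, {x}), (ψ2, {𝒜.σ x})}, toFinite _, ?_, ?_⟩,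
      ⟨f0 '' K, hKc.image hc, ?_, fun w _ => ?_⟩⟩
    · rintro _ (rfl | rfl)
      · exact convex_halfSpace_re_le _
      · exact convex_halfSpace_re_ge _
    · rintro _ (rfl | rfl) _ (rfl | rfl) z hz z' hz' hd
      · rfl
      · have := abs_le.1 (hre z z' hd.le)
        have a1 : z.re ≤ -2 := hz
        have a2 : 2 ≤ z'.re := hz'
        linarith
      · have := abs_le.1 (hre z z' hd.le)
        have a1 : 2 ≤ z.re := hz
        have a2 : z'.re ≤ -2 := hz'
        linarith
      · rfl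
    · rintro _ (rfl | rfl)
      · exact hconst _ _ hLt
      · exact hconst _ _ hRt
    · rintro _ (rfl | rfl)
      · exact ⟨m1, isCompact_singleton, singleton_subset_iff.2 s1⟩
      · exact ⟨m2, isCompact_singleton, singleton_subset_iff.2 s2⟩
    · rintro _ (rfl | rfl)
      · exact ⟨_, Or.inl rfl, hLt⟩
      · exact ⟨_, Or.inr rfl, hRt⟩
    · rintro _ ⟨w, -, rfl⟩
      exact hg w
    · obtain ⟨t, h1, h2⟩ := key w
      exact ⟨_, h1, h2 w (by simp)⟩
  have e1 : rho ⁻¹' L = R := by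
    ext z
    simp [hL, hR, rho_re]
  have e2 : rho ⁻¹' R = L := by
    ext z
    simp only [hL, hR, mem_preimage, mem_ofPred_eq, rho_re]
    constructor <;> intro <;> linarith
  have hsurj : Function.Surjective rho := fun z =>
    ⟨rho (z - 2 * Real.pi * I), by rw [rho_rho, sub_add_cancel]⟩
  have key2 := h n X 𝒜 f0 {L, R} 1 hC hs (fun c => ?_) ?_ 1 one_pos
  · obtain ⟨f, hf, hn, hs'⟩ := key2
    refine ⟨f, hf, hs', hn.left (-2) x (Or.inl rfl) ?_, hn.right 2 _ (Or.inr rfl) ?_⟩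
    · refine tendsto_const_nhds.congr' ?_
      filter_upwards [tendsto_comap.eventually (eventually_le_atBot (-1 : ℝ))] with w hw
      exact (hx w hw).symm
    · refine tendsto_const_nhds.congr' ?_
      filter_upwards [tendsto_comap.eventually (eventually_ge_atTop (1 : ℝ))] with w hw
      exact (hx' w hw).symm
  · constructor
    · rintro (rfl | rfl)
      · exact Or.inr e1
      · exact Or.inl e2
    · rintro (hc | hc)
      · exact Or.inr (hsurj.preimage_injective (hc.trans e2.symm))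
      · exact Or.inl (hsurj.preimage_injective (hc.trans e1.symm))
  · rintro _ (rfl | rfl)
    · exact Or.inl fun w (hw : w.re ≤ -2) => by linarith
    · exact Or.inr fun w (hw : 2 ≤ w.re) => by linarith

end Pool.Agent.Lib.RC
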