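import Pool.Agent.Lib.RC.ACore

namespace Pool.Agent.Lib.RC

open Set Metric Complex Filter Topology

theorem st_Atr (h1 : St_A1) (h2 : St_COMB) (h3 : St_STN) : St_Atr := by
  intro n X _ _ 𝒜 f0 𝒞 d0 hC ℓ ε hℓ hε
  obtain ⟨S, _, ψ, Kc, Ψ, r, r', C, sel, hr, hψ, hK, hKs, c1, c2, c3, c4⟩ := ACore.stations h3 hC
  obtain ⟨h0, hh0, H⟩ := ACore.core h1 h2 hC S ψ Kc hψ hK hKs r r' C ε hr hε
  have hpi := Real.pi_pos
  obtain ⟨N, hN⟩ := exists_nat_gt (2 * Real.pi / min h0 ℓ)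
  have hm : 0 < min h0 ℓ := lt_min hh0 hℓ
  have hN0 : (0 : ℝ) < N := lt_trans (by positivity) hN
  set h : ℝ := 2 * Real.pi / N with hh
  have hhp : 0 < h := by positivity
  have hhm : h ≤ min h0 ℓ := by
    rw [hh, div_le_iff₀ hN0]
    rw [div_lt_iff₀ hm] at hN
    linarith
  have hhl : 1 ≤ ℓ / h := by
    rw [le_div_iff₀ hhp]
    linarith [hhm.trans (min_le_right _ _)]
  set L : ℕ := ⌊ℓ / h⌋₊ with hL
  have hL1 : 1 ≤ L := Nat.one_le_floor_iff _ |>.2 hhl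
  have hL1' : (1 : ℝ) ≤ L := by exact_mod_cast hL1
  have hL2 : (L : ℝ) ≤ ℓ / h := Nat.floor_le (by positivity)
  have hL3 : ℓ / h < L + 1 := Nat.lt_floor_add_one _
  set κ : ℝ := ℓ / h / L with hκ
  have κ1 : 1 ≤ κ := by
    rw [hκ, le_div_iff₀ (by linarith)]
    linarith
  have κ2 : κ ≤ 2 := by
    rw [hκ, div_le_iff₀ (by linarith)]
    linarith
  have hhc : (h : ℂ) ≠ 0 := by exact_mod_cast hhp.ne'
  have hT : ∀ (a : Cell) (w : ℂ), (h : ℂ) * rz κ (false, a) (w / h) = w + h * pt κ a := by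
    intro a w
    simp only [rz, cj, Bool.false_eq_true, if_false]
    field_simp
  have e1 : (h : ℂ) * pt κ (0, (N : ℤ)) = 2 * Real.pi * I := by
    have : (N : ℂ) ≠ 0 := by exact_mod_cast hN0.ne'
    simp only [pt, hh]
    push_cast
    field_simp
    simp
  have e2 : (h : ℂ) * pt κ ((L : ℤ), 0) = ℓ := by
    have : (L : ℂ) ≠ 0 := by exact_mod_cast (by linarith : (L : ℝ) ≠ 0)
    simp only [pt, hκ]
    push_cast
    field_simp
    simp
  set G : Set Sy := {s | s.1 = false ∧ Per f0 𝒞 (h * pt κ s.2)} with hG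
  have hsel : ∀ s ∈ G, ∀ i, sel (h * pt κ (rc s i)) = sel (h * pt κ i) := by
    rintro ⟨b, a⟩ ⟨hb, hP⟩ i
    obtain rfl : b = false := hb
    have := hT a (h * pt κ i)
    rw [mul_div_cancel_left₀ _ hhc] at this
    rw [A1.pt_rc, this]
    exact c4 _ hP _
  have key := H h κ hhp (hhm.trans (min_le_left _ _)) κ1 κ2 G
    (Or.inl fun s hs => hs.1) ?_ ?_ (fun i => sel (h * pt κ i)) (fun i => Ψ (sel (h * pt κ i)))
    (fun i j U hU => c1 _ _ U hU) (fun i => c2 _) (fun i => c3 _) ?_ ?_ ?_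
  · obtain ⟨f, hf, hn, hs⟩ := key
    refine ⟨f, hf, hn, fun hP w => ?_, fun hP w => ?_⟩
    · have := hs (false, (0, (N : ℤ))) ⟨rfl, by rwa [e1]⟩ w
      rwa [hT, e1] at this
    · have := hs (false, ((L : ℤ), 0)) ⟨rfl, by rwa [e2]⟩ w
      rwa [hT, e2] at this
  · rintro ⟨b, a⟩ ⟨hb, hP⟩ U
    obtain rfl : b = false := hb
    simp only [hT]
    exact hP.2 U
  · rintro ⟨b, a⟩ ⟨hb, hP⟩ w
    obtain rfl : b = false := hb
    rw [hT]
    exact hP.1 w
  · intro s hs i x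
    rw [hsel s hs i, hs.1]
    rfl
  · intro s hs i y
    rw [hsel s hs i, hs.1]
    rfl
  · intro s hs i g v u
    rw [hsel s hs i, hs.1]
    rfl

/-- a continuous map on the plane with two independent periods is uniformly continuous -/
theorem uniformContinuous_of_per {X : Type} [MetricSpace X] {f0 : ℂ → X} (hc : Continuous f0)
    {K : Set ℂ} (hK : IsCompact K)
    (h : ∀ w, ∃ t, w + t ∈ K ∧ ∀ z, dist z w ≤ 1 → f0 (z + t) = f0 z) : UniformContinuous f0 := by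
  rw [Metric.uniformContinuous_iff]
  intro ε hε
  have hu := (hK.cthickening (r := 1)).uniformContinuousOn_of_continuous hc.continuousOn
  obtain ⟨δ, hδ, H⟩ := Metric.uniformContinuousOn_iff.1 hu ε hε
  refine ⟨min δ 1, lt_min hδ one_pos, fun {a b} hab => ?_⟩
  obtain ⟨t, ht, hf⟩ := h a
  have h1 : dist b a ≤ 1 := by
    rw [dist_comm]
    exact hab.le.trans (min_le_right _ _)
  rw [← hf a (by simp), ← hf b h1]
  refine H _ (self_subset_cthickening _ ht) _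
    (mem_cthickening_of_dist_le _ _ _ _ ht (by simpa using h1)) ?_
  simpa using hab.trans_le (min_le_left _ _)

theorem per_int {X : Type} {f0 : ℂ → X} {P : ℂ} (h : ∀ w, f0 (w + P) = f0 w) (k : ℤ) (w : ℂ) :
    f0 (w + k * P) = f0 w := (Function.Periodic.int_mul (f := f0) h k) w

theorem st_Ator (h : St_Atr) : St_Ator := by
  intro n X _ _ 𝒜 f0 ℓ ε hℓ hε hc hg p1 p2
  have hpi := Real.pi_pos
  set K : Set ℂ := closedBall 0 (ℓ + 2 * Real.pi) with hK
  have hKc : IsCompact K := isCompact_closedBall _ _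
  have key : ∀ w, ∃ t, w + t ∈ K ∧ ∀ z, f0 (z + t) = f0 z := by
    intro w
    refine ⟨(-⌊w.re / ℓ⌋ : ℤ) * (ℓ : ℂ) + (-⌊w.im / (2 * Real.pi)⌋ : ℤ) * (2 * Real.pi * I),
      ?_, fun z => by rw [← add_assoc, per_int p1, per_int p2]⟩
    rw [hK, mem_closedBall, dist_zero_right]
    refine (norm_le_abs_re_add_abs_im _).trans (add_le_add ?_ ?_)
    · have a1 := Int.floor_le (w.re / ℓ)
      have a2 := Int.lt_floor_add_one (w.re / ℓ)
      rw [le_div_iff₀ hℓ] at a1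
      rw [div_lt_iff₀ hℓ] at a2
      simp
      rw [abs_le]
      constructor <;> nlinarith
    · have a1 := Int.floor_le (w.im / (2 * Real.pi))
      have a2 := Int.lt_floor_add_one (w.im / (2 * Real.pi))
      rw [le_div_iff₀ (by positivity)] at a1
      rw [div_lt_iff₀ (by positivity)] at a2
      simp
      rw [abs_le]
      constructor <;> nlinarith
  have hC : Caps 𝒜 f0 ∅ 1 := by
    refine ⟨uniformContinuous_of_per hc hKc fun w => ?_, one_pos, by simp, by simp, by simp,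
      ⟨∅, finite_empty, by simp, by simp⟩, ⟨f0 '' K, hKc.image hc, ?_, fun w _ => ?_⟩⟩
    · obtain ⟨t, h1, h2⟩ := key w
      exact ⟨t, h1, fun z _ => h2 z⟩
    · rintro _ ⟨w, -, rfl⟩
      exact hg w
    · obtain ⟨t, h1, h2⟩ := key w
      exact ⟨_, h1, h2 w⟩
  obtain ⟨f, hf, hn, q1, q2⟩ := h n X 𝒜 f0 ∅ 1 hC ℓ ε hℓ hε
  exact ⟨f, hf, q1 ⟨p1, by simp⟩, q2 ⟨p2, by simp⟩, hn.line⟩

end Pool.Agent.Lib.RC
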