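import Pool.Agent.Lib.RC.Blue3
import Pool.Agent.Lib.RC.An7

open AlgebraicGeometry CategoryTheory Limits MvPolynomial HomogeneousLocalization

noncomputable section

namespace Pool.Agent.Lib.RC.CCH

attribute [local instance] MvPolynomial.gradedAlgebra

/-- an affine chart of a reduced closed subscheme -/
lemma exists_chart {P : Scheme.{0}} (Z : TopologicalSpace.Closeds P) {R D : Type} [CommRing R]
    [CommRing D] (u : Spec (.of R) ⟶ P) [IsOpenImmersion u] (π : R →+* D)
    (hπ : Function.Surjective π)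
    (hZ : PrimeSpectrum.vanishingIdeal (u ⁻¹' Z) = RingHom.ker π) :
    ∃ j : Spec (.of D) ⟶ (Scheme.IdealSheafData.vanishingIdeal Z).subscheme, IsOpenImmersion j ∧
      j ≫ (Scheme.IdealSheafData.vanishingIdeal Z).subschemeι =
        Spec.map (CommRingCat.ofHom π) ≫ u ∧
      ∀ x, (Scheme.IdealSheafData.vanishingIdeal Z).subschemeι x ∈ Set.range u →
        x ∈ Set.range j := by
  set I := Scheme.IdealSheafData.vanishingIdeal Z with hI
  let U : P.affineOpens := ⟨u.opensRange, isAffineOpen_opensRange u⟩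
  have hle : ⊤ ≤ u ⁻¹ᵁ U.1 := fun x _ => ⟨x, rfl⟩
  let e := Pool.Agent.RC.An.ev u U.1 hle
  have he : Spec.map e ≫ U.2.fromSpec = u := Pool.Agent.RC.An.map_ev u U.2 hle
  have h1 : IsIso (Spec.map e) := by
    have : Spec.map e = (IsOpenImmersion.isoOfRangeEq u U.2.fromSpec
        (by rw [U.2.range_fromSpec]; rfl)).hom := by
      rw [← cancel_mono U.2.fromSpec, he, IsOpenImmersion.isoOfRangeEq_hom_fac]
    rw [this]
    infer_instance
  have h2 : IsIso e := by
    have : IsIso (Scheme.Spec.map e.op) := h1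
    have : IsIso e.op := isIso_of_fully_faithful Scheme.Spec e.op
    exact isIso_of_op e
  have h3 : Function.Bijective e.hom := ConcreteCategory.bijective_of_isIso e
  have h4 : I.ideal U = RingHom.ker (π.comp e.hom) := by
    ext g
    rw [RingHom.mem_ker, RingHom.comp_apply, ← RingHom.mem_ker, ← hZ, hI,
      Scheme.IdealSheafData.vanishingIdeal_ideal, PrimeSpectrum.mem_vanishingIdeal,
      PrimeSpectrum.mem_vanishingIdeal]
    constructor
    · intro H p hp
      refine H (Spec.map e p) ?_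
      rw [Set.mem_preimage, ← Scheme.Hom.comp_apply, he]
      exact hp
    · intro H p hp
      obtain ⟨p, rfl⟩ := (Spec.map e).surjective p
      rw [Set.mem_preimage, ← Scheme.Hom.comp_apply, he] at hp
      exact H p hp
  let φ : (Γ(P, U.1) ⧸ I.ideal U) ≃+* D := (Ideal.quotEquivOfEq h4).trans
    (RingHom.quotientKerEquivOfSurjective (hπ.comp h3.2))
  let φ' : CommRingCat.of (Γ(P, U.1) ⧸ I.ideal U) ≅ CommRingCat.of D := φ.toCommRingCatIso
  let g : Spec (.of (Γ(P, U.1) ⧸ I.ideal U)) ⟶ I.subscheme := I.subschemeCover.f U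
  have hg : IsOpenImmersion g := I.subschemeCover.map_prop U
  have hg1 : g ≫ I.subschemeι = Spec.map (CommRingCat.ofHom (Ideal.Quotient.mk _)) ≫ U.2.fromSpec :=
    (I.subschemeCover_map_subschemeι U).trans (I.glueDataObjι_ι U)
  refine ⟨Spec.map φ'.hom ≫ g, inferInstance, ?_, fun x hx => ?_⟩
  · rw [Category.assoc, hg1, ← he, ← Spec.map_comp_assoc, ← Spec.map_comp_assoc]
    rfl
  · obtain ⟨y, hy⟩ : x ∈ g.opensRange := (I.opensRange_subschemeCover_map U).ge hx
    obtain ⟨y, rfl⟩ := (Spec.map φ'.hom).surjective y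
    exact ⟨y, hy⟩

abbrev GA : ℕ → Submodule ℝ (MvPolynomial (Fin (2 + 1)) ℝ) := homogeneousSubmodule (Fin (2 + 1)) ℝ

lemma aeval_smul {σ T : Type} [Fintype σ] [CommRing T] [Algebra ℝ T] {r : MvPolynomial σ ℝ} {m : ℕ}
    (hr : r.IsHomogeneous m) (c : T) (a : σ → T) :
    aeval (fun i => c * a i) r = c ^ m * aeval a r := by
  rw [aeval_def, aeval_def, eval₂_eq', eval₂_eq', Finset.mul_sum]
  refine Finset.sum_congr rfl fun d hd => ?_
  have hdeg : m = ∑ j, d j := by
    have := hr (mem_support_iff.mp hd)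
    rw [← this, Finsupp.weight_apply, Finsupp.sum_fintype] <;> simp
  simp only [mul_pow, Finset.prod_mul_distrib, Finset.prod_pow_eq_pow_sum, hdeg]
  ring

lemma hX (k : Fin (2 + 1)) : (X k : MvPolynomial (Fin (2 + 1)) ℝ) ∈ GA 1 := isHomogeneous_X ℝ k

def q0 : MvPolynomial (Fin (2 + 1)) ℝ := X 0 ^ 2 + X 1 ^ 2 + X 2 ^ 2

lemma hq : q0 ∈ GA 2 :=
  ((isHomogeneous_X_pow 0 2).add (isHomogeneous_X_pow 1 2)).add (isHomogeneous_X_pow 2 2)

/-- dehomogenisation -/
def dh0 (k : Fin (2 + 1)) : MvPolynomial (Fin (2 + 1)) ℝ →ₐ[ℝ] MvPolynomial (Fin 2) ℝ :=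
  aeval (Fin.insertNth (α := fun _ => MvPolynomial (Fin 2) ℝ) k 1 X)

lemma dh0_self (k : Fin (2 + 1)) : dh0 k (X k) = 1 := by simp [dh0]

lemma dh0_succ (k : Fin (2 + 1)) (i : Fin 2) : dh0 k (X (k.succAbove i)) = X i := by simp [dh0]

lemma dh0_q (k : Fin (2 + 1)) : dh0 k q0 = X 0 ^ 2 + X 1 ^ 2 + 1 := by
  have : q0 = X k ^ 2 + ∑ i : Fin 2, X (k.succAbove i) ^ 2 := by
    rw [← Fin.sum_univ_succAbove (fun i => (X i : MvPolynomial (Fin (2 + 1)) ℝ) ^ 2) k,
      Fin.sum_univ_three]
    rfl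
  rw [this, Fin.sum_univ_two]
  simp only [map_add, map_pow, dh0_self, dh0_succ]
  ring

def dh (k : Fin (2 + 1)) : Away GA (X k) →+* MvPolynomial (Fin 2) ℝ :=
  (Localization.awayLift (dh0 k).toRingHom (X k)
    (isUnit_iff_exists_inv.mpr ⟨1, by simp [dh0_self]⟩)).comp
      (algebraMap _ (Localization.Away (X k : MvPolynomial (Fin (2 + 1)) ℝ)))

lemma dh_mk (k : Fin (2 + 1)) (m : ℕ) (a : MvPolynomial (Fin (2 + 1)) ℝ) (ha : a ∈ GA (m • 1)) :
    dh k (Away.mk _ (hX k) m a ha) = dh0 k a := by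
  simp only [dh, RingHom.coe_comp, Function.comp_apply,
    HomogeneousLocalization.algebraMap_apply, Away.val_mk]
  rw [Localization.awayLift_mk (v := 1) (hv := by simp [dh0_self])]
  simp

def c0 (k : Fin (2 + 1)) : ℝ →+* Away GA (X k) :=
  (fromZeroRingHom GA _).comp (algebraMap ℝ (GA 0))

lemma c0_eq (k : Fin (2 + 1)) (c : ℝ) :
    c0 k c = Away.mk _ (hX k) 0 (C c) (isHomogeneous_C _ c) := by
  apply val_injective
  rw [Away.val_mk]
  change Localization.mk (C c) 1 = _
  congr 1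

def hm (k : Fin (2 + 1)) : MvPolynomial (Fin 2) ℝ →+* Away GA (X k) :=
  eval₂Hom (c0 k) fun i => Away.mk _ (hX k) 1 (X (k.succAbove i)) (hX _)

lemma dh_c0 (k : Fin (2 + 1)) (c : ℝ) : dh k (c0 k c) = C c := by
  rw [c0_eq, dh_mk]; exact (dh0 k).commutes c

lemma dh_hm (k : Fin (2 + 1)) (F : MvPolynomial (Fin 2) ℝ) : dh k (hm k F) = F := by
  have : (dh k).comp (hm k) = RingHom.id _ := by
    refine ringHom_ext (fun c => ?_) fun i => ?_
    · simp [hm, dh_c0]
    · simp [hm, dh_mk, dh0_succ]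
  exact congr($this F)

lemma hm_dh (k : Fin (2 + 1)) (x : Away GA (X k)) : hm k (dh k x) = x := by
  obtain ⟨m, a, ha, rfl⟩ := Away.mk_surjective _ (hX k) x
  rw [dh_mk]
  apply val_injective
  let L := Localization.Away (X k : MvPolynomial (Fin (2 + 1)) ℝ)
  let w : L := Localization.mk 1 ⟨X k, Submonoid.mem_powers _⟩
  have hw : ∀ (n : ℕ) (b : MvPolynomial (Fin (2 + 1)) ℝ),
      (Localization.mk b ⟨X k ^ n, n, rfl⟩ : L) = w ^ n * algebraMap _ L b := by
    intro n b
    rw [Localization.mk_pow, ← Localization.mk_one_eq_algebraMap, Localization.mk_mul]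
    congr 1 <;> simp
  have h1 : ((algebraMap (Away GA (X k)) L).comp (hm k)).comp (dh0 k : _ →+* _) =
      RingHomClass.toRingHom (aeval fun i => w * algebraMap _ L (X i : MvPolynomial (Fin (2 + 1)) ℝ) :
        MvPolynomial (Fin (2 + 1)) ℝ →ₐ[ℝ] L) := by
    refine ringHom_ext (fun c => ?_) fun i => ?_
    · have h0 : dh0 k (C c) = C c := (dh0 k).commutes c
      simp only [RingHom.coe_comp, Function.comp_apply, RingHom.coe_coe, h0, hm, eval₂Hom_C,
        aeval_C]
      rfl
    · rcases Fin.eq_self_or_eq_succAbove k i with rfl | ⟨j, rfl⟩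
      · simp only [RingHom.coe_comp, Function.comp_apply, RingHom.coe_coe, dh0_self, map_one,
          aeval_X]
        rw [← Localization.mk_one_eq_algebraMap, Localization.mk_mul, one_mul, mul_one]
        exact (Localization.mk_self ⟨X i, Submonoid.mem_powers _⟩).symm
      · simp only [RingHom.coe_comp, Function.comp_apply, RingHom.coe_coe, dh0_succ, hm,
          eval₂Hom_X', aeval_X]
        exact (hw 1 _).trans (by rw [pow_one])
  have h2 := congr($h1 a)
  have ha' : a.IsHomogeneous m := by simpa using ha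
  rw [Away.val_mk, hw]
  refine h2.trans ((aeval_smul ha' w _).trans ?_)
  congr 1
  have h3 : (aeval fun i => algebraMap _ L (X i : MvPolynomial (Fin (2 + 1)) ℝ) :
      MvPolynomial (Fin (2 + 1)) ℝ →ₐ[ℝ] L) = IsScalarTower.toAlgHom ℝ _ L := by
    ext i; simp
  rw [h3]
  rfl

def pr (k : Fin (2 + 1)) : Away GA (X k) →+* DC := (Ideal.Quotient.mk _).comp (dh k)

lemma pr_surj (k : Fin (2 + 1)) : Function.Surjective (pr k) := fun y => by
  obtain ⟨F, rfl⟩ := Ideal.Quotient.mk_surjective y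
  exact ⟨hm k F, by simp [pr, dh_hm]⟩

lemma ker_pr (k : Fin (2 + 1)) :
    RingHom.ker (pr k) = Ideal.span {Away.isLocalizationElem (hX k) hq} := by
  have h1 : dh k (Away.isLocalizationElem (hX k) hq) = X 0 ^ 2 + X 1 ^ 2 + 1 := by
    rw [dh_mk, pow_one, dh0_q]
  ext x
  rw [RingHom.mem_ker, pr, RingHom.comp_apply, Ideal.Quotient.eq_zero_iff_mem, ← h1,
    Ideal.mem_span_singleton', Ideal.mem_span_singleton']
  constructor
  · rintro ⟨c, hc⟩
    exact ⟨hm k c, by rw [← hm_dh k x, ← hc, map_mul, hm_dh]⟩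
  · rintro ⟨c, rfl⟩
    exact ⟨dh k c, by rw [map_mul]⟩

lemma chart [IsDomain DC] (k : Fin (2 + 1)) : ∃ j : Spec (.of DC) ⟶ C0, IsOpenImmersion j ∧
    j ≫ conicIdeal.subschemeι =
      Spec.map (CommRingCat.ofHom (pr k)) ≫ Proj.awayι GA (X k) (hX k) Nat.one_pos ∧
    ∀ x : C0, conicIdeal.subschemeι x ∈ Set.range (Proj.awayι GA (X k) (hX k) Nat.one_pos) →
      x ∈ Set.range j := by
  refine exists_chart (P := Proj GA) (Proj.basicOpen GA q0).compl _ (pr k) (pr_surj k) ?_
  have h1 := Proj.awayι_preimage_basicOpen GA (hX k) Nat.one_pos hq Nat.two_pos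
  have h2 : (Proj.awayι GA (X k) (hX k) Nat.one_pos) ⁻¹' ((Proj.basicOpen GA q0).compl : Set _) =
      PrimeSpectrum.zeroLocus (RingHom.ker (pr k) : Ideal _) := by
    rw [ker_pr, PrimeSpectrum.zeroLocus_span]
    ext x
    have h3 : x ∈ Proj.awayι GA (X k) (hX k) Nat.one_pos ⁻¹ᵁ Proj.basicOpen GA q0 ↔
        x ∈ PrimeSpectrum.basicOpen (Away.isLocalizationElem (hX k) hq) := by rw [h1]; rfl
    exact ((not_congr h3).trans not_not).trans
      ((PrimeSpectrum.mem_zeroLocus _ _).trans Set.singleton_subset_iff).symm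
  exact (congrArg PrimeSpectrum.vanishingIdeal h2).trans
    ((PrimeSpectrum.vanishingIdeal_zeroLocus_eq_radical _).trans (RingHom.ker_isPrime _).radical)

lemma cover (x : Proj GA) : ∃ k, x ∈ Set.range (Proj.awayι GA (X k) (hX k) Nat.one_pos) := by
  have h := Proj.iSup_basicOpen_eq_top GA (fun k => X k) (by
    rw [HomogeneousIdeal.toIdeal_irrelevant_le]
    intro i hi r hr
    have hr' : r.IsHomogeneous i := hr
    change r ∈ Ideal.span _
    rw [← Set.image_univ, mem_ideal_span_X_image]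
    intro m hm
    by_contra hn
    push Not at hn
    have h0 : m = 0 := Finsupp.ext fun j => hn j trivial
    have := hr' (mem_support_iff.1 hm)
    rw [h0, map_zero] at this
    omega)
  obtain ⟨k, hk⟩ := TopologicalSpace.Opens.mem_iSup.1 (h.ge (Set.mem_univ x))
  rw [← Proj.opensRange_awayι GA (X k) (hX k) Nat.one_pos] at hk
  exact ⟨k, hk⟩

lemma X_ne (i : Fin 2) : (Ideal.Quotient.mk _ (X i) : DC) ≠ 0 := by
  rw [Ne, Ideal.Quotient.eq_zero_iff_mem, Ideal.mem_span_singleton']
  rintro ⟨c, hc⟩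
  have := congrArg (aeval (R := ℝ) (Pi.single i Complex.I : Fin 2 → ℂ)) hc
  fin_cases i <;> simp [Complex.I_ne_zero.symm] at this

lemma pr_ne [IsDomain DC] (k l : Fin (2 + 1)) :
    pr k (Away.isLocalizationElem (hX k) (hX l)) ≠ 0 := by
  rw [pr, RingHom.comp_apply, dh_mk, pow_one]
  rcases Fin.eq_self_or_eq_succAbove k l with rfl | ⟨j, rfl⟩
  · rw [dh0_self, map_one]; exact one_ne_zero
  · rw [dh0_succ]; exact X_ne j

end Pool.Agent.Lib.RC.CCH

namespace Pool.Agent.Lib.RC

attribute [local instance] MvPolynomial.gradedAlgebra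

open CCH in
theorem st_CCH : St_CCH := by
  intro _
  choose j h1 h2 h3 using chart
  have hc : ∀ x : C0, ∃ k, x ∈ Set.range (j k) := fun x =>
    (cover (conicIdeal.subschemeι x)).imp fun k hk => h3 k x hk
  refine ⟨?_, j, h1, fun k => ?_, hc⟩
  · have hred : IsReduced C0 := by
      have : ∀ x : C0, _root_.IsReduced (C0.presheaf.stalk x) := by
        intro x
        obtain ⟨k, y, rfl⟩ := hc x
        have := h1 k
        exact isReduced_of_injective ((j k).stalkMap y).hom
          (ConcreteCategory.bijective_of_isIso ((j k).stalkMap y)).1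
      exact isReduced_of_isReduced_stalk _
    have hirr : ∀ k, IsIrreducible (Set.range (j k)) := fun k => by
      rw [← Set.image_univ]
      exact (IrreducibleSpace.isIrreducible_univ _).image _ (j k).continuous.continuousOn
    have hd : Dense (Set.range (j 0)) := by
      intro x
      obtain ⟨k, hk⟩ := hc x
      have := h1 k
      have := h1 0
      let η : Spec (.of DC) := ⟨⊥, Ideal.isPrime_bot⟩
      have hη : j k η ∈ Set.range (j 0) := by
        refine h3 0 _ ?_
        change _ ∈ (Proj.awayι GA (X 0) (hX 0) Nat.one_pos).opensRange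
        rw [Proj.opensRange_awayι]
        have h4 := Proj.awayι_preimage_basicOpen GA (hX k) Nat.one_pos (hX 0) Nat.one_pos
        have h5 : conicIdeal.subschemeι (j k η) = Proj.awayι GA (X k) (hX k) Nat.one_pos
            (Spec.map (CommRingCat.ofHom (pr k)) η) := congr($(h2 k) η)
        exact h5 ▸ h4.ge (pr_ne k 0)
      exact closure_mono Set.inter_subset_right (subset_closure_inter_of_isPreirreducible_of_isOpen
        (hirr k).2 (j 0).isOpenEmbedding.isOpen_range ⟨_, ⟨η, rfl⟩, hη⟩ hk)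
    have : IrreducibleSpace C0 := by
      rw [irreducibleSpace_def, Set.top_eq_univ, ← hd.closure_eq]
      exact (hirr 0).closure
    exact isIntegral_of_irreducibleSpace_of_isReduced _
  · have h4 := Proj.awayι_toSpecZero_assoc GA (X k) (hX k) Nat.one_pos
      (Spec.map (CommRingCat.ofHom (algebraMap ℝ (GA 0))))
    have h5 : j k ≫ C0str = (j k ≫ conicIdeal.subschemeι) ≫ PPstr ℝ 2 := rfl
    rw [h5, h2]
    refine (congrArg (Spec.map (CommRingCat.ofHom (pr k)) ≫ ·) h4).trans ?_
    rw [← Spec.map_comp, ← Spec.map_comp]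
    congr 1
    ext c
    exact congrArg (Ideal.Quotient.mk _) (dh_c0 k c)

end Pool.Agent.Lib.RC
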