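import Mathlib

/-! Maps defined on a dense open part of a normal curve extend when the target is proper. -/

set_option autoImplicit false

open CategoryTheory AlgebraicGeometry

noncomputable section

namespace Pool.Agent.RC.End

universe u

lemma spec_fromFunctionField {C X : Scheme.{u}} [IrreducibleSpace C] (g : C.PartialMap X) {x : C}
    (hx : x ∈ g.domain) :
    Spec.map (C.presheaf.stalkSpecializes ((genericPoint_spec C).specializes trivial)) ≫
      g.fromSpecStalkOfMem hx = g.fromFunctionField := by
  unfold Scheme.PartialMap.fromFunctionField Scheme.PartialMap.fromSpecStalkOfMem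
  rw [← Category.assoc]
  congr 1
  rw [← cancel_mono g.domain.ι, Category.assoc, Scheme.Opens.fromSpecStalkOfMem_ι,
    Scheme.Opens.fromSpecStalkOfMem_ι, Scheme.SpecMap_stalkSpecializes_fromSpecStalk]

theorem extend_pm {C X S : Scheme.{u}} [IsIntegral C]
    (hv : ∀ x : C, ValuationRing (C.presheaf.stalk x)) (sC : C ⟶ S) (sX : X ⟶ S) [IsProper sX]
    [S.IsSeparated] (f : C.PartialMap X) (hf : f.hom ≫ sX = f.domain.ι ≫ sC) :
    ∃ g : C ⟶ X, f.domain.ι ≫ g = f.hom ∧ g ≫ sX = sC := by
  have hXs : X.IsSeparated := by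
    refine ⟨?_⟩
    rw [← Limits.terminal.comp_from sX]
    infer_instance
  have hE : ValuativeCriterion.Existence sX := by
    have h : UniversallyClosed sX := inferInstance
    rw [UniversallyClosed.eq_valuativeCriterion] at h
    exact h.1
  have hφ : f.fromFunctionField ≫ sX = C.fromSpecStalk _ ≫ sC := by
    unfold Scheme.PartialMap.fromFunctionField Scheme.PartialMap.fromSpecStalkOfMem
    rw [Category.assoc, hf, Scheme.Opens.fromSpecStalkOfMem_ι_assoc]
  have hdom : f.toRationalMap.domain = ⊤ := by
    refine eq_top_iff.2 fun (x : C) _ => ?_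
    have := hv x
    have hsq : CommSq f.fromFunctionField
        (Spec.map (CommRingCat.ofHom (algebraMap (C.presheaf.stalk x) C.functionField))) sX
        (C.fromSpecStalk x ≫ sC) := ⟨by
      rw [hφ, ← Scheme.SpecMap_stalkSpecializes_fromSpecStalk
        ((genericPoint_spec C).specializes (y := x) trivial), Category.assoc]
      rfl⟩
    have hd : IsDomain (C.presheaf.stalk x) := inferInstance
    obtain ⟨⟨l, hl1, hl2⟩⟩ := (hE (@ValuativeCommSq.mk _ _ sX (C.presheaf.stalk x) _ hd this
      C.functionField _ _ inferInstance f.fromFunctionField (C.fromSpecStalk x ≫ sC)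
      hsq)).exists_lift
    refine Scheme.RationalMap.mem_domain.2 ⟨Scheme.PartialMap.ofFromSpecStalk sC sX l hl2,
      Scheme.PartialMap.mem_domain_ofFromSpecStalk sC sX l hl2, ?_⟩
    apply Scheme.RationalMap.eq_of_fromFunctionField_eq
    rw [Scheme.RationalMap.fromFunctionField_toRationalMap,
      Scheme.RationalMap.fromFunctionField_toRationalMap,
      ← spec_fromFunctionField _ (Scheme.PartialMap.mem_domain_ofFromSpecStalk sC sX l hl2),
      Scheme.PartialMap.fromSpecStalkOfMem_ofFromSpecStalk]
    exact hl1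
  have h1 : f.domain.ι ≫ C.topIso.inv ≫ (C.isoOfEq hdom).inv ≫ f.toRationalMap.toPartialMap.hom =
      f.hom := by
    rw [← f.toPartialMap_toRationalMap_restrict, Scheme.PartialMap.restrict_hom,
      ← Category.assoc, ← Category.assoc]
    congr 1
    rw [← cancel_mono f.toRationalMap.domain.ι]
    simp only [Category.assoc, Scheme.isoOfEq_inv_ι, Scheme.toIso_inv_ι, Category.comp_id]
    exact (C.homOfLE_ι _).symm
  refine ⟨C.topIso.inv ≫ (C.isoOfEq hdom).inv ≫ f.toRationalMap.toPartialMap.hom, h1, ?_⟩
  have : IsDominant f.domain.ι := ⟨by simpa [DenseRange] using f.dense_domain⟩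
  refine ext_of_isDominant f.domain.ι ?_
  rw [← Category.assoc, h1, hf]

/-- version with an open immersion -/
theorem extend_open {C T X S : Scheme.{u}} [IsIntegral C] [Nonempty T]
    (hv : ∀ x : C, ValuationRing (C.presheaf.stalk x)) (sC : C ⟶ S) (sX : X ⟶ S) [IsProper sX]
    [S.IsSeparated] (j : T ⟶ C) [IsOpenImmersion j] (f : T ⟶ X) (hf : f ≫ sX = j ≫ sC) :
    ∃ g : C ⟶ X, j ≫ g = f ∧ g ≫ sX = sC := by
  obtain ⟨t⟩ := ‹Nonempty T›
  obtain ⟨g, h1, h2⟩ := extend_pm hv sC sX
    ⟨j.opensRange, j.opensRange.2.dense ⟨j t, t, rfl⟩, j.isoOpensRange.inv ≫ f⟩ (by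
      simp only [Category.assoc, hf]
      rw [Scheme.Hom.isoOpensRange_inv_comp_assoc])
  refine ⟨g, ?_, h2⟩
  simp only at h1
  rw [← Scheme.Hom.isoOpensRange_hom_ι j, Category.assoc, h1, Iso.hom_inv_id_assoc]

lemma valuationRing_stalk_Spec (R : CommRingCat.{u}) [IsDomain R] [IsPrincipalIdealRing R]
    (x : Spec R) : ValuationRing ((Spec R).presheaf.stalk x) := by
  have hd : IsDomain (Localization.AtPrime x.asIdeal) :=
    IsLocalization.isDomain_localization x.asIdeal.primeCompl_le_nonZeroDivisors
  have hp : IsPrincipalIdealRing (Localization.AtPrime x.asIdeal) := ⟨fun J => by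
    obtain ⟨a, ha⟩ := (IsPrincipalIdealRing.principal
      (J.comap (algebraMap R (Localization.AtPrime x.asIdeal)))).principal
    refine ⟨algebraMap R _ a, ?_⟩
    rw [← IsLocalization.map_under x.asIdeal.primeCompl _ J, Ideal.under, ha,
      Ideal.submodule_span_eq, Ideal.map_span, Set.image_singleton, Ideal.submodule_span_eq]⟩
  have hvv : ValuationRing (Localization.AtPrime x.asIdeal) := inferInstance
  exact (Spec.stalkIso R x).commRingCatIsoToRingEquiv.symm.surjective.valuationRing _

lemma valuationRing_stalk_of_open {T C : Scheme.{u}} [IsIntegral C] [IsIntegral T] (j : T ⟶ C)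
    [IsOpenImmersion j] (t : T) (h : ValuationRing (T.presheaf.stalk t)) :
    ValuationRing (C.presheaf.stalk (j t)) :=
  (asIso (j.stalkMap t)).commRingCatIsoToRingEquiv.symm.surjective.valuationRing _

end Pool.Agent.RC.End
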