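import Pool.Agent.Lib.RC.Blue3
import Pool.Agent.Lib.RC.End59c

/-! Extension of a point over the function field of a normal curve to a proper scheme. -/

set_option autoImplicit false

open CategoryTheory AlgebraicGeometry Limits

noncomputable section

namespace Pool.Agent.Lib.RC

namespace CEXT

lemma local_map {C X S : Scheme.{0}} [IsIntegral C] (c : C ⟶ S) (s : X ⟶ S) [IsProper s]
    (g : Spec C.functionField ⟶ X) (hg : g ≫ s = C.fromSpecStalk (genericPoint C) ≫ c) (x : C)
    (hv : ValuationRing (C.presheaf.stalk x)) :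
    ∃ φ : C.PartialMap X, x ∈ φ.domain ∧ φ.hom ≫ s = φ.domain.ι ≫ c ∧
      φ.fromFunctionField = g := by
  have hE : ValuativeCriterion.Existence s := by
    have h : UniversallyClosed s := inferInstance
    rw [UniversallyClosed.eq_valuativeCriterion] at h
    exact h.1
  have hsq : CommSq g
      (Spec.map (CommRingCat.ofHom (algebraMap (C.presheaf.stalk x) C.functionField))) s
      (C.fromSpecStalk x ≫ c) := ⟨by
    rw [hg, ← Scheme.SpecMap_stalkSpecializes_fromSpecStalk
      ((genericPoint_spec C).specializes (y := x) trivial), Category.assoc]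
    rfl⟩
  have hd : IsDomain (C.presheaf.stalk x) := inferInstance
  obtain ⟨⟨l, hl1, hl2⟩⟩ := (hE (@ValuativeCommSq.mk _ _ s (C.presheaf.stalk x) _ hd hv
    C.functionField _ _ inferInstance g (C.fromSpecStalk x ≫ c) hsq)).exists_lift
  refine ⟨Scheme.PartialMap.ofFromSpecStalk c s l hl2,
    Scheme.PartialMap.mem_domain_ofFromSpecStalk c s l hl2,
    Scheme.PartialMap.ofFromSpecStalk_comp c s l hl2, ?_⟩
  rw [← Pool.Agent.RC.End.spec_fromFunctionField _
      (Scheme.PartialMap.mem_domain_ofFromSpecStalk c s l hl2),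
    Scheme.PartialMap.fromSpecStalkOfMem_ofFromSpecStalk]
  exact hl1

lemma compat {C X S : Scheme.{0}} [IsIntegral C] (c : C ⟶ S) (s : X ⟶ S) [IsSeparated s]
    (φ ψ : C.PartialMap X) (h1 : φ.hom ≫ s = φ.domain.ι ≫ c) (h2 : ψ.hom ≫ s = ψ.domain.ι ≫ c)
    (h : φ.fromFunctionField = ψ.fromFunctionField) :
    pullback.fst φ.domain.ι ψ.domain.ι ≫ φ.hom = pullback.snd φ.domain.ι ψ.domain.ι ≫ ψ.hom := by
  have he : φ.toRationalMap = ψ.toRationalMap := by
    apply Scheme.RationalMap.eq_of_fromFunctionField_eq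
    rw [Scheme.RationalMap.fromFunctionField_toRationalMap,
      Scheme.RationalMap.fromFunctionField_toRationalMap, h]
  obtain ⟨W, hW, hl, hr, e⟩ := Scheme.PartialMap.toRationalMap_eq_iff.1 he
  have e' : C.homOfLE hl ≫ φ.hom = C.homOfLE hr ≫ ψ.hom := e
  have hred : IsReduced (pullback φ.domain.ι ψ.domain.ι) :=
    isReduced_of_isOpenImmersion (pullback.fst φ.domain.ι ψ.domain.ι ≫ φ.domain.ι)
  obtain ⟨k, hk1, hk2⟩ : ∃ k : W.toScheme ⟶ pullback φ.domain.ι ψ.domain.ι,
      k ≫ pullback.fst _ _ = C.homOfLE hl ∧ k ≫ pullback.snd _ _ = C.homOfLE hr :=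
    ⟨pullback.lift (C.homOfLE hl) (C.homOfLE hr) (by rw [C.homOfLE_ι, C.homOfLE_ι]),
      pullback.lift_fst _ _ _, pullback.lift_snd _ _ _⟩
  have hd0 : IsDominant (k ≫ pullback.fst φ.domain.ι ψ.domain.ι) := by
    rw [hk1]
    exact Opens.isDominant_homOfLE hW hl
  have hd : IsDominant k :=
    IsDominant.of_comp_of_isOpenImmersion k (pullback.fst φ.domain.ι ψ.domain.ι)
  refine ext_of_isDominant_of_isSeparated s ?_ k ?_
  · rw [Category.assoc, Category.assoc, h1, h2, pullback.condition_assoc]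
  · rw [← Category.assoc, ← Category.assoc, hk1, hk2, e']

end CEXT

theorem st_CEXT : St_CEXT := by
  intro C X S _ c s _ hv g hg
  choose φ hx hs hf using fun x : C => CEXT.local_map c s g hg x (hv x)
  have hc : TopologicalSpace.IsOpenCover fun x : C => (φ x).domain :=
    eq_top_iff.2 fun x _ => TopologicalSpace.Opens.mem_iSup.2 ⟨x, hx x⟩
  refine ⟨(C.openCoverOfIsOpenCover _ hc).glueMorphisms (fun x => (φ x).hom) fun x y =>
    CEXT.compat c s (φ x) (φ y) (hs x) (hs y) ((hf x).trans (hf y).symm), ?_⟩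
  refine (C.openCoverOfIsOpenCover _ hc).hom_ext _ _ fun x => ?_
  rw [← Category.assoc, Scheme.Cover.ι_glueMorphisms]
  exact hs x

end Pool.Agent.Lib.RC
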