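import Mathlib

/-! A rational curve over a valued field specialises to a chain of complex rational curves. -/

open Polynomial Filter

noncomputable section

namespace Pool.Agent.RC.Chain

variable {K : Type*} [Field K] {O : ValuationSubring K} {st : O →+* ℂ}

/-- `x` is integral with reduction `z`. -/
def Red (O : ValuationSubring K) (st : O →+* ℂ) (x : K) (z : ℂ) : Prop :=
  ∃ h : x ∈ O, st ⟨x, h⟩ = z

lemma Red.mem {x : K} {z : ℂ} (h : Red O st x z) : x ∈ O := h.1

lemma Red.unique {x : K} {z z' : ℂ} (h : Red O st x z) (h' : Red O st x z') : z = z' :=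
  h.2.symm.trans h'.2

lemma red_zero : Red O st 0 0 := ⟨O.zero_mem, map_zero st⟩

lemma red_one : Red O st 1 1 := ⟨O.one_mem, map_one st⟩

lemma Red.add {x y : K} {z w : ℂ} (h : Red O st x z) (h' : Red O st y w) :
    Red O st (x + y) (z + w) :=
  ⟨O.add_mem _ _ h.1 h'.1, by rw [← h.2, ← h'.2, ← map_add]; rfl⟩

lemma Red.mul {x y : K} {z w : ℂ} (h : Red O st x z) (h' : Red O st y w) :
    Red O st (x * y) (z * w) :=
  ⟨O.mul_mem _ _ h.1 h'.1, by rw [← h.2, ← h'.2, ← map_mul]; rfl⟩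

lemma Red.pow {x : K} {z : ℂ} (h : Red O st x z) (n : ℕ) : Red O st (x ^ n) (z ^ n) := by
  induction n with
  | zero => simpa using red_one
  | succ n ih => rw [pow_succ, pow_succ]; exact ih.mul h

lemma red_sum {ι : Type*} (s : Finset ι) {x : ι → K} {z : ι → ℂ}
    (h : ∀ i ∈ s, Red O st (x i) (z i)) : Red O st (∑ i ∈ s, x i) (∑ i ∈ s, z i) := by
  classical
  induction s using Finset.induction_on with
  | empty => simpa using red_zero
  | insert a s ha ih =>
    rw [Finset.sum_insert ha, Finset.sum_insert ha]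
    exact (h a (Finset.mem_insert_self _ _)).add
      (ih fun i hi => h i (Finset.mem_insert_of_mem hi))

/-- Total version of the reduction map. -/
def stt (O : ValuationSubring K) (st : O →+* ℂ) (x : K) : ℂ :=
  open Classical in if h : x ∈ O then st ⟨x, h⟩ else 0

lemma red_stt {x : K} (h : x ∈ O) : Red O st x (stt O st x) := ⟨h, by simp [stt, h]⟩

lemma red_stt' {x : K} (h : O.valuation x ≤ 1) : Red O st x (stt O st x) :=
  red_stt ((O.valuation_le_one_iff x).1 h)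

lemma Red.stt_eq {x : K} {z : ℂ} (h : Red O st x z) : stt O st x = z := (red_stt h.1).unique h

lemma st_eq_zero_iff (hs : Function.Surjective st) (x : O) :
    st x = 0 ↔ O.valuation (x : K) < 1 := by
  have h := IsLocalRing.eq_maximalIdeal (RingHom.ker_isMaximal_of_surjective st hs)
  rw [← RingHom.mem_ker, h, ValuationSubring.valuation_lt_one_iff]

lemma red_of_lt (hs : Function.Surjective st) {x : K} (h : O.valuation x < 1) : Red O st x 0 :=
  ⟨(O.valuation_le_one_iff x).1 h.le, (st_eq_zero_iff hs _).2 h⟩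

lemma Red.val_eq_one (hs : Function.Surjective st) {x : K} {z : ℂ} (h : Red O st x z)
    (hz : z ≠ 0) : O.valuation x = 1 :=
  le_antisymm ((O.valuation_le_one_iff x).2 h.1)
    (not_lt.1 fun hl => hz (h.unique (red_of_lt hs hl)))

lemma Red.ne_zero {x : K} {z : ℂ} (h : Red O st x z) (hz : z ≠ 0) : x ≠ 0 := by
  rintro rfl
  exact hz (h.unique red_zero)

lemma Red.div (hs : Function.Surjective st) {x y : K} {z w : ℂ} (h : Red O st x z)
    (h' : Red O st y w) (hw : w ≠ 0) : Red O st (x / y) (z / w) := by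
  have h1 : O.valuation y⁻¹ ≤ 1 := by rw [map_inv₀, h'.val_eq_one hs hw, inv_one]
  have h2 := red_stt' (st := st) h1
  have h3 := h'.mul h2
  rw [mul_inv_cancel₀ (h'.ne_zero hw)] at h3
  have h4 : stt O st y⁻¹ = w⁻¹ := (eq_inv_of_mul_eq_one_right (h3.unique red_one))
  rw [div_eq_mul_inv, div_eq_mul_inv, ← h4]
  exact h.mul h2

/-- The reduction of `F (a t) / D`. -/
def bar (O : ValuationSubring K) (st : O →+* ℂ) (F : K[X]) (a D : K) : ℂ[X] :=
  ∑ i ∈ F.support, monomial i (stt O st (F.coeff i * a ^ i / D))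

lemma coeff_bar (F : K[X]) (a D : K) (i : ℕ) :
    (bar O st F a D).coeff i = stt O st (F.coeff i * a ^ i / D) := by
  rw [bar, finsetSum_coeff]
  simp only [coeff_monomial, Finset.sum_ite_eq']
  split_ifs with h
  · rfl
  · rw [notMem_support_iff.1 h, zero_mul, zero_div, red_zero.stt_eq]

lemma val_div_le {x D : K} (h : O.valuation x ≤ O.valuation D) :
    O.valuation (x / D) ≤ 1 := by
  rw [map_div₀]
  exact div_le_one_of_le₀ h zero_le

lemma val_div_lt {x D : K} (h : O.valuation x < O.valuation D) : O.valuation (x / D) < 1 := by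
  rw [map_div₀]
  exact (div_lt_one₀ (lt_of_le_of_lt zero_le h)).2 h

lemma red_bar {F : K[X]} {a D : K}
    (h : ∀ i, O.valuation (F.coeff i * a ^ i) ≤ O.valuation D) {x : K} {t : ℂ}
    (hx : Red O st x t) : Red O st (F.eval (a * x) / D) ((bar O st F a D).eval t) := by
  rw [eval_eq_sum, Polynomial.sum, Finset.sum_div, bar, eval_finsetSum]
  refine red_sum _ fun i _ => ?_
  rw [eval_monomial, mul_pow, show F.coeff i * (a ^ i * x ^ i) / D
    = F.coeff i * a ^ i / D * x ^ i by ring]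
  exact (red_stt' (val_div_le (h i))).mul (hx.pow i)

lemma coeff_bar_zero (hs : Function.Surjective st) {F : K[X]} {a D : K} {i : ℕ}
    (h : O.valuation (F.coeff i * a ^ i) < O.valuation D) : (bar O st F a D).coeff i = 0 := by
  rw [coeff_bar, (red_of_lt hs (val_div_lt h)).stt_eq]

/-- One dominant degree. -/
lemma red_dom (hs : Function.Surjective st) {F : K[X]} {u D : K} {j : ℕ}
    (hj : O.valuation (F.coeff j * u ^ j) ≤ O.valuation D)
    (h : ∀ i, i ≠ j → O.valuation (F.coeff i * u ^ i) < O.valuation D) :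
    Red O st (F.eval u / D) (stt O st (F.coeff j * u ^ j / D)) := by
  have h1 := red_bar (st := st)
    (fun i => if hi : i = j then hi ▸ hj else (h i hi).le) (red_one (O := O) (st := st))
  have h2 : bar O st F u D = monomial j (stt O st (F.coeff j * u ^ j / D)) := by
    ext i
    rw [coeff_monomial]
    split_ifs with hi
    · rw [coeff_bar, hi]
    · exact coeff_bar_zero hs (h i (Ne.symm hi))
  rwa [h2, mul_one, eval_monomial, one_pow, mul_one] at h1

section Crit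

variable (O) in
/-- Critical values of a family of polynomials. -/
def Crit (S : Set K[X]) : Set O.ValueGroup :=
  {r | r ≠ 0 ∧ ∃ F ∈ S, ∃ G ∈ S, ∃ i j, i < j ∧ F.coeff i ≠ 0 ∧ G.coeff j ≠ 0 ∧
    O.valuation (F.coeff i) = O.valuation (G.coeff j) * r ^ (j - i)}

variable {S : Set K[X]}

lemma crit_finite (hS : S.Finite) : (Crit O S).Finite := by
  have : Crit O S ⊆ ⋃ F ∈ S, ⋃ G ∈ S, ⋃ i ∈ (F.support : Set ℕ), ⋃ j ∈ (G.support : Set ℕ),
      {r | i < j ∧ O.valuation (F.coeff i) = O.valuation (G.coeff j) * r ^ (j - i)} := by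
    rintro r ⟨-, F, hF, G, hG, i, j, hij, hi, hj, h⟩
    simp only [Set.mem_iUnion]
    exact ⟨F, hF, G, hG, i, by simpa using hi, j, by simpa using hj, hij, h⟩
  refine Set.Finite.subset (hS.biUnion fun F _ => hS.biUnion fun G _ =>
    F.support.finite_toSet.biUnion fun i _ => G.support.finite_toSet.biUnion fun j hj => ?_) this
  refine Set.Subsingleton.finite ?_
  rintro r ⟨hij, hr⟩ r' ⟨-, hr'⟩
  have h0 : O.valuation (G.coeff j) ≠ 0 := by simpa using hj
  exact (pow_left_inj₀ zero_le zero_le (by omega)).1 (mul_left_cancel₀ h0 (hr.symm.trans hr'))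

/-- Comparison of two monomials of different degrees. -/
lemma cmp (hroot : ∀ n : ℕ, 0 < n → ∀ x : K, ∃ y, y ^ n = x) {F G : K[X]} (hF : F ∈ S)
    (hG : G ∈ S) {i j : ℕ} (hij : i < j) (hi : F.coeff i ≠ 0) (hj : G.coeff j ≠ 0) :
    ∃ r ∈ Crit O S, ∀ u : K, u ≠ 0 →
      (O.valuation (F.coeff i * u ^ i) < O.valuation (G.coeff j * u ^ j) ↔ r < O.valuation u) ∧
      (O.valuation (G.coeff j * u ^ j) < O.valuation (F.coeff i * u ^ i) ↔ O.valuation u < r) := by
  obtain ⟨y, hy⟩ := hroot (j - i) (by omega) (F.coeff i / G.coeff j)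
  have hy0 : y ≠ 0 := by
    rintro rfl
    rw [zero_pow (by omega)] at hy
    exact div_ne_zero hi hj hy.symm
  have e : F.coeff i = G.coeff j * y ^ (j - i) := by rw [hy]; field_simp
  refine ⟨O.valuation y, ⟨by simpa using hy0, F, hF, G, hG, i, j, hij, hi, hj,
    by rw [e, map_mul, map_pow]⟩, fun u hu => ?_⟩
  have e1 : O.valuation (F.coeff i * u ^ i)
      = O.valuation (G.coeff j * u ^ i) * O.valuation y ^ (j - i) := by
    rw [e, ← map_pow, ← map_mul]; congr 1; ring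
  have e2 : O.valuation (G.coeff j * u ^ j)
      = O.valuation (G.coeff j * u ^ i) * O.valuation u ^ (j - i) := by
    rw [← map_pow, ← map_mul, mul_assoc, ← pow_add, Nat.add_sub_cancel' hij.le]
  have h0 : 0 < O.valuation (G.coeff j * u ^ i) :=
    zero_lt_iff.2 (by simpa using ⟨hj, fun h => absurd h hu⟩)
  rw [e1, e2, mul_lt_mul_iff_right₀ h0, mul_lt_mul_iff_right₀ h0,
    pow_lt_pow_iff_left₀ zero_le zero_le (by omega),
    pow_lt_pow_iff_left₀ zero_le zero_le (by omega)]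
  exact ⟨Iff.rfl, Iff.rfl⟩

lemma val_pos {c u : K} (hc : c ≠ 0) (hu : u ≠ 0) (j : ℕ) : 0 < O.valuation (c * u ^ j) :=
  zero_lt_iff.2 (by simpa using ⟨hc, fun h => absurd h hu⟩)

/-- Transport of an inequality from a noncritical point `u` to `a`. -/
lemma move (hroot : ∀ n : ℕ, 0 < n → ∀ x : K, ∃ y, y ^ n = x) {F G : K[X]} (hF : F ∈ S)
    (hG : G ∈ S) {i j : ℕ} (hj : G.coeff j ≠ 0) {u a : K} (hu : u ≠ 0) (ha : a ≠ 0)
    (hn : O.valuation u ∉ Crit O S)
    (h1 : ∀ r ∈ Crit O S, O.valuation u < r → O.valuation a ≤ r)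
    (h2 : ∀ r ∈ Crit O S, r < O.valuation u → r ≤ O.valuation a)
    (h : O.valuation (F.coeff i * u ^ i) ≤ O.valuation (G.coeff j * u ^ j)) :
    O.valuation (F.coeff i * a ^ i) ≤ O.valuation (G.coeff j * a ^ j) ∧
      (i < j → O.valuation u ≤ O.valuation a →
        O.valuation (F.coeff i * a ^ i) < O.valuation (G.coeff j * a ^ j)) ∧
      (j < i → O.valuation a ≤ O.valuation u →
        O.valuation (F.coeff i * a ^ i) < O.valuation (G.coeff j * a ^ j)) := by
  by_cases hi : F.coeff i = 0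
  · have := val_pos (O := O) hj ha j
    rw [hi, zero_mul, map_zero]
    exact ⟨this.le, fun _ _ => this, fun _ _ => this⟩
  rcases lt_trichotomy i j with hij | rfl | hij
  · obtain ⟨r, hr, hc⟩ := cmp (O := O) hroot hF hG hij hi hj
    have hru : r < O.valuation u :=
      lt_of_le_of_ne (not_lt.1 fun hl => not_lt.2 h ((hc u hu).2.2 hl)) fun e => hn (e ▸ hr)
    exact ⟨not_lt.1 fun hl => not_lt.2 (h2 r hr hru) ((hc a ha).2.1 hl),
      fun _ hua => (hc a ha).1.2 (hru.trans_le hua), fun h' => absurd h' (by omega)⟩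
  · refine ⟨?_, fun h' => absurd h' (lt_irrefl _), fun h' => absurd h' (lt_irrefl _)⟩
    rw [map_mul, map_mul] at h ⊢
    have h0 : 0 < O.valuation (u ^ i) := zero_lt_iff.2 (by simpa using fun h => absurd h hu)
    exact mul_le_mul_left ((mul_le_mul_iff_left₀ h0).1 h) _
  · obtain ⟨r, hr, hc⟩ := cmp (O := O) hroot hG hF hij hj hi
    have hru : O.valuation u < r :=
      lt_of_le_of_ne (not_lt.1 fun hl => not_lt.2 h ((hc u hu).1.2 hl)) fun e => hn (e ▸ hr)
    exact ⟨not_lt.1 fun hl => not_lt.2 (h1 r hr hru) ((hc a ha).1.1 hl),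
      fun h' => absurd h' (by omega), fun _ hau => (hc a ha).2.2 (hau.trans_lt hru)⟩

/-- At a noncritical point weak inequalities between different degrees are strict. -/
lemma strict (hroot : ∀ n : ℕ, 0 < n → ∀ x : K, ∃ y, y ^ n = x) {F G : K[X]} (hF : F ∈ S)
    (hG : G ∈ S) {i j : ℕ} (hj : G.coeff j ≠ 0) {u : K} (hu : u ≠ 0)
    (hn : O.valuation u ∉ Crit O S)
    (h : O.valuation (F.coeff i * u ^ i) ≤ O.valuation (G.coeff j * u ^ j)) (hij : i ≠ j) :
    O.valuation (F.coeff i * u ^ i) < O.valuation (G.coeff j * u ^ j) := by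
  have := move hroot hF hG hj hu hu hn (fun _ _ h => h.le) (fun _ _ h => h.le) h
  rcases lt_or_gt_of_ne hij with h' | h'
  exacts [this.2.1 h' le_rfl, this.2.2 h' le_rfl]

/-- The dominant monomial. -/
lemma exists_dom (hs : Function.Surjective st)
    (hroot : ∀ n : ℕ, 0 < n → ∀ x : K, ∃ y, y ^ n = x) {G : K[X]} (hG : G ∈ S) (h0 : G ≠ 0)
    {u : K} (hu : u ≠ 0) (hn : O.valuation u ∉ Crit O S) : ∃ j, G.coeff j ≠ 0 ∧
      (∀ i, O.valuation (G.coeff i * u ^ i) ≤ O.valuation (G.coeff j * u ^ j)) ∧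
      Red O st (G.eval u / (G.coeff j * u ^ j)) 1 ∧
      O.valuation (G.eval u) = O.valuation (G.coeff j * u ^ j) := by
  obtain ⟨j, hj, hm⟩ := Finset.exists_max_image G.support
    (fun i => O.valuation (G.coeff i * u ^ i)) (support_nonempty.2 h0)
  have hj' := mem_support_iff.1 hj
  have hle : ∀ i, O.valuation (G.coeff i * u ^ i) ≤ O.valuation (G.coeff j * u ^ j) := fun i => by
    by_cases hi : G.coeff i = 0
    · rw [hi, zero_mul, map_zero]; exact zero_le
    · exact hm i (mem_support_iff.2 hi)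
  have hD : G.coeff j * u ^ j ≠ 0 := mul_ne_zero hj' (pow_ne_zero _ hu)
  have hr := red_dom hs le_rfl fun i hi => strict hroot hG hG hj' hu hn (hle i) hi
  rw [div_self hD, red_one.stt_eq] at hr
  refine ⟨j, hj', hle, hr, ?_⟩
  have := hr.val_eq_one hs one_ne_zero
  rw [map_div₀] at this
  exact (div_eq_one_iff_eq ((_root_.map_ne_zero _).2 hD)).1 this

/-- Reduction of one chart at the scale `a`, seen from a noncritical point `u`. -/
lemma side (hs : Function.Surjective st) (hroot : ∀ n : ℕ, 0 < n → ∀ x : K, ∃ y, y ^ n = x)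
    {V : Type*} {P : V → K[X]} {Q : K[X]} (hP : ∀ i, P i ∈ S) (hQ : Q ∈ S) (h0 : Q ≠ 0)
    {u a : K} (hu : u ≠ 0) (ha : a ≠ 0) (hn : O.valuation u ∉ Crit O S)
    (h1 : ∀ r ∈ Crit O S, O.valuation u < r → O.valuation a ≤ r)
    (h2 : ∀ r ∈ Crit O S, r < O.valuation u → r ≤ O.valuation a) {p : V → ℂ}
    (hp : ∀ i, Red O st ((P i).eval u / Q.eval u) (p i)) :
    ∃ (Pb : V → ℂ[X]) (Qb : ℂ[X]) (j : ℕ), Qb.coeff j = 1 ∧ (∀ i, (Pb i).coeff j = p i) ∧
      (O.valuation u ≤ O.valuation a → ∀ k < j, Qb.coeff k = 0 ∧ ∀ i, (Pb i).coeff k = 0) ∧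
      (O.valuation a ≤ O.valuation u → ∀ k > j, Qb.coeff k = 0 ∧ ∀ i, (Pb i).coeff k = 0) ∧
      ∀ x t, Red O st x t → Qb.eval t ≠ 0 → ∀ i,
        Red O st ((P i).eval (a * x) / Q.eval (a * x)) ((Pb i).eval t / Qb.eval t) := by
  obtain ⟨j, hj, hle, hr, hv⟩ := exists_dom hs hroot hQ h0 hu hn
  have hDu : Q.coeff j * u ^ j ≠ 0 := mul_ne_zero hj (pow_ne_zero _ hu)
  have hDa : Q.coeff j * a ^ j ≠ 0 := mul_ne_zero hj (pow_ne_zero _ ha)
  have hQu : Q.eval u ≠ 0 := fun h => by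
    rw [h, map_zero] at hv
    exact hDu ((_root_.map_eq_zero _).1 hv.symm)
  have hPle : ∀ i k, O.valuation ((P i).coeff k * u ^ k) ≤ O.valuation (Q.coeff j * u ^ j) := by
    intro i k
    by_cases hi : P i = 0
    · rw [hi, coeff_zero, zero_mul, map_zero]; exact zero_le
    obtain ⟨l, -, hl, -, hv'⟩ := exists_dom hs hroot (hP i) hi hu hn
    have h3 := (O.valuation_le_one_iff _).2 (hp i).mem
    rw [map_div₀, div_le_one₀ (zero_lt_iff.2 ((_root_.map_ne_zero _).2 hQu))] at h3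
    exact (hl k).trans (hv'.symm.le.trans (h3.trans hv.le))
  have mQ := fun k => move hroot hQ hQ hj hu ha hn h1 h2 (hle k)
  have mP := fun i k => move hroot (hP i) hQ hj hu ha hn h1 h2 (hPle i k)
  refine ⟨fun i => bar O st (P i) a (Q.coeff j * a ^ j), bar O st Q a (Q.coeff j * a ^ j), j,
    by rw [coeff_bar, div_self hDa, red_one.stt_eq], fun i => ?_,
    fun h k hk => ⟨coeff_bar_zero hs ((mQ k).2.1 hk h),
      fun i => coeff_bar_zero hs ((mP i k).2.1 hk h)⟩,
    fun h k hk => ⟨coeff_bar_zero hs ((mQ k).2.2 hk h),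
      fun i => coeff_bar_zero hs ((mP i k).2.2 hk h)⟩, fun x t hx ht i => ?_⟩
  · have h3 := (red_dom hs (hPle i j)
      fun k hk => strict hroot (hP i) hQ hj hu hn (hPle i k) hk).div hs hr one_ne_zero
    rw [div_div_div_cancel_right₀ hDu, div_one, mul_div_mul_right _ _ (pow_ne_zero _ hu)] at h3
    rw [coeff_bar, mul_div_mul_right _ _ (pow_ne_zero _ ha)]
    exact h3.unique (hp i)
  · have h3 := (red_bar (fun k => (mP i k).1) hx).div hs (red_bar (fun k => (mQ k).1) hx) ht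
    rwa [div_div_div_cancel_right₀ hDa] at h3

end Crit

section Main

variable [Algebra ℂ K] {Γ : Type*} {V : Γ → Type*}

variable (O st) in
/-- The points `x` and `y` are the values at `0` and at infinity of one reduced curve. -/
def Arc (P : ∀ γ, V γ → K[X]) (Q : Γ → K[X]) (x y : Σ γ, V γ → ℂ) : Prop :=
  ∃ (a : K) (Pb : V x.1 → ℂ[X]) (Qb : ℂ[X]) (Pc : V y.1 → ℂ[X]) (Qc : ℂ[X]),
    Qb.eval 0 = 1 ∧ (∀ i, (Pb i).eval 0 = x.2 i) ∧ Qc.Monic ∧
    (∀ i, (Pc i).natDegree ≤ Qc.natDegree ∧ (Pc i).coeff Qc.natDegree = y.2 i) ∧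
    ∀ᶠ t in cofinite, (∀ δ, (Q δ).eval (a * algebraMap ℂ K t) ≠ 0) ∧ Qb.eval t ≠ 0 ∧
      Qc.eval t ≠ 0 ∧
      (∀ i, Red O st ((P x.1 i).eval (a * algebraMap ℂ K t) / (Q x.1).eval (a * algebraMap ℂ K t))
        ((Pb i).eval t / Qb.eval t)) ∧
      ∀ i, Red O st ((P y.1 i).eval (a * algebraMap ℂ K t) / (Q y.1).eval (a * algebraMap ℂ K t))
        ((Pc i).eval t / Qc.eval t)

variable (O st) in
/-- The point `x` is the reduction of the curve at `u`. -/
def Val (P : ∀ γ, V γ → K[X]) (Q : Γ → K[X]) (u : K) (x : Σ γ, V γ → ℂ) : Prop :=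
  ∀ i, Red O st ((P x.1 i).eval u / (Q x.1).eval u) (x.2 i)

variable {P : ∀ γ, V γ → K[X]} {Q : Γ → K[X]} {S : Set K[X]}

lemma ev_ne {F : Type*} [Field F] {G : F[X]} (hG : G ≠ 0) {f : ℂ → F}
    (hf : Function.Injective f) : ∀ᶠ t in cofinite, G.eval (f t) ≠ 0 := by
  rw [eventually_cofinite]
  refine ((finite_setOfPred_isRoot hG).preimage hf.injOn).subset fun t ht => ?_
  simpa using ht

lemma step [Finite Γ] (hC : ∀ c : ℂ, Red O st (algebraMap ℂ K c) c)
    (hroot : ∀ n : ℕ, 0 < n → ∀ x : K, ∃ y, y ^ n = x) (hP : ∀ γ i, P γ i ∈ S)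
    (hQ : ∀ γ, Q γ ∈ S) (h0 : ∀ γ, Q γ ≠ 0) {u a w : K} (hu : u ≠ 0)
    (hnu : O.valuation u ∉ Crit O S) (hnw : O.valuation w ∉ Crit O S)
    (hua : O.valuation u ≤ O.valuation a) (haw : O.valuation a ≤ O.valuation w)
    (h1 : ∀ r ∈ Crit O S, O.valuation u < r → O.valuation a ≤ r)
    (h2 : ∀ r ∈ Crit O S, r < O.valuation w → r ≤ O.valuation a) {x y : Σ γ, V γ → ℂ}
    (hx : Val O st P Q u x) (hy : Val O st P Q w y) : Arc O st P Q x y := by
  have hs : Function.Surjective st := fun c => ⟨_, (hC c).2⟩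
  have pu : 0 < O.valuation u := zero_lt_iff.2 ((_root_.map_ne_zero _).2 hu)
  have ha : a ≠ 0 := (_root_.map_ne_zero _).1 (pu.trans_le hua).ne'
  have hw : w ≠ 0 := (_root_.map_ne_zero _).1 (pu.trans_le (hua.trans haw)).ne'
  obtain ⟨Pb, Qb, j, b1, b2, b3, -, b5⟩ := side hs hroot (hP x.1) (hQ x.1) (h0 x.1) hu ha hnu h1
    (fun r _ h => h.le.trans hua) hx
  obtain ⟨Pc, Qc, l, c1, c2, -, c4, c5⟩ := side hs hroot (hP y.1) (hQ y.1) (h0 y.1) hw ha hnw
    (fun r _ h => haw.trans h.le) h2 hy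
  obtain ⟨Q1, hQ1⟩ := X_pow_dvd_iff.2 fun k hk => (b3 hua k hk).1
  choose P1 hP1 using fun i => X_pow_dvd_iff.2 fun k hk => (b3 hua k hk).2 i
  have e0 : ∀ F : ℂ[X], (X ^ j * F).coeff j = F.eval 0 := fun F => by
    rw [← coeff_zero_eq_eval_zero, ← coeff_X_pow_mul F j 0, zero_add]
  have d1 : Qc.natDegree ≤ l := natDegree_le_iff_coeff_eq_zero.2 fun k hk => (c4 haw k hk).1
  have d2 : Qc.natDegree = l := le_antisymm d1 (le_natDegree_of_ne_zero (by rw [c1]; simp))
  have m1 : Qc.Monic := by rw [Monic, leadingCoeff, d2, c1]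
  have q1 : Q1.eval 0 = 1 := by rw [← e0, ← hQ1, b1]
  have q0 : Q1 ≠ 0 := fun h => by simp [h] at q1
  refine ⟨a, P1, Q1, Pc, Qc, q1, fun i => by rw [← e0, ← hP1, b2], m1, fun i => ⟨?_, ?_⟩, ?_⟩
  · rw [d2]
    exact natDegree_le_iff_coeff_eq_zero.2 fun k hk => (c4 haw k hk).2 i
  · rw [d2, c2]
  have hinj : Function.Injective fun t : ℂ => a * algebraMap ℂ K t :=
    fun s t h => (algebraMap ℂ K).injective (mul_left_cancel₀ ha h)
  filter_upwards [eventually_all.2 fun δ => ev_ne (h0 δ) hinj, ev_ne q0 Function.injective_id,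
    ev_ne m1.ne_zero Function.injective_id, ev_ne (X_ne_zero (R := ℂ)) Function.injective_id]
    with t t1 t2 t3 t4
  simp only [id, eval_X] at t2 t3 t4
  refine ⟨t1, t2, t3, fun i => ?_, c5 _ _ (hC t) t3⟩
  have h3 := b5 _ _ (hC t) (by simp [hQ1, t2, t4]) i
  rwa [hP1, hQ1, eval_mul, eval_mul, eval_pow, eval_X,
    mul_div_mul_left _ _ (pow_ne_zero _ t4)] at h3

omit [Algebra ℂ K] in
lemma crit_val (hroot : ∀ n : ℕ, 0 < n → ∀ x : K, ∃ y, y ^ n = x) {u w : K}
    (h : O.valuation u < O.valuation w) (hu : u ≠ 0) :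
    ∃ m : K, O.valuation u < O.valuation m ∧ O.valuation m < O.valuation w := by
  obtain ⟨m, hm⟩ := hroot 2 two_pos (u * w)
  have pu : 0 < O.valuation u := zero_lt_iff.2 ((_root_.map_ne_zero _).2 hu)
  have e : O.valuation m ^ 2 = O.valuation u * O.valuation w := by rw [← map_pow, hm, map_mul]
  refine ⟨m, lt_of_pow_lt_pow_left₀ 2 zero_le ?_, lt_of_pow_lt_pow_left₀ 2 zero_le ?_⟩
  · rw [e, sq]; exact mul_lt_mul_of_pos_left h pu
  · rw [e, sq]; exact mul_lt_mul_of_pos_right h (pu.trans h)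

lemma chain_aux [Finite Γ] (hC : ∀ c : ℂ, Red O st (algebraMap ℂ K c) c)
    (hroot : ∀ n : ℕ, 0 < n → ∀ x : K, ∃ y, y ^ n = x) (hS : S.Finite) (hP : ∀ γ i, P γ i ∈ S)
    (hQ : ∀ γ, Q γ ∈ S) (h0 : ∀ γ, Q γ ≠ 0)
    (hVE : ∀ u : K, (∀ γ, (Q γ).eval u ≠ 0) → ∃ γ, ∀ i, (P γ i).eval u / (Q γ).eval u ∈ O)
    {w : K} (hnw : O.valuation w ∉ Crit O S) {y : Σ γ, V γ → ℂ} (hy : Val O st P Q w y) (n : ℕ) :
    ∀ (u : K) (x : Σ γ, V γ → ℂ), u ≠ 0 → O.valuation u ∉ Crit O S →
      O.valuation u ≤ O.valuation w → Val O st P Q u x →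
      {r ∈ Crit O S | O.valuation u < r}.ncard < n → Relation.ReflTransGen (Arc O st P Q) x y := by
  have hs : Function.Surjective st := fun c => ⟨_, (hC c).2⟩
  have hfin := crit_finite (O := O) hS
  induction n with
  | zero => exact fun _ _ _ _ _ _ h => absurd h (Nat.not_lt_zero _)
  | succ n ih =>
    intro u x hu hnu huw hx hc
    by_cases hT : ∃ r ∈ Crit O S, O.valuation u < r ∧ r < O.valuation w
    swap
    · exact .single (step hC hroot hP hQ h0 hu hnu hnw le_rfl huw (fun _ _ h => h.le)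
        (fun r hr h => not_lt.1 fun h' => hT ⟨r, hr, h', h⟩) hx hy)
    obtain ⟨r₀, hr₀, k1, k2⟩ := hT
    obtain ⟨r, ⟨hr, hur⟩, hmin⟩ := Set.exists_min_image {r ∈ Crit O S | O.valuation u < r} id
      (hfin.subset fun _ h => h.1) ⟨r₀, hr₀, k1⟩
    have hrw : r < O.valuation w := lt_of_le_of_lt (hmin r₀ ⟨hr₀, k1⟩) k2
    obtain ⟨a, rfl⟩ := O.valuation_surjective r
    obtain ⟨s, hs1, hs2⟩ := Set.exists_min_image
      (insert (O.valuation w) {s ∈ Crit O S | O.valuation a < s}) id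
      ((hfin.subset fun _ h => h.1).insert _) (Set.insert_nonempty _ _)
    have has : O.valuation a < s := by
      rcases hs1 with rfl | h
      exacts [hrw, h.2]
    obtain ⟨b, rfl⟩ := O.valuation_surjective s
    have ha : a ≠ 0 := (_root_.map_ne_zero _).1 hr.1
    obtain ⟨m, m1, m2⟩ := crit_val hroot has ha
    have hm : m ≠ 0 := (_root_.map_ne_zero _).1 (lt_of_le_of_lt zero_le m1).ne'
    have hgap : ∀ r ∈ Crit O S, r ≤ O.valuation m → r ≤ O.valuation a := fun r hr h =>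
      not_lt.1 fun h' => not_lt.2 ((hs2 r (Or.inr ⟨hr, h'⟩)).trans h) m2
    have hnm : O.valuation m ∉ Crit O S := fun h => not_lt.2 (hgap _ h le_rfl) m1
    obtain ⟨γ, hγ⟩ := hVE m fun γ h => by
      obtain ⟨j, hj, -, hr, -⟩ := exists_dom hs hroot (hQ γ) (h0 γ) hm hnm
      exact hr.ne_zero one_ne_zero (by rw [h, zero_div])
    have hz : Val O st P Q m ⟨γ, fun i => stt O st ((P γ i).eval m / (Q γ).eval m)⟩ :=
      fun i => red_stt (hγ i)
    refine .head (step hC hroot hP hQ h0 hu hnu hnm hur.le m1.le (fun r hr h => hmin r ⟨hr, h⟩)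
      (fun r hr h => hgap r hr h.le) hx hz)
      (ih m _ hm hnm (m2.le.trans (hs2 _ (Set.mem_insert _ _))) hz ?_)
    refine lt_of_lt_of_le (Set.ncard_lt_ncard (t := {r ∈ Crit O S | O.valuation u < r})
      ⟨fun r h => ⟨h.1, hur.trans (m1.trans h.2)⟩, fun h => ?_⟩ (hfin.subset fun _ h => h.1))
      (Nat.lt_succ_iff.1 hc)
    exact absurd (h (a := O.valuation a) ⟨hr, hur⟩).2 (not_lt.2 m1.le)

/-- The values at `0` and at infinity are joined by a chain of reduced curves. -/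
theorem chainval [Finite Γ] [∀ γ, Finite (V γ)] (hO : O ≠ ⊤)
    (hC : ∀ c : ℂ, Red O st (algebraMap ℂ K c) c)
    (hroot : ∀ n : ℕ, 0 < n → ∀ x : K, ∃ y, y ^ n = x) (P : ∀ γ, V γ → K[X]) (Q : Γ → K[X])
    (h0 : ∀ γ, Q γ ≠ 0)
    (hVE : ∀ u : K, (∀ γ, (Q γ).eval u ≠ 0) → ∃ γ, ∀ i, (P γ i).eval u / (Q γ).eval u ∈ O)
    (x y : Σ γ, V γ → ℂ) (hx0 : (Q x.1).eval 0 ≠ 0) (hx : Val O st P Q 0 x)
    (hy0 : ∀ i, (P y.1 i).natDegree ≤ (Q y.1).natDegree)
    (hy : ∀ i, Red O st ((P y.1 i).coeff (Q y.1).natDegree / (Q y.1).leadingCoeff) (y.2 i)) :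
    Relation.ReflTransGen (Arc O st P Q) x y := by
  have hs : Function.Surjective st := fun c => ⟨_, (hC c).2⟩
  let S : Set K[X] := Set.range Q ∪ Set.range fun z : Σ γ, V γ => P z.1 z.2
  have hS : S.Finite := (Set.finite_range _).union (Set.finite_range _)
  have hP : ∀ γ i, P γ i ∈ S := fun γ i => Or.inr ⟨⟨γ, i⟩, rfl⟩
  have hQ : ∀ γ, Q γ ∈ S := fun γ => Or.inl ⟨γ, rfl⟩
  have hfin := (crit_finite (O := O) hS).insert 1
  obtain ⟨π, hπ⟩ : ∃ π : K, 1 < O.valuation π := by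
    by_contra h
    exact hO (eq_top_iff.2 fun z _ =>
      (O.valuation_le_one_iff z).1 (not_lt.1 fun hz => h ⟨z, hz⟩))
  have pos : ∀ r ∈ insert 1 (Crit O S), 0 < r := by
    rintro r (rfl | h)
    exacts [zero_lt_one, zero_lt_iff.2 h.1]
  obtain ⟨r, hr1, hr2⟩ := Set.exists_min_image _ id hfin (Set.insert_nonempty _ _)
  obtain ⟨s, hs1, hs2⟩ := Set.exists_max_image _ id hfin (Set.insert_nonempty _ _)
  obtain ⟨a, rfl⟩ := O.valuation_surjective r
  obtain ⟨b, rfl⟩ := O.valuation_surjective s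
  have pπ : 0 < O.valuation π := zero_lt_one.trans hπ
  have hu1 : O.valuation (a / π) < O.valuation a := by
    rw [map_div₀, div_lt_iff₀ pπ]
    exact lt_mul_of_one_lt_right (pos _ hr1) hπ
  have hw1 : O.valuation b < O.valuation (b * π) := by
    rw [map_mul]
    exact lt_mul_of_one_lt_right (pos _ hs1) hπ
  have hu2 : ∀ r ∈ Crit O S, O.valuation (a / π) < r := fun r h => hu1.trans_le (hr2 r (Or.inr h))
  have hw2 : ∀ r ∈ Crit O S, r < O.valuation (b * π) := fun r h =>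
    lt_of_le_of_lt (hs2 r (Or.inr h)) hw1
  have hu : a / π ≠ 0 := div_ne_zero ((_root_.map_ne_zero _).1 (pos _ hr1).ne')
    ((_root_.map_ne_zero _).1 pπ.ne')
  have hw : b * π ≠ 0 := (_root_.map_ne_zero _).1 ((pos _ hs1).trans hw1).ne'
  generalize a / π = u at hu1 hu2 hu
  generalize b * π = w at hw1 hw2 hw
  refine chain_aux hC hroot hS hP hQ h0 hVE (fun h => lt_irrefl _ (hw2 _ h)) (w := w)
    (fun i => ?_) _ u x hu (fun h => lt_irrefl _ (hu2 _ h))
    (hu1.le.trans ((hr2 _ hs1).trans hw1.le)) (fun i => ?_) (Nat.lt_succ_self _)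
  · have hl : (Q y.1).coeff (Q y.1).natDegree ≠ 0 := leadingCoeff_ne_zero.2 (h0 _)
    have hD := val_pos (O := O) hl hw (Q y.1).natDegree
    have key : ∀ F ∈ S, F.natDegree ≤ (Q y.1).natDegree → ∀ k, k ≠ (Q y.1).natDegree →
        O.valuation (F.coeff k * w ^ k)
          < O.valuation ((Q y.1).coeff (Q y.1).natDegree * w ^ (Q y.1).natDegree) := by
      intro F hF hd k hk
      by_cases hc : F.coeff k = 0
      · rwa [hc, zero_mul, map_zero]
      obtain ⟨r, hr, h⟩ := cmp (O := O) hroot hF (hQ y.1)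
        (lt_of_le_of_ne ((le_natDegree_of_ne_zero hc).trans hd) hk) hc hl
      exact (h w hw).1.2 (hw2 r hr)
    have hD' := (_root_.map_ne_zero _).1 hD.ne'
    have h3 := (O.valuation_le_one_iff _).2 (hy i).mem
    rw [leadingCoeff, ← mul_div_mul_right _ _ (pow_ne_zero (Q y.1).natDegree hw), map_div₀,
      div_le_one₀ hD] at h3
    have h4 := red_dom hs le_rfl (key _ (hQ _) le_rfl)
    rw [div_self hD', red_one.stt_eq] at h4
    have h5 := (red_dom hs h3 (key _ (hP _ i) (hy0 i))).div hs h4 one_ne_zero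
    rw [div_div_div_cancel_right₀ hD', div_one, mul_div_mul_right _ _ (pow_ne_zero _ hw)] at h5
    rwa [← (hy i).stt_eq]
  · have hl : (Q x.1).coeff 0 ≠ 0 := by rwa [coeff_zero_eq_eval_zero]
    have hD := val_pos (O := O) hl hu 0
    have key : ∀ F ∈ S, ∀ k, k ≠ 0 →
        O.valuation (F.coeff k * u ^ k) < O.valuation ((Q x.1).coeff 0 * u ^ 0) := by
      intro F hF k hk
      by_cases hc : F.coeff k = 0
      · rwa [hc, zero_mul, map_zero]
      obtain ⟨r, hr, h⟩ := cmp (O := O) hroot (hQ x.1) hF (Nat.pos_of_ne_zero hk) hl hc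
      exact (h u hu).2.2 (hu2 r hr)
    have hD' := (_root_.map_ne_zero _).1 hD.ne'
    have hxi := hx i
    rw [← coeff_zero_eq_eval_zero, ← coeff_zero_eq_eval_zero] at hxi
    have h3 := (O.valuation_le_one_iff _).2 hxi.mem
    rw [← mul_div_mul_right _ _ (pow_ne_zero 0 hu), map_div₀, div_le_one₀ hD] at h3
    have h4 := red_dom hs le_rfl (key _ (hQ _))
    rw [div_self hD', red_one.stt_eq] at h4
    have h5 := (red_dom hs h3 (key _ (hP _ i))).div hs h4 one_ne_zero
    rw [div_div_div_cancel_right₀ hD', div_one, mul_div_mul_right _ _ (pow_ne_zero _ hu)] at h5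
    rwa [← hxi.stt_eq]

end Main

end Pool.Agent.RC.Chain
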