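import Mathlib

set_option autoImplicit false

open Polynomial Filter Topology Metric Set

noncomputable section

namespace Pool.Agent.RC.F98

variable {V k : Type} [CommRing k]

/-- homogenised evaluation `q^N Φ(p/q)` -/
def hev {A : Type} [CommRing A] (c : k →+* A) (N : ℕ) (Φ : MvPolynomial V k) (q : A)
    (p : V → A) : A :=
  ∑ α ∈ Φ.support, c (MvPolynomial.coeff α Φ) * q ^ (N - α.degree) * ∏ i ∈ α.support, p i ^ α i

lemma map_hev {A B : Type} [CommRing A] [CommRing B] (f : A →+* B) (c : k →+* A) (N : ℕ)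
    (Φ : MvPolynomial V k) (q : A) (p : V → A) :
    f (hev c N Φ q p) = hev (f.comp c) N Φ (f q) (fun i => f (p i)) := by
  simp [hev, map_sum, map_prod]

lemma hev_eq {A : Type} [Field A] (c : k →+* A) (N : ℕ) (Φ : MvPolynomial V k)
    (hN : Φ.totalDegree ≤ N) (q : A) (hq : q ≠ 0) (p : V → A) :
    hev c N Φ q p = q ^ N * MvPolynomial.eval₂ c (fun i => p i / q) Φ := by
  rw [MvPolynomial.eval₂_eq, hev, Finset.mul_sum]
  refine Finset.sum_congr rfl fun α hα => ?_
  have h1 : α.degree ≤ N := by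
    refine le_trans ?_ hN
    exact MvPolynomial.le_totalDegree hα
  have h2 : ∏ i ∈ α.support, (p i / q) ^ α i = (∏ i ∈ α.support, p i ^ α i) / q ^ α.degree := by
    simp only [div_pow, Finset.prod_div_distrib, Finset.prod_pow_eq_pow_sum]
    rfl
  rw [h2]
  obtain ⟨m, rfl⟩ := Nat.exists_eq_add_of_le h1
  rw [Nat.add_sub_cancel_left, pow_add]
  field_simp

/-- the value of the curve `P/Q` at `u` -/
def cv (P : V → ℂ[X]) (Q : ℂ[X]) (u : ℂ) : V → ℂ := fun i => (P i).eval u / Q.eval u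

lemma eval_hev (c : k →+* ℂ) (Φ : MvPolynomial V k) (P : V → ℂ[X]) (Q : ℂ[X]) (u : ℂ)
    (hu : Q.eval u ≠ 0) :
    (hev (C.comp c) Φ.totalDegree Φ Q P).eval u =
      Q.eval u ^ Φ.totalDegree * MvPolynomial.eval₂ c (cv P Q u) Φ := by
  have h := map_hev (evalRingHom u) (C.comp c) Φ.totalDegree Φ Q P
  have h1 : (evalRingHom u).comp (C.comp c) = c := by
    ext x
    simp
  rw [h1, hev_eq c _ Φ le_rfl _ (by simpa using hu)] at h
  exact h

/-- a polynomial vanishing on the curve has vanishing homogenisation -/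
lemma hev_eq_zero (c : k →+* ℂ) (Φ : MvPolynomial V k) (P : V → ℂ[X]) (Q : ℂ[X])
    (T : Set ℂ) (hT : T.Infinite) (hQ : ∀ u ∈ T, Q.eval u ≠ 0)
    (h : ∀ u ∈ T, MvPolynomial.eval₂ c (cv P Q u) Φ = 0) :
    hev (C.comp c) Φ.totalDegree Φ Q P = 0 := by
  refine Polynomial.eq_zero_of_infinite_isRoot _ (hT.mono fun u hu => ?_)
  simp [IsRoot, eval_hev c Φ P Q u (hQ u hu), h u hu]

lemma infinite_ne (Q : ℂ[X]) (hQ : Q ≠ 0) : {u : ℂ | Q.eval u ≠ 0}.Infinite := by
  have h := (Polynomial.finite_setOfPred_isRoot hQ).infinite_compl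
  exact h

/-- either `Φ` vanishes on the whole curve or at finitely many parameters -/
lemma vanish_of_infinite (c : k →+* ℂ) (Φ : MvPolynomial V k) (P : V → ℂ[X]) (Q : ℂ[X])
    (hT : {u | Q.eval u ≠ 0 ∧ MvPolynomial.eval₂ c (cv P Q u) Φ = 0}.Infinite) (u : ℂ)
    (hu : Q.eval u ≠ 0) : MvPolynomial.eval₂ c (cv P Q u) Φ = 0 := by
  have h := hev_eq_zero c Φ P Q _ hT (fun u hu => hu.1) (fun u hu => hu.2)
  have h1 := eval_hev c Φ P Q u hu
  rw [h, eval_zero] at h1
  exact (mul_eq_zero.1 h1.symm).resolve_left (pow_ne_zero _ hu)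

lemma countable_mv [Countable V] [Countable k] : Countable (MvPolynomial V k) := by
  rw [← Cardinal.mk_le_aleph0_iff]
  refine MvPolynomial.cardinalMk_le_max.trans ?_
  exact max_le (max_le Cardinal.mk_le_aleph0 Cardinal.mk_le_aleph0) le_rfl

/-- off a countable set of parameters, the points of a curve are generic on the curve -/
lemma countable_special [Countable V] [Countable k] (c : k →+* ℂ) (P : V → ℂ[X]) (Q : ℂ[X]) :
    {u | Q.eval u ≠ 0 ∧ ∃ Φ : MvPolynomial V k, MvPolynomial.eval₂ c (cv P Q u) Φ = 0 ∧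
      ¬ ∀ w, Q.eval w ≠ 0 → MvPolynomial.eval₂ c (cv P Q w) Φ = 0}.Countable := by
  have := countable_mv (V := V) (k := k)
  have h : ∀ Φ : MvPolynomial V k, {u | Q.eval u ≠ 0 ∧ MvPolynomial.eval₂ c (cv P Q u) Φ = 0 ∧
      ¬ ∀ w, Q.eval w ≠ 0 → MvPolynomial.eval₂ c (cv P Q w) Φ = 0}.Countable := by
    intro Φ
    by_cases h1 : ∀ w, Q.eval w ≠ 0 → MvPolynomial.eval₂ c (cv P Q w) Φ = 0
    · exact Set.countable_empty.mono fun u hu => hu.2.2 h1
    · have h2 : {u | Q.eval u ≠ 0 ∧ MvPolynomial.eval₂ c (cv P Q u) Φ = 0}.Finite := by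
        by_contra h3
        exact h1 (vanish_of_infinite c Φ P Q h3)
      exact h2.countable.mono fun u hu => And.intro hu.1 hu.2.1
  refine (Set.countable_iUnion h).mono ?_
  rintro u ⟨h1, Φ, h2, h3⟩
  exact mem_iUnion.2 ⟨Φ, h1, h2, h3⟩

lemma exists_small_notMem {T : Set ℂ} (hT : T.Countable) {ρ : ℝ} (hρ : 0 < ρ) :
    ∃ u : ℂ, u ≠ 0 ∧ ‖u‖ < ρ ∧ u ∉ T := by
  have h := (hT.insert 0).dense_compl ℂ
  obtain ⟨u, hu, hu2⟩ := h.exists_mem_open isOpen_ball ⟨0, mem_ball_self hρ⟩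
  simp only [mem_compl_iff, mem_insert_iff, not_or] at hu
  exact ⟨u, hu.1, by simpa using hu2, hu.2⟩

/-- value at `u` of the polynomial number `o` with coefficient table `a` -/
def ev {d : ℕ} (a : Option V × Fin d → ℂ) (o : Option V) (u : ℂ) : ℂ :=
  ∑ j : Fin d, a (o, j) * u ^ (j : ℕ)

/-- the polynomial number `o` with coefficient table `a` -/
def pl {A : Type} [CommRing A] {d : ℕ} (a : Option V × Fin d → A) (o : Option V) : A[X] :=
  ∑ j : Fin d, C (a (o, j)) * X ^ (j : ℕ)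

lemma eval_pl {d : ℕ} (a : Option V × Fin d → ℂ) (o : Option V) (u : ℂ) :
    (pl a o).eval u = ev a o u := by
  simp [pl, ev, eval_finsetSum]

lemma map_pl {A B : Type} [CommRing A] [CommRing B] (f : A →+* B) {d : ℕ}
    (a : Option V × Fin d → A) (o : Option V) :
    (pl a o).map f = pl (fun x => f (a x)) o := by
  simp [pl, Polynomial.map_sum]

lemma exists_pl [Finite V] (R : Option V → ℂ[X]) :
    ∃ (d : ℕ) (a : Option V × Fin d → ℂ), ∀ o, pl a o = R o := by
  obtain ⟨d, hd⟩ : ∃ d, ∀ o, (R o).natDegree < d := by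
    obtain ⟨d, hd⟩ := (Set.finite_range fun o => (R o).natDegree).bddAbove
    exact ⟨d + 1, fun o => Nat.lt_succ_of_le (hd ⟨o, rfl⟩)⟩
  refine ⟨d, fun x => (R x.1).coeff x.2, fun o => ?_⟩
  conv_rhs => rw [(R o).as_sum_range_C_mul_X_pow' (hd o)]
  rw [pl, Finset.sum_range]

/-- local analytic spreading of finitely many numbers along an analytic family of
specialisations -/
def SprRel (F : Type) [NormedAddCommGroup F] [NormedSpace ℂ F] : Prop :=
  ∀ (k V J : Type) [CommRing k] [Finite V] [Finite J] (c : k →+* ℂ) (c0 : J → ℂ)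
    (z : F → V → ℂ) (Ω : Set F) (t0 : F), IsOpen Ω → t0 ∈ Ω →
    (∀ i, AnalyticOnNhd ℂ (fun t => z t i) Ω) →
    (∀ t ∈ Ω, ∀ Φ : MvPolynomial V k, MvPolynomial.eval₂ c (z t0) Φ = 0 →
      MvPolynomial.eval₂ c (z t) Φ = 0) →
    ∃ a : F → J → ℂ, a t0 = c0 ∧ ∀ᶠ t in 𝓝 t0, (∀ j, AnalyticAt ℂ (fun t => a t j) t) ∧
      ∀ Φ : MvPolynomial (V ⊕ J) k, MvPolynomial.eval₂ c (Sum.elim (z t0) c0) Φ = 0 →
        MvPolynomial.eval₂ c (Sum.elim (z t) (a t)) Φ = 0

/-- FAMALG: a rational curve through a fixed point and a generic point moves in an analytic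
family -/
theorem famalg {F : Type} [NormedAddCommGroup F] [NormedSpace ℂ F] (hSP : SprRel F) [Finite V]
    (c : k →+* ℂ) (S : Set (MvPolynomial V k)) (p : V → k) (P : V → ℂ[X]) (Q : ℂ[X])
    (hQ : Q ≠ 0)
    (hZ : ∀ u, Q.eval u ≠ 0 → ∀ Φ ∈ S, MvPolynomial.eval₂ c (cv P Q u) Φ = 0)
    (h0 : ∀ i, (P i).eval 0 = c (p i) * Q.eval 0) (z : F → V → ℂ) (Ω : Set F) (t0 : F)
    (hΩ : IsOpen Ω) (ht0 : t0 ∈ Ω) (hz : ∀ i, AnalyticOnNhd ℂ (fun t => z t i) Ω)
    (h1 : ∀ i, (P i).eval 1 = z t0 i * Q.eval 1)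
    (hrel : ∀ t ∈ Ω, ∀ Φ : MvPolynomial V k, MvPolynomial.eval₂ c (z t0) Φ = 0 →
      MvPolynomial.eval₂ c (z t) Φ = 0) :
    ∃ (d : ℕ) (a : F → Option V × Fin d → ℂ), (∀ u, ev (a t0) none u = Q.eval u) ∧
      (∀ i u, ev (a t0) (some i) u = (P i).eval u) ∧
      ∀ᶠ t in 𝓝 t0, (∀ j, AnalyticAt ℂ (fun t => a t j) t) ∧
        (∀ u, ev (a t) none u ≠ 0 → ∀ Φ ∈ S,
          MvPolynomial.eval₂ c (fun i => ev (a t) (some i) u / ev (a t) none u) Φ = 0) ∧
        (∀ i, ev (a t) (some i) 0 = c (p i) * ev (a t) none 0) ∧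
        ∀ i, ev (a t) (some i) 1 = z t i * ev (a t) none 1 := by
  obtain ⟨d, c0, hc0⟩ := exists_pl (V := V) (fun o => o.elim Q P)
  obtain ⟨a, ha0, ha⟩ := hSP k V (Option V × Fin d) c c0 z Ω t0 hΩ ht0 hz hrel
  have hQ0 : pl c0 none = Q := hc0 none
  have hP0 : ∀ i, pl c0 (some i) = P i := fun i => hc0 (some i)
  refine ⟨d, a, fun u => by rw [ha0, ← eval_pl, hQ0], fun i u => by rw [ha0, ← eval_pl, hP0], ?_⟩
  filter_upwards [ha] with t ⟨hat, hk⟩
  let g : Option V × Fin d → MvPolynomial (V ⊕ (Option V × Fin d)) k :=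
    fun x => MvPolynomial.X (Sum.inr x)
  let φ0 := MvPolynomial.eval₂Hom c (Sum.elim (z t0) c0)
  let φ1 := MvPolynomial.eval₂Hom c (Sum.elim (z t) (a t))
  have hk' : ∀ x, φ0 x = 0 → φ1 x = 0 := hk
  have hm0 : ∀ o, (pl g o).map φ0 = pl c0 o := fun o => by
    rw [map_pl]
    simp [φ0, g]
  have hm1 : ∀ o, (pl g o).map φ1 = pl (a t) o := fun o => by
    rw [map_pl]
    simp [φ1, g]
  have hev0 : ∀ o (w : k), φ0 ((pl g o).eval (MvPolynomial.C w)) = ev c0 o (c w) := fun o w => by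
    rw [← eval_pl, ← hm0, eval_map, ← Polynomial.eval₂_at_apply]
    simp [φ0]
  have hev1 : ∀ o (w : k), φ1 ((pl g o).eval (MvPolynomial.C w)) = ev (a t) o (c w) :=
    fun o w => by
    rw [← eval_pl, ← hm1, eval_map, ← Polynomial.eval₂_at_apply]
    simp [φ1]
  refine ⟨hat, fun u hu Φ hΦ => ?_, fun i => ?_, fun i => ?_⟩
  · have e0 := map_hev (mapRingHom φ0) (C.comp MvPolynomial.C) Φ.totalDegree Φ (pl g none)
      (fun i => pl g (some i))
    have e1 := map_hev (mapRingHom φ1) (C.comp MvPolynomial.C) Φ.totalDegree Φ (pl g none)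
      (fun i => pl g (some i))
    have f0 : (mapRingHom φ0).comp (C.comp MvPolynomial.C) = C.comp c := by
      ext x
      simp [φ0]
    have f1 : (mapRingHom φ1).comp (C.comp MvPolynomial.C) = C.comp c := by
      ext x
      simp [φ1]
    simp only [coe_mapRingHom, hm0, hm1, f0, f1, hQ0, hP0] at e0 e1
    rw [hev_eq_zero c Φ P Q _ (infinite_ne Q hQ) (fun u hu => hu) (fun u hu => hZ u hu Φ hΦ)]
      at e0
    have e2 : hev (C.comp c) Φ.totalDegree Φ (pl (a t) none) (fun i => pl (a t) (some i)) = 0 := by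
      rw [← e1]
      ext m
      rw [coeff_map, coeff_zero]
      apply hk'
      rw [← coeff_map, e0, coeff_zero]
    have hu' : (pl (a t) none).eval u ≠ 0 := by rwa [eval_pl]
    have e3 := eval_hev c Φ (fun i => pl (a t) (some i)) (pl (a t) none) u hu'
    rw [e2, eval_zero] at e3
    have e4 := (mul_eq_zero.1 e3.symm).resolve_left (pow_ne_zero _ hu')
    have e5 : cv (fun i => pl (a t) (some i)) (pl (a t) none) u =
        fun i => ev (a t) (some i) u / ev (a t) none u := by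
      funext i
      simp [cv, eval_pl]
    rwa [e5] at e4
  · have := hk' ((pl g (some i)).eval (MvPolynomial.C 0) -
      MvPolynomial.C (p i) * (pl g none).eval (MvPolynomial.C 0)) (by
        rw [map_sub, map_mul, hev0, hev0, ← eval_pl, ← eval_pl, hQ0, hP0, map_zero, h0]
        simp [φ0])
    rw [map_sub, map_mul, hev1, hev1, map_zero, sub_eq_zero] at this
    simpa [φ1] using this
  · have := hk' ((pl g (some i)).eval (MvPolynomial.C 1) -
      MvPolynomial.X (Sum.inl i) * (pl g none).eval (MvPolynomial.C 1)) (by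
        rw [map_sub, map_mul, hev0, hev0, ← eval_pl, ← eval_pl, hQ0, hP0, map_one, h1]
        simp [φ0])
    rw [map_sub, map_mul, hev1, hev1, map_one, sub_eq_zero] at this
    simpa [φ1] using this

end Pool.Agent.RC.F98
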