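import Mathlib

set_option autoImplicit false

open MvPolynomial Filter Topology

noncomputable section

namespace Pool.Agent.RC.H89

/-- chain rule for a derivation killing the constants -/
theorem der_chain {R B K W V : Type} [CommRing R] [CommRing B] [CommRing K] [Algebra B K]
    [AddCommGroup W] [Module K W] [Module B W] [Fintype V] (D : Derivation B K W)
    (φ : MvPolynomial V R →+* K) (hC : ∀ a, D (φ (C a)) = 0) (f : MvPolynomial V R) :
    D (φ f) = ∑ v, φ (pderiv v f) • D (φ (X v)) := by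
  classical
  induction f using MvPolynomial.induction_on with
  | C a => simp [hC]
  | add p q hp hq => simp [hp, hq, add_smul, Finset.sum_add_distrib]
  | mul_X p s hp =>
    have h1 : ∀ v, φ (pderiv v (p * X s)) • D (φ (X v)) =
        φ (X s) • (φ (pderiv v p) • D (φ (X v))) +
          (if v = s then φ p • D (φ (X s)) else 0) := by
      intro v
      rw [Derivation.leibniz, pderiv_X]
      by_cases h : v = s
      · subst h
        simp [add_smul, mul_smul, add_comm]
      · simp [h, Ne.symm h, mul_smul]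
    rw [map_mul, Derivation.leibniz, hp, Finset.sum_congr rfl (fun v _ => h1 v),
      Finset.sum_add_distrib, ← Finset.smul_sum]
    simp [add_comm]

/-- Jacobian criterion for algebraicity -/
theorem alg_of_jac {R B K J T : Type} [CommRing R] [CommRing B] [IsDomain B] [Field K]
    [Algebra B K] [FaithfulSMul B K] [Algebra.EssFiniteType B K] [Fintype J] [DecidableEq J]
    [Fintype T] (φ : MvPolynomial (J ⊕ T) R →+* K) (eqn : J → MvPolynomial (J ⊕ T) R)
    (h1 : ∀ x : K, ∃ a b, φ b ≠ 0 ∧ x * φ b = φ a)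
    (h2 : ∀ a, ∃ b, algebraMap B K b = φ (C a))
    (h3 : ∀ k, ∃ b, algebraMap B K b = φ (X (Sum.inr k)))
    (h4 : ∀ i, φ (eqn i) = 0)
    (h5 : (Matrix.of fun i j => φ (pderiv (Sum.inl j) (eqn i))).det ≠ 0) :
    Algebra.IsAlgebraic B K := by
  let D := KaehlerDifferential.D B K
  have hC : ∀ a, D (φ (C a)) = 0 := fun a => by
    obtain ⟨b, hb⟩ := h2 a
    rw [← hb, Derivation.map_algebraMap]
  have hT : ∀ k, D (φ (X (Sum.inr k))) = 0 := fun k => by
    obtain ⟨b, hb⟩ := h3 k
    rw [← hb, Derivation.map_algebraMap]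
  set M : Matrix J J K := Matrix.of fun i j => φ (pderiv (Sum.inl j) (eqn i)) with hM
  have hrow : ∀ i, ∑ j, M i j • D (φ (X (Sum.inl j))) = 0 := fun i => by
    have h := der_chain D φ hC (eqn i)
    rw [h4, map_zero, Fintype.sum_sum_type] at h
    simpa [hT, hM] using h.symm
  have hJ : ∀ k, D (φ (X (Sum.inl k))) = 0 := fun k => by
    have hinv : M⁻¹ * M = 1 := Matrix.nonsing_inv_mul M (Ne.isUnit h5)
    have h : ∑ i, M⁻¹ k i • ∑ j, M i j • D (φ (X (Sum.inl j))) = 0 := by simp [hrow]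
    simp only [Finset.smul_sum, smul_smul] at h
    rw [Finset.sum_comm] at h
    simp only [← Finset.sum_smul, ← Matrix.mul_apply, hinv] at h
    simpa [Matrix.one_apply] using h
  have hP : ∀ f, D (φ f) = 0 := fun f => by
    rw [der_chain D φ hC f, Fintype.sum_sum_type]
    simp [hJ, hT]
  have hD : ∀ x : K, D x = 0 := fun x => by
    obtain ⟨a, b, hb, hx⟩ := h1 x
    have h := congrArg D hx
    rw [Derivation.leibniz, hP, hP, smul_zero, zero_add] at h
    exact (smul_eq_zero.1 h).resolve_left hb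
  have hsub : Subsingleton (KaehlerDifferential B K) := by
    refine subsingleton_of_forall_eq 0 fun w => ?_
    have hw : w ∈ Submodule.span K (Set.range (KaehlerDifferential.D B K)) := by
      rw [KaehlerDifferential.span_range_derivation]
      trivial
    have hle : Submodule.span K (Set.range (KaehlerDifferential.D B K)) ≤ ⊥ := by
      rw [Submodule.span_le]
      rintro _ ⟨x, rfl⟩
      exact hD x
    exact hle hw
  have hU : Algebra.FormallyUnramified B K := ⟨hsub⟩
  let _ : Algebra (FractionRing B) K := FractionRing.liftAlgebra B K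
  have _ := FractionRing.isScalarTower_liftAlgebra B K
  have hU' : Algebra.FormallyUnramified (FractionRing B) K :=
    Algebra.FormallyUnramified.of_restrictScalars B (FractionRing B) K
  have hE : Algebra.EssFiniteType (FractionRing B) K :=
    Algebra.EssFiniteType.of_comp B (FractionRing B) K
  have hS : Algebra.IsSeparable (FractionRing B) K :=
    (Algebra.FormallyUnramified.iff_isSeparable (FractionRing B) K).1 hU'
  exact (IsFractionRing.comap_isAlgebraic_iff (A := B) (K := FractionRing B) (C := K)).2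
    inferInstance

/-- an element outside a prime ideal with invertible Jacobian divides a nonzero polynomial in the
free variables modulo the ideal -/
theorem exists_dvd_of_jac {R J T : Type} [Field R] [Fintype J] [DecidableEq J] [Fintype T]
    (I : Ideal (MvPolynomial (J ⊕ T) R)) (hI : I.IsPrime) (eqn : J → MvPolynomial (J ⊕ T) R)
    (h4 : ∀ i, eqn i ∈ I)
    (h5 : (Matrix.of fun i j => pderiv (Sum.inl j) (eqn i)).det ∉ I)
    (F : MvPolynomial (J ⊕ T) R) (hF : F ∉ I) :
    ∃ r : MvPolynomial T R, r ≠ 0 ∧ ∃ G, rename Sum.inr r - F * G ∈ I := by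
  by_cases hinj : ∃ r : MvPolynomial T R, r ≠ 0 ∧ rename Sum.inr r ∈ I
  · obtain ⟨r, hr, h⟩ := hinj
    exact ⟨r, hr, 0, by simpa using h⟩
  push Not at hinj
  let A := MvPolynomial (J ⊕ T) R ⧸ I
  let K := FractionRing A
  let φ : MvPolynomial (J ⊕ T) R →+* K := (algebraMap A K).comp (Ideal.Quotient.mk I)
  have hφ : ∀ f, φ f = 0 ↔ f ∈ I := fun f => by
    rw [← Ideal.Quotient.eq_zero_iff_mem]
    exact map_eq_zero_iff (algebraMap A K) (IsFractionRing.injective A K)
  let _ : Algebra (MvPolynomial T R) (MvPolynomial (J ⊕ T) R) :=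
    (rename (R := R) (Sum.inr : T → J ⊕ T)).toRingHom.toAlgebra
  have hst : IsScalarTower R (MvPolynomial T R) (MvPolynomial (J ⊕ T) R) :=
    IsScalarTower.of_algebraMap_eq fun a =>
      ((rename (R := R) (Sum.inr : T → J ⊕ T)).commutes a).symm
  have hft : Algebra.FiniteType (MvPolynomial T R) (MvPolynomial (J ⊕ T) R) :=
    Algebra.FiniteType.of_restrictScalars_finiteType R _ _
  have hmap : ∀ r : MvPolynomial T R, algebraMap (MvPolynomial T R) K r = φ (rename Sum.inr r) :=
    fun r => rfl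
  have hfs : FaithfulSMul (MvPolynomial T R) K := by
    rw [faithfulSMul_iff_algebraMap_injective, injective_iff_map_eq_zero]
    intro r hr
    by_contra h
    exact hinj r h ((hφ _).1 ((hmap r).symm.trans hr))
  have hE : Algebra.EssFiniteType (MvPolynomial T R) K := inferInstance
  have halg : Algebra.IsAlgebraic (MvPolynomial T R) K := by
    refine alg_of_jac φ eqn (fun x => ?_) (fun a => ⟨C a, by rw [hmap, rename_C]⟩)
      (fun k => ⟨X k, by rw [hmap, rename_X]⟩) (fun i => (hφ _).2 (h4 i)) (fun h => h5 ?_)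
    · obtain ⟨a, b, hb, rfl⟩ := IsFractionRing.div_surjective A x
      obtain ⟨a, rfl⟩ := Ideal.Quotient.mk_surjective a
      obtain ⟨b, rfl⟩ := Ideal.Quotient.mk_surjective b
      have hb' : φ b ≠ 0 :=
        IsFractionRing.to_map_ne_zero_of_mem_nonZeroDivisors (R := A) (K := K) hb
      exact ⟨a, b, hb', div_mul_cancel₀ _ hb'⟩
    · rw [← hφ, RingHom.map_det]
      exact h
  have hA : IsAlgebraic (MvPolynomial T R) (Ideal.Quotient.mk I F) :=
    (isAlgebraic_algebraMap_iff (IsFractionRing.injective A K)).1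
      (halg.isAlgebraic (algebraMap A K (Ideal.Quotient.mk I F)))
  have hnz : Ideal.Quotient.mk I F ∈ nonZeroDivisors A :=
    mem_nonZeroDivisors_of_ne_zero (fun h => hF (Ideal.Quotient.eq_zero_iff_mem.1 h))
  obtain ⟨r, hr, G, hG⟩ := hA.exists_nonzero_dvd hnz
  obtain ⟨G, rfl⟩ := Ideal.Quotient.mk_surjective G
  refine ⟨r, hr, G, ?_⟩
  rw [← Ideal.Quotient.eq_zero_iff_mem, map_sub, map_mul, sub_eq_zero]
  exact hG

/-- derivative of a polynomial function -/
theorem hasStrictFDerivAt_eval {V : Type} [Fintype V] (f : MvPolynomial V ℂ) (p : V → ℂ) :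
    HasStrictFDerivAt (fun y : V → ℂ => eval y f)
      (∑ v, eval p (pderiv v f) • (ContinuousLinearMap.proj v : (V → ℂ) →L[ℂ] ℂ)) p := by
  classical
  induction f using MvPolynomial.induction_on with
  | C a =>
    simp only [eval_C]
    refine (hasStrictFDerivAt_const (𝕜 := ℂ) a p).congr_fderiv (ContinuousLinearMap.ext fun w => ?_)
    simp
  | add f g hf hg =>
    have h := hf.add hg
    simp only [map_add]
    refine h.congr_fderiv (ContinuousLinearMap.ext fun w => ?_)
    simp [add_mul, Finset.sum_add_distrib]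
  | mul_X f s hf =>
    have h := hf.mul (ContinuousLinearMap.proj s : (V → ℂ) →L[ℂ] ℂ).hasStrictFDerivAt
    have h1 : ∀ (w : V → ℂ) v, eval p (pderiv v (f * X s)) * w v =
        (if v = s then eval p f * w s else 0) + p s * (eval p (pderiv v f) * w v) := by
      intro w v
      rw [Derivation.leibniz, pderiv_X]
      by_cases h : v = s
      · subst h
        simp [add_mul, mul_assoc]
      · simp [h, Ne.symm h, mul_assoc]
    simp only [map_mul, eval_X]
    refine h.congr_fderiv (ContinuousLinearMap.ext fun w => ?_)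
    simp only [add_apply, smul_apply, sum_apply, ContinuousLinearMap.proj_apply, smul_eq_mul, h1,
      Finset.sum_add_distrib, Finset.sum_ite_eq', Finset.mem_univ, if_true, Finset.mul_sum]

/-- near a point with invertible Jacobian the zero set projects onto a neighbourhood -/
theorem eventually_lift {J T : Type} [Fintype J] [DecidableEq J] [Fintype T]
    (eqn : J → MvPolynomial (J ⊕ T) ℂ) (p : J ⊕ T → ℂ) (hp : ∀ i, eval p (eqn i) = 0)
    (hJ : (Matrix.of fun i j => eval p (pderiv (Sum.inl j) (eqn i))).det ≠ 0)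
    {S : Set (J ⊕ T → ℂ)} (hS : S ∈ 𝓝 p) :
    ∀ᶠ t in 𝓝 (fun k => p (Sum.inr k)), ∃ q ∈ S, (∀ i, eval q (eqn i) = 0) ∧
      ∀ k, q (Sum.inr k) = t k := by
  set M : Matrix J J ℂ := Matrix.of fun i j => eval p (pderiv (Sum.inl j) (eqn i)) with hM
  let Φ : (J ⊕ T → ℂ) → (J → ℂ) × (T → ℂ) :=
    fun y => (fun i => eval y (eqn i), fun k => y (Sum.inr k))
  let L : (J ⊕ T → ℂ) →L[ℂ] (J → ℂ) × (T → ℂ) :=
    (ContinuousLinearMap.pi fun i =>
      ∑ v, eval p (pderiv v (eqn i)) • (ContinuousLinearMap.proj v : (J ⊕ T → ℂ) →L[ℂ] ℂ)).prod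
    (ContinuousLinearMap.pi fun k => ContinuousLinearMap.proj (Sum.inr k))
  have hd : HasStrictFDerivAt Φ L p :=
    (hasStrictFDerivAt_pi.2 fun i => hasStrictFDerivAt_eval (eqn i) p).prodMk
      (hasStrictFDerivAt_pi.2 fun k =>
        (ContinuousLinearMap.proj (Sum.inr k) : (J ⊕ T → ℂ) →L[ℂ] ℂ).hasStrictFDerivAt)
  have hsurj : L.range = ⊤ := by
    rw [LinearMap.range_eq_top]
    rintro ⟨a, t⟩
    let w : J → ℂ := fun i => a i - ∑ k, eval p (pderiv (Sum.inr k) (eqn i)) * t k
    have hw : M.mulVec (M⁻¹.mulVec w) = w := by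
      rw [Matrix.mulVec_mulVec, Matrix.mul_nonsing_inv M (Ne.isUnit hJ), Matrix.one_mulVec]
    refine ⟨Sum.elim (M⁻¹.mulVec w) t, Prod.ext (funext fun i => ?_) (funext fun k => rfl)⟩
    have h1 := congrFun hw i
    have h2 : M.mulVec (M⁻¹.mulVec w) i =
        ∑ j, eval p (pderiv (Sum.inl j) (eqn i)) * M⁻¹.mulVec w j := rfl
    have h3 : (L (Sum.elim (M⁻¹.mulVec w) t)).1 i =
        ∑ j, eval p (pderiv (Sum.inl j) (eqn i)) * M⁻¹.mulVec w j +
          ∑ k, eval p (pderiv (Sum.inr k) (eqn i)) * t k := by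
      simp [L, Fintype.sum_sum_type]
    change (L (Sum.elim (M⁻¹.mulVec w) t)).1 i = a i
    rw [h3, ← h2, h1]
    simp [w]
  have hmap := hd.map_nhds_eq_of_surj hsurj
  have hS' : Φ '' S ∈ 𝓝 (Φ p) := by
    rw [← hmap]
    exact Filter.image_mem_map hS
  have hΦ : Φ p = (0, fun k => p (Sum.inr k)) := Prod.ext (funext hp) rfl
  have hc : Continuous fun t : T → ℂ => ((0, t) : (J → ℂ) × (T → ℂ)) :=
    continuous_const.prodMk continuous_id
  rw [hΦ] at hS'
  filter_upwards [hc.continuousAt.preimage_mem_nhds hS'] with t ht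
  obtain ⟨q, hq, hqt⟩ := ht
  exact ⟨q, hq, fun i => congrFun (congrArg Prod.fst hqt) i,
    fun k => congrFun (congrArg Prod.snd hqt) k⟩

/-- a polynomial vanishing near a point is zero -/
theorem eq_zero_of_eventually {T : Type} [Fintype T] (r : MvPolynomial T ℂ) (t0 : T → ℂ)
    (h : ∀ᶠ t in 𝓝 t0, eval t r = 0) : r = 0 := by
  obtain ⟨ε, hε, hb⟩ := Metric.eventually_nhds_iff_ball.1 h
  refine MvPolynomial.funext_set (fun k => Metric.ball (t0 k) ε)
    (fun k => infinite_of_mem_nhds (t0 k) (Metric.ball_mem_nhds _ hε)) (fun t ht => ?_)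
  rw [map_zero]
  refine hb t ?_
  rw [ball_pi _ hε]
  exact ht

/-- ND, local form: a polynomial vanishing on the zero set near a smooth point lies in the prime
ideal generated by the equations -/
theorem nd_mem {J T : Type} [Fintype J] [DecidableEq J] [Fintype T]
    (eqn : J → MvPolynomial (J ⊕ T) ℂ) (hI : (Ideal.span (Set.range eqn)).IsPrime)
    (p : J ⊕ T → ℂ) (hp : ∀ i, eval p (eqn i) = 0)
    (hJ : (Matrix.of fun i j => eval p (pderiv (Sum.inl j) (eqn i))).det ≠ 0)
    (F : MvPolynomial (J ⊕ T) ℂ)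
    (hF : ∀ᶠ q in 𝓝 p, (∀ i, eval q (eqn i) = 0) → eval q F = 0) :
    F ∈ Ideal.span (Set.range eqn) := by
  have hz : ∀ q : J ⊕ T → ℂ, (∀ i, eval q (eqn i) = 0) →
      ∀ f ∈ Ideal.span (Set.range eqn), eval q f = 0 := by
    intro q hq f hf
    have hle : Ideal.span (Set.range eqn) ≤ RingHom.ker (eval q) := by
      rw [Ideal.span_le]
      rintro _ ⟨i, rfl⟩
      exact hq i
    exact hle hf
  by_contra hne
  obtain ⟨r, hr, G, hG⟩ := exists_dvd_of_jac _ hI eqn (fun i => Ideal.subset_span ⟨i, rfl⟩)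
    (fun h => hJ (by
      have h1 := hz p hp _ h
      rw [RingHom.map_det] at h1
      exact h1)) F hne
  refine hr (eq_zero_of_eventually r (fun k => p (Sum.inr k)) ?_)
  filter_upwards [eventually_lift eqn p hp hJ hF] with t ht
  obtain ⟨q, hq, hq0, hqt⟩ := ht
  have h1 := hz q hq0 _ hG
  rw [map_sub, map_mul, hq hq0, zero_mul, sub_zero, eval_rename] at h1
  have h2 : q ∘ Sum.inr = t := funext hqt
  rwa [h2] at h1

/-- ND: a polynomial vanishing on a nonempty open piece of the zero set vanishes on the zero set -/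
theorem nd {J T : Type} [Fintype J] [DecidableEq J] [Fintype T]
    (eqn : J → MvPolynomial (J ⊕ T) ℂ) (hI : (Ideal.span (Set.range eqn)).IsPrime)
    (p : J ⊕ T → ℂ) (hp : ∀ i, eval p (eqn i) = 0)
    (hJ : (Matrix.of fun i j => eval p (pderiv (Sum.inl j) (eqn i))).det ≠ 0)
    (F : MvPolynomial (J ⊕ T) ℂ)
    (hF : ∀ᶠ q in 𝓝 p, (∀ i, eval q (eqn i) = 0) → eval q F = 0)
    (q : J ⊕ T → ℂ) (hq : ∀ i, eval q (eqn i) = 0) : eval q F = 0 := by
  have hle : Ideal.span (Set.range eqn) ≤ RingHom.ker (eval q) := by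
    rw [Ideal.span_le]
    rintro _ ⟨i, rfl⟩
    exact hq i
  exact hle (nd_mem eqn hI p hp hJ F hF)

/-- GEN: points of the zero set avoiding countably many proper hypersurfaces are dense -/
theorem gen {J T ι : Type} [Fintype J] [DecidableEq J] [Fintype T] [Countable ι]
    (eqn : J → MvPolynomial (J ⊕ T) ℂ) (hI : (Ideal.span (Set.range eqn)).IsPrime)
    (hJ : ∀ p : J ⊕ T → ℂ, (∀ i, eval p (eqn i) = 0) →
      (Matrix.of fun i j => eval p (pderiv (Sum.inl j) (eqn i))).det ≠ 0)
    (Φ : ι → MvPolynomial (J ⊕ T) ℂ) (p : J ⊕ T → ℂ) (hp : ∀ i, eval p (eqn i) = 0)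
    {N : Set (J ⊕ T → ℂ)} (hN : N ∈ 𝓝 p) :
    ∃ y ∈ N, (∀ i, eval y (eqn i) = 0) ∧
      ∀ s, eval y (Φ s) = 0 → ∀ q : J ⊕ T → ℂ, (∀ i, eval q (eqn i) = 0) → eval q (Φ s) = 0 := by
  let Z : Set (J ⊕ T → ℂ) := {q | ∀ i, eval q (eqn i) = 0}
  have hZ : IsClosed Z := by
    have : Z = ⋂ i, {q | eval q (eqn i) = 0} := by
      ext q
      simp [Z]
    rw [this]
    exact isClosed_iInter fun i => isClosed_eq (MvPolynomial.continuous_eval _) continuous_const
  have : CompleteSpace Z := hZ.completeSpace_coe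
  let U : ι → Set Z := fun s => {y | eval y.1 (Φ s) = 0 → ∀ q ∈ Z, eval q (Φ s) = 0}
  have hUo : ∀ s, IsOpen (U s) := by
    intro s
    by_cases h : ∀ q ∈ Z, eval q (Φ s) = 0
    · have : U s = Set.univ := Set.eq_univ_of_forall fun y _ => h
      rw [this]
      exact isOpen_univ
    · have : U s = {y : Z | eval y.1 (Φ s) ≠ 0} := by
        ext y
        exact ⟨fun hy h0 => h (hy h0), fun hy h0 => absurd h0 hy⟩
      rw [this]
      exact isOpen_ne_fun ((MvPolynomial.continuous_eval _).comp continuous_subtype_val)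
        continuous_const
  have hUd : ∀ s, Dense (U s) := by
    intro s y
    rw [mem_closure_iff_frequently]
    by_contra hne
    rw [Filter.not_frequently] at hne
    have h0 : ∀ᶠ z in 𝓝 y, eval z.1 (Φ s) = 0 := by
      filter_upwards [hne] with z hz
      by_contra h
      exact hz (fun h' => absurd h' h)
    have h1 : ∀ᶠ q in 𝓝 y.1, (∀ i, eval q (eqn i) = 0) → eval q (Φ s) = 0 := by
      rw [nhds_subtype_eq_comap, Filter.eventually_comap] at h0
      filter_upwards [h0] with q hq hqZ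
      exact hq ⟨q, hqZ⟩ rfl
    exact hne.self_of_nhds (fun _ q hq => nd eqn hI y.1 y.2 (hJ y.1 y.2) (Φ s) h1 q hq)
  have hD : Dense (⋂ s, U s) := dense_iInter_of_isOpen hUo hUd
  have hN' : Subtype.val ⁻¹' N ∈ 𝓝 (⟨p, hp⟩ : Z) :=
    continuous_subtype_val.continuousAt.preimage_mem_nhds hN
  obtain ⟨y, hy1, hy2⟩ := mem_closure_iff_nhds.1 (hD ⟨p, hp⟩) _ hN'
  exact ⟨y.1, hy1, y.2, fun s h0 q hq => Set.mem_iInter.1 hy2 s h0 q hq⟩

/-- GEN over a countable ring of constants -/
theorem gen_ring {J T k : Type} [Fintype J] [DecidableEq J] [Fintype T] [CommRing k] [Countable k]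
    (c : k →+* ℂ)
    (eqn : J → MvPolynomial (J ⊕ T) ℂ) (hI : (Ideal.span (Set.range eqn)).IsPrime)
    (hJ : ∀ p : J ⊕ T → ℂ, (∀ i, eval p (eqn i) = 0) →
      (Matrix.of fun i j => eval p (pderiv (Sum.inl j) (eqn i))).det ≠ 0)
    (p : J ⊕ T → ℂ) (hp : ∀ i, eval p (eqn i) = 0)
    {N : Set (J ⊕ T → ℂ)} (hN : N ∈ 𝓝 p) :
    ∃ y ∈ N, (∀ i, eval y (eqn i) = 0) ∧
      ∀ Φ : MvPolynomial (J ⊕ T) k, eval₂ c y Φ = 0 →
        ∀ q : J ⊕ T → ℂ, (∀ i, eval q (eqn i) = 0) → eval₂ c q Φ = 0 := by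
  have : Countable (MvPolynomial (J ⊕ T) k) := by
    rw [← Cardinal.mk_le_aleph0_iff]
    refine MvPolynomial.cardinalMk_le_max.trans ?_
    exact max_le (max_le Cardinal.mk_le_aleph0 Cardinal.mk_le_aleph0) le_rfl
  obtain ⟨y, hy, hy0, h⟩ := gen eqn hI hJ (fun Φ : MvPolynomial (J ⊕ T) k => map c Φ) p hp hN
  refine ⟨y, hy, hy0, fun Φ h0 q hq => ?_⟩
  rw [eval₂_eq_eval_map] at h0 ⊢
  exact h Φ h0 q hq

end Pool.Agent.RC.H89
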