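import Pool.Agent.Lib.RC.Space7
import Pool.Agent.Lib.RC.Chain55
import Pool.Agent.Lib.RC.Fam98a
import Pool.Agent.Lib.RC.Nd89
import Pool.Agent.Lib.RC.Aut89

open Topology Filter Set Polynomial

noncomputable section

namespace Pool.Agent.RC.Sp

open Pool.Agent.Lib.RC Pool.Agent.RC.An

section Mob

variable {K : Type} [Field K]

/-- The substitution `u = w / (1 + w)`, with denominators cleared. -/
def mob (d : ℕ) (F : K[X]) : K[X] :=
  ∑ j ∈ Finset.range (d + 1), C (F.coeff j) * (Polynomial.X ^ j * (Polynomial.X + C 1) ^ (d + 1 - j))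

lemma eval_mob {d : ℕ} {F : K[X]} (hF : F.natDegree ≤ d) {w : K} (hw : w + 1 ≠ 0) :
    (mob d F).eval w = (w + 1) ^ (d + 1) * F.eval (w / (w + 1)) := by
  rw [eval_eq_sum_range' (Nat.lt_succ_of_le hF), mob, eval_finsetSum, Finset.mul_sum]
  refine Finset.sum_congr rfl fun j hj => ?_
  obtain ⟨m, hm⟩ := Nat.exists_eq_add_of_le (Finset.mem_range.1 hj).le
  rw [show d + 1 = j + m from hm]
  simp only [eval_mul, eval_C, eval_pow, eval_X, eval_add, Nat.add_sub_cancel_left, pow_add,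
    div_pow]
  field_simp

lemma ne_of_eval_mob {d : ℕ} {F : K[X]} {w : K} (h : (mob d F).eval w ≠ 0) : w + 1 ≠ 0 := by
  intro hw
  refine h ?_
  rw [mob, eval_finsetSum]
  refine Finset.sum_eq_zero fun j hj => ?_
  have : d + 1 - j ≠ 0 := by have := Finset.mem_range.1 hj; omega
  simp [hw, this]

lemma monic_term {d j : ℕ} (hj : j ≤ d + 1) :
    (Polynomial.X ^ j * (Polynomial.X + C 1) ^ (d + 1 - j) : K[X]).Monic ∧
      (Polynomial.X ^ j * (Polynomial.X + C 1) ^ (d + 1 - j) : K[X]).natDegree = d + 1 := by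
  have h1 : (Polynomial.X ^ j : K[X]).Monic := monic_X_pow j
  have h2 : ((Polynomial.X + C 1) ^ (d + 1 - j) : K[X]).Monic := (monic_X_add_C 1).pow _
  refine ⟨h1.mul h2, ?_⟩
  rw [h1.natDegree_mul h2, natDegree_X_pow, (monic_X_add_C 1).natDegree_pow, natDegree_X_add_C]
  omega

lemma natDegree_mob (d : ℕ) (F : K[X]) : (mob d F).natDegree ≤ d + 1 :=
  natDegree_sum_le_of_forall_le _ _ fun _ hj =>
    (natDegree_C_mul_le _ _).trans (monic_term (Finset.mem_range.1 hj).le).2.le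

lemma coeff_mob {d : ℕ} {F : K[X]} (hF : F.natDegree ≤ d) :
    (mob d F).coeff (d + 1) = F.eval 1 := by
  rw [eval_eq_sum_range' (Nat.lt_succ_of_le hF), mob, finsetSum_coeff]
  refine Finset.sum_congr rfl fun j hj => ?_
  obtain ⟨h1, h2⟩ := monic_term (K := K) (Finset.mem_range.1 hj).le
  have h3 := h1.coeff_natDegree
  rw [h2] at h3
  rw [coeff_C_mul, h3, one_pow]

end Mob

variable {n : ℕ} {M : Dat n} (H : M.Ok)

section Ultra

variable {I : Type} {U : Ultrafilter I}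

lemma exists_mk {V : Type} (p : V → Ult.K U) :
    ∃ f : I → V → ℂ, p = fun i => Ult.mk U fun a => f a i := by
  choose f hf using fun i => Ult.mk_surj (p i)
  exact ⟨fun a i => f i a, funext fun i => (hf i).symm⟩

include H in
lemma refl_K {b : M.B} {p : M.V b → Ult.K U} (hp : p ∈ M.Z (Ult.K U) b) : M.Same b b p p := by
  obtain ⟨f, rfl⟩ := exists_mk p
  exact mk_same.2 ((mk_mem_Z.1 hp).mono fun a ha => H.refl b _ ha)

include H in
lemma inj_K {b : M.B} {p q : M.V b → Ult.K U} (hp : p ∈ M.Z (Ult.K U) b)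
    (hq : q ∈ M.Z (Ult.K U) b) (h : M.Same b b p q) : p = q := by
  obtain ⟨f, rfl⟩ := exists_mk p
  obtain ⟨g, rfl⟩ := exists_mk q
  funext i
  rw [Ult.mk_eq]
  filter_upwards [mk_mem_Z.1 hp, mk_mem_Z.1 hq, mk_same.1 h] with a h1 h2 h3
  rw [H.inj b _ h1 _ h2 h3]

include H in
lemma mem_K {b g : M.B} {l : Fin (M.L b g)} {p : M.V b → Ult.K U} (hp : p ∈ M.Z (Ult.K U) b)
    (h : MvPolynomial.aeval p (M.ob b g l) ≠ 0) :
    (fun i => MvPolynomial.aeval p (M.oa b g l i) / MvPolynomial.aeval p (M.ob b g l)) ∈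
      M.Z (Ult.K U) g := by
  obtain ⟨f, rfl⟩ := exists_mk p
  simp only [Ult.aeval_mk_real, Ult.mk_ne_zero, Ult.mk_div] at h ⊢
  refine mk_mem_Z.2 ?_
  filter_upwards [mk_mem_Z.1 hp, h] with a h1 h2 using H.mem b g l _ h1 h2

end Ultra

lemma eval₂_fix {V A : Type} [CommRing A] [Algebra ℝ A] (c : ℝ →+* A) (Φ : MvPolynomial V ℝ)
    (h : ∀ α, c (Φ.coeff α) = algebraMap ℝ A (Φ.coeff α)) (p : V → A) :
    MvPolynomial.eval₂ c p Φ = MvPolynomial.aeval p Φ := by
  simp only [MvPolynomial.aeval_def, MvPolynomial.eval₂_eq, h]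

lemma eval_hev' {V K : Type} [Field K] [Algebra ℝ K] (Φ : MvPolynomial V ℝ) {N : ℕ}
    (hN : Φ.totalDegree ≤ N) (P : V → K[X]) (Q : K[X]) {u : K} (hu : Q.eval u ≠ 0) :
    (F98.hev (C.comp (algebraMap ℝ K)) N Φ Q P).eval u =
      Q.eval u ^ N * MvPolynomial.aeval (fun i => (P i).eval u / Q.eval u) Φ := by
  have h := F98.map_hev (evalRingHom u) (C.comp (algebraMap ℝ K)) N Φ Q P
  have h1 : (evalRingHom u).comp (C.comp (algebraMap ℝ K)) = algebraMap ℝ K := by
    ext x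
    simp
  rw [h1, F98.hev_eq _ _ Φ hN _ (by simpa using hu)] at h
  exact h

include H in
/-- A curve in one chart gives compatible data in all charts. -/
lemma all_charts {I : Type} {U : Ultrafilter I} {b : M.B} (P : M.V b → (Ult.K U)[X])
    (Q : (Ult.K U)[X]) (h0 : Q.eval 0 ≠ 0)
    (hZ : ∀ u, Q.eval u ≠ 0 → (fun i => (P i).eval u / Q.eval u) ∈ M.Z (Ult.K U) b)
    (hm : ∀ g, ∃ l, MvPolynomial.aeval (fun i => (P i).eval 0 / Q.eval 0) (M.ob b g l) ≠ 0) :
    ∃ (P' : ∀ g, M.V g → (Ult.K U)[X]) (Q' : M.B → (Ult.K U)[X]), P' b = P ∧ Q' b = Q ∧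
      (∀ g, Q' g ≠ 0) ∧ ∀ u, (∀ g, (Q' g).eval u ≠ 0) →
        (∀ g, (fun i => (P' g i).eval u / (Q' g).eval u) ∈ M.Z (Ult.K U) g) ∧
        ∀ g g', M.Same g g' (fun i => (P' g i).eval u / (Q' g).eval u)
          (fun i => (P' g' i).eval u / (Q' g').eval u) := by
  classical
  choose l hl using hm
  let N : M.B → ℕ := fun g => max (M.ob b g (l g)).totalDegree
    (Finset.univ.sup fun i => (M.oa b g (l g) i).totalDegree)
  have hN1 : ∀ g, (M.ob b g (l g)).totalDegree ≤ N g := fun g => le_max_left _ _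
  have hN2 : ∀ g i, (M.oa b g (l g) i).totalDegree ≤ N g := fun g i =>
    (Finset.le_sup (f := fun i => (M.oa b g (l g) i).totalDegree) (Finset.mem_univ i)).trans
      (le_max_right _ _)
  let c : ℝ →+* (Ult.K U)[X] := C.comp (algebraMap ℝ (Ult.K U))
  let P1 : ∀ g, M.V g → (Ult.K U)[X] := fun g i => F98.hev c (N g) (M.oa b g (l g) i) Q P
  let Q1 : M.B → (Ult.K U)[X] := fun g => F98.hev c (N g) (M.ob b g (l g)) Q P
  refine ⟨Function.update P1 b P, Function.update Q1 b Q, Function.update_self ..,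
    Function.update_self .., fun g => ?_, fun u hu => ?_⟩
  · rcases eq_or_ne g b with rfl | hg
    · rw [Function.update_self]
      rintro rfl
      simp at h0
    · rw [Function.update_of_ne hg]
      intro h
      have := eval_hev' _ (hN1 g) P Q h0
      rw [show F98.hev _ _ _ Q P = 0 from h, eval_zero] at this
      exact mul_ne_zero (pow_ne_zero _ h0) (hl g) this.symm
  · have hb : Q.eval u ≠ 0 := by simpa using hu b
    have key : ∀ g, (fun i => (Function.update P1 b P g i).eval u /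
        (Function.update Q1 b Q g).eval u) ∈ M.Z (Ult.K U) g ∧
        M.Same b g (fun i => (P i).eval u / Q.eval u)
          (fun i => (Function.update P1 b P g i).eval u / (Function.update Q1 b Q g).eval u) := by
      intro g
      have hg0 := hu g
      rcases eq_or_ne g b with rfl | hg
      · rw [Function.update_self, Function.update_self]
        exact ⟨hZ u hb, refl_K H (hZ u hb)⟩
      · rw [Function.update_of_ne hg] at hg0
        rw [Function.update_of_ne hg, Function.update_of_ne hg]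
        have e1 := eval_hev' _ (hN1 g) P Q hb
        have h1 : MvPolynomial.aeval (fun i => (P i).eval u / Q.eval u) (M.ob b g (l g)) ≠ 0 :=
          fun h => hg0 (by rw [h, mul_zero] at e1; exact e1)
        have e2 : (fun i => (P1 g i).eval u / (Q1 g).eval u) = fun i =>
            MvPolynomial.aeval (fun i => (P i).eval u / Q.eval u) (M.oa b g (l g) i) /
              MvPolynomial.aeval (fun i => (P i).eval u / Q.eval u) (M.ob b g (l g)) := by
          funext i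
          rw [show (Q1 g).eval u = _ from e1,
            show (P1 g i).eval u = _ from eval_hev' _ (hN2 g i) P Q hb,
            mul_div_mul_left _ _ (pow_ne_zero _ hb)]
        rw [e2]
        exact ⟨mem_K H (hZ u hb) h1, l g, h1, fun i => div_mul_cancel₀ _ h1⟩
    exact ⟨fun g => (key g).1, fun g g' => H.trans _ g b g' _ (key g).1 _ (hZ u hb) _ (key g').1
      (H.symm _ b g _ (hZ u hb) _ (key g).1 (key g).2) (key g').2⟩

include H in
/-- The data for the chain lemma: a curve over the ultrapower whose ends reduce to `p`, `q0`. -/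
theorem chain_data {b : M.B}
    (hI : (Ideal.span (range fun i => MvPolynomial.map (algebraMap ℝ ℂ) (M.eqn b i))).IsPrime)
    (hmeet : ∀ g, ∃ p ∈ M.Z ℂ b, ∃ l, MvPolynomial.aeval p (M.ob b g l) ≠ 0)
    {q0 : M.V b → ℂ} (h0 : MvPolynomial (M.V b) ℂ)
    (hh : ∃ p ∈ M.Z ℂ b, MvPolynomial.eval p h0 ≠ 0)
    (hrc : ∀ p ∈ M.Z ℂ b, MvPolynomial.eval p h0 ≠ 0 → ∃ (P : M.V b → ℂ[X]) (Q : ℂ[X]),
      Q.eval 0 ≠ 0 ∧ Q.eval 1 ≠ 0 ∧ (∀ i, (P i).eval 0 / Q.eval 0 = p i) ∧
      (∀ i, (P i).eval 1 / Q.eval 1 = q0 i) ∧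
      ∀ u, Q.eval u ≠ 0 → (fun i => (P i).eval u / Q.eval u) ∈ M.Z ℂ b)
    {p : M.V b → ℂ} (hp : p ∈ M.Z ℂ b) :
    ∃ (P : ∀ g, M.V g → (Ult.K (hyperfilter ℕ))[X]) (Q : M.B → (Ult.K (hyperfilter ℕ))[X]),
      (∀ g, Q g ≠ 0) ∧ (∀ u, (∀ g, (Q g).eval u ≠ 0) →
        (∀ g, (fun i => (P g i).eval u / (Q g).eval u) ∈ M.Z (Ult.K (hyperfilter ℕ)) g) ∧
        ∀ g g', M.Same g g' (fun i => (P g i).eval u / (Q g).eval u)
          (fun i => (P g' i).eval u / (Q g').eval u)) ∧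
      (Q b).eval 0 ≠ 0 ∧
      (∀ i, Chain.Red (Ult.O _) (Ult.st _) ((P b i).eval 0 / (Q b).eval 0) (p i)) ∧
      (∀ i, (P b i).natDegree ≤ (Q b).natDegree) ∧
      ∀ i, Chain.Red (Ult.O _) (Ult.st _)
        ((P b i).coeff (Q b).natDegree / (Q b).leadingCoeff) (q0 i) := by
  classical
  have := H.fin
  choose pm hpm l hl using hmeet
  let eq' := fun i => MvPolynomial.map (algebraMap ℝ ℂ) (M.eqn b i)
  have hev : ∀ (q : M.V b → ℂ) (Φ : MvPolynomial (M.V b) ℝ),
      MvPolynomial.eval q (MvPolynomial.map (algebraMap ℝ ℂ) Φ) = MvPolynomial.aeval q Φ :=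
    fun q Φ => by rw [MvPolynomial.eval_map, MvPolynomial.aeval_def]
  have hZ : ∀ q : M.V b → ℂ, (∀ i, MvPolynomial.eval q (eq' i) = 0) ↔ q ∈ M.Z ℂ b := fun q => by
    simp only [eq', hev]; rfl
  have hJ : ∀ q : M.V b → ℂ, (∀ i, MvPolynomial.eval q (eq' i) = 0) →
      (Matrix.of fun i j => MvPolynomial.eval q (MvPolynomial.pderiv (Sum.inl j) (eq' i))).det
        ≠ 0 := fun q hq => by
    rw [← Matrix.det_transpose]
    have := H.smooth b q ((hZ q).1 hq)
    simp only [eq', MvPolynomial.pderiv_map, hev]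
    exact this
  let T := M.V b ⊕ (Fin (M.c b) ⊕ M.B) × (M.V b →₀ ℕ)
  let F : Fin (M.c b) ⊕ M.B → MvPolynomial (M.V b) ℝ := Sum.elim (M.eqn b) fun g => M.ob b g (l g)
  let t : T → ℂ := Sum.elim q0 fun x => algebraMap ℝ ℂ ((F x.1).coeff x.2)
  let k := MvPolynomial T ℤ
  have : Countable k := F98.countable_mv
  have : Countable (MvPolynomial (M.V b) k) := F98.countable_mv
  let c : k →+* ℂ := MvPolynomial.eval₂Hom (Int.castRingHom ℂ) t
  obtain ⟨p1, hp1, hp1'⟩ := hh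
  obtain ⟨x, -, hx, hgx⟩ := H89.gen eq' hI hJ
    (Sum.elim (fun Φ : MvPolynomial (M.V b) k => MvPolynomial.map c Φ)
      fun o : Option M.B => o.elim h0 fun g => MvPolynomial.map (algebraMap ℝ ℂ) (M.ob b g (l g)))
    p1 ((hZ _).2 hp1) univ_mem
  have hx0 : MvPolynomial.eval x h0 ≠ 0 := fun h => hp1' (hgx (.inr none) h p1 ((hZ _).2 hp1))
  have hxg : ∀ g, MvPolynomial.aeval x (M.ob b g (l g)) ≠ 0 := fun g h => hl g (by
    rw [← hev] at h ⊢
    exact hgx (.inr (some g)) h _ ((hZ _).2 (hpm g)))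
  have hxk : ∀ Φ : MvPolynomial (M.V b) k, MvPolynomial.eval₂ c x Φ = 0 →
      ∀ q, (∀ i, MvPolynomial.eval q (eq' i) = 0) → MvPolynomial.eval₂ c q Φ = 0 :=
    fun Φ h q hq => by
      rw [← MvPolynomial.eval_map] at h ⊢
      exact hgx (.inl Φ) h q hq
  have hseq : ∀ m : ℕ, ∃ τ : ℂ ≃+* ℂ, (∀ a, τ (t a) = t a) ∧
      dist (fun i => τ (x i)) p < 1 / ((m : ℝ) + 1) := fun m => by
    obtain ⟨y, hy, hy1, hy2⟩ := H89.gen_ring c eq' hI hJ p ((hZ _).2 hp)
      (Metric.ball_mem_nhds p (Nat.one_div_pos_of_nat (n := m)))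
    obtain ⟨τ, h1, h2⟩ := H89.aut c x y fun Φ => ⟨fun h => hxk Φ h y hy1, fun h => hy2 Φ h x hx⟩
    have hc : ∀ a, c (MvPolynomial.X a) = t a := fun a => MvPolynomial.eval₂_X _ _ _
    refine ⟨τ, fun a => hc a ▸ h1 (MvPolynomial.X a), ?_⟩
    rw [funext h2]
    exact hy
  choose τ hτ1 hτ2 using hseq
  let U := hyperfilter ℕ
  let θ : ℂ →+* Ult.K U := Ult.tau U fun m => (τ m : ℂ →+* ℂ)
  have θt : ∀ a, θ (t a) = algebraMap ℂ (Ult.K U) (t a) := fun a =>
    Ult.tau_fixed _ (Eventually.of_forall fun m => hτ1 m a)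
  have θx : ∀ i, Ult.Lim (θ (x i)) (p i) := fun i => by
    rw [Ult.lim_tau]
    have : Tendsto (fun m => fun i => τ m (x i)) atTop (𝓝 p) :=
      tendsto_iff_dist_tendsto_zero.2 (squeeze_zero (fun _ => dist_nonneg) (fun m => (hτ2 m).le)
        tendsto_one_div_add_atTop_nhds_zero_nat)
    exact (tendsto_pi_nhds.1 this i).mono_left Nat.hyperfilter_le_atTop
  have θF : ∀ j (z : M.V b → Ult.K U), MvPolynomial.eval₂ (θ.comp (algebraMap ℝ ℂ)) z (F j) =
      MvPolynomial.aeval z (F j) := fun j z => eval₂_fix _ _ (fun α => θt (.inr (j, α))) z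
  obtain ⟨P, Q, q0', q1', e0, e1, hPQ⟩ := hrc x ((hZ _).1 hx) hx0
  have hQ0 : Q ≠ 0 := by rintro rfl; simp at q0'
  have hZK : ∀ u, (Q.map θ).eval u ≠ 0 →
      (fun i => ((P i).map θ).eval u / (Q.map θ).eval u) ∈ M.Z (Ult.K U) b := fun u hu j => by
    have h1 := F98.hev_eq_zero (algebraMap ℝ ℂ) (M.eqn b j) P Q _ (F98.infinite_ne Q hQ0)
      (fun u hu => hu) fun u hu => hPQ u hu j
    have h2 := F98.map_hev ((evalRingHom u).comp (mapRingHom θ)) (C.comp (algebraMap ℝ ℂ))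
      (M.eqn b j).totalDegree (M.eqn b j) Q P
    have h3 : ((evalRingHom u).comp (mapRingHom θ)).comp (C.comp (algebraMap ℝ ℂ)) =
        θ.comp (algebraMap ℝ ℂ) := by ext a; simp
    rw [h1, map_zero, h3, F98.hev_eq _ _ _ le_rfl _ (by simpa using hu)] at h2
    refine (θF (.inl j) _).symm.trans ?_
    exact (mul_eq_zero.1 h2.symm).resolve_left (pow_ne_zero _ (by simpa using hu))
  let d := max Q.natDegree (Finset.univ.sup fun i => (P i).natDegree)
  have dQ : (Q.map θ).natDegree ≤ d := natDegree_map_le.trans (le_max_left _ _)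
  have dP : ∀ i, ((P i).map θ).natDegree ≤ d := fun i => natDegree_map_le.trans
    ((Finset.le_sup (f := fun i => (P i).natDegree) (Finset.mem_univ i)).trans (le_max_right _ _))
  have m0 : ∀ G : ℂ[X], (G.map θ).natDegree ≤ d → (mob d (G.map θ)).eval 0 = θ (G.eval 0) :=
    fun G hG => by rw [eval_mob hG (by simp)]; simp [eval_zero_map]
  have m1 : ∀ G : ℂ[X], (G.map θ).natDegree ≤ d →
      (mob d (G.map θ)).coeff (d + 1) = θ (G.eval 1) := fun G hG => by
    rw [coeff_mob hG, eval_one_map]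
  have hQ1 : (mob d (Q.map θ)).coeff (d + 1) ≠ 0 := by
    rw [m1 Q dQ]; exact (map_ne_zero θ).2 q1'
  have hd : (mob d (Q.map θ)).natDegree = d + 1 :=
    natDegree_eq_of_le_of_coeff_ne_zero (natDegree_mob _ _) hQ1
  have hQ00 : (mob d (Q.map θ)).eval 0 ≠ 0 := by
    rw [m0 Q dQ]; exact (map_ne_zero θ).2 q0'
  have ex : (fun i => (mob d ((P i).map θ)).eval 0 / (mob d (Q.map θ)).eval 0) =
      fun i => θ (x i) := funext fun i => by rw [m0 Q dQ, m0 _ (dP i), ← map_div₀, e0]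
  obtain ⟨P', Q', hP', hQ', h1, h2⟩ := all_charts H (fun i => mob d ((P i).map θ))
    (mob d (Q.map θ)) hQ00 (fun w hw => by
      have hw1 := ne_of_eval_mob hw
      have hw2 : (Q.map θ).eval (w / (w + 1)) ≠ 0 := fun h => hw (by
        rw [eval_mob dQ hw1, h, mul_zero])
      have := hZK _ hw2
      simp only [eval_mob dQ hw1, eval_mob (dP _) hw1, mul_div_mul_left _ _ (pow_ne_zero _ hw1)]
      exact this) fun g => ⟨l g, by
      rw [ex, ← show _ = MvPolynomial.aeval _ (M.ob b g (l g)) from θF (.inr g) _]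
      have := MvPolynomial.eval₂_comp_left θ (algebraMap ℝ ℂ) x (M.ob b g (l g))
      exact fun h => (map_ne_zero θ).2 (hxg g) (this.trans h)⟩
  refine ⟨P', Q', h1, h2, hQ' ▸ hQ00, fun i => ?_, fun i => ?_, fun i => ?_⟩
  · rw [hP', hQ', congrFun ex i]
    exact ⟨⟨_, θx i⟩, Ult.st_eq_iff.2 (θx i)⟩
  · rw [hP', hQ', hd]
    exact natDegree_mob _ _
  · rw [hP', hQ', leadingCoeff, hd, m1 Q dQ, m1 _ (dP i), ← map_div₀, e1,
      show θ (q0 i) = _ from θt (.inl i)]
    exact ⟨Ult.const_mem_O _, Ult.st_const _ _⟩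

end Pool.Agent.RC.Sp
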