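import Pool.Agent.Lib.RC.Chain55b
import Pool.Agent.Lib.RC.Chain7

namespace Pool.Agent.RC.G

open Pool.Agent.RC.Sp

lemma eval_fix_snd {V : Type} (h : MvPolynomial (V ⊕ V) ℂ) (p q : V → ℂ) :
    MvPolynomial.eval p (MvPolynomial.aeval
      (Sum.elim MvPolynomial.X fun i => MvPolynomial.C (q i) : V ⊕ V → MvPolynomial V ℂ) h) =
      MvPolynomial.eval (Sum.elim p q) h := by
  induction h using MvPolynomial.induction_on with
  | C a => simp
  | add f g hf hg => simp only [map_add, hf, hg]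
  | mul_X f j hf => cases j <;> simp only [map_mul, hf] <;> simp

theorem st_CHAIN : St_CHAIN := by
  intro n M H hE b h hR q hq hpq p hp
  obtain ⟨P, Q, h1, h2, h3, h4, h5, h6⟩ := chain_data H (hE.dom b) (hE.meet b) (q0 := q)
    (MvPolynomial.aeval
      (Sum.elim MvPolynomial.X fun i => MvPolynomial.C (q i) : _ → MvPolynomial (M.V b) ℂ) h)
    (by simpa only [eval_fix_snd] using hpq) (fun p hp hh => by
      rw [eval_fix_snd] at hh
      obtain ⟨P, Q, h1, h2, h3, h4, h5⟩ := hR.2 p hp q hq hh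
      exact ⟨P, Q, h2, h3, congrFun h4, congrFun h5, h1.2⟩) hp
  exact X55.chain_adj H Ult.O_hyper_ne_top h1 (fun u hu => (h2 u hu).1)
    (fun u hu => (h2 u hu).2) h3 (fun i => X55.red_iff.1 (h4 i)) h5 fun i => X55.red_iff.1 (h6 i)

end Pool.Agent.RC.G
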