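import Mathlib

/-! The coordinate ring of the affine conic `a^2 + b^2 + 1 = 0`. -/

set_option autoImplicit false

open Complex MvPolynomial
open scoped ComplexConjugate Polynomial

noncomputable section

namespace Pool.Agent.RC.End

/-- `R` is the coordinate ring of the affine conic, with coordinates `x`, `y` -/
structure IsConic (R : Type) [CommRing R] [Algebra ℝ R] (x y : R) : Prop where
  rel : x ^ 2 + y ^ 2 + 1 = 0
  gen : ∀ r : R, ∃ F : MvPolynomial (Fin 2) ℝ, aeval ![x, y] F = r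
  ev : ∀ a b : ℂ, a ^ 2 + b ^ 2 + 1 = 0 → ∃ ψ : R →ₐ[ℝ] ℂ, ψ x = a ∧ ψ y = b

lemma map_aeval2 {R S : Type} [CommRing R] [Algebra ℝ R] [CommRing S] [Algebra ℝ S]
    (ψ : R →ₐ[ℝ] S) (x y : R) (F : MvPolynomial (Fin 2) ℝ) :
    ψ (aeval ![x, y] F) = aeval ![ψ x, ψ y] F := by
  rw [← AlgHom.comp_apply, comp_aeval]
  congr 2
  funext i
  fin_cases i <;> rfl

/-- first coordinate of the parametrisation of the complex conic -/
def ca (u : ℂ) : ℂ := (u - u⁻¹) / 2

/-- second coordinate of the parametrisation of the complex conic -/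
def cb (u : ℂ) : ℂ := I * (u + u⁻¹) / 2

lemma ca_cb {u : ℂ} (hu : u ≠ 0) : ca u ^ 2 + cb u ^ 2 + 1 = 0 := by
  unfold ca cb
  field_simp
  linear_combination (u ^ 2 + 1) ^ 2 * I_sq

lemma ca_sub (u : ℂ) : ca u - I * cb u = u := by
  unfold ca cb
  linear_combination (-(u + u⁻¹) / 2) * I_sq

lemma mul_conj_par {a b : ℂ} (h : a ^ 2 + b ^ 2 + 1 = 0) : (a - I * b) * (-(a + I * b)) = 1 := by
  linear_combination -h + b ^ 2 * I_sq

lemma par_ne_zero {a b : ℂ} (h : a ^ 2 + b ^ 2 + 1 = 0) : a - I * b ≠ 0 :=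
  left_ne_zero_of_mul_eq_one (mul_conj_par h)

lemma par_inv {a b : ℂ} (h : a ^ 2 + b ^ 2 + 1 = 0) : (a - I * b)⁻¹ = -(a + I * b) :=
  inv_eq_of_mul_eq_one_right (mul_conj_par h)

lemma ca_par {a b : ℂ} (h : a ^ 2 + b ^ 2 + 1 = 0) : ca (a - I * b) = a := by
  unfold ca
  rw [par_inv h]
  ring

lemma cb_par {a b : ℂ} (h : a ^ 2 + b ^ 2 + 1 = 0) : cb (a - I * b) = b := by
  unfold cb
  rw [par_inv h]
  linear_combination (-b) * I_sq

lemma analytic_par (F : MvPolynomial (Fin 2) ℝ) {u : ℂ} (hu : u ≠ 0) :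
    AnalyticAt ℂ (fun w => aeval ![ca w, cb w] F) u := by
  have hi : AnalyticAt ℂ (fun w : ℂ => w⁻¹) u := analyticAt_inv hu
  induction F using MvPolynomial.induction_on with
  | C c => simp only [aeval_C]; exact analyticAt_const
  | add p q hp hq => simp only [map_add]; exact hp.add hq
  | mul_X p i hp =>
    simp only [map_mul, aeval_X]
    refine hp.mul ?_
    fin_cases i
    · exact (analyticAt_id.sub hi).div_const
    · exact (analyticAt_const.mul (analyticAt_id.add hi)).div_const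

/-- the conjugate of a complex point -/
def cj {R : Type} [CommRing R] [Algebra ℝ R] (ψ : R →ₐ[ℝ] ℂ) : R →ₐ[ℝ] ℂ :=
  (conjAe : ℂ →ₐ[ℝ] ℂ).comp ψ

lemma cj_apply {R : Type} [CommRing R] [Algebra ℝ R] (ψ : R →ₐ[ℝ] ℂ) (r : R) :
    cj ψ r = conj (ψ r) := rfl

namespace IsConic

variable {R : Type} [CommRing R] [Algebra ℝ R] {x y : R}

lemma on_conic (h : IsConic R x y) (ψ : R →ₐ[ℝ] ℂ) : ψ x ^ 2 + ψ y ^ 2 + 1 = 0 := by
  have := congrArg ψ h.rel
  simpa using this

lemma exists_pt (h : IsConic R x y) : Nonempty (R →ₐ[ℝ] ℂ) := by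
  obtain ⟨ψ, -⟩ := h.ev I 0 (by simp)
  exact ⟨ψ⟩

lemma nontrivial (h : IsConic R x y) : Nontrivial R := by
  obtain ⟨ψ⟩ := h.exists_pt
  exact ψ.toRingHom.domain_nontrivial

lemma normal (h : IsConic R x y) (r : R) :
    ∃ p q : ℝ[X], r = Polynomial.aeval y p + Polynomial.aeval y q * x := by
  obtain ⟨F, rfl⟩ := h.gen r
  induction F using MvPolynomial.induction_on with
  | C c => exact ⟨Polynomial.C c, 0, by simp⟩
  | add p q hp hq =>
    obtain ⟨a, b, e⟩ := hp
    obtain ⟨c, d, e'⟩ := hq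
    exact ⟨a + c, b + d, by rw [map_add, e, e', map_add, map_add]; ring⟩
  | mul_X p i hp =>
    obtain ⟨a, b, e⟩ := hp
    rw [map_mul, e, aeval_X]
    fin_cases i
    · refine ⟨-(b * (Polynomial.X ^ 2 + 1)), a, ?_⟩
      simp only [map_neg, map_mul, map_add, map_pow, Polynomial.aeval_X, map_one, Fin.zero_eta,
        Matrix.cons_val_zero]
      linear_combination (Polynomial.aeval y b) * h.rel
    · refine ⟨a * Polynomial.X, b * Polynomial.X, ?_⟩
      simp only [map_mul, Polynomial.aeval_X, Fin.mk_one, Matrix.cons_val_one,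
        Matrix.cons_val_zero]
      ring

theorem eq_zero (h : IsConic R x y) (r : R) (hr : ∀ ψ : R →ₐ[ℝ] ℂ, ψ r = 0) : r = 0 := by
  obtain ⟨p, q, rfl⟩ := h.normal r
  have key : ∀ t : ℝ, p.eval t = 0 ∧ q.eval t = 0 := by
    intro t
    have h1 : 0 < 1 + t ^ 2 := by positivity
    have h2 : ((√(1 + t ^ 2) : ℝ) : ℂ) ^ 2 = 1 + (t : ℂ) ^ 2 := by
      exact_mod_cast Real.sq_sqrt h1.le
    obtain ⟨ψ, hx, hy⟩ := h.ev (I * √(1 + t ^ 2)) t (by
      rw [mul_pow, h2, I_sq]; ring)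
    have h3 := hr ψ
    have e : ∀ s : ℝ[X], ψ (Polynomial.aeval y s) = ((s.eval t : ℝ) : ℂ) := by
      intro s
      rw [← Polynomial.aeval_algHom_apply, hy]
      exact Polynomial.aeval_algebraMap_apply_eq_algebraMap_eval t s
    rw [map_add, map_mul, e, e, hx] at h3
    have h4 := congrArg re h3
    have h5 := congrArg im h3
    simp at h4 h5
    exact ⟨h4, h5.resolve_right (Real.sqrt_pos.2 h1).ne'⟩
  have hp : p = 0 := Polynomial.funext fun t => by simp [(key t).1]
  have hq : q = 0 := Polynomial.funext fun t => by simp [(key t).2]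
  simp [hp, hq]

theorem prod (h : IsConic R x y) (r s : R) (c d : ℂ)
    (H : ∀ ψ : R →ₐ[ℝ] ℂ, (ψ r - c) * (ψ s - d) = 0) :
    (∀ ψ : R →ₐ[ℝ] ℂ, ψ r = c) ∨ ∀ ψ : R →ₐ[ℝ] ℂ, ψ s = d := by
  obtain ⟨F, rfl⟩ := h.gen r
  obtain ⟨G, rfl⟩ := h.gen s
  have hc : IsPreconnected ({0}ᶜ : Set ℂ) :=
    (isConnected_compl_singleton_of_one_lt_rank (by simp) 0).isPreconnected
  have hF : ∀ (F : MvPolynomial (Fin 2) ℝ) (c : ℂ),
      AnalyticOnNhd ℂ (fun w => aeval ![ca w, cb w] F - c) {0}ᶜ :=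
    fun F c u hu => (analytic_par F hu).sub analyticAt_const
  have back : ∀ (F : MvPolynomial (Fin 2) ℝ) (c : ℂ),
      (∀ w ∈ ({0}ᶜ : Set ℂ), aeval ![ca w, cb w] F - c = 0) →
      ∀ ψ : R →ₐ[ℝ] ℂ, ψ (aeval ![x, y] F) = c := by
    intro F c hw ψ
    have := hw _ (par_ne_zero (h.on_conic ψ))
    rw [ca_par (h.on_conic ψ), cb_par (h.on_conic ψ)] at this
    rw [map_aeval2, sub_eq_zero.1 this]
  refine (AnalyticOnNhd.eq_zero_or_eq_zero_of_mul_eq_zero (hF F c) (hF G d) (fun u hu => ?_)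
    hc).imp (back F c) (back G d)
  obtain ⟨ψ, hx, hy⟩ := h.ev _ _ (ca_cb hu)
  have := H ψ
  rwa [map_aeval2, map_aeval2, hx, hy] at this

theorem isDomain (h : IsConic R x y) : IsDomain R := by
  have := h.nontrivial
  have : NoZeroDivisors R := ⟨fun {r s} hrs =>
    (h.prod r s 0 0 fun ψ => by rw [sub_zero, sub_zero, ← map_mul, hrs, map_zero]).imp
      (h.eq_zero r) (h.eq_zero s)⟩
  exact NoZeroDivisors.to_isDomain R

theorem im_eq_zero (h : IsConic R x y) (r : R) (c : ℂ)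
    (H : ∀ ψ : R →ₐ[ℝ] ℂ, (ψ r - c) * (ψ r - conj c) = 0) (ψ : R →ₐ[ℝ] ℂ) : (ψ r).im = 0 := by
  rw [← conj_eq_iff_im]
  rcases h.prod r r _ _ H with h1 | h1
  · rw [← cj_apply, h1, h1]
  · rw [← cj_apply, h1, h1]

lemma symm (h : IsConic R x y) : IsConic R y x := by
  refine ⟨by rw [← h.rel]; ring, fun r => ?_, fun a b hab => ?_⟩
  · obtain ⟨F, rfl⟩ := h.gen r
    refine ⟨rename ![1, 0] F, ?_⟩
    rw [aeval_rename]
    congr 2
    funext i
    fin_cases i <;> rfl
  · obtain ⟨ψ, h1, h2⟩ := h.ev b a (by rw [← hab]; ring)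
    exact ⟨ψ, h2, h1⟩

lemma ker_principal_aux (h : IsConic R x y) (ψ : R →ₐ[ℝ] ℂ) (hy : (ψ y).im ≠ 0) :
    (RingHom.ker ψ).IsPrincipal := by
  obtain ⟨β, hβ⟩ : ∃ β : ℝ, β = (ψ x).im / (ψ y).im := ⟨_, rfl⟩
  obtain ⟨α, hα⟩ : ∃ α : ℝ, α = (ψ x).re - β * (ψ y).re := ⟨_, rfl⟩
  obtain ⟨π, hπ⟩ : ∃ π : R, π = x - algebraMap ℝ R α - algebraMap ℝ R β * y := ⟨_, rfl⟩
  have hψπ : ψ π = 0 := by
    rw [hπ, map_sub, map_sub, map_mul, AlgHom.commutes, AlgHom.commutes]
    apply Complex.ext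
    · simp [hα]
    · simp [hβ, hy]
  obtain ⟨k, hk⟩ : ∃ k : ℝ, k * (1 + β ^ 2) = 1 := ⟨(1 + β ^ 2)⁻¹, inv_mul_cancel₀ (by positivity)⟩
  have hk' : algebraMap ℝ R k * (1 + algebraMap ℝ R β ^ 2) = 1 := by
    simpa using congrArg (algebraMap ℝ R) hk
  have claim : ∀ F : MvPolynomial (Fin 2) ℝ, ∃ (c d : ℝ) (t : R),
      aeval ![x, y] F = algebraMap ℝ R c + algebraMap ℝ R d * y + t * π := by
    have my : ∀ (c d : ℝ) (t : R), ∃ (c' d' : ℝ) (t' : R),
        (algebraMap ℝ R c + algebraMap ℝ R d * y + t * π) * y =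
          algebraMap ℝ R c' + algebraMap ℝ R d' * y + t' * π := by
      intro c d t
      refine ⟨-(d * k * (α ^ 2 + 1)), c - d * k * (2 * α * β), t * y - algebraMap ℝ R d *
        algebraMap ℝ R k * (π + 2 * (algebraMap ℝ R α + algebraMap ℝ R β * y)), ?_⟩
      simp only [map_neg, map_mul, map_add, map_sub, map_pow, map_one, map_ofNat, hπ]
      linear_combination (algebraMap ℝ R d * algebraMap ℝ R k) * h.rel -
        (algebraMap ℝ R d * y ^ 2) * hk'
    intro F
    induction F using MvPolynomial.induction_on with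
    | C c => exact ⟨c, 0, 0, by simp⟩
    | add p q hp hq =>
      obtain ⟨c, d, t, e⟩ := hp
      obtain ⟨c', d', t', e'⟩ := hq
      exact ⟨c + c', d + d', t + t', by rw [map_add, e, e', map_add, map_add]; ring⟩
    | mul_X p i hp =>
      obtain ⟨c, d, t, e⟩ := hp
      obtain ⟨c', d', t', e'⟩ := my c d t
      rw [map_mul, e, aeval_X]
      fin_cases i
      · refine ⟨α * c + β * c', α * d + β * d', algebraMap ℝ R α * t + algebraMap ℝ R β * t' +
          (algebraMap ℝ R c + algebraMap ℝ R d * y + t * π), ?_⟩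
        simp only [map_mul, map_add, Fin.zero_eta, Matrix.cons_val_zero]
        have hx : x = π + algebraMap ℝ R α + algebraMap ℝ R β * y := by rw [hπ]; ring
        linear_combination (algebraMap ℝ R c + algebraMap ℝ R d * y + t * π) * hx +
          algebraMap ℝ R β * e'
      · exact ⟨c', d', t', e'⟩
  refine ⟨π, le_antisymm (fun r hr => ?_) ?_⟩
  · obtain ⟨F, rfl⟩ := h.gen r
    obtain ⟨c, d, t, e⟩ := claim F
    rw [RingHom.mem_ker, e, map_add, map_add, map_mul, map_mul, hψπ, AlgHom.commutes,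
      AlgHom.commutes] at hr
    have h1 := congrArg im hr
    have h2 := congrArg re hr
    simp [hy] at h1
    simp [h1] at h2
    rw [e, h1, h2]
    simpa using Submodule.smul_mem _ t (Submodule.mem_span_singleton_self π)
  · rw [Submodule.span_le, Set.singleton_subset_iff]
    exact hψπ

lemma ker_principal (h : IsConic R x y) (ψ : R →ₐ[ℝ] ℂ) : (RingHom.ker ψ).IsPrincipal := by
  by_cases hy : (ψ y).im = 0
  · refine h.symm.ker_principal_aux ψ fun hx => ?_
    have h1 := congrArg re (h.on_conic ψ)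
    simp [sq, hx, hy] at h1
    nlinarith [mul_self_nonneg (ψ x).re, mul_self_nonneg (ψ y).re]
  · exact h.ker_principal_aux ψ hy

lemma finiteType (h : IsConic R x y) : Algebra.FiniteType ℝ R :=
  Algebra.FiniteType.of_surjective (aeval ![x, y] : MvPolynomial (Fin 2) ℝ →ₐ[ℝ] R) h.gen

lemma maximal_eq (h : IsConic R x y) (m : Ideal R) [hm : m.IsMaximal] :
    ∃ ψ : R →ₐ[ℝ] ℂ, m = RingHom.ker ψ := by
  have := h.finiteType
  let _ := Ideal.Quotient.field m
  have hft : Algebra.FiniteType ℝ (R ⧸ m) :=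
    Algebra.FiniteType.of_surjective (Ideal.Quotient.mkₐ ℝ m) (Ideal.Quotient.mkₐ_surjective ℝ m)
  have hfin : Module.Finite ℝ (R ⧸ m) := finite_of_finite_type_of_isJacobsonRing ℝ (R ⧸ m)
  let φ : (R ⧸ m) →ₐ[ℝ] ℂ := IsAlgClosed.lift
  refine ⟨φ.comp (Ideal.Quotient.mkₐ ℝ m), hm.eq_of_le (RingHom.ker_ne_top _) fun r hr => ?_⟩
  rw [RingHom.mem_ker, AlgHom.comp_apply, Ideal.Quotient.mkₐ_eq_mk,
    Ideal.Quotient.eq_zero_iff_mem.2 hr, map_zero]

theorem pid (h : IsConic R x y) : IsPrincipalIdealRing R := by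
  have := h.isDomain
  have := h.finiteType
  have hN : IsNoetherianRing R := Algebra.FiniteType.isNoetherianRing ℝ R
  refine IsPrincipalIdealRing.of_prime fun P hP => ?_
  obtain ⟨m, hm, hPm⟩ := P.exists_le_maximal hP.ne_top
  obtain ⟨ψ, hψ⟩ := h.maximal_eq m
  have hpr : m.IsPrincipal := hψ ▸ h.ker_principal ψ
  obtain ⟨π, hπ⟩ := hpr.principal
  by_cases hin : π ∈ P
  · have : P = m := le_antisymm hPm (by
      rw [hπ, Submodule.span_le, Set.singleton_subset_iff]; exact hin)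
    rw [this]
    exact hpr
  · have hle : P ≤ m • P := by
      intro r hr
      have h1 := hPm hr
      rw [hπ, Submodule.mem_span_singleton] at h1
      obtain ⟨t, rfl⟩ := h1
      have ht : t ∈ P := (hP.mem_or_mem hr).resolve_right hin
      have hπm : π ∈ m := by rw [hπ]; exact Submodule.mem_span_singleton_self π
      have h2 := Submodule.smul_mem_smul hπm ht
      rwa [smul_eq_mul π t, mul_comm π t] at h2
    obtain ⟨r, hr1, hr2⟩ := Submodule.exists_sub_one_mem_and_smul_eq_zero_of_fg_of_le_smul m P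
      (IsNoetherian.noetherian P) hle
    have hr0 : r ≠ 0 := by
      rintro rfl
      exact hm.ne_top ((Ideal.eq_top_iff_one m).2 (by simpa using m.neg_mem hr1))
    have : P = ⊥ := eq_bot_iff.2 fun z hz =>
      (mul_eq_zero.1 (hr2 z hz)).resolve_left hr0
    rw [this]
    exact bot_isPrincipal

/-- a rational map of the conic into the zero set of real polynomials gives a point of the zero
set with values in the ring of the complement of its poles -/
theorem away_pt (h : IsConic R x y) {V : Type} (A : V → MvPolynomial (Fin 2) ℝ)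
    (B : MvPolynomial (Fin 2) ℝ) (e : MvPolynomial V ℝ)
    (he : ∀ a b : ℂ, a ^ 2 + b ^ 2 + 1 = 0 → aeval ![a, b] B ≠ 0 →
      aeval (fun i => aeval ![a, b] (A i) / aeval ![a, b] B) e = 0) :
    aeval (fun i => algebraMap R (Localization.Away (aeval ![x, y] B : R)) (aeval ![x, y] (A i)) *
      IsLocalization.Away.invSelf (aeval ![x, y] B : R)) e = 0 := by
  have key : ∀ e : MvPolynomial V ℝ, ∃ (N : ℕ) (H : R),
      aeval (fun i => algebraMap R (Localization.Away (aeval ![x, y] B : R))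
        (aeval ![x, y] (A i)) * IsLocalization.Away.invSelf (aeval ![x, y] B : R)) e =
        algebraMap R _ H * IsLocalization.Away.invSelf (aeval ![x, y] B : R) ^ N ∧
      ∀ ψ : R →ₐ[ℝ] ℂ, ψ (aeval ![x, y] B) ≠ 0 → ψ H = ψ (aeval ![x, y] B) ^ N *
        aeval (fun i => ψ (aeval ![x, y] (A i)) / ψ (aeval ![x, y] B)) e := by
    generalize (aeval ![x, y] B : R) = b
    have hb := IsLocalization.Away.mul_invSelf (S := Localization.Away b) b
    intro e
    induction e using MvPolynomial.induction_on with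
    | C c =>
      refine ⟨0, algebraMap ℝ R c, ?_, fun ψ _ => by simp⟩
      rw [aeval_C, pow_zero, mul_one, IsScalarTower.algebraMap_apply ℝ R]
    | add p q hp hq =>
      obtain ⟨N, H, e1, e2⟩ := hp
      obtain ⟨N', H', e1', e2'⟩ := hq
      refine ⟨N + N', H * b ^ N' + H' * b ^ N, ?_, fun ψ hψ => ?_⟩
      · have h1 : ∀ k : ℕ, algebraMap R (Localization.Away b) b ^ k *
            IsLocalization.Away.invSelf b ^ k = 1 := fun k => by rw [← mul_pow, hb, one_pow]
        rw [map_add, e1, e1']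
        simp only [map_add, map_mul, map_pow, pow_add]
        linear_combination
          -(algebraMap R (Localization.Away b) H * IsLocalization.Away.invSelf b ^ N) * h1 N' -
          (algebraMap R (Localization.Away b) H' * IsLocalization.Away.invSelf b ^ N') * h1 N
      · simp only [map_add, map_mul, map_pow, e2 ψ hψ, e2' ψ hψ]
        ring
    | mul_X p i hp =>
      obtain ⟨N, H, e1, e2⟩ := hp
      refine ⟨N + 1, H * aeval ![x, y] (A i), ?_, fun ψ hψ => ?_⟩
      · rw [map_mul, e1, aeval_X, map_mul]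
        ring
      · rw [map_mul, map_mul, e2 ψ hψ, aeval_X]
        field_simp
        ring
  obtain ⟨N, H, e1, e2⟩ := key e
  have h0 : aeval ![x, y] B * H = 0 := h.eq_zero _ fun ψ => by
    rw [map_mul]
    by_cases hψ : ψ (aeval ![x, y] B) = 0
    · rw [hψ, zero_mul]
    · rw [e2 ψ hψ]
      simp only [map_aeval2] at hψ ⊢
      rw [he _ _ (h.on_conic ψ) hψ, mul_zero, mul_zero]
  have h1 : algebraMap R (Localization.Away (aeval ![x, y] B : R)) H = 0 :=
    (IsLocalization.map_eq_zero_iff (Submonoid.powers (aeval ![x, y] B : R)) _ _).2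
      ⟨⟨_, Submonoid.mem_powers _⟩, h0⟩
  rw [e1, h1, zero_mul]

end IsConic

/-- real and imaginary part of `F (a - i b)` -/
lemma re_im (F : ℂ[X]) : ∃ F₁ F₂ : MvPolynomial (Fin 2) ℝ, ∀ a b : ℂ,
    F.eval (a - I * b) = aeval ![a, b] F₁ + I * aeval ![a, b] F₂ ∧
    conj (F.eval (conj (a + I * b))) = aeval ![a, b] F₁ - I * aeval ![a, b] F₂ := by
  induction F using Polynomial.induction_on with
  | C c =>
    refine ⟨C c.re, C c.im, fun a b => ⟨?_, ?_⟩⟩
    · simp [mul_comm I, re_add_im]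
    · apply Complex.ext <;> simp
  | add p q hp hq =>
    obtain ⟨p1, p2, hp⟩ := hp
    obtain ⟨q1, q2, hq⟩ := hq
    refine ⟨p1 + q1, p2 + q2, fun a b => ⟨?_, ?_⟩⟩
    · rw [Polynomial.eval_add, (hp a b).1, (hq a b).1, map_add, map_add]
      ring
    · rw [Polynomial.eval_add, map_add, (hp a b).2, (hq a b).2, map_add, map_add]
      ring
  | monomial n c hp =>
    obtain ⟨p1, p2, hp⟩ := hp
    refine ⟨p1 * X 0 + p2 * X 1, p2 * X 0 - p1 * X 1, fun a b => ⟨?_, ?_⟩⟩
    · rw [pow_succ, ← mul_assoc, Polynomial.eval_mul, (hp a b).1]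
      simp only [Polynomial.eval_X, map_add, map_sub, map_mul, aeval_X, Matrix.cons_val_zero,
        Matrix.cons_val_one]
      linear_combination (-(aeval ![a, b] p2) * b) * I_sq
    · rw [pow_succ, ← mul_assoc, Polynomial.eval_mul, map_mul, (hp a b).2]
      simp only [Polynomial.eval_X, conj_conj, map_add (aeval _), map_sub (aeval _),
        map_mul (aeval _), aeval_X, Matrix.cons_val_zero, Matrix.cons_val_one]
      linear_combination (-(aeval ![a, b] p2) * b) * I_sq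

/-- CONIC: a rational map commuting with `u ↦ -1 / conj u` descends to the conic -/
theorem conic_desc {V : Type} (P : V → ℂ[X]) (Q : ℂ[X]) (hQ : Q ≠ 0)
    (hs : ∀ u : ℂ, u ≠ 0 → Q.eval u ≠ 0 → Q.eval (-(conj u)⁻¹) ≠ 0 → ∀ i,
      (P i).eval (-(conj u)⁻¹) / Q.eval (-(conj u)⁻¹) = conj ((P i).eval u / Q.eval u)) :
    ∃ (A : V → MvPolynomial (Fin 2) ℝ) (B : MvPolynomial (Fin 2) ℝ),
      (∃ a b : ℂ, a ^ 2 + b ^ 2 + 1 = 0 ∧ aeval ![a, b] B ≠ 0) ∧
      ∀ a b : ℂ, a ^ 2 + b ^ 2 + 1 = 0 → aeval ![a, b] B ≠ 0 →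
        a - I * b ≠ 0 ∧ Q.eval (a - I * b) ≠ 0 ∧ ∀ i, aeval ![a, b] (A i) / aeval ![a, b] B =
          (P i).eval (a - I * b) / Q.eval (a - I * b) := by
  obtain ⟨Q1, Q2, hQe⟩ := re_im Q
  choose P1 P2 hPe using fun i => re_im (P i)
  have hst : ∀ a b : ℂ, a ^ 2 + b ^ 2 + 1 = 0 → -(conj (a - I * b))⁻¹ = conj (a + I * b) := by
    intro a b h
    rw [← map_inv₀, par_inv h, map_neg, neg_neg]
  have hB : ∀ a b : ℂ, aeval ![a, b] (Q1 ^ 2 + Q2 ^ 2) =
      Q.eval (a - I * b) * conj (Q.eval (conj (a + I * b))) := by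
    intro a b
    rw [(hQe a b).1, (hQe a b).2, map_add, map_pow, map_pow]
    linear_combination (aeval ![a, b] Q2) ^ 2 * I_sq
  refine ⟨fun i => P1 i * Q1 + P2 i * Q2, Q1 ^ 2 + Q2 ^ 2, ?_, fun a b h hne => ?_⟩
  · have hf := Q.finite_setOfPred_isRoot hQ
    obtain ⟨u, hu⟩ := ((hf.union (hf.image fun v => -(conj v)⁻¹)).union
      (Set.finite_singleton (0 : ℂ))).infinite_compl.nonempty
    simp only [Set.mem_compl_iff, Set.mem_union, Set.mem_ofPred_eq, Set.mem_image,
      Set.mem_singleton_iff, not_or, not_exists, not_and] at hu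
    refine ⟨ca u, cb u, ca_cb hu.2, ?_⟩
    rw [hB, ← hst _ _ (ca_cb hu.2), ca_sub]
    refine mul_ne_zero hu.1.1 ((map_ne_zero _).2 fun h0 => hu.1.2 _ h0 ?_)
    simp
  · rw [hB] at hne
    have h1 := left_ne_zero_of_mul hne
    have h2 := right_ne_zero_of_mul hne
    refine ⟨par_ne_zero h, h1, fun i => ?_⟩
    have h3 := hs _ (par_ne_zero h) h1 (by rw [hst a b h]; exact (map_ne_zero _).1 h2) i
    have h4 := congrArg conj h3
    rw [conj_conj, map_div₀, hst a b h, div_eq_div_iff h2 h1] at h4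
    have h5 : aeval ![a, b] (P1 i * Q1 + P2 i * Q2) =
        (P i).eval (a - I * b) * conj (Q.eval (conj (a + I * b))) := by
      rw [(hPe i a b).1, (hPe i a b).2, (hQe a b).1, (hQe a b).2] at h4
      rw [(hPe i a b).1, (hQe a b).2, map_add, map_mul, map_mul]
      linear_combination (1 / 2) * h4 + (aeval ![a, b] (P2 i) * aeval ![a, b] Q2) * I_sq
    rw [hB, h5, mul_div_mul_right _ _ h2]

end Pool.Agent.RC.End
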