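import Pool.Agent.Lib.RC.Blue3
import Pool.Agent.Lib.RC.End59b

/-! Algebra of the affine conic. -/

set_option autoImplicit false

open MvPolynomial
open scoped ComplexConjugate

noncomputable section

namespace Pool.Agent.Lib.RC

namespace DALG

open Pool.Agent.RC.End

lemma aeval_mk (F : MvPolynomial (Fin 2) ℝ) :
    aeval ![(Ideal.Quotient.mk _ (X 0) : DC), (Ideal.Quotient.mk _ (X 1) : DC)] F =
      Ideal.Quotient.mk _ F := by
  have h := map_aeval2 (Ideal.Quotient.mkₐ ℝ
    (Ideal.span {(X 0 ^ 2 + X 1 ^ 2 + 1 : MvPolynomial (Fin 2) ℝ)})) (X 0) (X 1) F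
  have e : (![X 0, X 1] : Fin 2 → MvPolynomial (Fin 2) ℝ) = X := by
    funext i
    fin_cases i <;> rfl
  rw [e, aeval_X_left_apply] at h
  exact h.symm

/-- the coordinate ring is a conic ring -/
theorem isConic : IsConic DC (Ideal.Quotient.mk _ (X 0)) (Ideal.Quotient.mk _ (X 1)) := by
  refine ⟨?_, fun r => ?_, fun a b hab => ?_⟩
  · rw [← map_pow, ← map_pow, ← map_add, ← map_one (Ideal.Quotient.mk _), ← map_add,
      Ideal.Quotient.eq_zero_iff_mem]
    exact Ideal.mem_span_singleton_self _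
  · obtain ⟨F, rfl⟩ := Ideal.Quotient.mk_surjective r
    exact ⟨F, aeval_mk F⟩
  · refine ⟨Ideal.Quotient.liftₐ _ (aeval ![a, b]) fun F hF => ?_, ?_, ?_⟩
    · obtain ⟨G, rfl⟩ := Ideal.mem_span_singleton'.1 hF
      simp [hab]
    · simp
    · simp

theorem valuationRing_loc {R : Type} [CommRing R] [IsDomain R] [IsPrincipalIdealRing R]
    (p : Ideal R) [p.IsPrime] [IsDomain (Localization.AtPrime p)] :
    ValuationRing (Localization.AtPrime p) := by
  have hp : IsPrincipalIdealRing (Localization.AtPrime p) := ⟨fun J => by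
    obtain ⟨a, ha⟩ := (IsPrincipalIdealRing.principal
      (J.comap (algebraMap R (Localization.AtPrime p)))).principal
    refine ⟨algebraMap R _ a, ?_⟩
    rw [← IsLocalization.map_under p.primeCompl _ J, Ideal.under, ha,
      Ideal.submodule_span_eq, Ideal.map_span, Set.image_singleton, Ideal.submodule_span_eq]⟩
  infer_instance

theorem real_pt {R : Type} [CommRing R] [Algebra ℝ R] {x y : R} (h : IsConic R x y)
    (A : Type) [CommRing A] [Algebra ℝ A] (φ : A →ₐ[ℝ] R)
    (hc : ∀ p q : PrimeSpectrum R, PrimeSpectrum.comap (φ : A →+* R) p =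
      PrimeSpectrum.comap (φ : A →+* R) q) : Nonempty (A →ₐ[ℝ] ℝ) := by
  have := h.isDomain
  obtain ⟨ψ⟩ := h.exists_pt
  have hker : ∀ a, ψ (φ a) = 0 → φ a = 0 := by
    intro a ha
    have h2 : a ∈ (PrimeSpectrum.comap (φ : A →+* R)
        (⟨RingHom.ker ψ, RingHom.ker_isPrime _⟩ : PrimeSpectrum R)).asIdeal := ha
    rw [hc _ ⟨⊥, Ideal.isPrime_bot⟩] at h2
    exact h2
  have him : ∀ a, (ψ (φ a)).im = 0 := by
    intro a
    refine h.im_eq_zero (φ a) (ψ (φ a)) (fun ψ' => ?_) ψ
    have e : ∀ χ : R →ₐ[ℝ] ℂ, χ (φ (a * a - algebraMap ℝ A (2 * (ψ (φ a)).re) * a +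
        algebraMap ℝ A (Complex.normSq (ψ (φ a))))) =
        (χ (φ a) - ψ (φ a)) * (χ (φ a) - conj (ψ (φ a))) := by
      intro χ
      simp only [map_add, map_sub, map_mul φ, map_mul χ, AlgHom.commutes,
        Complex.coe_algebraMap]
      rw [← Complex.mul_conj, ← Complex.add_conj]
      ring
    rw [← e ψ', hker _ (by rw [e ψ, sub_self, zero_mul]), map_zero]
  exact ⟨{
    toFun := fun a => (ψ (φ a)).re
    map_one' := by simp
    map_mul' := fun a b => by simp [him]
    map_zero' := by simp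
    map_add' := fun a b => by simp
    commutes' := fun r => by simp }⟩

end DALG

theorem st_DALG : St_DALG := by
  have hd := DALG.isConic.isDomain
  have hp := DALG.isConic.pid
  refine ⟨hd, fun p _ _ => DALG.valuationRing_loc p, fun F hF => ?_,
    fun A _ _ φ hc => DALG.real_pt DALG.isConic A φ hc⟩
  refine DALG.isConic.eq_zero _ fun ψ => ?_
  rw [← DALG.aeval_mk, Pool.Agent.RC.End.map_aeval2]
  exact hF _ _ (DALG.isConic.on_conic ψ)

end Pool.Agent.Lib.RC
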