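import Pool.Agent.Lib.RC.Sch82b

/-! A smooth irreducible scheme over the reals has a well defined relative dimension. -/

set_option autoImplicit false

open AlgebraicGeometry CategoryTheory

noncomputable section

namespace Pool.Agent.RC.S82

theorem dim_unique {R S : Type} [CommRing R] [CommRing S] [Nontrivial S] (φ : R →+* S) {a b : ℕ}
    (ha : φ.IsStandardSmoothOfRelativeDimension a) (hb : φ.IsStandardSmoothOfRelativeDimension b) :
    a = b := by
  let _ := φ.toAlgebra
  have h1 := @Algebra.IsStandardSmoothOfRelativeDimension.rank_kaehlerDifferential R S _ _ _ _ a ha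
  have h2 := @Algebra.IsStandardSmoothOfRelativeDimension.rank_kaehlerDifferential R S _ _ _ _ b hb
  exact_mod_cast h1.symm.trans h2

theorem exists_dim {R S : Type} [CommRing R] [CommRing S] (φ : R →+* S)
    (h : φ.IsStandardSmooth) : ∃ a, φ.IsStandardSmoothOfRelativeDimension a := by
  let _ := φ.toAlgebra
  obtain ⟨ι, σ, _, _, ⟨P⟩⟩ := (show Algebra.IsStandardSmooth R S from h).out
  exact ⟨_, P.isStandardSmoothOfRelativeDimension rfl⟩

theorem dim_basicOpen {X Y : Scheme.{0}} (s : X ⟶ Y) {U : Y.Opens} {V W : X.Opens}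
    (hV : IsAffineOpen V) (e : V ≤ s ⁻¹ᵁ U) (e' : W ≤ s ⁻¹ᵁ U) (f : Γ(X, V))
    (hW : W = X.basicOpen f) {a : ℕ}
    (ha : (s.appLE U V e).hom.IsStandardSmoothOfRelativeDimension a) :
    (s.appLE U W e').hom.IsStandardSmoothOfRelativeDimension a := by
  subst hW
  have := hV.isLocalization_basicOpen f
  have h1 := (RingHom.IsStandardSmoothOfRelativeDimension.algebraMap_isLocalizationAway
    (Rᵣ := Γ(X, X.basicOpen f)) f).comp ha
  rw [zero_add] at h1
  rw [← Scheme.Hom.appLE_map s e (homOfLE (X.basicOpen_le f)).op]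
  exact h1

theorem exists_relDim {X : Scheme.{0}} (s : X ⟶ Spec (.of ℝ)) [Smooth s] [IrreducibleSpace X] :
    ∃ n, SmoothOfRelativeDimension n s := by
  have h : ∀ x : X, ∃ (V : X.Opens) (_ : IsAffineOpen V) (_ : x ∈ V) (e : V ≤ s ⁻¹ᵁ ⊤) (a : ℕ),
      (s.appLE ⊤ V e).hom.IsStandardSmoothOfRelativeDimension a := by
    intro x
    obtain ⟨U, hU, V, hV, hx, e, hf⟩ := (Smooth.iff_forall_exists_isStandardSmooth s).1 ‹_› x
    have hUtop : U = ⊤ := by
      have hmem : s x ∈ U := e hx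
      ext y
      have : y = s x := Subsingleton.elim (α := PrimeSpectrum ℝ) _ _
      simp only [this, TopologicalSpace.Opens.coe_top, Set.mem_univ, iff_true]
      exact hmem
    subst hUtop
    exact ⟨V, hV, hx, e, exists_dim _ hf⟩
  choose V hV hx e a ha using h
  obtain ⟨x0⟩ : Nonempty X := inferInstance
  refine ⟨a x0, ⟨fun x => ⟨⊤, isAffineOpen_top _, V x, hV x, hx x, e x, ?_⟩⟩⟩
  obtain ⟨y, hy⟩ := nonempty_preirreducible_inter (V x).2 (V x0).2 ⟨x, hx x⟩ ⟨x0, hx x0⟩
  obtain ⟨f, g, hfg, hyf⟩ := exists_basicOpen_le_affine_inter (hV x) (hV x0) y hy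
  have e' : X.basicOpen f ≤ s ⁻¹ᵁ ⊤ := le_top
  have : Nonempty (X.basicOpen f) := ⟨⟨y, hyf⟩⟩
  have h1 := dim_unique _ (dim_basicOpen s (hV x) (e x) e' f rfl (ha x))
    (dim_basicOpen s (hV x0) (e x0) e' g hfg (ha x0))
  rw [← h1]
  exact ha x

theorem exists_Pres' {X : Scheme.{0}} (s : X ⟶ Spec (.of ℝ)) [Smooth s] [QuasiCompact s]
    [IrreducibleSpace X] : ∃ n, Nonempty (Pres s n) := by
  obtain ⟨n, hn⟩ := exists_relDim s
  exact ⟨n, exists_Pres⟩

end Pool.Agent.RC.S82
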