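import Pool.Agent.Lib.RC.Blue3
import Pool.Agent.Lib.RC.Sch82c

noncomputable section

namespace Pool.Agent.Lib.RC

theorem st_DIM : St_DIM := fun _ s _ _ => Pool.Agent.RC.S82.exists_relDim s

end Pool.Agent.Lib.RC
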