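import Pool.Agent.Lib.RC.Blue3
import Pool.Agent.Lib.RC.End59c

/-! From a point over the function field of the conic to a non-constant map of the conic. -/

set_option autoImplicit false

open CategoryTheory AlgebraicGeometry Limits

noncomputable section

namespace Pool.Agent.Lib.RC

namespace FIN

/-- a map of the affine conic that is constant on points gives a real point -/
theorem real_point (hD : St_DALG) {X : Scheme.{0}} (s : X ⟶ Spec (.of ℝ))
    (g : Spec (.of DC) ⟶ X) (hg : g ≫ s = spR DC) (hc : ∀ c d, g c = g d) :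
    ∃ t : Spec (.of ℝ) ⟶ X, t ≫ s = 𝟙 _ := by
  have := hD.1
  obtain ⟨ξ, hξ0⟩ : ∃ ξ : X, ∀ c, g c = ξ :=
    ⟨g (⟨⊥, Ideal.isPrime_bot⟩ : PrimeSpectrum DC), fun c => hc _ _⟩
  obtain ⟨U, hU, hξ, -⟩ := exists_isAffineOpen_mem_and_subset (U := ⊤) (x := ξ) trivial
  have hr : Set.range g ⊆ Set.range hU.fromSpec := by
    rintro _ ⟨c, rfl⟩
    rw [hU.range_fromSpec, hξ0]
    exact hξ
  obtain ⟨φ, hφ⟩ : ∃ φ : Γ(X, U) ⟶ .of DC, Spec.map φ ≫ hU.fromSpec = g :=
    ⟨Spec.preimage (IsOpenImmersion.lift hU.fromSpec g hr), by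
      rw [Spec.map_preimage, IsOpenImmersion.lift_fac]⟩
  obtain ⟨ι, hι⟩ : ∃ ι : CommRingCat.of ℝ ⟶ Γ(X, U), Spec.map ι = hU.fromSpec ≫ s :=
    ⟨Spec.preimage _, Spec.map_preimage _⟩
  have hcomp : ∀ r : ℝ, φ (ι r) = algebraMap ℝ DC r := by
    intro r
    have h1 : Spec.map (ι ≫ φ) = Spec.map (CommRingCat.ofHom (algebraMap ℝ DC)) := by
      rw [Spec.map_comp, hι, ← Category.assoc, hφ, hg]
    exact congrArg (fun k : CommRingCat.of ℝ ⟶ .of DC => k r) (Spec.map_injective h1)
  let _ : Algebra ℝ Γ(X, U) := ι.hom.toAlgebra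
  obtain ⟨ρ⟩ := hD.2.2.2 Γ(X, U) { φ.hom with commutes' := hcomp } fun p q => by
    have h1 : Spec.map φ p = Spec.map φ q := by
      apply hU.fromSpec.isOpenEmbedding.injective
      rw [← Scheme.Hom.comp_apply, ← Scheme.Hom.comp_apply, hφ, hc]
    exact h1
  refine ⟨Spec.map (CommRingCat.ofHom (ρ : Γ(X, U) →+* ℝ)) ≫ hU.fromSpec, ?_⟩
  rw [Category.assoc, ← hι, ← Spec.map_comp, ← Spec.map_id]
  congr 1
  exact CommRingCat.hom_ext (Subsingleton.elim _ _)

lemma valuation_Spec (hD : St_DALG) (x : Spec (.of DC)) :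
    haveI := hD.1
    ValuationRing ((Spec (.of DC)).presheaf.stalk x) := by
  have := hD.1
  have hd : IsDomain (Localization.AtPrime x.asIdeal) :=
    IsLocalization.isDomain_localization x.asIdeal.primeCompl_le_nonZeroDivisors
  have hvv : ValuationRing (Localization.AtPrime x.asIdeal) := hD.2.1 x.asIdeal
  exact (Spec.stalkIso (.of DC) x).commRingCatIsoToRingEquiv.symm.surjective.valuationRing _

/-- the generic point of an integral scheme factors through the fraction field of a chart -/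
lemma generic_map {C : Scheme.{0}} [IsIntegral C] (R : Type) [CommRing R] [IsDomain R]
    (j : Spec (.of R) ⟶ C) [IsOpenImmersion j] :
    ∃ l : Spec C.functionField ⟶ Spec (.of (FractionRing R)),
      l ≫ Spec.map (CommRingCat.ofHom (algebraMap R (FractionRing R))) ≫ j =
        C.fromSpecStalk (genericPoint C) := by
  have hgen : j (genericPoint (Spec (.of R))) = genericPoint C :=
    genericPoint_eq_of_isOpenImmersion j
  have hr : Set.range (C.fromSpecStalk (genericPoint C)) ⊆ Set.range j := by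
    rw [Scheme.range_fromSpecStalk]
    intro y hy
    exact Specializes.mem_open hy j.isOpenEmbedding.isOpen_range ⟨_, hgen⟩
  obtain ⟨ρ, hρ⟩ : ∃ ρ : CommRingCat.of R ⟶ C.functionField,
      Spec.map ρ ≫ j = C.fromSpecStalk (genericPoint C) :=
    ⟨Spec.preimage (IsOpenImmersion.lift j _ hr), by
      rw [Spec.map_preimage, IsOpenImmersion.lift_fac]⟩
  have hinj : Function.Injective ρ.hom := by
    rw [injective_iff_map_eq_zero]
    intro a ha
    have h1 : Spec.map ρ (IsLocalRing.closedPoint (C.presheaf.stalk (genericPoint C))) =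
        genericPoint (Spec (.of R)) := by
      apply j.isOpenEmbedding.injective
      rw [← Scheme.Hom.comp_apply, hρ, hgen]
      exact Scheme.fromSpecStalk_closedPoint
    rw [genericPoint_eq_bot_of_affine] at h1
    have h2 : a ∈ (Spec.map ρ
        (IsLocalRing.closedPoint (C.presheaf.stalk (genericPoint C)))).asIdeal := by
      change ρ.hom a ∈ (IsLocalRing.closedPoint (C.presheaf.stalk (genericPoint C))).asIdeal
      rw [ha]
      exact Ideal.zero_mem _
    rw [h1] at h2
    exact h2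
  refine ⟨Spec.map (CommRingCat.ofHom (IsFractionRing.lift (K := FractionRing R) hinj)), ?_⟩
  rw [← Category.assoc, ← Spec.map_comp, ← hρ]
  congr 2
  ext a
  exact IsFractionRing.lift_algebraMap hinj a

end FIN

theorem st_FIN (hD : St_DALG) (hC : St_CCH) (hE : St_CEXT) : St_FIN := by
  intro X s _ hX g hg
  have := hD.1
  obtain ⟨hint, j, hj, hjs, hcov⟩ := hC hD.1
  have hv : ∀ x : C0, ValuationRing (C0.presheaf.stalk x) := by
    intro x
    obtain ⟨k, t, rfl⟩ := hcov x
    exact Pool.Agent.RC.End.valuationRing_stalk_of_open (j k) t (FIN.valuation_Spec hD t)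
  obtain ⟨l, hl⟩ := FIN.generic_map DC (j 0)
  obtain ⟨f, hf⟩ := hE C0 X _ C0str s hv (l ≫ g) (by
    rw [Category.assoc, hg, ← hl, Category.assoc, Category.assoc, hjs, ← Spec.map_comp,
      ← CommRingCat.ofHom_comp, ← IsScalarTower.algebraMap_eq])
  refine ⟨f, hf, ?_⟩
  by_contra hne
  push Not at hne
  obtain ⟨t, ht⟩ := FIN.real_point hD s (j 0 ≫ f) (by rw [Category.assoc, hf, hjs])
    (fun c d => by rw [Scheme.Hom.comp_apply, Scheme.Hom.comp_apply, hne])
  exact hX t ht

end Pool.Agent.Lib.RC
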