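import Mathlib
import Pool.Agent.Lib.RC.Root53

/-! Spreading finitely many complex numbers over a ring of functions. -/

open Polynomial Topology Filter Set

namespace Pool.Agent.RC.Spread

section den
variable {A F : Type*} [CommRing A] [Field F] (e : A →+* F)

theorem den1 (he : ∀ x : F, ∃ a b : A, e b ≠ 0 ∧ x = e a / e b) (p : F[X]) :
    ∃ δ : A, e δ ≠ 0 ∧ ∃ q : A[X], q.map e = C (e δ) * p := by
  induction p using Polynomial.induction_on' with
  | add p1 p2 h1 h2 =>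
    obtain ⟨δ1, hδ1, q1, hq1⟩ := h1
    obtain ⟨δ2, hδ2, q2, hq2⟩ := h2
    refine ⟨δ1 * δ2, by rw [map_mul]; exact mul_ne_zero hδ1 hδ2, C δ2 * q1 + C δ1 * q2, ?_⟩
    simp only [Polynomial.map_add, Polynomial.map_mul, map_C, hq1, hq2, map_mul]
    ring
  | monomial n x =>
    obtain ⟨a, b, hb, rfl⟩ := he x
    refine ⟨b, hb, monomial n a, ?_⟩
    rw [map_monomial, C_mul_monomial, mul_div_cancel₀ _ hb]

theorem denFam (he : ∀ x : F, ∃ a b : A, e b ≠ 0 ∧ x = e a / e b) {κ : Type*} [Finite κ]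
    (p : κ → F[X]) : ∃ δ : A, e δ ≠ 0 ∧ ∀ i, ∃ q : A[X], q.map e = C (e δ) * p i := by
  classical
  cases nonempty_fintype κ
  choose δ hδ q hq using fun i => den1 e he (p i)
  refine ⟨∏ i, δ i, by rw [map_prod]; exact Finset.prod_ne_zero_iff.2 fun i _ => hδ i, fun i => ?_⟩
  refine ⟨C (∏ k ∈ Finset.univ.erase i, δ k) * q i, ?_⟩
  rw [← Finset.mul_prod_erase Finset.univ δ (Finset.mem_univ i), Polynomial.map_mul, map_C, hq,
    map_mul, C_mul]
  ring

end den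

variable {Ω : Type*}

/-- evaluation at a point -/
def ev (𝓐 : Subring (Ω → ℂ)) (l : Ω) : 𝓐 →+* ℂ :=
  (Pi.evalRingHom (fun _ => ℂ) l).comp 𝓐.subtype

@[simp] theorem ev_apply (𝓐 : Subring (Ω → ℂ)) (l : Ω) (g : 𝓐) : ev 𝓐 l g = g.1 l := rfl

/-- vanishing at `l0` forces vanishing on `D` -/
def Rig (D : Set Ω) (l0 : Ω) (𝓐 : Subring (Ω → ℂ)) : Prop :=
  ∀ g ∈ 𝓐, g l0 = 0 → ∀ l ∈ D, g l = 0

/-- algebraic over the values at `l0` -/
def Alg (l0 : Ω) (𝓐 : Subring (Ω → ℂ)) (x : ℂ) : Prop :=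
  ∃ p : 𝓐[X], p.map (ev 𝓐 l0) ≠ 0 ∧ (p.map (ev 𝓐 l0)).eval x = 0

theorem map_incl {𝓐 𝓑 : Subring (Ω → ℂ)} (h : 𝓐 ≤ 𝓑) (l : Ω) (p : 𝓐[X]) :
    (p.map (Subring.inclusion h)).map (ev 𝓑 l) = p.map (ev 𝓐 l) := by
  rw [Polynomial.map_map]; rfl

theorem Rig.map_zero {D : Set Ω} {l0 : Ω} {𝓐 : Subring (Ω → ℂ)} (h : Rig D l0 𝓐) {p : 𝓐[X]}
    (hp : p.map (ev 𝓐 l0) = 0) {l : Ω} (hl : l ∈ D) : p.map (ev 𝓐 l) = 0 := by
  ext n
  have := congrArg (fun q => coeff q n) hp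
  simp only [coeff_map, coeff_zero, ev_apply] at this ⊢
  exact h _ (p.coeff n).2 this l hl

theorem Alg.mono {l0 : Ω} {𝓐 𝓑 : Subring (Ω → ℂ)} (h : 𝓐 ≤ 𝓑) {x : ℂ} (hx : Alg l0 𝓐 x) :
    Alg l0 𝓑 x := by
  obtain ⟨p, h1, h2⟩ := hx
  exact ⟨p.map (Subring.inclusion h), by rwa [map_incl], by rwa [map_incl]⟩

theorem exists_alg (𝒞 𝓐0 : Subring (Ω → ℂ)) (hc : ∀ x : ℂ, (fun _ => x) ∈ 𝒞) (h0 : 𝓐0 ≤ 𝒞)
    {D : Set Ω} {l0 : Ω} (hR : Rig D l0 𝓐0) (T : Finset ℂ) :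
    ∃ 𝓐 : Subring (Ω → ℂ), 𝓐0 ≤ 𝓐 ∧ 𝓐 ≤ 𝒞 ∧ Rig D l0 𝓐 ∧ ∀ x ∈ T, Alg l0 𝓐 x := by
  classical
  induction T using Finset.induction_on with
  | empty => exact ⟨𝓐0, le_rfl, h0, hR, by simp⟩
  | insert x T _ ih =>
    obtain ⟨𝓐, h1, h2, h3, h4⟩ := ih
    by_cases hx : Alg l0 𝓐 x
    · exact ⟨𝓐, h1, h2, h3, by simpa using ⟨hx, h4⟩⟩
    let φ : 𝓐[X] →+* (Ω → ℂ) := eval₂RingHom 𝓐.subtype (fun _ => x)
    have hφ : ∀ p l, φ p l = (p.map (ev 𝓐 l)).eval x := by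
      intro p l
      rw [eval_map]
      exact hom_eval₂ p 𝓐.subtype (Pi.evalRingHom (fun _ => ℂ) l) (fun _ => x)
    have hle : 𝓐 ≤ φ.range := fun g hg => ⟨C ⟨g, hg⟩, by simp [φ]⟩
    refine ⟨φ.range, h1.trans hle, ?_, ?_, ?_⟩
    · rintro _ ⟨p, rfl⟩
      induction p using Polynomial.induction_on' with
      | add p q hp hq => rw [map_add]; exact add_mem hp hq
      | monomial n a =>
        have : φ (monomial n a) = a.1 * (fun _ => x) ^ n := by simp [φ]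
        rw [this]
        exact mul_mem (h2 a.2) (pow_mem (hc x) n)
    · rintro _ ⟨p, rfl⟩ hp l hl
      rw [hφ] at hp ⊢
      have : p.map (ev 𝓐 l0) = 0 := by
        by_contra hne
        exact hx ⟨p, hne, hp⟩
      rw [h3.map_zero this hl, eval_zero]
    · intro y hy
      rcases Finset.mem_insert.1 hy with rfl | hy
      · refine ⟨X - C ⟨fun _ => y, X, by simp [φ]⟩, ?_, ?_⟩
        · rw [Polynomial.map_sub, map_X, map_C]; exact X_sub_C_ne_zero _
        · simp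
      · exact (h4 y hy).mono hle

/-- functions that are `h / δ ^ n` off the zeros of `δ` -/
def loc (𝓐 : Subring (Ω → ℂ)) (δ : 𝓐) : Subring (Ω → ℂ) where
  carrier := {g | ∃ n : ℕ, ∃ h ∈ 𝓐, ∀ l, δ.1 l ≠ 0 → g l = h l / δ.1 l ^ n}
  mul_mem' := by
    rintro g g' ⟨n, h, hh, e⟩ ⟨n', h', hh', e'⟩
    refine ⟨n + n', h * h', mul_mem hh hh', fun l hl => ?_⟩
    rw [Pi.mul_apply, Pi.mul_apply, e l hl, e' l hl, pow_add, div_mul_div_comm]
  one_mem' := ⟨0, 1, one_mem _, fun l _ => by simp⟩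
  add_mem' := by
    rintro g g' ⟨n, h, hh, e⟩ ⟨n', h', hh', e'⟩
    refine ⟨n + n', h * δ.1 ^ n' + δ.1 ^ n * h',
      add_mem (mul_mem hh (pow_mem δ.2 _)) (mul_mem (pow_mem δ.2 _) hh'), fun l hl => ?_⟩
    rw [Pi.add_apply, e l hl, e' l hl, pow_add,
      div_add_div _ _ (pow_ne_zero _ hl) (pow_ne_zero _ hl)]
    rfl
  zero_mem' := ⟨0, 0, zero_mem _, fun l _ => by simp⟩
  neg_mem' := by
    rintro g ⟨n, h, hh, e⟩
    exact ⟨n, -h, neg_mem hh, fun l hl => by rw [Pi.neg_apply, Pi.neg_apply, e l hl, neg_div]⟩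

theorem le_loc (𝓐 : Subring (Ω → ℂ)) (δ : 𝓐) : 𝓐 ≤ loc 𝓐 δ :=
  fun g hg => ⟨0, g, hg, fun l _ => by simp⟩

theorem inv_mem_loc (𝓐 : Subring (Ω → ℂ)) (δ : 𝓐) : (fun l => (δ.1 l)⁻¹) ∈ loc 𝓐 δ :=
  ⟨1, 1, one_mem _, fun l _ => by simp⟩

theorem Rig.loc {D : Set Ω} {l0 : Ω} {𝓐 : Subring (Ω → ℂ)} (hR : Rig D l0 𝓐) (δ : 𝓐)
    (hδ : δ.1 l0 ≠ 0) : Rig {l | l ∈ D ∧ δ.1 l ≠ 0} l0 (loc 𝓐 δ) := by
  rintro g ⟨n, h, hh, e⟩ hg l hl
  rw [e l0 hδ, div_eq_zero_iff] at hg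
  rw [e l hl.2, hR h hh (hg.resolve_right (pow_ne_zero _ hδ)) l hl.1, zero_div]

/-- the core: everything algebraic over the values at `l0` -/
theorem core_alg (𝓐 : Subring (Ω → ℂ)) {D : Set Ω} {l0 : Ω} (hR : Rig D l0 𝓐)
    {σ : Type*} [Finite σ] (A0 : σ → ℂ) (hA : ∀ j, Alg l0 𝓐 (A0 j)) :
    ∃ (P : 𝓐[X]) (δ : 𝓐) (G : σ → 𝓐[X]) (Y0 : ℂ), P.Monic ∧ 0 < P.natDegree ∧ δ.1 l0 ≠ 0 ∧
      (P.map (ev 𝓐 l0)).eval Y0 = 0 ∧ (∀ j, A0 j = ((G j).map (ev 𝓐 l0)).eval Y0 / δ.1 l0) ∧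
      ∀ l ∈ D, δ.1 l ≠ 0 → ∀ Y : ℂ, (P.map (ev 𝓐 l)).eval Y = 0 →
        (derivative (P.map (ev 𝓐 l))).eval Y ≠ 0 ∧
        ∀ Φ : MvPolynomial σ 𝓐, MvPolynomial.eval₂ (ev 𝓐 l0) A0 Φ = 0 →
          MvPolynomial.eval₂ (ev 𝓐 l) (fun j => ((G j).map (ev 𝓐 l)).eval Y / δ.1 l) Φ = 0 := by
  classical
  let F : Subfield ℂ := Subfield.closure (range (ev 𝓐 l0))
  let e0 : 𝓐 →+* F := (ev 𝓐 l0).codRestrict F fun g => Subfield.subset_closure ⟨g, rfl⟩
  have he0 : (algebraMap F ℂ).comp e0 = ev 𝓐 l0 := rfl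
  have hmap : ∀ p : 𝓐[X], (p.map e0).map (algebraMap F ℂ) = p.map (ev 𝓐 l0) := fun p => by
    rw [Polynomial.map_map, he0]
  have haev : ∀ (p : 𝓐[X]) (x : ℂ), aeval x (p.map e0) = (p.map (ev 𝓐 l0)).eval x := fun p x => by
    rw [← hmap, eval_map_algebraMap]
  have hne : ∀ g : 𝓐, e0 g ≠ 0 → g.1 l0 ≠ 0 := fun g hg h => hg (Subtype.ext h)
  have he : ∀ x : F, ∃ a b : 𝓐, e0 b ≠ 0 ∧ x = e0 a / e0 b := by
    intro x
    obtain ⟨y, hy, z, hz, hyz⟩ := Subfield.mem_closure_iff.1 x.2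
    rw [← RingHom.coe_range, Subring.closure_eq] at hy hz
    obtain ⟨a, rfl⟩ := hy
    obtain ⟨b, rfl⟩ := hz
    by_cases hb : e0 b = 0
    · refine ⟨0, 1, by simp, Subtype.ext ?_⟩
      have : ev 𝓐 l0 b = 0 := congrArg Subtype.val hb
      rw [← hyz, this]; simp
    · exact ⟨a, b, hb, Subtype.ext hyz.symm⟩
  have hint : ∀ x ∈ range A0, IsIntegral F x := by
    rintro _ ⟨j, rfl⟩
    obtain ⟨p, h1, h2⟩ := hA j
    refine IsAlgebraic.isIntegral ⟨p.map e0, fun h => h1 ?_, by rw [haev, h2]⟩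
    rw [← hmap, h, Polynomial.map_zero]
  let E := IntermediateField.adjoin F (range A0)
  have : FiniteDimensional F E := IntermediateField.finiteDimensional_adjoin hint
  let pb := Field.powerBasisOfFiniteOfSeparable F E
  let s0 : ℂ := (pb.gen : ℂ)
  have hs0 : IsIntegral F s0 := (Algebra.IsIntegral.isIntegral pb.gen).map E.val
  have hR0 : ∀ j, ∃ r : F[X], A0 j = aeval s0 r := by
    intro j
    obtain ⟨r, hr⟩ := pb.exists_eq_aeval'
      ⟨A0 j, IntermediateField.subset_adjoin F _ ⟨j, rfl⟩⟩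
    refine ⟨r, ?_⟩
    have := congrArg E.val hr
    rw [← aeval_algHom_apply] at this
    exact this
  obtain ⟨δ1, hδ1, q1, hq1⟩ := den1 e0 he (minpoly F s0)
  let Y0 : ℂ := e0 δ1 • s0
  have hY0 : IsIntegral F Y0 := hs0.smul _
  have hmin : minpoly F Y0 = (minpoly F s0).scaleRoots (e0 δ1) :=
    IsIntegrallyClosed.minpoly_smul hδ1 hs0
  have hlift : minpoly F Y0 ∈ lifts e0 := by
    rw [lifts_iff_coeff_lifts]
    intro n
    rw [hmin, coeff_scaleRoots]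
    rcases lt_trichotomy n (minpoly F s0).natDegree with h | h | h
    · refine ⟨q1.coeff n * δ1 ^ ((minpoly F s0).natDegree - n - 1), ?_⟩
      have h1 : e0 (q1.coeff n) = e0 δ1 * (minpoly F s0).coeff n := by
        rw [← coeff_map, hq1, coeff_C_mul]
      have h2 : (minpoly F s0).natDegree - n = ((minpoly F s0).natDegree - n - 1) + 1 := by omega
      rw [map_mul, map_pow, h1]
      conv_rhs => rw [h2, pow_succ]
      ring
    · refine ⟨1, ?_⟩
      rw [h, (minpoly.monic hs0).coeff_natDegree]; simp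
    · exact ⟨0, by rw [coeff_eq_zero_of_natDegree_lt h]; simp⟩
  obtain ⟨P, hP, hPd, hPm⟩ := lifts_and_natDegree_eq_and_monic hlift (minpoly.monic hY0)
  have hR1 : ∀ j, ∃ r : F[X], A0 j = aeval Y0 r := by
    intro j
    obtain ⟨r, hr⟩ := hR0 j
    refine ⟨r.comp (C (e0 δ1)⁻¹ * X), ?_⟩
    rw [aeval_comp, hr]
    congr 2
    rw [map_mul, aeval_C, aeval_X, ← Algebra.smul_def, smul_smul, inv_mul_cancel₀ hδ1, one_smul]
  choose r hr using hR1
  obtain ⟨U, W, hUW⟩ : IsCoprime (minpoly F Y0) (derivative (minpoly F Y0)) :=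
    (minpoly.irreducible hY0).separable
  obtain ⟨δ, hδ, hq⟩ := denFam e0 he (Sum.elim r (fun b : Bool => cond b U W))
  choose q hq using hq
  have hδ0 := hne δ hδ
  have hPY : (P.map (ev 𝓐 l0)).eval Y0 = 0 := by rw [← haev, hP, minpoly.aeval]
  have hA0 : ∀ j, A0 j = ((q (Sum.inl j)).map (ev 𝓐 l0)).eval Y0 / δ.1 l0 := by
    intro j
    rw [← haev, hq, map_mul, aeval_C, Sum.elim_inl, ← hr j]
    exact (mul_div_cancel_left₀ _ hδ0).symm
  refine ⟨P, δ, fun j => q (Sum.inl j), Y0, hPm, hPd ▸ minpoly.natDegree_pos hY0, hδ0, hPY, hA0,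
    fun l hl hδl Y hY => ⟨?_, ?_⟩⟩
  · have h1 : (q (Sum.inr true) * P + q (Sum.inr false) * derivative P - C δ).map e0 = 0 := by
      rw [Polynomial.map_sub, Polynomial.map_add, Polynomial.map_mul, Polynomial.map_mul, hq, hq,
        ← derivative_map, hP, map_C]
      simp only [Sum.elim_inr, cond_true, cond_false]
      linear_combination C (e0 δ) * hUW
    have h2 := hR.map_zero (by rw [← hmap, h1, Polynomial.map_zero]) hl
    have h3 := congrArg (eval Y) h2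
    rw [Polynomial.map_sub, Polynomial.map_add, Polynomial.map_mul, Polynomial.map_mul,
      ← derivative_map, map_C] at h3
    simp only [eval_sub, eval_add, eval_mul, hY, eval_C, eval_zero, ev_apply] at h3
    intro h4
    rw [h4] at h3
    exact hδl (by linear_combination -h3)
  · let 𝓑 := loc 𝓐 δ
    have hle : 𝓐 ≤ 𝓑 := le_loc 𝓐 δ
    let ι : 𝓐 →+* 𝓑 := Subring.inclusion hle
    have hRB := hR.loc δ hδ0
    have hmemF : ∀ g : 𝓑, ev 𝓑 l0 g ∈ F := by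
      rintro ⟨g, n, h, hh, e⟩
      change g l0 ∈ F
      rw [e l0 hδ0]
      exact div_mem (e0 ⟨h, hh⟩).2 (pow_mem (e0 δ).2 n)
    let e1 : 𝓑 →+* F := (ev 𝓑 l0).codRestrict F hmemF
    have hmap1 : ∀ p : 𝓑[X], (p.map e1).map (algebraMap F ℂ) = p.map (ev 𝓑 l0) := fun p => by
      rw [Polynomial.map_map]; rfl
    have key : ∀ H : 𝓑[X], (H.map (ev 𝓑 l0)).eval Y0 = 0 → (H.map (ev 𝓑 l)).eval Y = 0 := by
      intro H hH
      have hm : (P.map ι).Monic := hPm.map ι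
      have hdiv := modByMonic_add_div H (P.map ι)
      set ρ := H %ₘ (P.map ι)
      have a1 : (ρ.map (ev 𝓑 l0)).eval Y0 = 0 := by
        rw [← hdiv, Polynomial.map_add, Polynomial.map_mul, map_incl, eval_add, eval_mul, hPY,
          zero_mul, add_zero] at hH
        exact hH
      have a2 : ρ.map e1 = 0 := by
        by_contra hρ
        have b1 := minpoly.degree_le_of_ne_zero F Y0 hρ
          (by rw [← eval_map_algebraMap, hmap1, a1])
        have : Nontrivial 𝓑 := e1.domain_nontrivial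
        have : Nontrivial 𝓐 := e0.domain_nontrivial
        have b2 : ρ.degree < (P.map ι).degree := degree_modByMonic_lt H hm
        rw [hPm.degree_map, ← hPm.degree_map e0, hP] at b2
        exact absurd (b1.trans degree_map_le) (not_le.2 b2)
      have a3 := hRB.map_zero (p := ρ) (by rw [← hmap1, a2, Polynomial.map_zero]) ⟨hl, hδl⟩
      rw [← hdiv, Polynomial.map_add, Polynomial.map_mul, map_incl, eval_add, eval_mul, hY, a3]
      simp
    let w : 𝓑 := ⟨_, inv_mem_loc 𝓐 δ⟩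
    let θ : MvPolynomial σ 𝓐 →+* 𝓑[X] :=
      MvPolynomial.eval₂Hom (C.comp ι) fun j => (q (Sum.inl j)).map ι * C w
    have hθ : ∀ (l' : Ω) (Y' : ℂ) (Φ : MvPolynomial σ 𝓐), ((θ Φ).map (ev 𝓑 l')).eval Y' =
        MvPolynomial.eval₂ (ev 𝓐 l')
          (fun j => ((q (Sum.inl j)).map (ev 𝓐 l')).eval Y' / δ.1 l') Φ := by
      intro l' Y' Φ
      induction Φ using MvPolynomial.induction_on with
      | C a => simp [θ, ι]
      | add p p' hp hp' => simp only [map_add, Polynomial.map_add, eval_add, hp, hp',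
          MvPolynomial.eval₂_add]
      | mul_X p j hp =>
        rw [map_mul, Polynomial.map_mul, eval_mul, hp, MvPolynomial.eval₂_mul,
          MvPolynomial.eval₂_X]
        congr 1
        simp only [θ, MvPolynomial.coe_eval₂Hom, MvPolynomial.eval₂_X, Polynomial.map_mul, map_C,
          eval_mul, eval_C, ι, map_incl]
        rfl
    intro Φ hΦ
    rw [← hθ]
    apply key
    rw [hθ, ← hΦ]
    congr 1
    funext j
    exact (hA0 j).symm

/-- the core spreading statement over a ring of functions containing the constants -/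
theorem core (𝒞 𝓐0 : Subring (Ω → ℂ)) (hc : ∀ x : ℂ, (fun _ => x) ∈ 𝒞) (h0 : 𝓐0 ≤ 𝒞)
    {D : Set Ω} {l0 : Ω} (hR : Rig D l0 𝓐0) {σ : Type*} [Finite σ] (A0 : σ → ℂ) :
    ∃ (P : 𝒞[X]) (δ : 𝒞) (G : σ → 𝒞[X]) (Y0 : ℂ), P.Monic ∧ 0 < P.natDegree ∧ δ.1 l0 ≠ 0 ∧
      (P.map (ev 𝒞 l0)).eval Y0 = 0 ∧ (∀ j, A0 j = ((G j).map (ev 𝒞 l0)).eval Y0 / δ.1 l0) ∧
      ∀ l ∈ D, δ.1 l ≠ 0 → ∀ Y : ℂ, (P.map (ev 𝒞 l)).eval Y = 0 →
        (derivative (P.map (ev 𝒞 l))).eval Y ≠ 0 ∧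
        ∀ Φ : MvPolynomial σ 𝓐0, MvPolynomial.eval₂ (ev 𝓐0 l0) A0 Φ = 0 →
          MvPolynomial.eval₂ (ev 𝓐0 l) (fun j => ((G j).map (ev 𝒞 l)).eval Y / δ.1 l) Φ = 0 := by
  obtain ⟨𝓐, h1, h2, h3, h4⟩ := exists_alg 𝒞 𝓐0 hc h0 hR (finite_range A0).toFinset
  obtain ⟨P, δ, G, Y0, p1, p2, p3, p4, p5, p6⟩ := core_alg 𝓐 h3 A0 fun j => h4 _ (by simp)
  have : Nontrivial 𝒞 := (ev 𝒞 l0).domain_nontrivial
  refine ⟨P.map (Subring.inclusion h2), Subring.inclusion h2 δ,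
    fun j => (G j).map (Subring.inclusion h2), Y0, p1.map _, by rwa [p1.natDegree_map], p3,
    by rwa [map_incl], fun j => by rw [map_incl]; exact p5 j, fun l hl hδ Y hY => ?_⟩
  simp only [map_incl] at hY ⊢
  refine ⟨(p6 l hl hδ Y hY).1, fun Φ hΦ => ?_⟩
  have := (p6 l hl hδ Y hY).2 (Φ.map (Subring.inclusion h1)) (by rw [MvPolynomial.eval₂_map]; exact hΦ)
  rw [MvPolynomial.eval₂_map] at this
  exact this

/-- SP: spreading over the points satisfying the relations of `a` -/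
theorem sp (k1 : Subring ℂ) {I J : Type} [Finite J] (a : I → ℂ) (c0 : J → ℂ) :
    ∃ (P : (MvPolynomial I ℂ)[X]) (D : MvPolynomial I ℂ) (G : J → (MvPolynomial I ℂ)[X]) (Y0 : ℂ),
      P.Monic ∧ 0 < P.natDegree ∧ MvPolynomial.eval a D ≠ 0 ∧
      (P.map (MvPolynomial.eval a)).eval Y0 = 0 ∧
      (∀ j, c0 j = ((G j).map (MvPolynomial.eval a)).eval Y0 / MvPolynomial.eval a D) ∧
      ∀ a' : I → ℂ,
        (∀ Φ : MvPolynomial I k1, MvPolynomial.aeval a Φ = 0 → MvPolynomial.aeval a' Φ = 0) →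
        MvPolynomial.eval a' D ≠ 0 → ∀ Y : ℂ, (P.map (MvPolynomial.eval a')).eval Y = 0 →
          (derivative (P.map (MvPolynomial.eval a'))).eval Y ≠ 0 ∧
          ∀ Φ : MvPolynomial (I ⊕ J) k1, MvPolynomial.aeval (Sum.elim a c0) Φ = 0 →
            MvPolynomial.aeval (Sum.elim a' fun j =>
              ((G j).map (MvPolynomial.eval a')).eval Y / MvPolynomial.eval a' D) Φ = 0 := by
  let π : MvPolynomial I ℂ →+* ((I → ℂ) → ℂ) := RingHom.pi fun b => MvPolynomial.eval b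
  let π0 : MvPolynomial I k1 →+* ((I → ℂ) → ℂ) :=
    RingHom.pi fun b => (MvPolynomial.aeval b : MvPolynomial I k1 →ₐ[k1] ℂ).toRingHom
  have hc : ∀ x : ℂ, (fun _ => x) ∈ π.range := fun x =>
    ⟨MvPolynomial.C x, by funext b; exact MvPolynomial.eval_C x⟩
  have h0 : π0.range ≤ π.range := by
    rintro _ ⟨Φ, rfl⟩
    refine ⟨Φ.map (algebraMap k1 ℂ), ?_⟩
    funext b
    exact MvPolynomial.eval_map _ _ _
  have hR : Rig {a' | ∀ Φ : MvPolynomial I k1, MvPolynomial.aeval a Φ = 0 →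
      MvPolynomial.aeval a' Φ = 0} a π0.range := by
    rintro _ ⟨Φ, rfl⟩ h a' ha'
    exact ha' Φ h
  obtain ⟨P, δ, G, Y0, p1, p2, p3, p4, p5, p6⟩ := core π.range π0.range hc h0 hR c0
  have hs := π.rangeRestrict_surjective
  obtain ⟨P', hP, hPd, hPm⟩ := lifts_and_natDegree_eq_and_monic (mem_lifts_of_surjective hs P) p1
  obtain ⟨D', rfl⟩ := hs δ
  choose G' hG using fun j => (mem_lifts (G j)).1 (mem_lifts_of_surjective hs (G j))
  have hm : ∀ (p : (MvPolynomial I ℂ)[X]) (b : I → ℂ),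
      (p.map π.rangeRestrict).map (ev π.range b) = p.map (MvPolynomial.eval b) := fun p b => by
    rw [Polynomial.map_map]; rfl
  subst hP
  obtain rfl : G = fun j => (G' j).map π.rangeRestrict := funext fun j => (hG j).symm
  simp only [hm] at p4 p5 p6
  refine ⟨P', D', G', Y0, hPm, hPd ▸ p2, p3, p4, p5, fun a' ha' hD Y hY =>
    ⟨(p6 a' ha' hD Y hY).1, fun Φ hΦ => ?_⟩⟩
  let θ : MvPolynomial (I ⊕ J) k1 →+* MvPolynomial J π0.range :=
    MvPolynomial.eval₂Hom (MvPolynomial.C.comp (π0.rangeRestrict.comp MvPolynomial.C))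
      (Sum.elim (fun i => MvPolynomial.C (π0.rangeRestrict (MvPolynomial.X i))) MvPolynomial.X)
  have hθ : ∀ (b : I → ℂ) (c : J → ℂ) (Ψ : MvPolynomial (I ⊕ J) k1),
      MvPolynomial.eval₂ (ev π0.range b) c (θ Ψ) = MvPolynomial.aeval (Sum.elim b c) Ψ := by
    intro b c Ψ
    induction Ψ using MvPolynomial.induction_on with
    | C x =>
      have e1 : θ (MvPolynomial.C x) = MvPolynomial.C (π0.rangeRestrict (MvPolynomial.C x)) :=
        MvPolynomial.eval₂Hom_C _ _ x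
      rw [e1, MvPolynomial.eval₂_C, MvPolynomial.aeval_C]
      exact MvPolynomial.aeval_C b x
    | add p p' hp hp' => rw [map_add, map_add, MvPolynomial.eval₂_add, hp, hp']
    | mul_X p j hp =>
      rw [map_mul, map_mul, MvPolynomial.eval₂_mul, hp, MvPolynomial.aeval_X]
      have e1 := MvPolynomial.eval₂Hom_X'
        (MvPolynomial.C.comp (π0.rangeRestrict.comp MvPolynomial.C))
        (Sum.elim (fun i => MvPolynomial.C (π0.rangeRestrict (MvPolynomial.X i)))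
          (MvPolynomial.X : J → MvPolynomial J π0.range)) j
      have e2 : θ (MvPolynomial.X j) = _ := e1
      rw [e2]
      cases j with
      | inl i =>
        rw [Sum.elim_inl, Sum.elim_inl, MvPolynomial.eval₂_C]
        exact congrArg _ (MvPolynomial.aeval_X b i)
      | inr j => rw [Sum.elim_inr, Sum.elim_inr, MvPolynomial.eval₂_X]
  rw [← hθ]
  exact (p6 a' ha' hD Y hY).2 _ (by rw [hθ]; exact hΦ)

theorem mpP_coeff {Q : ℂ[X]} (hQ : Q.Monic) {d : ℕ} (hd : Q.natDegree = d) :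
    mpP (fun k : Fin d => Q.coeff k) = Q := by
  subst hd
  rw [mpP, Fin.sum_univ_eq_sum_range (fun k => C (Q.coeff k) * X ^ k), ← hQ.as_sum]

theorem analyticAt_eval₂ {E : Type*} [NormedAddCommGroup E] [NormedSpace ℂ E] {I R : Type*}
    [CommRing R] (φ : R →+* ℂ) (z : E → I → ℂ) (t0 : E)
    (hz : ∀ i, AnalyticAt ℂ (fun t => z t i) t0) (Φ : MvPolynomial I R) :
    AnalyticAt ℂ (fun t => MvPolynomial.eval₂ φ (z t) Φ) t0 := by
  induction Φ using MvPolynomial.induction_on with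
  | C x => simpa only [MvPolynomial.eval₂_C] using analyticAt_const
  | add p p' hp hp' => simp only [MvPolynomial.eval₂_add]; exact hp.add hp'
  | mul_X p j hp => simp only [MvPolynomial.eval₂_mul, MvPolynomial.eval₂_X]; exact hp.mul (hz j)

theorem analyticAt_eval {E : Type*} [NormedAddCommGroup E] [NormedSpace ℂ E] {I : Type*}
    (z : E → I → ℂ) (t0 : E) (hz : ∀ i, AnalyticAt ℂ (fun t => z t i) t0)
    (Φ : MvPolynomial I ℂ) : AnalyticAt ℂ (fun t => MvPolynomial.eval (z t) Φ) t0 :=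
  analyticAt_eval₂ (RingHom.id ℂ) z t0 hz Φ

theorem analyticAt_map_eval {E : Type*} [NormedAddCommGroup E] [NormedSpace ℂ E] {I : Type*}
    (z : E → I → ℂ) (t0 : E) (hz : ∀ i, AnalyticAt ℂ (fun t => z t i) t0) (r : E → ℂ)
    (hr : AnalyticAt ℂ r t0) (p : (MvPolynomial I ℂ)[X]) :
    AnalyticAt ℂ (fun t => (p.map (MvPolynomial.eval (z t))).eval (r t)) t0 := by
  induction p using Polynomial.induction_on' with
  | add p p' hp hp' => simp only [Polynomial.map_add, eval_add]; exact hp.add hp'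
  | monomial n x =>
    simp only [map_monomial, eval_monomial]; exact (analyticAt_eval z t0 hz x).mul (hr.pow n)

/-- GERM: analytic spreading near a parameter value -/
theorem germ (k1 : Subring ℂ) {I J : Type} [Finite J] {E : Type*} [NormedAddCommGroup E]
    [NormedSpace ℂ E] [CompleteSpace E] (z : E → I → ℂ) (t0 : E)
    (hz : ∀ i, AnalyticAt ℂ (fun t => z t i) t0)
    (hrel : ∀ᶠ t in 𝓝 t0, ∀ Φ : MvPolynomial I k1,
      MvPolynomial.aeval (z t0) Φ = 0 → MvPolynomial.aeval (z t) Φ = 0) (c0 : J → ℂ) :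
    ∃ c : E → J → ℂ, (∀ j, AnalyticAt ℂ (fun t => c t j) t0) ∧ c t0 = c0 ∧ ∀ᶠ t in 𝓝 t0,
      ∀ Φ : MvPolynomial (I ⊕ J) k1, MvPolynomial.aeval (Sum.elim (z t0) c0) Φ = 0 →
        MvPolynomial.aeval (Sum.elim (z t) (c t)) Φ = 0 := by
  obtain ⟨P, D, G, Y0, p1, -, p3, p4, p5, p6⟩ := sp k1 (z t0) c0
  let co : E → Fin P.natDegree → ℂ := fun t k => (P.map (MvPolynomial.eval (z t))).coeff k
  have hco : ∀ t, mpP (co t) = P.map (MvPolynomial.eval (z t)) := fun t =>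
    mpP_coeff (p1.map _) (p1.natDegree_map _)
  have hca : AnalyticAt ℂ co t0 := analyticAt_pi_iff.2 fun k => by
    simpa only [co, coeff_map] using analyticAt_eval z t0 hz (P.coeff k)
  obtain ⟨r, hr, hr0, hr1, -⟩ := root_local co t0 hca Y0 (by rw [← eval_mpP, hco, p4])
    (by rw [hco]; exact (p6 _ (fun _ h => h) p3 Y0 p4).1)
  have hDa := analyticAt_eval z t0 hz D
  refine ⟨fun t j => ((G j).map (MvPolynomial.eval (z t))).eval (r t) / MvPolynomial.eval (z t) D,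
    fun j => (analyticAt_map_eval z t0 hz r hr (G j)).div hDa p3, ?_, ?_⟩
  · funext j
    simp only [hr0]
    exact (p5 j).symm
  · filter_upwards [hrel, hr1, hDa.continuousAt.eventually_ne p3] with t h1 h2 h3
    rw [← eval_mpP, hco] at h2
    exact (p6 _ h1 h3 _ h2).2

theorem zeros_countable {D : Set ℂ} (hD : IsPreconnected D) {g : ℂ → ℂ}
    (hg : AnalyticOnNhd ℂ g D) {l1 : ℂ} (h1 : l1 ∈ D) (h2 : g l1 ≠ 0) :
    {l | l ∈ D ∧ g l = 0}.Countable := by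
  rcases hg.eqOn_zero_or_eventually_ne_zero_of_preconnected hD with h | h
  · exact (h2 (h h1)).elim
  · have h3 : IsDiscrete ({l | g l = 0} ∩ D) := isDiscrete_of_codiscreteWithin h
    have h4 := (HereditarilyLindelofSpace.isLindelof _).countable_of_isDiscrete h3
    exact h4.mono fun l hl => mem_inter hl.2 hl.1

/-- a generic parameter sees only the relations that hold identically -/
theorem generic (k1 : Subring ℂ) [Countable k1] {I : Type} [Countable I] {D : Set ℂ}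
    (hD : IsPreconnected D) (a : ℂ → I → ℂ) (ha : ∀ i, AnalyticOnNhd ℂ (fun l => a l i) D) :
    ∃ N : Set ℂ, N.Countable ∧ ∀ l0 ∈ D, l0 ∉ N → ∀ Φ : MvPolynomial I k1,
      MvPolynomial.aeval (a l0) Φ = 0 → ∀ l ∈ D, MvPolynomial.aeval (a l) Φ = 0 := by
  have : Countable (MvPolynomial I k1) := by
    rw [← Cardinal.mk_le_aleph0_iff]
    exact MvPolynomial.cardinalMk_le_max.trans
      (max_le (max_le Cardinal.mk_le_aleph0 Cardinal.mk_le_aleph0) le_rfl)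
  refine ⟨⋃ Φ : MvPolynomial I k1, {l | (∃ l1 ∈ D, MvPolynomial.aeval (a l1) Φ ≠ 0) ∧ l ∈ D ∧
    MvPolynomial.aeval (a l) Φ = 0}, countable_iUnion fun Φ => ?_, fun l0 h0 hN Φ hΦ l hl => ?_⟩
  · by_cases h : ∃ l1 ∈ D, MvPolynomial.aeval (a l1) Φ ≠ 0
    · obtain ⟨l1, h1, h2⟩ := h
      exact (zeros_countable (g := fun l => MvPolynomial.aeval (a l) Φ) hD
        (fun x hx => analyticAt_eval₂ (algebraMap k1 ℂ) a x (fun i => ha i x hx) Φ) h1 h2).mono
        fun l hl => hl.2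
    · exact countable_empty.mono fun l hl => h hl.1
  · by_contra hne
    exact hN (mem_iUnion.2 ⟨Φ, ⟨l, hl, hne⟩, h0, hΦ⟩)

theorem seg_avoid {Z W : Set ℂ} (hZ : Z.Countable) (hW : IsOpen W) (hne : W.Nonempty) {l0 : ℂ}
    (h0 : l0 ∉ Z) : ∃ l1 ∈ W, ∀ t : ℝ, l0 + t * (l1 - l0) ∉ Z := by
  by_cases hl : l0 ∈ W
  · exact ⟨l0, hl, fun t => by simpa using h0⟩
  obtain ⟨w, hw⟩ := hne
  have hw0 : w - l0 ≠ 0 := sub_ne_zero.2 fun h => hl (h ▸ hw)
  let γ : ℝ → ℂ := fun s => l0 + (w - l0) * (1 + s * Complex.I)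
  have hγ : Continuous γ := by fun_prop
  have hd := (hZ.image fun z => ((z - l0) / (w - l0)).im / ((z - l0) / (w - l0)).re).dense_compl ℝ
  obtain ⟨s, hs1, hs2⟩ := hd.inter_open_nonempty _ (hW.preimage hγ) ⟨0, by simpa [γ] using hw⟩
  refine ⟨γ s, hs1, fun t ht => hs2 ⟨_, ht, ?_⟩⟩
  have ht0 : t ≠ 0 := by
    rintro rfl
    exact h0 (by simpa using ht)
  have : (l0 + t * (γ s - l0) - l0) / (w - l0) = t * (1 + s * Complex.I) := by
    simp only [γ]
    field_simp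
    ring
  simp only [this]
  simp [ht0]

/-- PATH from a parameter that sees only identical relations -/
theorem path_of_rel (k1 : Subring ℂ) {I J : Type} [Finite J] {D : Set ℂ} (hD : IsOpen D)
    (hc : Convex ℝ D) (a : ℂ → I → ℂ) (ha : ∀ i, AnalyticOnNhd ℂ (fun l => a l i) D)
    {l0 : ℂ} (h0 : l0 ∈ D) (hrel : ∀ Φ : MvPolynomial I k1,
      MvPolynomial.aeval (a l0) Φ = 0 → ∀ l ∈ D, MvPolynomial.aeval (a l) Φ = 0)
    (c0 : J → ℂ) {V : Set ℂ} (hV : IsOpen V) (hne : (V ∩ D).Nonempty) :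
    ∃ (l : ℝ → ℂ) (c : ℝ → J → ℂ), Continuous l ∧ Continuous c ∧ l 0 = l0 ∧ c 0 = c0 ∧ l 1 ∈ V ∧
      (∀ t, l t ∈ D) ∧ ∀ Φ : MvPolynomial (I ⊕ J) k1,
        MvPolynomial.aeval (Sum.elim (a l0) c0) Φ = 0 →
          ∀ t, MvPolynomial.aeval (Sum.elim (a (l t)) (c t)) Φ = 0 := by
  obtain ⟨P, Q, G, Y0, p1, p2, p3, p4, p5, p6⟩ := sp k1 (a l0) c0
  have hev : ∀ Φ : MvPolynomial I ℂ, AnalyticOnNhd ℂ (fun l => MvPolynomial.eval (a l) Φ) D :=
    fun Φ x hx => analyticAt_eval a x (fun i => ha i x hx) Φ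
  obtain ⟨l1, hl1, hseg⟩ := seg_avoid (zeros_countable hc.isPreconnected (hev Q) h0 p3)
    (hV.inter hD) hne (l0 := l0) (fun h => p3 h.2)
  let τ : ℝ → ℝ := fun t => max 0 (min t 1)
  have hτ : Continuous τ := by fun_prop
  let l : ℝ → ℂ := fun t => l0 + τ t * (l1 - l0)
  have hl : Continuous l := by fun_prop
  have hlD : ∀ t, l t ∈ D := fun t => by
    have := hc.add_smul_sub_mem h0 hl1.2 (t := τ t)
      ⟨le_max_left _ _, max_le zero_le_one (min_le_right _ _)⟩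
    simpa only [Complex.real_smul] using this
  have hQ : ∀ t, MvPolynomial.eval (a (l t)) Q ≠ 0 := fun t h => hseg (τ t) ⟨hlD t, h⟩
  have hl0 : l 0 = l0 := by simp [l, τ]
  have hcont : ∀ Φ : MvPolynomial I ℂ, Continuous fun t => MvPolynomial.eval (a (l t)) Φ :=
    fun Φ => (hev Φ).continuousOn.comp_continuous hl hlD
  let co : ℝ → Fin P.natDegree → ℂ := fun t k => (P.map (MvPolynomial.eval (a (l t)))).coeff k
  have hco : ∀ t, mpP (co t) = P.map (MvPolynomial.eval (a (l t))) := fun t =>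
    mpP_coeff (p1.map _) (p1.natDegree_map _)
  have hcc : Continuous co := continuous_pi fun k => by
    simpa only [co, coeff_map] using hcont (P.coeff k)
  have hp6 := fun t => p6 (a (l t)) (fun Φ h => hrel Φ h _ (hlD t)) (hQ t)
  obtain ⟨s, hs, hs0, hs1⟩ := root_lift p2 co hcc
    (fun t Y hY => by rw [← eval_mpP, hco] at hY; rw [hco]; exact (hp6 t Y hY).1) 0 Y0
    (by rw [← eval_mpP, hco, hl0, p4])
  have hG : ∀ p : (MvPolynomial I ℂ)[X],
      Continuous fun t => (p.map (MvPolynomial.eval (a (l t)))).eval (s t) := by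
    intro p
    induction p using Polynomial.induction_on' with
    | add p p' hp hp' => simp only [Polynomial.map_add, eval_add]; exact hp.add hp'
    | monomial n x => simp only [map_monomial, eval_monomial]; exact (hcont x).mul (hs.pow n)
  refine ⟨l, fun t j => ((G j).map (MvPolynomial.eval (a (l t)))).eval (s t) /
    MvPolynomial.eval (a (l t)) Q, hl, continuous_pi fun j => (hG _).div (hcont Q) hQ, hl0, ?_,
    by simpa [l, τ] using hl1.1, hlD, fun Φ hΦ t => ?_⟩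
  · funext j
    simp only [hl0, hs0]
    exact (p5 j).symm
  · have := hs1 t
    rw [← eval_mpP, hco] at this
    exact (hp6 t _ this).2 Φ hΦ

/-- PATH: continuation of a solution from a generic parameter into any open set -/
theorem path (k1 : Subring ℂ) [Countable k1] {I : Type} [Countable I] {D : Set ℂ} (hD : IsOpen D)
    (hc : Convex ℝ D) (a : ℂ → I → ℂ) (ha : ∀ i, AnalyticOnNhd ℂ (fun l => a l i) D) :
    ∃ N : Set ℂ, N.Countable ∧ ∀ l0 ∈ D, l0 ∉ N → ∀ (J : Type) [Finite J] (c0 : J → ℂ)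
      (V : Set ℂ), IsOpen V → (V ∩ D).Nonempty →
      ∃ (l : ℝ → ℂ) (c : ℝ → J → ℂ), Continuous l ∧ Continuous c ∧ l 0 = l0 ∧ c 0 = c0 ∧
        l 1 ∈ V ∧ (∀ t, l t ∈ D) ∧ ∀ Φ : MvPolynomial (I ⊕ J) k1,
          MvPolynomial.aeval (Sum.elim (a l0) c0) Φ = 0 →
            ∀ t, MvPolynomial.aeval (Sum.elim (a (l t)) (c t)) Φ = 0 := by
  obtain ⟨N, hN, h⟩ := generic k1 hc.isPreconnected a ha
  exact ⟨N, hN, fun l0 h0 hn J _ c0 V hV hne =>
    path_of_rel k1 hD hc a ha h0 (h l0 h0 hn) c0 hV hne⟩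

end Pool.Agent.RC.Spread
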