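import Pool.Agent.Lib.RC.Pi77c
import Pool.Agent.Lib.RC.Spread53
import Pool.Agent.Lib.RC.BlueG

/-! Every loop in the space of complex points is freely null-homotopic. -/

namespace Pool.Agent.RC.P77

open MvPolynomial Set Filter Topology Complex Pool.Agent.RC.Th Pool.Agent.RC.Sp Pool.Agent.RC.D44
open Pool.Agent.Lib.RC
open scoped Real

theorem pathSt : PathSt := fun k1 _ _ _ _ hD hc a ha => Spread.path k1 hD hc a ha

variable {n : ℕ} {M : Dat n} (H : M.Ok)

/-- coordinates of an entire holomorphic map are meromorphic in any chart it meets -/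
theorem mero {f : ℂ → X H} (hf : Hol (atlas H) f univ) {b : M.B} {z0 : ℂ} (h0 : f z0 ∈ dom H b)
    (z : ℂ) : (∀ᶠ w in 𝓝[≠] z, f w ∈ dom H b) ∧
      ∀ i, MeromorphicAt (fun w => crd H b (f w) i) z := by
  have := H.fin
  obtain ⟨hc, hd⟩ := (hol_iff H isOpen_univ).1 hf
  rw [continuousOn_univ] at hc
  have han : ∀ g z, f z ∈ dom H g → ∀ i, AnalyticAt ℂ (fun w => crd H g (f w) i) z := by
    intro g z hz i
    have h1 := (hd g).analyticAt (by
      rw [univ_inter]; exact ((isOpen_dom H g).preimage hc).mem_nhds hz)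
    exact analyticAt_pi_iff.1 h1 i
  have key : ∀ z, ((∀ᶠ w in 𝓝[≠] z, f w ∈ dom H b) ∧
      ∀ i, MeromorphicAt (fun w => crd H b (f w) i) z) ∨ ∀ᶠ w in 𝓝[≠] z, f w ∉ dom H b := by
    intro z
    obtain ⟨g, hg⟩ := exists_dom H (f z)
    have e : ∀ᶠ w in 𝓝[≠] z, f w ∈ dom H g :=
      (hc.continuousAt.eventually ((isOpen_dom H g).mem_nhds hg)).filter_mono nhdsWithin_le_nhds
    have hm : ∀ P : MvPolynomial (M.V g) ℝ,
        MeromorphicAt (fun w => aeval (fun i => crd H g (f w) i) P) z :=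
      meromorphicAt_aeval fun i => (han g z hg i).meromorphicAt
    by_cases h : ∃ l, ∀ᶠ w in 𝓝[≠] z, aeval (fun i => crd H g (f w) i) (M.ob g b l) ≠ 0
    · obtain ⟨l, hl⟩ := h
      have h1 : ∀ᶠ w in 𝓝[≠] z, f w ∈ dom H b ∧ crd H b (f w) = tr g b l (crd H g (f w)) := by
        filter_upwards [e, hl] with w h1 h2 using mem_dom_of_ne H h1 h2
      refine Or.inl ⟨h1.mono fun w hw => hw.1, fun i => ?_⟩
      exact ((hm (M.oa g b l i)).fun_div (hm (M.ob g b l))).congr
        (h1.mono fun w hw => (congrFun hw.2 i).symm)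
    · refine Or.inr ?_
      have h1 : ∀ᶠ w in 𝓝[≠] z, ∀ l, aeval (fun i => crd H g (f w) i) (M.ob g b l) = 0 :=
        eventually_all.2 fun l => (hm _).eventually_eq_zero_or_eventually_ne_zero.resolve_right
          fun h' => h ⟨l, h'⟩
      filter_upwards [e, h1] with w h1 h2 h3
      obtain ⟨l, hl, -⟩ := same_crd H h1 h3
      exact hl (h2 l)
  have hopen : ∀ p : ℂ → Prop, IsOpen {z | ∀ᶠ w in 𝓝[≠] z, p w} := fun p =>
    isOpen_iff_mem_nhds.2 fun z hz => by
      have h1 : ∀ᶠ w in 𝓝[≠] z, p w := hz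
      rw [← nhdsNE_sup_pure z, mem_sup, mem_pure]
      exact ⟨(eventually_nhdsNE_eventually_nhds_iff.2 h1).mono fun w hw =>
        hw.filter_mono nhdsWithin_le_nhds, h1⟩
  have hdis : ∀ z, (∀ᶠ w in 𝓝[≠] z, f w ∈ dom H b) → ¬ ∀ᶠ w in 𝓝[≠] z, f w ∉ dom H b :=
    fun z h1 h2 => by
      obtain ⟨w, h3, h4⟩ := (h1.and h2).exists
      exact h4 h3
  have hcl : IsClopen {z | ∀ᶠ w in 𝓝[≠] z, f w ∈ dom H b} := by
    refine ⟨isOpen_compl_iff.1 ?_, hopen _⟩
    convert hopen fun w => f w ∉ dom H b using 1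
    ext z
    exact ⟨fun h => (key z).resolve_left fun h' => h h'.1, fun h h' => hdis z h' h⟩
  have hall := hcl.eq_univ ⟨z0,
    (hc.continuousAt.eventually ((isOpen_dom H b).mem_nhds h0)).filter_mono nhdsWithin_le_nhds⟩
  exact (key z).resolve_right (hdis z (eq_univ_iff_forall.1 hall z))

theorem st_PI1 (hA : St_Ator) : G.St_PI1 := by
  intro n M H hG g hg hp
  have := H.fin
  obtain ⟨δ, hδ, hcl⟩ := close H
  obtain ⟨N, hN, hS⟩ := spread pathSt (V := M.V) (κ := fun b => Fin (M.c b)) M.eqn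
  obtain ⟨l0, hl0, hlN⟩ : ∃ l0 : ℝ, 0 < l0 ∧ (l0 : ℂ) ∉ N := by
    by_contra hc
    push Not at hc
    have h1 : (Ioi (0 : ℝ)).Countable :=
      (hN.preimage_of_injOn (f := fun x : ℝ => (x : ℂ)) ofReal_injective.injOn).mono hc
    have h2 := Cardinal.mk_Ioi_real 0
    rw [← Cardinal.le_aleph0_iff_set_countable, h2] at h1
    exact absurd h1 (not_le.2 Cardinal.aleph0_lt_continuum)
  obtain ⟨f, hf, p1, p2, x1, hx1⟩ := hA n (X H) (atlas H) (fun w => g w.im) l0 δ hl0 hδ
    (hg.comp continuous_im) (fun w => hG _) (fun w => by simpa using hp w.im) (fun w => by simp)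
  have hfc : Continuous f := continuousOn_univ.1 hf.1
  have h1 : LH (loop f x1) g := hcl _ _ (loop_cont hfc x1) hg (loop_per p1 x1) hp fun θ => by
    simpa [loop] using hx1 (x1 + θ * I) (by simp)
  obtain ⟨b, hb⟩ := exists_dom H (f 0)
  have hl0' : 0 < (l0 : ℂ).re := hl0
  obtain ⟨d, _, A0, A, hA0, hA1, hA2⟩ := clear hl0' (f ⁻¹' dom H b) (fun i w => crd H b (f w) i)
    (fun p => (mero H hf hb p).1) (fun w => by simp only [mem_preimage, p1])
    (fun w => by simp only [mem_preimage, p2]) (fun i p => (mero H hf hb p).2 i)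
    (fun i w hw => (continuous_apply i).continuousAt.comp
      ((continuousAt_crd H hw).comp hfc.continuousAt))
    (fun i w _ => by simp only [p1]) (fun i w _ => by simp only [p2])
  set c0 : Option (M.V b) → ZMod d → ℂ := fun o => o.elim A0 A with hc0
  have hq : ∀ w, S d l0 (c0 none) w ≠ 0 → f w ∈ dom H b ∧
      (fun i => S d l0 (c0 (some i)) w / S d l0 (c0 none) w) = crd H b (f w) := by
    intro w hw
    refine ⟨by_contra fun h => hw (hA1 w h), funext fun i => ?_⟩
    rw [div_eq_iff hw, mul_comm]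
    exact hA2 i w
  have hv : Valid (M.Z ℂ b) d l0 c0 := by
    refine ⟨?_, fun w hw => ?_⟩
    · by_contra h
      push Not at h
      exact hA0 (eq_zero_of_comb A0 hl0' h)
    · rw [(hq w hw).2]
      exact crd_mem H (hq w hw).1
  obtain ⟨L, hL⟩ := short H b d hδ
  obtain ⟨l, c, hl, hc, e0, e1, e2, e3⟩ := hS l0 hl0' hlN b d c0 hv L
  choose F hF hF' using fun t => ext_cont H (b := b) (differentiable_S d (e3 t).1 (c t none))
    (fun i => differentiable_S d (e3 t).1 (c t (some i))) (e3 t).2.1 (e3 t).2.2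
  have hper : ∀ t w, F t (w + 2 * π * I) = F t w := fun t =>
    per_of_dense (hF t) (differentiable_S d (e3 t).1 _) (e3 t).2.1 fun w hw => by
      rw [hF' t w hw, hF' t _ (by rwa [S_per])]
      simp only [S_per]
  have hSc : ∀ o, Continuous fun p : ℝ × ℂ => S d (l p.1) (c p.1 o) p.2 := fun o =>
    continuous_S d (hl.comp continuous_fst) (fun p => (e3 p.1).1) (by fun_prop) continuous_snd
  have hF0 : F 0 = f := by
    have hd : Dense {w | S d (l 0) (c 0 none) w ≠ 0} := fun z => mem_closure_iff_frequently.2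
      ((eventually_ne_zero (differentiable_S d (e3 0).1 _) (e3 0).2.1 z).frequently.filter_mono
        nhdsWithin_le_nhds)
    refine Continuous.ext_on hd (hF 0) hfc fun w hw => ?_
    rw [hF' 0 w hw]
    simp only [e0, e1, mem_ofPred_eq] at hw ⊢
    rw [(hq w hw).2, ι_crd H (hq w hw).1]
  obtain ⟨x, y, hy⟩ := hL (l 1) (c 1) (F 1) (e3 1).1 e2 (e3 1).2 (hF' 1)
  have h2 : LH (loop (F 0) x1) (loop (F 1) x) := by
    refine tloc_real F (fun t => S d (l t) (c t none)) hF hper (hSc none)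
      (fun t => differentiable_S d (e3 t).1 _) (fun t => (e3 t).2.1) (fun t => S_per d _ _) ?_
      0 1 x1 x
    refine ((continuousOn_ι H b).comp (f := fun p : ℝ × ℂ => fun i =>
      S d (l p.1) (c p.1 (some i)) p.2 / S d (l p.1) (c p.1 none) p.2) (continuousOn_pi.2 fun i =>
        (hSc _).continuousOn.div (hSc _).continuousOn fun _ hw => hw)
      fun p hw => (e3 p.1).2.2 _ hw).congr fun p hw => hF' _ _ hw
  have h3 : LH (loop (F 1) x) fun _ => y :=
    hcl _ _ (loop_cont (hF 1) x) continuous_const (loop_per (hper 1) x) (fun _ => rfl) hy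
  rw [hF0] at h2
  exact (h1.symm.trans (h2.trans h3)).null

end Pool.Agent.RC.P77
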