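import Pool.Agent.Lib.RC.BlueA

/-! Moving the end point of a holomorphic curve that is good off a countable set. -/

set_option linter.unusedSectionVars false

namespace Pool.Agent.Lib.RC.Lp

open Set Metric Complex Filter Topology

variable {X : Type} [MetricSpace X] {n : ℕ}

theorem hol_mono {𝒜 : Atlas X n} {f : ℂ → X} {Ω Ω' : Set ℂ} (h : Hol 𝒜 f Ω) (h' : Ω' ⊆ Ω) :
    Hol 𝒜 f Ω' :=
  ⟨h.1.mono h', fun ψ hψ => (h.2 ψ hψ).mono (inter_subset_inter_left _ h')⟩

theorem hol_congr {𝒜 : Atlas X n} {f g : ℂ → X} {Ω : Set ℂ} (h : Hol 𝒜 f Ω) (h' : EqOn g f Ω) :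
    Hol 𝒜 g Ω :=
  ⟨h.1.congr h', fun ψ hψ => ((h.2 ψ hψ).mono fun z hz =>
    ⟨hz.1, by rw [mem_preimage, ← h' hz.1]; exact hz.2⟩).congr fun z hz => by rw [h' hz.1]⟩

theorem hol_comp {𝒜 : Atlas X n} {f : ℂ → X} (h : Hol 𝒜 f univ) {φ : ℂ → ℂ} {Ω : Set ℂ}
    (hφ : DifferentiableOn ℂ φ Ω) : Hol 𝒜 (fun z => f (φ z)) Ω :=
  ⟨h.1.comp hφ.continuousOn (mapsTo_univ _ _), fun ψ hψ =>
    (h.2 ψ hψ).comp (hφ.mono inter_subset_left) fun _ hz => ⟨mem_univ _, hz.2⟩⟩

theorem hol_const (𝒜 : Atlas X n) (x : X) (Ω : Set ℂ) : Hol 𝒜 (fun _ => x) Ω :=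
  ⟨continuousOn_const, fun _ _ => differentiableOn_const _⟩

theorem per_int {F : ℂ → X} (h : ∀ w, F (w + 2 * Real.pi * I) = F w) (k : ℤ) (w : ℂ) :
    F (w + k * (2 * Real.pi * I)) = F w :=
  (Function.Periodic.int_mul (f := F) (c := 2 * Real.pi * I) h k) w

theorem per_exp {F : ℂ → X} (h : ∀ w, F (w + 2 * Real.pi * I) = F w) {w w' : ℂ}
    (he : exp w = exp w') : F w = F w' := by
  obtain ⟨k, rfl⟩ := exp_eq_exp_iff_exists_int.1 he
  exact per_int h k w'

/-- reduction of the imaginary part to a fundamental interval -/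
theorem exists_red (w : ℂ) : ∃ k : ℤ, (w + k * (2 * Real.pi * I)).im ∈ Icc 0 (2 * Real.pi) := by
  have hp : 0 < 2 * Real.pi := by positivity
  refine ⟨-⌊w.im / (2 * Real.pi)⌋, ?_⟩
  have h1 := Int.floor_le (w.im / (2 * Real.pi))
  have h2 := Int.lt_floor_add_one (w.im / (2 * Real.pi))
  rw [le_div_iff₀ hp] at h1
  rw [div_lt_iff₀ hp] at h2
  have : (w + ((-⌊w.im / (2 * Real.pi)⌋ : ℤ) : ℂ) * (2 * Real.pi * I)).im =
      w.im - ⌊w.im / (2 * Real.pi)⌋ * (2 * Real.pi) := by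
    simp
    ring
  rw [this]
  constructor <;> linarith

theorem isCompact_rect (a b c d : ℝ) :
    IsCompact {w : ℂ | w.re ∈ Icc a b ∧ w.im ∈ Icc c d} := isCompact_Icc.reProdIm isCompact_Icc

/-- a continuous periodic map with limits at both ends is uniformly continuous -/
theorem uc_of_ends {F : ℂ → X} (hc : Continuous F) (h : ∀ w, F (w + 2 * Real.pi * I) = F w)
    {x y : X} (hx : Tendsto F (comap re atBot) (𝓝 x)) (hy : Tendsto F (comap re atTop) (𝓝 y)) :
    UniformContinuous F := by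
  refine Metric.uniformContinuous_iff.2 fun ε hε => ?_
  obtain ⟨a, ha⟩ := eventually_atBot.1 (eventually_comap.1 (hx.eventually (ball_mem_nhds x
    (half_pos hε))))
  obtain ⟨b, hb⟩ := eventually_atTop.1 (eventually_comap.1 (hy.eventually (ball_mem_nhds y
    (half_pos hε))))
  obtain ⟨δ, hδ, h1⟩ := Metric.uniformContinuousOn_iff.1
    ((isCompact_rect (a - 1) (b + 1) (-1) (2 * Real.pi + 1)).uniformContinuousOn_of_continuous
      hc.continuousOn) ε hε
  refine ⟨min δ 1, lt_min hδ one_pos, fun {w w'} hw => ?_⟩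
  have h2 : |w.re - w'.re| < 1 := by
    rw [← sub_re]
    exact (abs_re_le_norm _).trans_lt (by rw [← dist_eq_norm]; exact hw.trans_le (min_le_right _ _))
  have h3 : |w.im - w'.im| < 1 := by
    rw [← sub_im]
    exact (abs_im_le_norm _).trans_lt (by rw [← dist_eq_norm]; exact hw.trans_le (min_le_right _ _))
  rw [abs_lt] at h2 h3
  by_cases c1 : w.re ≤ a ∧ w'.re ≤ a
  · have := dist_triangle_right (F w) (F w') x
    linarith [ha _ c1.1 w rfl, ha _ c1.2 w' rfl]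
  by_cases c2 : b ≤ w.re ∧ b ≤ w'.re
  · have := dist_triangle_right (F w) (F w') y
    linarith [hb _ c2.1 w rfl, hb _ c2.2 w' rfl]
  obtain ⟨k, hk⟩ := exists_red w
  rw [← per_int h k w, ← per_int h k w']
  rw [not_and_or, not_le, not_le] at c1 c2
  have e1 : ∀ z : ℂ, (z + k * (2 * Real.pi * I)).re = z.re := fun z => by simp
  have e2 : (w' + k * (2 * Real.pi * I)).im = (w + k * (2 * Real.pi * I)).im + (w'.im - w.im) := by
    simp only [add_im]
    ring
  refine h1 _ ⟨?_, ?_⟩ _ ⟨?_, ?_⟩ (by rw [dist_add_right]; exact hw.trans_le (min_le_left _ _))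
  · rw [e1]
    constructor
    · rcases c1 with c | c <;> linarith
    · rcases c2 with c | c <;> linarith
  · exact ⟨by linarith [hk.1], by linarith [hk.2]⟩
  · rw [e1]
    constructor
    · rcases c1 with c | c <;> linarith
    · rcases c2 with c | c <;> linarith
  · rw [e2]
    exact ⟨by linarith [hk.1], by linarith [hk.2]⟩

theorem tendsto_log_zero : Tendsto (fun u : ℂ => log u) (𝓝[≠] 0) (comap re atBot) := by
  rw [tendsto_comap_iff]
  have : (re ∘ fun u : ℂ => log u) = fun u => Real.log ‖u‖ := funext fun u => log_re u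
  rw [this]
  exact Real.tendsto_log_nhdsGT_zero.comp tendsto_norm_nhdsNE_zero

theorem tendsto_log_inf : Tendsto (fun u : ℂ => log u) (cocompact ℂ) (comap re atTop) := by
  rw [tendsto_comap_iff]
  have : (re ∘ fun u : ℂ => log u) = fun u => Real.log ‖u‖ := funext fun u => log_re u
  rw [this]
  exact Real.tendsto_log_atTop.comp tendsto_norm_cocompact_atTop

theorem tendsto_exp_bot : Tendsto exp (comap re atBot) (𝓝 0) := tendsto_exp_comap_re_atBot

theorem tendsto_exp_top : Tendsto exp (comap re atTop) (cocompact ℂ) := by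
  rw [← cobounded_eq_cocompact]
  exact tendsto_exp_comap_re_atTop

/-- descent of a periodic holomorphic map with a limit at the left end -/
theorem desc {𝒜 : Atlas X n} {G : ℂ → X} (hG : Hol 𝒜 G univ)
    (h : ∀ w, G (w + 2 * Real.pi * I) = G w) {x : X} (hx : Tendsto G (comap re atBot) (𝓝 x)) :
    ∃ g : ℂ → X, Hol 𝒜 g univ ∧ g 0 = x ∧ ∀ u, u ≠ 0 → g u = G (log u) := by
  classical
  let g : ℂ → X := fun u => if u = 0 then x else G (log u)
  have g0 : g 0 = x := if_pos rfl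
  have g1 : ∀ u, u ≠ 0 → g u = G (log u) := fun u hu => if_neg hu
  have key : ∀ u0 : ℂ, u0 ≠ 0 → ∃ Ω ∈ 𝓝 u0, Hol 𝒜 g Ω := by
    intro u0 h0
    have ho : IsOpen {u : ℂ | u / u0 ∈ slitPlane} := isOpen_slitPlane.preimage (by fun_prop)
    refine ⟨_, ho.mem_nhds (by simp [div_self h0]), hol_congr (hol_comp hG
      (φ := fun u => log (u / u0) + log u0) fun u hu => ?_) fun u hu => ?_⟩
    · exact (((differentiableAt_id.div_const u0).clog hu).add_const _).differentiableWithinAt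
    · have hu0 : u / u0 ≠ 0 := slitPlane_ne_zero hu
      have hu1 : u ≠ 0 := fun h => hu0 (by simp [h])
      rw [g1 u hu1]
      refine per_exp h ?_
      rw [exp_add, exp_log hu1, exp_log hu0, exp_log h0, div_mul_cancel₀ _ h0]
  have hc : Continuous g := continuous_iff_continuousAt.2 fun u => by
    by_cases hu : u = 0
    · subst hu
      rw [← continuousWithinAt_compl_self, ContinuousWithinAt, g0]
      exact (hx.comp tendsto_log_zero).congr' (by
        filter_upwards [self_mem_nhdsWithin] with u hu using (g1 u hu).symm)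
    · obtain ⟨Ω, h1, h2⟩ := key u hu
      exact h2.1.continuousAt h1
  refine ⟨g, ⟨hc.continuousOn, fun ψ hψ => ?_⟩, g0, g1⟩
  have hd : ∀ u : ℂ, u ≠ 0 → g u ∈ ψ.source → DifferentiableAt ℂ (fun z => ψ (g z)) u := by
    intro u hu hs
    obtain ⟨Ω, h1, h2⟩ := key u hu
    exact (h2.2 ψ hψ).differentiableAt (inter_mem h1
      (hc.continuousAt.preimage_mem_nhds (ψ.open_source.mem_nhds hs)))
  rintro u ⟨-, hs⟩
  by_cases hu : u = 0
  · subst hu
    refine (analyticAt_of_differentiable_on_punctured_nhds_of_continuousAt ?_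
      ((ψ.continuousAt hs).comp hc.continuousAt)).differentiableAt.differentiableWithinAt
    filter_upwards [self_mem_nhdsWithin, mem_nhdsWithin_of_mem_nhds
      (hc.continuousAt.preimage_mem_nhds (ψ.open_source.mem_nhds hs))] with u h1 h2
    exact hd u h1 h2
  · exact (hd u hu hs).differentiableWithinAt

/-- an offset avoiding countably many reals modulo `H` -/
theorem exists_offset {S : Set ℝ} (hS : S.Countable) (H : ℝ) :
    ∃ a : ℝ, ∀ s ∈ S, ∀ j : ℤ, s ≠ a + H * j := by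
  have h1 : (image2 (fun (s : ℝ) (j : ℤ) => s - H * j) S univ).Countable :=
    hS.image2 countable_univ _
  obtain ⟨a, ha⟩ := (h1.dense_compl ℝ).nonempty
  exact ⟨a, fun s hs j h => ha ⟨s, hs, j, mem_univ _, by simp [h]⟩⟩

theorem countable_exp_preimage {S : Set ℂ} (hS : S.Countable) : (exp ⁻¹' S).Countable := by
  refine (hS.image2 (countable_univ (α := ℤ))
    fun u k => log u + k * (2 * Real.pi * I)).mono fun w hw => ?_
  obtain ⟨k, hk⟩ := exp_eq_exp_iff_exists_int.1 (exp_log (exp_ne_zero w)).symm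
  exact ⟨exp w, hw, k, mem_univ _, hk.symm⟩

/-- finitely many compact chart cores with a Lebesgue number -/
theorem exists_cores [CompactSpace X] (𝒜 : Atlas X n) :
    ∃ S : Set (Chart X n × Set X), S.Finite ∧
      (∀ p ∈ S, p.1 ∈ 𝒜.A ∧ IsCompact p.2 ∧ p.2 ⊆ p.1.source) ∧
      ∃ l > 0, ∀ x : X, ∃ p ∈ S, ball x l ⊆ p.2 := by
  have h1 : ∀ x : X, ∃ p : Chart X n × Set X, (p.1 ∈ 𝒜.A ∧ IsCompact p.2 ∧ p.2 ⊆ p.1.source) ∧
      x ∈ interior p.2 := by
    intro x
    obtain ⟨ψ, hψ, hx⟩ := 𝒜.cover x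
    obtain ⟨K, hK, h2, h3⟩ := exists_compact_subset ψ.open_source hx
    exact ⟨(ψ, K), ⟨hψ, hK, h3⟩, h2⟩
  choose p hp hx using h1
  obtain ⟨t, ht⟩ := isCompact_univ.elim_finite_subcover (fun x => interior (p x).2)
    (fun _ => isOpen_interior) fun x _ => mem_iUnion.2 ⟨x, hx x⟩
  obtain ⟨l, hl, h2⟩ := lebesgue_number_lemma_of_metric (c := fun i : t => interior (p i).2)
    isCompact_univ (fun _ => isOpen_interior) (fun x hx => by
      obtain ⟨i, hi, h⟩ := mem_iUnion₂.1 (ht hx)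
      exact mem_iUnion.2 ⟨⟨i, hi⟩, h⟩)
  refine ⟨p '' t, t.finite_toSet.image _, ?_, l, hl, fun x => ?_⟩
  · rintro _ ⟨x, -, rfl⟩
    exact hp x
  · obtain ⟨i, hi⟩ := h2 x (mem_univ _)
    exact ⟨p i, ⟨i, i.2, rfl⟩, hi.trans interior_subset⟩

/-- a square of the mesh, shrunk by `d` -/
def sq (a b H d : ℝ) (j k : ℤ) : Set ℂ :=
  {w | a + H * j + d ≤ w.re ∧ w.re ≤ a + H * j + H - d ∧
    b + H * k + d ≤ w.im ∧ w.im ≤ b + H * k + H - d}

theorem convex_sq (a b H d : ℝ) (j k : ℤ) : Convex ℝ (sq a b H d j k) :=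
  (convex_halfSpace_re_ge _).inter ((convex_halfSpace_re_le _).inter
    ((convex_halfSpace_im_ge _).inter (convex_halfSpace_im_le _)))

theorem idx_eq {a H d s t : ℝ} (hH : 0 < H) {j j' : ℤ} (h1 : a + H * j + d ≤ s)
    (h2 : s ≤ a + H * j + H - d) (h3 : a + H * j' + d ≤ t) (h4 : t ≤ a + H * j' + H - d)
    (hd : 0 < d) (h : |s - t| < d) : j = j' := by
  rw [abs_lt] at h
  have e1 : (j : ℝ) < j' + 1 := lt_of_mul_lt_mul_left (a := H) (by linarith) hH.le
  have e2 : (j' : ℝ) < j + 1 := lt_of_mul_lt_mul_left (a := H) (by linarith) hH.le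
  have e3 : j < j' + 1 := by exact_mod_cast e1
  have e4 : j' < j + 1 := by exact_mod_cast e2
  omega

theorem re_lt {w z : ℂ} {d : ℝ} (h : dist w z < d) : |w.re - z.re| < d := by
  rw [← sub_re]
  exact (abs_re_le_norm _).trans_lt (by rwa [← dist_eq_norm])

theorem im_lt {w z : ℂ} {d : ℝ} (h : dist w z < d) : |w.im - z.im| < d := by
  rw [← sub_im]
  exact (abs_im_le_norm _).trans_lt (by rwa [← dist_eq_norm])

theorem dist_le_add (w z : ℂ) : dist w z ≤ |w.re - z.re| + |w.im - z.im| := by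
  rw [dist_eq_norm, ← sub_re, ← sub_im]
  exact norm_le_abs_re_add_abs_im _

theorem exists_idx (a s : ℝ) {H : ℝ} (hH : 0 < H) : ∃ j : ℤ, a + H * j ≤ s ∧ s < a + H * j + H := by
  have h1 := Int.floor_le ((s - a) / H)
  have h2 := Int.lt_floor_add_one ((s - a) / H)
  rw [le_div_iff₀ hH] at h1
  rw [div_lt_iff₀ hH] at h2
  exact ⟨⌊(s - a) / H⌋, by linarith, by linarith⟩

theorem isClosed_grid (a : ℝ) {H : ℝ} (hH : 0 < H) : IsClosed {s : ℝ | ∃ j : ℤ, s = a + H * j} := by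
  have : {s : ℝ | ∃ j : ℤ, s = a + H * j} = (fun s => (s - a) / H) ⁻¹' range ((↑) : ℤ → ℝ) := by
    ext s
    simp only [mem_setOf_eq, mem_preimage, mem_range, eq_div_iff hH.ne']
    exact exists_congr fun j => ⟨fun h => by linarith, fun h => by linarith⟩
  rw [this]
  exact Int.isClosedEmbedding_coe_real.isClosed_range.preimage (by fun_prop)

/-- the family of caps -/
def caps (a b H d A : ℝ) (j0 : ℤ) : Set (Set ℂ) :=
  {c | c = {w | w.re ≤ a + H * j0 - d} ∨ c = {w | A + 3 ≤ w.re} ∨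
    ∃ j k : ℤ, j0 ≤ j ∧ a + H * j + H ≤ A ∧ c = sq a b H d j k}

theorem caps_shift {a b H d A : ℝ} {j0 : ℤ} {N : ℕ} (hN : H * N = 2 * Real.pi) (m : ℤ) {c : Set ℂ}
    (hc : c ∈ caps a b H d A j0) :
    (fun w => w + m * (2 * Real.pi * I)) ⁻¹' c ∈ caps a b H d A j0 := by
  have e1 : ∀ z : ℂ, (z + m * (2 * Real.pi * I)).re = z.re := fun z => by simp
  have e2 : ∀ z : ℂ, (z + m * (2 * Real.pi * I)).im = z.im + H * (m * N) := fun z => by
    rw [mul_left_comm H, hN]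
    simp
  rcases hc with rfl | rfl | ⟨j, k, h1, h2, rfl⟩
  · exact Or.inl (by ext z; simp only [mem_preimage, mem_setOf_eq, e1])
  · exact Or.inr (Or.inl (by ext z; simp only [mem_preimage, mem_setOf_eq, e1]))
  · refine Or.inr (Or.inr ⟨j, k - m * N, h1, h2, ?_⟩)
    ext z
    simp only [sq, mem_preimage, mem_setOf_eq, e1, e2, Int.cast_sub, Int.cast_mul,
      Int.cast_natCast, mul_sub]
    exact and_congr Iff.rfl (and_congr Iff.rfl (and_congr
      ⟨fun h => by linarith, fun h => by linarith⟩ ⟨fun h => by linarith, fun h => by linarith⟩))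

theorem caps_per {a b H d A : ℝ} {j0 : ℤ} {N : ℕ} (hN : H * N = 2 * Real.pi) (c : Set ℂ) :
    c ∈ caps a b H d A j0 ↔ (fun w => w + 2 * Real.pi * I) ⁻¹' c ∈ caps a b H d A j0 := by
  refine ⟨fun h => by simpa using caps_shift hN 1 h, fun h => ?_⟩
  have h1 := caps_shift hN (-1) h
  rw [preimage_preimage] at h1
  simpa using h1

theorem caps_sep {a b H d A : ℝ} {j0 : ℤ} (hH : 0 < H) (hd : 0 < d) (hd1 : d ≤ 1)
    (h0 : a + H * j0 ≤ A) : ∀ c ∈ caps a b H d A j0, ∀ c' ∈ caps a b H d A j0, ∀ z ∈ c, ∀ z' ∈ c',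
      dist z z' < d → c = c' := by
  have hm : ∀ j : ℤ, j0 ≤ j → H * j0 ≤ H * j := fun j h =>
    mul_le_mul_of_nonneg_left (by exact_mod_cast h) hH.le
  intro c hc c' hc' z hz z' hz' h
  have h1 := re_lt h
  have h2 := im_lt h
  have h3 := abs_lt.1 h1
  rcases hc with rfl | rfl | ⟨j, k, e1, e2, rfl⟩ <;>
    rcases hc' with rfl | rfl | ⟨j', k', e3, e4, rfl⟩
  · rfl
  · simp only [mem_setOf_eq] at hz hz'
    linarith
  · simp only [mem_setOf_eq] at hz
    linarith [hz'.1, hm j' e3]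
  · simp only [mem_setOf_eq] at hz hz'
    linarith
  · rfl
  · simp only [mem_setOf_eq] at hz
    linarith [hz'.2.1]
  · simp only [mem_setOf_eq] at hz'
    linarith [hz.1, hm j e1]
  · simp only [mem_setOf_eq] at hz'
    linarith [hz.2.1]
  · rw [idx_eq hH hz.1 hz.2.1 hz'.1 hz'.2.1 hd h1,
      idx_eq hH hz.2.2.1 hz.2.2.2 hz'.2.2.1 hz'.2.2.2 hd h2]

/-- a point outside the caps is close to a line of the mesh -/
theorem near_line {a b H d A : ℝ} {j0 : ℤ} (hH : 0 < H) (hH1 : H ≤ 1) (hd : 0 < d) (hd1 : d ≤ 1)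
    {w : ℂ} (hw : ∀ c ∈ caps a b H d A j0, w ∉ c) :
    ∃ z : ℂ, dist w z ≤ d ∧ z.re ∈ Icc (a + H * j0 - 2) (A + 5) ∧
      ((∃ j : ℤ, z.re = a + H * j) ∨ (∃ k : ℤ, z.im = b + H * k) ∨ A - 1 ≤ z.re) := by
  have h1 : a + H * j0 - d < w.re := not_le.1 (hw _ (Or.inl rfl))
  have h2 : w.re < A + 3 := not_le.1 (hw _ (Or.inr (Or.inl rfl)))
  have hre : ∀ j : ℤ, |w.re - (a + H * j)| ≤ d → ∃ z : ℂ, dist w z ≤ d ∧
      z.re ∈ Icc (a + H * j0 - 2) (A + 5) ∧
      ((∃ j : ℤ, z.re = a + H * j) ∨ (∃ k : ℤ, z.im = b + H * k) ∨ A - 1 ≤ z.re) := by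
    intro j h
    refine ⟨⟨a + H * j, w.im⟩, (dist_le_add _ _).trans (by simpa using h), ?_, Or.inl ⟨j, rfl⟩⟩
    rw [abs_le] at h
    exact ⟨by simp only; linarith, by simp only; linarith⟩
  have him : ∀ k : ℤ, |w.im - (b + H * k)| ≤ d → ∃ z : ℂ, dist w z ≤ d ∧
      z.re ∈ Icc (a + H * j0 - 2) (A + 5) ∧
      ((∃ j : ℤ, z.re = a + H * j) ∨ (∃ k : ℤ, z.im = b + H * k) ∨ A - 1 ≤ z.re) := by
    intro k h
    exact ⟨⟨w.re, b + H * k⟩, (dist_le_add _ _).trans (by simpa using h),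
      ⟨by simp only; linarith, by simp only; linarith⟩, Or.inr (Or.inl ⟨k, rfl⟩)⟩
  by_cases c0 : A - 1 ≤ w.re
  · exact ⟨w, by simpa using hd.le, ⟨by linarith, by linarith⟩, Or.inr (Or.inr c0)⟩
  obtain ⟨j, j1, j2⟩ := exists_idx a w.re hH
  obtain ⟨k, k1, k2⟩ := exists_idx b w.im hH
  by_cases c1 : j0 ≤ j
  · have h3 := hw _ (Or.inr (Or.inr ⟨j, k, c1, by linarith, rfl⟩))
    simp only [sq, mem_setOf_eq, not_and_or, not_le] at h3
    rcases h3 with h | h | h | h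
    · exact hre j (abs_le.2 ⟨by linarith, by linarith⟩)
    · exact hre (j + 1) (abs_le.2 ⟨by push_cast; linarith, by push_cast; linarith⟩)
    · exact him k (abs_le.2 ⟨by linarith, by linarith⟩)
    · exact him (k + 1) (abs_le.2 ⟨by push_cast; linarith, by push_cast; linarith⟩)
  · have h3 : ((j : ℝ) + 1) ≤ j0 := by exact_mod_cast not_le.1 c1
    have h4 := mul_le_mul_of_nonneg_left h3 hH.le
    exact hre j0 (abs_le.2 ⟨by linarith, by linarith⟩)

/-- caps for a map that is good off a countable set -/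
theorem mesh [CompactSpace X] (𝒜 : Atlas X n) (hB : IsOpen (Good 𝒜)) {f0 : ℂ → X} {x y : X}
    {A : ℝ} (hc : Continuous f0) (hper : ∀ w, f0 (w + 2 * Real.pi * I) = f0 w)
    (hx : Tendsto f0 (comap re atBot) (𝓝 x)) (hy : ∀ w : ℂ, A + 1 ≤ w.re → f0 w = y)
    (hol : Hol 𝒜 f0 {w | w.re < A}) (hg : ∀ w : ℂ, A - 1 ≤ w.re → f0 w ∈ Good 𝒜)
    (hbad : {w | f0 w ∉ Good 𝒜}.Countable) :
    ∃ 𝒞 d0, Caps 𝒜 f0 𝒞 d0 ∧ Per f0 𝒞 (2 * Real.pi * I) ∧ (∃ a, {w : ℂ | w.re ≤ a} ∈ 𝒞) ∧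
      {w : ℂ | A + 3 ≤ w.re} ∈ 𝒞 := by
  have hy' : Tendsto f0 (comap re atTop) (𝓝 y) := tendsto_const_nhds.congr' (by
    filter_upwards [preimage_mem_comap (mem_atTop (A + 1))] with w hw using (hy w hw).symm)
  have uc := uc_of_ends hc hper hx hy'
  obtain ⟨S, hS, hS', l, hl, hcov⟩ := exists_cores 𝒜
  obtain ⟨ρ, hρ, hρ'⟩ := Metric.uniformContinuous_iff.1 uc l hl
  have hm : 0 < min 1 (ρ / 4) := lt_min one_pos (by positivity)
  obtain ⟨N, hN⟩ := exists_nat_gt (2 * Real.pi / min 1 (ρ / 4))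
  have hN0 : (0 : ℝ) < N := lt_trans (by positivity) hN
  obtain ⟨H, hH, hHm, hHN⟩ : ∃ H : ℝ, 0 < H ∧ H ≤ min 1 (ρ / 4) ∧ H * N = 2 * Real.pi := by
    refine ⟨2 * Real.pi / N, by positivity, ?_, div_mul_cancel₀ _ hN0.ne'⟩
    rw [div_lt_iff₀ hm] at hN
    rw [div_le_iff₀ hN0]
    linarith
  have hH1 : H ≤ 1 := hHm.trans (min_le_left _ _)
  have hH2 : H ≤ ρ / 4 := hHm.trans (min_le_right _ _)
  obtain ⟨a, ha⟩ := exists_offset (hbad.image re) H
  obtain ⟨b, hb⟩ := exists_offset (hbad.image im) H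
  obtain ⟨L, hL⟩ := eventually_atBot.1 (eventually_comap.1 (hx.eventually (ball_mem_nhds x hl)))
  obtain ⟨j0, hj0, -⟩ := exists_idx a (min L A) hH
  have hjL : a + H * j0 ≤ L := hj0.trans (min_le_left _ _)
  have hjA : a + H * j0 ≤ A := hj0.trans (min_le_right _ _)
  let T : Set ℂ := {z | (∃ j : ℤ, z.re = a + H * j) ∨ (∃ k : ℤ, z.im = b + H * k) ∨ A - 1 ≤ z.re}
  have hT : IsClosed T := ((isClosed_grid a hH).preimage continuous_re).union
    (((isClosed_grid b hH).preimage continuous_im).union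
      (isClosed_le continuous_const continuous_re))
  have hK := ((isCompact_rect (a + H * j0 - 2) (A + 5) 0 (2 * Real.pi)).inter_right hT).image hc
  set K0 := f0 '' ({w : ℂ | w.re ∈ Icc (a + H * j0 - 2) (A + 5) ∧ w.im ∈ Icc 0 (2 * Real.pi)} ∩ T)
  have hKG : K0 ⊆ Good 𝒜 := by
    rintro _ ⟨z, ⟨-, hz⟩, rfl⟩
    by_contra h
    rcases hz with ⟨j, hj⟩ | ⟨k, hk⟩ | hz
    · exact ha _ ⟨z, h, rfl⟩ j hj
    · exact hb _ ⟨z, h, rfl⟩ k hk
    · exact h (hg z hz)
  have hKm : ∀ z : ℂ, z.re ∈ Icc (a + H * j0 - 2) (A + 5) → z ∈ T → f0 z ∈ K0 := by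
    intro z h1 h2
    obtain ⟨m, hm⟩ := exists_red z
    have e1 : (z + m * (2 * Real.pi * I)).re = z.re := by simp
    have e2 : (z + m * (2 * Real.pi * I)).im = z.im + H * (m * N) := by
      rw [mul_left_comm H, hHN]
      simp
    refine ⟨_, ⟨⟨by rwa [e1], hm⟩, ?_⟩, per_int hper m z⟩
    rcases h2 with h | ⟨k, hk⟩ | h
    · exact Or.inl (by rwa [e1])
    · exact Or.inr (Or.inl ⟨k + m * N, by rw [e2, hk]; push_cast; ring⟩)
    · exact Or.inr (Or.inr (by rwa [e1]))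
  obtain ⟨δ, hδ, hδ'⟩ := hK.exists_cthickening_subset_open hB hKG
  obtain ⟨d1, hd1, hd1'⟩ := Metric.uniformContinuous_iff.1 uc δ hδ
  obtain ⟨d, hd, hdH, hdd⟩ : ∃ d : ℝ, 0 < d ∧ d ≤ H ∧ d < d1 :=
    ⟨min H (d1 / 2), lt_min hH (half_pos hd1), min_le_left _ _,
      (min_le_right _ _).trans_lt (half_lt_self hd1)⟩
  have hd' : d ≤ 1 := hdH.trans hH1
  have tL : ∀ w ∈ thickening d {w : ℂ | w.re ≤ a + H * j0 - d}, w.re < a + H * j0 := by
    intro w hw
    obtain ⟨z, hz, h⟩ := mem_thickening_iff.1 hw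
    simp only [mem_setOf_eq] at hz
    linarith [(abs_lt.1 (re_lt h)).2]
  have tR : ∀ w ∈ thickening d {w : ℂ | A + 3 ≤ w.re}, A + 1 ≤ w.re := by
    intro w hw
    obtain ⟨z, hz, h⟩ := mem_thickening_iff.1 hw
    simp only [mem_setOf_eq] at hz
    linarith [(abs_lt.1 (re_lt h)).1]
  refine ⟨caps a b H d A j0, d, ⟨uc, hd, ?_, caps_sep hH hd hd' hjA, ?_, ⟨S, hS, hS', ?_⟩,
    ⟨cthickening δ K0, isClosed_cthickening.isCompact, hδ', fun w hw => ?_⟩⟩,
    ⟨hper, caps_per hHN⟩, ⟨_, Or.inl rfl⟩, Or.inr (Or.inl rfl)⟩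
  · rintro c (rfl | rfl | ⟨j, k, -, -, rfl⟩)
    · exact convex_halfSpace_re_le _
    · exact convex_halfSpace_re_ge _
    · exact convex_sq _ _ _ _ _ _
  · rintro c (rfl | rfl | ⟨j, k, -, e, rfl⟩)
    · exact hol_mono hol fun w hw => (tL w hw).trans_le hjA
    · exact hol_congr (hol_const 𝒜 y _) fun w hw => hy w (tR w hw)
    · refine hol_mono hol fun w hw => ?_
      obtain ⟨z, hz, h⟩ := mem_thickening_iff.1 hw
      simp only [mem_setOf_eq]
      linarith [(abs_lt.1 (re_lt h)).2, hz.2.1]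
  · rintro c (rfl | rfl | ⟨j, k, -, e, rfl⟩)
    · obtain ⟨p, hp, h⟩ := hcov x
      exact ⟨p, hp, fun w hw => h (hL _ ((tL w hw).le.trans hjL) w rfl)⟩
    · obtain ⟨p, hp, h⟩ := hcov y
      exact ⟨p, hp, fun w hw => h (by rw [hy w (tR w hw)]; exact mem_ball_self hl)⟩
    · obtain ⟨p, hp, h⟩ := hcov (f0 ⟨a + H * j, b + H * k⟩)
      refine ⟨p, hp, fun w hw => h (hρ' ?_)⟩
      obtain ⟨z, hz, h1⟩ := mem_thickening_iff.1 hw
      have h2 := dist_le_add z ⟨a + H * j, b + H * k⟩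
      have h3 : |z.re - (a + H * j)| ≤ H := abs_le.2 ⟨by linarith [hz.1], by linarith [hz.2.1]⟩
      have h4 : |z.im - (b + H * k)| ≤ H :=
        abs_le.2 ⟨by linarith [hz.2.2.1], by linarith [hz.2.2.2]⟩
      have h5 := dist_triangle w z ⟨a + H * j, b + H * k⟩
      simp only at h2
      linarith
  · obtain ⟨z, h1, h2, h3⟩ := near_line hH hH1 hd hd' hw
    exact mem_cthickening_of_dist_le _ _ _ _ (hKm z h2 h3) (hd1' (h1.trans_lt hdd)).le

/-- LP: a holomorphic curve that is good off a countable set and at infinity can be moved, keeping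
its value at `0`, so that its value at infinity is any nearby point -/
theorem lp (hA : St_Atr) [CompactSpace X] (𝒜 : Atlas X n) (hB : IsOpen (Good 𝒜)) {f : ℂ → X}
    {y : X} (hf : Hol 𝒜 f univ) (hy : Tendsto f (cocompact ℂ) (𝓝 y)) (hyB : y ∈ Good 𝒜)
    (hbad : {u | f u ∉ Good 𝒜}.Countable) :
    ∀ᶠ y' in 𝓝 y, ∃ g : ℂ → X, Hol 𝒜 g univ ∧ g 0 = f 0 ∧ Tendsto g (cocompact ℂ) (𝓝 y') := by
  have hfc : Continuous f := continuousOn_univ.1 hf.1
  obtain ⟨ψ, -, hs⟩ := 𝒜.cover y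
  obtain ⟨r, hr, hr'⟩ := Metric.mem_nhds_iff.1 (inter_mem (ψ.open_target.mem_nhds (ψ.map_source hs))
    ((ψ.continuousAt_symm (ψ.map_source hs)).preimage_mem_nhds
      (hB.mem_nhds (by rwa [ψ.left_inv hs]))))
  have hN : ψ.source ∩ ψ ⁻¹' ball (ψ y) r ∈ 𝓝 y := inter_mem (ψ.open_source.mem_nhds hs)
    ((ψ.continuousAt hs).preimage_mem_nhds (ball_mem_nhds _ hr))
  obtain ⟨A0, hA0⟩ := eventually_atTop.1 (eventually_comap.1
    ((hy.comp tendsto_exp_top).eventually hN))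
  filter_upwards [hN] with y' hy'
  obtain ⟨A, rfl⟩ : ∃ A, A0 = A - 1 := ⟨A0 + 1, by ring⟩
  let m : ℂ → ℂ := fun w => (max w.re A : ℝ) + w.im * I
  let t : ℂ → ℝ := fun w => max 0 (min 1 (w.re - A))
  have hm : Continuous m := by fun_prop
  have ht : Continuous t := by fun_prop
  have hmN : ∀ w, f (exp (m w)) ∈ ψ.source ∩ ψ ⁻¹' ball (ψ y) r := fun w =>
    hA0 (m w).re (by simp [m]) _ rfl
  let p : ℂ → E n := fun w => (1 - t w) • ψ (f (exp (m w))) + t w • ψ y'
  have hp : Continuous p := by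
    have h1 : Continuous fun w => ψ (f (exp (m w))) :=
      ψ.continuousOn.comp_continuous (by fun_prop) fun w => (hmN w).1
    exact ((continuous_const.sub ht).smul h1).add (ht.smul continuous_const)
  have ht0 : ∀ w, 0 ≤ t w := fun w => le_max_left _ _
  have ht1 : ∀ w, t w ≤ 1 := fun w => max_le zero_le_one (min_le_left _ _)
  have hpb : ∀ w, p w ∈ ball (ψ y) r := fun w =>
    convex_ball _ _ (hmN w).2 hy'.2 (sub_nonneg.2 (ht1 w)) (ht0 w) (by ring)
  have hh : Continuous fun w => ψ.symm (p w) :=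
    ψ.continuousOn_symm.comp_continuous hp fun w => (hr' (hpb w)).1
  classical
  let f0 : ℂ → X := fun w => if w.re ≤ A then f (exp w) else ψ.symm (p w)
  have f1 : ∀ w : ℂ, w.re ≤ A → f0 w = f (exp w) := fun w h => if_pos h
  have f2 : ∀ w : ℂ, ¬ w.re ≤ A → f0 w = ψ.symm (p w) := fun w h => if_neg h
  have hc : Continuous f0 := by
    refine Continuous.if_le (by fun_prop) hh continuous_re continuous_const fun w hw => ?_
    have e1 : m w = w := by simp only [m, ← hw, max_self, re_add_im]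
    have e2 : t w = 0 := by simp [t, hw]
    have e3 := ψ.left_inv (hmN w).1
    rw [e1] at e3
    simp only [p, e2, sub_zero, one_smul, zero_smul, add_zero, e1, e3]
  have hper : ∀ w, f0 (w + 2 * Real.pi * I) = f0 w := by
    intro w
    have e1 : (w + 2 * Real.pi * I).re = w.re := by simp
    have e2 : m (w + 2 * Real.pi * I) = m w + 2 * Real.pi * I := by
      simp only [m, e1]
      simp
      ring
    simp only [f0, p, t, e1, e2, exp_add, exp_two_pi_mul_I, mul_one]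
  have hx : Tendsto f0 (comap re atBot) (𝓝 (f 0)) :=
    (hfc.continuousAt.tendsto.comp tendsto_exp_bot).congr' (by
      filter_upwards [preimage_mem_comap (mem_atBot A)] with w hw using (f1 w hw).symm)
  have hr1 : ∀ w : ℂ, A + 1 ≤ w.re → f0 w = y' := by
    intro w hw
    have e2 : t w = 1 := by
      simp only [t]
      rw [min_eq_left (by linarith), max_eq_right zero_le_one]
    rw [f2 w (by linarith)]
    simp only [p, e2, sub_self, zero_smul, one_smul, zero_add, ψ.left_inv hy'.1]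
  have hg2 : ∀ w : ℂ, ¬ w.re ≤ A → f0 w ∈ Good 𝒜 := fun w h => by
    rw [f2 w h]
    exact (hr' (hpb w)).2
  obtain ⟨𝒞, d0, hC, hP, ⟨a, ha⟩, hb⟩ := mesh 𝒜 hB (A := A) hc hper hx hr1
    (hol_congr (hol_comp hf differentiable_exp.differentiableOn) fun w hw => f1 w (le_of_lt hw))
    (fun w hw => by
      by_cases h : w.re ≤ A
      · have h1 := hA0 _ hw w rfl
        have h2 := (hr' h1.2).2
        rw [mem_preimage, ψ.left_inv h1.1] at h2
        rw [f1 w h]
        exact h2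
      · exact hg2 w h)
    ((countable_exp_preimage hbad).mono fun w hw => by
      have h : w.re ≤ A := by_contra fun h => hw (hg2 w h)
      rw [mem_setOf_eq, f1 w h] at hw
      exact hw)
  obtain ⟨G, hG, hn, hGp, -⟩ := hA n X 𝒜 f0 𝒞 d0 hC 1 1 one_pos one_pos
  obtain ⟨g, g1, g2, g3⟩ := desc hG (hGp hP) (hn.left a _ ha hx)
  refine ⟨g, g1, g2, ?_⟩
  have h1 := hn.right _ y' hb (tendsto_const_nhds.congr' (by
    filter_upwards [preimage_mem_comap (mem_atTop (A + 1))] with w hw using (hr1 w hw).symm))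
  refine (h1.comp tendsto_log_inf).congr' ?_
  filter_upwards [isCompact_singleton.compl_mem_cocompact (s := {(0 : ℂ)})] with u hu
  exact (g3 u hu).symm

end Pool.Agent.Lib.RC.Lp
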