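import Mathlib

/-! The ultrapower of the complex numbers, its ring of finite elements and the standard part. -/

open Filter Topology

noncomputable section

namespace Pool.Agent.RC.Ult

variable {I : Type}

/-- the ultrapower of `ℂ` along `U` -/
def K (U : Ultrafilter I) : Type := Germ (U : Filter I) ℂ

instance (U : Ultrafilter I) : Field (K U) := inferInstanceAs (Field (Germ (U : Filter I) ℂ))

/-- the class of a family of complex numbers -/
def mk (U : Ultrafilter I) : (I → ℂ) →+* K U := Germ.coeRingHom (U : Filter I)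

instance (U : Ultrafilter I) : Algebra ℂ (K U) := ((mk U).comp (Pi.constRingHom I ℂ)).toAlgebra

instance (U : Ultrafilter I) : Algebra ℝ (K U) :=
  ((algebraMap ℂ (K U)).comp (algebraMap ℝ ℂ)).toAlgebra

instance (U : Ultrafilter I) : IsScalarTower ℝ ℂ (K U) :=
  IsScalarTower.of_algebraMap_eq fun _ => rfl

instance (U : Ultrafilter I) : CharZero (K U) :=
  charZero_of_injective_algebraMap (algebraMap ℂ (K U)).injective

variable {U : Ultrafilter I}

theorem algebraMap_eq (c : ℂ) : algebraMap ℂ (K U) c = mk U fun _ => c := rfl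

theorem algebraMap_real (c : ℝ) : algebraMap ℝ (K U) c = mk U fun _ => (c : ℂ) := rfl

theorem mk_surj (x : K U) : ∃ f, mk U f = x := Germ.inductionOn x fun f => ⟨f, rfl⟩

theorem mk_eq {f g : I → ℂ} : mk U f = mk U g ↔ ∀ᶠ i in U, f i = g i := Germ.coe_eq

theorem mk_eq_zero {f : I → ℂ} : mk U f = 0 ↔ ∀ᶠ i in U, f i = 0 := by
  rw [← map_zero (mk U), mk_eq]
  rfl

theorem mk_ne_zero {f : I → ℂ} : mk U f ≠ 0 ↔ ∀ᶠ i in U, f i ≠ 0 := by
  rw [Ne, mk_eq_zero, Ultrafilter.eventually_not]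

theorem mk_inv (f : I → ℂ) : (mk U f)⁻¹ = mk U fun i => (f i)⁻¹ := rfl

theorem mk_div (f g : I → ℂ) : mk U f / mk U g = mk U fun i => f i / g i := rfl

/-- polynomial expressions are computed componentwise, coefficients sent by varying maps -/
theorem eval₂_mk {R σ : Type*} [CommRing R] (τ : I → R →+* ℂ) (f : σ → I → ℂ)
    (P : MvPolynomial σ R) :
    MvPolynomial.eval₂ ((mk U).comp (Pi.ringHom τ)) (fun j => mk U (f j)) P =
      mk U fun i => MvPolynomial.eval₂ (τ i) (fun j => f j i) P := by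
  induction P using MvPolynomial.induction_on with
  | C a => simp only [MvPolynomial.eval₂_C]; rfl
  | add p q hp hq => simp only [MvPolynomial.eval₂_add, hp, hq, ← map_add]; rfl
  | mul_X p j hp => simp only [MvPolynomial.eval₂_mul, MvPolynomial.eval₂_X, hp, ← map_mul]; rfl

theorem aeval_mk {σ : Type*} (f : σ → I → ℂ) (P : MvPolynomial σ ℂ) :
    MvPolynomial.aeval (fun j => mk U (f j)) P =
      mk U fun i => MvPolynomial.aeval (fun j => f j i) P :=
  eval₂_mk (fun _ => RingHom.id ℂ) f P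

theorem aeval_mk_real {σ : Type*} (f : σ → I → ℂ) (P : MvPolynomial σ ℝ) :
    MvPolynomial.aeval (fun j => mk U (f j)) P =
      mk U fun i => MvPolynomial.aeval (fun j => f j i) P :=
  eval₂_mk (fun _ => algebraMap ℝ ℂ) f P

theorem eval₂_mk_poly {R : Type*} [CommRing R] (τ : I → R →+* ℂ) (f : I → ℂ) (P : Polynomial R) :
    Polynomial.eval₂ ((mk U).comp (Pi.ringHom τ)) (mk U f) P =
      mk U fun i => Polynomial.eval₂ (τ i) (f i) P := by
  induction P using Polynomial.induction_on' with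
  | add p q hp hq => simp only [Polynomial.eval₂_add, hp, hq, ← map_add]; rfl
  | monomial n a => simp only [Polynomial.eval₂_monomial, ← map_pow]; rfl

instance (U : Ultrafilter I) : IsAlgClosed (K U) := by
  refine IsAlgClosed.of_exists_root _ fun p hm hi => ?_
  choose f hf using fun j => mk_surj (p.coeff j)
  have hd : p.natDegree ≠ 0 := hi.natDegree_pos.ne'
  have h1 : ∀ i, ∃ r : ℂ, r ^ p.natDegree + ∑ j ∈ Finset.range p.natDegree, f j i * r ^ j = 0 := by
    intro i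
    have h2 : (∑ j : Fin p.natDegree, Polynomial.C (f j i) * Polynomial.X ^ (j : ℕ)).degree <
        (Polynomial.X ^ p.natDegree : Polynomial ℂ).degree := by
      rw [Polynomial.degree_X_pow]
      exact Polynomial.degree_sum_fin_lt _
    obtain ⟨r, hr⟩ := IsAlgClosed.exists_root (Polynomial.X ^ p.natDegree +
      ∑ j : Fin p.natDegree, Polynomial.C (f j i) * Polynomial.X ^ (j : ℕ)) (by
        rw [Polynomial.degree_add_eq_left_of_degree_lt h2, Polynomial.degree_X_pow]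
        exact_mod_cast hd)
    refine ⟨r, ?_⟩
    rw [Finset.sum_range]
    simpa [Polynomial.eval_finset_sum] using hr
  choose r hr using h1
  refine ⟨mk U r, ?_⟩
  rw [hm.as_sum]
  simp only [Polynomial.eval_add, Polynomial.eval_pow, Polynomial.eval_X,
    Polynomial.eval_finset_sum, Polynomial.eval_mul, Polynomial.eval_C, ← hf, ← map_pow,
    ← map_mul, ← map_sum, ← map_add]
  exact mk_eq_zero.2 (Eventually.of_forall fun i => by simpa [Finset.sum_apply] using hr i)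

/-- `a` is the limit of `x` -/
def Lim (x : K U) (a : ℂ) : Prop := ∃ f, mk U f = x ∧ Tendsto f U (𝓝 a)

theorem lim_mk {f : I → ℂ} {a : ℂ} : Lim (mk U f) a ↔ Tendsto f U (𝓝 a) :=
  ⟨fun ⟨_, h1, h2⟩ => h2.congr' (mk_eq.1 h1), fun h => ⟨f, rfl, h⟩⟩

theorem Lim.unique {x : K U} {a b : ℂ} (ha : Lim x a) (hb : Lim x b) : a = b := by
  obtain ⟨f, rfl⟩ := mk_surj x
  exact tendsto_nhds_unique (lim_mk.1 ha) (lim_mk.1 hb)

theorem lim_const (c : ℂ) : Lim (algebraMap ℂ (K U) c) c := lim_mk.2 tendsto_const_nhds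

theorem Lim.add {x y : K U} {a b : ℂ} (ha : Lim x a) (hb : Lim y b) : Lim (x + y) (a + b) := by
  obtain ⟨f, rfl, hf⟩ := ha
  obtain ⟨g, rfl, hg⟩ := hb
  exact ⟨f + g, map_add _ _ _, hf.add hg⟩

theorem Lim.mul {x y : K U} {a b : ℂ} (ha : Lim x a) (hb : Lim y b) : Lim (x * y) (a * b) := by
  obtain ⟨f, rfl, hf⟩ := ha
  obtain ⟨g, rfl, hg⟩ := hb
  exact ⟨f * g, map_mul _ _ _, hf.mul hg⟩

theorem Lim.neg {x : K U} {a : ℂ} (ha : Lim x a) : Lim (-x) (-a) := by
  obtain ⟨f, rfl, hf⟩ := ha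
  exact ⟨-f, map_neg _ _, hf.neg⟩

theorem Lim.inv {x : K U} {a : ℂ} (ha : Lim x a) (h0 : a ≠ 0) : Lim x⁻¹ a⁻¹ := by
  obtain ⟨f, rfl, hf⟩ := ha
  exact ⟨_, (mk_inv f).symm, hf.inv₀ h0⟩

theorem Lim.ne_zero {x : K U} {a : ℂ} (ha : Lim x a) (h0 : a ≠ 0) : x ≠ 0 := by
  rintro rfl
  exact h0 (ha.unique (by simpa using lim_const (U := U) 0))

theorem lim_of_bdd {f : I → ℂ} {M : ℝ} (h : ∀ᶠ i in U, ‖f i‖ ≤ M) : ∃ a, Lim (mk U f) a := by
  obtain ⟨a, -, ha⟩ := (isCompact_closedBall (0 : ℂ) M).ultrafilter_le_nhds (U.map f)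
    (le_principal_iff.2 (by
      rw [Ultrafilter.coe_map, mem_map]
      filter_upwards [h] with i hi using by simpa using hi))
  exact ⟨a, lim_mk.2 ha⟩

/-- the valuation ring of finite elements -/
def O (U : Ultrafilter I) : ValuationSubring (K U) where
  carrier := {x | ∃ a, Lim x a}
  mul_mem' := fun ⟨_, ha⟩ ⟨_, hb⟩ => ⟨_, ha.mul hb⟩
  one_mem' := ⟨1, by simpa using lim_const (U := U) 1⟩
  add_mem' := fun ⟨_, ha⟩ ⟨_, hb⟩ => ⟨_, ha.add hb⟩
  zero_mem' := ⟨0, by simpa using lim_const (U := U) 0⟩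
  neg_mem' := fun ⟨_, ha⟩ => ⟨_, ha.neg⟩
  mem_or_inv_mem' := fun x => by
    obtain ⟨f, rfl⟩ := mk_surj x
    rcases U.em fun i => ‖f i‖ ≤ 1 with h | h
    · exact Or.inl (lim_of_bdd h)
    · refine Or.inr (lim_of_bdd (f := fun i => (f i)⁻¹) (M := 1) ?_)
      filter_upwards [h] with i hi
      rw [norm_inv]
      exact inv_le_one_of_one_le₀ (not_le.1 hi).le

theorem mem_O {x : K U} : x ∈ O U ↔ ∃ a, Lim x a := Iff.rfl

theorem mk_mem_O {f : I → ℂ} : mk U f ∈ O U ↔ ∃ a, Tendsto f U (𝓝 a) :=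
  exists_congr fun _ => lim_mk

theorem const_mem_O (c : ℂ) : algebraMap ℂ (K U) c ∈ O U := ⟨c, lim_const c⟩

theorem real_mem_O (c : ℝ) : algebraMap ℝ (K U) c ∈ O U := const_mem_O (c : ℂ)

/-- the standard part -/
def st (U : Ultrafilter I) : O U →+* ℂ where
  toFun x := x.2.choose
  map_one' := (1 : O U).2.choose_spec.unique (by simpa using lim_const (U := U) 1)
  map_mul' x y := (x * y).2.choose_spec.unique (x.2.choose_spec.mul y.2.choose_spec)
  map_zero' := (0 : O U).2.choose_spec.unique (by simpa using lim_const (U := U) 0)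
  map_add' x y := (x + y).2.choose_spec.unique (x.2.choose_spec.add y.2.choose_spec)

theorem lim_st (x : O U) : Lim (x : K U) (st U x) := x.2.choose_spec

theorem st_eq_iff {x : O U} {a : ℂ} : st U x = a ↔ Lim (x : K U) a :=
  ⟨fun h => h ▸ lim_st x, fun h => (lim_st x).unique h⟩

theorem st_mk {f : I → ℂ} {a : ℂ} (h : mk U f ∈ O U) :
    st U ⟨mk U f, h⟩ = a ↔ Tendsto f U (𝓝 a) := st_eq_iff.trans lim_mk

theorem tendsto_st {f : I → ℂ} (x : O U) (h : mk U f = x) : Tendsto f U (𝓝 (st U x)) :=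
  lim_mk.1 (h ▸ lim_st x)

theorem st_const (c : ℂ) (h : algebraMap ℂ (K U) c ∈ O U) : st U ⟨_, h⟩ = c :=
  st_eq_iff.2 (lim_const c)

theorem st_real (c : ℝ) (h : algebraMap ℝ (K U) c ∈ O U) : st U ⟨_, h⟩ = c :=
  st_const (c : ℂ) h

theorem st_eq_zero_iff (x : O U) : st U x = 0 ↔ x ∈ IsLocalRing.maximalIdeal (O U) := by
  rw [IsLocalRing.mem_maximalIdeal, mem_nonunits_iff]
  refine ⟨fun h hu => (hu.map (st U)).ne_zero h, fun h => by_contra fun h0 => h ?_⟩
  exact IsUnit.of_mul_eq_one ⟨(x : K U)⁻¹, _, (lim_st x).inv h0⟩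
    (Subtype.ext (mul_inv_cancel₀ ((lim_st x).ne_zero h0)))

theorem ker_st : RingHom.ker (st U) = IsLocalRing.maximalIdeal (O U) :=
  Ideal.ext fun x => st_eq_zero_iff x

theorem st_eq_zero_iff_val (x : O U) : st U x = 0 ↔ (O U).valuation x < 1 := by
  rw [st_eq_zero_iff, ValuationSubring.valuation_lt_one_iff]

theorem O_ne_top_of {f : I → ℂ} (h : Tendsto (fun i => ‖f i‖) U atTop) : O U ≠ ⊤ := fun h0 => by
  obtain ⟨a, ha⟩ := mk_mem_O.1 (show mk U f ∈ O U from h0 ▸ ValuationSubring.mem_top _)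
  exact not_tendsto_nhds_of_tendsto_atTop h _ ha.norm

theorem O_ne_top {U : Ultrafilter ℕ} (h : (U : Filter ℕ) ≤ atTop) : O U ≠ ⊤ :=
  O_ne_top_of (f := fun n => (n : ℂ)) (by
    simpa using (tendsto_natCast_atTop_atTop (R := ℝ)).mono_left h)

theorem O_hyper_ne_top : O (hyperfilter ℕ) ≠ ⊤ := O_ne_top Nat.hyperfilter_le_atTop

/-- the embedding attached to a family of endomorphisms -/
def tau (U : Ultrafilter I) (τ : I → ℂ →+* ℂ) : ℂ →+* K U := (mk U).comp (Pi.ringHom τ)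

theorem tau_apply (τ : I → ℂ →+* ℂ) (c : ℂ) : tau U τ c = mk U fun i => τ i c := rfl

theorem tau_fixed (τ : I → ℂ →+* ℂ) {c : ℂ} (h : ∀ᶠ i in U, τ i c = c) :
    tau U τ c = algebraMap ℂ (K U) c := mk_eq.2 h

theorem lim_tau (τ : I → ℂ →+* ℂ) {c a : ℂ} :
    Lim (tau U τ c) a ↔ Tendsto (fun i => τ i c) U (𝓝 a) := lim_mk

end Pool.Agent.RC.Ult
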