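import Pool.Agent.Lib.RC.BlueA
import Pool.Agent.Lib.RC.An7c
import Pool.Agent.Lib.RC.Ult14

open Topology Filter MvPolynomial Set

noncomputable section

namespace Pool.Agent.RC.Sp

open Pool.Agent.Lib.RC Pool.Agent.RC.An

/-- Charts and overlaps given by real polynomials. -/
structure Dat (n : ℕ) where
  B : Type
  c : B → ℕ
  eqn : ∀ b, Fin (c b) → MvPolynomial (Fin (c b) ⊕ Fin n) ℝ
  L : B → B → ℕ
  ob : ∀ b g, Fin (L b g) → MvPolynomial (Fin (c b) ⊕ Fin n) ℝ
  oa : ∀ b g, Fin (L b g) → Fin (c g) ⊕ Fin n → MvPolynomial (Fin (c b) ⊕ Fin n) ℝ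

variable {n : ℕ} (M : Dat n)

/-- The variables of a chart. -/
abbrev Dat.V (b : M.B) : Type := Fin (M.c b) ⊕ Fin n

/-- The points of a chart. -/
def Dat.Z (K : Type) [CommRing K] [Algebra ℝ K] (b : M.B) : Set (M.V b → K) :=
  {p | ∀ i, aeval p (M.eqn b i) = 0}

/-- The gluing relation. -/
def Dat.Same {K : Type} [CommRing K] [Algebra ℝ K] (b g : M.B) (p : M.V b → K)
    (q : M.V g → K) : Prop :=
  ∃ l, aeval p (M.ob b g l) ≠ 0 ∧ ∀ i, q i * aeval p (M.ob b g l) = aeval p (M.oa b g l i)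

/-- What the construction of the space uses. -/
structure Dat.Ok : Prop where
  fin : Finite M.B
  ne : ∃ b, (M.Z ℂ b).Nonempty
  smooth : ∀ b, ∀ p ∈ M.Z ℂ b,
    (Matrix.of fun i j => aeval p (pderiv (Sum.inl i) (M.eqn b j))).det ≠ 0
  mem : ∀ b g l, ∀ p ∈ M.Z ℂ b, aeval p (M.ob b g l) ≠ 0 →
    (fun i => aeval p (M.oa b g l i) / aeval p (M.ob b g l)) ∈ M.Z ℂ g
  refl : ∀ b, ∀ p ∈ M.Z ℂ b, M.Same b b p p
  symm : ∀ (K : Type) [Field K] [Algebra ℝ K] b g, ∀ p ∈ M.Z K b, ∀ q ∈ M.Z K g,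
    M.Same b g p q → M.Same g b q p
  trans : ∀ (K : Type) [Field K] [Algebra ℝ K] b g h, ∀ p ∈ M.Z K b, ∀ q ∈ M.Z K g,
    ∀ r ∈ M.Z K h, M.Same b g p q → M.Same g h q r → M.Same b h p r
  inj : ∀ b, ∀ p ∈ M.Z ℂ b, ∀ q ∈ M.Z ℂ b, M.Same b b p q → p = q
  ve : ∀ (I : Type) (U : Ultrafilter I) b, ∀ p ∈ M.Z (Ult.K U) b,
    ∃ g, ∃ q ∈ M.Z (Ult.K U) g, (∀ i, q i ∈ Ult.O U) ∧ M.Same b g p q
  vu : ∀ (I : Type) (U : Ultrafilter I) b g (p : M.V b → Ult.O U) (q : M.V g → Ult.O U),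
    (fun i => (p i : Ult.K U)) ∈ M.Z (Ult.K U) b → (fun i => (q i : Ult.K U)) ∈ M.Z (Ult.K U) g →
    M.Same b g (fun i => (p i : Ult.K U)) (fun i => (q i : Ult.K U)) →
    M.Same b g (fun i => Ult.st U (p i)) (fun i => Ult.st U (q i))

variable {M}

lemma aeval_star {ι : Type} (p : ι → ℂ) (P : MvPolynomial ι ℝ) :
    aeval (star p) P = star (aeval p P) := by
  induction P using MvPolynomial.induction_on with
  | C a => simp
  | add p q hp hq => simp [hp, hq]
  | mul_X p j hp => simp [hp]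

lemma star_mem {b : M.B} {p : M.V b → ℂ} (hp : p ∈ M.Z ℂ b) : star p ∈ M.Z ℂ b := fun i => by
  rw [aeval_star, hp i, star_zero]

lemma same_star {b g : M.B} {p : M.V b → ℂ} {q : M.V g → ℂ} (h : M.Same b g p q) :
    M.Same b g (star p) (star q) := by
  obtain ⟨l, h1, h2⟩ := h
  refine ⟨l, by rwa [aeval_star, star_ne_zero], fun i => ?_⟩
  rw [aeval_star, aeval_star, ← h2 i, star_mul', Pi.star_apply]

lemma continuous_aeval {ι : Type} [Fintype ι] (P : MvPolynomial ι ℝ) :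
    Continuous fun p : ι → ℂ => aeval p P :=
  continuous_iff_continuousAt.2 fun _ => (analyticAt_aeval analyticAt_id P).continuousAt

lemma isClosed_Z (b : M.B) : IsClosed (M.Z ℂ b) := by
  have : M.Z ℂ b = ⋂ i, {p | aeval p (M.eqn b i) = 0} := by ext p; simp [Dat.Z]
  rw [this]
  exact isClosed_iInter fun i => isClosed_eq (continuous_aeval _) continuous_const

/-- The transition map on one piece of an overlap. -/
def tr (b g : M.B) (l : Fin (M.L b g)) (p : M.V b → ℂ) : M.V g → ℂ :=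
  fun i => aeval p (M.oa b g l i) / aeval p (M.ob b g l)

lemma analyticAt_tr {b g : M.B} {l : Fin (M.L b g)} {p : M.V b → ℂ}
    (h : aeval p (M.ob b g l) ≠ 0) : AnalyticAt ℂ (tr b g l) p :=
  analyticAt_pi_iff.2 fun _ =>
    (analyticAt_aeval analyticAt_id _).div (analyticAt_aeval analyticAt_id _) h

lemma same_tr {b g : M.B} {l : Fin (M.L b g)} {p : M.V b → ℂ}
    (h : aeval p (M.ob b g l) ≠ 0) : M.Same b g p (tr b g l p) :=
  ⟨l, h, fun _ => div_mul_cancel₀ _ h⟩

lemma same_iff {b g : M.B} {p : M.V b → ℂ} {q : M.V g → ℂ} :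
    M.Same b g p q ↔ ∃ l, aeval p (M.ob b g l) ≠ 0 ∧ tr b g l p = q := by
  refine exists_congr fun l => and_congr_right fun h => ?_
  rw [funext_iff]
  exact forall_congr' fun i => by rw [tr, div_eq_iff h, eq_comm]

variable (H : M.Ok)

/-- The gluing relation on the disjoint union of the charts. -/
def setoid : Setoid (Σ b, M.Z ℂ b) where
  r x y := M.Same x.1 y.1 x.2.1 y.2.1
  iseqv := ⟨fun x => H.refl _ _ x.2.2, fun {x y} h => H.symm ℂ _ _ _ x.2.2 _ y.2.2 h,
    fun {x y z} h h' => H.trans ℂ _ _ _ _ x.2.2 _ y.2.2 _ z.2.2 h h'⟩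

/-- The space of complex points. -/
def X : Type := Quotient (setoid H)

instance : TopologicalSpace (X H) := inferInstanceAs (TopologicalSpace (Quotient (setoid H)))

/-- The embedding of a chart. -/
def emb (b : M.B) (p : M.Z ℂ b) : X H := Quotient.mk (setoid H) ⟨b, p⟩

lemma emb_eq {b g : M.B} {p : M.Z ℂ b} {q : M.Z ℂ g} :
    emb H b p = emb H g q ↔ M.Same b g p.1 q.1 := Quotient.eq

lemma emb_surj (x : X H) : ∃ b p, emb H b p = x :=
  Quotient.inductionOn x fun y => ⟨y.1, y.2, rfl⟩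

instance : Nonempty (X H) := by
  obtain ⟨b, p, hp⟩ := H.ne
  exact ⟨emb H b ⟨p, hp⟩⟩

lemma isOpenEmbedding_emb (b : M.B) : IsOpenEmbedding (emb H b) := by
  refine .of_continuous_injective_isOpenMap
    (continuous_quotient_mk'.comp (continuous_sigmaMk (σ := fun b => M.Z ℂ b)))
    (fun p q h => Subtype.ext (H.inj b _ p.2 _ q.2 ((emb_eq H).1 h))) fun O hO => ?_
  refine (isOpen_coinduced (f := Quotient.mk (setoid H))).2 (isOpen_sigma_iff.2 fun g => ?_)
  rw [isOpen_iff_mem_nhds]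
  rintro q ⟨p, hp, hpq⟩
  obtain ⟨l, h1, h2⟩ := same_iff.1 ((emb_eq H).1 hpq.symm)
  obtain ⟨O', hO', rfl⟩ := isOpen_induced_iff.1 hO
  have c1 : ContinuousAt (fun r : M.Z ℂ g => tr g b l r.1) q :=
    (analyticAt_tr h1).continuousAt.comp continuousAt_subtype_val
  have c2 : ContinuousAt (fun r : M.Z ℂ g => aeval r.1 (M.ob g b l)) q :=
    ((continuous_aeval _).comp continuous_subtype_val).continuousAt
  filter_upwards [c1.eventually (hO'.mem_nhds (show tr g b l q.1 ∈ O' from h2 ▸ hp)), c2.eventually_ne h1]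
    with r r1 r2
  exact ⟨⟨tr g b l r.1, H.mem _ _ _ _ r.2 r2⟩, r1, ((emb_eq H).2 (same_tr r2)).symm⟩

open Classical in
/-- The embedding of a chart as a total function. -/
def ι (b : M.B) (p : M.V b → ℂ) : X H :=
  if h : p ∈ M.Z ℂ b then emb H b ⟨p, h⟩ else Classical.arbitrary _

/-- The domain of a chart. -/
def dom (b : M.B) : Set (X H) := range (emb H b)

open Classical in
/-- The coordinates of a chart. -/
def crd (b : M.B) (x : X H) : M.V b → ℂ :=
  if h : x ∈ dom H b then (Classical.choose h).1 else 0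

lemma ι_eq {b : M.B} {p : M.V b → ℂ} (h : p ∈ M.Z ℂ b) : ι H b p = emb H b ⟨p, h⟩ := dif_pos h

lemma ι_coe {b : M.B} (p : M.Z ℂ b) : ι H b p.1 = emb H b p := ι_eq H p.2

lemma ι_eq_iff {b g : M.B} {p : M.V b → ℂ} {q : M.V g → ℂ} (hp : p ∈ M.Z ℂ b)
    (hq : q ∈ M.Z ℂ g) : ι H b p = ι H g q ↔ M.Same b g p q := by
  rw [ι_eq H hp, ι_eq H hq, emb_eq]

lemma isOpen_dom (b : M.B) : IsOpen (dom H b) := (isOpenEmbedding_emb H b).isOpen_range

lemma ι_mem {b : M.B} {p : M.V b → ℂ} (h : p ∈ M.Z ℂ b) : ι H b p ∈ dom H b :=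
  ⟨_, (ι_eq H h).symm⟩

lemma exists_dom (x : X H) : ∃ b, x ∈ dom H b := emb_surj H x

lemma crd_emb {b : M.B} (p : M.Z ℂ b) : crd H b (emb H b p) = p.1 := by
  have h : emb H b p ∈ dom H b := ⟨p, rfl⟩
  rw [crd, dif_pos h]
  exact congrArg Subtype.val ((isOpenEmbedding_emb H b).injective (Classical.choose_spec h))

lemma crd_ι {b : M.B} {p : M.V b → ℂ} (h : p ∈ M.Z ℂ b) : crd H b (ι H b p) = p := by
  rw [ι_eq H h, crd_emb]

lemma crd_mem {b : M.B} {x : X H} (h : x ∈ dom H b) : crd H b x ∈ M.Z ℂ b := by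
  obtain ⟨p, rfl⟩ := h
  rw [crd_emb]; exact p.2

lemma ι_crd {b : M.B} {x : X H} (h : x ∈ dom H b) : ι H b (crd H b x) = x := by
  obtain ⟨p, rfl⟩ := h
  rw [crd_emb, ι_coe]

lemma continuousOn_ι (b : M.B) : ContinuousOn (ι H b) (M.Z ℂ b) := by
  rw [continuousOn_iff_continuous_domRestrict]
  exact (isOpenEmbedding_emb H b).continuous.congr fun p => (ι_coe H p).symm

lemma continuousAt_crd {b : M.B} {x : X H} (h : x ∈ dom H b) : ContinuousAt (crd H b) x := by
  obtain ⟨p, rfl⟩ := h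
  rw [← (isOpenEmbedding_emb H b).continuousAt_iff]
  exact (continuous_subtype_val.congr fun q => (crd_emb H q).symm).continuousAt

lemma continuousOn_crd (b : M.B) : ContinuousOn (crd H b) (dom H b) :=
  fun _ h => (continuousAt_crd H h).continuousWithinAt

lemma tendsto_ι {α : Type*} {l : Filter α} {b : M.B} {f : α → M.V b → ℂ} {p : M.V b → ℂ}
    (hf : ∀ᶠ a in l, f a ∈ M.Z ℂ b) (hp : p ∈ M.Z ℂ b) (h : Tendsto f l (𝓝 p)) :
    Tendsto (fun a => ι H b (f a)) l (𝓝 (ι H b p)) :=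
  (continuousOn_ι H b p hp).tendsto.comp (tendsto_nhdsWithin_iff.2 ⟨h, hf⟩)

lemma same_crd {b g : M.B} {x : X H} (hb : x ∈ dom H b) (hg : x ∈ dom H g) :
    M.Same b g (crd H b x) (crd H g x) := by
  rw [← ι_eq_iff H (crd_mem H hb) (crd_mem H hg), ι_crd H hb, ι_crd H hg]

lemma mem_dom_of_ne {b g : M.B} {l : Fin (M.L b g)} {x : X H} (hb : x ∈ dom H b)
    (h : aeval (crd H b x) (M.ob b g l) ≠ 0) :
    x ∈ dom H g ∧ crd H g x = tr b g l (crd H b x) := by
  have hm : tr b g l (crd H b x) ∈ M.Z ℂ g := H.mem _ _ _ _ (crd_mem H hb) h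
  have : x = ι H g (tr b g l (crd H b x)) := by
    rw [← (ι_eq_iff H (crd_mem H hb) hm).2 (same_tr h), ι_crd H hb]
  refine ⟨this ▸ ι_mem H hm, ?_⟩
  conv_lhs => rw [this]
  exact crd_ι H hm

lemma eventually_tr {b g : M.B} {x : X H} (hb : x ∈ dom H b) (hg : x ∈ dom H g) :
    ∃ l, aeval (crd H b x) (M.ob b g l) ≠ 0 ∧
      ∀ᶠ y in 𝓝 x, y ∈ dom H b ∧ y ∈ dom H g ∧ crd H g y = tr b g l (crd H b y) := by
  obtain ⟨l, h, -⟩ := same_crd H hb hg
  refine ⟨l, h, ?_⟩
  filter_upwards [(isOpen_dom H b).mem_nhds hb,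
    (((continuous_aeval _).continuousAt.comp (continuousAt_crd H hb))).eventually_ne h] with y h1 h2
  exact ⟨h1, mem_dom_of_ne H h1 h2⟩

section Ultra

variable {I : Type} {U : Ultrafilter I}

lemma mk_mem_Z {b : M.B} {f : I → M.V b → ℂ} :
    (fun i => Ult.mk U fun a => f a i) ∈ M.Z (Ult.K U) b ↔ ∀ᶠ a in U, f a ∈ M.Z ℂ b := by
  simp only [Dat.Z, mem_ofPred_eq, Ult.aeval_mk_real, Ult.mk_eq_zero, eventually_all]

lemma mk_same {b g : M.B} {f : I → M.V b → ℂ} {h : I → M.V g → ℂ} :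
    M.Same b g (fun i => Ult.mk U fun a => f a i) (fun i => Ult.mk U fun a => h a i) ↔
      ∀ᶠ a in U, M.Same b g (f a) (h a) := by
  simp only [Dat.Same, Ult.aeval_mk_real, Ult.mk_ne_zero, ← map_mul, Ult.mk_eq,
    Ultrafilter.eventually_exists_iff, eventually_and, eventually_all, Pi.mul_apply]

end Ultra

instance : CompactSpace (X H) := by
  have := H.fin
  refine ⟨isCompact_iff_ultrafilter_le_nhds.2 fun U _ => ?_⟩
  obtain ⟨b, hb⟩ : ∃ b, ∀ᶠ x in (U : Filter (X H)), x ∈ dom H b :=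
    Ultrafilter.eventually_exists_iff.1 (Eventually.of_forall (exists_dom H))
  obtain ⟨g, q, hq, hO, hs⟩ := H.ve _ U b _ (mk_mem_Z.2 (hb.mono fun x hx => crd_mem H hx))
  choose f hf using fun i => Ult.mk_surj (q i)
  obtain rfl : (fun i => Ult.mk U fun a => (fun a i => f i a) a i) = q := funext hf
  choose c hc using fun i => Ult.mk_mem_O.1 (hO i)
  have h1 := mk_mem_Z.1 hq
  have h2 : Tendsto (fun a i => f i a) U (𝓝 c) := tendsto_pi_nhds.2 hc
  have h3 : c ∈ M.Z ℂ g := (isClosed_Z g).mem_of_tendsto h2 h1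
  refine ⟨ι H g c, trivial, ?_⟩
  refine ((tendsto_ι H h1 h3 h2).congr' ?_ : Tendsto id _ _)
  filter_upwards [hb, h1, mk_same.1 hs] with x x1 x2 x3
  rw [← (ι_eq_iff H (crd_mem H x1) x2).2 x3, ι_crd H x1, id]

instance : T2Space (X H) := by
  rw [t2_iff_ultrafilter]
  intro x y U hx hy
  obtain ⟨b, hb⟩ := exists_dom H x
  obtain ⟨g, hg⟩ := exists_dom H y
  have eb : ∀ᶠ z in (U : Filter (X H)), z ∈ dom H b := hx ((isOpen_dom H b).mem_nhds hb)
  have eg : ∀ᶠ z in (U : Filter (X H)), z ∈ dom H g := hy ((isOpen_dom H g).mem_nhds hg)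
  have tb := tendsto_pi_nhds.1 ((continuousAt_crd H hb).tendsto.mono_left hx)
  have tg := tendsto_pi_nhds.1 ((continuousAt_crd H hg).tendsto.mono_left hy)
  have := H.vu _ U b g (fun i => ⟨_, Ult.mk_mem_O.2 ⟨_, tb i⟩⟩)
    (fun i => ⟨_, Ult.mk_mem_O.2 ⟨_, tg i⟩⟩) (mk_mem_Z.2 (eb.mono fun x hx => crd_mem H hx))
    (mk_mem_Z.2 (eg.mono fun x hx => crd_mem H hx))
    (mk_same.2 ((eb.and eg).mono fun z hz => same_crd H hz.1 hz.2))
  have e1 : (fun i => Ult.st U ⟨_, Ult.mk_mem_O.2 ⟨_, tb i⟩⟩) = crd H b x :=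
    funext fun i => Ult.st_eq_iff.2 (Ult.lim_mk.2 (tb i))
  have e2 : (fun i => Ult.st U ⟨_, Ult.mk_mem_O.2 ⟨_, tg i⟩⟩) = crd H g y :=
    funext fun i => Ult.st_eq_iff.2 (Ult.lim_mk.2 (tg i))
  rw [e1, e2, ← ι_eq_iff H (crd_mem H hb) (crd_mem H hg), ι_crd H hb, ι_crd H hg] at this
  exact this

instance : SecondCountableTopology (X H) := by
  have := H.fin
  have : ∀ b, SecondCountableTopology (dom H b) := fun b =>
    (isOpenEmbedding_emb H b).isEmbedding.toHomeomorph.symm.secondCountableTopology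
  exact TopologicalSpace.secondCountableTopology_of_countable_cover (isOpen_dom H)
    (eq_univ_of_forall fun x => mem_iUnion.2 (exists_dom H x))

instance : TopologicalSpace.MetrizableSpace (X H) := inferInstance

instance : MetricSpace (X H) := TopologicalSpace.metrizableSpaceMetric (X H)

/-- Complex conjugation. -/
def conj : X H → X H :=
  Quotient.map (sa := setoid H) (sb := setoid H) (fun x => ⟨x.1, star x.2.1, star_mem x.2.2⟩)
    fun _ _ h => same_star h

lemma conj_ι {b : M.B} {p : M.V b → ℂ} (h : p ∈ M.Z ℂ b) :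
    conj H (ι H b p) = ι H b (star p) := by
  rw [ι_eq H h, ι_eq H (star_mem h)]; rfl

lemma conj_conj (x : X H) : conj H (conj H x) = x := by
  obtain ⟨b, hb⟩ := exists_dom H x
  rw [← ι_crd H hb, conj_ι H (crd_mem H hb), conj_ι H (star_mem (crd_mem H hb)), star_star]

lemma conj_mem {b : M.B} {x : X H} (h : x ∈ dom H b) : conj H x ∈ dom H b := by
  rw [← ι_crd H h, conj_ι H (crd_mem H h)]
  exact ι_mem H (star_mem (crd_mem H h))

lemma crd_conj {b : M.B} {x : X H} (h : x ∈ dom H b) :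
    crd H b (conj H x) = star (crd H b x) := by
  conv_lhs => rw [← ι_crd H h, conj_ι H (crd_mem H h), crd_ι H (star_mem (crd_mem H h))]

lemma continuous_conj : Continuous (conj H) := by
  rw [continuous_iff_continuousAt]
  intro x
  obtain ⟨b, hb⟩ := exists_dom H x
  have e : ∀ᶠ y in 𝓝 x, y ∈ dom H b := (isOpen_dom H b).mem_nhds hb
  have := tendsto_ι H (e.mono fun y hy => star_mem (crd_mem H hy)) (star_mem (crd_mem H hb))
    (continuousAt_crd H hb).star
  rw [← conj_ι H (crd_mem H hb), ι_crd H hb] at this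
  refine this.congr' (e.mono fun y hy => ?_)
  rw [← conj_ι H (crd_mem H hy), ι_crd H hy]

/-- Charts of the atlas: projections to the free coordinates with analytic inverse. -/
def IsChart (b : M.B) (ψ : Chart (X H) n) : Prop :=
  ψ.source ⊆ dom H b ∧ (∀ x ∈ ψ.source, ψ x = fun i => crd H b x (Sum.inr i)) ∧
    AnalyticOnNhd ℂ (fun y => crd H b (ψ.symm y)) ψ.target

lemma exists_chart {b : M.B} {x : X H} (h : x ∈ dom H b) :
    ∃ ψ, IsChart H b ψ ∧ x ∈ ψ.source := by
  obtain ⟨W, T, g, hW, h0, hT, hg, h1, h2⟩ := exists_graph (n := n) (Sum.inl : _ → M.V b)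
    Sum.inl_injective Sum.inr (fun i => by cases i <;> simp) (by simp) (M.eqn b) (crd H b x)
    (H.smooth b _ (crd_mem H h))
  refine ⟨{ toFun := fun x i => crd H b x (Sum.inr i)
            invFun := fun t => ι H b (g t)
            source := dom H b ∩ crd H b ⁻¹' W
            target := T
            map_source' := fun y hy => (h2 _ hy.2 (crd_mem H hy.1)).1
            map_target' := fun t ht => ⟨ι_mem H (h1 t ht).2.1, ?_⟩
            left_inv' := fun y hy => ?_
            right_inv' := fun t ht => ?_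
            open_source := (continuousOn_crd H b).isOpen_inter_preimage (isOpen_dom H b) hW
            open_target := hT
            continuousOn_toFun := continuousOn_pi.2 fun i =>
              (continuousOn_pi.1 (continuousOn_crd H b) (Sum.inr i)).mono inter_subset_left
            continuousOn_invFun := (continuousOn_ι H b).comp hg.continuousOn
              fun t ht => (h1 t ht).2.1 }, ⟨inter_subset_left, fun _ _ => rfl, ?_⟩, h, h0⟩
  · rw [mem_preimage, crd_ι H (h1 t ht).2.1]; exact (h1 t ht).1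
  · rw [(h2 _ hy.2 (crd_mem H hy.1)).2, ι_crd H hy.1]
  · rw [crd_ι H (h1 t ht).2.1]; exact (h1 t ht).2.2
  · intro t ht
    refine (hg t ht).congr ?_
    filter_upwards [hT.mem_nhds ht] with t ht
    exact (crd_ι H (h1 t ht).2.1).symm

lemma IsChart.analyticAt {b g : M.B} {ψ : Chart (X H) n} (hψ : IsChart H b ψ) {y : E n}
    (hy : y ∈ ψ.target) (hg : ψ.symm y ∈ dom H g) :
    AnalyticAt ℂ (fun y => crd H g (ψ.symm y)) y := by
  obtain ⟨l, h1, h2⟩ := eventually_tr H (hψ.1 (ψ.map_target hy)) hg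
  refine (AnalyticAt.comp (g := tr b g l) (f := fun y => crd H b (ψ.symm y))
    (analyticAt_tr h1) (hψ.2.2 y hy)).congr ?_
  filter_upwards [(ψ.continuousAt_symm hy).eventually h2] with z hz
  exact hz.2.2.symm

/-- The mirror image of a chart. -/
def mirror (ψ : Chart (X H) n) : Chart (X H) n where
  toFun x := star (ψ (conj H x))
  invFun y := conj H (ψ.symm (star y))
  source := conj H ⁻¹' ψ.source
  target := star ⁻¹' ψ.target
  map_source' x hx := by simpa using ψ.map_source hx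
  map_target' y hy := by simpa [conj_conj] using ψ.map_target hy
  left_inv' x hx := by rw [star_star, ψ.left_inv hx, conj_conj]
  right_inv' y hy := by rw [conj_conj, ψ.right_inv hy, star_star]
  open_source := ψ.open_source.preimage (continuous_conj H)
  open_target := ψ.open_target.preimage continuous_star
  continuousOn_toFun := (ψ.continuousOn.comp (continuous_conj H).continuousOn fun _ h => h).star
  continuousOn_invFun := (continuous_conj H).comp_continuousOn
    (ψ.continuousOn_symm.comp continuous_star.continuousOn fun _ h => h)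

lemma IsChart.mirror {b : M.B} {ψ : Chart (X H) n} (hψ : IsChart H b ψ) :
    IsChart H b (mirror H ψ) := by
  have h1 : (Sp.mirror H ψ).source ⊆ dom H b := fun x hx => conj_conj H x ▸ conj_mem H (hψ.1 hx)
  refine ⟨h1, fun x hx => ?_, fun y hy => ?_⟩
  · change star (ψ (conj H x)) = _
    rw [hψ.2.1 _ hx, crd_conj H (h1 hx)]
    funext i
    simp
  · refine (analyticAt_star_star (hψ.2.2 _ hy)).congr ?_
    filter_upwards [(Sp.mirror H ψ).open_target.mem_nhds hy] with z hz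
    exact (crd_conj H (hψ.1 (ψ.map_target hz))).symm

/-- The atlas. -/
def atlas : Atlas (X H) n where
  A := {ψ | ∃ b, IsChart H b ψ}
  σ := conj H
  σc := continuous_conj H
  σσ := conj_conj H
  cover x := by
    obtain ⟨b, hb⟩ := exists_dom H x
    obtain ⟨ψ, h, hx⟩ := exists_chart H hb
    exact ⟨ψ, ⟨b, h⟩, hx⟩
  tr := by
    rintro ψ ⟨b, h⟩ ψ' ⟨g, h'⟩ y hy hy'
    refine (analyticAt_pi_iff.2 fun i =>
      analyticAt_pi_iff.1 (h.analyticAt H hy (h'.1 hy')) (Sum.inr i)).congr ?_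
    filter_upwards [(ψ.continuousAt_symm hy).eventually (ψ'.open_source.mem_nhds hy')] with z hz
    exact (h'.2.1 _ hz).symm
  mir := by
    rintro ψ ⟨b, h⟩
    exact ⟨mirror H ψ, ⟨b, h.mirror H⟩, rfl, fun _ => rfl, fun _ => rfl⟩

theorem hol_iff {f : ℂ → X H} {Ω : Set ℂ} (hΩ : IsOpen Ω) :
    Hol (atlas H) f Ω ↔ ContinuousOn f Ω ∧
      ∀ b, DifferentiableOn ℂ (fun z => crd H b (f z)) (Ω ∩ f ⁻¹' dom H b) := by
  refine and_congr_right fun hc => ⟨fun h b z hz => ?_, ?_⟩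
  · obtain ⟨ψ, hψ, hx⟩ := exists_chart H hz.2
    have hs : Ω ∩ f ⁻¹' ψ.source ∈ 𝓝 z :=
      (hc.isOpen_inter_preimage hΩ ψ.open_source).mem_nhds ⟨hz.1, hx⟩
    have h1 := (h ψ ⟨b, hψ⟩).differentiableAt hs
    have h2 := (hψ.2.2 _ (ψ.map_source hx)).differentiableAt.comp z h1
    refine (h2.congr_of_eventuallyEq ?_).differentiableWithinAt
    filter_upwards [hs] with w hw
    simp only [Function.comp, ψ.left_inv hw.2]
  · rintro h ψ ⟨b, hψ⟩
    refine (differentiableOn_pi.2 fun i => differentiableOn_pi.1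
      ((h b).mono fun z hz => ⟨hz.1, hψ.1 hz.2⟩) (Sum.inr i)).congr fun z hz => hψ.2.1 _ hz.2

end Pool.Agent.RC.Sp
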