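import Pool.Agent.Lib.RC.Mero15
import Pool.Agent.Lib.RC.Space7

/-! Extension, removable singularities, meromorphic coordinates and algebraicity on the space. -/

set_option autoImplicit false

open Set Filter Topology Polynomial

noncomputable section

namespace Pool.Agent.RC.S15

open Pool.Agent.Lib.RC Pool.Agent.RC.M15 Pool.Agent.RC.Sp

variable {n : ℕ} {M : Dat n} (H : M.Ok)

theorem image_eq_dom (b : M.B) : ι H b '' M.Z ℂ b = dom H b := by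
  ext x
  exact ⟨fun ⟨p, hp, h⟩ => h ▸ ι_mem H hp, fun h => ⟨_, crd_mem H h, ι_crd H h⟩⟩

/-- the space as a system of charts -/
def sys : Sys (X H) M.B M.V where
  Z := M.Z ℂ
  ι := ι H
  crd := crd H
  L := fun b g => Fin (M.L b g)
  ob := fun b g l p => MvPolynomial.aeval p (M.ob b g l)
  oa := fun b g l i p => MvPolynomial.aeval p (M.oa b g l i)
  fin := fun _ _ => inferInstance
  pob := fun _ _ _ => pol_aeval _
  poa := fun _ _ _ _ => pol_aeval _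
  ιc := continuousOn_ι H
  Uo := fun b => image_eq_dom H b ▸ isOpen_dom H b
  crdc := fun b => image_eq_dom H b ▸ continuousOn_crd H b
  crdι := fun _ _ hp => crd_ι H hp
  cover := fun x => (exists_dom H x).imp fun b hb => image_eq_dom H b ▸ hb
  same := fun b g p hp ⟨q, hq, h⟩ => by
    obtain ⟨l, hl, -⟩ := (ι_eq_iff H hp hq).1 h.symm
    exact ⟨l, hl⟩
  trans := fun b g l p hp h =>
    ⟨H.mem b g l p hp h, (ι_eq_iff H hp (H.mem b g l p hp h)).2 (same_tr h)⟩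

theorem sys_U (b : M.B) : (sys H).U b = dom H b := image_eq_dom H b

theorem hol_iff_holAt {f : ℂ → X H} {Ω : Set ℂ} (hΩ : IsOpen Ω) :
    Hol (atlas H) f Ω ↔ ∀ z ∈ Ω, (sys H).HolAt f z := by
  rw [hol_iff H hΩ, ← Sys.hol_iff hΩ]
  refine and_congr_right fun _ => forall_congr' fun b => ?_
  rw [differentiableOn_pi, sys_U]
  rfl

theorem hol_univ_iff {f : ℂ → X H} : Hol (atlas H) f univ ↔ ∀ z, (sys H).HolAt f z := by
  rw [hol_iff_holAt H isOpen_univ]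
  exact ⟨fun h z => h z trivial, fun h z _ => h z⟩

/-- a map with analytic coordinates in one chart is holomorphic -/
theorem hol_ι {b : M.B} {c : ℂ → M.V b → ℂ} {Ω : Set ℂ} (hΩ : IsOpen Ω)
    (hc : DifferentiableOn ℂ c Ω) (hZ : ∀ z ∈ Ω, c z ∈ M.Z ℂ b) :
    Hol (atlas H) (fun z => ι H b (c z)) Ω :=
  (hol_iff_holAt H hΩ).2 fun _ hz =>
    ⟨b, c, fun i => (differentiableOn_pi.1 hc i).analyticAt (hΩ.mem_nhds hz),
      (Filter.eventually_mem_set.2 (hΩ.mem_nhds hz)).mono fun w hw => ⟨hZ w hw, rfl⟩⟩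

theorem hol_analyticAt {f : ℂ → X H} {Ω : Set ℂ} (hΩ : IsOpen Ω) (hf : Hol (atlas H) f Ω)
    {z : ℂ} (hz : z ∈ Ω) {b : M.B} (hb : f z ∈ dom H b) (i : M.V b) :
    AnalyticAt ℂ (fun w => crd H b (f w) i) z :=
  ((hol_iff_holAt H hΩ).1 hf z hz).ana (sys_U H b ▸ hb) i

/-- EXT -/
theorem ext {b : M.B} {P : M.V b → ℂ → ℂ} {Q : ℂ → ℂ} {Ω : Set ℂ} (hΩ : IsOpen Ω)
    (hP : ∀ i, DifferentiableOn ℂ (P i) Ω) (hQ : DifferentiableOn ℂ Q Ω)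
    (hQ0 : ∀ z ∈ Ω, ∃ᶠ w in 𝓝 z, Q w ≠ 0)
    (hZ : ∀ z ∈ Ω, Q z ≠ 0 → (fun i => P i z / Q z) ∈ M.Z ℂ b) :
    ∃ f, Hol (atlas H) f Ω ∧ ∀ z ∈ Ω, Q z ≠ 0 → f z = ι H b (fun i => P i z / Q z) := by
  obtain ⟨f, h1, h2⟩ := Sys.ext (S := sys H) hΩ hP hQ hQ0 hZ
  exact ⟨f, (hol_iff_holAt H hΩ).2 h1, h2⟩

/-- EXT on a connected open set -/
theorem ext_conn {b : M.B} {P : M.V b → ℂ → ℂ} {Q : ℂ → ℂ} {Ω : Set ℂ} (hΩ : IsOpen Ω)
    (hc : IsPreconnected Ω) (hP : ∀ i, DifferentiableOn ℂ (P i) Ω) (hQ : DifferentiableOn ℂ Q Ω)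
    (hQ0 : ∃ z ∈ Ω, Q z ≠ 0) (hZ : ∀ z ∈ Ω, Q z ≠ 0 → (fun i => P i z / Q z) ∈ M.Z ℂ b) :
    ∃ f, Hol (atlas H) f Ω ∧ ∀ z ∈ Ω, Q z ≠ 0 → f z = ι H b (fun i => P i z / Q z) := by
  obtain ⟨f, h1, h2⟩ := Sys.ext_conn (S := sys H) hΩ hc hP hQ hQ0 hZ
  exact ⟨f, (hol_iff_holAt H hΩ).2 h1, h2⟩

/-- EXT for meromorphic coordinates -/
theorem ext_mero {b : M.B} {a : ℂ → M.V b → ℂ} {Ω : Set ℂ} (hΩ : IsOpen Ω)
    (hm : ∀ z ∈ Ω, ∀ i, MeromorphicAt (fun w => a w i) z)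
    (hZ : ∀ z ∈ Ω, ∀ᶠ w in 𝓝[≠] z, a w ∈ M.Z ℂ b) :
    ∃ f, Hol (atlas H) f Ω ∧ (∀ z ∈ Ω, ∀ᶠ w in 𝓝[≠] z, f w = ι H b (a w)) ∧
      ∀ z ∈ Ω, ContinuousAt a z → f z = ι H b (a z) := by
  obtain ⟨f, h1, h2, h3⟩ := Sys.ext_mero (S := sys H) hm hZ
  refine ⟨f, (hol_iff_holAt H hΩ).2 h1, h2, fun z hz hc => h3 z hz hc ?_⟩
  exact (isClosed_Z b).mem_of_tendsto (hc.tendsto.mono_left nhdsWithin_le_nhds) (hZ z hz)

/-- REM -/
theorem rem {f : ℂ → X H} {Ω s : Set ℂ} (hΩ : IsOpen Ω) (hc : ContinuousOn f Ω)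
    (hs : ∀ z ∈ Ω, ∀ᶠ w in 𝓝[≠] z, w ∉ s) (hf : Hol (atlas H) f (Ω \ s)) :
    Hol (atlas H) f Ω := by
  have ho : IsOpen (Ω \ s) := isOpen_iff_mem_nhds.2 fun z hz => by
    have h1 : ∀ᶠ w in 𝓝 z, w ∉ s := by
      rw [← nhdsNE_sup_pure z, eventually_sup, eventually_pure]
      exact ⟨hs z hz.1, hz.2⟩
    exact inter_mem (hΩ.mem_nhds hz.1) h1
  refine (hol_iff_holAt H hΩ).2 fun z hz => Sys.rem (hc.continuousAt (hΩ.mem_nhds hz)) ?_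
  filter_upwards [hs z hz, mem_nhdsWithin_of_mem_nhds (hΩ.mem_nhds hz)] with w h1 h2
  exact (hol_iff_holAt H ho).1 hf w ⟨h2, h1⟩

/-- MERO -/
theorem mero {f : ℂ → X H} {Ω : Set ℂ} (hΩ : IsOpen Ω) (hc : IsPreconnected Ω)
    (hf : Hol (atlas H) f Ω) {b : M.B} {z0 : ℂ} (hz0 : z0 ∈ Ω) (hb : f z0 ∈ dom H b) :
    ∀ z ∈ Ω, (∀ᶠ w in 𝓝[≠] z, f w ∈ dom H b) ∧
      ∀ i, MeromorphicAt (fun w => crd H b (f w) i) z := by
  have h := Sys.mero hc ((hol_iff_holAt H hΩ).1 hf) hz0 (sys_U H b ▸ hb)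
  rw [sys_U] at h
  exact h

/-- DESC -/
theorem desc {f : ℂ → X H} (hf : Hol (atlas H) f univ)
    (hp : ∀ w, f (w + 2 * Real.pi * Complex.I) = f w) :
    Hol (atlas H) (fun v => f (Complex.log v)) {0}ᶜ :=
  (hol_iff_holAt H isOpen_compl_singleton).2 fun _ hu =>
    Sys.desc ((hol_univ_iff H).1 hf) hp hu

/-- ALG and RED -/
theorem alg {f : ℂ → X H} (hf : Hol (atlas H) f univ) {y : X H}
    (hy : Tendsto f (cocompact ℂ) (𝓝 y)) {b : M.B} {z0 : ℂ} (hb : f z0 ∈ dom H b) :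
    ∃ (P : M.V b → ℂ[X]) (Q : ℂ[X]), (∀ u, Q.eval u ≠ 0 ↔ f u ∈ dom H b) ∧
      ∀ u, Q.eval u ≠ 0 → crd H b (f u) = fun i => (P i).eval u / Q.eval u := by
  rw [← Metric.cobounded_eq_cocompact] at hy
  obtain ⟨P, Q, h1, h2⟩ := Sys.alg ((hol_univ_iff H).1 hf) hy (sys_U H b ▸ hb)
  rw [sys_U] at h1
  exact ⟨P, Q, h1, fun u hu => funext (h2 u hu)⟩

/-- a rational curve in a chart is a holomorphic map with a limit at infinity -/
theorem rat_ext {b : M.B} (P : M.V b → ℂ[X]) {Q : ℂ[X]} (hQ : Q ≠ 0)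
    (hZ : ∀ᶠ u in cofinite, (fun i => (P i).eval u / Q.eval u) ∈ M.Z ℂ b) :
    ∃ (f : ℂ → X H) (y : X H), Hol (atlas H) f univ ∧ Tendsto f (cocompact ℂ) (𝓝 y) ∧
      ∀ u, Q.eval u ≠ 0 → (fun i => (P i).eval u / Q.eval u) ∈ M.Z ℂ b ∧
        f u = ι H b (fun i => (P i).eval u / Q.eval u) := by
  obtain ⟨f, y, h1, h2, h3⟩ := Sys.rat_ext (S := sys H) P hQ hZ
  rw [Metric.cobounded_eq_cocompact] at h2
  refine ⟨f, y, (hol_univ_iff H).2 h1, h2, fun u hu => ?_⟩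
  have hc : ContinuousAt (fun u i => (P i).eval u / Q.eval u) u :=
    continuousAt_pi.2 fun i => (P i).continuous.continuousAt.div Q.continuous.continuousAt hu
  have h4 : (fun i => (P i).eval u / Q.eval u) ∈ M.Z ℂ b :=
    (isClosed_Z b).mem_of_tendsto (hc.tendsto.mono_left (nhdsWithin_le_nhds (s := {u}ᶜ)))
      (hZ.filter_mono (nhdsNE_le_cofinite u))
  exact ⟨h4, h3 u hu h4⟩

/-- the map `w ↦ f (1 / w)` of a holomorphic map with a limit at infinity -/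
theorem hol_inv {f : ℂ → X H} (hf : Hol (atlas H) f univ) {y : X H}
    (hy : Tendsto f (cocompact ℂ) (𝓝 y)) :
    ∃ g, Hol (atlas H) g univ ∧ g 0 = y ∧ (∀ w, w ≠ 0 → g w = f w⁻¹) ∧
      Tendsto g (cocompact ℂ) (𝓝 (f 0)) := by
  classical
  rw [← Metric.cobounded_eq_cocompact] at hy ⊢
  have h := (hol_univ_iff H).1 hf
  refine ⟨Function.update (fun w => f w⁻¹) 0 y, (hol_univ_iff H).2 fun w => ?_,
    Function.update_self _ _ _, fun w hw => Function.update_of_ne hw _ _, ?_⟩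
  · by_cases h3 : w = 0
    · exact h3 ▸ Sys.holAt_inf (Eventually.of_forall h) hy
    · refine ((h w⁻¹).comp (h := fun w => w⁻¹) (analyticAt_id.inv h3)).congr ?_
      filter_upwards [eventually_ne_nhds h3] with v hv
      rw [Function.update_of_ne hv]
  · refine (((h 0).continuousAt.tendsto.mono_left nhdsWithin_le_nhds).comp End.inv_tendsto).congr' ?_
    filter_upwards [Bornology.eventually_ne_cobounded (0 : ℂ)] with v hv
    rw [Function.update_of_ne hv]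
    rfl

end Pool.Agent.RC.S15
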