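import Pool.Agent.Lib.RC.Fam98b
import Pool.Agent.Lib.RC.B_BB
import Pool.Agent.Lib.RC.Aut89

set_option autoImplicit false

open Polynomial Filter Topology Metric Set Bornology

noncomputable section

namespace Pool.Agent.RC.F98

open Pool.Agent.Lib.RC

variable {Y : Type} [TopologicalSpace Y] {n : ℕ} {V k : Type} [CommRing k]

lemma isOpen_good (𝒜 : Atlas Y n) : IsOpen (Good 𝒜) := by
  rw [isOpen_iff_mem_nhds]
  rintro x ⟨ψ, e, r, r', C, Ψ, hD, hx, hr⟩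
  have h1 : ∀ᶠ y in 𝓝 x, ‖ψ y - e‖ < r / 4 :=
    (((ψ.continuousAt hx).sub continuousAt_const).norm).eventually_lt continuousAt_const hr
  filter_upwards [h1, ψ.open_source.mem_nhds hx] with y h2 h3
  exact ⟨ψ, e, r, r', C, Ψ, hD, h3, h2⟩

/-- points generic over countably many polynomials are dense -/
def Gen (Z : Set (V → ℂ)) : Prop :=
  ∀ (I : Type) [Countable I] (Φ : I → MvPolynomial V ℂ), ∀ p ∈ Z, ∀ N ∈ 𝓝 p,
    ∃ y ∈ N, y ∈ Z ∧ ∀ s, MvPolynomial.eval y (Φ s) = 0 → ∀ q ∈ Z, MvPolynomial.eval q (Φ s) = 0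

lemma Gen.ring [Countable V] {Z : Set (V → ℂ)} (h : Gen Z) {k1 : Type} [CommRing k1]
    [Countable k1] (c : k1 →+* ℂ) {p : V → ℂ} (hp : p ∈ Z) {N : Set (V → ℂ)} (hN : N ∈ 𝓝 p) :
    ∃ y ∈ N, y ∈ Z ∧ ∀ Φ : MvPolynomial V k1, MvPolynomial.eval₂ c y Φ = 0 →
      ∀ q ∈ Z, MvPolynomial.eval₂ c q Φ = 0 := by
  have := countable_mv (V := V) (k := k1)
  obtain ⟨y, h1, h2, h3⟩ := h _ (fun Φ : MvPolynomial V k1 => MvPolynomial.map c Φ) p hp N hN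
  refine ⟨y, h1, h2, fun Φ h0 q hq => ?_⟩
  rw [MvPolynomial.eval₂_eq_eval_map] at h0 ⊢
  exact h3 Φ h0 q hq

/-- one algebraic chart of the manifold -/
structure ChartHyp (𝒜 : Atlas Y n) (c : k →+* ℂ) (S : Set (MvPolynomial V k))
    (Z : Set (V → ℂ)) (ι : (V → ℂ) → Y) (crd : Y → V → ℂ) (pr : Fin n → V) : Prop where
  mem : ∀ q, q ∈ Z ↔ ∀ Φ ∈ S, MvPolynomial.eval₂ c q Φ = 0
  cont : ContinuousOn ι Z
  crdι : ∀ q ∈ Z, crd (ι q) = q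
  crdc : ∀ q ∈ Z, ContinuousAt crd (ι q)
  dense : Dense (ι '' Z)
  chart : ∀ q ∈ Z, ∃ ψ ∈ 𝒜.A, ι q ∈ ψ.source ∧ ψ.source ⊆ ι '' Z ∧
    (∀ x ∈ ψ.source, ψ x = fun j => crd x (pr j)) ∧
    ∀ i, AnalyticOnNhd ℂ (fun t => crd (ψ.symm t) i) ψ.target
  gen : Gen Z
  ext : ∀ (P : V → ℂ → ℂ) (Q : ℂ → ℂ), (∀ i, DifferentiableOn ℂ (P i) (ball 0 1)) →
    DifferentiableOn ℂ Q (ball 0 1) → (∀ s ∈ ball (0 : ℂ) 1, ∃ᶠ w in 𝓝 s, Q w ≠ 0) →
    (∀ s ∈ ball (0 : ℂ) 1, Q s ≠ 0 → (fun i => P i s / Q s) ∈ Z) →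
    ∃ G, Hol 𝒜 G (ball 0 1) ∧ ∀ s ∈ ball (0 : ℂ) 1, Q s ≠ 0 → G s = ι fun i => P i s / Q s
  alg : ∀ (f : ℂ → Y) (y : Y), Hol 𝒜 f univ → Tendsto f (cobounded ℂ) (𝓝 y) → f 0 ∈ ι '' Z →
    ∃ (P : V → ℂ[X]) (Q : ℂ[X]), Q.eval 0 ≠ 0 ∧
      ∀ u, Q.eval u ≠ 0 → cv P Q u ∈ Z ∧ f u = ι (cv P Q u)

/-- the deformation lemma for entire curves -/
def LPHyp (𝒜 : Atlas Y n) : Prop :=
  ∀ (f : ℂ → Y) (y : Y), Hol 𝒜 f univ → Tendsto f (cobounded ℂ) (𝓝 y) → y ∈ Good 𝒜 →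
    {u | f u ∉ Good 𝒜}.Countable →
    ∀ᶠ y' in 𝓝 y, ∃ F, Hol 𝒜 F univ ∧ F 0 = f 0 ∧ Tendsto F (cobounded ℂ) (𝓝 y')

/-- a nondegenerate rational curve starts at `p` -/
def Alg (c : k →+* ℂ) (Z : Set (V → ℂ)) (p : V → ℂ) : Prop :=
  ∃ (P : V → ℂ[X]) (Q : ℂ[X]), Q.eval 0 ≠ 0 ∧ (∀ u, Q.eval u ≠ 0 → cv P Q u ∈ Z) ∧
    cv P Q 0 = p ∧ ∀ Φ : MvPolynomial V (MvPolynomial V k),
      (∀ u, Q.eval u ≠ 0 → MvPolynomial.eval₂ (MvPolynomial.eval₂Hom c p) (cv P Q u) Φ = 0) →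
      ∀ q ∈ Z, MvPolynomial.eval₂ (MvPolynomial.eval₂Hom c p) q Φ = 0

lemma eval₂_aut {W k1 : Type} [CommRing k1] (τ : ℂ →+* ℂ) (c : k1 →+* ℂ) (q : W → ℂ)
    (Φ : MvPolynomial W k1) : MvPolynomial.eval₂ (τ.comp c) (fun i => τ (q i)) Φ =
      τ (MvPolynomial.eval₂ c q Φ) :=
  (MvPolynomial.eval₂_comp_left τ c q Φ).symm

/-- field automorphisms fixing the constants preserve `Alg` -/
lemma Alg.aut {c : k →+* ℂ} {S : Set (MvPolynomial V k)} {Z : Set (V → ℂ)}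
    (hZ : ∀ q, q ∈ Z ↔ ∀ Φ ∈ S, MvPolynomial.eval₂ c q Φ = 0) (τ : ℂ ≃+* ℂ)
    (hτ : ∀ x, τ (c x) = c x) {p : V → ℂ} (h : Alg c Z p) : Alg c Z (fun i => τ (p i)) := by
  obtain ⟨P, Q, h0, h1, h2, h3⟩ := h
  have hc : (τ : ℂ →+* ℂ).comp c = c := RingHom.ext hτ
  have hmem : ∀ q : V → ℂ, (fun i => τ (q i)) ∈ Z ↔ q ∈ Z := fun q => by
    rw [hZ, hZ]
    refine forall₂_congr fun Φ _ => ?_
    have := eval₂_aut (τ : ℂ →+* ℂ) c q Φ
    rw [hc] at this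
    exact (Iff.of_eq (congrArg (· = 0) this)).trans τ.map_eq_zero_iff
  have hev : ∀ (R : ℂ[X]) (u : ℂ), (R.map (τ : ℂ →+* ℂ)).eval (τ u) = τ (R.eval u) := fun R u =>
    Polynomial.eval_map_apply (τ : ℂ →+* ℂ) u
  have hcv : ∀ u, cv (fun i => (P i).map (τ : ℂ →+* ℂ)) (Q.map (τ : ℂ →+* ℂ)) (τ u) =
      fun i => τ (cv P Q u i) := fun u => by
    funext i
    simp only [cv, hev, map_div₀]
  have hc1 : MvPolynomial.eval₂Hom c (fun i => τ (p i)) =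
      (τ : ℂ →+* ℂ).comp (MvPolynomial.eval₂Hom c p) := by
    refine MvPolynomial.ringHom_ext (fun a => ?_) (fun i => ?_)
    · simp [hτ]
    · simp
  have hz : (0 : ℂ) = τ 0 := (map_zero τ).symm
  refine ⟨fun i => (P i).map (τ : ℂ →+* ℂ), Q.map (τ : ℂ →+* ℂ), ?_, fun u hu => ?_, ?_,
    fun Φ hΦ q hq => ?_⟩
  · rw [hz, hev, ← hz]
    exact τ.map_ne_zero_iff.2 h0
  · obtain ⟨u, rfl⟩ := τ.surjective u
    rw [hev] at hu
    rw [hcv, hmem]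
    exact h1 u (τ.map_ne_zero_iff.1 hu)
  · rw [hz, hcv, h2]
  · have hq' : q = fun i => τ (τ.symm (q i)) := by
      funext i
      simp
    rw [hq'] at hq ⊢
    rw [hc1]
    refine (eval₂_aut (τ : ℂ →+* ℂ) _ (fun i => τ.symm (q i)) Φ).trans ?_
    rw [h3 Φ (fun u hu => ?_) _ ((hmem _).1 hq), map_zero]
    have h4 := hΦ (τ u) (by rw [hev]; exact τ.map_ne_zero_iff.2 hu)
    rw [hcv, hc1] at h4
    exact τ.map_eq_zero_iff.1 ((eval₂_aut (τ : ℂ →+* ℂ) _ (cv P Q u) Φ).symm.trans h4)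

variable {𝒜 : Atlas Y n} {c : k →+* ℂ} {S : Set (MvPolynomial V k)} {Z : Set (V → ℂ)}
  {ι : (V → ℂ) → Y} {crd : Y → V → ℂ} {pr : Fin n → V}

/-- FAM -/
theorem ChartHyp.good_of_alg [Finite V] [Countable k] (H : ChartHyp 𝒜 c S Z ι crd pr)
    {p : V → ℂ} (h : Alg c Z p) : ι p ∈ Good 𝒜 := by
  obtain ⟨P, Q, h0, h1, h2, h3⟩ := h
  have := countable_mv (V := V) (k := k)
  have hp : p ∈ Z := h2 ▸ h1 0 h0
  obtain ⟨ψ, hψ, hx, hs, hc, ha⟩ := H.chart p hp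
  obtain ⟨φ, t0, δ, k1, k2, k3, k4, k5⟩ := fam (fun G => Hol 𝒜 G (ball 0 1))
    (MvPolynomial.eval₂Hom c p) (MvPolynomial.map MvPolynomial.C '' S) Z (fun q => by
      rw [H.mem, Set.forall_mem_image]
      refine forall₂_congr fun Φ _ => ?_
      have h4 : (MvPolynomial.eval₂Hom c p).comp MvPolynomial.C = c := by
        ext x
        simp
      rw [MvPolynomial.eval₂_map, h4]) ι H.cont pr ψ
    (fun q hq hq2 => by rw [hc _ hq2, H.crdι q hq]) (fun t => crd (ψ.symm t)) ha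
    (fun t ht => by
      obtain ⟨q, hq, hq2⟩ := hs (ψ.map_target ht)
      simp only [← hq2, H.crdι q hq]
      exact ⟨hq, trivial⟩)
    (fun q hq q' hq' h => by rw [← H.crdι q hq, h, H.crdι q' hq']) H.ext
    (fun i => MvPolynomial.X i) P Q h1 (by rw [h2]; simp) h0 (by rwa [h2]) h3
  rw [h2] at k3
  exact st_BB n Y 𝒜 ψ (ι p) φ t0 δ hψ hx k1 k2 k3 k4 k5

lemma continuous_eval₂ {k1 : Type} [CommRing k1] (c1 : k1 →+* ℂ) (Φ : MvPolynomial V k1) :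
    Continuous fun q : V → ℂ => MvPolynomial.eval₂ c1 q Φ := by
  simp only [MvPolynomial.eval₂_eq_eval_map]
  exact MvPolynomial.continuous_eval _

/-- LP, algebraic form -/
theorem ChartHyp.alg_of_lp [Finite V] [Countable k] (H : ChartHyp 𝒜 c S Z ι crd pr)
    (hLP : LPHyp 𝒜) {f : ℂ → Y} {y : Y} (hf : Hol 𝒜 f univ)
    (hy : Tendsto f (cobounded ℂ) (𝓝 y)) (hg : y ∈ Good 𝒜) (hb : {u | f u ∉ Good 𝒜}.Countable)
    {p : V → ℂ} (hp : p ∈ Z) (h0 : f 0 = ι p) : Alg c Z p := by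
  have := countable_mv (V := V) (k := k)
  obtain ⟨N, hN, hNo, hyN⟩ := mem_nhds_iff.1 (hLP f y hf hy hg hb)
  obtain ⟨_, ⟨q, hq, rfl⟩, hqN⟩ := H.dense.exists_mem_open hNo ⟨y, hyN⟩
  have h1 : {q' | q' ∈ Z → ι q' ∈ N} ∈ 𝓝 q :=
    eventually_nhdsWithin_iff.1 ((H.cont q hq).eventually (hNo.mem_nhds hqN))
  obtain ⟨y', h2, h3, h4⟩ := H.gen.ring (MvPolynomial.eval₂Hom c p) hq h1
  obtain ⟨F, hF, hF0, hF1⟩ := hN (h2 h3)
  obtain ⟨P, Q, hQ0, hQ⟩ := H.alg F _ hF hF1 ⟨p, hp, by rw [hF0, h0]⟩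
  refine ⟨P, Q, hQ0, fun u hu => (hQ u hu).1, ?_, fun Φ hΦ => h4 Φ ?_⟩
  · rw [← H.crdι _ (hQ 0 hQ0).1, ← (hQ 0 hQ0).2, hF0, h0, H.crdι p hp]
  · have hQ' : Q ≠ 0 := fun h => hQ0 (by rw [h, eval_zero])
    have h5 : ∀ᶠ u in cobounded ℂ, Q.eval u ≠ 0 :=
      (Polynomial.finite_setOfPred_isRoot hQ').isBounded
    have h6 : Tendsto (fun u => crd (F u)) (cobounded ℂ) (𝓝 y') := by
      have := (H.crdc y' h3).tendsto.comp hF1
      rwa [H.crdι y' h3] at this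
    have h7 := ((continuous_eval₂ (MvPolynomial.eval₂Hom c p) Φ).tendsto y').comp h6
    refine tendsto_nhds_unique h7 (tendsto_const_nhds.congr' ?_)
    filter_upwards [h5] with u hu
    simp only [Function.comp, (hQ u hu).2, H.crdι _ (hQ u hu).1]
    exact (hΦ u hu).symm

lemma hol_const (𝒜 : Atlas Y n) (x : Y) : Hol 𝒜 (fun _ => x) univ :=
  ⟨continuousOn_const, fun _ _ => differentiableOn_const _⟩

/-- STEP -/
theorem ChartHyp.step [Finite V] [Countable k] (H : ChartHyp 𝒜 c S Z ι crd pr)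
    (hLP : LPHyp 𝒜) {f : ℂ → Y} {y : Y} (hf : Hol 𝒜 f univ)
    (hy : Tendsto f (cobounded ℂ) (𝓝 y)) (hg : y ∈ Good 𝒜) (h0 : f 0 ∈ ι '' Z) :
    f 0 ∈ Good 𝒜 := by
  obtain ⟨P, Q, hQ0, hQ⟩ := H.alg f y hf hy h0
  obtain ⟨d, a, ha⟩ := exists_pl (V := V) (fun o => o.elim Q P)
  have := countable_mv (V := Option V × Fin d) (k := k)
  let c' := MvPolynomial.eval₂Hom c a
  have hT := countable_special (V := Unit) c' (fun _ => Polynomial.X) 1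
  have hcu : ∀ u : ℂ, cv (fun _ : Unit => (Polynomial.X : ℂ[X])) 1 u = fun _ => u := fun u => by
    funext i
    simp [cv]
  simp only [hcu, eval_one, ne_eq, one_ne_zero, not_false_eq_true, true_and, forall_const] at hT
  have hQ' : Q ≠ 0 := fun h => hQ0 (by rw [h, eval_zero])
  have h1 : ∀ᶠ u in cobounded ℂ, f u ∈ Good 𝒜 := hy.eventually ((isOpen_good 𝒜).mem_nhds hg)
  have h2 : ∀ᶠ u in cobounded ℂ, Q.eval u ≠ 0 :=
    (Polynomial.finite_setOfPred_isRoot hQ').isBounded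
  obtain ⟨R, -, hR⟩ := (Metric.hasBasis_cobounded_compl_closedBall (0 : ℂ)).eventually_iff.1
    (h1.and h2)
  obtain ⟨u0, hu0, hu0R⟩ := (hT.dense_compl ℂ).exists_mem_open
    (isClosed_closedBall (x := (0 : ℂ)) (ε := R)).isOpen_compl
    (Set.nonempty_compl.2 fun h => NormedSpace.unbounded_univ ℝ ℂ (h ▸ isBounded_closedBall))
  obtain ⟨hu1, hu2⟩ := hR hu0R
  have halg : Alg c Z (cv P Q u0) :=
    H.alg_of_lp hLP (hol_const 𝒜 (f u0)) tendsto_const_nhds hu1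
      (Set.countable_empty.mono fun u hu => hu hu1) (hQ u0 hu2).1 (hQ u0 hu2).2
  have hbad : {u | f u ∉ Good 𝒜}.Countable := by
    refine hT.mono fun u1 hu => ?_
    by_contra hu3
    have key : ∀ u, ¬ (∃ Φ : MvPolynomial Unit (MvPolynomial (Option V × Fin d) k),
        MvPolynomial.eval₂ c' (fun _ => u) Φ = 0 ∧
          ¬ ∀ w : ℂ, MvPolynomial.eval₂ c' (fun _ => w) Φ = 0) →
        ∀ (Φ : MvPolynomial Unit (MvPolynomial (Option V × Fin d) k)) (w : ℂ),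
        MvPolynomial.eval₂ c' (fun _ => u) Φ = 0 → MvPolynomial.eval₂ c' (fun _ => w) Φ = 0 := by
      intro u h Φ w hΦ
      by_contra h4
      exact h ⟨Φ, hΦ, fun h5 => h4 (h5 w)⟩
    obtain ⟨τ, hτ, hτu⟩ := H89.aut c' (fun _ : Unit => u0) (fun _ => u1)
      (fun Φ => ⟨key u0 hu0 Φ u1, key u1 hu3 Φ u0⟩)
    have hτc : ∀ x, τ (c x) = c x := fun x => by simpa [c'] using hτ (MvPolynomial.C x)
    have hτa : ∀ j, τ (a j) = a j := fun j => by simpa [c'] using hτ (MvPolynomial.X j)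
    have hev : ∀ o, τ (ev a o u0) = ev a o u1 := fun o => by
      simp only [ev, map_sum, map_mul, map_pow, hτa, hτu ()]
    have hQe : τ (Q.eval u0) = Q.eval u1 := by
      have := hev none
      rwa [← eval_pl, ← eval_pl, ha none] at this
    have hPe : ∀ i, τ ((P i).eval u0) = (P i).eval u1 := fun i => by
      have := hev (some i)
      rwa [← eval_pl, ← eval_pl, ha (some i)] at this
    have h4 : (fun i => τ (cv P Q u0 i)) = cv P Q u1 := by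
      funext i
      simp only [cv, map_div₀, hQe, hPe]
    have h5 := halg.aut H.mem τ hτc
    rw [h4] at h5
    have h6 : Q.eval u1 ≠ 0 := by
      rw [← hQe]
      exact τ.map_ne_zero_iff.2 hu2
    exact hu ((hQ u1 h6).2 ▸ H.good_of_alg h5)
  rw [(hQ 0 hQ0).2]
  exact H.good_of_alg (H.alg_of_lp hLP hf hy hg hbad (hQ 0 hQ0).1 (hQ 0 hQ0).2)

/-- the good set is not empty, and contains a point which is connected to a general point -/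
theorem ChartHyp.exists_good [Finite V] [Countable k] (H : ChartHyp 𝒜 c S Z ι crd pr)
    (h : MvPolynomial (V ⊕ V) ℂ) {p1 q1 : V → ℂ} (hp1 : p1 ∈ Z) (hq1 : q1 ∈ Z)
    (hne : MvPolynomial.eval (Sum.elim p1 q1) h ≠ 0)
    (hrc : ∀ p ∈ Z, ∀ q ∈ Z, MvPolynomial.eval (Sum.elim p q) h ≠ 0 →
      ∃ (P : V → ℂ[X]) (Q : ℂ[X]), Q.eval 0 ≠ 0 ∧ Q.eval 1 ≠ 0 ∧ cv P Q 0 = p ∧ cv P Q 1 = q ∧
        ∀ u, Q.eval u ≠ 0 → cv P Q u ∈ Z) :
    ι p1 ∈ Good 𝒜 ∧ ∃ q0 ∈ Z, ι q0 ∈ Good 𝒜 ∧ MvPolynomial.eval (Sum.elim p1 q0) h ≠ 0 := by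
  have := countable_mv (V := V) (k := k)
  let h1 : MvPolynomial V ℂ :=
    MvPolynomial.aeval (Sum.elim (fun i => MvPolynomial.C (p1 i)) MvPolynomial.X) h
  have hh : ∀ q, MvPolynomial.eval q h1 = MvPolynomial.eval (Sum.elim p1 q) h := fun q => by
    have e : (MvPolynomial.eval q).comp (MvPolynomial.aeval (R := ℂ)
        (Sum.elim (fun i => MvPolynomial.C (p1 i)) MvPolynomial.X) :
          MvPolynomial (V ⊕ V) ℂ →ₐ[ℂ] MvPolynomial V ℂ).toRingHom =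
        MvPolynomial.eval (Sum.elim p1 q) := by
      refine MvPolynomial.ringHom_ext (fun a => ?_) (fun i => ?_)
      · simp
      · rcases i with i | i <;> simp
    exact RingHom.congr_fun e h
  have hN : {q | MvPolynomial.eval q h1 ≠ 0} ∈ 𝓝 q1 :=
    (MvPolynomial.continuous_eval h1).continuousAt.eventually_ne (by rwa [hh])
  obtain ⟨q, k1, k2, k3⟩ := H.gen.ring (MvPolynomial.eval₂Hom c p1) hq1 hN
  obtain ⟨P, Q, l0, l1, l2, l3, l4⟩ := hrc p1 hp1 q k2 (by rw [← hh]; exact k1)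
  have hg : ι p1 ∈ Good 𝒜 :=
    H.good_of_alg ⟨P, Q, l0, l4, l2, fun Φ hΦ => k3 Φ (l3 ▸ hΦ 1 l1)⟩
  refine ⟨hg, ?_⟩
  have m1 : {q' | q' ∈ Z → ι q' ∈ Good 𝒜} ∈ 𝓝 p1 :=
    eventually_nhdsWithin_iff.1 ((H.cont p1 hp1).eventually ((isOpen_good 𝒜).mem_nhds hg))
  obtain ⟨q0, m2, m3, m4⟩ := H.gen Unit (fun _ => h1) p1 hp1 _ m1
  refine ⟨q0, m3, m2 m3, fun m5 => hne ?_⟩
  rw [← hh] at m5 ⊢
  exact m4 () m5 q1 hq1

/-- countably many complex polynomials are defined over a countable ring -/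
theorem exists_lift {I : Type} [Countable I] [Countable V] (Φ : I → MvPolynomial V ℂ) :
    ∃ (k0 : Type) (_ : CommRing k0) (_ : Countable k0) (c : k0 →+* ℂ)
      (Ψ : I → MvPolynomial V k0),
      ∀ i q, MvPolynomial.eval₂ c q (Ψ i) = MvPolynomial.eval q (Φ i) := by
  refine ⟨MvPolynomial (I × (V →₀ ℕ)) ℤ, inferInstance, countable_mv,
    MvPolynomial.eval₂Hom (Int.castRingHom ℂ) fun x => MvPolynomial.coeff x.2 (Φ x.1),
    fun i => ∑ α ∈ (Φ i).support, MvPolynomial.monomial α (MvPolynomial.X (i, α)), fun i q => ?_⟩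
  rw [MvPolynomial.eval₂_eq_eval_map]
  refine congrArg (MvPolynomial.eval q) ?_
  rw [map_sum]
  conv_rhs => rw [(Φ i).as_sum]
  refine Finset.sum_congr rfl fun α _ => ?_
  simp

end Pool.Agent.RC.F98
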