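import Pool.Agent.Lib.RC.BlueG
import Pool.Agent.Lib.RC.Step98
import Pool.Agent.Lib.RC.Lp14
import Pool.Agent.Lib.RC.Nd89
import Pool.Agent.Lib.RC.Mero15b

set_option autoImplicit false

open Set Metric Filter Topology MvPolynomial Bornology
open scoped Polynomial

namespace Pool.Agent.RC.G

open Pool.Agent.Lib.RC Pool.Agent.RC.Sp Pool.Agent.RC.F98

variable {n : ℕ}

/-- the equations of a chart are defined over a countable ring -/
lemma exists_ring (M : Dat n) (b : M.B) :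
    ∃ (k : Type) (_ : CommRing k) (_ : Countable k) (c : k →+* ℂ)
      (S : Set (MvPolynomial (M.V b) k)), ∀ q, q ∈ M.Z ℂ b ↔ ∀ Φ ∈ S, eval₂ c q Φ = 0 := by
  obtain ⟨k, i1, i2, c, Ψ, h⟩ :=
    exists_lift (fun i => MvPolynomial.map (algebraMap ℝ ℂ) (M.eqn b i))
  refine ⟨k, i1, i2, c, range Ψ, fun q => ?_⟩
  rw [Set.forall_mem_range]
  refine forall_congr' fun i => ?_
  rw [h, eval_map, aeval_def]

lemma image_ι {M : Dat n} (H : M.Ok) (b : M.B) : ι H b '' M.Z ℂ b = dom H b := by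
  ext x
  constructor
  · rintro ⟨q, hq, rfl⟩
    exact ι_mem H hq
  · exact fun h => ⟨_, crd_mem H h, ι_crd H h⟩

lemma mem_Z_iff (M : Dat n) (b : M.B) (q : M.V b → ℂ) : q ∈ M.Z ℂ b ↔
    ∀ i, eval q (MvPolynomial.map (algebraMap ℝ ℂ) (M.eqn b i)) = 0 := by
  refine forall_congr' fun i => ?_
  rw [eval_map, aeval_def]

lemma jac_ne {M : Dat n} (H : M.Ok) (b : M.B) (p : M.V b → ℂ)
    (hp : ∀ i, eval p (MvPolynomial.map (algebraMap ℝ ℂ) (M.eqn b i)) = 0) :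
    (Matrix.of fun i j => eval p (pderiv (Sum.inl j)
      (MvPolynomial.map (algebraMap ℝ ℂ) (M.eqn b i)))).det ≠ 0 := by
  have h := H.smooth b p ((mem_Z_iff M b p).2 hp)
  rw [← Matrix.det_transpose] at h
  refine fun h2 => h (Eq.trans (congrArg Matrix.det ?_) h2)
  ext i j
  simp only [Matrix.transpose_apply, Matrix.of_apply]
  rw [pderiv_map, eval_map, aeval_def]

theorem stND : St_ND := by
  intro n M H hE b
  refine ⟨fun p hp F hF q hq => ?_, fun k _ _ c p hp N hN => ?_, ?_⟩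
  · have hp' := (mem_Z_iff M b p).1 hp
    exact H89.nd _ (hE.dom b) p hp' (jac_ne H b p hp') F
      (hF.mono fun q h1 h2 => h1 ((mem_Z_iff M b q).2 h2)) q ((mem_Z_iff M b q).1 hq)
  · obtain ⟨y, h1, h2, h3⟩ := H89.gen_ring c _ (hE.dom b) (jac_ne H b) p
      ((mem_Z_iff M b p).1 hp) hN
    exact ⟨y, h1, (mem_Z_iff M b y).2 h2, fun Φ h z hz => h3 Φ h z ((mem_Z_iff M b z).1 hz)⟩
  · intro x
    rw [mem_closure_iff_nhds]
    intro N hN
    obtain ⟨g, hg⟩ := exists_dom H x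
    obtain ⟨p0, hp0, l, hl⟩ := hE.meet g b
    have h1 : {q | q ∈ M.Z ℂ g → ι H g q ∈ N} ∈ 𝓝 (crd H g x) :=
      eventually_nhdsWithin_iff.1 ((continuousOn_ι H g _ (crd_mem H hg)).eventually
        (by rwa [ι_crd H hg]))
    obtain ⟨y, h2, h3, h4⟩ := H89.gen _ (hE.dom g) (jac_ne H g)
      (fun _ : Unit => MvPolynomial.map (algebraMap ℝ ℂ) (M.ob g b l)) _
      ((mem_Z_iff M g _).1 (crd_mem H hg)) h1
    have h5 := (mem_Z_iff M g y).2 h3
    refine ⟨ι H g y, h2 h5, (mem_dom_of_ne H (l := l) (ι_mem H h5) fun h6 => hl ?_).1⟩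
    rw [crd_ι H h5, aeval_def, ← eval_map] at h6
    rw [aeval_def, ← eval_map]
    exact h4 () h6 p0 ((mem_Z_iff M g p0).1 hp0)

theorem stEXT : St_EXT := fun _ _ H _ _ _ _ h1 h2 h3 h4 h5 => S15.ext H h1 h2 h3 h4 h5

theorem stALG : St_ALG := by
  intro n M H f y b u0 hf hy hb
  obtain ⟨P, Q, h1, h2⟩ := S15.alg H hf hy hb
  have h3 := (h1 u0).2 hb
  refine ⟨P, Q, ⟨fun h => h3 (by rw [h, Polynomial.eval_zero]), fun u hu => ?_⟩, h3,
    fun u hu => ?_⟩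
  · exact (h2 u hu ▸ crd_mem H ((h1 u).1 hu) :)
  · exact (ι_crd H ((h1 u).1 hu)).symm.trans (congrArg (ι H b) (h2 u hu))

lemma chartHyp (hND : St_ND) (hEXT : St_EXT) (hALG : St_ALG) {M : Dat n} (H : M.Ok) (hE : Ext M)
    (b : M.B) {k : Type} [CommRing k] {c : k →+* ℂ} {S : Set (MvPolynomial (M.V b) k)}
    (hS : ∀ q, q ∈ M.Z ℂ b ↔ ∀ Φ ∈ S, eval₂ c q Φ = 0) :
    ChartHyp (atlas H) c S (M.Z ℂ b) (ι H b) (crd H b) Sum.inr where
  mem := hS
  cont := continuousOn_ι H b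
  crdι _ hq := crd_ι H hq
  crdc _ hq := continuousAt_crd H (ι_mem H hq)
  dense := by
    rw [image_ι]
    exact (hND n M H hE b).2.2
  chart q hq := by
    obtain ⟨ψ, hψ, hx⟩ := exists_chart H (ι_mem H hq)
    refine ⟨ψ, ⟨b, hψ⟩, hx, ?_, hψ.2.1, fun i t ht => analyticAt_pi_iff.1 (hψ.2.2 t ht) i⟩
    rw [image_ι]
    exact hψ.1
  gen I _ Φ p hp N hN := by
    obtain ⟨k0, i1, i2, c0, Ψ, h⟩ := exists_lift Φ
    obtain ⟨y, h1, h2, h3⟩ := (hND n M H hE b).2.1 k0 c0 p hp N hN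
    refine ⟨y, h1, h2, fun s hs q hq => ?_⟩
    rw [← h] at hs ⊢
    exact h3 _ hs q hq
  ext P Q := hEXT n M H b _ P Q isOpen_ball
  alg f y hf hy h0 := by
    rw [image_ι] at h0
    rw [Metric.cobounded_eq_cocompact] at hy
    obtain ⟨P, Q, h1, h2, h3⟩ := hALG n M H f y b 0 hf hy h0
    exact ⟨P, Q, h2, fun u hu => ⟨h1.2 u hu, h3 u hu⟩⟩

lemma lpHyp (hA : St_Atr) {M : Dat n} (H : M.Ok) : LPHyp (atlas H) := by
  intro f y hf hy hg hb
  rw [Metric.cobounded_eq_cocompact] at hy ⊢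
  exact Lp.lp hA (atlas H) (isOpen_good _) hf hy hg hb

theorem st_STEP (hA : St_Atr) : St_STEP := by
  have hALG := stALG
  have hND := stND
  have hEXT := stEXT
  rintro n M H hE x y ⟨f, hf, rfl, hy⟩ hg
  obtain ⟨b, hb⟩ := exists_dom H (f 0)
  obtain ⟨k, i1, i2, c, S, hS⟩ := exists_ring M b
  rw [← Metric.cobounded_eq_cocompact] at hy
  exact (chartHyp hND hEXT hALG H hE b hS).step (lpHyp hA H) hf hy hg (by rwa [image_ι])

theorem st_B0 : St_B0 := by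
  have hALG := stALG
  have hND := stND
  have hEXT := stEXT
  rintro n M H hE b h ⟨⟨p, hp, q, hq, hne⟩, hrc⟩
  obtain ⟨k, i1, i2, c, S, hS⟩ := exists_ring M b
  obtain ⟨-, q0, h1, h2, h3⟩ := (chartHyp hND hEXT hALG H hE b hS).exists_good h hp hq hne
    (fun p hp q hq hpq => by
      obtain ⟨P, Q, k1, k2, k3, k4, k5⟩ := hrc p hp q hq hpq
      exact ⟨P, Q, k2, k3, k4, k5, k1.2⟩)
  exact ⟨p, hp, q0, h1, h3, h2⟩

theorem st_FAM : St_FAM := by
  have hEXT := stEXT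
  intro n M H b p h
  obtain ⟨k, i1, i2, c, S, hS⟩ := exists_ring M b
  have := countable_mv (V := M.V b) (k := k)
  obtain ⟨P, Q, h1, h0, h2, h3⟩ := h (MvPolynomial (M.V b) k) (eval₂Hom c p)
  have hp : p ∈ M.Z ℂ b := h2 ▸ h1.2 0 h0
  obtain ⟨ψ, hψ, hx⟩ := exists_chart H (ι_mem H hp)
  have h2' : cv P Q 0 = p := h2
  obtain ⟨φ, t0, δ, k1, k2, k3, k4, k5⟩ := fam (fun G => Hol (atlas H) G (ball 0 1))
    (eval₂Hom c p) (MvPolynomial.map C '' S) (M.Z ℂ b) (fun q => by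
      rw [hS, Set.forall_mem_image]
      refine forall₂_congr fun Φ _ => ?_
      have h4 : (eval₂Hom c p).comp C = c := by
        ext x
        simp
      rw [eval₂_map, h4]) (ι H b) (continuousOn_ι H b) Sum.inr ψ
    (fun q hq hq2 => by rw [hψ.2.1 _ hq2, crd_ι H hq]) (fun t => crd H b (ψ.symm t))
    (fun i t ht => analyticAt_pi_iff.1 (hψ.2.2 t ht) i)
    (fun t ht => ⟨crd_mem H (hψ.1 (ψ.map_target ht)), ι_crd H (hψ.1 (ψ.map_target ht))⟩)
    (fun q hq q' hq' h => by rw [← crd_ι H hq, h, crd_ι H hq'])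
    (fun P Q => hEXT n M H b _ P Q isOpen_ball)
    (fun i => MvPolynomial.X i) P Q h1.2 (by rw [h2']; simp) h0 (by rwa [h2']) h3
  rw [h2'] at k3
  exact st_BB n _ (atlas H) ψ (ι H b p) φ t0 δ ⟨b, hψ⟩ hx k1 k2 k3 k4 k5

end Pool.Agent.RC.G
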