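import Pool.Agent.Lib.RC.Main5
import Pool.Agent.Lib.RC.AAll
import Pool.Agent.Lib.RC.B_ALL
import Pool.Agent.Lib.RC.B_STEP
import Pool.Agent.Lib.RC.B_CHAIN
import Pool.Agent.Lib.RC.B_PI1

namespace Pool.Agent.RC.G

open Pool.Agent.Lib.RC

theorem st_MAIN (hA : St_Asph) (hAll : St_ALL) (hP : St_PI1) : St_MAIN :=
  st_MAIN_of hA hAll hP stALG

theorem main_all : St_MAIN :=
  st_MAIN thm_Asph (st_ALL (st_STEP thm_Atr) st_B0 st_CHAIN) (P77.st_PI1 thm_Ator)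

end Pool.Agent.RC.G
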