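import Pool.Agent.Lib.RC.Stmt

open AlgebraicGeometry CategoryTheory Limits MvPolynomial

noncomputable section

namespace Pool.Agent.Lib.RC

/-- coordinate ring of the affine conic -/
abbrev DC : Type :=
  MvPolynomial (Fin 2) ℝ ⧸ Ideal.span {(X 0 ^ 2 + X 1 ^ 2 + 1 : MvPolynomial (Fin 2) ℝ)}

/-- structure morphism of an affine real scheme -/
abbrev spR (T : Type) [CommRing T] [Algebra ℝ T] : Spec (.of T) ⟶ Spec (.of ℝ) :=
  Spec.map (CommRingCat.ofHom (algebraMap ℝ T))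

/-- algebra of the affine conic -/
def St_DALG : Prop :=
  IsDomain DC ∧ (∀ (p : Ideal DC) [p.IsPrime] [IsDomain (Localization.AtPrime p)],
      ValuationRing (Localization.AtPrime p)) ∧
    (∀ F : MvPolynomial (Fin 2) ℝ,
      (∀ a b : ℂ, a ^ 2 + b ^ 2 + 1 = 0 → aeval ![a, b] F = 0) → Ideal.Quotient.mk _ F = (0 : DC)) ∧
    ∀ (A : Type) [CommRing A] [Algebra ℝ A] (φ : A →ₐ[ℝ] DC),
      (∀ p q : PrimeSpectrum DC, PrimeSpectrum.comap (φ : A →+* DC) p =
        PrimeSpectrum.comap (φ : A →+* DC) q) → Nonempty (A →ₐ[ℝ] ℝ)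

/-- the projective conic is covered by three copies of the affine conic -/
def St_CCH : Prop :=
  IsDomain DC → IsIntegral C0 ∧ ∃ j : Fin 3 → (Spec (.of DC) ⟶ C0), (∀ k, IsOpenImmersion (j k)) ∧
    (∀ k, j k ≫ C0str = spR DC) ∧ ∀ x : C0, ∃ k, x ∈ Set.range (j k)

/-- extension of a rational map from a curve to a proper scheme -/
def St_CEXT : Prop :=
  ∀ (C X S : Scheme.{0}) [IsIntegral C] (c : C ⟶ S) (s : X ⟶ S) [IsProper s],
    (∀ x : C, ValuationRing (C.presheaf.stalk x)) →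
    ∀ g : Spec C.functionField ⟶ X, g ≫ s = C.fromSpecStalk (genericPoint C) ≫ c →
      ∃ f : C ⟶ X, f ≫ s = c

/-- from a point over the function field of the conic to the conclusion -/
def St_FIN : Prop :=
  ∀ (X : Scheme.{0}) (s : X ⟶ Spec (.of ℝ)) [IsProper s],
    (∀ x : Spec (.of ℝ) ⟶ X, x ≫ s ≠ 𝟙 _) →
    ∀ g : Spec (.of (FractionRing DC)) ⟶ X, g ≫ s = spR (FractionRing DC) →
      ∃ f : C0 ⟶ X, f ≫ s = C0str ∧ ∃ a b : C0, f a ≠ f b

/-- the complex point `u = a` of the affine line -/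
abbrev evA (a : ℂ) : Spec (.of ℂ) ⟶ Spec (.of (Polynomial ℂ)) :=
  Spec.map (CommRingCat.ofHom (Polynomial.evalRingHom a))

/-- rational connectedness through the affine line -/
def RCA1 {Y : Scheme.{0}} (t : Y ⟶ Spec (.of ℂ)) : Prop :=
  ∃ U : (pullback t t).Opens, Dense (U : Set ↥(pullback t t)) ∧
    ∀ z : Spec (.of ℂ) ⟶ pullback t t, z ≫ pullback.fst t t ≫ t = 𝟙 _ → Set.range z ⊆ U →
      ∃ g : Spec (.of (Polynomial ℂ)) ⟶ Y,
        g ≫ t = Spec.map (CommRingCat.ofHom (algebraMap ℂ (Polynomial ℂ))) ∧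
        evA 0 ≫ g = z ≫ pullback.fst t t ∧ evA 1 ≫ g = z ≫ pullback.snd t t

def St_RC1 : Prop :=
  ∀ (Y : Scheme.{0}) (t : Y ⟶ Spec (.of ℂ)) [LocallyOfFiniteType t], RationallyConnected t → RCA1 t

/-- a smooth irreducible scheme has one relative dimension -/
def St_DIM : Prop :=
  ∀ (X : Scheme.{0}) (s : X ⟶ Spec (.of ℝ)) [Smooth s] [IsIntegral X],
    ∃ n, SmoothOfRelativeDimension n s

/-- the final statement -/
def St_RESULT : Prop :=
  ∀ (X : Scheme.{0}) (s : X ⟶ Spec (.of ℝ)) [Smooth s] [IsProper s] [GeometricallyIntegral s],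
    RationallyConnected (complexify s) → (∀ x : Spec (.of ℝ) ⟶ X, x ≫ s ≠ 𝟙 _) →
      ∃ f : C0 ⟶ X, f ≫ s = C0str ∧ ∃ a b : C0, f a ≠ f b

end Pool.Agent.Lib.RC
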