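import Pool.Agent.Lib.RC.Sch82c
import Pool.Agent.Lib.RC.Space7
import Pool.Agent.Lib.RC.Blue3

/-! From a finite atlas of a proper smooth real scheme to the polynomial gluing data. -/

set_option autoImplicit false

open AlgebraicGeometry CategoryTheory MvPolynomial

noncomputable section

namespace Pool.Agent.RC.S82

open Pool.Agent.RC.Sp Pool.Agent.Lib.RC

variable {X : Scheme.{0}} {s : X ⟶ Spec (.of ℝ)} {n : ℕ}

theorem Chart.Z_nonempty (ch : Chart s n) (h : (Set.range ch.j).Nonempty) :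
    ∃ p : ch.V → ℂ, ch.Z (algebraMap ℝ ℂ) p := by
  obtain ⟨_, x, -⟩ := h
  have : Nontrivial ch.A := PrimeSpectrum.nonempty_iff_nontrivial.1 ⟨x⟩
  obtain ⟨m, hm⟩ := Ideal.exists_maximal ch.A
  let _ := Ideal.Quotient.field m
  have : Module.Finite ℝ (ch.A ⧸ m) := finite_of_finite_type_of_isJacobsonRing ℝ _
  let φ : ch.A →ₐ[ℝ] ℂ := (IsAlgClosed.lift : (ch.A ⧸ m) →ₐ[ℝ] ℂ).comp (Ideal.Quotient.mkₐ ℝ m)
  obtain ⟨hp, -⟩ := ch.exists_of_hom (φ : ch.A →+* ℂ)
  have hκ : (φ : ch.A →+* ℂ).comp (qmap ch.eqn) = algebraMap ℝ ℂ :=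
    RingHom.ext fun r => φ.commutes r
  exact ⟨_, hκ ▸ hp⟩

namespace Pres

variable (P : Pres s n)

/-- the polynomial data of an atlas -/
def dat : Dat n where
  B := Fin P.m
  c b := (P.ch b).c
  eqn b := (P.ch b).eqn
  L := P.L
  ob := P.ob
  oa := P.oa

theorem mem_Z (K : Type) [CommRing K] [Algebra ℝ K] (b : Fin P.m) (p : (P.ch b).V → K) :
    p ∈ P.dat.Z K b ↔ (P.ch b).Z (algebraMap ℝ K) p := Iff.rfl

theorem dat_same {K : Type} [CommRing K] [Algebra ℝ K] (b g : Fin P.m) (p : (P.ch b).V → K)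
    (q : (P.ch g).V → K) : P.dat.Same b g p q ↔ P.Same (algebraMap ℝ K) b g p q := Iff.rfl

theorem Z_nonempty (b : Fin P.m) : (P.dat.Z ℂ b).Nonempty := (P.ch b).Z_nonempty (P.ne b)

theorem ve' [UniversallyClosed s] (K : Type) [Field K] [Algebra ℝ K] (O : ValuationSubring K)
    (hO : ∀ r, algebraMap ℝ K r ∈ O) (b : Fin P.m) (p : (P.ch b).V → K) (hp : p ∈ P.dat.Z K b) :
    ∃ g, ∃ q ∈ P.dat.Z K g, (∀ i, q i ∈ O) ∧ P.dat.Same b g p q :=
  P.ve (algebraMap ℝ K) O hO b p hp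

theorem vu' [IsSeparated s] {T K K' : Type} [CommRing T] [Algebra ℝ T] [Field K] [Algebra ℝ K]
    [Field K'] [Algebra ℝ K'] (j : T →ₐ[ℝ] K) (hj : Function.Injective j) (st : T →ₐ[ℝ] K')
    (b g : Fin P.m) (p : (P.ch b).V → T) (q : (P.ch g).V → T)
    (hp : (fun i => j (p i)) ∈ P.dat.Z K b)
    (h : P.dat.Same b g (fun i => j (p i)) (fun i => j (q i))) :
    (fun i => st (p i)) ∈ P.dat.Z K' b ∧
      P.dat.Same b g (fun i => st (p i)) (fun i => st (q i)) := by
  have h1 : (j : T →+* K).comp (algebraMap ℝ T) = algebraMap ℝ K := j.comp_algebraMap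
  have h2 : (st : T →+* K').comp (algebraMap ℝ T) = algebraMap ℝ K' := st.comp_algebraMap
  have := P.vu (algebraMap ℝ T) (j : T →+* K) hj (st : T →+* K') b g p q
    (by rw [h1]; exact hp) (by rw [h1]; exact h)
  rw [h2] at this
  exact this

theorem vu_val [IsSeparated s] {K K' : Type} [Field K] [Algebra ℝ K] [Field K'] [Algebra ℝ K']
    (O : ValuationSubring K) (hO : ∀ r, algebraMap ℝ K r ∈ O) (st : O →+* K')
    (hst : ∀ r, st ⟨_, hO r⟩ = algebraMap ℝ K' r) (b g : Fin P.m) (p : (P.ch b).V → O)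
    (q : (P.ch g).V → O) (hp : (fun i => (p i : K)) ∈ P.dat.Z K b)
    (h : P.dat.Same b g (fun i => (p i : K)) (fun i => (q i : K))) :
    (fun i => st (p i)) ∈ P.dat.Z K' b ∧
      P.dat.Same b g (fun i => st (p i)) (fun i => st (q i)) := by
  let κ : ℝ →+* O := (algebraMap ℝ K).codRestrict O.toSubring hO
  have h2 : st.comp κ = algebraMap ℝ K' := RingHom.ext hst
  have := P.vu κ O.subtype Subtype.val_injective st b g p q hp h
  rw [h2] at this
  exact this

theorem ok [IsProper s] [Nonempty X] : P.dat.Ok where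
  fin := inferInstanceAs (Finite (Fin P.m))
  ne := by
    obtain ⟨b, -⟩ := P.cover (Classical.arbitrary X)
    exact ⟨b, P.Z_nonempty b⟩
  smooth b _ hp := (P.ch b).jac_ne hp
  mem b g l p hp h := P.Z_div _ b g p hp l h
  refl b p hp := (P.same_self _ b p p hp).2 rfl
  symm _ _ _ _ _ _ hp _ _ h := P.same_symm hp h
  trans _ _ _ _ _ _ _ hp _ _ _ _ h h' := P.same_trans hp h h'
  inj b p hp q _ h := (P.same_self _ b p q hp).1 h
  ve _ U b p hp := P.ve' _ (Ult.O U) Ult.real_mem_O b p hp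
  vu _ U b g p q hp _ h :=
    (P.vu_val (Ult.O U) Ult.real_mem_O (Ult.st U) (fun r => Ult.st_const (r : ℂ) _) b g p q hp h).2

end Pres

theorem homog {V W : Type} (A : V → MvPolynomial W ℝ) (B : MvPolynomial W ℝ)
    (e : MvPolynomial V ℝ) : ∃ (N : ℕ) (F : MvPolynomial W ℝ),
      ∀ (K : Type) [Field K] [Algebra ℝ K] (v : W → K), aeval v B ≠ 0 →
        aeval v F = aeval v B ^ N * aeval (fun i => aeval v (A i) / aeval v B) e := by
  induction e using MvPolynomial.induction_on with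
  | C a => exact ⟨0, C a, fun K _ _ v _ => by simp⟩
  | add p q hp hq =>
    obtain ⟨N, F, h⟩ := hp
    obtain ⟨N', F', h'⟩ := hq
    refine ⟨N + N', F * B ^ N' + F' * B ^ N, fun K _ _ v hv => ?_⟩
    simp only [map_add, map_mul, map_pow, h K v hv, h' K v hv]
    ring
  | mul_X p i hp =>
    obtain ⟨N, F, h⟩ := hp
    refine ⟨N + 1, F * A i, fun K _ _ v hv => ?_⟩
    simp only [map_mul, aeval_X, h K v hv]
    field_simp
    ring

/-- a fraction that maps the complex conic into a chart gives a point over its function field -/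
theorem Chart.conic_pt (hD : St_DALG) (ch : Chart s n) (A : ch.V → MvPolynomial (Fin 2) ℝ)
    (B : MvPolynomial (Fin 2) ℝ) (hB : ∃ a b : ℂ, a ^ 2 + b ^ 2 + 1 = 0 ∧ aeval ![a, b] B ≠ 0)
    (hZ : ∀ a b : ℂ, a ^ 2 + b ^ 2 + 1 = 0 → aeval ![a, b] B ≠ 0 →
      ∀ k, aeval (fun i => aeval ![a, b] (A i) / aeval ![a, b] B) (ch.eqn k) = 0) :
    ∃ g : Spec (.of (FractionRing DC)) ⟶ X, g ≫ s = spR (FractionRing DC) := by
  obtain ⟨hdom, -, hvan, -⟩ := hD
  let φ : MvPolynomial (Fin 2) ℝ →ₐ[ℝ] FractionRing DC :=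
    (IsScalarTower.toAlgHom ℝ DC (FractionRing DC)).comp (Ideal.Quotient.mkₐ ℝ _)
  let v : Fin 2 → FractionRing DC := fun i => φ (MvPolynomial.X i)
  have hv : ∀ F, aeval v F = algebraMap DC (FractionRing DC) (Ideal.Quotient.mk _ F) := fun F =>
    (DFunLike.congr_fun (MvPolynomial.aeval_unique φ) F).symm
  have hB0 : aeval v B ≠ 0 := by
    obtain ⟨a, b, hab, h⟩ := hB
    intro h0
    rw [hv, IsFractionRing.to_map_eq_zero_iff, Ideal.Quotient.eq_zero_iff_mem,
      Ideal.mem_span_singleton] at h0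
    obtain ⟨c, rfl⟩ := h0
    apply h
    simp [hab]
  have hp : ch.Z (algebraMap ℝ (FractionRing DC)) fun i => aeval v (A i) / aeval v B := by
    intro k
    obtain ⟨N, F, h⟩ := homog A B (ch.eqn k)
    have h1 := hvan (B * F) fun a b hab => by
      rw [map_mul]
      by_cases h0 : aeval ![a, b] B = 0
      · rw [h0, zero_mul]
      · rw [h ℂ _ h0, hZ a b hab h0 k, mul_zero, mul_zero]
    have h2 : aeval v (B * F) = 0 := by rw [hv, h1, map_zero]
    rw [map_mul, h _ v hB0] at h2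
    exact (mul_eq_zero.1 ((mul_eq_zero.1 h2).resolve_left hB0)).resolve_left (pow_ne_zero N hB0)
  exact ⟨ch.pt _ _ hp, ch.pt_over _ _ hp⟩

end Pool.Agent.RC.S82
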