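import Pool.Agent.Lib.RC.Sch72d
import Pool.Agent.Lib.RC.Sch82d
import Pool.Agent.Lib.RC.BlueG

open AlgebraicGeometry CategoryTheory

noncomputable section

namespace Pool.Agent.RC.S72

open Pool.Agent.RC.S82 Pool.Agent.Lib.RC

/-- Geometric integrality and rational connectedness pass to the polynomial data of an atlas. -/
theorem st_SEXT {X : Scheme.{0}} {s : X ⟶ Spec (.of ℝ)} {n : ℕ} [GeometricallyIntegral s]
    (H : RCA1 (complexify s)) (P : Pres s n) : G.Ext P.dat where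
  dom b := pres_dom P b
  meet b g := by
    obtain ⟨p, hp, h⟩ := pres_meet P b g
    exact ⟨p, hp, h⟩
  rc b := by
    obtain ⟨h, ⟨p, q, hp, hq, hpq⟩, hh⟩ := pres_rc H P b
    refine ⟨h, ⟨p, hp, q, hq, hpq⟩, fun p hp q hq hpq => ?_⟩
    obtain ⟨R, Q, c0, c1, c2, c3, c4⟩ := hh p q hp hq hpq
    refine ⟨R, Q, ⟨?_, c4⟩, c0, c1, funext c2, funext c3⟩
    rintro rfl
    exact c0 (Polynomial.eval_zero)

end Pool.Agent.RC.S72
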