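import Mathlib

namespace Pool.Agent.Lib.RC

open Set Metric Complex Filter Topology

abbrev E (n : ℕ) := Fin n → ℂ
abbrev Cell := ℤ × ℤ

/-- centre of cell `j` -/
noncomputable def pt (κ : ℝ) (j : Cell) : ℂ := κ * j.1 + I * j.2
/-- enlarged open cell -/
def Q (κ : ℝ) (j : Cell) : Set ℂ := {z | |z.re / κ - j.1| < 4 / 5 ∧ |z.im - j.2| < 4 / 5}

/-- symmetries: `(false, a)` = translation by `a`, `(true, a)` = `z ↦ -conj z + pt a` -/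
abbrev Sy := Bool × Cell
def cj (b : Bool) (z : ℂ) : ℂ := if b then -(starRingEnd ℂ z) else z
def st {n : ℕ} (b : Bool) (x : E n) : E n := if b then star x else x
def sv {n : ℕ} (b : Bool) (x : E n) : E n := if b then -star x else x
def rc (s : Sy) (j : Cell) : Cell := (if s.1 then (-j.1, j.2) else j) + s.2
noncomputable def rz (κ : ℝ) (s : Sy) (z : ℂ) : ℂ := cj s.1 z + pt κ s.2
/-- allowed symmetry sets: translations only, or one reflection -/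
def SyOk (G : Set Sy) : Prop := (∀ s ∈ G, s.1 = false) ∨ ∃ a, G = {(true, a)}

/-- combinatorial data: `cls i = cls j` is the relation `i ~ j` -/
structure Comb where
  κ : ℝ
  κ1 : 1 ≤ κ
  κ2 : κ ≤ 2
  cls : Cell → Cell
  pole : Cell → Prop
  sing : ∀ i j, pole i → cls i = cls j → i = j
  two : ∀ k l, dist k l ≤ 1 → cls k ≠ cls l →
    ∃ a b, a ≠ b ∧ pole a ∧ pole b ∧ dist a k ≤ 3 ∧ dist b k ≤ 3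
  G : Set Sy
  Gok : SyOk G
  Gcls : ∀ s ∈ G, ∀ i j, cls (rc s i) = cls (rc s j) ↔ cls i = cls j
  Gpole : ∀ s ∈ G, ∀ i, pole (rc s i) ↔ pole i

/-- a state: class functions `g`, residues `v`, holomorphic on the cells, symmetric -/
structure State {n : ℕ} (K : Comb) (g : Cell → ℂ → E n) (v : Cell → E n) : Prop where
  cl : ∀ i j, K.cls i = K.cls j → g i = g j
  np : ∀ i, ¬ K.pole i → v i = 0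
  hol : ∀ i, DifferentiableOn ℂ (g i) (Q K.κ i)
  sg : ∀ s ∈ K.G, ∀ i, ∀ z ∈ Q K.κ i, g (rc s i) (rz K.κ s z) = st s.1 (g i z)
  sr : ∀ s ∈ K.G, ∀ i, v (rc s i) = sv s.1 (v i)

/-- hypotheses of LIN -/
structure LinHyp {n : ℕ} (K : Comb) (C1 M ε δ : ℝ) (L : Cell → Cell → E n →L[ℂ] E n)
    (c : Cell → Cell → ℂ → E n) : Prop where
  Lcl : ∀ i i' k, K.cls i = K.cls i' → L i k = L i' k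
  ccl : ∀ i i' k, K.cls i = K.cls i' → c i k = c i' k
  c0 : ∀ i k, K.cls i = K.cls k → c i k = 0
  hol : ∀ i k, DifferentiableOn ℂ (c i k) (Q K.κ i ∩ Q K.κ k)
  cb : ∀ i k, ∀ z ∈ Q K.κ i ∩ Q K.κ k, ‖c i k z‖ ≤ δ
  Lb : ∀ i k, dist i k ≤ M → ‖L i k‖ ≤ C1
  Lco : ∀ i j k, dist i j ≤ 1 → dist i k ≤ M → dist j k ≤ M →
    ‖(L i j).comp (L j k) - L i k‖ ≤ ε
  cco : ∀ i j k, ∀ z ∈ Q K.κ i ∩ Q K.κ j ∩ Q K.κ k,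
    ‖c i k z - c i j z - L i j (c j k z)‖ ≤ ε * δ
  Ls : ∀ s ∈ K.G, ∀ i k, dist i k ≤ M → ∀ x,
    L (rc s i) (rc s k) (st s.1 x) = st s.1 (L i k x)
  cs : ∀ s ∈ K.G, ∀ i k, ∀ z ∈ Q K.κ i ∩ Q K.κ k,
    c (rc s i) (rc s k) (rz K.κ s z) = st s.1 (c i k z)

/-- I.2 LIN + LINsym -/
def St_LIN : Prop :=
  ∀ (n : ℕ) (C1 : ℝ), 1 ≤ C1 → ∃ C2 : ℝ, 1 ≤ C2 ∧ ∀ (K : Comb) (M ε δ : ℝ), 10 ≤ M → 0 ≤ ε →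
    ε ≤ 1 → 0 ≤ δ → ∀ (L : Cell → Cell → E n →L[ℂ] E n) (c : Cell → Cell → ℂ → E n),
    LinHyp K C1 M ε δ L c → ∃ (g : Cell → ℂ → E n) (v : Cell → E n), State K g v ∧
      (∀ i, ∀ z ∈ Q K.κ i, ‖g i z‖ ≤ C2 * δ) ∧ (∀ i, ‖v i‖ ≤ C2 * δ) ∧
      (∀ i j, K.cls i ≠ K.cls j → ∀ z ∈ Q K.κ i ∩ Q K.κ j,
        ‖g i z + (z - pt K.κ i)⁻¹ • v i - L i j (g j z + (z - pt K.κ j)⁻¹ • v j) - c i j z‖ ≤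
          C2 * (ε + 1 / M) * δ) ∧
      ∀ i (D : ℝ), 1 ≤ D → (∀ j, dist j i ≤ D → K.cls j = K.cls i) →
        ∀ z ∈ Q K.κ i, ‖g i z‖ ≤ C2 * δ / D

abbrev Chart (X : Type) [TopologicalSpace X] (n : ℕ) := OpenPartialHomeomorph X (E n)

/-- I.0: holomorphic atlas with an antiholomorphic involution -/
structure Atlas (X : Type) [TopologicalSpace X] (n : ℕ) where
  A : Set (Chart X n)
  σ : X → X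
  σc : Continuous σ
  σσ : ∀ x, σ (σ x) = x
  cover : ∀ x, ∃ ψ ∈ A, x ∈ ψ.source
  tr : ∀ ψ ∈ A, ∀ ψ' ∈ A, ∀ y ∈ ψ.target, ψ.symm y ∈ ψ'.source →
    AnalyticAt ℂ (fun y => ψ' (ψ.symm y)) y
  mir : ∀ ψ ∈ A, ∃ ψ' ∈ A, ψ'.source = σ ⁻¹' ψ.source ∧ (∀ x, ψ' x = star (ψ (σ x))) ∧
    ∀ y, ψ'.symm y = σ (ψ.symm (star y))

variable {X : Type} [TopologicalSpace X] {n : ℕ}

def Atlas.sx (𝒜 : Atlas X n) (b : Bool) (x : X) : X := if b then 𝒜.σ x else x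

def Hol (𝒜 : Atlas X n) (f : ℂ → X) (Ω : Set ℂ) : Prop :=
  ContinuousOn f Ω ∧ ∀ ψ ∈ 𝒜.A, DifferentiableOn ℂ (fun z => ψ (f z)) (Ω ∩ f ⁻¹' ψ.source)

def Adm (e : E n) (r : ℝ) (g : ℂ → E n) (v : E n) : Prop :=
  DifferentiableOn ℂ g (ball 0 1) ∧ (∀ s ∈ ball (0 : ℂ) 1, ‖g s - e‖ ≤ r) ∧ ‖v‖ ≤ r

/-- bubble datum -/
structure Datum (𝒜 : Atlas X n) (ψ : Chart X n) (e : E n) (r r' C : ℝ)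
    (Ψ : (ℂ → E n) → E n → ℂ → E n) : Prop where
  mem : ψ ∈ 𝒜.A
  r0 : 0 < r
  rr : r ≤ r'
  tgt : ball e (8 * r') ⊆ ψ.target
  hol : ∀ g v, Adm e r g v → DifferentiableOn ℂ (Ψ g v) {s | 1 / 2 < ‖s‖}
  bd : ∀ g v, Adm e r g v → ∀ s : ℂ, 1 / 2 < ‖s‖ → ‖Ψ g v s‖ ≤ r' / ‖s‖ ^ 2
  lip : ∀ g v g' v' (d : ℝ), Adm e r g v → Adm e r g' v' →
    (∀ s ∈ ball (0 : ℂ) 1, ‖g s - g' s‖ ≤ d) → ‖v - v'‖ ≤ d →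
    ∀ s : ℂ, 1 / 2 < ‖s‖ → ‖Ψ g v s - Ψ g' v' s‖ ≤ C * d / ‖s‖ ^ 2
  bub : ∀ g v, Adm e r g v → ∃ G, Hol 𝒜 G (ball 0 1) ∧
    ∀ s : ℂ, 1 / 2 < ‖s‖ → ‖s‖ < 1 → G s = ψ.symm (g s + s⁻¹ • v + Ψ g v s)

/-- hypotheses of NL -/
structure NLHyp (𝒜 : Atlas X n) (K : Comb) (C1 M ε r r' C δ0 η : ℝ) (ψ : Cell → Chart X n)
    (e : Cell → E n) (g0 : Cell → ℂ → E n) (Ψ : Cell → (ℂ → E n) → E n → ℂ → E n) : Prop where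
  mem : ∀ i, ψ i ∈ 𝒜.A
  cl : ∀ i j, K.cls i = K.cls j → ψ i = ψ j
  s0 : State K g0 0
  g0b : ∀ i, ∀ z ∈ Q K.κ i, ‖g0 i z - e i‖ ≤ η
  dat : ∀ i, K.pole i → ∃ e' ri ri' Ci, Datum 𝒜 (ψ i) e' ri ri' Ci (Ψ i) ∧ r ≤ ri ∧ ri' ≤ r' ∧
    Ci ≤ C ∧ ‖e i - e'‖ ≤ ri / 4
  tgt : ∀ k, ball (e k) δ0 ⊆ (ψ k).target
  src : ∀ i k, dist i k ≤ M → ∀ y ∈ ball (e k) δ0, (ψ k).symm y ∈ (ψ i).source
  uc : ∀ i k, dist i k ≤ M → ∀ y ∈ ball (e k) δ0,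
    ‖fderiv ℂ (fun y => ψ i ((ψ k).symm y)) y - fderiv ℂ (fun y => ψ i ((ψ k).symm y)) (e k)‖ ≤ ε
  Lb : ∀ i k, dist i k ≤ M → ‖fderiv ℂ (fun y => ψ i ((ψ k).symm y)) (e k)‖ ≤ C1
  ctr : ∀ i k, dist i k ≤ M → ‖ψ i ((ψ k).symm (e k)) - e i‖ ≤ η
  sψ : ∀ s ∈ K.G, ∀ i x, ψ (rc s i) (𝒜.sx s.1 x) = st s.1 (ψ i x)
  sψ' : ∀ s ∈ K.G, ∀ i y, (ψ (rc s i)).symm (st s.1 y) = 𝒜.sx s.1 ((ψ i).symm y)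
  se : ∀ s ∈ K.G, ∀ i, e (rc s i) = st s.1 (e i)
  sΨ : ∀ s ∈ K.G, ∀ i, K.pole i → ∀ g v u,
    Ψ (rc s i) (fun w => st s.1 (g (cj s.1 w))) (sv s.1 v) (cj s.1 u) = st s.1 (Ψ i g v u)

/-- I.3 NL -/
def St_NL : Prop :=
  ∀ (n : ℕ) (C1 : ℝ), 1 ≤ C1 → ∃ ε M C3 : ℝ, 0 < ε ∧ 10 ≤ M ∧ 0 < C3 ∧
    ∀ r r' C δ0 : ℝ, 0 < r → 0 < δ0 → ∃ η0 : ℝ, 0 < η0 ∧ ∀ η, 0 < η → η ≤ η0 →
    ∀ (X : Type) [TopologicalSpace X] [T2Space X] (𝒜 : Atlas X n) (K : Comb)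
      (ψ : Cell → Chart X n) (e : Cell → E n) (g0 : Cell → ℂ → E n)
      (Ψ : Cell → (ℂ → E n) → E n → ℂ → E n), NLHyp 𝒜 K C1 M ε r r' C δ0 η ψ e g0 Ψ →
    ∃ f : ℂ → X, Hol 𝒜 f univ ∧ (∀ s ∈ K.G, ∀ z, f (rz K.κ s z) = 𝒜.sx s.1 (f z)) ∧
      (∀ i, ∀ z ∈ Q K.κ i, (K.pole i → 1 / 5 ≤ ‖z - pt K.κ i‖) →
        f z ∈ (ψ i).source ∧ ‖ψ i (f z) - g0 i z‖ ≤ C3 * η) ∧
      ∀ i (D : ℝ), 1 ≤ D → (∀ j, dist j i ≤ D → K.cls j = K.cls i) →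
        ∀ z ∈ Q K.κ i, ‖ψ i (f z) - g0 i z‖ ≤ C3 * η / D

/-! ### NL split in two: the iteration (`St_NLE`) and the gluing (`St_GLUE`) -/

open Classical in
/-- outer representation of the state in the chart of cell `i` -/
noncomputable def Fo (K : Comb) (ϱ : ℝ) (Ψ : Cell → (ℂ → E n) → E n → ℂ → E n)
    (g : Cell → ℂ → E n) (v : Cell → E n) (i : Cell) (z : ℂ) : E n :=
  g i z + (z - pt K.κ i)⁻¹ • v i +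
    if K.pole i then
      Ψ i (fun s => g i (pt K.κ i + ϱ * s)) ((ϱ : ℂ)⁻¹ • v i) ((z - pt K.κ i) / ϱ)
    else 0

/-- a state without mismatch -/
structure Solved (K : Comb) (r δ0 ϱ : ℝ) (ψ : Cell → Chart X n) (e : Cell → E n)
    (Ψ : Cell → (ℂ → E n) → E n → ℂ → E n) (g : Cell → ℂ → E n) (v : Cell → E n) : Prop where
  ϱ0 : 0 < ϱ
  ϱ1 : ϱ ≤ 1 / 10
  state : State K g v
  gb : ∀ i, ∀ z ∈ Q K.κ i, ‖g i z - e i‖ ≤ r / 2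
  vb : ∀ i, ‖v i‖ ≤ r * ϱ
  Fb : ∀ i, ∀ z ∈ Q K.κ i, (K.pole i → 1 / 5 ≤ ‖z - pt K.κ i‖) →
    Fo K ϱ Ψ g v i z ∈ ball (e i) δ0
  fit : ∀ i j, i ≠ j → ∀ z ∈ Q K.κ i ∩ Q K.κ j,
    ψ i ((ψ j).symm (Fo K ϱ Ψ g v j z)) = Fo K ϱ Ψ g v i z

/-- the iteration of I.3 -/
def St_NLE : Prop :=
  ∀ (n : ℕ) (C1 : ℝ), 1 ≤ C1 → ∃ ε M C3 : ℝ, 0 < ε ∧ 10 ≤ M ∧ 0 < C3 ∧
    ∀ r r' C δ0 : ℝ, 0 < r → 0 < δ0 → ∃ η0 : ℝ, 0 < η0 ∧ ∀ η, 0 < η → η ≤ η0 →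
    ∀ (X : Type) [TopologicalSpace X] [T2Space X] (𝒜 : Atlas X n) (K : Comb)
      (ψ : Cell → Chart X n) (e : Cell → E n) (g0 : Cell → ℂ → E n)
      (Ψ : Cell → (ℂ → E n) → E n → ℂ → E n), NLHyp 𝒜 K C1 M ε r r' C δ0 η ψ e g0 Ψ →
    ∃ (ϱ : ℝ) (g : Cell → ℂ → E n) (v : Cell → E n), Solved K r δ0 ϱ ψ e Ψ g v ∧
      (∀ i, ∀ z ∈ Q K.κ i, (K.pole i → 1 / 5 ≤ ‖z - pt K.κ i‖) →
        ‖Fo K ϱ Ψ g v i z - g0 i z‖ ≤ C3 * η) ∧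
      ∀ i (D : ℝ), 1 ≤ D → (∀ j, dist j i ≤ D → K.cls j = K.cls i) →
        ∀ z ∈ Q K.κ i, ‖g i z - g0 i z‖ ≤ C3 * η / D

/-- the gluing of I.3 -/
def St_GLUE : Prop :=
  ∀ (n : ℕ) (X : Type) [TopologicalSpace X] [T2Space X] (𝒜 : Atlas X n) (K : Comb)
    (C1 M ε r r' C δ0 η ϱ : ℝ) (ψ : Cell → Chart X n) (e : Cell → E n) (g0 : Cell → ℂ → E n)
    (Ψ : Cell → (ℂ → E n) → E n → ℂ → E n) (g : Cell → ℂ → E n) (v : Cell → E n),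
    10 ≤ M → 0 < r → NLHyp 𝒜 K C1 M ε r r' C δ0 η ψ e g0 Ψ → Solved K r δ0 ϱ ψ e Ψ g v →
    ∃ f : ℂ → X, Hol 𝒜 f univ ∧ (∀ s ∈ K.G, ∀ z, f (rz K.κ s z) = 𝒜.sx s.1 (f z)) ∧
      ∀ i, ∀ z ∈ Q K.κ i, (K.pole i → 1 / 5 ≤ ‖z - pt K.κ i‖) →
        f z = (ψ i).symm (Fo K ϱ Ψ g v i z)

/-! ### The good set, BB, and Theorem (A) -/

/-- the good set `B` -/
def Good (𝒜 : Atlas X n) : Set X :=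
  {x | ∃ ψ e r r' C Ψ, Datum 𝒜 ψ e r r' C Ψ ∧ x ∈ ψ.source ∧ ‖ψ x - e‖ < r / 4}

/-- I.1 BB -/
def St_BB : Prop :=
  ∀ (n : ℕ) (X : Type) [TopologicalSpace X] (𝒜 : Atlas X n) (ψ : Chart X n) (x : X)
    (φ : ℂ × E n → E n) (t0 : E n) (δ : ℝ), ψ ∈ 𝒜.A → x ∈ ψ.source → 0 < δ →
    AnalyticOnNhd ℂ φ (closedBall 0 1 ×ˢ closedBall t0 δ) →
    (∀ t ∈ closedBall t0 δ, φ (0, t) = ψ x) →
    (∃ u : ℂ, ‖u‖ ≤ 1 ∧ Function.Injective (fderiv ℂ (fun t => φ (u, t)) t0)) →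
    (∀ lam : ℝ, 0 < lam → lam ≤ 1 / 2 → ∀ t : ℂ → E n, DifferentiableOn ℂ t (ball 0 1) →
      (∀ s ∈ ball (0 : ℂ) 1, ‖t s - t0‖ ≤ δ) → ∃ G, Hol 𝒜 G (ball 0 1) ∧
        ∀ s : ℂ, 1 / 2 < ‖s‖ → ‖s‖ < 1 → G s = ψ.symm (φ ((lam : ℂ) ^ 2 / s ^ 2, t s))) →
    x ∈ Good 𝒜

/-- `ψ'` is the mirror image of `ψ` -/
def IsMir (𝒜 : Atlas X n) (ψ ψ' : Chart X n) : Prop :=
  ψ'.source = 𝒜.σ ⁻¹' ψ.source ∧ (∀ x, ψ' x = star (ψ (𝒜.σ x))) ∧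
    ∀ y, ψ'.symm y = 𝒜.σ (ψ.symm (star y))

/-- mirror image of a tail operator -/
def mirΨ (Ψ : (ℂ → E n) → E n → ℂ → E n) (g : ℂ → E n) (v : E n) (u : ℂ) : E n :=
  star (Ψ (fun w => star (g (cj true w))) (-star v) (cj true u))

/-- mirror datum -/
def St_MIR : Prop :=
  ∀ (n : ℕ) (X : Type) [TopologicalSpace X] (𝒜 : Atlas X n) (ψ ψ' : Chart X n) (e : E n)
    (r r' C : ℝ) (Ψ : (ℂ → E n) → E n → ℂ → E n), Datum 𝒜 ψ e r r' C Ψ → ψ' ∈ 𝒜.A →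
    IsMir 𝒜 ψ ψ' → Datum 𝒜 ψ' (star e) r r' C (mirΨ Ψ)

/-- finitely many stations for a compact subset of the good set -/
def St_STN : Prop :=
  ∀ (n : ℕ) (X : Type) [MetricSpace X] (𝒜 : Atlas X n) (K' : Set X), IsCompact K' →
    K' ⊆ Good 𝒜 → ∃ (m : ℕ) (ψ : Fin m → Chart X n) (Kc : Fin m → Set X)
      (Ψ : Fin m → (ℂ → E n) → E n → ℂ → E n) (r r' C : ℝ), 0 < r ∧
      (∀ x ∈ K', ∃ a, x ∈ Kc a) ∧ ∀ a, IsCompact (Kc a) ∧ Kc a ⊆ (ψ a).source ∧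
        ∃ e' ri ri' Ci, Datum 𝒜 (ψ a) e' ri ri' Ci (Ψ a) ∧ r ≤ ri ∧ ri' ≤ r' ∧ Ci ≤ C ∧
          ∀ x ∈ Kc a, ‖ψ a x - e'‖ ≤ ri / 4

/-- uniform chart changes over finitely many stations -/
def St_UC : Prop :=
  ∀ (n : ℕ) (X : Type) [MetricSpace X] (𝒜 : Atlas X n) (S : Type) [Finite S]
    (ψ : S → Chart X n) (Kc : S → Set X), (∀ a, ψ a ∈ 𝒜.A) → (∀ a, IsCompact (Kc a)) →
    (∀ a, Kc a ⊆ (ψ a).source) → ∃ C1 : ℝ, 1 ≤ C1 ∧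
    (∀ ε : ℝ, 0 < ε → ∃ δ0 γ : ℝ, 0 < δ0 ∧ 0 < γ ∧ ∀ a b, ∀ x ∈ Kc a, ∀ x' ∈ Kc b,
      dist x x' ≤ γ → ball (ψ b x') δ0 ⊆ (ψ b).target ∧
        (∀ y ∈ ball (ψ b x') δ0, (ψ b).symm y ∈ (ψ a).source ∧
          ‖fderiv ℂ (fun y => ψ a ((ψ b).symm y)) y -
            fderiv ℂ (fun y => ψ a ((ψ b).symm y)) (ψ b x')‖ ≤ ε) ∧
        ‖fderiv ℂ (fun y => ψ a ((ψ b).symm y)) (ψ b x')‖ ≤ C1) ∧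
    (∀ η : ℝ, 0 < η → ∃ γ : ℝ, 0 < γ ∧ ∀ a, ∀ x ∈ Kc a, ∀ x', dist x x' ≤ γ →
      x' ∈ (ψ a).source ∧ ‖ψ a x' - ψ a x‖ ≤ η) ∧
    ∀ ε : ℝ, 0 < ε → ∃ η : ℝ, 0 < η ∧ ∀ a, ∀ x ∈ Kc a, ∀ x' ∈ (ψ a).source,
      ‖ψ a x' - ψ a x‖ ≤ η → dist x' x < ε

/-- hypotheses of A1: a slowly varying map `F0` and a symmetric choice of stations -/
structure A1Hyp {X : Type} [MetricSpace X] (𝒜 : Atlas X n) {S : Type} (ψ : S → Chart X n)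
    (Kc : S → Set X) (r r' C R γ : ℝ) (K : Comb) (F0 : ℂ → X) (sn : Cell → S)
    (Ψ : Cell → (ℂ → E n) → E n → ℂ → E n) : Prop where
  slow : ∀ z w, dist z w ≤ R → dist (F0 z) (F0 w) ≤ γ
  cl : ∀ i j, K.cls i = K.cls j → sn i = sn j
  core : ∀ i, F0 (pt K.κ i) ∈ Kc (sn i)
  cap : ∀ i, ¬ K.pole i → Hol 𝒜 F0 (Q K.κ i) ∧ MapsTo F0 (Q K.κ i) (Kc (sn i))
  dat : ∀ i, K.pole i → ∃ e' ri ri' Ci, Datum 𝒜 (ψ (sn i)) e' ri ri' Ci (Ψ i) ∧ r ≤ ri ∧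
    ri' ≤ r' ∧ Ci ≤ C ∧ ‖ψ (sn i) (F0 (pt K.κ i)) - e'‖ ≤ ri / 4
  sF : ∀ s ∈ K.G, ∀ z, F0 (rz K.κ s z) = 𝒜.sx s.1 (F0 z)
  sψ : ∀ s ∈ K.G, ∀ i x, ψ (sn (rc s i)) (𝒜.sx s.1 x) = st s.1 (ψ (sn i) x)
  sψ' : ∀ s ∈ K.G, ∀ i y, (ψ (sn (rc s i))).symm (st s.1 y) = 𝒜.sx s.1 ((ψ (sn i)).symm y)
  sΨ : ∀ s ∈ K.G, ∀ i, K.pole i → ∀ g v u,
    Ψ (rc s i) (fun w => st s.1 (g (cj s.1 w))) (sv s.1 v) (cj s.1 u) = st s.1 (Ψ i g v u)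

/-- A1 = NL + UC, in lattice units -/
def St_A1 : Prop :=
  ∀ (n : ℕ) (X : Type) [MetricSpace X] (𝒜 : Atlas X n) (S : Type) [Finite S]
    (ψ : S → Chart X n) (Kc : S → Set X), (∀ a, ψ a ∈ 𝒜.A) → (∀ a, IsCompact (Kc a)) →
    (∀ a, Kc a ⊆ (ψ a).source) → ∀ r r' C ε : ℝ, 0 < r → 0 < ε → ∃ R γ : ℝ, 0 < R ∧ 0 < γ ∧
    ∀ (K : Comb) (F0 : ℂ → X) (sn : Cell → S) (Ψ : Cell → (ℂ → E n) → E n → ℂ → E n),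
      A1Hyp 𝒜 ψ Kc r r' C R γ K F0 sn Ψ →
      ∃ f : ℂ → X, Hol 𝒜 f univ ∧ (∀ s ∈ K.G, ∀ z, f (rz K.κ s z) = 𝒜.sx s.1 (f z)) ∧
        (∀ i, ∀ z ∈ Q K.κ i, (K.pole i → 1 / 5 ≤ ‖z - pt K.κ i‖) → dist (f z) (F0 z) < ε) ∧
        ∀ ε' : ℝ, 0 < ε' → ∃ D : ℝ, ∀ i, (∀ j, dist j i ≤ D → K.cls j = K.cls i) →
          ∀ z ∈ Q K.κ i, dist (f z) (F0 z) < ε'

/-- the combinatorial data of a family of caps at mesh `h` -/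
def St_COMB : Prop :=
  ∀ (𝒞 : Set (Set ℂ)) (d0 h κ : ℝ) (G : Set Sy), (∀ U ∈ 𝒞, Convex ℝ U) →
    (∀ U ∈ 𝒞, ∀ V ∈ 𝒞, ∀ z ∈ U, ∀ w ∈ V, dist z w < d0 → U = V) → 0 < h → 10 * h ≤ d0 →
    1 ≤ κ → κ ≤ 2 → SyOk G →
    (∀ s ∈ G, ∀ U, U ∈ 𝒞 ↔ (fun w : ℂ => h * rz κ s (w / h)) ⁻¹' U ∈ 𝒞) →
    ∃ K : Comb, K.κ = κ ∧ K.G = G ∧ (∀ i, K.pole i ↔ ∀ U ∈ 𝒞, (h : ℂ) * pt κ i ∉ U) ∧
      ∀ i j, K.cls i = K.cls j ↔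
        i = j ∨ ∃ U ∈ 𝒞, (h : ℂ) * pt κ i ∈ U ∧ (h : ℂ) * pt κ j ∈ U

section
variable {X : Type} [MetricSpace X] {n : ℕ}

/-- hypotheses of (A): start map `f0`, caps `𝒞`, separation `d0` -/
structure Caps (𝒜 : Atlas X n) (f0 : ℂ → X) (𝒞 : Set (Set ℂ)) (d0 : ℝ) : Prop where
  uc : UniformContinuous f0
  pos : 0 < d0
  conv : ∀ c ∈ 𝒞, Convex ℝ c
  sep : ∀ c ∈ 𝒞, ∀ c' ∈ 𝒞, ∀ z ∈ c, ∀ z' ∈ c', dist z z' < d0 → c = c'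
  hol : ∀ c ∈ 𝒞, Hol 𝒜 f0 (thickening d0 c)
  fin : ∃ S : Set (Chart X n × Set X), S.Finite ∧
    (∀ p ∈ S, p.1 ∈ 𝒜.A ∧ IsCompact p.2 ∧ p.2 ⊆ p.1.source) ∧
    ∀ c ∈ 𝒞, ∃ p ∈ S, MapsTo f0 (thickening d0 c) p.2
  good : ∃ K', IsCompact K' ∧ K' ⊆ Good 𝒜 ∧ ∀ w, (∀ c ∈ 𝒞, w ∉ c) → f0 w ∈ K'

/-- `f` is `ε`-close to `f0` on a vertical line, and the ends that are caps keep their limits -/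
structure Near (f f0 : ℂ → X) (𝒞 : Set (Set ℂ)) (ε : ℝ) : Prop where
  line : ∃ x1 : ℝ, ∀ w : ℂ, w.re = x1 → dist (f w) (f0 w) < ε
  deep : ∀ ε' > 0, ∃ R > 0, ∀ c ∈ 𝒞, ∀ w, ball w R ⊆ c → dist (f w) (f0 w) < ε'
  left : ∀ (a : ℝ) (x : X), {w : ℂ | w.re ≤ a} ∈ 𝒞 → Tendsto f0 (comap re atBot) (𝓝 x) →
    Tendsto f (comap re atBot) (𝓝 x)
  right : ∀ (a : ℝ) (x : X), {w : ℂ | a ≤ w.re} ∈ 𝒞 → Tendsto f0 (comap re atTop) (𝓝 x) →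
    Tendsto f (comap re atTop) (𝓝 x)

/-- `T` is a period of `f0` and of the family of caps -/
def Per (f0 : ℂ → X) (𝒞 : Set (Set ℂ)) (T : ℂ) : Prop :=
  (∀ w, f0 (w + T) = f0 w) ∧ ∀ c, c ∈ 𝒞 ↔ (fun w => w + T) ⁻¹' c ∈ 𝒞

/-- the reflection `w ↦ -conj w + π i` -/
noncomputable def rho (w : ℂ) : ℂ := -(starRingEnd ℂ w) + Real.pi * I

/-- I.4 (A), modes tor and cyl -/
def St_Atr : Prop :=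
  ∀ (n : ℕ) (X : Type) [MetricSpace X] [CompactSpace X] (𝒜 : Atlas X n) (f0 : ℂ → X)
    (𝒞 : Set (Set ℂ)) (d0 : ℝ), Caps 𝒜 f0 𝒞 d0 → ∀ ℓ ε : ℝ, 0 < ℓ → 0 < ε →
    ∃ f : ℂ → X, Hol 𝒜 f univ ∧ Near f f0 𝒞 ε ∧
      (Per f0 𝒞 (2 * Real.pi * I) → ∀ w, f (w + 2 * Real.pi * I) = f w) ∧
      (Per f0 𝒞 ℓ → ∀ w, f (w + ℓ) = f w)

/-- I.4 (A), mode refl -/
def St_Arefl : Prop :=
  ∀ (n : ℕ) (X : Type) [MetricSpace X] [CompactSpace X] (𝒜 : Atlas X n) (f0 : ℂ → X)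
    (𝒞 : Set (Set ℂ)) (d0 : ℝ), Caps 𝒜 f0 𝒞 d0 → (∀ w, f0 (rho w) = 𝒜.σ (f0 w)) →
    (∀ c, c ∈ 𝒞 ↔ rho ⁻¹' c ∈ 𝒞) → (∀ c ∈ 𝒞, (∀ w ∈ c, w.re < 0) ∨ ∀ w ∈ c, 0 < w.re) →
    ∀ ε : ℝ, 0 < ε → ∃ f : ℂ → X, Hol 𝒜 f univ ∧ Near f f0 𝒞 ε ∧ ∀ w, f (rho w) = 𝒜.σ (f w)

/-- corollary used in U1 (II.4): no caps, only continuity -/
def St_Ator : Prop :=
  ∀ (n : ℕ) (X : Type) [MetricSpace X] [CompactSpace X] (𝒜 : Atlas X n) (f0 : ℂ → X)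
    (ℓ ε : ℝ), 0 < ℓ → 0 < ε → Continuous f0 → (∀ w, f0 w ∈ Good 𝒜) →
    (∀ w, f0 (w + 2 * Real.pi * I) = f0 w) → (∀ w, f0 (w + ℓ) = f0 w) →
    ∃ f : ℂ → X, Hol 𝒜 f univ ∧ (∀ w, f (w + 2 * Real.pi * I) = f w) ∧ (∀ w, f (w + ℓ) = f w) ∧
      ∃ x1 : ℝ, ∀ w : ℂ, w.re = x1 → dist (f w) (f0 w) < ε

/-- corollary used in II.5: constant ends, only continuity -/
def St_Asph : Prop :=
  ∀ (n : ℕ) (X : Type) [MetricSpace X] [CompactSpace X] (𝒜 : Atlas X n) (f0 : ℂ → X) (x : X),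
    Continuous f0 → (∀ w, f0 w ∈ Good 𝒜) → (∀ w, f0 (rho w) = 𝒜.σ (f0 w)) →
    (∀ w : ℂ, w.re ≤ -1 → f0 w = x) →
    ∃ f : ℂ → X, Hol 𝒜 f univ ∧ (∀ w, f (rho w) = 𝒜.σ (f w)) ∧
      Tendsto f (comap re atBot) (𝓝 x) ∧ Tendsto f (comap re atTop) (𝓝 (𝒜.σ x))

end

theorem nl_of (h1 : St_NLE) (h2 : St_GLUE) : St_NL := by
  intro n C1 hC1
  obtain ⟨ε, M, C3, hε, hM, hC3, H⟩ := h1 n C1 hC1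
  refine ⟨ε, M, C3, hε, hM, hC3, fun r r' C δ0 hr hδ => ?_⟩
  obtain ⟨η0, hη0, H⟩ := H r r' C δ0 hr hδ
  refine ⟨η0, hη0, fun η hη hη' X _ _ 𝒜 K ψ e g0 Ψ hN => ?_⟩
  obtain ⟨ϱ, g, v, hS, hF, hD⟩ := H η hη hη' X 𝒜 K ψ e g0 Ψ hN
  obtain ⟨f, hf, hs, he⟩ := h2 n X 𝒜 K C1 M ε r r' C δ0 η ϱ ψ e g0 Ψ g v hM hr hN hS
  refine ⟨f, hf, hs, fun i z hz hp => ?_, fun i D hD1 hc z hz => ?_⟩
  · have ht := hN.tgt i (hS.Fb i z hz hp)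
    rw [he i z hz hp]
    refine ⟨(ψ i).map_target ht, ?_⟩
    rw [(ψ i).right_inv ht]
    exact hF i z hz hp
  · have hnp : ¬ K.pole i := by
      intro hp
      have h1 : K.cls (i.1 + 1, i.2) = K.cls i := by
        refine hc _ (le_trans ?_ hD1)
        simp [Prod.dist_eq]
      have h2 := K.sing i _ hp h1.symm
      have h3 := congrArg Prod.fst h2
      simp at h3
    have ht := hN.tgt i (hS.Fb i z hz fun h => absurd h hnp)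
    rw [he i z hz fun h => absurd h hnp, (ψ i).right_inv ht]
    have h4 : Fo K ϱ Ψ g v i z = g i z := by
      simp [Fo, hnp, hS.state.np i hnp]
    rw [h4]
    exact hD i D hD1 hc z hz

end Pool.Agent.Lib.RC
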