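import Pool.Agent.Lib.RC.Ext55
import Pool.Agent.Lib.RC.Chain55

open Topology Filter Set Polynomial

noncomputable section

namespace Pool.Agent.RC.X55

open Pool.Agent.Lib.RC Pool.Agent.RC.Sp Pool.Agent.RC.Chain

variable {n : ℕ} {M : Dat n} {I : Type} {U : Ultrafilter I}

lemma red_const (c : ℂ) : Red (Ult.O U) (Ult.st U) (algebraMap ℂ (Ult.K U) c) c :=
  ⟨Ult.const_mem_O c, Ult.st_const c _⟩

lemma red_iff {x : Ult.K U} {z : ℂ} : Red (Ult.O U) (Ult.st U) x z ↔ Ult.Lim x z :=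
  ⟨fun ⟨_, h⟩ => Ult.st_eq_iff.1 h, fun h => ⟨⟨z, h⟩, Ult.st_eq_iff.2 h⟩⟩

lemma red_aeval {σ : Type} {p : σ → Ult.K U} {z : σ → ℂ}
    (h : ∀ i, Red (Ult.O U) (Ult.st U) (p i) (z i)) (F : MvPolynomial σ ℝ) :
    Red (Ult.O U) (Ult.st U) (MvPolynomial.aeval p F) (MvPolynomial.aeval z F) := by
  induction F using MvPolynomial.induction_on with
  | C a => rw [MvPolynomial.aeval_C, MvPolynomial.aeval_C]; exact red_const (a : ℂ)
  | add p q hp hq => rw [map_add, map_add]; exact hp.add hq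
  | mul_X p j hp =>
    rw [map_mul, map_mul, MvPolynomial.aeval_X, MvPolynomial.aeval_X]; exact hp.mul (h j)

lemma red_Z {b : M.B} {p : M.V b → Ult.K U} {z : M.V b → ℂ} (hp : p ∈ M.Z (Ult.K U) b)
    (h : ∀ i, Red (Ult.O U) (Ult.st U) (p i) (z i)) : z ∈ M.Z ℂ b := fun j =>
  (red_aeval h (M.eqn b j)).unique (by rw [hp j]; exact red_zero)

lemma red_same (H : M.Ok) {b g : M.B} {p : M.V b → Ult.K U} {q : M.V g → Ult.K U}
    {z : M.V b → ℂ} {w : M.V g → ℂ} (hp : p ∈ M.Z (Ult.K U) b) (hq : q ∈ M.Z (Ult.K U) g)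
    (h : ∀ i, Red (Ult.O U) (Ult.st U) (p i) (z i))
    (h' : ∀ i, Red (Ult.O U) (Ult.st U) (q i) (w i)) (hs : M.Same b g p q) : M.Same b g z w := by
  have := H.vu I U b g (fun i => ⟨p i, (h i).1⟩) (fun i => ⟨q i, (h' i).1⟩) hp hq hs
  rwa [funext fun i => (h i).2, funext fun i => (h' i).2] at this

lemma inj_ult (H : M.Ok) {b : M.B} {p q : M.V b → Ult.K U} (hp : p ∈ M.Z (Ult.K U) b)
    (hq : q ∈ M.Z (Ult.K U) b) (h : M.Same b b p q) : p = q := by
  choose f hf using fun i => Ult.mk_surj (p i)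
  choose g hg using fun i => Ult.mk_surj (q i)
  obtain rfl : (fun i => Ult.mk U fun a => f i a) = p := funext hf
  obtain rfl : (fun i => Ult.mk U fun a => g i a) = q := funext hg
  funext i
  rw [Ult.mk_eq]
  filter_upwards [(mk_mem_Z (f := fun a i => f i a)).1 hp, (mk_mem_Z (f := fun a i => g i a)).1 hq,
    (mk_same (f := fun a i => f i a) (h := fun a i => g i a)).1 h] with a r1 r2 r3
  exact congrFun (H.inj b _ r1 _ r2 r3) i

lemma tendsto_div_pow {p : ℂ[X]} {d : ℕ} (hp : p.natDegree ≤ d) :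
    Tendsto (fun t => p.eval t / t ^ d) (cocompact ℂ) (𝓝 (p.coeff d)) := by
  have h1 : Tendsto (fun t : ℂ => t⁻¹) (cocompact ℂ) (𝓝 0) := by
    rw [← Metric.cobounded_eq_cocompact]
    exact tendsto_inv₀_cobounded
  have h2 := ((reflect d p).continuous.tendsto 0).comp h1
  rw [← coeff_zero_eq_eval_zero, coeff_reflect, revAt_zero] at h2
  refine h2.congr' ?_
  filter_upwards [cocompact_le_cofinite (eventually_cofinite_ne (0 : ℂ))] with t ht
  let _ := invertibleOfNonzero (show t ≠ 0 from ht)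
  have := eval₂_reflect_mul_pow (RingHom.id ℂ) t d p hp
  rw [invOf_eq_inv] at this
  rw [eq_div_iff (pow_ne_zero _ ht)]
  exact this

/-- The value at infinity of a rational function. -/
lemma tendsto_rat {p q : ℂ[X]} (hq : q ≠ 0) (hp : p.natDegree ≤ q.natDegree) :
    Tendsto (fun t => p.eval t / q.eval t) (cocompact ℂ)
      (𝓝 (p.coeff q.natDegree / q.leadingCoeff)) := by
  refine ((tendsto_div_pow hp).div (tendsto_div_pow le_rfl) (leadingCoeff_ne_zero.2 hq)).congr' ?_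
  filter_upwards [cocompact_le_cofinite (eventually_cofinite_ne (0 : ℂ))] with t ht
  exact div_div_div_cancel_right₀ (pow_ne_zero _ ht) _ _

variable (H : M.Ok)

/-- A rational curve given in two charts joins its value at `0` to its value at infinity. -/
theorem adj_of {b g : M.B} {x : M.V b → ℂ} {y : M.V g → ℂ} (P : M.V b → ℂ[X]) (Q : ℂ[X])
    (P' : M.V g → ℂ[X]) (Q' : ℂ[X]) (h0 : Q.eval 0 ≠ 0) (hx : ∀ i, (P i).eval 0 / Q.eval 0 = x i)
    (h1 : Q' ≠ 0) (hd : ∀ i, (P' i).natDegree ≤ Q'.natDegree)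
    (hy : ∀ i, (P' i).coeff Q'.natDegree / Q'.leadingCoeff = y i)
    (h : ∀ᶠ t in cofinite, Q.eval t ≠ 0 ∧ (fun i => (P i).eval t / Q.eval t) ∈ M.Z ℂ b ∧
      (fun i => (P' i).eval t / Q'.eval t) ∈ M.Z ℂ g ∧
      M.Same b g (fun i => (P i).eval t / Q.eval t) fun i => (P' i).eval t / Q'.eval t) :
    G.Adj (atlas H) (ι H b x) (ι H g y) := by
  have an : ∀ (p : ℂ[X]) (z : ℂ), AnalyticAt ℂ (fun t => p.eval t) z := fun p z =>
    p.differentiable.analyticAt z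
  obtain ⟨f, f1, f2⟩ := ext_mero H (φ := fun t i => (P i).eval t / Q.eval t) isOpen_univ
    (fun z _ i => (an _ z).meromorphicAt.fun_div (an _ z).meromorphicAt)
    fun z _ => (h.mono fun _ r => r.2.1).filter_mono (nhdsNE_le_cofinite z)
  have f3 : ∀ t, Q.eval t ≠ 0 → f t = ι H b fun i => (P i).eval t / Q.eval t := fun t ht =>
    f2 t trivial (continuousAt_pi.2 fun i => (an _ t).continuousAt.div (an _ t).continuousAt ht)
  refine ⟨f, f1, by rw [f3 0 h0, funext hx], ?_⟩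
  have h2 := h.filter_mono (cocompact_le_cofinite (X := ℂ))
  have h3 : Tendsto (fun t i => (P' i).eval t / Q'.eval t) (cocompact ℂ) (𝓝 y) :=
    tendsto_pi_nhds.2 fun i => hy i ▸ tendsto_rat h1 (hd i)
  have h4 := h2.mono fun _ r => r.2.2.1
  refine (tendsto_ι H h4 ((isClosed_Z g).mem_of_tendsto h3 h4) h3).congr' ?_
  filter_upwards [h2] with t r
  rw [f3 t r.1, (ι_eq_iff H r.2.1 r.2.2.1).2 r.2.2.2]

variable {P : ∀ g, M.V g → (Ult.K U)[X]} {Q : M.B → (Ult.K U)[X]}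

theorem arc_adj
    (hZ : ∀ u, (∀ g, (Q g).eval u ≠ 0) →
      ∀ g, (fun i => (P g i).eval u / (Q g).eval u) ∈ M.Z (Ult.K U) g)
    (hS : ∀ u, (∀ g, (Q g).eval u ≠ 0) → ∀ g g', M.Same g g'
      (fun i => (P g i).eval u / (Q g).eval u) fun i => (P g' i).eval u / (Q g').eval u)
    {x y : Σ g, M.V g → ℂ} (h : Arc (Ult.O U) (Ult.st U) P Q x y) :
    G.Adj (atlas H) (ι H x.1 x.2) (ι H y.1 y.2) := by
  obtain ⟨a, Pb, Qb, Pc, Qc, h1, h2, h3, h4, h5⟩ := h
  refine adj_of H Pb Qb Pc Qc (h1 ▸ one_ne_zero) (fun i => by rw [h1, h2, div_one]) h3.ne_zero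
    (fun i => (h4 i).1) (fun i => by rw [h3.leadingCoeff, (h4 i).2, div_one]) ?_
  filter_upwards [h5] with t r
  exact ⟨r.2.1, red_Z (hZ _ r.1 _) r.2.2.2.1, red_Z (hZ _ r.1 _) r.2.2.2.2,
    red_same H (hZ _ r.1 _) (hZ _ r.1 _) r.2.2.2.1 r.2.2.2.2 (hS _ r.1 _ _)⟩

/-- The reductions of the two ends of a rational curve over the ultrapower are joined by a
chain of rational curves. -/
theorem chain_adj (hU : Ult.O U ≠ ⊤) (h0 : ∀ g, Q g ≠ 0)
    (hZ : ∀ u, (∀ g, (Q g).eval u ≠ 0) →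
      ∀ g, (fun i => (P g i).eval u / (Q g).eval u) ∈ M.Z (Ult.K U) g)
    (hS : ∀ u, (∀ g, (Q g).eval u ≠ 0) → ∀ g g', M.Same g g'
      (fun i => (P g i).eval u / (Q g).eval u) fun i => (P g' i).eval u / (Q g').eval u)
    {b g : M.B} {x : M.V b → ℂ} {y : M.V g → ℂ} (hx0 : (Q b).eval 0 ≠ 0)
    (hx : ∀ i, Ult.Lim ((P b i).eval 0 / (Q b).eval 0) (x i))
    (hy0 : ∀ i, (P g i).natDegree ≤ (Q g).natDegree)
    (hy : ∀ i, Ult.Lim ((P g i).coeff (Q g).natDegree / (Q g).leadingCoeff) (y i)) :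
    Relation.ReflTransGen (G.Adj (atlas H)) (ι H b x) (ι H g y) := by
  have := H.fin
  have hc := chainval (O := Ult.O U) (st := Ult.st U) hU red_const
    (fun k hk z => IsAlgClosed.exists_pow_nat_eq z hk) P Q h0 (fun u hu => by
      obtain ⟨c, q, q1, q2, q3⟩ := H.ve I U b _ (hZ u hu b)
      exact ⟨c, fun i => (congrFun (inj_ult H (hZ u hu c) q1
        (H.trans _ _ _ _ _ (hZ u hu c) _ (hZ u hu b) _ q1 (hS u hu c b) q3)) i).symm ▸ q2 i⟩)
    ⟨b, x⟩ ⟨g, y⟩ hx0 (fun i => red_iff.2 (hx i)) hy0 fun i => red_iff.2 (hy i)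
  exact Relation.ReflTransGen.lift (fun z : Σ g, M.V g → ℂ => ι H z.1 z.2)
    (fun _ _ h => arc_adj H hZ hS h) _ _ hc

end Pool.Agent.RC.X55
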