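import Mathlib

namespace Pool.Agent.Lib.RC.CLOSE

open Set Metric Filter Topology

variable {X : Type*} [MetricSpace X]

/-- `m` slides `x` towards `y` when they are `δ`-close, and arrives when `y ∈ K`. -/
structure Slide (K : Set X) (δ : ℝ) (m : ℝ → X → X → X) : Prop where
  cont : ContinuousOn (fun p : ℝ × X × X => m p.1 p.2.1 p.2.2)
    {p | p.1 ∈ Icc (0 : ℝ) 1 ∧ dist p.2.1 p.2.2 < δ}
  zero : ∀ x y, dist x y < δ → m 0 x y = x
  diag : ∀ t x, t ∈ Icc (0 : ℝ) 1 → m t x x = x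
  one : ∀ x y, dist x y < δ → y ∈ K → m 1 x y = y

theorem Slide.small [CompactSpace X] {K : Set X} {δ : ℝ} {m : ℝ → X → X → X}
    (h : Slide K δ m) (hδ : 0 < δ) {ε : ℝ} (hε : 0 < ε) :
    ∃ γ > 0, γ ≤ δ ∧ ∀ t ∈ Icc (0 : ℝ) 1, ∀ x y, dist x y < γ → dist (m t x y) y < ε := by
  set S : Set (ℝ × X × X) := {p | p.1 ∈ Icc (0 : ℝ) 1 ∧ dist p.2.1 p.2.2 ≤ δ / 2} with hS
  have hSc : IsCompact S := by
    have h1 : IsCompact ((Icc (0 : ℝ) 1) ×ˢ (univ : Set (X × X))) :=
      isCompact_Icc.prod isCompact_univ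
    refine h1.of_isClosed_subset ?_ (fun p hp => ⟨hp.1, mem_univ _⟩)
    exact (isClosed_Icc.preimage continuous_fst).inter
      (isClosed_le (f := fun p : ℝ × X × X => dist p.2.1 p.2.2) (by fun_prop) continuous_const)
  have hc : ContinuousOn (fun p : ℝ × X × X => m p.1 p.2.1 p.2.2) S :=
    h.cont.mono (fun p hp => ⟨hp.1, lt_of_le_of_lt hp.2 (by linarith)⟩)
  have hu := hSc.uniformContinuousOn_of_continuous hc
  rw [Metric.uniformContinuousOn_iff] at hu
  obtain ⟨γ, hγ, hu⟩ := hu ε hε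
  refine ⟨min γ (δ / 2), lt_min hγ (by linarith), (min_le_right _ _).trans (by linarith), ?_⟩
  intro t ht x y hxy
  have h1 : (t, x, y) ∈ S := ⟨ht, (hxy.trans_le (min_le_right _ _)).le⟩
  have h2 : (t, y, y) ∈ S := ⟨ht, by simp only [dist_self]; linarith⟩
  have h3 := hu _ h1 _ h2 (by
    simp only [Prod.dist_eq, dist_self]
    exact max_lt hγ (max_lt (hxy.trans_le (min_le_left _ _)) hγ))
  simpa only [h.diag t y ht] using h3

theorem Slide.union [CompactSpace X] {K L : Set X} {δ ε : ℝ} {m n : ℝ → X → X → X}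
    (h : Slide K δ m) (hδ : 0 < δ) (g : Slide L ε n) (hε : 0 < ε) :
    ∃ γ > 0, ∃ k, Slide (K ∪ L) γ k := by
  obtain ⟨γ, hγ, hle, hs⟩ := h.small hδ hε
  refine ⟨γ, hγ, fun t x y => n t (m t x y) y, ?_, ?_, ?_, ?_⟩
  · have h1 : ContinuousOn (fun p : ℝ × X × X => (p.1, m p.1 p.2.1 p.2.2, p.2.2))
        {p | p.1 ∈ Icc (0 : ℝ) 1 ∧ dist p.2.1 p.2.2 < γ} :=
      continuousOn_fst.prodMk ((h.cont.mono (fun p hp => ⟨hp.1, hp.2.trans_le hle⟩)).prodMk
        (continuous_snd.comp continuous_snd).continuousOn)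
    exact g.cont.comp h1 (fun p hp => ⟨hp.1, hs _ hp.1 _ _ hp.2⟩)
  · intro x y hxy
    have h0 := hs 0 ⟨le_rfl, zero_le_one⟩ x y hxy
    rw [h.zero x y (hxy.trans_le hle)] at h0 ⊢
    exact g.zero x y h0
  · intro t x ht
    rw [h.diag t x ht, g.diag t x ht]
  · intro x y hxy hy
    rcases hy with hy | hy
    · rw [h.one x y (hxy.trans_le hle) hy, g.diag 1 y ⟨zero_le_one, le_rfl⟩]
    · exact g.one _ y (hs 1 ⟨zero_le_one, le_rfl⟩ x y hxy) hy

theorem slide_local [CompactSpace X] {E : Type*} [NormedAddCommGroup E] [NormedSpace ℝ E]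
    (ψ : OpenPartialHomeomorph X E) {x0 : X} (hx0 : x0 ∈ ψ.source) :
    ∃ K ∈ 𝓝 x0, ∃ δ > 0, ∃ m, Slide K δ m := by
  classical
  obtain ⟨r, hr, hb⟩ := Metric.isOpen_iff.1 ψ.open_target _ (ψ.map_source hx0)
  set U : Set X := ψ.source ∩ ψ ⁻¹' ball (ψ x0) r with hU
  have hUo : IsOpen U := ψ.isOpen_inter_preimage isOpen_ball
  have hxU : x0 ∈ U := ⟨hx0, mem_ball_self hr⟩
  obtain ⟨ρ, hρ, hρU⟩ := Metric.isOpen_iff.1 hUo _ hxU
  -- cut-off `χ`: one on the ball of radius `ρ/4`, zero outside the ball of radius `ρ/2`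
  set χ : X → ℝ := fun y => max 0 (min 1 (2 - 4 * dist y x0 / ρ)) with hχ
  have hχc : Continuous χ := by simp only [hχ]; fun_prop
  have hχ0 : ∀ y, 0 ≤ χ y := fun y => le_max_left _ _
  have hχ1 : ∀ y, χ y ≤ 1 := fun y => max_le zero_le_one (min_le_left _ _)
  have hχz : ∀ y, ρ / 2 < dist y x0 → χ y = 0 := by
    intro y hy
    apply max_eq_left
    refine (min_le_right _ _).trans ?_
    have : 2 ≤ 4 * dist y x0 / ρ := by rw [le_div_iff₀ hρ]; linarith
    linarith
  have hχo : ∀ y, dist y x0 < ρ / 4 → χ y = 1 := by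
    intro y hy
    have : 4 * dist y x0 / ρ ≤ 1 := by rw [div_le_iff₀ hρ]; linarith
    simp only [hχ]
    rw [min_eq_left (by linarith), max_eq_right zero_le_one]
  set m : ℝ → X → X → X := fun t x y =>
    if x ∈ U ∧ y ∈ U then ψ.symm (ψ x + (t * χ y) • (ψ y - ψ x)) else x with hm
  have hseg : ∀ t ∈ Icc (0 : ℝ) 1, ∀ x ∈ U, ∀ y ∈ U,
      ψ x + (t * χ y) • (ψ y - ψ x) ∈ ψ.target := by
    intro t ht x hx y hy
    apply hb
    exact (convex_ball (ψ x0) r).add_smul_sub_mem hx.2 hy.2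
      ⟨mul_nonneg ht.1 (hχ0 y), mul_le_one₀ ht.2 (hχ0 y) (hχ1 y)⟩
  refine ⟨ball x0 (ρ / 4), ball_mem_nhds _ (by linarith), ρ / 4, by linarith, m, ?_, ?_, ?_, ?_⟩
  · rintro ⟨t, x, y⟩ ⟨ht, hxy⟩
    dsimp only at ht hxy
    by_cases hy : dist y x0 ≤ ρ / 2
    · have hyU : y ∈ U := hρU (mem_ball.2 (by linarith))
      have hxU' : x ∈ U := hρU (mem_ball.2 (by linarith [dist_triangle x y x0]))
      have hO : {p : ℝ × X × X | p.2.1 ∈ U ∧ p.2.2 ∈ U} ∈ 𝓝 (t, x, y) :=
        ((hUo.preimage (continuous_fst.comp continuous_snd)).inter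
          (hUo.preimage (continuous_snd.comp continuous_snd))).mem_nhds ⟨hxU', hyU⟩
      have h1 : ContinuousAt (fun p : ℝ × X × X => ψ p.2.1) (t, x, y) :=
        ContinuousAt.comp (f := fun p : ℝ × X × X => p.2.1) (ψ.continuousAt hxU'.1)
          (by fun_prop)
      have h2 : ContinuousAt (fun p : ℝ × X × X => ψ p.2.2) (t, x, y) :=
        ContinuousAt.comp (f := fun p : ℝ × X × X => p.2.2) (ψ.continuousAt hyU.1)
          (by fun_prop)
      have h3 : ContinuousAt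
          (fun p : ℝ × X × X => ψ p.2.1 + (p.1 * χ p.2.2) • (ψ p.2.2 - ψ p.2.1)) (t, x, y) :=
        h1.add ((continuousAt_fst.mul
          ((hχc.comp (continuous_snd.comp continuous_snd)).continuousAt)).smul (h2.sub h1))
      have h4 : ContinuousAt (fun p : ℝ × X × X =>
          ψ.symm (ψ p.2.1 + (p.1 * χ p.2.2) • (ψ p.2.2 - ψ p.2.1))) (t, x, y) :=
        ContinuousAt.comp (f := fun p : ℝ × X × X =>
          ψ p.2.1 + (p.1 * χ p.2.2) • (ψ p.2.2 - ψ p.2.1))
          (ψ.continuousAt_symm (hseg t ht x hxU' y hyU)) h3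
      refine (h4.congr ?_).continuousWithinAt
      filter_upwards [hO] with p hp
      simp only [hm]
      rw [if_pos hp]
    · push Not at hy
      have hO : {p : ℝ × X × X | ρ / 2 < dist p.2.2 x0} ∈ 𝓝 (t, x, y) :=
        (isOpen_lt continuous_const (by fun_prop)).mem_nhds hy
      have h4 : ContinuousAt (fun p : ℝ × X × X => p.2.1) (t, x, y) := by fun_prop
      refine (h4.congr ?_).continuousWithinAt
      filter_upwards [hO] with p hp
      simp only [hm]
      split_ifs with h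
      · rw [hχz _ hp, mul_zero, zero_smul, add_zero, ψ.left_inv h.1.1]
      · rfl
  · intro x y _
    simp only [hm]
    split_ifs with h
    · rw [zero_mul, zero_smul, add_zero, ψ.left_inv h.1.1]
    · rfl
  · intro t x _
    simp only [hm]
    split_ifs with h
    · rw [sub_self, smul_zero, add_zero, ψ.left_inv h.1.1]
    · rfl
  · intro x y hxy hy
    have hy' := mem_ball.1 hy
    have hyU : y ∈ U := hρU (mem_ball.2 (by linarith))
    have hxU' : x ∈ U := hρU (mem_ball.2 (by linarith [dist_triangle x y x0]))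
    simp only [hm]
    rw [if_pos ⟨hxU', hyU⟩, hχo y hy', one_mul, one_smul, add_sub_cancel, ψ.left_inv hyU.1]

/-- Universal form: a compact metric space covered by charts into a normed space is uniformly
locally equiconnected. -/
theorem exists_slide [CompactSpace X] {E : Type*} [NormedAddCommGroup E] [NormedSpace ℝ E]
    (hc : ∀ x : X, ∃ ψ : OpenPartialHomeomorph X E, x ∈ ψ.source) :
    ∃ δ > 0, ∃ m, Slide (univ : Set X) δ m := by
  refine IsCompact.induction_on (p := fun K => ∃ δ > 0, ∃ m, Slide K δ m) isCompact_univ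
    ?_ ?_ ?_ ?_
  · exact ⟨1, one_pos, fun _ x _ => x, by fun_prop, fun _ _ _ => rfl, fun _ _ _ => rfl,
      fun _ _ _ h => h.elim⟩
  · rintro s t hst ⟨δ, hδ, m, h⟩
    exact ⟨δ, hδ, m, h.cont, h.zero, h.diag, fun x y hxy hy => h.one x y hxy (hst hy)⟩
  · rintro s t ⟨δ, hδ, m, h⟩ ⟨ε, hε, n, g⟩
    exact h.union hδ g hε
  · intro x _
    obtain ⟨ψ, hψ⟩ := hc x
    obtain ⟨K, hK, h⟩ := slide_local ψ hψ
    exact ⟨K, mem_nhdsWithin_of_mem_nhds hK, h⟩

/-- The homotopy given by a slide. -/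
def Slide.homotopy {δ : ℝ} {m : ℝ → X → X → X} (h : Slide (univ : Set X) δ m)
    {Y : Type*} [TopologicalSpace Y] (f g : C(Y, X)) (hfg : ∀ y, dist (f y) (g y) < δ) :
    f.Homotopy g where
  toFun p := m p.1 (f p.2) (g p.2)
  continuous_toFun := by
    have h1 : Continuous (fun p : unitInterval × Y => ((p.1 : ℝ), f p.2, g p.2)) := by fun_prop
    exact h.cont.comp_continuous h1 (fun p => ⟨p.1.2, hfg p.2⟩)
  map_zero_left y := h.zero _ _ (hfg y)
  map_one_left y := h.one _ _ (hfg y) (mem_univ _)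

/-- Close maps are homotopic relative to any set on which they agree. -/
theorem close_homotopicRel [CompactSpace X] {E : Type*} [NormedAddCommGroup E] [NormedSpace ℝ E]
    (hc : ∀ x : X, ∃ ψ : OpenPartialHomeomorph X E, x ∈ ψ.source) :
    ∃ δ > 0, ∀ (Y : Type) [TopologicalSpace Y] (f g : C(Y, X)) (S : Set Y),
      (∀ y, dist (f y) (g y) < δ) → (∀ y ∈ S, f y = g y) → f.HomotopicRel g S := by
  obtain ⟨δ, hδ, m, h⟩ := exists_slide hc
  refine ⟨δ, hδ, fun Y _ f g S hfg hS => ⟨⟨h.homotopy f g hfg, ?_⟩⟩⟩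
  intro t y hy
  change m t (f y) (g y) = f y
  rw [← hS y hy]
  exact h.diag _ _ t.2

/-- Close maps are homotopic. -/
theorem close_homotopic [CompactSpace X] {E : Type*} [NormedAddCommGroup E] [NormedSpace ℝ E]
    (hc : ∀ x : X, ∃ ψ : OpenPartialHomeomorph X E, x ∈ ψ.source) :
    ∃ δ > 0, ∀ (Y : Type) [TopologicalSpace Y] (f g : C(Y, X)),
      (∀ y, dist (f y) (g y) < δ) → f.Homotopic g := by
  obtain ⟨δ, hδ, m, h⟩ := exists_slide hc
  exact ⟨δ, hδ, fun Y _ f g hfg => ⟨h.homotopy f g hfg⟩⟩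

/-- Close paths with the same end points are homotopic. -/
theorem close_path [CompactSpace X] {E : Type*} [NormedAddCommGroup E] [NormedSpace ℝ E]
    (hc : ∀ x : X, ∃ ψ : OpenPartialHomeomorph X E, x ∈ ψ.source) :
    ∃ δ > 0, ∀ (a b : X) (p q : Path a b), (∀ t, dist (p t) (q t) < δ) → p.Homotopic q := by
  obtain ⟨δ, hδ, h⟩ := close_homotopicRel hc
  refine ⟨δ, hδ, fun a b p q hpq => h unitInterval p.toContinuousMap q.toContinuousMap {0, 1}
    hpq ?_⟩
  rintro y (rfl | rfl)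
  · exact p.source.trans q.source.symm
  · exact p.target.trans q.target.symm

end Pool.Agent.Lib.RC.CLOSE
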