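import Mathlib

/-! Loops in a family of quasi-periodic maps: local constancy of the free homotopy class, and
short loops. -/

namespace Pool.Agent.RC.D44

open Set Filter Topology Complex Real

section loops
variable {X : Type*} [TopologicalSpace X]

/-- free homotopy of `2π`-periodic loops -/
def LH (g g' : ℝ → X) : Prop :=
  ∃ H : ℝ × ℝ → X, Continuous H ∧ (∀ s θ, H (s, θ + 2 * π) = H (s, θ)) ∧
    (∀ θ, H (0, θ) = g θ) ∧ ∀ θ, H (1, θ) = g' θ

theorem LH.symm {g g' : ℝ → X} (h : LH g g') : LH g' g := by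
  obtain ⟨H, hH, hp, h0, h1⟩ := h
  refine ⟨fun p => H (1 - p.1, p.2), hH.comp (by fun_prop), fun s θ => hp _ _, fun θ => ?_,
    fun θ => ?_⟩
  · simpa using h1 θ
  · simpa using h0 θ

theorem LH.trans {g g' g'' : ℝ → X} (h : LH g g') (h' : LH g' g'') : LH g g'' := by
  classical
  obtain ⟨H, hH, hp, h0, h1⟩ := h
  obtain ⟨K, hK, kp, k0, k1⟩ := h'
  refine ⟨fun p => if p.1 ≤ 1 / 2 then H (2 * p.1, p.2) else K (2 * p.1 - 1, p.2), ?_,
    fun s θ => ?_, fun θ => ?_, fun θ => ?_⟩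
  · refine Continuous.if_le (hH.comp (by fun_prop)) (hK.comp (by fun_prop)) continuous_fst
      continuous_const ?_
    intro p hp'
    rw [hp']
    norm_num [h1, k0]
  · simp only [hp, kp]
  · norm_num [h0]
  · norm_num [k1]

theorem LH.refl {g : ℝ → X} (hg : Continuous g) (hp : ∀ θ, g (θ + 2 * π) = g θ) : LH g g :=
  ⟨fun p => g p.2, hg.comp continuous_snd, fun _ θ => hp θ, fun _ => rfl, fun _ => rfl⟩

/-- the form used by `eqv` -/
theorem LH.null {g : ℝ → X} {y : X} (h : LH g fun _ => y) :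
    ∃ (H : unitInterval × ℝ → X) (y : X), Continuous H ∧ (∀ s θ, H (s, θ + 2 * π) = H (s, θ)) ∧
      (∀ θ, H (0, θ) = g θ) ∧ ∀ θ, H (1, θ) = y := by
  obtain ⟨H, hH, hp, h0, h1⟩ := h
  exact ⟨fun p => H (p.1, p.2), y, hH.comp (by fun_prop), fun s θ => hp _ _, h0, h1⟩

/-- a homotopy that is only given on the unit interval -/
theorem LH.of_on {g g' : ℝ → X} (H : ℝ × ℝ → X) (hH : ContinuousOn H (Icc 0 1 ×ˢ univ))
    (hp : ∀ s ∈ Icc (0 : ℝ) 1, ∀ θ, H (s, θ + 2 * π) = H (s, θ)) (h0 : ∀ θ, H (0, θ) = g θ)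
    (h1 : ∀ θ, H (1, θ) = g' θ) : LH g g' := by
  have hm : ∀ s : ℝ, max 0 (min 1 s) ∈ Icc (0 : ℝ) 1 := fun s =>
    ⟨le_max_left _ _, max_le zero_le_one (min_le_left _ _)⟩
  refine ⟨fun p => H (max 0 (min 1 p.1), p.2),
    hH.comp_continuous (by fun_prop) fun p => ⟨hm _, mem_univ _⟩, fun s θ => hp _ (hm _) _,
    fun θ => ?_, fun θ => ?_⟩
  · simpa using h0 θ
  · simpa using h1 θ

/-- the loop of `f` on the line `Re w = x` -/
def loop (f : ℂ → X) (x : ℝ) : ℝ → X := fun θ => f (x + θ * I)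

theorem loop_cont {f : ℂ → X} (hf : Continuous f) (x : ℝ) : Continuous (loop f x) :=
  hf.comp (by fun_prop)

omit [TopologicalSpace X] in
theorem loop_per {f : ℂ → X} (hp : ∀ w, f (w + 2 * π * I) = f w) (x θ : ℝ) :
    loop f x (θ + 2 * π) = loop f x θ := by
  unfold loop
  rw [← hp (x + θ * I)]
  congr 1
  push_cast
  ring

theorem loop_line {f : ℂ → X} (hf : Continuous f) (hp : ∀ w, f (w + 2 * π * I) = f w)
    (x x' : ℝ) : LH (loop f x) (loop f x') := by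
  refine ⟨fun p => loop f (x + p.1 * (x' - x)) p.2, hf.comp (by fun_prop),
    fun s θ => loop_per hp _ _, fun θ => ?_, fun θ => ?_⟩ <;> simp

theorem exists_line {F : ℂ → ℂ} (hF : Differentiable ℂ F) (hne : ∃ w, F w ≠ 0) :
    ∃ x : ℝ, ∀ θ : ℝ, F (x + θ * I) ≠ 0 := by
  obtain ⟨w, hw⟩ := hne
  have ha : AnalyticOnNhd ℂ F univ := fun z _ => hF.analyticAt z
  have hc : (F ⁻¹' {0}).Countable := by
    have h1 := ha.preimage_zero_mem_codiscrete hw
    have h2 := (mem_codiscrete'.1 h1).2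
    rw [preimage_compl, compl_compl] at h2
    have := h2.to_subtype
    exact countable_coe_iff.1 (TopologicalSpace.separableSpace_iff_countable.1 inferInstance)
  by_contra hcon
  push Not at hcon
  refine Cardinal.not_countable_real ((hc.image re).mono fun x _ => ?_)
  obtain ⟨θ, hθ⟩ := hcon x
  exact ⟨_, hθ, by simp⟩

/-- TLOC, parameter in `ℝ` -/
theorem tloc_real (f : ℝ → ℂ → X) (F : ℝ → ℂ → ℂ) (hf : ∀ t, Continuous (f t))
    (hp : ∀ t w, f t (w + 2 * π * I) = f t w) (hF : Continuous fun p : ℝ × ℂ => F p.1 p.2)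
    (hd : ∀ t, Differentiable ℂ (F t)) (hne : ∀ t, ∃ w, F t w ≠ 0)
    (hFp : ∀ t w, F t (w + 2 * π * I) = F t w)
    (hg : ContinuousOn (fun p : ℝ × ℂ => f p.1 p.2) {p | F p.1 p.2 ≠ 0}) (t t' x x' : ℝ) :
    LH (loop (f t) x) (loop (f t') x') := by
  have key : ∀ t0 : ℝ, ∀ᶠ t in 𝓝 t0, LH (loop (f t0) 0) (loop (f t) 0) := by
    intro t0
    obtain ⟨x, hx⟩ := exists_line (hd t0) (hne t0)
    have h1 : ∀ᶠ t in 𝓝 t0, ∀ θ ∈ Icc (0 : ℝ) (0 + 2 * π), F t (x + θ * I) ≠ 0 := by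
      refine isCompact_Icc.eventually_forall_of_forall_eventually fun θ _ => ?_
      have hc : Continuous fun p : ℝ × ℝ => F p.1 (x + p.2 * I) :=
        hF.comp (f := fun p : ℝ × ℝ => (p.1, (x + p.2 * I : ℂ))) (by fun_prop)
      exact hc.continuousAt.eventually_ne (hx θ)
    obtain ⟨ε, hε, h2⟩ := Metric.eventually_nhds_iff.1 h1
    have h3 : ∀ t, dist t t0 < ε → ∀ θ : ℝ, F t (x + θ * I) ≠ 0 := by
      intro t ht θ
      have hper : Function.Periodic (loop (F t) x) (2 * π) := loop_per (hFp t) x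
      obtain ⟨y, hy, e⟩ := hper.exists_mem_Ico two_pi_pos θ 0
      change loop (F t) x θ ≠ 0
      rw [e]
      exact h2 ht y (Ico_subset_Icc_self hy)
    filter_upwards [Metric.ball_mem_nhds t0 hε] with t ht
    refine (loop_line (hf t0) (hp t0) 0 x).trans (LH.trans ?_ (loop_line (hf t) (hp t) x 0))
    refine LH.of_on (fun p => loop (f (t0 + p.1 * (t - t0))) x p.2) ?_
      (fun s _ θ => loop_per (hp _) _ _) (fun θ => by simp) (fun θ => by simp)
    refine hg.comp (f := fun p : ℝ × ℝ => (t0 + p.1 * (t - t0), (x + p.2 * I : ℂ))) (by fun_prop) ?_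
    rintro ⟨s, θ⟩ ⟨hs, -⟩
    refine h3 _ ?_ θ
    rw [Metric.mem_ball, Real.dist_eq] at ht
    rw [Real.dist_eq, add_sub_cancel_left, abs_mul, abs_of_nonneg hs.1]
    exact (mul_le_of_le_one_left (abs_nonneg _) hs.2).trans_lt ht
  have h := PreconnectedSpace.induction₂' (fun t t' : ℝ => LH (loop (f t) 0) (loop (f t') 0))
    (fun t0 => (key t0).mono fun _ h => ⟨h, h.symm⟩) ⟨fun _ _ _ => LH.trans⟩ t t'
  exact (loop_line (hf t) (hp t) x 0).trans (h.trans (loop_line (hf t') (hp t') 0 x'))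

/-- TLOC, parameter in `[0,1]` -/
theorem tloc (f : ℝ → ℂ → X) (F : ℝ → ℂ → ℂ) (hf : ∀ t ∈ Icc (0 : ℝ) 1, Continuous (f t))
    (hp : ∀ t ∈ Icc (0 : ℝ) 1, ∀ w, f t (w + 2 * π * I) = f t w)
    (hF : ContinuousOn (fun p : ℝ × ℂ => F p.1 p.2) (Icc 0 1 ×ˢ univ))
    (hd : ∀ t ∈ Icc (0 : ℝ) 1, Differentiable ℂ (F t))
    (hne : ∀ t ∈ Icc (0 : ℝ) 1, ∃ w, F t w ≠ 0)
    (hFp : ∀ t ∈ Icc (0 : ℝ) 1, ∀ w, F t (w + 2 * π * I) = F t w)
    (hg : ContinuousOn (fun p : ℝ × ℂ => f p.1 p.2) {p | p.1 ∈ Icc (0 : ℝ) 1 ∧ F p.1 p.2 ≠ 0})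
    (x x' : ℝ) : LH (loop (f 0) x) (loop (f 1) x') := by
  have hm : ∀ s : ℝ, max 0 (min 1 s) ∈ Icc (0 : ℝ) 1 := fun s =>
    ⟨le_max_left _ _, max_le zero_le_one (min_le_left _ _)⟩
  have hc : Continuous fun p : ℝ × ℂ => (max 0 (min 1 p.1), p.2) := by fun_prop
  have h := tloc_real (fun t => f (max 0 (min 1 t))) (fun t => F (max 0 (min 1 t)))
    (fun t => hf _ (hm t)) (fun t => hp _ (hm t))
    (hF.comp_continuous hc fun p => ⟨hm _, mem_univ _⟩) (fun t => hd _ (hm t))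
    (fun t => hne _ (hm t)) (fun t => hFp _ (hm t))
    (hg.comp hc.continuousOn fun p hp' => ⟨hm _, hp'⟩) 0 1 x x'
  simpa using h

end loops

theorem ratio_le {a b a' b' : ℂ} {N M e : ℝ} (hN : 0 < N) (hM : 0 < M) (he : 0 ≤ e)
    (ha : ‖a' - a‖ ≤ e * N) (hb : ‖b' - b‖ ≤ e * N) (haN : ‖a‖ ≤ N) (hbN : ‖b‖ ≤ N)
    (h1 : N / (4 * M) ≤ ‖b‖) (h2 : N / (4 * M) ≤ ‖b'‖) : ‖a' / b' - a / b‖ ≤ 32 * M ^ 2 * e := by
  have hq : 0 < N / (4 * M) := by positivity
  have hb0 : b ≠ 0 := norm_pos_iff.1 (hq.trans_le h1)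
  have hb0' : b' ≠ 0 := norm_pos_iff.1 (hq.trans_le h2)
  have e1 : a' / b' - a / b = ((a' - a) * b - a * (b' - b)) / (b' * b) := by
    field_simp
    ring
  have e2 : ‖(a' - a) * b - a * (b' - b)‖ ≤ e * N * N + N * (e * N) := by
    refine (norm_sub_le _ _).trans (add_le_add ?_ ?_) <;> rw [norm_mul] <;> gcongr
  have e3 : N / (4 * M) * (N / (4 * M)) ≤ ‖b' * b‖ := by
    rw [norm_mul]
    gcongr
  rw [e1, norm_div]
  refine (div_le_div₀ (by positivity) e2 (by positivity) e3).trans (le_of_eq ?_)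
  field_simp
  ring

/-- TDEG: if in every chart the homogeneous coordinate vectors are almost constant (projectively)
on a set `L`, the image of `L` is small. -/
theorem tdeg {X : Type*} [PseudoMetricSpace X] [CompactSpace X] {Γ : Type*} [Finite Γ]
    (V : Γ → Type*) [∀ g, Fintype (V g)] (Z : ∀ g, Set (V g → ℂ)) (hZ : ∀ g, IsClosed (Z g))
    (ι : ∀ g, (V g → ℂ) → X) (hι : ∀ g, ContinuousOn (ι g) (Z g)) (U : Γ → Set X)
    (hU : ∀ g, IsOpen (U g)) (hcov : ∀ x, ∃ g, x ∈ U g) (crd : ∀ g, X → V g → ℂ)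
    (hcrd : ∀ g, ContinuousOn (crd g) (U g))
    (hic : ∀ g, ∀ x ∈ U g, crd g x ∈ Z g ∧ ι g (crd g x) = x) {δ : ℝ} (hδ : 0 < δ) :
    ∃ ε > 0, ∀ (Y : Type) (J : Γ → Type) (f : Y → X) (S : ∀ g, J g → Y → Option (V g) → ℂ)
      (L : Set Y) (w0 : Y), w0 ∈ L → (∀ g, f w0 ∈ U g → ∃ l, S g l w0 none ≠ 0) →
      (∀ g l w, S g l w none ≠ 0 →
        f w ∈ U g ∧ ∀ i, crd g (f w) i = S g l w (some i) / S g l w none) →
      (∀ g l, (∃ w, S g l w ≠ 0) → ∃ B : Option (V g) → ℂ, B ≠ 0 ∧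
        ∀ w ∈ L, ∃ c : ℂ, ‖c • S g l w - B‖ ≤ ε * ‖B‖) →
      ∀ w ∈ L, dist (f w) (f w0) < δ := by
  obtain ⟨M, hM1, hM⟩ : ∃ M : ℝ, 1 ≤ M ∧ ∀ x, ∃ g, x ∈ U g ∧ ‖crd g x‖ < M := by
    let W : ℕ → Set X := fun m => ⋃ g, U g ∩ crd g ⁻¹' Metric.ball 0 (m + 1)
    have hW : ∀ m, IsOpen (W m) := fun m => isOpen_iUnion fun g =>
      (hcrd g).isOpen_inter_preimage (hU g) Metric.isOpen_ball
    have hmono : Monotone W := fun m m' h => iUnion_mono fun g =>
      inter_subset_inter_right _ (preimage_mono (Metric.ball_subset_ball (by gcongr)))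
    obtain ⟨m, hm⟩ := isCompact_univ.elim_directed_cover W hW (fun x _ => by
      obtain ⟨g, hg⟩ := hcov x
      obtain ⟨m, hm⟩ := exists_nat_gt ‖crd g x‖
      exact mem_iUnion.2 ⟨m, mem_iUnion.2 ⟨g, hg, mem_ball_zero_iff.2 (by linarith)⟩⟩)
      hmono.directed_le
    refine ⟨m + 1, by simp, fun x => ?_⟩
    obtain ⟨g, hg, hx⟩ := mem_iUnion.1 (hm (mem_univ x))
    exact ⟨g, hg, mem_ball_zero_iff.1 hx⟩
  obtain ⟨η, hη, hη1, hu⟩ : ∃ η > 0, η ≤ 1 ∧ ∀ g, ∀ p ∈ Z g ∩ Metric.closedBall 0 (M + 1),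
      ∀ q ∈ Z g ∩ Metric.closedBall 0 (M + 1), dist p q < η → dist (ι g p) (ι g q) < δ := by
    have h1 : ∀ᶠ η in 𝓝[>] (0 : ℝ), ∀ g, ∀ p ∈ Z g ∩ Metric.closedBall 0 (M + 1),
        ∀ q ∈ Z g ∩ Metric.closedBall 0 (M + 1), dist p q < η → dist (ι g p) (ι g q) < δ := by
      refine eventually_all.2 fun g => ?_
      obtain ⟨η, hη, h⟩ := Metric.uniformContinuousOn_iff.1
        (((isCompact_closedBall (0 : V g → ℂ) (M + 1)).inter_left
          (hZ g)).uniformContinuousOn_of_continuous ((hι g).mono inter_subset_left)) δ hδ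
      filter_upwards [Ioo_mem_nhdsGT hη] with e he p hp q hq hpq using h p hp q hq (hpq.trans he.2)
    obtain ⟨η, h2, h3⟩ := (h1.and (Ioo_mem_nhdsGT zero_lt_one)).exists
    exact ⟨η, h3.1, h3.2.le, h2⟩
  have hM0 : 0 < M := by linarith
  refine ⟨η / (128 * M ^ 2), by positivity, ?_⟩
  intro Y J f S' L w0 hw0 hl hSf hB w hw
  set e := η / (128 * M ^ 2) with he
  have he0 : 0 < e := by positivity
  have heM : e * M ≤ 1 / 128 := by
    have : e * M = η / (128 * M) := by rw [he]; field_simp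
    rw [this]
    exact div_le_div₀ zero_le_one hη1 (by norm_num) (by linarith)
  have he1 : e ≤ 1 / 128 := (le_mul_of_one_le_right he0.le hM1).trans heM
  obtain ⟨g, hg, hgM⟩ := hM (f w0)
  obtain ⟨l, hl⟩ := hl g hg
  obtain ⟨B, hB0, hB⟩ := hB g l ⟨w0, fun h => hl (by rw [h]; rfl)⟩
  replace hSf := hSf g l
  generalize S' g l = S at hl hB hSf
  have hN : 0 < ‖B‖ := norm_pos_iff.2 hB0
  have hrel : ∀ i, S w0 (some i) = crd g (f w0) i * S w0 none := fun i => by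
    rw [(hSf w0 hl).2 i, div_mul_cancel₀ _ hl]
  have hcoord : ∀ {c : ℂ} {u : Y}, ‖c • S u - B‖ ≤ e * ‖B‖ → ∀ o,
      ‖c * S u o - B o‖ ≤ e * ‖B‖ := fun h o => (norm_le_pi_norm _ o).trans h
  obtain ⟨c0, hc0⟩ := hB w0 hw0
  have hB1 : ‖B‖ / (2 * M) ≤ ‖B none‖ := by
    have h1 : ‖c0 • S w0‖ ≤ M * ‖c0 * S w0 none‖ := by
      refine (pi_norm_le_iff_of_nonneg (by positivity)).2 fun o => ?_
      cases o with
      | none => exact le_mul_of_one_le_left (norm_nonneg _) hM1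
      | some i =>
        change ‖c0 * S w0 (some i)‖ ≤ _
        rw [hrel, mul_left_comm, norm_mul]
        exact mul_le_mul_of_nonneg_right ((norm_le_pi_norm _ i).trans hgM.le) (norm_nonneg _)
    have h2 : ‖B‖ ≤ ‖c0 • S w0‖ + e * ‖B‖ := by
      have := norm_sub_norm_le B (c0 • S w0)
      rw [norm_sub_rev] at this
      linarith
    have h3 : ‖c0 * S w0 none‖ ≤ ‖B none‖ + e * ‖B‖ := by
      have := norm_sub_norm_le (c0 * S w0 none) (B none)
      linarith [hcoord hc0 none]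
    rw [div_le_iff₀ (by positivity)]
    have h4 := mul_le_mul_of_nonneg_left h3 hM0.le
    have h5 := mul_le_mul_of_nonneg_right heM hN.le
    have h6 := mul_le_mul_of_nonneg_right he1 hN.le
    nlinarith
  have hB2 : ‖B‖ / (4 * M) ≤ ‖B none‖ := le_trans (by gcongr; norm_num) hB1
  have main : ∀ u ∈ L, S u none ≠ 0 ∧
      ∀ i, ‖S u (some i) / S u none - B (some i) / B none‖ ≤ η / 4 := by
    intro u hu'
    obtain ⟨c, hc⟩ := hB u hu'
    have h1 : ‖B‖ / (4 * M) ≤ ‖c * S u none‖ := by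
      have h2 := norm_sub_norm_le (B none) (c * S u none)
      rw [norm_sub_rev] at h2
      have h3 := hcoord hc none
      have h4 : e * ‖B‖ ≤ ‖B‖ / (4 * M) := by
        rw [le_div_iff₀ (by positivity)]
        nlinarith [mul_le_mul_of_nonneg_right heM hN.le]
      have h5 : ‖B‖ / (2 * M) = ‖B‖ / (4 * M) + ‖B‖ / (4 * M) := by field_simp; ring
      linarith
    have h2 : c * S u none ≠ 0 := norm_pos_iff.1 (lt_of_lt_of_le (by positivity) h1)
    refine ⟨right_ne_zero_of_mul h2, fun i => ?_⟩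
    rw [← mul_div_mul_left _ _ (left_ne_zero_of_mul h2)]
    refine (ratio_le hN hM0 he0.le (hcoord hc _) (hcoord hc _) (norm_le_pi_norm _ _)
      (norm_le_pi_norm _ _) hB2 h1).trans (le_of_eq ?_)
    rw [he]
    field_simp
    norm_num
  obtain ⟨a1, a2⟩ := main w hw
  obtain ⟨b1, b2⟩ := main w0 hw0
  obtain ⟨z1, f1⟩ := hSf w a1
  obtain ⟨z2, f2⟩ := hSf w0 b1
  have hd : dist (crd g (f w)) (crd g (f w0)) < η := by
    refine (dist_pi_lt_iff hη).2 fun i => ?_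
    rw [f1, f2]
    have := dist_triangle_right (S w (some i) / S w none) (S w0 (some i) / S w0 none)
      (B (some i) / B none)
    rw [dist_eq_norm _ (B (some i) / B none), dist_eq_norm _ (B (some i) / B none)] at this
    linarith [a2 i, b2 i]
  rw [← (hic g _ z1).2, ← (hic g _ z2).2]
  refine hu g _ ⟨(hic g _ z1).1, ?_⟩ _
    ⟨(hic g _ z2).1, mem_closedBall_zero_iff.2 (by linarith)⟩ hd
  rw [dist_eq_norm] at hd
  have := norm_sub_norm_le (crd g (f w)) (crd g (f w0))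
  exact mem_closedBall_zero_iff.2 (by linarith)

end Pool.Agent.RC.D44
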