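import Pool.Agent.Lib.RC.Deg44
import Pool.Agent.Lib.RC.Close64
import Pool.Agent.Lib.RC.BlueA

/-! Close loops are freely homotopic; every loop is homotopic to a loop of a holomorphic torus. -/

namespace Pool.Agent.RC.D44

open Set Filter Topology Complex Real Pool.Agent.Lib.RC

variable {X : Type} [MetricSpace X] [CompactSpace X] {n : ℕ}

theorem LH.close (𝒜 : Atlas X n) : ∃ δ > 0, ∀ g g' : ℝ → X, Continuous g → Continuous g' →
    (∀ θ, g (θ + 2 * π) = g θ) → (∀ θ, g' (θ + 2 * π) = g' θ) →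
    (∀ θ, dist (g θ) (g' θ) < δ) → LH g g' := by
  obtain ⟨δ, hδ, m, h⟩ := CLOSE.exists_slide (X := X) (E := E n) fun x =>
    (𝒜.cover x).imp fun _ h => h.2
  refine ⟨δ, hδ, fun g g' hg hg' hp hp' hd => LH.of_on (fun p => m p.1 (g p.2) (g' p.2)) ?_
    (fun s _ θ => by simp only [hp, hp']) (fun θ => h.zero _ _ (hd θ))
    fun θ => h.one _ _ (hd θ) (mem_univ _)⟩
  exact h.cont.comp (f := fun p : ℝ × ℝ => (p.1, g p.2, g' p.2)) (by fun_prop)
    fun p hp => ⟨hp.1, hd p.2⟩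

theorem null_of_small (𝒜 : Atlas X n) : ∃ δ > 0, ∀ (g : ℝ → X) (y : X), Continuous g →
    (∀ θ, g (θ + 2 * π) = g θ) → (∀ θ, dist (g θ) y < δ) → LH g fun _ => y := by
  obtain ⟨δ, hδ, h⟩ := LH.close 𝒜
  exact ⟨δ, hδ, fun g y hg hp hd => h g _ hg continuous_const hp (fun _ => rfl) hd⟩

/-- U1 -/
theorem torus (hA : St_Ator) (𝒜 : Atlas X n) (hB : ∀ x, x ∈ Good 𝒜) (g : ℝ → X)
    (hg : Continuous g) (hp : ∀ θ, g (θ + 2 * π) = g θ) {l : ℝ} (hl : 0 < l) :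
    ∃ f : ℂ → X, Hol 𝒜 f univ ∧ (∀ w, f (w + 2 * π * I) = f w) ∧ (∀ w, f (w + l) = f w) ∧
      ∀ x, LH g (loop f x) := by
  obtain ⟨δ, hδ, h⟩ := LH.close 𝒜
  obtain ⟨f, hf, h1, h2, x1, h3⟩ := hA n X 𝒜 (fun w => g w.im) l δ hl hδ
    (hg.comp continuous_im) (fun _ => hB _) (fun w => by simp [hp]) (fun w => by simp)
  have hc : Continuous f := continuousOn_univ.1 hf.1
  refine ⟨f, hf, h1, h2, fun x => LH.trans (h g _ hg (loop_cont hc x1) hp (loop_per h1 x1)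
    fun θ => ?_) (loop_line hc h1 x1 x)⟩
  have := h3 (x1 + θ * I) (by simp)
  rw [dist_comm]
  simpa [loop] using this

end Pool.Agent.RC.D44
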