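import Mathlib

/-! The equivariant cylinder, and rationality of functions meromorphic on the sphere. -/

set_option autoImplicit false

open Set Filter Metric Complex
open scoped Topology Real ComplexConjugate Polynomial

noncomputable section

namespace Pool.Agent.RC.End

section EQV

variable {X : Type*} [TopologicalSpace X]

/-- a closed loop whose second half is the mirror image of its first half -/
lemma exists_loop [PathConnectedSpace X] (σ : X → X) (hσ : Continuous σ)
    (hσσ : ∀ x, σ (σ x) = x) : ∃ g : ℝ → X, Continuous g ∧ ∀ θ, g (θ + π) = σ (g θ) := by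
  obtain ⟨x⟩ : Nonempty X := inferInstance
  obtain ⟨γ⟩ := PathConnectedSpace.joined x (σ x)
  have h0 : γ.extend 0 = x := γ.extend_zero
  have h1 : γ.extend 1 = σ x := γ.extend_one
  obtain ⟨p, hp⟩ : ∃ p : ℝ → X, ∀ t, p t =
      if t ≤ 1 / 2 then γ.extend (2 * t) else σ (γ.extend (2 * t - 1)) := ⟨_, fun _ => rfl⟩
  have hpc : Continuous p := by
    rw [funext hp]
    refine Continuous.if_le (by fun_prop) (by fun_prop) continuous_id continuous_const ?_
    rintro t rfl
    norm_num [h0, h1]
  have hp01 : p 0 = p 1 := by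
    rw [hp, hp]
    norm_num [h0, h1, hσσ]
  have hc : Continuous (p ∘ Int.fract) := ContinuousOn.comp_fract'' hpc.continuousOn hp01
  refine ⟨fun θ => p (Int.fract (θ / (2 * π))), hc.comp (by fun_prop), fun θ => ?_⟩
  have e : (θ + π) / (2 * π) = θ / (2 * π) + 1 / 2 := by field_simp
  simp only [e]
  generalize θ / (2 * π) = u
  have ht0 := Int.fract_nonneg u
  have ht1 := Int.fract_lt_one u
  rcases lt_or_ge (Int.fract u) (1 / 2) with h | h
  · have e1 : Int.fract (u + 1 / 2) = Int.fract u + 1 / 2 := by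
      rw [Int.fract_eq_iff]
      refine ⟨by linarith, by linarith, ⌊u⌋, ?_⟩
      rw [← Int.self_sub_fract]
      ring
    rw [e1, hp, hp, if_pos h.le]
    rcases eq_or_lt_of_le ht0 with h2 | h2
    · rw [← h2]
      norm_num [h0, h1]
    · rw [if_neg (by linarith)]
      congr 2
      ring
  · have e1 : Int.fract (u + 1 / 2) = Int.fract u - 1 / 2 := by
      rw [Int.fract_eq_iff]
      refine ⟨by linarith, by linarith, ⌊u⌋ + 1, ?_⟩
      push_cast
      rw [← Int.self_sub_fract]
      ring
    rw [e1, hp, hp, if_pos (by linarith)]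
    rcases eq_or_lt_of_le h with h2 | h2
    · rw [← h2]
      norm_num [h0, h1, hσσ]
    · rw [if_neg (by linarith), hσσ]
      congr 1
      ring

/-- EQV: an equivariant map of the cylinder that is constant at both ends -/
theorem eqv [PathConnectedSpace X] (σ : X → X) (hσ : Continuous σ) (hσσ : ∀ x, σ (σ x) = x)
    (hnull : ∀ g : ℝ → X, Continuous g → (∀ θ, g (θ + 2 * π) = g θ) →
      ∃ (H : unitInterval × ℝ → X) (y : X), Continuous H ∧ (∀ s θ, H (s, θ + 2 * π) = H (s, θ)) ∧
        (∀ θ, H (0, θ) = g θ) ∧ ∀ θ, H (1, θ) = y) :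
    ∃ (f : ℂ → X) (y : X), Continuous f ∧ (∀ w, f (w + 2 * π * I) = f w) ∧
      (∀ w, f (-conj w + π * I) = σ (f w)) ∧ (∀ w, w.re ≤ -1 → f w = y) ∧
      ∀ w, 1 ≤ w.re → f w = σ y := by
  obtain ⟨g, hg, hgs⟩ := exists_loop σ hσ hσσ
  obtain ⟨H, y, hH, hp, h0, h1⟩ := hnull g hg fun θ => by
    rw [show θ + 2 * π = θ + π + π by ring, hgs, hgs, hσσ]
  have hI : Continuous (projIcc (0 : ℝ) 1 zero_le_one) := continuous_projIcc
  have z0 : projIcc (0 : ℝ) 1 zero_le_one 0 = 0 := projIcc_left _
  have key : ∀ θ, H (0, θ) = σ (H (0, θ - π)) := fun θ => by rw [h0, h0, ← hgs, sub_add_cancel]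
  obtain ⟨f, hf⟩ : ∃ f : ℂ → X, ∀ w, f w =
      if w.re ≤ 0 then H (projIcc 0 1 zero_le_one (-w.re), w.im)
      else σ (H (projIcc 0 1 zero_le_one w.re, w.im - π)) := ⟨_, fun _ => rfl⟩
  have hl : ∀ w : ℂ, w.re ≤ 0 → f w = H (projIcc 0 1 zero_le_one (-w.re), w.im) :=
    fun w h => by rw [hf, if_pos h]
  have hr : ∀ w : ℂ, 0 ≤ w.re → f w = σ (H (projIcc 0 1 zero_le_one w.re, w.im - π)) := by
    intro w h
    rcases eq_or_lt_of_le h with h2 | h2
    · rw [hl w h2.ge, ← h2, neg_zero, z0, key]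
    · rw [hf, if_neg (not_le.2 h2)]
  refine ⟨f, y, ?_, fun w => ?_, fun w => ?_, fun w h => ?_, fun w h => ?_⟩
  · rw [funext hf]
    refine Continuous.if_le (by fun_prop) (by fun_prop) continuous_re continuous_const ?_
    intro w h
    rw [h, neg_zero, z0, key]
  · have e1 : (w + 2 * π * I).re = w.re := by simp
    have e2 : (w + 2 * π * I).im = w.im + 2 * π := by simp
    rw [hf, hf, e1, e2, hp, show w.im + 2 * π - π = w.im - π + 2 * π by ring, hp]
  · have e1 : (-conj w + π * I).re = -w.re := by simp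
    have e2 : (-conj w + π * I).im = w.im + π := by simp
    rcases le_total w.re 0 with h | h
    · rw [hr _ (by rw [e1]; linarith), hl w h, e1, e2, add_sub_cancel_right]
    · rw [hl _ (by rw [e1]; linarith), hr w h, e1, e2, neg_neg, hσσ, ← hp _ (w.im - π)]
      congr 2
      ring
  · rw [hl w (by linarith), projIcc_of_right_le _ (by linarith)]
    exact h1 _
  · rw [hr w (by linarith), projIcc_of_right_le _ h]
    exact congrArg σ (h1 _)

/-- null homotopies on the circle give null homotopies of periodic loops -/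
lemma null_of_circle (h : ∀ c : C(Circle, X), ∃ y, c.Homotopic (ContinuousMap.const _ y))
    (g : ℝ → X) (hg : Continuous g) (hp : ∀ θ, g (θ + 2 * π) = g θ) :
    ∃ (H : unitInterval × ℝ → X) (y : X), Continuous H ∧ (∀ s θ, H (s, θ + 2 * π) = H (s, θ)) ∧
      (∀ θ, H (0, θ) = g θ) ∧ ∀ θ, H (1, θ) = y := by
  have hq : Topology.IsQuotientMap Circle.exp :=
    Circle.isCoveringMap_exp.isOpenMap.isQuotientMap Circle.exp.continuous Circle.exp_surjective
  have hper : Function.Periodic g (2 * π) := hp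
  have hc : ∀ θ, g (Function.surjInv Circle.exp_surjective (Circle.exp θ)) = g θ := by
    intro θ
    obtain ⟨m, hm⟩ := Circle.exp_eq_exp.1 (Function.surjInv_eq Circle.exp_surjective (Circle.exp θ))
    rw [hm]
    exact hper.int_mul m θ
  obtain ⟨y, ⟨H⟩⟩ := h ⟨fun z => g (Function.surjInv Circle.exp_surjective z),
    hq.continuous_iff.2 (by
      rw [show (fun z => g (Function.surjInv Circle.exp_surjective z)) ∘ Circle.exp = g from
        funext hc]
      exact hg)⟩
  refine ⟨fun q => H (q.1, Circle.exp q.2), y, by fun_prop, fun s θ => ?_, fun θ => ?_,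
    fun θ => ?_⟩
  · simp only [Circle.exp_add_two_pi]
  · simp only [H.apply_zero]
    exact hc θ
  · simp only [H.apply_one]
    rfl

/-- a periodic map of the cylinder that is constant at both ends is uniformly continuous -/
theorem uniformContinuous_cyl {Z : Type*} [PseudoMetricSpace Z] (f : ℂ → Z) (hf : Continuous f)
    (hp : ∀ w, f (w + 2 * π * I) = f w) {A : ℝ} {y y' : Z} (hl : ∀ w, w.re ≤ -A → f w = y)
    (hr : ∀ w, A ≤ w.re → f w = y') : UniformContinuous f := by
  have hper : Function.Periodic f (2 * π * I) := hp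
  refine Metric.uniformContinuous_iff.2 fun ε hε => ?_
  obtain ⟨δ, hδ, h⟩ := Metric.uniformContinuousOn_iff.1
    ((isCompact_closedBall (0 : ℂ) (|A| + 1 + 2 * π + 1)).uniformContinuousOn_of_continuous
      hf.continuousOn) ε hε
  refine ⟨min δ 1, lt_min hδ one_pos, fun {a b} hab => ?_⟩
  have hab1 : dist a b < 1 := hab.trans_le (min_le_right _ _)
  have hre : |a.re - b.re| < 1 := by
    rw [← sub_re]
    exact (abs_re_le_norm _).trans_lt (by rwa [← dist_eq_norm])
  rw [abs_lt] at hre
  by_cases h1 : a.re ≤ -|A| - 1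
  · rw [hl a (by linarith [le_abs_self A]), hl b (by linarith [le_abs_self A]), dist_self]
    exact hε
  by_cases h2 : |A| + 1 ≤ a.re
  · rw [hr a (by linarith [le_abs_self A]), hr b (by linarith [le_abs_self A]), dist_self]
    exact hε
  obtain ⟨k, hk⟩ : ∃ k : ℤ, |a.im - k * (2 * π)| ≤ 2 * π := by
    refine ⟨⌊a.im / (2 * π)⌋, ?_⟩
    have h3 := Int.floor_le (a.im / (2 * π))
    have h4 := Int.lt_floor_add_one (a.im / (2 * π))
    rw [le_div_iff₀ (by positivity)] at h3
    rw [div_lt_iff₀ (by positivity)] at h4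
    rw [abs_le]
    constructor <;> nlinarith [Real.pi_pos]
  have ha : ‖a - k * (2 * π * I)‖ ≤ |A| + 1 + 2 * π := by
    refine (norm_le_abs_re_add_abs_im _).trans (add_le_add ?_ ?_)
    · have : (a - k * (2 * π * I)).re = a.re := by simp
      rw [this, abs_le]
      constructor <;> linarith
    · have : (a - k * (2 * π * I)).im = a.im - k * (2 * π) := by simp
      rwa [this]
  have hd : dist (a - k * (2 * π * I)) (b - k * (2 * π * I)) = dist a b := dist_sub_right _ _ _
  rw [← hper.sub_int_mul_eq (x := a) k, ← hper.sub_int_mul_eq (x := b) k]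
  refine h _ (by rw [mem_closedBall_zero_iff]; linarith) _ ?_
    (by rw [hd]; exact hab.trans_le (min_le_left _ _))
  rw [mem_closedBall_zero_iff]
  have := norm_le_norm_add_norm_sub' (b - k * (2 * π * I)) (a - k * (2 * π * I))
  rw [← dist_eq_norm (b - _) (a - _), dist_comm, hd] at this
  linarith

end EQV

section RAT

/-- an entire function of polynomial growth is a polynomial -/
theorem poly_of_growth (m : ℕ) : ∀ (G : ℂ → ℂ), Differentiable ℂ G → ∀ C R : ℝ,
    (∀ z, R ≤ ‖z‖ → ‖G z‖ ≤ C * ‖z‖ ^ m) → ∃ p : ℂ[X], ∀ z, G z = p.eval z := by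
  induction m with
  | zero =>
    intro G hG C R h
    obtain ⟨D, hD⟩ := (isCompact_closedBall (0 : ℂ) R).exists_bound_of_continuousOn
      hG.continuous.continuousOn
    have hb : Bornology.IsBounded (range G) := by
      refine isBounded_iff_forall_norm_le.2 ⟨max C D, ?_⟩
      rintro _ ⟨z, rfl⟩
      rcases le_total R ‖z‖ with h1 | h1
      · exact le_trans (by simpa using h z h1) (le_max_left _ _)
      · exact (hD z (mem_closedBall_zero_iff.2 h1)).trans (le_max_right _ _)
    exact ⟨Polynomial.C (G 0), fun z => by simpa using hG.apply_eq_apply_of_bounded hb z 0⟩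
  | succ m ih =>
    intro G hG C R h
    have hd : Differentiable ℂ (dslope G 0) := by
      rw [← differentiableOn_univ]
      exact (differentiableOn_dslope univ_mem).2 hG.differentiableOn
    obtain ⟨p, hp⟩ := ih _ hd (C + ‖G 0‖) (max R 1) fun z hz => by
      have h1 : 1 ≤ ‖z‖ := (le_max_right _ _).trans hz
      have hz0 : z ≠ 0 := norm_pos_iff.1 (by linarith)
      rw [dslope_of_ne _ hz0, slope_def_field, sub_zero, norm_div, div_le_iff₀ (by linarith)]
      have h2 := h z ((le_max_left _ _).trans hz)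
      have h3 : 1 ≤ ‖z‖ ^ (m + 1) := one_le_pow₀ h1
      calc ‖G z - G 0‖ ≤ ‖G z‖ + ‖G 0‖ := norm_sub_le _ _
        _ ≤ C * ‖z‖ ^ (m + 1) + ‖G 0‖ * ‖z‖ ^ (m + 1) :=
          add_le_add h2 (le_mul_of_one_le_right (norm_nonneg _) h3)
        _ = _ := by ring
    refine ⟨Polynomial.C (G 0) + Polynomial.X * p, fun z => ?_⟩
    have := sub_smul_dslope G 0 z
    simp only [sub_zero, smul_eq_mul, hp] at this
    simp only [Polynomial.eval_add, Polynomial.eval_C, Polynomial.eval_mul, Polynomial.eval_X]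
    linear_combination -this

lemma inv_tendsto : Tendsto (fun z : ℂ => z⁻¹) (Bornology.cobounded ℂ) (𝓝[≠] 0) :=
  tendsto_inv₀_cobounded'

/-- RAT: a function meromorphic on the plane and at infinity is rational -/
theorem rat (h : ℂ → ℂ) (hm : ∀ z, MeromorphicAt h z) (hi : MeromorphicAt (fun z => h z⁻¹) 0) :
    ∃ p q : ℂ[X], q ≠ 0 ∧ ∀ z, q.eval z ≠ 0 → h z = p.eval z / q.eval z := by
  classical
  have hfin : {z | ¬ AnalyticAt ℂ h z}.Finite := by
    have h1 : ∀ᶠ z in Bornology.cobounded ℂ, AnalyticAt ℂ h z := by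
      filter_upwards [inv_tendsto.eventually hi.eventually_analyticAt,
        Bornology.eventually_ne_cobounded 0] with z hz hz0
      have h2 : AnalyticAt ℂ (fun w : ℂ => w⁻¹) z := analyticAt_inv hz0
      simpa [Function.comp_def] using hz.comp h2
    rw [Metric.cobounded_eq_cocompact, eventually_iff, mem_cocompact] at h1
    obtain ⟨K, hK, hKs⟩ := h1
    obtain ⟨t, -, ht⟩ := hK.elim_nhds_subcover (fun x => {z | z ≠ x → AnalyticAt ℂ h z})
      (fun x _ => eventually_nhdsWithin_iff.1 (hm x).eventually_analyticAt)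
    refine t.finite_toSet.subset fun z hz => ?_
    have hzK : z ∈ K := by
      by_contra hc
      exact hz (hKs hc)
    obtain ⟨x, hx, hzx⟩ := mem_iUnion₂.1 (ht hzK)
    by_cases e : z = x
    · exact e ▸ hx
    · exact absurd (hzx e) hz
  choose k hk using hm
  obtain ⟨q, hq⟩ : ∃ q : ℂ[X], q = ∏ s ∈ hfin.toFinset, (Polynomial.X - Polynomial.C s) ^ k s :=
    ⟨_, rfl⟩
  have hq0 : q ≠ 0 := by
    rw [hq]
    exact Finset.prod_ne_zero_iff.2 fun s _ => pow_ne_zero _ (Polynomial.X_sub_C_ne_zero s)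
  have hqe : ∀ z, q.eval z = ∏ s ∈ hfin.toFinset, (z - s) ^ k s := by
    intro z
    simp [hq, Polynomial.eval_prod]
  have hG : Differentiable ℂ (fun z => q.eval z * h z) := by
    intro z
    by_cases hz : AnalyticAt ℂ h z
    · exact q.differentiableAt.mul hz.differentiableAt
    · have e : (fun w => q.eval w * h w) =
          fun w => (∏ s ∈ hfin.toFinset.erase z, (w - s) ^ k s) * ((w - z) ^ k z • h w) := by
        funext w
        rw [hqe, ← Finset.prod_erase_mul _ _ (hfin.mem_toFinset.2 hz), smul_eq_mul, mul_assoc]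
      rw [e]
      exact DifferentiableAt.mul (by fun_prop) (hk z).differentiableAt
  obtain ⟨m, hm⟩ := hi
  have hb : ∀ᶠ z in Bornology.cobounded ℂ, ‖q.eval z * h z‖ ≤
      ((∑ i ∈ Finset.range (q.natDegree + 1), ‖q.coeff i‖) *
        (‖((0 : ℂ) - 0) ^ m • h 0⁻¹‖ + 1)) * ‖z‖ ^ (q.natDegree + m) := by
    have h1 := (inv_tendsto.mono_right nhdsWithin_le_nhds).eventually
      (hm.continuousAt.norm.eventually (gt_mem_nhds (lt_add_one _)))
    filter_upwards [h1, Bornology.eventually_ne_cobounded 0,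
      (tendsto_norm_cobounded_atTop (E := ℂ)).eventually_ge_atTop 1] with z hz hz0 hz1
    have h2 : ‖h z‖ ≤ (‖((0 : ℂ) - 0) ^ m • h 0⁻¹‖ + 1) * ‖z‖ ^ m := by
      rw [inv_inv, sub_zero, norm_smul, norm_pow, norm_inv, inv_pow,
        inv_mul_lt_iff₀ (by positivity)] at hz
      rw [mul_comm]
      exact hz.le
    have h3 : ‖q.eval z‖ ≤ (∑ i ∈ Finset.range (q.natDegree + 1), ‖q.coeff i‖) *
        ‖z‖ ^ q.natDegree := by
      rw [Polynomial.eval_eq_sum_range, Finset.sum_mul]
      refine (norm_sum_le _ _).trans (Finset.sum_le_sum fun i hi => ?_)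
      rw [norm_mul, norm_pow]
      exact mul_le_mul_of_nonneg_left
        (pow_le_pow_right₀ hz1 (Nat.lt_succ_iff.1 (Finset.mem_range.1 hi))) (norm_nonneg _)
    rw [norm_mul, pow_add]
    calc _ ≤ _ := mul_le_mul h3 h2 (norm_nonneg _) (by positivity)
      _ = _ := by ring
  obtain ⟨R, -, hR⟩ := (Metric.hasBasis_cobounded_compl_closedBall (0 : ℂ)).eventually_iff.1 hb
  obtain ⟨p, hp⟩ := poly_of_growth _ _ hG _ (R + 1) fun z hz => hR (by
    rw [mem_compl_iff, mem_closedBall_zero_iff]
    linarith)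
  exact ⟨p, q, hq0, fun z hz => by rw [← hp z]; field_simp⟩

end RAT

end Pool.Agent.RC.End
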