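import Pool.Agent.Lib.RC.BlueG

open Topology Filter MvPolynomial Set

noncomputable section

namespace Pool.Agent.RC.X55

open Pool.Agent.Lib.RC Pool.Agent.RC.An Pool.Agent.RC.Sp

variable {n : ℕ} {M : Dat n}

lemma mero_aeval {σ : Type} {φ : ℂ → σ → ℂ} {z : ℂ}
    (h : ∀ i, MeromorphicAt (fun w => φ w i) z) (F : MvPolynomial σ ℝ) :
    MeromorphicAt (fun w => aeval (φ w) F) z := by
  induction F using MvPolynomial.induction_on with
  | C a => simp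
  | add p q hp hq => simpa using hp.fun_add hq
  | mul_X p j hp => simpa using hp.fun_mul (h j)

/-- A meromorphic function with a finite cluster value extends analytically. -/
lemma an_of_cluster {f : ℂ → ℂ} {z c : ℂ} (hf : MeromorphicAt f z)
    (hc : MapClusterPt c (𝓝[≠] z) f) : ∃ g, AnalyticAt ℂ g z ∧ f =ᶠ[𝓝[≠] z] g := by
  classical
  have ho : 0 ≤ meromorphicOrderAt f z := not_lt.1 fun h => by
    have h1 := tendsto_norm_atTop_iff_cobounded.2 (tendsto_cobounded_of_meromorphicOrderAt_neg h)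
    have h2 := hc.frequently (p := fun y => ‖y‖ < ‖c‖ + 1)
      (continuous_norm.continuousAt.eventually_lt continuousAt_const (lt_add_one _))
    obtain ⟨w, h3, h4⟩ := (h2.and_eventually (h1.eventually_ge_atTop (‖c‖ + 1))).exists
    exact h3.not_ge h4
  obtain ⟨d, hd⟩ := tendsto_nhds_of_meromorphicOrderAt_nonneg hf ho
  exact ⟨Function.update f z d, (hf.update z d).analyticAt (continuousAt_update_same.2 hd),
    (Function.update_eventuallyEq_nhdsNE f z z d).symm⟩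

lemma ev_ev_ne {p : ℂ → Prop} {z : ℂ} (h : ∀ᶠ w in 𝓝[≠] z, p w) :
    ∀ᶠ w in 𝓝 z, ∀ᶠ w' in 𝓝[≠] w, p w' := by
  filter_upwards [eventually_eventually_nhds.2 (eventually_nhdsWithin_iff.1 h)] with w hw
  by_cases e : w = z
  · exact e ▸ h
  · filter_upwards [nhdsWithin_le_nhds hw, nhdsWithin_le_nhds (eventually_ne_nhds e)]
      with w' h1 h2 using h1 h2

variable (H : M.Ok)

/-- A map which is locally analytic in some chart is holomorphic. -/
theorem hol_of_loc {G : ℂ → X H} {Ω : Set ℂ} (hΩ : IsOpen Ω)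
    (h : ∀ z ∈ Ω, ∃ g, ∃ ψ : ℂ → M.V g → ℂ, AnalyticAt ℂ ψ z ∧
      ∀ᶠ w in 𝓝 z, ψ w ∈ M.Z ℂ g ∧ G w = ι H g (ψ w)) : Hol (atlas H) G Ω := by
  have hc : ∀ z ∈ Ω, ContinuousAt G z := fun z hz => by
    obtain ⟨g, ψ, h1, h2⟩ := h z hz
    have := tendsto_ι H (h2.mono fun _ h => h.1) h2.self_of_nhds.1 h1.continuousAt
    rw [ContinuousAt, h2.self_of_nhds.2]
    exact this.congr' (h2.mono fun _ h => h.2.symm)
  refine (hol_iff H hΩ).2 ⟨fun z hz => (hc z hz).continuousWithinAt, fun b z hz => ?_⟩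
  obtain ⟨g, ψ, h1, h2⟩ := h z hz.1
  have h3 : G z ∈ dom H g := h2.self_of_nhds.2 ▸ ι_mem H h2.self_of_nhds.1
  obtain ⟨l, h4, h5⟩ := eventually_tr H h3 hz.2
  have h6 : ∀ᶠ w in 𝓝 z, crd H g (G w) = ψ w := h2.mono fun w h => by rw [h.2, crd_ι H h.1]
  rw [h6.self_of_nhds] at h4
  refine (((analyticAt_tr h4).comp h1).congr ?_).differentiableAt.differentiableWithinAt
  filter_upwards [h6, (hc z hz.1).eventually h5] with w r1 r2
  rw [r2.2.2, r1]
  rfl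

/-- A meromorphic germ with values in a chart is analytic in some chart. -/
theorem loc_ext {b : M.B} {φ : ℂ → M.V b → ℂ} {z : ℂ}
    (h : ∀ i, MeromorphicAt (fun w => φ w i) z) (hZ : ∀ᶠ w in 𝓝[≠] z, φ w ∈ M.Z ℂ b) :
    ∃ g, ∃ ψ : ℂ → M.V g → ℂ, AnalyticAt ℂ ψ z ∧ (∀ᶠ w in 𝓝 z, ψ w ∈ M.Z ℂ g) ∧
      ∀ᶠ w in 𝓝[≠] z, ι H b (φ w) = ι H g (ψ w) := by
  obtain ⟨x, hx⟩ : ∃ x, MapClusterPt x (𝓝[≠] z) fun w => ι H b (φ w) :=
    exists_clusterPt_of_compactSpace _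
  obtain ⟨g, hg⟩ := exists_dom H x
  obtain ⟨l, hl⟩ : ∃ l, ∃ᶠ w in 𝓝[≠] z, aeval (φ w) (M.ob b g l) ≠ 0 := by
    by_contra h0
    simp only [not_exists, not_frequently] at h0
    obtain ⟨w, hw, h2⟩ := (((hx.frequently ((isOpen_dom H g).mem_nhds hg)).and_eventually
      hZ).and_eventually (eventually_all.2 h0)).exists
    obtain ⟨l, h1, -⟩ := same_crd H (ι_mem H hw.2) hw.1
    exact h2 l (crd_ι H hw.2 ▸ h1)
  have h1 : ∀ᶠ w in 𝓝[≠] z, aeval (φ w) (M.ob b g l) ≠ 0 :=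
    (mero_aeval h _).eventually_eq_zero_or_eventually_ne_zero.resolve_left fun h0 => by
      obtain ⟨w, h2, h3⟩ := (hl.and_eventually h0).exists
      exact h2 h3
  have h2 : ∀ᶠ w in 𝓝[≠] z, tr b g l (φ w) ∈ M.Z ℂ g ∧
      ι H b (φ w) = ι H g (tr b g l (φ w)) := by
    filter_upwards [h1, hZ] with w r1 r2
    have r3 : tr b g l (φ w) ∈ M.Z ℂ g := H.mem _ _ _ _ r2 r1
    exact ⟨r3, (ι_eq_iff H r2 r3).2 (same_tr r1)⟩
  have h3 : ∀ i, ∃ f, AnalyticAt ℂ f z ∧ (fun w => tr b g l (φ w) i) =ᶠ[𝓝[≠] z] f := fun i => by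
    refine an_of_cluster (c := crd H g x i) ((mero_aeval h _).fun_div (mero_aeval h _)) ?_
    have c1 : ContinuousAt (fun y => crd H g y i) x :=
      (continuous_apply i).continuousAt.comp (continuousAt_crd H hg)
    refine (hx.continuousAt_comp c1).congrFun ?_
    filter_upwards [h2] with w r
    rw [Function.comp_apply, r.2, crd_ι H r.1]
  choose f f1 f2 using h3
  have h4 : AnalyticAt ℂ (fun w i => f i w) z := analyticAt_pi_iff.2 f1
  have h5 : ∀ᶠ w in 𝓝[≠] z, (fun i => f i w) ∈ M.Z ℂ g ∧ ι H b (φ w) = ι H g fun i => f i w := by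
    filter_upwards [h2, eventually_all.2 f2] with w r1 r2
    rwa [← funext r2]
  refine ⟨g, fun w i => f i w, h4, ?_, h5.mono fun _ r => r.2⟩
  rw [← nhdsNE_sup_pure, eventually_sup, eventually_pure]
  exact ⟨h5.mono fun _ r => r.1, (isClosed_Z g).mem_of_tendsto
    (h4.continuousAt.tendsto.mono_left nhdsWithin_le_nhds) (h5.mono fun _ r => r.1)⟩

/-- Extension of meromorphic maps into a chart. -/
theorem ext_mero {b : M.B} {φ : ℂ → M.V b → ℂ} {Ω : Set ℂ} (hΩ : IsOpen Ω)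
    (h : ∀ z ∈ Ω, ∀ i, MeromorphicAt (fun w => φ w i) z)
    (hZ : ∀ z ∈ Ω, ∀ᶠ w in 𝓝[≠] z, φ w ∈ M.Z ℂ b) :
    ∃ G, Hol (atlas H) G Ω ∧ ∀ z ∈ Ω, ContinuousAt φ z → G z = ι H b (φ z) := by
  refine ⟨fun z => limUnder (𝓝[≠] z) fun w => ι H b (φ w), hol_of_loc H hΩ fun z hz => ?_,
    fun z hz hc => ?_⟩
  · obtain ⟨g, ψ, h1, h2, h3⟩ := loc_ext H (h z hz) (hZ z hz)
    refine ⟨g, ψ, h1, ?_⟩
    filter_upwards [h1.eventually_analyticAt, eventually_eventually_nhds.2 h2, ev_ev_ne h3]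
      with w r1 r2 r3
    exact ⟨r2.self_of_nhds, (((tendsto_ι H r2 r2.self_of_nhds r1.continuousAt).mono_left
      nhdsWithin_le_nhds).congr' (r3.mono fun _ r => r.symm)).limUnder_eq⟩
  · have h1 := hc.tendsto.mono_left (nhdsWithin_le_nhds (s := {z}ᶜ))
    exact (tendsto_ι H (hZ z hz) ((isClosed_Z b).mem_of_tendsto h1 (hZ z hz)) h1).limUnder_eq

/-- Extension of quotients of holomorphic functions. -/
theorem ext {b : M.B} {P : M.V b → ℂ → ℂ} {Q : ℂ → ℂ} {Ω : Set ℂ} (hΩ : IsOpen Ω)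
    (hP : ∀ i, DifferentiableOn ℂ (P i) Ω) (hQ : DifferentiableOn ℂ Q Ω)
    (h0 : ∀ s ∈ Ω, ∃ᶠ w in 𝓝 s, Q w ≠ 0)
    (hZ : ∀ s ∈ Ω, Q s ≠ 0 → (fun i => P i s / Q s) ∈ M.Z ℂ b) :
    ∃ G, Hol (atlas H) G Ω ∧ ∀ s ∈ Ω, Q s ≠ 0 → G s = ι H b fun i => P i s / Q s := by
  have aP : ∀ i, ∀ z ∈ Ω, AnalyticAt ℂ (P i) z := fun i z hz =>
    (hP i).analyticAt (hΩ.mem_nhds hz)
  have aQ : ∀ z ∈ Ω, AnalyticAt ℂ Q z := fun z hz => hQ.analyticAt (hΩ.mem_nhds hz)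
  obtain ⟨G, h1, h2⟩ := ext_mero H (φ := fun s i => P i s / Q s) hΩ
    (fun z hz i => (aP i z hz).meromorphicAt.fun_div (aQ z hz).meromorphicAt) fun z hz => by
      have r : ∀ᶠ w in 𝓝[≠] z, Q w ≠ 0 :=
        (aQ z hz).eventually_eq_zero_or_eventually_ne_zero.resolve_left fun r => by
          obtain ⟨w, h2, h3⟩ := ((h0 z hz).and_eventually r).exists
          exact h2 h3
      filter_upwards [r, nhdsWithin_le_nhds (hΩ.mem_nhds hz)] with w r1 r2 using hZ w r2 r1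
  exact ⟨G, h1, fun s hs h => h2 s hs (continuousAt_pi.2 fun i =>
    (aP i s hs).continuousAt.div (aQ s hs).continuousAt h)⟩

/-- Extension of rational curves. -/
theorem ext_poly {b : M.B} (P : M.V b → Polynomial ℂ) {Q : Polynomial ℂ} (h0 : Q ≠ 0)
    (hZ : ∀ s, Q.eval s ≠ 0 → (fun i => (P i).eval s / Q.eval s) ∈ M.Z ℂ b) :
    ∃ G, Hol (atlas H) G univ ∧
      ∀ s, Q.eval s ≠ 0 → G s = ι H b fun i => (P i).eval s / Q.eval s := by
  obtain ⟨G, h1, h2⟩ := ext H (P := fun i s => (P i).eval s) (Q := fun s => Q.eval s) isOpen_univ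
    (fun i => (P i).differentiable.differentiableOn) Q.differentiable.differentiableOn
    (fun s _ => by
      have : ∀ᶠ w in 𝓝[≠] s, Q.eval w ≠ 0 :=
        (show ∀ᶠ w in cofinite, Q.eval w ≠ 0 by
          rw [eventually_cofinite]
          simpa using Polynomial.finite_setOfPred_isRoot h0).filter_mono (nhdsNE_le_cofinite s)
      exact this.frequently.filter_mono nhdsWithin_le_nhds) fun s _ => hZ s
  exact ⟨G, h1, fun s => h2 s trivial⟩

theorem st_EXT : G.St_EXT := fun _ _ H _ _ _ _ hΩ hP hQ h0 hZ => ext H hΩ hP hQ h0 hZ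

end Pool.Agent.RC.X55
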