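import Mathlib

/-! Spreading a generic complex point of a finite type algebra to an analytic family. -/

open Polynomial Filter Topology Set
open scoped IntermediateField ContDiff

noncomputable section

namespace Pool.Agent.RC.Spr

/-- A primitive element with a monic equation, over a domain embedded in the complex numbers. -/
theorem prim {A : Type} [CommRing A] (j : A →+* ℂ) (hj : Function.Injective j) {ι : Type}
    [Finite ι] (c : ι → ℂ) (hc : ∀ l, ∃ Q : A[X], Q ≠ 0 ∧ Q.eval₂ j (c l) = 0) :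
    ∃ (P : A[X]) (w : ℂ) (D : A), P.Monic ∧ P.eval₂ j w = 0 ∧ (derivative P).eval₂ j w ≠ 0 ∧
      D ≠ 0 ∧ (∀ Q : A[X], Q.eval₂ j w = 0 → P ∣ Q) ∧
      ∀ l, ∃ N : A[X], j D * c l = N.eval₂ j w := by
  classical
  have : IsDomain A := hj.isDomain j
  let : Algebra A ℂ := j.toAlgebra
  have : FaithfulSMul A ℂ := (faithfulSMul_iff_algebraMap_injective A ℂ).2 hj
  let K := FractionRing A
  let : Algebra K ℂ := FractionRing.liftAlgebra A ℂ
  have : IsScalarTower A K ℂ := FractionRing.isScalarTower_liftAlgebra A ℂ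
  have : CharZero K := by
    refine ⟨fun a b h => ?_⟩
    have := congrArg (algebraMap K ℂ) h
    rw [map_natCast, map_natCast] at this
    exact Nat.cast_injective this
  have hi : ∀ x ∈ range c, IsIntegral K x := by
    rintro _ ⟨l, rfl⟩
    obtain ⟨Q, h0, h1⟩ := hc l
    exact (IsAlgebraic.extendScalars (IsFractionRing.injective A K) ⟨Q, h0, h1⟩).isIntegral
  let L := IntermediateField.adjoin K (range c)
  have : FiniteDimensional K L := IntermediateField.finiteDimensional_adjoin hi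
  obtain ⟨α, hα⟩ := Field.exists_primitive_element K L
  have hαi : IsIntegral K (α : ℂ) := (Algebra.IsIntegral.isIntegral (R := K) α).map L.val
  -- clear the denominators of the minimal polynomial
  obtain ⟨a, ha⟩ := IsLocalization.exist_integer_multiples_of_finset (nonZeroDivisors A)
    (minpoly K (α : ℂ)).coeffs
  have ha0 : (a : A) ≠ 0 := nonZeroDivisors.ne_zero a.2
  have haK : algebraMap A K a ≠ 0 := (map_ne_zero_iff _ (IsFractionRing.injective A K)).2 ha0
  let w : ℂ := algebraMap K ℂ (algebraMap A K a) * α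
  let P₀ := (minpoly K (α : ℂ)).scaleRoots (algebraMap A K a)
  have hm := minpoly.monic hαi
  have hP₀ : P₀.Monic := (monic_scaleRoots_iff _).2 hm
  have hl : P₀ ∈ lifts (algebraMap A K) := by
    refine (lifts_iff_coeff_lifts _).2 fun n => ?_
    rw [coeff_scaleRoots]
    rcases lt_or_ge n (minpoly K (α : ℂ)).natDegree with h | h
    · by_cases h0 : (minpoly K (α : ℂ)).coeff n = 0
      · exact ⟨0, by simp [h0]⟩
      obtain ⟨b, hb⟩ := ha _ (coeff_mem_coeffs h0)
      obtain ⟨m, hm⟩ := Nat.exists_eq_succ_of_ne_zero (Nat.sub_ne_zero_of_lt h)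
      refine ⟨b * a ^ m, ?_⟩
      rw [hm, map_mul, hb, map_pow, Algebra.smul_def, pow_succ]
      ring
    · rcases h.eq_or_lt with h | h
      · exact ⟨1, by rw [← h, Nat.sub_self, pow_zero, mul_one, map_one]; exact hm.symm⟩
      · exact ⟨0, by simp [coeff_eq_zero_of_natDegree_lt h]⟩
  obtain ⟨P, hP, -, hPm⟩ := lifts_and_natDegree_eq_and_monic hl hP₀
  have hwi : IsIntegral K w := (isIntegral_algebraMap).mul hαi
  have hw0 : aeval w P₀ = 0 := scaleRoots_aeval_eq_zero (minpoly.aeval K (α : ℂ))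
  have hadj : K⟮w⟯ = K⟮(α : ℂ)⟯ := by
    refine le_antisymm (IntermediateField.adjoin_simple_le_iff.2 (mul_mem
      (IntermediateField.algebraMap_mem _ _) (IntermediateField.mem_adjoin_simple_self _ _)))
      (IntermediateField.adjoin_simple_le_iff.2 ?_)
    have : (α : ℂ) = algebraMap K ℂ (algebraMap A K a)⁻¹ * w := by
      rw [← mul_assoc, ← map_mul, inv_mul_cancel₀ haK, map_one, one_mul]
    rw [this]
    exact mul_mem (IntermediateField.algebraMap_mem _ _)
      (IntermediateField.mem_adjoin_simple_self _ _)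
  have hmin : P₀ = minpoly K w := by
    refine eq_of_monic_of_dvd_of_natDegree_le (minpoly.monic hwi) hP₀ (minpoly.dvd K w hw0) ?_
    rw [natDegree_scaleRoots, ← IntermediateField.adjoin.finrank hαi,
      ← IntermediateField.adjoin.finrank hwi, hadj]
  have hev : ∀ Q : A[X], Q.eval₂ j w = aeval w (Q.map (algebraMap A K)) := fun Q => by
    rw [aeval_map_algebraMap]
    rfl
  have hN : ∀ l, ∃ N : K[X], aeval w N = c l := fun l => by
    have h1 : c l ∈ K⟮w⟯ := by
      have h2 : (⟨c l, IntermediateField.subset_adjoin K _ ⟨l, rfl⟩⟩ : L) ∈ K⟮α⟯ := hα ▸ trivial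
      have h3 := IntermediateField.adjoin_map K {α} L.val
      rw [hadj]
      simp only [image_singleton, IntermediateField.coe_val] at h3
      rw [← h3]
      exact ⟨_, h2, rfl⟩
    have h4 : c l ∈ Algebra.adjoin K {w} := by
      rw [← IntermediateField.adjoin_simple_toSubalgebra_of_isAlgebraic hwi.isAlgebraic]
      exact h1
    rw [Algebra.adjoin_singleton_eq_range_aeval] at h4
    exact h4
  choose N hN using hN
  have := Fintype.ofFinite ι
  obtain ⟨D, hD⟩ := IsLocalization.exist_integer_multiples_of_finset (nonZeroDivisors A)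
    (Finset.univ.biUnion fun l => (N l).coeffs)
  refine ⟨P, w, D, hPm, by rw [hev, hP, hw0], ?_, nonZeroDivisors.ne_zero D.2, fun Q hQ => ?_,
    fun l => ?_⟩
  · rw [hev, ← derivative_map, hP, hmin]
    exact (minpoly.irreducible hwi).separable.aeval_derivative_ne_zero (minpoly.aeval K w)
  · rw [hev] at hQ
    rw [← map_dvd_map (algebraMap A K) (IsFractionRing.injective A K) hPm, hP, hmin]
    exact minpoly.dvd K w hQ
  · have h1 : C (algebraMap A K D) * N l ∈ lifts (algebraMap A K) := by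
      refine (lifts_iff_coeff_lifts _).2 fun n => ?_
      rw [coeff_C_mul]
      by_cases h0 : (N l).coeff n = 0
      · exact ⟨0, by simp [h0]⟩
      obtain ⟨b, hb⟩ := hD _ (Finset.mem_biUnion.2 ⟨l, Finset.mem_univ _, coeff_mem_coeffs h0⟩)
      exact ⟨b, by rw [hb, Algebra.smul_def]⟩
    obtain ⟨M, hM⟩ := h1
    refine ⟨M, ?_⟩
    rw [hev, show M.map (algebraMap A K) = _ from hM, map_mul, aeval_C, hN,
      ← IsScalarTower.algebraMap_apply]
    rfl

/-- The algebraic core: a complex point over an injective point of the base is a member of a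
family given by one monic equation and one denominator. -/
theorem core {R B : Type} [CommRing R] [CommRing B] [Algebra R B] [Algebra.FiniteType R B]
    (i₀ : R →+* ℂ) (hi : Function.Injective i₀) (f₀ : B →+* ℂ)
    (hf : ∀ a, f₀ (algebraMap R B a) = i₀ a) :
    ∃ (σ : Type) (s : σ → ℂ) (P : (MvPolynomial σ R)[X]) (w₀ : ℂ) (D : MvPolynomial σ R)
      (N : B → (MvPolynomial σ R)[X]) (k : B → ℕ), P.Monic ∧
      P.eval₂ (MvPolynomial.eval₂Hom i₀ s) w₀ = 0 ∧
      (derivative P).eval₂ (MvPolynomial.eval₂Hom i₀ s) w₀ ≠ 0 ∧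
      MvPolynomial.eval₂Hom i₀ s D ≠ 0 ∧
      (∀ b, f₀ b = (N b).eval₂ (MvPolynomial.eval₂Hom i₀ s) w₀ /
        MvPolynomial.eval₂Hom i₀ s D ^ k b) ∧
      ∀ (i : R →+* ℂ) (w : ℂ), P.eval₂ (MvPolynomial.eval₂Hom i s) w = 0 →
        MvPolynomial.eval₂Hom i s D ≠ 0 → ∃ f : B →+* ℂ, (∀ a, f (algebraMap R B a) = i a) ∧
          ∀ b, f b = (N b).eval₂ (MvPolynomial.eval₂Hom i s) w /
            MvPolynomial.eval₂Hom i s D ^ k b := by
  classical
  have : IsDomain R := hi.isDomain i₀
  let : Algebra R ℂ := i₀.toAlgebra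
  have : FaithfulSMul R ℂ := (faithfulSMul_iff_algebraMap_injective R ℂ).2 hi
  obtain ⟨T, hT⟩ := Algebra.FiniteType.out (R := R) (A := B)
  obtain ⟨S, hS⟩ := (AlgebraicIndependent.matroid R ℂ).exists_isBasis (f₀ '' T)
  obtain ⟨h1, -, h2⟩ := AlgebraicIndependent.matroid_isBasis_iff.1 hS
  let j : MvPolynomial S R →+* ℂ := MvPolynomial.eval₂Hom i₀ Subtype.val
  have hj : Function.Injective j := h1
  obtain ⟨P, w₀, D, p1, p2, p3, p4, p5, p6⟩ := prim j hj (fun b : T => f₀ b) fun b => by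
    obtain ⟨Q, h0, h3⟩ := h2 _ ⟨b, b.2, rfl⟩
    let g : MvPolynomial S R →+* Algebra.adjoin R S := j.codRestrict (Algebra.adjoin R S) fun a =>
      by rw [Algebra.adjoin_eq_range]; exact ⟨a, rfl⟩
    have hg : Function.Surjective g := by
      rintro ⟨a, ha⟩
      rw [Algebra.adjoin_eq_range] at ha
      obtain ⟨c, rfl⟩ := ha
      exact ⟨c, rfl⟩
    obtain ⟨Q', rfl⟩ := map_surjective g hg Q
    refine ⟨Q', fun h => h0 (by rw [h, Polynomial.map_zero]), ?_⟩
    rw [aeval_def, eval₂_map] at h3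
    exact h3
  have hD : j D ≠ 0 := (map_ne_zero_iff j hj).2 p4
  have hN : ∀ b, ∃ (N : (MvPolynomial S R)[X]) (k : ℕ), j D ^ k * f₀ b = N.eval₂ j w₀ := by
    intro b
    have hb : b ∈ Algebra.adjoin R (T : Set B) := hT ▸ trivial
    induction hb using Algebra.adjoin_induction with
    | mem b hb =>
      obtain ⟨N, hN⟩ := p6 ⟨b, hb⟩
      exact ⟨N, 1, by rw [pow_one, hN]⟩
    | algebraMap a => exact ⟨C (MvPolynomial.C a), 0, by simp [j, hf]⟩
    | add a b _ _ ha hb =>
      obtain ⟨N, k, ha⟩ := ha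
      obtain ⟨M, l, hb⟩ := hb
      refine ⟨C D ^ l * N + C D ^ k * M, k + l, ?_⟩
      simp only [eval₂_add, eval₂_mul, eval₂_pow, eval₂_C, ← ha, ← hb, map_add]
      ring
    | mul a b _ _ ha hb =>
      obtain ⟨N, k, ha⟩ := ha
      obtain ⟨M, l, hb⟩ := hb
      refine ⟨N * M, k + l, ?_⟩
      simp only [eval₂_mul, ← ha, ← hb, map_mul]
      ring
  choose N k hN using hN
  refine ⟨S, Subtype.val, P, w₀, D, N, k, p1, p2, p3, hD, fun b => ?_, fun i w hw hD' => ?_⟩
  · rw [eq_div_iff (pow_ne_zero _ hD), mul_comm]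
    exact hN b
  set j' : MvPolynomial S R →+* ℂ := MvPolynomial.eval₂Hom i Subtype.val with hj'
  have key : ∀ b (M : (MvPolynomial S R)[X]) (l : ℕ), j D ^ l * f₀ b = M.eval₂ j w₀ →
      (N b).eval₂ j' w / j' D ^ k b = M.eval₂ j' w / j' D ^ l := by
    intro b M l h
    obtain ⟨Q, hQ⟩ := p5 (C D ^ l * N b - C D ^ k b * M) (by
      simp only [eval₂_sub, eval₂_mul, eval₂_pow, eval₂_C, ← h, ← hN]
      ring)
    have h3 := congrArg (eval₂ j' w) hQ
    simp only [eval₂_sub, eval₂_mul, eval₂_pow, eval₂_C, hw, zero_mul] at h3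
    rw [div_eq_div_iff (pow_ne_zero _ hD') (pow_ne_zero _ hD')]
    linear_combination h3
  refine ⟨{ toFun := fun b => (N b).eval₂ j' w / j' D ^ k b
            map_one' := (key 1 1 0 (by simp)).trans (by simp)
            map_zero' := (key 0 0 0 (by simp)).trans (by simp)
            map_mul' := fun a b => (key _ (N a * N b) (k a + k b) ?_).trans ?_
            map_add' := fun a b => (key _ (C D ^ k b * N a + C D ^ k a * N b) (k a + k b)
              ?_).trans ?_ }, fun a => ?_, fun b => rfl⟩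
  · simp only [eval₂_mul, ← hN, map_mul]
    ring
  · rw [eval₂_mul, pow_add, mul_div_mul_comm]
  · simp only [eval₂_add, eval₂_mul, eval₂_pow, eval₂_C, ← hN, map_add]
    ring
  · simp only [eval₂_add, eval₂_mul, eval₂_pow, eval₂_C]
    field_simp
    ring
  · exact (key _ (C (MvPolynomial.C a)) 0 (by simp [j, hf])).trans (by simp [j'])

section analytic
variable {E : Type} [NormedAddCommGroup E] [NormedSpace ℂ E] {R : Type} [CommRing R]

theorem an_mv {i : E → R →+* ℂ} {q : E} (hi : ∀ a, AnalyticAt ℂ (fun q => i q a) q) {σ : Type}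
    (s : σ → ℂ) (D : MvPolynomial σ R) :
    AnalyticAt ℂ (fun q => MvPolynomial.eval₂Hom (i q) s D) q := by
  induction D using MvPolynomial.induction_on with
  | C a => simpa using hi a
  | add a b ha hb =>
    simp only [map_add]
    exact ha.add hb
  | mul_X a n ha =>
    simp only [map_mul, MvPolynomial.eval₂Hom_X']
    exact ha.mul analyticAt_const

theorem an_poly {i : E → R →+* ℂ} {q : E} (hi : ∀ a, AnalyticAt ℂ (fun q => i q a) q)
    (Q : R[X]) (w : ℂ) : AnalyticAt ℂ (fun z : E × ℂ => Q.eval₂ (i z.1) z.2) (q, w) := by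
  induction Q using Polynomial.induction_on' with
  | add a b ha hb =>
    simp only [eval₂_add]
    exact ha.add hb
  | monomial n a =>
    simp only [eval₂_monomial]
    exact ((hi a).comp_of_eq analyticAt_fst rfl).mul (analyticAt_snd.pow n)

/-- A simple root of an analytic family of polynomials moves analytically. -/
theorem root [CompleteSpace E] {i : E → R →+* ℂ} {q : E}
    (hi : ∀ a, AnalyticAt ℂ (fun q => i q a) q) (P : R[X]) {w₀ : ℂ} (h0 : P.eval₂ (i q) w₀ = 0)
    (h1 : (derivative P).eval₂ (i q) w₀ ≠ 0) :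
    ∃ w : E → ℂ, w q = w₀ ∧ AnalyticAt ℂ w q ∧ (∀ᶠ q' in 𝓝 q, P.eval₂ (i q') (w q') = 0) ∧
      ∀ᶠ z in 𝓝 (q, w₀), P.eval₂ (i z.1) z.2 = 0 → w z.1 = z.2 := by
  have h2 := an_poly hi P w₀
  have h3 : ContDiffAt ℂ ω (fun z : E × ℂ => P.eval₂ (i z.1) z.2) (q, w₀) := h2.contDiffAt
  have h4 : HasDerivAt (fun w => P.eval₂ (i q) w) ((derivative P).eval₂ (i q) w₀) w₀ := by
    simpa only [eval_map, derivative_map] using (P.map (i q)).hasDerivAt w₀
  have h5 : HasFDerivAt (fun w => P.eval₂ (i q) w)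
      (fderiv ℂ (fun z : E × ℂ => P.eval₂ (i z.1) z.2) (q, w₀) ∘L .inr ℂ E ℂ) w₀ :=
    h2.differentiableAt.hasFDerivAt.comp w₀ (hasFDerivAt_prodMk_right q w₀)
  have h6 : (fderiv ℂ (fun z : E × ℂ => P.eval₂ (i z.1) z.2) (q, w₀) ∘L
      .inr ℂ E ℂ).IsInvertible := by
    rw [h5.unique h4.hasFDerivAt]
    exact ⟨ContinuousLinearEquiv.unitsEquivAut ℂ (Units.mk0 _ h1), by ext; simp⟩
  refine ⟨h3.implicitFunction (by simp) h6, h3.implicitFunction_apply_self _ h6,
    (h3.contDiffAt_implicitFunction _ h6).analyticAt, ?_, ?_⟩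
  · simpa only [h0] using h3.eventually_apply_implicitFunction (by simp) h6
  · filter_upwards [h3.eventually_apply_eq_iff_implicitFunction (by simp) h6] with z hz h
    exact hz.1 (h.trans h0.symm)

/-- Local spreading. -/
theorem spread [CompleteSpace E] {B : Type} [CommRing B] [Algebra R B] [Algebra.FiniteType R B]
    {Ω : Set E} (hΩ : IsOpen Ω) (i : E → R →+* ℂ)
    (hi : ∀ a, AnalyticOnNhd ℂ (fun q => i q a) Ω) {q₀ : E} (h₀ : q₀ ∈ Ω)
    (hinj : Function.Injective (i q₀)) (f₀ : B →+* ℂ) (hf : ∀ a, f₀ (algebraMap R B a) = i q₀ a) :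
    ∃ (U : Set E) (f : E → B →+* ℂ), IsOpen U ∧ q₀ ∈ U ∧ U ⊆ Ω ∧ f q₀ = f₀ ∧
      (∀ q ∈ U, ∀ a, f q (algebraMap R B a) = i q a) ∧
      ∀ b, AnalyticOnNhd ℂ (fun q => f q b) U := by
  classical
  obtain ⟨σ, s, P, w₀, D, N, k, -, p2, p3, p4, p5, p6⟩ := core (i q₀) hinj f₀ hf
  have hj : ∀ q ∈ Ω, ∀ a, AnalyticAt ℂ (fun q => MvPolynomial.eval₂Hom (i q) s a) q :=
    fun q hq a => an_mv (fun a => hi a q hq) s a
  obtain ⟨w, w1, w2, w3, -⟩ := root (i := fun q => MvPolynomial.eval₂Hom (i q) s) (hj q₀ h₀) P p2 p3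
  obtain ⟨U, hU, hUo, hU0⟩ := mem_nhds_iff.1 ((w3.and (w2.eventually_analyticAt.and
    ((hj q₀ h₀ D).continuousAt.eventually_ne p4))).and (hΩ.mem_nhds h₀))
  have : Nonempty (B →+* ℂ) := ⟨f₀⟩
  choose! f hf1 hf2 using fun q (hq : q ∈ U) => p6 (i q) (w q) (hU hq).1.1 (hU hq).1.2.2
  refine ⟨U, f, hUo, hU0, fun q hq => (hU hq).2, RingHom.ext fun b => ?_, hf1, fun b q hq => ?_⟩
  · rw [hf2 q₀ hU0, w1, ← p5]
  · have h1 := ((an_poly (i := fun q => MvPolynomial.eval₂Hom (i q) s) (hj q (hU hq).2) (N b)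
      (w q)).comp_of_eq (analyticAt_id.prod (hU hq).1.2.1) rfl).div
        ((hj q (hU hq).2 D).pow (k b)) (pow_ne_zero _ (hU hq).1.2.2)
    refine h1.congr ?_
    filter_upwards [hUo.mem_nhds hq] with q' hq'
    exact (hf2 q' hq' b).symm

end analytic

/-- Spreading over a point with algebraically independent coordinates. -/
theorem generic {k B ι : Type} [CommRing k] [Algebra k ℂ] [CommRing B] [Algebra k B]
    [Algebra.FiniteType k B] [Fintype ι] (x : ι → B) (f₀ : B →ₐ[k] ℂ)
    (hx : AlgebraicIndependent k fun j => f₀ (x j)) :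
    ∃ (U : Set (ι → ℂ)) (f : (ι → ℂ) → B →ₐ[k] ℂ), IsOpen U ∧ (fun j => f₀ (x j)) ∈ U ∧
      f (fun j => f₀ (x j)) = f₀ ∧ (∀ t ∈ U, ∀ j, f t (x j) = t j) ∧
      ∀ b, AnalyticOnNhd ℂ (fun t => f t b) U := by
  classical
  let : Algebra (MvPolynomial ι k) B := (MvPolynomial.aeval x : MvPolynomial ι k →ₐ[k] B).toAlgebra
  have : IsScalarTower k (MvPolynomial ι k) B := IsScalarTower.of_algebraMap_eq fun a =>
    (MvPolynomial.aeval_C x a).symm
  have : Algebra.FiniteType (MvPolynomial ι k) B := .of_restrictScalars_finiteType k _ B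
  obtain ⟨U, f, h1, h2, -, h3, h4, h5⟩ := spread (E := ι → ℂ) (B := B) isOpen_univ
    (fun t => (MvPolynomial.aeval t : MvPolynomial ι k →ₐ[k] ℂ).toRingHom)
    (fun a t _ => by
      induction a using MvPolynomial.induction_on with
      | C a => simpa using analyticAt_const
      | add a b ha hb =>
        simp only [map_add]
        exact ha.add hb
      | mul_X a n ha =>
        simp only [map_mul, AlgHom.toRingHom_eq_coe, RingHom.coe_coe, MvPolynomial.aeval_X]
        exact ha.mul ((ContinuousLinearMap.proj (R := ℂ) (φ := fun _ : ι => ℂ) n).analyticAt t))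
    (mem_univ fun j => f₀ (x j)) hx f₀.toRingHom fun a => MvPolynomial.comp_aeval_apply x f₀ a
  refine ⟨U, fun t => if h : t ∈ U then ⟨f t, fun c => ?_⟩ else f₀, h1, h2, ?_, fun t ht j => ?_,
    fun b t ht => (h5 b t ht).congr ?_⟩
  · have := h4 t h (MvPolynomial.C c)
    rw [← MvPolynomial.algebraMap_eq, ← IsScalarTower.algebraMap_apply] at this
    simpa using this
  · simp only [h2, dite_true]
    exact AlgHom.ext fun b => congrArg (fun g : B →+* ℂ => g b) h3
  · have := h4 t ht (MvPolynomial.X j)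
    rw [show algebraMap (MvPolynomial ι k) B (MvPolynomial.X j) = x j from
      MvPolynomial.aeval_X x j] at this
    simpa [ht] using this
  · filter_upwards [h1.mem_nhds ht] with t' ht'
    simp [ht']

end Pool.Agent.RC.Spr
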