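import Pool.Agent.Lib.RC.Fam98a
import Pool.Agent.Lib.RC.Spr25

set_option autoImplicit false

open Polynomial Filter Topology Metric Set

noncomputable section

namespace Pool.Agent.RC.F98

lemma an_eval {F k V : Type} [NormedAddCommGroup F] [NormedSpace ℂ F] [CommRing k] (c : k →+* ℂ)
    {z : F → V → ℂ} {t : F} (hz : ∀ i, AnalyticAt ℂ (fun t => z t i) t) (Φ : MvPolynomial V k) :
    AnalyticAt ℂ (fun t => MvPolynomial.eval₂ c (z t) Φ) t := by
  induction Φ using MvPolynomial.induction_on with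
  | C a => simpa using analyticAt_const
  | add a b ha hb =>
    simp only [MvPolynomial.eval₂_add]
    exact ha.add hb
  | mul_X a n ha =>
    simp only [MvPolynomial.eval₂_mul, MvPolynomial.eval₂_X]
    exact ha.mul (hz n)

theorem sprRel (F : Type) [NormedAddCommGroup F] [NormedSpace ℂ F] [CompleteSpace F] :
    SprRel F := by
  classical
  intro k V J _ _ _ c c0 z Ω t0 hΩ ht0 hz hrel
  let e0 := MvPolynomial.eval₂Hom c (z t0)
  let e1 := MvPolynomial.eval₂Hom c (Sum.elim (z t0) c0)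
  let R := MvPolynomial V k ⧸ RingHom.ker e0
  let B := MvPolynomial (V ⊕ J) k ⧸ RingHom.ker e1
  have hre : ∀ (w : V → ℂ) (b : J → ℂ) (Φ : MvPolynomial V k),
      MvPolynomial.eval₂ c (Sum.elim w b) (MvPolynomial.rename Sum.inl Φ) =
        MvPolynomial.eval₂ c w Φ := fun w b Φ => by
    rw [MvPolynomial.eval₂_rename]
    rfl
  let g : R →ₐ[k] B := Ideal.Quotient.liftₐ (RingHom.ker e0)
    ((Ideal.Quotient.mkₐ k (RingHom.ker e1)).comp (MvPolynomial.rename Sum.inl)) (fun Φ hΦ => by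
      have h1 : MvPolynomial.rename (Sum.inl : V → V ⊕ J) Φ ∈ RingHom.ker e1 :=
        (hre (z t0) c0 Φ).trans hΦ
      exact Ideal.Quotient.eq_zero_iff_mem.2 h1)
  let : Algebra R B := g.toRingHom.toAlgebra
  have : IsScalarTower k R B := IsScalarTower.of_algebraMap_eq fun a => (g.commutes a).symm
  have : Algebra.FiniteType R B := .of_restrictScalars_finiteType k R B
  let z' : F → V → ℂ := fun t => if t ∈ Ω then z t else z t0
  have hz' : ∀ t, ∀ Φ ∈ RingHom.ker e0, MvPolynomial.eval₂Hom c (z' t) Φ = 0 := by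
    intro t Φ hΦ
    by_cases ht : t ∈ Ω
    · simp only [z', ht, if_true]
      exact hrel t ht Φ hΦ
    · simp only [z', ht, if_false]
      exact hΦ
  let i : F → R →+* ℂ := fun t => Ideal.Quotient.lift _ (MvPolynomial.eval₂Hom c (z' t)) (hz' t)
  have hi : ∀ t ∈ Ω, ∀ Φ, i t (Ideal.Quotient.mk _ Φ) = MvPolynomial.eval₂ c (z t) Φ := by
    intro t ht Φ
    change MvPolynomial.eval₂Hom c (z' t) Φ = _
    simp only [z', ht, if_true]
    rfl
  obtain ⟨U, f, hU, h0, hUΩ, hf0, hf1, hf2⟩ := Spr.spread (B := B) hΩ i (fun a t ht => by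
      obtain ⟨Φ, rfl⟩ := Ideal.Quotient.mk_surjective a
      refine (an_eval c (fun j => hz j t ht) Φ).congr ?_
      filter_upwards [hΩ.mem_nhds ht] with t' ht'
      exact (hi t' ht' Φ).symm) ht0 (by
      rw [injective_iff_map_eq_zero]
      intro a ha
      obtain ⟨Φ, rfl⟩ := Ideal.Quotient.mk_surjective a
      rw [hi t0 ht0] at ha
      exact Ideal.Quotient.eq_zero_iff_mem.2 ha) (RingHom.kerLift e1) (fun a => by
      obtain ⟨Φ, rfl⟩ := Ideal.Quotient.mk_surjective a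
      rw [hi t0 ht0, ← hre (z t0) c0 Φ]
      rfl)
  refine ⟨fun t j => f t (Ideal.Quotient.mk _ (MvPolynomial.X (Sum.inr j))), ?_, ?_⟩
  · funext j
    simp only [hf0]
    change e1 (MvPolynomial.X (Sum.inr j)) = _
    simp [e1]
  · filter_upwards [hU.mem_nhds h0] with t ht
    refine ⟨fun j => hf2 _ t ht, fun Φ hΦ => ?_⟩
    have h2 : ∀ Ψ : MvPolynomial V k,
        f t (Ideal.Quotient.mk _ (MvPolynomial.rename Sum.inl Ψ)) =
          MvPolynomial.eval₂ c (z t) Ψ := fun Ψ =>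
      (hf1 t ht (Ideal.Quotient.mk _ Ψ)).trans (hi t (hUΩ ht) Ψ)
    have h3 : MvPolynomial.eval₂Hom c (Sum.elim (z t)
        fun j => f t (Ideal.Quotient.mk _ (MvPolynomial.X (Sum.inr j)))) =
        (f t).comp (Ideal.Quotient.mk (RingHom.ker e1)) := by
      refine MvPolynomial.ringHom_ext (fun a => ?_) (fun x => ?_)
      · simpa using (h2 (MvPolynomial.C a)).symm
      · rcases x with x | x
        · simpa using (h2 (MvPolynomial.X x)).symm
        · simp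
    have h4 : Ideal.Quotient.mk (RingHom.ker e1) Φ = 0 := Ideal.Quotient.eq_zero_iff_mem.2 hΦ
    have h5 := RingHom.congr_fun h3 Φ
    rw [RingHom.comp_apply, h4, map_zero] at h5
    exact h5

lemma an_ev {F V : Type} [NormedAddCommGroup F] [NormedSpace ℂ F] {d : ℕ}
    {a : F → Option V × Fin d → ℂ} {t : F} (ha : ∀ j, AnalyticAt ℂ (fun t => a t j) t)
    (o : Option V) (u : ℂ) : AnalyticAt ℂ (fun x : ℂ × F => ev (a x.2) o x.1) (u, t) := by
  unfold ev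
  refine Finset.analyticAt_fun_sum _ fun j _ => ?_
  exact ((ha (o, j)).comp_of_eq analyticAt_snd rfl).mul (analyticAt_fst.pow _)

/-- the doubly covered curve with the pole at `s = 0` cleared -/
def tw {V : Type} {d : ℕ} (a : Option V × Fin d → ℂ) (l : ℂ) (o : Option V) (s : ℂ) : ℂ :=
  ∑ j : Fin d, a (o, j) * (l ^ 2) ^ (j : ℕ) * s ^ (2 * (d - j))

lemma tw_eq {V : Type} {d : ℕ} (a : Option V × Fin d → ℂ) (l : ℂ) (o : Option V) {s : ℂ}
    (hs : s ≠ 0) : tw a l o s = s ^ (2 * d) * ev a o (l ^ 2 / s ^ 2) := by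
  rw [tw, ev, Finset.mul_sum]
  refine Finset.sum_congr rfl fun j _ => ?_
  obtain ⟨m, hm⟩ := Nat.exists_eq_add_of_le j.2.le
  have h1 : d - (j : ℕ) = m := by omega
  have h2 : s ^ (2 * d) = (s ^ 2) ^ (j : ℕ) * s ^ (2 * m) := by
    rw [← pow_mul, ← pow_add]
    exact congrArg (fun e => s ^ e) (by omega)
  rw [h1, h2, div_pow]
  field_simp

lemma tw_zero {V : Type} {d : ℕ} (a : Option V × Fin d → ℂ) (l : ℂ) (o : Option V) :
    tw a l o 0 = 0 := by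
  refine Finset.sum_eq_zero fun j _ => ?_
  have := j.2
  rw [zero_pow (by omega), mul_zero]

lemma diff_tw {F V : Type} [NormedAddCommGroup F] [NormedSpace ℂ F] {d : ℕ}
    {a : F → Option V × Fin d → ℂ} {T : ℂ → F} {Ω : Set ℂ} (hT : DifferentiableOn ℂ T Ω)
    (ha : ∀ s ∈ Ω, ∀ j, AnalyticAt ℂ (fun t => a t j) (T s)) (l : ℂ) (o : Option V) :
    DifferentiableOn ℂ (fun s => tw (a (T s)) l o s) Ω := by
  intro s hs
  unfold tw
  refine DifferentiableWithinAt.fun_sum fun j _ => ?_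
  refine (DifferentiableWithinAt.mul_const ?_ _).mul
    (differentiableAt_id.pow _).differentiableWithinAt
  exact (ha s hs (o, j)).differentiableAt.comp_differentiableWithinAt s (hT s hs)

/-- FAM in normalised form: the curve is in the chart on the closed unit disc and its point at
`u = 1` is generic -/
theorem fam1 {X V k : Type} [TopologicalSpace X] [Finite V] [CommRing k] {n : ℕ}
    (H : (ℂ → X) → Prop) (c : k →+* ℂ) (S : Set (MvPolynomial V k)) (Z : Set (V → ℂ))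
    (hZ : ∀ q, q ∈ Z ↔ ∀ Φ ∈ S, MvPolynomial.eval₂ c q Φ = 0) (ι : (V → ℂ) → X)
    (hι : ContinuousOn ι Z) (pr : Fin n → V) (ψ : OpenPartialHomeomorph X (Fin n → ℂ))
    (hψ : ∀ q ∈ Z, ι q ∈ ψ.source → ψ (ι q) = fun j => q (pr j)) (z : (Fin n → ℂ) → V → ℂ)
    (hz : ∀ i, AnalyticOnNhd ℂ (fun t => z t i) ψ.target)
    (hzZ : ∀ t ∈ ψ.target, z t ∈ Z ∧ ι (z t) = ψ.symm t) (hinj : InjOn ι Z)
    (hext : ∀ (P : V → ℂ → ℂ) (Q : ℂ → ℂ), (∀ i, DifferentiableOn ℂ (P i) (ball 0 1)) →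
      DifferentiableOn ℂ Q (ball 0 1) → (∀ s ∈ ball (0 : ℂ) 1, ∃ᶠ w in 𝓝 s, Q w ≠ 0) →
      (∀ s ∈ ball (0 : ℂ) 1, Q s ≠ 0 → (fun i => P i s / Q s) ∈ Z) →
      ∃ G, H G ∧ ∀ s ∈ ball (0 : ℂ) 1, Q s ≠ 0 → G s = ι fun i => P i s / Q s)
    (p : V → k) (P : V → ℂ[X]) (Q : ℂ[X]) (hcv : ∀ u, Q.eval u ≠ 0 → cv P Q u ∈ Z)
    (hp : cv P Q 0 = fun i => c (p i))
    (hin : ∀ u : ℂ, ‖u‖ ≤ 1 → Q.eval u ≠ 0 ∧ ι (cv P Q u) ∈ ψ.source)
    (hgen : ∀ Φ : MvPolynomial V k, MvPolynomial.eval₂ c (cv P Q 1) Φ = 0 →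
      ∀ q ∈ Z, MvPolynomial.eval₂ c q Φ = 0) :
    ∃ (φ : ℂ × (Fin n → ℂ) → Fin n → ℂ) (t0 : Fin n → ℂ) (δ : ℝ), 0 < δ ∧
      AnalyticOnNhd ℂ φ (closedBall 0 1 ×ˢ closedBall t0 δ) ∧
      (∀ t ∈ closedBall t0 δ, φ (0, t) = ψ (ι (cv P Q 0))) ∧
      (∃ u : ℂ, ‖u‖ ≤ 1 ∧ Function.Injective (fderiv ℂ (fun t => φ (u, t)) t0)) ∧
      ∀ lam : ℝ, 0 < lam → lam ≤ 1 / 2 → ∀ t : ℂ → Fin n → ℂ, DifferentiableOn ℂ t (ball 0 1) →
        (∀ s ∈ ball (0 : ℂ) 1, ‖t s - t0‖ ≤ δ) → ∃ G, H G ∧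
          ∀ s : ℂ, 1 / 2 < ‖s‖ → ‖s‖ < 1 → G s = ψ.symm (φ ((lam : ℂ) ^ 2 / s ^ 2, t s)) := by
  obtain ⟨hQ0, hs0⟩ := hin 0 (by simp)
  obtain ⟨hQ1, hs1⟩ := hin 1 (by simp)
  set t0 := ψ (ι (cv P Q 1)) with ht0
  have ht0t : t0 ∈ ψ.target := ψ.map_source hs1
  have hzt0 : z t0 = cv P Q 1 :=
    hinj (hzZ t0 ht0t).1 (hcv 1 hQ1) (by rw [(hzZ t0 ht0t).2, ht0, ψ.left_inv hs1])
  obtain ⟨d, a, haQ, haP, ha⟩ := famalg (sprRel (Fin n → ℂ)) c S p P Q
    (fun h => hQ0 (by rw [h, eval_zero])) (fun u hu => (hZ _).1 (hcv u hu))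
    (fun i => by
      have := congrFun hp i
      rw [cv, div_eq_iff hQ0] at this
      exact this) z ψ.target t0 ψ.open_target ht0t hz
    (fun i => by rw [hzt0, cv, div_mul_cancel₀ _ hQ1])
    (fun t ht Φ hΦ => hgen Φ (by rwa [hzt0] at hΦ) _ (hzZ t ht).1)
  let w : ℂ × (Fin n → ℂ) → V → ℂ := fun x i => ev (a x.2) (some i) x.1 / ev (a x.2) none x.1
  have ha0 := ha.self_of_nhds.1
  have hloc : ∀ u ∈ closedBall (0 : ℂ) 1, ∀ᶠ x in 𝓝 (t0, u),
      ev (a x.1) none x.2 ≠ 0 ∧ ι (w (x.2, x.1)) ∈ ψ.source := by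
    intro u hu
    obtain ⟨hQu, hsu⟩ := hin u (by simpa using hu)
    have hne : ev (a t0) none u ≠ 0 := by rwa [haQ]
    have h1 : ∀ᶠ x in 𝓝 (u, t0), ev (a x.2) none x.1 ≠ 0 :=
      (an_ev ha0 none u).continuousAt.eventually_ne hne
    have h2 : ContinuousAt w (u, t0) := continuousAt_pi.2 fun i =>
      ((an_ev ha0 (some i) u).div (an_ev ha0 none u) hne).continuousAt
    have h3 : w (u, t0) = cv P Q u := by
      funext i
      simp only [w, haP, haQ, cv]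
    have h4 : ∀ᶠ x in 𝓝 (u, t0), w x ∈ Z := by
      filter_upwards [h1, (continuous_snd.tendsto (u, t0)).eventually ha] with x hx hx2
      exact (hZ _).2 (hx2.2.1 x.1 hx)
    have h5 : Tendsto w (𝓝 (u, t0)) (𝓝[Z] (cv P Q u)) :=
      tendsto_nhdsWithin_iff.2 ⟨h3 ▸ h2.tendsto, h4⟩
    have h6 := ((hι _ (hcv u hQu)).tendsto.comp h5).eventually (ψ.open_source.mem_nhds hsu)
    exact (continuous_swap.tendsto (t0, u)).eventually (h1.and h6)
  have hall := ((isCompact_closedBall (0 : ℂ) 1).eventually_forall_of_forall_eventually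
    (P := fun t u => ev (a t) none u ≠ 0 ∧ ι (w (u, t)) ∈ ψ.source) hloc).and
      (ha.and (ψ.open_target.mem_nhds ht0t))
  obtain ⟨δ, hδ, hb⟩ := Metric.nhds_basis_closedBall.eventually_iff.1 hall
  refine ⟨fun x j => w x (pr j), t0, δ, hδ, ?_, fun t ht => ?_, ⟨1, by simp, ?_⟩, ?_⟩
  · rintro ⟨u, t⟩ ⟨hu, ht⟩
    obtain ⟨h1, h2, -⟩ := hb ht
    exact AnalyticAt.pi fun j => (an_ev h2.1 (some _) u).div (an_ev h2.1 none u) (h1 u hu).1
  · obtain ⟨h1, h2, -⟩ := hb ht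
    rw [hψ _ (hcv 0 hQ0) hs0, hp]
    funext j
    simp only [w, h2.2.2.1]
    exact mul_div_cancel_right₀ _ (h1 0 (by simp)).1
  · have h1 : (fun t => fun j => w (1, t) (pr j)) =ᶠ[𝓝 t0] id := by
      filter_upwards [hall] with t ⟨h1, h2, h3⟩
      have h4 := hψ _ (hzZ t h3).1 (by rw [(hzZ t h3).2]; exact ψ.map_target h3)
      rw [(hzZ t h3).2, ψ.right_inv h3] at h4
      funext j
      simp only [w, h2.2.2.2, id]
      rw [mul_div_cancel_right₀ _ (h1 1 (by simp)).1]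
      exact (congrFun h4 j).symm
    rw [h1.fderiv_eq, fderiv_id]
    exact Function.injective_id
  · intro lam hl0 hl1 t ht htd
    have hb' := fun s hs => hb (show t s ∈ closedBall t0 δ from
      mem_closedBall_iff_norm.2 (htd s hs))
    have hsm : ∀ s : ℂ, 1 / 2 < ‖s‖ → (lam : ℂ) ^ 2 / s ^ 2 ∈ closedBall (0 : ℂ) 1 := by
      intro s hs
      rw [mem_closedBall_zero_iff, norm_div, norm_pow, norm_pow, Complex.norm_real,
        Real.norm_of_nonneg hl0.le, div_le_one (by positivity)]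
      exact pow_le_pow_left₀ hl0.le (by linarith) 2
    have hd := fun o => diff_tw (a := a) ht (fun s hs => (hb' s hs).2.1.1) (lam : ℂ) o
    have hne : ∀ s : ℂ, 1 / 2 < ‖s‖ → ‖s‖ < 1 → tw (a (t s)) lam none s ≠ 0 := by
      intro s h1 h2
      have hs : s ≠ 0 := norm_pos_iff.1 (by linarith)
      rw [tw_eq _ _ _ hs]
      exact mul_ne_zero (pow_ne_zero _ hs)
        ((hb' s (mem_ball_zero_iff.2 h2)).1 _ (hsm s h1)).1
    have hq : ∀ s : ℂ, s ≠ 0 → (fun i => tw (a (t s)) lam (some i) s / tw (a (t s)) lam none s) =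
        w ((lam : ℂ) ^ 2 / s ^ 2, t s) := by
      intro s hs
      funext i
      rw [tw_eq _ _ _ hs, tw_eq _ _ _ hs, mul_div_mul_left _ _ (pow_ne_zero _ hs)]
    have hwZ : ∀ s ∈ ball (0 : ℂ) 1, tw (a (t s)) lam none s ≠ 0 →
        s ≠ 0 ∧ w ((lam : ℂ) ^ 2 / s ^ 2, t s) ∈ Z := by
      intro s hs h1
      have hs0 : s ≠ 0 := fun h => h1 (by rw [h, tw_zero])
      rw [tw_eq _ _ _ hs0] at h1
      exact ⟨hs0, (hZ _).2 ((hb' s hs).2.1.2.1 _ (right_ne_zero_of_mul h1))⟩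
    obtain ⟨G, hG, hG2⟩ := hext (fun i s => tw (a (t s)) lam (some i) s)
      (fun s => tw (a (t s)) lam none s) (fun i => hd (some i)) (hd none) (fun s hs => by
        by_contra h
        have h1 : (fun s => tw (a (t s)) lam none s) =ᶠ[𝓝 s] 0 :=
          (Filter.not_frequently.1 h).mono fun x hx => not_not.1 hx
        have h2 := ((hd none).analyticOnNhd isOpen_ball).eqOn_zero_of_preconnected_of_eventuallyEq_zero
          (convex_ball (0 : ℂ) 1).isPreconnected hs h1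
        have h3 : ‖((3 / 4 : ℝ) : ℂ)‖ = 3 / 4 := by
          rw [Complex.norm_real, Real.norm_of_nonneg (by norm_num)]
        exact hne _ (by rw [h3]; norm_num) (by rw [h3]; norm_num)
          (h2 (mem_ball_zero_iff.2 (by rw [h3]; norm_num))))
      (fun s hs h1 => by
        rw [hq s (hwZ s hs h1).1]
        exact (hwZ s hs h1).2)
    refine ⟨G, hG, fun s h1 h2 => ?_⟩
    have hs := mem_ball_zero_iff.2 h2
    obtain ⟨h3, h4⟩ := hwZ s hs (hne s h1 h2)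
    have h5 := ((hb' s hs).1 _ (hsm s h1)).2
    rw [hG2 s hs (hne s h1 h2), hq s h3]
    exact (ψ.left_inv h5).symm.trans (congrArg ψ.symm (hψ _ h4 h5))

/-- FAM: a rational curve through `x` which is nondegenerate over the countable ring `k`
containing the coordinates of `x` produces the family needed for a bubble datum at `x` -/
theorem fam {X V k : Type} [TopologicalSpace X] [Finite V] [CommRing k] [Countable k] {n : ℕ}
    (H : (ℂ → X) → Prop) (c : k →+* ℂ) (S : Set (MvPolynomial V k)) (Z : Set (V → ℂ))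
    (hZ : ∀ q, q ∈ Z ↔ ∀ Φ ∈ S, MvPolynomial.eval₂ c q Φ = 0) (ι : (V → ℂ) → X)
    (hι : ContinuousOn ι Z) (pr : Fin n → V) (ψ : OpenPartialHomeomorph X (Fin n → ℂ))
    (hψ : ∀ q ∈ Z, ι q ∈ ψ.source → ψ (ι q) = fun j => q (pr j)) (z : (Fin n → ℂ) → V → ℂ)
    (hz : ∀ i, AnalyticOnNhd ℂ (fun t => z t i) ψ.target)
    (hzZ : ∀ t ∈ ψ.target, z t ∈ Z ∧ ι (z t) = ψ.symm t) (hinj : InjOn ι Z)
    (hext : ∀ (P : V → ℂ → ℂ) (Q : ℂ → ℂ), (∀ i, DifferentiableOn ℂ (P i) (ball 0 1)) →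
      DifferentiableOn ℂ Q (ball 0 1) → (∀ s ∈ ball (0 : ℂ) 1, ∃ᶠ w in 𝓝 s, Q w ≠ 0) →
      (∀ s ∈ ball (0 : ℂ) 1, Q s ≠ 0 → (fun i => P i s / Q s) ∈ Z) →
      ∃ G, H G ∧ ∀ s ∈ ball (0 : ℂ) 1, Q s ≠ 0 → G s = ι fun i => P i s / Q s)
    (p : V → k) (P : V → ℂ[X]) (Q : ℂ[X]) (hcv : ∀ u, Q.eval u ≠ 0 → cv P Q u ∈ Z)
    (hp : cv P Q 0 = fun i => c (p i)) (hQ0 : Q.eval 0 ≠ 0) (hs0 : ι (cv P Q 0) ∈ ψ.source)
    (hnd : ∀ Φ : MvPolynomial V k,
      (∀ u, Q.eval u ≠ 0 → MvPolynomial.eval₂ c (cv P Q u) Φ = 0) →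
      ∀ q ∈ Z, MvPolynomial.eval₂ c q Φ = 0) :
    ∃ (φ : ℂ × (Fin n → ℂ) → Fin n → ℂ) (t0 : Fin n → ℂ) (δ : ℝ), 0 < δ ∧
      AnalyticOnNhd ℂ φ (closedBall 0 1 ×ˢ closedBall t0 δ) ∧
      (∀ t ∈ closedBall t0 δ, φ (0, t) = ψ (ι (cv P Q 0))) ∧
      (∃ u : ℂ, ‖u‖ ≤ 1 ∧ Function.Injective (fderiv ℂ (fun t => φ (u, t)) t0)) ∧
      ∀ lam : ℝ, 0 < lam → lam ≤ 1 / 2 → ∀ t : ℂ → Fin n → ℂ, DifferentiableOn ℂ t (ball 0 1) →
        (∀ s ∈ ball (0 : ℂ) 1, ‖t s - t0‖ ≤ δ) → ∃ G, H G ∧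
          ∀ s : ℂ, 1 / 2 < ‖s‖ → ‖s‖ < 1 → G s = ψ.symm (φ ((lam : ℂ) ^ 2 / s ^ 2, t s)) := by
  have h1 : ∀ᶠ u in 𝓝 (0 : ℂ), Q.eval u ≠ 0 := Q.continuous.continuousAt.eventually_ne hQ0
  have h2 : ContinuousAt (cv P Q) 0 := continuousAt_pi.2 fun i =>
    (P i).continuous.continuousAt.div Q.continuous.continuousAt hQ0
  have h3 : Tendsto (cv P Q) (𝓝 0) (𝓝[Z] (cv P Q 0)) :=
    tendsto_nhdsWithin_iff.2 ⟨h2.tendsto, h1.mono hcv⟩
  have h4 := ((hι _ (hcv 0 hQ0)).tendsto.comp h3).eventually (ψ.open_source.mem_nhds hs0)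
  obtain ⟨ρ, hρ, hb⟩ := Metric.nhds_basis_ball.eventually_iff.1 (h1.and h4)
  obtain ⟨u1, -, hu1, hu2⟩ := exists_small_notMem (countable_special c P Q) hρ
  have hQe : ∀ u, (Q.comp (C u1 * Polynomial.X)).eval u = Q.eval (u1 * u) := fun u => by simp [eval_comp]
  have hcve : ∀ u, cv (fun i => (P i).comp (C u1 * Polynomial.X)) (Q.comp (C u1 * Polynomial.X)) u = cv P Q (u1 * u) :=
    fun u => by
    funext i
    simp [cv, eval_comp]
  have h5 := fam1 H c S Z hZ ι hι pr ψ hψ z hz hzZ hinj hext p (fun i => (P i).comp (C u1 * Polynomial.X))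
    (Q.comp (C u1 * Polynomial.X)) (fun u hu => by
      rw [hcve]
      exact hcv _ (by rwa [hQe] at hu)) (by rw [hcve, mul_zero, hp]) (fun u hu => by
      rw [hcve, hQe]
      refine hb (mem_ball_zero_iff.2 ?_)
      rw [norm_mul]
      exact lt_of_le_of_lt (mul_le_of_le_one_right (norm_nonneg _) hu) hu1) (fun Φ hΦ => by
      rw [hcve, mul_one] at hΦ
      refine hnd Φ ?_
      by_contra h
      exact hu2 ⟨(hb (mem_ball_zero_iff.2 hu1)).1, Φ, hΦ, h⟩)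
  rwa [hcve, mul_zero] at h5

end Pool.Agent.RC.F98
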