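import Pool.Agent.Lib.RC.BlueG
import Pool.Agent.Lib.RC.Mero15b

set_option autoImplicit false

namespace Pool.Agent.RC.G.M15

open Pool.Agent.Lib.RC Pool.Agent.RC.Sp

theorem st_EXT : St_EXT := fun _ _ H _ _ _ _ hΩ hP hQ hQ0 hZ => S15.ext H hΩ hP hQ hQ0 hZ

theorem st_MERO : St_MERO := fun _ _ H _ _ _ hΩ hc hf ⟨_, hz, hb⟩ => S15.mero H hΩ hc hf hz hb

theorem st_ALG : St_ALG := by
  intro n M H f y b u0 hf hy hb
  obtain ⟨P, Q, h1, h2⟩ := S15.alg H hf hy hb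
  have h0 := (h1 u0).2 hb
  refine ⟨P, Q, ⟨fun h => h0 (by rw [h, Polynomial.eval_zero]), fun u hu => ?_⟩, h0, fun u hu => ?_⟩
  · have h3 := crd_mem H ((h1 u).1 hu)
    rwa [h2 u hu] at h3
  · have h3 := ι_crd H ((h1 u).1 hu)
    rw [h2 u hu] at h3
    exact h3.symm

end Pool.Agent.RC.G.M15
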