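import Mathlib

namespace Pool.Agent.Lib.RC.ID

open Set Metric Filter Topology

variable {X : Type*} [TopologicalSpace X] {E : Type*} [NormedAddCommGroup E] [NormedSpace ℂ E]

/-- A map continuous on an open set and differentiable in a chart is analytic in that chart. -/
theorem analyticAt_chart [CompleteSpace E] {f : ℂ → X} {Ω : Set ℂ} (hΩ : IsOpen Ω)
    (hf : ContinuousOn f Ω) (ψ : OpenPartialHomeomorph X E)
    (hd : DifferentiableOn ℂ (fun z => ψ (f z)) (Ω ∩ f ⁻¹' ψ.source)) {z : ℂ} (hz : z ∈ Ω)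
    (hs : f z ∈ ψ.source) : AnalyticAt ℂ (fun z => ψ (f z)) z :=
  hd.analyticAt ((hf.isOpen_inter_preimage hΩ ψ.open_source).mem_nhds ⟨hz, hs⟩)

/-- Local identity theorem. -/
theorem eventually_eq_of_frequently [T2Space X] [CompleteSpace E]
    (A : Set (OpenPartialHomeomorph X E)) (hcov : ∀ x, ∃ ψ ∈ A, x ∈ ψ.source)
    {f g : ℂ → X} {Ω : Set ℂ} (hΩ : IsOpen Ω)
    (hf : ContinuousOn f Ω)
    (hf' : ∀ ψ ∈ A, DifferentiableOn ℂ (fun z => ψ (f z)) (Ω ∩ f ⁻¹' ψ.source))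
    (hg : ContinuousOn g Ω)
    (hg' : ∀ ψ ∈ A, DifferentiableOn ℂ (fun z => ψ (g z)) (Ω ∩ g ⁻¹' ψ.source))
    {z : ℂ} (hz : z ∈ Ω) (h : ∃ᶠ w in 𝓝[≠] z, f w = g w) : f =ᶠ[𝓝 z] g := by
  have hfz : ContinuousAt f z := hf.continuousAt (hΩ.mem_nhds hz)
  have hgz : ContinuousAt g z := hg.continuousAt (hΩ.mem_nhds hz)
  have he : f z = g z :=
    tendsto_nhds_unique_of_frequently_eq (hfz.tendsto.mono_left nhdsWithin_le_nhds)
      (hgz.tendsto.mono_left nhdsWithin_le_nhds) h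
  obtain ⟨ψ, hψ, hs⟩ := hcov (f z)
  have hs' : g z ∈ ψ.source := he ▸ hs
  have h1 := analyticAt_chart hΩ hf ψ (hf' ψ hψ) hz hs
  have h2 := analyticAt_chart hΩ hg ψ (hg' ψ hψ) hz hs'
  have h3 : ∀ᶠ w in 𝓝 z, ψ (f w) = ψ (g w) :=
    (h1.frequently_eq_iff_eventually_eq h2).1 (h.mono fun w hw => by rw [hw])
  filter_upwards [h3, hfz.eventually (ψ.open_source.mem_nhds hs),
    hgz.eventually (ψ.open_source.mem_nhds hs')] with w hw h4 h5
  exact ψ.injOn h4 h5 hw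

/-- (ID) Identity theorem for maps that are holomorphic in charts. -/
theorem eqOn_of_frequently [T2Space X] [CompleteSpace E]
    (A : Set (OpenPartialHomeomorph X E)) (hcov : ∀ x, ∃ ψ ∈ A, x ∈ ψ.source)
    {f g : ℂ → X} {Ω : Set ℂ} (hΩ : IsOpen Ω) (hc : IsPreconnected Ω)
    (hf : ContinuousOn f Ω)
    (hf' : ∀ ψ ∈ A, DifferentiableOn ℂ (fun z => ψ (f z)) (Ω ∩ f ⁻¹' ψ.source))
    (hg : ContinuousOn g Ω)
    (hg' : ∀ ψ ∈ A, DifferentiableOn ℂ (fun z => ψ (g z)) (Ω ∩ g ⁻¹' ψ.source))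
    {z0 : ℂ} (hz0 : z0 ∈ Ω) (h : ∃ᶠ w in 𝓝[≠] z0, f w = g w) : EqOn f g Ω := by
  set S : Set ℂ := {z | f =ᶠ[𝓝 z] g} with hS
  have hSo : IsOpen S := isOpen_setOfPred_eventually_nhds
  have h0 : z0 ∈ S := eventually_eq_of_frequently A hcov hΩ hf hf' hg hg' hz0 h
  have hsub : Ω ⊆ S := by
    refine hc.subset_of_closure_inter_subset hSo ⟨z0, hz0, h0⟩ ?_
    rintro z ⟨hz, hzΩ⟩
    by_cases hzS : z ∈ S
    · exact hzS
    · refine eventually_eq_of_frequently A hcov hΩ hf hf' hg hg' hzΩ ?_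
      have h1 : ∃ᶠ w in 𝓝 z, w ∈ S := mem_closure_iff_frequently.1 hz
      rw [frequently_nhdsWithin_iff]
      refine h1.mono fun w hw => ⟨hw.self_of_nhds, ?_⟩
      rintro rfl
      exact hzS hw
  exact fun z hz => (hsub hz).self_of_nhds

/-- (ID), from agreement near one point. -/
theorem eqOn_of_eventually [T2Space X] [CompleteSpace E]
    (A : Set (OpenPartialHomeomorph X E)) (hcov : ∀ x, ∃ ψ ∈ A, x ∈ ψ.source)
    {f g : ℂ → X} {Ω : Set ℂ} (hΩ : IsOpen Ω) (hc : IsPreconnected Ω)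
    (hf : ContinuousOn f Ω)
    (hf' : ∀ ψ ∈ A, DifferentiableOn ℂ (fun z => ψ (f z)) (Ω ∩ f ⁻¹' ψ.source))
    (hg : ContinuousOn g Ω)
    (hg' : ∀ ψ ∈ A, DifferentiableOn ℂ (fun z => ψ (g z)) (Ω ∩ g ⁻¹' ψ.source))
    {z0 : ℂ} (hz0 : z0 ∈ Ω) (h : f =ᶠ[𝓝 z0] g) : EqOn f g Ω :=
  eqOn_of_frequently A hcov hΩ hc hf hf' hg hg' hz0
    (Filter.Eventually.frequently (h.filter_mono nhdsWithin_le_nhds))

/-- (ID) on the whole plane. -/
theorem eq_of_eventually [T2Space X] [CompleteSpace E]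
    (A : Set (OpenPartialHomeomorph X E)) (hcov : ∀ x, ∃ ψ ∈ A, x ∈ ψ.source)
    {f g : ℂ → X} (hf : ContinuousOn f univ)
    (hf' : ∀ ψ ∈ A, DifferentiableOn ℂ (fun z => ψ (f z)) (univ ∩ f ⁻¹' ψ.source))
    (hg : ContinuousOn g univ)
    (hg' : ∀ ψ ∈ A, DifferentiableOn ℂ (fun z => ψ (g z)) (univ ∩ g ⁻¹' ψ.source))
    {z0 : ℂ} (h : f =ᶠ[𝓝 z0] g) : f = g :=
  funext fun z => eqOn_of_eventually A hcov isOpen_univ isPreconnected_univ hf hf' hg hg'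
    (mem_univ z0) h (mem_univ z)

end Pool.Agent.Lib.RC.ID
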