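import Pool.Agent.Lib.MP_9cdd18_an.CXPompeiu

/-! Analytic core of the linear Cousin problem with free simple poles. -/

namespace Pool.Agent.RC.Ker

open Complex MeasureTheory Set Filter Topology Metric
open scoped Real

noncomputable section

variable {E : Type} [NormedAddCommGroup E] [NormedSpace ℝ E] [NormedSpace ℂ E]

/-- The operator `∂/∂z̄`. -/
def dbar (A : ℂ → E) (z : ℂ) : E := (1 / 2 : ℂ) • (fderiv ℝ A z 1 + I • fderiv ℝ A z I)

/-- Cauchy kernel corrected by two poles that depend on the source point. -/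
def K (r1 r2 : ℂ → ℂ) (z w : ℂ) : ℂ :=
  (w - r1 w) * (w - r2 w) / ((z - w) * (z - r1 w) * (z - r2 w))

/-- The solution operator. -/
def U (r1 r2 : ℂ → ℂ) (b : ℂ → E) (z : ℂ) : E := (π : ℂ)⁻¹ • ∫ w, K r1 r2 z w • b w

/-- Admissible data. -/
structure Adm (P : Set ℂ) (r1 r2 : ℂ → ℂ) (b : ℂ → E) (δ : ℝ) : Prop where
  m1 : Measurable r1
  m2 : Measurable r2
  mb : AEStronglyMeasurable b volume
  bd : ∀ w, ‖b w‖ ≤ δ
  hr : ∀ w, b w ≠ 0 →
    ‖r1 w - w‖ ≤ 11 ∧ ‖r2 w - w‖ ≤ 11 ∧ 1 ≤ ‖r1 w - r2 w‖ ∧ r1 w ∈ P ∧ r2 w ∈ P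

/-- The absolute constant. -/
def CK : ℝ := 10 ^ 7

theorem one_le_CK : 1 ≤ CK := by norm_num [CK]

/-- Radial majorant, cut off below `T`. -/
def nn (T : ℝ) : ℝ → ℝ := indicator (Ioi T) fun y => (y * (1 + y) ^ 2)⁻¹

theorem nn_nonneg {T : ℝ} (hT : 0 ≤ T) (y : ℝ) : 0 ≤ nn T y := by
  unfold nn
  refine indicator_nonneg (fun y hy => ?_) y
  have : 0 < y := lt_of_le_of_lt hT hy
  positivity

theorem nn_aux {T : ℝ} (hT : 0 ≤ T) :
    IntegrableOn (fun y : ℝ => ((1 + y) ^ 2)⁻¹) (Ioi T) ∧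
      ∫ y in Ioi T, ((1 + y) ^ 2)⁻¹ = (1 + T)⁻¹ := by
  have hd : ∀ x ∈ Ici T, HasDerivAt (fun y : ℝ => -(1 + y)⁻¹) (((1 + x) ^ 2)⁻¹) x := by
    intro x hx
    have h0 : (1 + x) ≠ 0 := by have : T ≤ x := hx; linarith
    have := (((hasDerivAt_id x).const_add 1).inv h0).neg
    refine this.congr_deriv ?_
    simp only [id]
    field_simp
  have hl : Tendsto (fun y : ℝ => -(1 + y)⁻¹) atTop (𝓝 0) := by
    have := (tendsto_inv_atTop_zero.comp (tendsto_atTop_add_const_left atTop (1 : ℝ) tendsto_id)).neg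
    simpa [Function.comp_def] using this
  refine ⟨integrableOn_Ioi_deriv_of_nonneg' hd (fun x _ => by positivity) hl, ?_⟩
  rw [integral_Ioi_of_hasDerivAt_of_nonneg' hd (fun x _ => by positivity) hl]
  simp

theorem nn_eq {T : ℝ} : EqOn (fun y : ℝ => y ^ (Module.finrank ℝ ℂ - 1) • nn T y)
    (indicator (Ioi T) fun y : ℝ => ((1 + y) ^ 2)⁻¹) (Ioi 0) := by
  intro y hy
  have hy0 : y ≠ 0 := ne_of_gt hy
  by_cases h : y ∈ Ioi T
  · simp only [nn, indicator_of_mem h, finrank_real_complex, smul_eq_mul]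
    norm_num
    field_simp
  · simp [nn, indicator_of_notMem h]

theorem nn_integrable {T : ℝ} (hT : 0 ≤ T) (z : ℂ) : Integrable fun w : ℂ => nn T ‖z - w‖ := by
  have h : Integrable fun u : ℂ => nn T ‖u‖ := by
    rw [integrable_fun_norm_addHaar volume (f := nn T),
      integrableOn_congr_fun nn_eq measurableSet_Ioi]
    exact ((integrable_indicator_iff measurableSet_Ioi).2 (nn_aux hT).1).integrableOn
  exact h.comp_sub_left z

theorem nn_integral {T : ℝ} (hT : 0 ≤ T) (z : ℂ) :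
    ∫ w : ℂ, nn T ‖z - w‖ = 2 * π * (1 + T)⁻¹ := by
  rw [integral_sub_left_eq_self (fun u : ℂ => nn T ‖u‖) volume z,
    integral_fun_norm_addHaar volume (nn T), setIntegral_congr_fun measurableSet_Ioi nn_eq,
    setIntegral_indicator measurableSet_Ioi, Ioi_inter_Ioi, max_eq_right hT, (nn_aux hT).2]
  simp [Measure.real, Complex.volume_ball, mul_assoc]

theorem prod_low {z w a c : ℂ} {ρ : ℝ} (hρ : 0 < ρ) (hρ1 : ρ ≤ 1) (ha : ‖a - w‖ ≤ 11)
    (hc : ‖c - w‖ ≤ 11) (hac : 1 ≤ ‖a - c‖) (h1 : ρ ≤ ‖z - a‖) (h2 : ρ ≤ ‖z - c‖) :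
    ρ * (1 + ‖z - w‖) ^ 2 ≤ 1152 * (‖z - a‖ * ‖z - c‖) := by
  have e1 : ‖z - w‖ ≤ ‖z - a‖ + ‖a - w‖ := norm_sub_le_norm_sub_add_norm_sub z a w
  have e2 : ‖z - w‖ ≤ ‖z - c‖ + ‖c - w‖ := norm_sub_le_norm_sub_add_norm_sub z c w
  have e3 : ‖a - c‖ ≤ ‖z - a‖ + ‖z - c‖ := by
    rw [norm_sub_rev z a]; exact norm_sub_le_norm_sub_add_norm_sub a z c
  have t0 := norm_nonneg (z - w)
  set t := ‖z - w‖
  set x := ‖z - a‖
  set y := ‖z - c‖
  by_cases ht : t ≤ 23
  · have h3 : ρ / 2 ≤ x * y := by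
      rcases le_total x y with h | h
      · nlinarith
      · nlinarith
    have h4 : (1 + t) ^ 2 ≤ 576 := by nlinarith
    nlinarith
  · have ht' : 23 < t := not_le.1 ht
    have hx : (1 + t) / 2 ≤ x := by linarith
    have hy : (1 + t) / 2 ≤ y := by linarith
    have h3 : (1 + t) / 2 * ((1 + t) / 2) ≤ x * y :=
      mul_le_mul hx hy (by linarith) (by linarith)
    have h4 : ρ * (1 + t) ^ 2 ≤ (1 + t) ^ 2 := by
      have : 0 ≤ (1 + t) ^ 2 := sq_nonneg _
      nlinarith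
    nlinarith

variable {P : Set ℂ} {r1 r2 : ℂ → ℂ} {b b' A : ℂ → E} {δ δ' ρ : ℝ} {z : ℂ} {W : Set ℂ}

theorem norm_K_le {w : ℂ} (hρ : 0 < ρ) (hρ1 : ρ ≤ 1) (ha : ‖r1 w - w‖ ≤ 11)
    (hc : ‖r2 w - w‖ ≤ 11) (hac : 1 ≤ ‖r1 w - r2 w‖) (h1 : ρ ≤ ‖z - r1 w‖) (h2 : ρ ≤ ‖z - r2 w‖) :
    ‖K r1 r2 z w‖ ≤ 139392 / ρ * nn 0 ‖z - w‖ := by
  by_cases hw : ‖z - w‖ = 0
  · simp [K, norm_eq_zero.1 hw, nn]
  have ht : 0 < ‖z - w‖ := lt_of_le_of_ne (norm_nonneg _) (Ne.symm hw)
  have h3 := prod_low hρ hρ1 ha hc hac h1 h2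
  have hx : 0 < ‖z - r1 w‖ := lt_of_lt_of_le hρ h1
  have hy : 0 < ‖z - r2 w‖ := lt_of_lt_of_le hρ h2
  have h4 : ‖w - r1 w‖ * ‖w - r2 w‖ ≤ 121 := by
    rw [norm_sub_rev w, norm_sub_rev w]
    nlinarith [norm_nonneg (r1 w - w), norm_nonneg (r2 w - w)]
  rw [nn, indicator_of_mem (show ‖z - w‖ ∈ Ioi 0 from ht), K, norm_div, norm_mul, norm_mul,
    norm_mul, ← div_eq_mul_inv, div_div, div_le_div_iff₀ (by positivity) (by positivity)]
  calc ‖w - r1 w‖ * ‖w - r2 w‖ * (ρ * (‖z - w‖ * (1 + ‖z - w‖) ^ 2))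
      ≤ 121 * (ρ * (‖z - w‖ * (1 + ‖z - w‖) ^ 2)) :=
        mul_le_mul_of_nonneg_right h4 (by positivity)
    _ = 121 * ‖z - w‖ * (ρ * (1 + ‖z - w‖) ^ 2) := by ring
    _ ≤ 121 * ‖z - w‖ * (1152 * (‖z - r1 w‖ * ‖z - r2 w‖)) :=
        mul_le_mul_of_nonneg_left h3 (by positivity)
    _ = _ := by ring

omit [NormedSpace ℝ E] [NormedSpace ℂ E] in
theorem Adm.nonneg (h : Adm P r1 r2 b δ) : 0 ≤ δ := (norm_nonneg _).trans (h.bd 0)

omit [NormedSpace ℝ E] in
theorem Adm.norm_le (h : Adm P r1 r2 b δ) (hρ : 0 < ρ) (hρ1 : ρ ≤ 1)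
    (hz : ∀ q ∈ P, ρ ≤ ‖z - q‖) (w : ℂ) :
    ‖K r1 r2 z w • b w‖ ≤ 139392 / ρ * nn 0 ‖z - w‖ * ‖b w‖ := by
  by_cases hb : b w = 0
  · simp [hb]
  obtain ⟨h1, h2, h3, h4, h5⟩ := h.hr w hb
  rw [norm_smul]
  exact mul_le_mul_of_nonneg_right (norm_K_le hρ hρ1 h1 h2 h3 (hz _ h4) (hz _ h5)) (norm_nonneg _)

theorem measurable_K (m1 : Measurable r1) (m2 : Measurable r2) (z : ℂ) :
    Measurable (K r1 r2 z) := by
  unfold K
  fun_prop

omit [NormedSpace ℝ E] in
theorem Adm.integrable (h : Adm P r1 r2 b δ) (hρ : 0 < ρ) (hz : ∀ q ∈ P, ρ ≤ ‖z - q‖) :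
    Integrable fun w => K r1 r2 z w • b w := by
  have h0 : 0 < min ρ 1 := lt_min hρ one_pos
  refine (((nn_integrable le_rfl z).const_mul (139392 / min ρ 1)).mul_const δ).mono'
    ((measurable_K h.m1 h.m2 z).aestronglyMeasurable.smul h.mb) (Eventually.of_forall fun w => ?_)
  refine (h.norm_le h0 (min_le_right _ _) (fun q hq => (min_le_left _ _).trans (hz q hq)) w).trans ?_
  exact mul_le_mul_of_nonneg_left (h.bd w) (mul_nonneg (by positivity) (nn_nonneg le_rfl _))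

theorem Adm.norm_U_le_aux (h : Adm P r1 r2 b δ) (hρ : 0 < ρ) (hρ1 : ρ ≤ 1)
    (hz : ∀ q ∈ P, ρ ≤ ‖z - q‖) {T m d : ℝ} (hT : 0 ≤ T) (hm : 0 ≤ m) (hd : 0 ≤ d)
    (hb : ∀ w, ‖z - w‖ ≤ T → ‖b w‖ ≤ m) (hb' : ∀ w, T < ‖z - w‖ → ‖b w‖ ≤ m + d) :
    ‖U r1 r2 b z‖ ≤ CK / ρ * (m + d / (1 + T)) := by
  have h1 : ‖∫ w, K r1 r2 z w • b w‖ ≤
      ∫ w, 139392 / ρ * (m * nn 0 ‖z - w‖ + d * nn T ‖z - w‖) := by
    refine norm_integral_le_of_norm_le ((((nn_integrable le_rfl z).const_mul m).add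
      ((nn_integrable hT z).const_mul d)).const_mul _) (Eventually.of_forall fun w => ?_)
    refine (h.norm_le hρ hρ1 hz w).trans ?_
    rw [mul_assoc]
    refine mul_le_mul_of_nonneg_left ?_ (by positivity)
    have h2 := nn_nonneg le_rfl ‖z - w‖
    by_cases hw : ‖z - w‖ ≤ T
    · have h3 := nn_nonneg hT ‖z - w‖
      have h4 := hb w hw
      nlinarith
    · have hw' : T < ‖z - w‖ := not_le.1 hw
      have h3 : nn T ‖z - w‖ = nn 0 ‖z - w‖ := by
        rw [nn, nn, indicator_of_mem (show ‖z - w‖ ∈ Ioi T from hw'),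
          indicator_of_mem (show ‖z - w‖ ∈ Ioi 0 from lt_of_le_of_lt hT hw')]
      have h4 := hb' w hw'
      rw [h3]
      nlinarith
  rw [integral_const_mul, integral_add ((nn_integrable le_rfl z).const_mul m)
    ((nn_integrable hT z).const_mul d), integral_const_mul, integral_const_mul,
    nn_integral le_rfl, nn_integral hT] at h1
  have hπ := Real.pi_pos
  rw [U, norm_smul, norm_inv, norm_real, Real.norm_eq_abs, abs_of_pos hπ]
  calc π⁻¹ * ‖∫ w, K r1 r2 z w • b w‖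
      ≤ π⁻¹ * (139392 / ρ * (m * (2 * π * (1 + 0)⁻¹) + d * (2 * π * (1 + T)⁻¹))) :=
        mul_le_mul_of_nonneg_left h1 (by positivity)
    _ = 278784 / ρ * (m + d / (1 + T)) := by field_simp; ring
    _ ≤ _ := by
        refine mul_le_mul_of_nonneg_right ?_ (by positivity)
        exact div_le_div_of_nonneg_right (by norm_num [CK]) hρ.le

theorem Adm.norm_U_le (h : Adm P r1 r2 b δ) (hρ : 0 < ρ) (hρ1 : ρ ≤ 1)
    (hz : ∀ q ∈ P, ρ ≤ ‖z - q‖) : ‖U r1 r2 b z‖ ≤ CK / ρ * δ := by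
  simpa using h.norm_U_le_aux hρ hρ1 hz (T := 0) (d := 0) le_rfl h.nonneg le_rfl
    (fun w _ => h.bd w) (fun w _ => by simpa using h.bd w)

theorem Adm.norm_U_le_tail (h : Adm P r1 r2 b δ) (hρ : 0 < ρ) (hρ1 : ρ ≤ 1)
    (hz : ∀ q ∈ P, ρ ≤ ‖z - q‖) {T m : ℝ} (hT : 0 < T) (hm : 0 ≤ m)
    (hb : ∀ w, ‖z - w‖ ≤ T → ‖b w‖ ≤ m) : ‖U r1 r2 b z‖ ≤ CK / ρ * (m + δ / T) := by
  refine (h.norm_U_le_aux hρ hρ1 hz hT.le hm h.nonneg hb
    (fun w _ => (h.bd w).trans (by linarith))).trans ?_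
  have := one_le_CK
  refine mul_le_mul_of_nonneg_left ?_ (by positivity)
  have : δ / (1 + T) ≤ δ / T := div_le_div_of_nonneg_left h.nonneg hT (by linarith)
  linarith

omit [NormedSpace ℝ E] in
theorem Adm.sub_clm (h : Adm P r1 r2 b δ) (h' : Adm P r1 r2 b' δ') (L : E →L[ℂ] E) :
    Adm P r1 r2 (fun w => b w - L (b' w)) (δ + ‖L‖ * δ') where
  m1 := h.m1
  m2 := h.m2
  mb := h.mb.sub (L.continuous.comp_aestronglyMeasurable h'.mb)
  bd w := (norm_sub_le _ _).trans (add_le_add (h.bd w)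
    ((L.le_opNorm _).trans (mul_le_mul_of_nonneg_left (h'.bd w) (norm_nonneg _))))
  hr w hw := by
    by_cases h1 : b w = 0
    · refine h'.hr w fun h2 => hw ?_
      simp [h1, h2]
    · exact h.hr w h1

/-- Translation covariance. -/
theorem U_shift {s1 s2 : ℂ → ℂ} (t : ℂ) (h1 : ∀ w, b w ≠ 0 → s1 (w + t) = r1 w + t)
    (h2 : ∀ w, b w ≠ 0 → s2 (w + t) = r2 w + t) (hb : ∀ w, b' (w + t) = b w) (z : ℂ) :
    U s1 s2 b' (z + t) = U r1 r2 b z := by
  unfold U
  rw [← integral_add_right_eq_self _ t]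
  congr 2
  funext w
  rw [hb]
  by_cases h : b w = 0
  · simp [h]
  · simp only [K, h1 w h, h2 w h, add_sub_add_right_eq_sub]

omit [NormedSpace ℝ E] in
/-- Uniqueness of the decomposition (for covariance). -/
theorem pole_unique {g g' : ℂ → E} {v v' : E} {p : ℂ} (hW : IsOpen W) (hp : p ∈ W)
    (hg : ContinuousOn g W) (hg' : ContinuousOn g' W)
    (h : ∀ z ∈ W, z ≠ p → g z + (z - p)⁻¹ • v = g' z + (z - p)⁻¹ • v') :
    v = v' ∧ ∀ z ∈ W, g z = g' z := by
  have hc := hg.continuousAt (hW.mem_nhds hp)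
  have hc' := hg'.continuousAt (hW.mem_nhds hp)
  have hev : ∀ᶠ z in 𝓝[≠] p, z ∈ W ∧ z ≠ p :=
    (eventually_nhdsWithin_of_eventually_nhds (hW.mem_nhds hp)).and self_mem_nhdsWithin
  have hv : v = v' := by
    have h1 : Tendsto (fun z => (z - p) • (g' z - g z)) (𝓝[≠] p) (𝓝 ((p - p) • (g' p - g p))) :=
      (((continuousAt_id.sub continuousAt_const).smul (hc'.sub hc)).tendsto).mono_left
        nhdsWithin_le_nhds
    have h2 : Tendsto (fun z => (z - p) • (g' z - g z)) (𝓝[≠] p) (𝓝 (v - v')) := by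
      refine tendsto_const_nhds.congr' ?_
      filter_upwards [hev] with z hz
      have h3 : g' z - g z = (z - p)⁻¹ • (v - v') := by
        rw [smul_sub, sub_eq_sub_iff_add_eq_add, ← h z hz.1 hz.2, add_comm]
      rw [h3, smul_inv_smul₀ (sub_ne_zero.2 hz.2)]
    have := tendsto_nhds_unique h2 h1
    simpa [sub_eq_zero] using this
  subst hv
  have h1 : ∀ z ∈ W, z ≠ p → g z = g' z := fun z hz hzp => add_right_cancel (h z hz hzp)
  refine ⟨rfl, fun z hz => ?_⟩
  by_cases hzp : z = p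
  · subst hzp
    refine tendsto_nhds_unique (hc.tendsto.mono_left (nhdsWithin_le_nhds (s := {z}ᶜ))) ?_
    refine (hc'.tendsto.mono_left nhdsWithin_le_nhds).congr' ?_
    filter_upwards [hev] with y hy using (h1 y hy.1 hy.2).symm
  · exact h1 z hz hzp

/-- Holomorphy of dominated parametric integrals, vector valued. -/
theorem holInt {X : Type} [MeasurableSpace X] {μ : Measure X} {F : ℂ → X → E} {e : ℝ}
    (he : 0 < e) (hm : ∀ y ∈ ball z e, AEStronglyMeasurable (F y) μ)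
    (hd : ∀ x, DifferentiableOn ℂ (fun y => F y x) (ball z e)) {g : X → ℝ} (hg : Integrable g μ)
    (hb : ∀ x, ∀ y ∈ ball z e, ‖F y x‖ ≤ g x) :
    DifferentiableAt ℂ (fun y => ∫ x, F y x ∂μ) z := by
  set s : ℝ := e / 3 with hs
  have hs0 : 0 < s := by positivity
  have hsub : ∀ w ∈ ball z s, closedBall w s ⊆ ball z e := by
    intro w hw v hv
    have := dist_triangle v w z
    have h2 := mem_ball.1 hw
    have h3 := mem_closedBall.1 hv
    exact mem_ball.2 (by linarith)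
  have hmemU : ∀ w ∈ ball z s, w ∈ ball z e := fun w hw =>
    hsub w hw (mem_closedBall_self hs0.le)
  have hz : z ∈ ball z e := mem_ball_self he
  have hmeas : AEStronglyMeasurable (fun x => deriv (fun w => F w x) z) μ := by
    set h : ℕ → ℂ := fun n => ((s / 2 * (1 / ((n : ℝ) + 1)) : ℝ) : ℂ) with hh
    have hpos : ∀ n : ℕ, 0 < s / 2 * (1 / ((n : ℝ) + 1)) := fun n => by positivity
    have hle : ∀ n : ℕ, s / 2 * (1 / ((n : ℝ) + 1)) < s := fun n => by
      have : 1 / ((n : ℝ) + 1) ≤ 1 := by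
        rw [div_le_one (by positivity)]; linarith [Nat.cast_nonneg (α := ℝ) n]
      nlinarith
    have hlim : Tendsto h atTop (𝓝[≠] 0) := by
      refine tendsto_nhdsWithin_iff.2 ⟨?_, Eventually.of_forall fun n => ?_⟩
      · have h1 : Tendsto (fun n : ℕ => s / 2 * (1 / ((n : ℝ) + 1))) atTop (𝓝 (s / 2 * 0)) :=
          tendsto_one_div_add_atTop_nhds_zero_nat.const_mul _
        have h2 := (continuous_ofReal.tendsto _).comp h1
        simpa [hh, Function.comp_def] using h2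
      · simp only [hh, mem_compl_iff, mem_singleton_iff, ofReal_eq_zero]
        exact (hpos n).ne'
    refine aestronglyMeasurable_of_tendsto_ae (f := fun n x => (h n)⁻¹ • (F (z + h n) x - F z x))
      atTop (fun n => ?_) (Eventually.of_forall fun x => ?_)
    · have h1 : z + h n ∈ ball z e := by
        apply hmemU
        rw [mem_ball, dist_eq_norm, add_sub_cancel_left, hh]
        simp only [norm_real, Real.norm_eq_abs]
        rw [abs_of_pos (hpos n)]; exact hle n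
      exact ((hm _ h1).sub (hm z hz)).const_smul ((h n)⁻¹ : ℂ)
    · have h1 : HasDerivAt (fun w => F w x) (deriv (fun w => F w x) z) z :=
        ((hd x).differentiableAt (isOpen_ball.mem_nhds hz)).hasDerivAt
      exact (h1.tendsto_slope_zero).comp hlim
  refine (hasDerivAt_integral_of_dominated_loc_of_deriv_le (s := ball z s)
    (F' := fun w x => deriv (fun v => F v x) w) (bound := fun x => g x / s)
    (ball_mem_nhds z hs0) ?_ ?_ hmeas (Eventually.of_forall fun x w hw => ?_) (hg.div_const s)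
    (Eventually.of_forall fun x w hw => ?_)).2.differentiableAt
  · filter_upwards [isOpen_ball.mem_nhds hz] with w hw using hm w hw
  · exact hg.mono' (hm z hz) (Eventually.of_forall fun x => hb x z hz)
  · refine norm_deriv_le_of_forall_mem_sphere_norm_le hs0 ?_ fun v hv => ?_
    · refine DifferentiableOn.diffContOnCl ?_
      rw [closure_ball w hs0.ne']
      exact (hd x).mono (hsub w hw)
    · exact hb x v (hsub w hw (sphere_subset_closedBall hv))
  · exact ((hd x).differentiableAt (isOpen_ball.mem_nhds (hmemU w hw))).hasDerivAt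

theorem dbar_continuous {g : ℂ → E} (hg : ContDiff ℝ 1 g) : Continuous (dbar g) := by
  have hdc : Continuous (fderiv ℝ g) := hg.continuous_fderiv one_ne_zero
  unfold dbar
  exact ((hdc.clm_apply continuous_const).add
    ((hdc.clm_apply continuous_const).const_smul I)).const_smul _

theorem dbar_supp {g : ℂ → E} (hs : HasCompactSupport g) : HasCompactSupport (dbar g) := by
  refine (hs.fderiv ℝ).mono fun w hw h => hw ?_
  simp [dbar, h]

theorem dbar_congr {g g' : ℂ → E} (h : g =ᶠ[𝓝 z] g') : dbar g z = dbar g' z := by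
  rw [dbar, dbar, h.fderiv_eq]

omit [NormedSpace ℝ E] in
theorem integrable_cauchy {h : ℂ → E} (hc : Continuous h) (hs : HasCompactSupport h) (z : ℂ) :
    Integrable fun w => (z - w)⁻¹ • h w := by
  obtain ⟨C, hC⟩ := hc.bounded_above_of_compact_support hs
  obtain ⟨R, hR0, hR⟩ := hs.isCompact.isBounded.subset_ball_lt 0 z
  have hC0 : 0 ≤ C := (norm_nonneg _).trans (hC 0)
  refine ((nn_integrable le_rfl z).const_mul (C * (1 + R) ^ 2)).mono'
    ((Measurable.aestronglyMeasurable (by fun_prop)).smul hc.aestronglyMeasurable)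
    (Eventually.of_forall fun w => ?_)
  have h0 := nn_nonneg le_rfl ‖z - w‖
  by_cases hw : h w = 0
  · rw [hw, smul_zero, norm_zero]; positivity
  by_cases hz : ‖z - w‖ = 0
  · rw [norm_eq_zero.1 hz, inv_zero, zero_smul, norm_zero, norm_zero]
    have := nn_nonneg le_rfl (0 : ℝ)
    positivity
  have ht : 0 < ‖z - w‖ := lt_of_le_of_ne (norm_nonneg _) (Ne.symm hz)
  have h1 : ‖z - w‖ < R := by
    have := hR (subset_tsupport _ hw)
    rwa [mem_ball, dist_comm, dist_eq_norm] at this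
  rw [norm_smul, norm_inv, nn, indicator_of_mem (show ‖z - w‖ ∈ Ioi 0 from ht), ← div_eq_mul_inv,
    le_div_iff₀ (by positivity)]
  calc ‖z - w‖⁻¹ * ‖h w‖ * (‖z - w‖ * (1 + ‖z - w‖) ^ 2) = ‖h w‖ * (1 + ‖z - w‖) ^ 2 := by
        field_simp
    _ ≤ _ := mul_le_mul (hC w) (pow_le_pow_left₀ (by positivity) (by linarith) 2) (by positivity) hC0

variable [IsScalarTower ℝ ℂ E] [CompleteSpace E]

/-- Cauchy–Pompeiu formula, vector valued. -/
theorem pompeiu {g : ℂ → E} (hg : ContDiff ℝ 1 g) (hs : HasCompactSupport g) (z : ℂ) :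
    ∫ w, (z - w)⁻¹ • dbar g w = (π : ℂ) • g z := by
  rw [SeparatingDual.eq_iff_forall_dual_eq (R := ℂ)]
  intro φ
  have h1 : ContDiff ℝ 1 fun w => φ (g w) := (φ.restrictScalars ℝ).contDiff.comp hg
  have h2 : HasCompactSupport fun w => φ (g w) := hs.comp_left (g := φ) (map_zero φ)
  have h3 := Pool.Agent.Lib.MP_9cdd18_an.CX.pompeiu_aux h1 h2 z
  have h4 : ∀ w, φ ((z - w)⁻¹ • dbar g w) =
      -(1 / 2) * (Pool.Agent.Lib.MP_9cdd18_an.CX.dbar (fun w => φ (g w)) w / (w - z)) := by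
    intro w
    have h5 : HasFDerivAt (fun w => φ (g w)) ((φ.restrictScalars ℝ).comp (fderiv ℝ g w)) w :=
      (φ.restrictScalars ℝ).hasFDerivAt.comp w (hg.differentiable one_ne_zero w).hasFDerivAt
    rw [Pool.Agent.Lib.MP_9cdd18_an.CX.dbar, h5.fderiv, dbar, ← neg_sub w z, inv_neg]
    simp only [map_smul, map_add, smul_eq_mul, ContinuousLinearMap.comp_apply,
      ContinuousLinearMap.coe_restrictScalars']
    ring
  rw [← φ.integral_comp_comm (integrable_cauchy (dbar_continuous hg) (dbar_supp hs) z)]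
  simp only [h4]
  rw [integral_const_mul, h3, map_smul, smul_eq_mul]
  ring

omit [IsScalarTower ℝ ℂ E] in
theorem Adm.U_sub_clm (h : Adm P r1 r2 b δ) (h' : Adm P r1 r2 b' δ') (L : E →L[ℂ] E)
    (hρ : 0 < ρ) (hz : ∀ q ∈ P, ρ ≤ ‖z - q‖) :
    U r1 r2 (fun w => b w - L (b' w)) z = U r1 r2 b z - L (U r1 r2 b' z) := by
  have h1 := h.integrable hρ hz
  have h2 := h'.integrable hρ hz
  rw [U, U, U, map_smul, ← smul_sub, ← L.integral_comp_comm h2,
    ← integral_sub h1 (L.integrable_comp h2)]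
  simp only [smul_sub, map_smul]

theorem K_split {y w : ℂ} (h0 : y ≠ w) (h1 : y - r1 w ≠ 0) (h2 : y - r2 w ≠ 0) :
    (y - w)⁻¹ - K r1 r2 y w = (y + w - r1 w - r2 w) / ((y - r1 w) * (y - r2 w)) := by
  have h3 : y - w ≠ 0 := sub_ne_zero.2 h0
  unfold K
  field_simp
  ring

theorem nn_half {t u : ℝ} (hu : 0 < u) (h : u / 2 ≤ t) : nn 0 t ≤ 8 * nn 0 u := by
  have ht : 0 < t := by linarith
  rw [nn, indicator_of_mem (show t ∈ Ioi 0 from ht), indicator_of_mem (show u ∈ Ioi 0 from hu),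
    ← one_div, ← div_eq_mul_inv, div_le_div_iff₀ (by positivity) (by positivity)]
  have h1 : ((1 + u) / 2) ^ 2 ≤ (1 + t) ^ 2 := pow_le_pow_left₀ (by positivity) (by linarith) 2
  have h2 : u / 2 * ((1 + u) / 2) ^ 2 ≤ t * (1 + t) ^ 2 :=
    mul_le_mul h h1 (by positivity) ht.le
  nlinarith

/-- Holomorphy of the solution away from the poles. -/
theorem Adm.differentiableAt (h : Adm P r1 r2 b δ) (hW : IsOpen W) (hA : ContDiffOn ℝ 1 A W)
    (hb : ∀ w ∈ W, b w = dbar A w) (hz : z ∈ W) (hρ : 0 < ρ) (hq : ∀ q ∈ P, ρ ≤ ‖z - q‖) :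
    DifferentiableAt ℂ (fun z => A z - U r1 r2 b z) z := by
  obtain ⟨e, he, heW⟩ := Metric.isOpen_iff.1 hW z hz
  obtain ⟨s, hs, hs1, hse, hsρ⟩ : ∃ s : ℝ, 0 < s ∧ s ≤ 1 / 2 ∧ 4 * s < e ∧ 2 * s ≤ ρ := by
    refine ⟨min (1 / 2) (min (e / 5) (ρ / 2)), by positivity, min_le_left _ _, ?_, ?_⟩
    · have := (min_le_right (1 / 2) _).trans (min_le_left (e / 5) (ρ / 2)); linarith
    · have := (min_le_right (1 / 2) _).trans (min_le_right (e / 5) (ρ / 2)); linarith
  let χ : ContDiffBump z := ⟨2 * s, 4 * s, by positivity, by linarith⟩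
  have hχW : tsupport χ ⊆ W := by
    rw [χ.tsupport_eq]; exact (closedBall_subset_ball hse).trans heW
  set g : ℂ → E := fun w => χ w • A w with hgd
  have hg : ContDiff ℝ 1 g := by
    refine contDiff_iff_contDiffAt.2 fun w => ?_
    by_cases hw : w ∈ tsupport χ
    · exact χ.contDiffAt.smul (hA.contDiffAt (hW.mem_nhds (hχW hw)))
    · refine (contDiffAt_const (c := (0 : E))).congr_of_eventuallyEq ?_
      filter_upwards [notMem_tsupport_iff_eventuallyEq.1 hw] with y hy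
      simp [hgd, hy]
  have hgs : HasCompactSupport g := χ.hasCompactSupport.smul_right
  have hgA : ∀ w ∈ ball z (2 * s), g =ᶠ[𝓝 w] A := by
    intro w hw
    filter_upwards [χ.eventuallyEq_one_of_mem_ball hw] with y hy
    simp [hgd, hy]
  have hgb : ∀ w ∈ ball z (2 * s), dbar g w = b w := fun w hw => by
    rw [dbar_congr (hgA w hw), hb w (heW (ball_subset_ball (by linarith) hw))]
  have hq' : ∀ y ∈ ball z s, ∀ q ∈ P, s ≤ ‖y - q‖ := by
    intro y hy q hqP
    have h1 := hq q hqP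
    have h2 : ‖z - q‖ ≤ ‖z - y‖ + ‖y - q‖ := norm_sub_le_norm_sub_add_norm_sub z y q
    have h3 : ‖z - y‖ < s := by rwa [mem_ball, dist_comm, dist_eq_norm] at hy
    linarith
  have hne : ∀ y ∈ ball z s, ∀ q ∈ P, y - q ≠ 0 := fun y hy q hqP h0 => by
    have := hq' y hy q hqP
    rw [h0, norm_zero] at this
    linarith
  have hfar : ∀ y ∈ ball z s, ∀ w, w ∉ ball z (2 * s) → s ≤ ‖y - w‖ ∧ ‖z - w‖ / 2 ≤ ‖y - w‖ ∧
      0 < ‖z - w‖ := by
    intro y hy w hw
    have h2 : ‖z - w‖ ≤ ‖z - y‖ + ‖y - w‖ := norm_sub_le_norm_sub_add_norm_sub z y w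
    have h3 : ‖z - y‖ < s := by rwa [mem_ball, dist_comm, dist_eq_norm] at hy
    rw [mem_ball, dist_comm, dist_eq_norm, not_lt] at hw
    exact ⟨by linarith, by linarith, by linarith⟩
  classical
  set G : ℂ → ℂ → E := fun y w => if w ∈ ball z (2 * s) then
    ((y + w - r1 w - r2 w) / ((y - r1 w) * (y - r2 w))) • b w
    else (y - w)⁻¹ • dbar g w - K r1 r2 y w • b w with hG
  have hGF : ∀ y ∈ ball z s, (fun w => (y - w)⁻¹ • dbar g w - K r1 r2 y w • b w) =ᵐ[volume] G y := by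
    intro y hy
    have h0 : ∀ᵐ w : ℂ, w ≠ y := by simp [ae_iff]
    filter_upwards [h0] with w hw
    by_cases hw2 : w ∈ ball z (2 * s)
    · simp only [hG, if_pos hw2]
      rw [hgb w hw2]
      by_cases hbw : b w = 0
      · simp [hbw]
      obtain ⟨-, -, -, h4, h5⟩ := h.hr w hbw
      rw [← sub_smul, K_split hw.symm (hne y hy _ h4) (hne y hy _ h5)]
    · simp only [hG, if_neg hw2]
  have hi1 := integrable_cauchy (dbar_continuous hg) (dbar_supp hgs)
  have hkey : DifferentiableAt ℂ (fun y => ∫ w, G y w) z := by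
    refine holInt hs (fun y hy => ((hi1 y).sub (h.integrable hs (hq' y hy))).1.congr (hGF y hy))
      (fun w => ?_) (g := fun w => indicator (ball z (2 * s)) (fun _ => 24 / (s * s) * δ) w +
        (s⁻¹ * ‖dbar g w‖ + 139392 / s * (8 * nn 0 ‖z - w‖) * δ)) ?_ (fun w y hy => ?_)
    · by_cases hw2 : w ∈ ball z (2 * s)
      · simp only [hG, if_pos hw2]
        by_cases hbw : b w = 0
        · simp [hbw]
        obtain ⟨-, -, -, h4, h5⟩ := h.hr w hbw
        refine DifferentiableOn.smul_const (DifferentiableOn.div (by fun_prop) (by fun_prop)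
          fun y hy => mul_ne_zero (hne y hy _ h4) (hne y hy _ h5)) _
      · simp only [hG, if_neg hw2]
        have h6 : ∀ y ∈ ball z s, y - w ≠ 0 := fun y hy h0 => by
          have := (hfar y hy w hw2).1
          rw [h0, norm_zero] at this
          linarith
        refine (DifferentiableOn.smul_const (DifferentiableOn.inv (by fun_prop) h6) _).sub ?_
        by_cases hbw : b w = 0
        · simp [hbw]
        obtain ⟨-, -, -, h4, h5⟩ := h.hr w hbw
        unfold K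
        refine DifferentiableOn.smul_const (DifferentiableOn.div (by fun_prop) (by fun_prop)
          fun y hy => mul_ne_zero (mul_ne_zero (h6 y hy) (hne y hy _ h4)) (hne y hy _ h5)) _
    · refine ((integrable_indicator_iff measurableSet_ball).2 ?_).add
        ((((dbar_continuous hg).integrable_of_hasCompactSupport (dbar_supp hgs)).norm.const_mul
          _).add ((((nn_integrable le_rfl z).const_mul 8).const_mul _).mul_const δ))
      exact integrableOn_const measure_ball_lt_top.ne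
    · have hδ := h.nonneg
      have h0 := nn_nonneg le_rfl ‖z - w‖
      by_cases hw2 : w ∈ ball z (2 * s)
      · simp only [hG, if_pos hw2, indicator_of_mem hw2]
        refine le_add_of_le_of_nonneg ?_ (by positivity)
        by_cases hbw : b w = 0
        · rw [hbw, smul_zero, norm_zero]; positivity
        obtain ⟨h1, h2, -, h4, h5⟩ := h.hr w hbw
        rw [norm_smul, norm_div, norm_mul]
        refine mul_le_mul (div_le_div₀ (by norm_num) ?_ (by positivity)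
          (mul_le_mul (hq' y hy _ h4) (hq' y hy _ h5) hs.le (norm_nonneg _))) (h.bd w)
          (norm_nonneg _) (by positivity)
        have h7 : y + w - r1 w - r2 w = (y - z) - (w - z) - (r1 w - w) - (r2 w - w) := by ring
        have h8 : ‖y - z‖ < s := by rwa [mem_ball, dist_eq_norm] at hy
        have h9 : ‖w - z‖ < 2 * s := by rwa [mem_ball, dist_eq_norm] at hw2
        rw [h7]
        have e1 := norm_sub_le ((y - z) - (w - z) - (r1 w - w)) (r2 w - w)
        have e2 := norm_sub_le ((y - z) - (w - z)) (r1 w - w)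
        have e3 := norm_sub_le (y - z) (w - z)
        linarith
      · simp only [hG, if_neg hw2, indicator_of_notMem hw2, zero_add]
        obtain ⟨f1, f2, f3⟩ := hfar y hy w hw2
        refine (norm_sub_le _ _).trans (add_le_add ?_ ?_)
        · rw [norm_smul, norm_inv]
          exact mul_le_mul_of_nonneg_right (inv_anti₀ hs f1) (norm_nonneg _)
        · refine (h.norm_le hs (by linarith) (hq' y hy) w).trans ?_
          exact mul_le_mul (mul_le_mul_of_nonneg_left (nn_half f3 f2) (by positivity)) (h.bd w)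
            (norm_nonneg _) (by positivity)
  refine (hkey.const_smul (π : ℂ)⁻¹).congr_of_eventuallyEq ?_
  filter_upwards [ball_mem_nhds z hs] with y hy
  have hπ : (π : ℂ) ≠ 0 := by exact_mod_cast Real.pi_ne_zero
  rw [Pi.smul_apply, ← integral_congr_ae (hGF y hy),
    integral_sub (hi1 y) (h.integrable hs (hq' y hy)), pompeiu hg hgs, smul_sub, inv_smul_smul₀ hπ,
    (hgA y (ball_subset_ball (by linarith) hy)).eq_of_nhds, U]

/-- One simple pole. -/
theorem Adm.pole (h : Adm P r1 r2 b δ) (hW : IsOpen W) (hA : ContDiffOn ℝ 1 A W)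
    (hb : ∀ w ∈ W, b w = dbar A w) {p : ℂ} (hp : closedBall p (1 / 10) ⊆ W)
    (hq : ∀ q ∈ P, q ≠ p → ∀ z ∈ W, 1 / 10 ≤ ‖z - q‖) {α : ℝ} (hα : ∀ z ∈ W, ‖A z‖ ≤ α) :
    ∃ (g : ℂ → E) (v : E), DifferentiableOn ℂ g W ∧
      (∀ z ∈ W, z ≠ p → A z - U r1 r2 b z = g z + (z - p)⁻¹ • v) ∧
      ‖v‖ ≤ (α + 10 * CK * δ) / 10 ∧ ∀ z ∈ W, ‖g z‖ ≤ 2 * (α + 10 * CK * δ) := by
  have hpW : p ∈ W := hp (mem_closedBall_self (by norm_num))
  have hδ := h.nonneg
  have hCK := one_le_CK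
  have hα0 : 0 ≤ α := (norm_nonneg _).trans (hα p hpW)
  set a : ℂ → E := fun z => A z - U r1 r2 b z with ha
  set M : ℝ := α + 10 * CK * δ with hM
  have hM0 : 0 ≤ M := by positivity
  have hq' : ∀ z ∈ W, ∀ r : ℝ, r ≤ 1 / 10 → r ≤ ‖z - p‖ → ∀ q ∈ P, r ≤ ‖z - q‖ := by
    intro z hz r h1 h2 q hqP
    by_cases hqp : q = p
    · rwa [hqp]
    · exact h1.trans (hq q hqP hqp z hz)
  have hda : DifferentiableOn ℂ a (W \ {p}) := by
    intro z hz
    have h0 : 0 < ‖z - p‖ := norm_pos_iff.2 (sub_ne_zero.2 hz.2)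
    exact (h.differentiableAt hW hA hb hz.1 (lt_min (by norm_num) h0)
      (hq' z hz.1 _ (min_le_left _ _) (min_le_right _ _))).differentiableWithinAt
  have hfar : ∀ z ∈ W, 1 / 10 ≤ ‖z - p‖ → ‖a z‖ ≤ M := by
    intro z hz h1
    have h2 := h.norm_U_le (ρ := 1 / 10) (by norm_num) (by norm_num) (hq' z hz _ le_rfl h1)
    refine (norm_sub_le _ _).trans (add_le_add (hα z hz) (h2.trans_eq (by ring)))
  have hnear : ∀ z ∈ W, z ≠ p → ‖z - p‖ ≤ 1 / 10 → ‖(z - p) • a z‖ ≤ M / 10 := by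
    intro z hz hzp h1
    have h0 : 0 < ‖z - p‖ := norm_pos_iff.2 (sub_ne_zero.2 hzp)
    have h2 := h.norm_U_le h0 (by linarith) (hq' z hz _ h1 le_rfl)
    have h3 : ‖a z‖ ≤ α + CK / ‖z - p‖ * δ := (norm_sub_le _ _).trans (add_le_add (hα z hz) h2)
    rw [norm_smul]
    calc ‖z - p‖ * ‖a z‖ ≤ ‖z - p‖ * (α + CK / ‖z - p‖ * δ) :=
          mul_le_mul_of_nonneg_left h3 h0.le
      _ = ‖z - p‖ * α + CK * δ := by field_simp
      _ ≤ 1 / 10 * α + CK * δ := by gcongr
      _ = M / 10 := by rw [hM]; ring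
  set f : ℂ → E := fun z => (z - p) • a z with hf
  have hdf : DifferentiableOn ℂ f (W \ {p}) := (differentiableOn_id.sub_const p).smul hda
  set F : ℂ → E := Function.update f p (limUnder (𝓝[≠] p) f) with hF
  have hFf : ∀ z, z ≠ p → F z = f z := fun z hz => Function.update_of_ne hz _ _
  have hcb : closedBall p (1 / 10) ∈ 𝓝 p := closedBall_mem_nhds p (by norm_num)
  have hF1 : DifferentiableOn ℂ F (closedBall p (1 / 10)) := by
    refine differentiableOn_update_limUnder_of_bddAbove hcb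
      (hdf.mono (sdiff_subset_sdiff_left hp)) ⟨M / 10, ?_⟩
    rintro _ ⟨z, hz, rfl⟩
    exact hnear z (hp hz.1) hz.2 (by simpa [dist_eq_norm] using hz.1)
  have hF2 : DifferentiableOn ℂ F W := by
    rw [← differentiableOn_compl_singleton_and_continuousAt_iff (hW.mem_nhds hpW)]
    exact ⟨hdf.congr fun z hz => hFf z hz.2, (hF1.differentiableAt hcb).continuousAt⟩
  have hv : ‖F p‖ ≤ M / 10 := by
    have h1 : Tendsto (fun z => ‖F z‖) (𝓝[≠] p) (𝓝 ‖F p‖) :=
      ((hF1.differentiableAt hcb).continuousAt.norm.tendsto).mono_left nhdsWithin_le_nhds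
    refine le_of_tendsto h1 ?_
    filter_upwards [eventually_nhdsWithin_of_eventually_nhds hcb, self_mem_nhdsWithin] with z h2 h3
    rw [hFf z h3]
    exact hnear z (hp h2) h3 (by simpa [dist_eq_norm] using h2)
  have hg : DifferentiableOn ℂ (dslope F p) W := (differentiableOn_dslope (hW.mem_nhds hpW)).2 hF2
  have hdec : ∀ z, z ≠ p → a z = dslope F p z + (z - p)⁻¹ • F p := by
    intro z hz
    rw [dslope_of_ne _ hz, slope_def_module, hFf z hz, smul_sub, sub_add_cancel, hf]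
    exact (inv_smul_smul₀ (sub_ne_zero.2 hz) _).symm
  have hgfar : ∀ z ∈ W, 1 / 10 ≤ ‖z - p‖ → ‖dslope F p z‖ ≤ 2 * M := by
    intro z hz h1
    have h0 : 0 < ‖z - p‖ := by linarith
    have hzp : z ≠ p := sub_ne_zero.1 (norm_pos_iff.1 h0)
    rw [eq_sub_of_add_eq (hdec z hzp).symm]
    refine (norm_sub_le _ _).trans ?_
    rw [norm_smul, norm_inv]
    have h2 : ‖z - p‖⁻¹ ≤ (1 / 10)⁻¹ := inv_anti₀ (by norm_num) h1
    have h3 : ‖z - p‖⁻¹ * ‖F p‖ ≤ (1 / 10)⁻¹ * (M / 10) :=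
      mul_le_mul h2 hv (norm_nonneg _) (by norm_num)
    have h4 := hfar z hz h1
    norm_num at h3 ⊢
    linarith
  refine ⟨dslope F p, F p, hg, fun z _ hz => hdec z hz, hv, fun z hz => ?_⟩
  by_cases h1 : 1 / 10 ≤ ‖z - p‖
  · exact hgfar z hz h1
  · have h10 : (1 / 10 : ℝ) ≠ 0 := by norm_num
    refine norm_le_of_forall_mem_frontier_norm_le (U := ball p (1 / 10)) isBounded_ball
      (DifferentiableOn.diffContOnCl ?_) (fun y hy => ?_) (subset_closure ?_)
    · rw [closure_ball p h10]; exact hg.mono hp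
    · rw [frontier_ball p h10] at hy
      refine hgfar y (hp (sphere_subset_closedBall hy)) (le_of_eq ?_)
      rw [← dist_eq_norm]; exact (mem_sphere.1 hy).symm
    · rw [mem_ball, dist_eq_norm]; exact not_le.1 h1

end

end Pool.Agent.RC.Ker
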