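import Mathlib

set_option autoImplicit false

open MeasureTheory Metric Set Filter Complex
open scoped Topology

noncomputable section

namespace Pool.Agent.RC.Lat

/-- smooth step: `0` left of `-7/10`, `1` right of `-3/10` -/
def st (x : ℝ) : ℝ := Real.smoothTransition ((x + 7 / 10) / (2 / 5))

/-- the bump whose integer translates sum to one -/
def th (x : ℝ) : ℝ := st x - st (x - 1)

theorem st_zero {x : ℝ} (h : x ≤ -7 / 10) : st x = 0 :=
  Real.smoothTransition.zero_of_nonpos (div_nonpos_of_nonpos_of_nonneg (by linarith) (by norm_num))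

theorem st_one {x : ℝ} (h : -3 / 10 ≤ x) : st x = 1 :=
  Real.smoothTransition.one_of_one_le (by rw [le_div_iff₀ (by norm_num)]; linarith)

theorem st_smooth : ContDiff ℝ 2 st := by
  unfold st
  exact (Real.smoothTransition.contDiff (n := 2)).comp (by fun_prop)

theorem th_smooth : ContDiff ℝ 2 th := by
  unfold th
  exact st_smooth.sub (st_smooth.comp (by fun_prop))

theorem th_nonneg (x : ℝ) : 0 ≤ th x := by
  unfold th st
  refine sub_nonneg.2 (Real.smoothTransition.monotone ?_)
  gcongr
  linarith

theorem th_le_one (x : ℝ) : th x ≤ 1 := by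
  unfold th st
  linarith [Real.smoothTransition.le_one ((x + 7 / 10) / (2 / 5)),
    Real.smoothTransition.nonneg ((x - 1 + 7 / 10) / (2 / 5))]

theorem th_zero {x : ℝ} (h : 7 / 10 ≤ |x|) : th x = 0 := by
  unfold th
  rcases le_abs.1 h with h | h
  · rw [st_one (by linarith), st_one (by linarith), sub_self]
  · rw [st_zero (by linarith), st_zero (by linarith), sub_self]

theorem th_sum {x : ℝ} (h : |x| < 4 / 5) : th (x + 1) + th x + th (x - 1) = 1 := by
  have h1 := abs_lt.1 h
  unfold th
  rw [add_sub_cancel_right, st_one (x := x + 1) (by linarith),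
    st_zero (x := x - 1 - 1) (by linarith)]
  ring

theorem th_supp : HasCompactSupport th := by
  refine HasCompactSupport.intro (isCompact_Icc (a := -1) (b := 1)) fun x hx => th_zero ?_
  rw [mem_Icc, not_and_or, not_le, not_le] at hx
  rcases hx with hx | hx
  · exact le_abs.2 (Or.inr (by linarith))
  · exact le_abs.2 (Or.inl (by linarith))

theorem th_diff : Differentiable ℝ th := th_smooth.differentiable (by norm_num)

theorem dth_cont : Continuous (deriv th) := th_smooth.continuous_deriv (by norm_num)

theorem dth_bdd : ∃ B : ℝ, 1 ≤ B ∧ ∀ x, |deriv th x| ≤ B := by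
  obtain ⟨B, hB⟩ := dth_cont.bounded_above_of_compact_support th_supp.deriv
  exact ⟨max 1 B, le_max_left _ _, fun x => (hB x).trans (le_max_right _ _)⟩

theorem dth_zero {x : ℝ} (h : 7 / 10 < |x|) : deriv th x = 0 := by
  have : th =ᶠ[𝓝 x] fun _ => 0 := by
    have h1 : ∀ᶠ y in 𝓝 x, 7 / 10 < |y| := continuous_abs.continuousAt.eventually (lt_mem_nhds h)
    filter_upwards [h1] with y hy using th_zero hy.le
  rw [this.deriv_eq, deriv_const]

theorem dth_sum {x : ℝ} (h : |x| < 4 / 5) :
    deriv th (x + 1) + deriv th x + deriv th (x - 1) = 0 := by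
  have h1 : HasDerivAt (fun y => th (y + 1) + th y + th (y - 1))
      (deriv th (x + 1) + deriv th x + deriv th (x - 1)) x :=
    (((th_diff _).hasDerivAt.comp_add_const x 1).add (th_diff x).hasDerivAt).add
      ((th_diff _).hasDerivAt.comp_sub_const x 1)
  have h2 : (fun y => th (y + 1) + th y + th (y - 1)) =ᶠ[𝓝 x] fun _ => 1 := by
    have h3 : ∀ᶠ y in 𝓝 x, |y| < 4 / 5 := continuous_abs.continuousAt.eventually (gt_mem_nhds h)
    filter_upwards [h3] with y hy using th_sum hy
  exact h1.unique ((hasDerivAt_const x (1 : ℝ)).congr_of_eventuallyEq h2)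

end Pool.Agent.RC.Lat
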