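import Mathlib

set_option autoImplicit false

open MeasureTheory Metric Set Filter Complex
open scoped Topology Real

noncomputable section

namespace Pool.Agent.RC.Laur

variable {E : Type*} [NormedAddCommGroup E] [NormedSpace ℂ E]

/-- the annulus `1 / 2 < |s| < 1` -/
def Ann : Set ℂ := {s | 1 / 2 < ‖s‖ ∧ ‖s‖ < 1}

theorem isOpen_Ann : IsOpen Ann :=
  (isOpen_lt continuous_const continuous_norm).inter (isOpen_lt continuous_norm continuous_const)

/-- Cauchy integral over the circle of radius `R` -/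
def cau (R : ℝ) (h : ℂ → E) (s : ℂ) : E :=
  (2 * π * I : ℂ)⁻¹ • ∮ w in C(0, R), (w - s)⁻¹ • h w

theorem le_norm_sub {R : ℝ} {w s : ℂ} (hw : w ∈ sphere (0 : ℂ) R) :
    |R - ‖s‖| ≤ ‖w - s‖ := by
  have h1 : ‖w‖ = R := by simpa using hw
  rw [← h1]
  exact abs_norm_sub_norm_le w s

theorem contOn_ker {R : ℝ} {h : ℂ → E} {s : ℂ} (hc : ContinuousOn h (sphere 0 R))
    (hs : ‖s‖ ≠ R) : ContinuousOn (fun w => (w - s)⁻¹ • h w) (sphere 0 R) := by
  refine ContinuousOn.smul (ContinuousOn.inv₀ (continuousOn_id.sub continuousOn_const) ?_) hc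
  intro w hw h0
  have h1 : ‖w‖ = R := by simpa using hw
  have h2 : w = s := sub_eq_zero.1 h0
  exact hs (h2 ▸ h1)

theorem cau_sub {R : ℝ} (hR : 0 ≤ R) {h k : ℂ → E} {s : ℂ} (hh : ContinuousOn h (sphere 0 R))
    (hk : ContinuousOn k (sphere 0 R)) (hs : ‖s‖ ≠ R) :
    cau R (fun w => h w - k w) s = cau R h s - cau R k s := by
  unfold cau
  rw [← smul_sub, ← circleIntegral.integral_sub ((contOn_ker hh hs).circleIntegrable hR)
    ((contOn_ker hk hs).circleIntegrable hR)]
  simp only [smul_sub]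

theorem norm_cau_le {R M d : ℝ} (hR : 0 ≤ R) {h : ℂ → E} {s : ℂ} (hd : 0 < d)
    (hs : d ≤ |R - ‖s‖|) (hM : ∀ w ∈ sphere (0 : ℂ) R, ‖h w‖ ≤ M) :
    ‖cau R h s‖ ≤ R * (d⁻¹ * M) := by
  refine circleIntegral.norm_two_pi_i_inv_smul_integral_le_of_norm_le_const hR fun w hw => ?_
  rw [norm_smul, norm_inv]
  exact mul_le_mul (inv_anti₀ hd (hs.trans (le_norm_sub hw))) (hM w hw) (norm_nonneg _)
    (by positivity)

theorem differentiableAt_cau {R : ℝ} (hR : 0 ≤ R) {h : ℂ → E} {s : ℂ}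
    (hc : ContinuousOn h (sphere 0 R)) (hs : ‖s‖ ≠ R) : DifferentiableAt ℂ (cau R h) s := by
  obtain ⟨d, hdd⟩ : ∃ d : ℝ, d = |R - ‖s‖| / 2 := ⟨_, rfl⟩
  have hd : 0 < d := by
    rw [hdd]
    have : 0 < |R - ‖s‖| := abs_pos.2 (sub_ne_zero.2 (Ne.symm hs))
    positivity
  have hcm : Continuous fun θ : ℝ => h (circleMap 0 R θ) :=
    hc.comp_continuous (continuous_circleMap _ _) (circleMap_mem_sphere _ hR)
  have hdist : ∀ x ∈ ball s d, ∀ θ : ℝ, d ≤ ‖circleMap 0 R θ - x‖ := by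
    intro x hx θ
    have h1 := le_norm_sub (s := s) (circleMap_mem_sphere (0 : ℂ) hR θ)
    have h2 : ‖x - s‖ < d := by simpa [dist_eq_norm] using hx
    have h3 : ‖circleMap 0 R θ - s‖ ≤ ‖circleMap 0 R θ - x‖ + ‖x - s‖ :=
      norm_sub_le_norm_sub_add_norm_sub _ _ _
    linarith
  have hne : ∀ x ∈ ball s d, ∀ θ : ℝ, circleMap 0 R θ - x ≠ 0 := fun x hx θ h0 => by
    have := hdist x hx θ
    rw [h0, norm_zero] at this
    linarith
  have hF : ∀ x ∈ ball s d, ∀ m : ℕ, Continuous fun θ : ℝ =>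
      deriv (circleMap 0 R) θ • (((circleMap 0 R θ - x) ^ m)⁻¹ • h (circleMap 0 R θ)) := by
    intro x hx m
    simp only [deriv_circleMap]
    refine Continuous.smul (by fun_prop) (Continuous.smul ?_ hcm)
    exact Continuous.inv₀ (by fun_prop) fun θ => pow_ne_zero _ (hne x hx θ)
  unfold cau
  refine DifferentiableAt.const_smul ?_ _
  unfold circleIntegral
  refine (intervalIntegral.hasDerivAt_integral_of_dominated_loc_of_deriv_le
    (F := fun x θ => deriv (circleMap 0 R) θ • ((circleMap 0 R θ - x)⁻¹ • h (circleMap 0 R θ)))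
    (F' := fun x θ =>
      deriv (circleMap 0 R) θ • (((circleMap 0 R θ - x) ^ 2)⁻¹ • h (circleMap 0 R θ)))
    (bound := fun θ => R * ((d ^ 2)⁻¹ * ‖h (circleMap 0 R θ)‖))
    (ball_mem_nhds s hd) ?_ ?_ ?_ ?_ ?_ ?_).2.differentiableAt
  · filter_upwards [ball_mem_nhds s hd] with x hx
    have := (hF x hx 1).aestronglyMeasurable (μ := volume.restrict (uIoc 0 (2 * π)))
    simpa only [pow_one] using this
  · have := (hF s (mem_ball_self hd) 1).intervalIntegrable (μ := volume) 0 (2 * π)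
    simpa only [pow_one] using this
  · exact (hF s (mem_ball_self hd) 2).aestronglyMeasurable
  · filter_upwards with θ _ x hx
    rw [norm_smul, norm_smul, norm_inv, norm_pow, deriv_circleMap, norm_mul, norm_circleMap_zero,
      norm_I, mul_one, abs_of_nonneg hR]
    refine mul_le_mul_of_nonneg_left (mul_le_mul_of_nonneg_right ?_ (norm_nonneg _)) hR
    exact inv_anti₀ (by positivity) (pow_le_pow_left₀ hd.le (hdist x hx θ) 2)
  · exact (continuous_const.mul (continuous_const.mul hcm.norm)).intervalIntegrable _ _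
  · filter_upwards with θ _ x hx
    have h1 : HasDerivAt (fun x : ℂ => (circleMap 0 R θ - x)⁻¹)
        (((circleMap 0 R θ - x) ^ 2)⁻¹) x := by
      have h2 := ((hasDerivAt_id x).const_sub (circleMap 0 R θ)).inv (hne x hx θ)
      refine HasDerivAt.congr_deriv h2 ?_
      simp [div_eq_mul_inv]
    exact (h1.smul_const _).const_smul _

theorem sphere_sub_Ann {R : ℝ} (h1 : 1 / 2 < R) (h2 : R < 1) : sphere (0 : ℂ) R ⊆ Ann := by
  intro w hw
  have h : ‖w‖ = R := by simpa using hw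
  exact ⟨h ▸ h1, h ▸ h2⟩

/-- Cauchy formula for the annulus -/
theorem cau_sub_cau [CompleteSpace E] {h : ℂ → E} (hh : DifferentiableOn ℂ h Ann) {s : ℂ}
    (h1 : 3 / 5 < ‖s‖) (h2 : ‖s‖ < 9 / 10) : cau (9 / 10) h s - cau (3 / 5) h s = h s := by
  have hs : s ∈ Ann := ⟨by linarith, by linarith⟩
  have hd : DifferentiableOn ℂ (dslope h s) Ann :=
    (Complex.differentiableOn_dslope (isOpen_Ann.mem_nhds hs)).2 hh
  have hsub : closedBall (0 : ℂ) (9 / 10) \ ball 0 (3 / 5) ⊆ Ann := by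
    intro w hw
    have a1 : ‖w‖ ≤ 9 / 10 := by simpa using hw.1
    have a2 : 3 / 5 ≤ ‖w‖ := by simpa using hw.2
    exact ⟨by linarith, by linarith⟩
  have key := circleIntegral_eq_of_differentiable_on_annulus_off_countable (c := 0)
    (r := 3 / 5) (R := 9 / 10) (by norm_num) (by norm_num) (f := dslope h s) countable_empty
    (hd.continuousOn.mono hsub) (fun w hw => hd.differentiableAt (isOpen_Ann.mem_nhds
      (hsub ⟨ball_subset_closedBall hw.1.1, fun h => hw.1.2 (ball_subset_closedBall h)⟩)))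
  have hsl : ∀ R : ℝ, 1 / 2 < R → R < 1 → ‖s‖ ≠ R → (∮ w in C(0, R), dslope h s w) =
      (∮ w in C(0, R), (w - s)⁻¹ • h w) - (∮ w in C(0, R), (w - s)⁻¹) • h s := by
    intro R a1 a2 a3
    have hR : 0 ≤ R := by linarith
    rw [← circleIntegral.integral_smul_const, ← circleIntegral.integral_sub
      ((contOn_ker (hh.continuousOn.mono (sphere_sub_Ann a1 a2)) a3).circleIntegrable hR)
      ((contOn_ker continuousOn_const a3).circleIntegrable hR)]
    refine circleIntegral.integral_congr hR fun w hw => ?_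
    have hw1 : ‖w‖ = R := by simpa using hw
    have hne : w ≠ s := fun h => a3 (h ▸ hw1)
    simp only [dslope_of_ne _ hne, slope_def_module, smul_sub]
  rw [hsl _ (by norm_num) (by norm_num) h2.ne, hsl _ (by norm_num) (by norm_num) h1.ne',
    circleIntegral.integral_sub_inv_of_mem_ball (by simpa using h2)] at key
  have hz : (∮ w in C(0, 3 / 5), (w - s)⁻¹) = 0 := by
    have hne : ∀ w ∈ closedBall (0 : ℂ) (3 / 5), w - s ≠ 0 := by
      intro w hw h0
      have a1 : ‖w‖ ≤ 3 / 5 := by simpa using hw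
      have a2 : w = s := sub_eq_zero.1 h0
      rw [a2] at a1
      linarith
    refine circleIntegral_eq_zero_of_differentiable_on_off_countable (by norm_num) countable_empty
      (ContinuousOn.inv₀ (continuousOn_id.sub continuousOn_const) hne) fun w hw => ?_
    exact (differentiableAt_id.sub_const s).inv (hne w (ball_subset_closedBall hw.1))
  rw [hz, zero_smul, sub_zero] at key
  unfold cau
  rw [← key, ← smul_sub, sub_sub_cancel, smul_smul, inv_mul_cancel₀ two_pi_I_ne_zero, one_smul]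

/-- the part holomorphic in the unit disc -/
def Lp (h : ℂ → E) (s : ℂ) : E := if ‖s‖ ≤ 3 / 4 then cau (9 / 10) h s else h s + cau (3 / 5) h s

/-- the part holomorphic outside the disc of radius `1 / 2` -/
def Lm (h : ℂ → E) (s : ℂ) : E := if ‖s‖ ≤ 3 / 4 then h s - cau (9 / 10) h s else -cau (3 / 5) h s

theorem Lp_add_Lm (h : ℂ → E) (s : ℂ) : Lp h s + Lm h s = h s := by
  unfold Lp Lm
  split_ifs <;> abel

theorem Lp_sub {h k : ℂ → E} (hh : ContinuousOn h Ann) (hk : ContinuousOn k Ann) (s : ℂ) :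
    Lp (fun w => h w - k w) s = Lp h s - Lp k s := by
  have a1 := sphere_sub_Ann (R := 9 / 10) (by norm_num) (by norm_num)
  have a2 := sphere_sub_Ann (R := 3 / 5) (by norm_num) (by norm_num)
  unfold Lp
  split_ifs with hs
  · exact cau_sub (by norm_num) (hh.mono a1) (hk.mono a1) (by linarith)
  · rw [cau_sub (by norm_num) (hh.mono a2) (hk.mono a2) (by linarith)]
    beta_reduce
    abel

theorem Lm_sub {h k : ℂ → E} (hh : ContinuousOn h Ann) (hk : ContinuousOn k Ann) (s : ℂ) :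
    Lm (fun w => h w - k w) s = Lm h s - Lm k s := by
  have e1 := Lp_add_Lm (fun w => h w - k w) s
  rw [Lp_sub hh hk, ← Lp_add_Lm h s, ← Lp_add_Lm k s] at e1
  have e2 : Lm (fun w => h w - k w) s =
      (Lp h s + Lm h s - (Lp k s + Lm k s)) - (Lp h s - Lp k s) := by
    rw [← e1]
    abel
  rw [e2]
  abel

theorem norm_cau_out {h : ℂ → E} {M : ℝ} (hM : ∀ w ∈ Ann, ‖h w‖ ≤ M) {s : ℂ}
    (hs : ‖s‖ ≤ 3 / 4) : ‖cau (9 / 10) h s‖ ≤ 6 * M := by
  have a1 := sphere_sub_Ann (R := 9 / 10) (by norm_num) (by norm_num)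
  have := norm_cau_le (R := 9 / 10) (d := 3 / 20) (s := s) (by norm_num) (by norm_num)
    (le_trans (by linarith) (le_abs_self _)) (fun w hw => hM w (a1 hw))
  linarith

theorem norm_cau_in {h : ℂ → E} {M : ℝ} (hM : ∀ w ∈ Ann, ‖h w‖ ≤ M) {s : ℂ}
    (hs : 3 / 4 ≤ ‖s‖) : ‖cau (3 / 5) h s‖ ≤ 4 * M := by
  have a1 := sphere_sub_Ann (R := 3 / 5) (by norm_num) (by norm_num)
  have := norm_cau_le (R := 3 / 5) (d := 3 / 20) (s := s) (by norm_num) (by norm_num)
    (le_trans (by linarith) (neg_le_abs _)) (fun w hw => hM w (a1 hw))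
  linarith

omit [NormedSpace ℂ E] in
theorem nonneg_of_bound {h : ℂ → E} {M : ℝ} (hM : ∀ w ∈ Ann, ‖h w‖ ≤ M) : 0 ≤ M := by
  refine le_trans (norm_nonneg _) (hM ((3 / 4 : ℝ) : ℂ) ?_)
  have : ‖((3 / 4 : ℝ) : ℂ)‖ = 3 / 4 := by
    rw [Complex.norm_real, Real.norm_eq_abs, abs_of_pos (by norm_num)]
  exact ⟨by rw [this]; norm_num, by rw [this]; norm_num⟩

theorem norm_Lp_le {h : ℂ → E} {M : ℝ} (hM : ∀ w ∈ Ann, ‖h w‖ ≤ M) {s : ℂ} (hs : ‖s‖ < 1) :
    ‖Lp h s‖ ≤ 7 * M := by
  have h0 := nonneg_of_bound hM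
  unfold Lp
  split_ifs with h1
  · linarith [norm_cau_out hM h1]
  · have h2 : 3 / 4 ≤ ‖s‖ := (not_le.1 h1).le
    have h3 := hM s ⟨by linarith, hs⟩
    linarith [norm_cau_in hM h2, norm_add_le (h s) (cau (3 / 5) h s)]

theorem norm_Lm_le {h : ℂ → E} {M : ℝ} (hM : ∀ w ∈ Ann, ‖h w‖ ≤ M) {s : ℂ} (hs : 1 / 2 < ‖s‖) :
    ‖Lm h s‖ ≤ 7 * M := by
  have h0 := nonneg_of_bound hM
  unfold Lm
  split_ifs with h1
  · have h3 := hM s ⟨hs, by linarith⟩
    linarith [norm_cau_out hM h1, norm_sub_le (h s) (cau (9 / 10) h s)]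
  · have h2 : 3 / 4 ≤ ‖s‖ := (not_le.1 h1).le
    rw [norm_neg]
    linarith [norm_cau_in hM h2]

/-- decay of the outer part -/
theorem norm_Lm_decay {h : ℂ → E} {M : ℝ} (hM : ∀ w ∈ Ann, ‖h w‖ ≤ M) {s : ℂ}
    (hs : 1 / 2 < ‖s‖) : ‖Lm h s‖ ≤ 7 * M / ‖s‖ := by
  have h0 := nonneg_of_bound hM
  have hs0 : 0 < ‖s‖ := by linarith
  by_cases h1 : ‖s‖ ≤ 1
  · refine le_trans (norm_Lm_le hM hs) ?_
    rw [le_div_iff₀ hs0]
    nlinarith
  · have h2 : 1 < ‖s‖ := not_le.1 h1
    have a1 := sphere_sub_Ann (R := 3 / 5) (by norm_num) (by norm_num)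
    have h3 := norm_cau_le (R := 3 / 5) (d := 2 / 5 * ‖s‖) (s := s) (by norm_num) (by positivity)
      (le_trans (by linarith) (neg_le_abs _)) (fun w hw => hM w (a1 hw))
    unfold Lm
    rw [if_neg (by linarith), norm_neg]
    refine le_trans h3 ?_
    have h4 : 3 / 5 * ((2 / 5 * ‖s‖)⁻¹ * M) = 3 / 2 * M / ‖s‖ := by
      field_simp
    rw [h4]
    exact div_le_div_of_nonneg_right (by linarith) hs0.le

theorem differentiableOn_Lp [CompleteSpace E] {h : ℂ → E} (hh : DifferentiableOn ℂ h Ann) :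
    DifferentiableOn ℂ (Lp h) (ball 0 1) := by
  have a1 := sphere_sub_Ann (R := 9 / 10) (by norm_num) (by norm_num)
  have a2 := sphere_sub_Ann (R := 3 / 5) (by norm_num) (by norm_num)
  intro s hs
  have hs1 : ‖s‖ < 1 := by simpa using hs
  refine DifferentiableAt.differentiableWithinAt ?_
  by_cases h1 : ‖s‖ < 9 / 10
  · refine (differentiableAt_cau (R := 9 / 10) (by norm_num) (hh.continuousOn.mono a1)
      h1.ne).congr_of_eventuallyEq ?_
    filter_upwards [(isOpen_lt continuous_norm continuous_const).mem_nhds h1] with z hz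
    unfold Lp
    split_ifs with h2
    · rfl
    · rw [← cau_sub_cau hh (by linarith) hz]
      abel
  · have h2 : 3 / 4 < ‖s‖ := by linarith
    refine ((hh.differentiableAt (isOpen_Ann.mem_nhds ⟨by linarith, hs1⟩)).add
      (differentiableAt_cau (R := 3 / 5) (by norm_num) (hh.continuousOn.mono a2)
      (by linarith))).congr_of_eventuallyEq ?_
    filter_upwards [(isOpen_lt continuous_const continuous_norm).mem_nhds h2] with z hz
    unfold Lp
    rw [if_neg (not_le.2 hz)]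
    rfl

theorem differentiableOn_Lm [CompleteSpace E] {h : ℂ → E} (hh : DifferentiableOn ℂ h Ann) :
    DifferentiableOn ℂ (Lm h) {s | 1 / 2 < ‖s‖} := by
  have a1 := sphere_sub_Ann (R := 9 / 10) (by norm_num) (by norm_num)
  have a2 := sphere_sub_Ann (R := 3 / 5) (by norm_num) (by norm_num)
  intro s hs
  have hs1 : 1 / 2 < ‖s‖ := hs
  refine DifferentiableAt.differentiableWithinAt ?_
  by_cases h1 : 3 / 5 < ‖s‖
  · refine (differentiableAt_cau (R := 3 / 5) (by norm_num) (hh.continuousOn.mono a2)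
      h1.ne').neg.congr_of_eventuallyEq ?_
    filter_upwards [(isOpen_lt continuous_const continuous_norm).mem_nhds h1] with z hz
    unfold Lm
    split_ifs with h2
    · rw [← cau_sub_cau hh hz (by linarith)]
      simp
    · rfl
  · have h2 : ‖s‖ < 3 / 4 := by linarith
    refine ((hh.differentiableAt (isOpen_Ann.mem_nhds ⟨hs1, by linarith⟩)).sub
      (differentiableAt_cau (R := 9 / 10) (by norm_num) (hh.continuousOn.mono a1)
      (by linarith))).congr_of_eventuallyEq ?_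
    filter_upwards [(isOpen_lt continuous_norm continuous_const).mem_nhds h2] with z hz
    unfold Lm
    rw [if_pos hz.le]
    rfl

end Pool.Agent.RC.Laur
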