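import Pool.Agent.Lib.RC.BlueA

/-! Reduction of LIN to the case of translations. -/

namespace Pool.Agent.Lib.RC

open Set Metric Complex Filter Topology

/-- LIN for symmetry sets that consist of translations -/
def St_LINT : Prop :=
  ∀ (n : ℕ) (C1 : ℝ), 1 ≤ C1 → ∃ C2 : ℝ, 1 ≤ C2 ∧ ∀ (K : Comb) (M ε δ : ℝ),
    (∀ s ∈ K.G, s.1 = false) → 10 ≤ M → 0 ≤ ε →
    ε ≤ 1 → 0 ≤ δ → ∀ (L : Cell → Cell → E n →L[ℂ] E n) (c : Cell → Cell → ℂ → E n),
    LinHyp K C1 M ε δ L c → ∃ (g : Cell → ℂ → E n) (v : Cell → E n), State K g v ∧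
      (∀ i, ∀ z ∈ Q K.κ i, ‖g i z‖ ≤ C2 * δ) ∧ (∀ i, ‖v i‖ ≤ C2 * δ) ∧
      (∀ i j, K.cls i ≠ K.cls j → ∀ z ∈ Q K.κ i ∩ Q K.κ j,
        ‖g i z + (z - pt K.κ i)⁻¹ • v i - L i j (g j z + (z - pt K.κ j)⁻¹ • v j) - c i j z‖ ≤
          C2 * (ε + 1 / M) * δ) ∧
      ∀ i (D : ℝ), 1 ≤ D → (∀ j, dist j i ≤ D → K.cls j = K.cls i) →
        ∀ z ∈ Q K.κ i, ‖g i z‖ ≤ C2 * δ / D

namespace Sym84

variable {n : ℕ} {κ : ℝ}

theorem rz_sub_pt (κ : ℝ) (s : Sy) (i : Cell) (z : ℂ) :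
    rz κ s z - pt κ (rc s i) = cj s.1 (z - pt κ i) := by
  obtain ⟨b, a⟩ := s
  cases b <;> simp [rz, rc, cj, pt] <;> ring

theorem rz_mem_Q (hκ : κ ≠ 0) (s : Sy) {i : Cell} {z : ℂ} (hz : z ∈ Q κ i) :
    rz κ s z ∈ Q κ (rc s i) := by
  obtain ⟨b, a⟩ := s
  obtain ⟨h1, h2⟩ := hz
  cases b
  · refine ⟨h1.trans_eq' (congrArg abs ?_), h2.trans_eq' (congrArg abs ?_)⟩
    · simp [rz, rc, cj, pt]; field_simp; ring
    · simp [rz, rc, cj, pt]
  · rw [← abs_neg] at h1
    refine ⟨h1.trans_eq' (congrArg abs ?_), h2.trans_eq' (congrArg abs ?_)⟩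
    · simp [rz, rc, cj, pt]; field_simp; ring
    · simp [rz, rc, cj, pt]

theorem dist_rc (s : Sy) (i j : Cell) : dist (rc s i) (rc s j) = dist i j := by
  obtain ⟨b, a⟩ := s
  cases b <;> simp [rc, Prod.dist_eq]

theorem dist_le_one {i j : Cell} {z : ℂ} (hi : z ∈ Q κ i) (hj : z ∈ Q κ j) : dist i j ≤ 1 := by
  have key : ∀ (x : ℝ) (a b : ℤ), |x - a| < 4 / 5 → |x - b| < 4 / 5 → dist a b ≤ 1 := by
    intro x a b ha hb
    rw [abs_lt] at ha hb
    have h1 : a - b < 2 := by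
      have : (a : ℝ) - b < 2 := by linarith
      exact_mod_cast this
    have h2 : -2 < a - b := by
      have : (-2 : ℝ) < a - b := by linarith
      exact_mod_cast this
    have h3 : |a - b| ≤ 1 := abs_le.2 ⟨by omega, by omega⟩
    rw [Int.dist_eq]
    exact_mod_cast h3
  rw [Prod.dist_eq]
  exact max_le (key _ _ _ hi.1 hj.1) (key _ _ _ hi.2 hj.2)

theorem rc_rc (a i : Cell) : rc (true, a) (rc (true, a) i) = rc (false, (0, 2 * a.2)) i := by
  ext <;> simp [rc]; ring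

theorem rz_rz (κ : ℝ) (a : Cell) (z : ℂ) :
    rz κ (true, a) (rz κ (true, a) z) = rz κ (false, (0, 2 * a.2)) z := by
  simp [rz, cj, pt]; ring

theorem rc_surj (s : Sy) : Function.Surjective (rc s) := by
  obtain ⟨b, a⟩ := s
  intro j
  cases b
  · exact ⟨j - a, by simp [rc]⟩
  · exact ⟨(a.1 - j.1, j.2 - a.2), by ext <;> simp [rc]⟩

theorem diff_mir {g : ℂ → E n} {U V : Set ℂ} (hU : IsOpen U) (hg : DifferentiableOn ℂ g U)
    (a : Cell) (h : ∀ z ∈ V, rz κ (true, a) z ∈ U) :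
    DifferentiableOn ℂ (fun z => star (g (rz κ (true, a) z))) V := by
  intro z hz
  have h1 : DifferentiableAt ℂ g (rz κ (true, a) z) := hg.differentiableAt (hU.mem_nhds (h z hz))
  have h2 : DifferentiableAt ℂ (fun w => g (-w + pt κ a)) (starRingEnd ℂ z) := by
    refine DifferentiableAt.comp (g := g) (starRingEnd ℂ z) h1 (by fun_prop)
  have h3 := (differentiableAt_star_conj_iff (f := fun w => g (-w + pt κ a)) (x := z)).2 h2
  exact h3.differentiableWithinAt

theorem isOpen_Q (κ : ℝ) (i : Cell) : IsOpen (Q κ i) := by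
  have h1 : IsOpen {z : ℂ | |z.re / κ - i.1| < 4 / 5} := isOpen_lt (by fun_prop) continuous_const
  have h2 : IsOpen {z : ℂ | |z.im - i.2| < 4 / 5} := isOpen_lt (by fun_prop) continuous_const
  exact h1.inter h2

theorem avg_le {x y : E n} {B : ℝ} (hx : ‖x‖ ≤ B) (hy : ‖y‖ ≤ B) :
    ‖(1 / 2 : ℂ) • (x + y)‖ ≤ B := by
  have := norm_add_le x y
  rw [norm_smul]
  norm_num
  linarith

/-- the same data with the square of the reflection as symmetry -/
def sq (K : Comb) (a : Cell) (h : (true, a) ∈ K.G) : Comb where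
  κ := K.κ
  κ1 := K.κ1
  κ2 := K.κ2
  cls := K.cls
  pole := K.pole
  sing := K.sing
  two := K.two
  G := {(false, (0, 2 * a.2))}
  Gok := Or.inl fun s hs => by rw [mem_singleton_iff.1 hs]
  Gcls s hs i j := by
    rw [mem_singleton_iff.1 hs, ← rc_rc, ← rc_rc, K.Gcls _ h, K.Gcls _ h]
  Gpole s hs i := by
    rw [mem_singleton_iff.1 hs, ← rc_rc, K.Gpole _ h, K.Gpole _ h]

end Sym84

open Sym84 in
theorem lin_of_T (H : St_LINT) : St_LIN := by
  intro n C1 hC1
  obtain ⟨C2, hC2, H⟩ := H n C1 hC1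
  refine ⟨C2, hC2, fun K M ε δ hM hε hε1 hδ L c hL => ?_⟩
  rcases K.Gok with hG | ⟨a, hG⟩
  · exact H K M ε δ hG hM hε hε1 hδ L c hL
  have ha : (true, a) ∈ K.G := by rw [hG]; rfl
  have hκ : K.κ ≠ 0 := by have := K.κ1; positivity
  have hQ : ∀ {i z}, z ∈ Q K.κ i → rz K.κ (true, a) z ∈ Q K.κ (rc (true, a) i) :=
    fun hz => rz_mem_Q hκ _ hz
  have hL' : LinHyp (sq K a ha) C1 M ε δ L c :=
    { Lcl := hL.Lcl, ccl := hL.ccl, c0 := hL.c0, hol := hL.hol, cb := hL.cb, Lb := hL.Lb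
      Lco := hL.Lco, cco := hL.cco
      Ls := by
        intro s hs i k hik x
        rw [mem_singleton_iff.1 hs, ← rc_rc, ← rc_rc]
        have h1 := hL.Ls _ ha i k hik x
        have h2 := hL.Ls _ ha (rc (true, a) i) (rc (true, a) k) (by rwa [dist_rc]) (star x)
        simp only [st, if_true, star_star] at h1 h2
        simp [st, h2, h1]
      cs := by
        intro s hs i k z hz
        rw [mem_singleton_iff.1 hs, ← rc_rc, ← rc_rc]
        have h1 := hL.cs _ ha i k z hz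
        have h2 := hL.cs _ ha (rc (true, a) i) (rc (true, a) k) _ ⟨hQ hz.1, hQ hz.2⟩
        rw [h1, rz_rz] at h2
        exact h2.trans (by simp [st]) }
  obtain ⟨g, v, hS, hg, hv, hm, hD⟩ := H (sq K a ha) M ε δ
    (fun s hs => by rw [mem_singleton_iff.1 hs]) hM hε hε1 hδ L c hL'
  refine ⟨fun i z => (1 / 2 : ℂ) • (g i z + star (g (rc (true, a) i) (rz K.κ (true, a) z))),
    fun i => (1 / 2 : ℂ) • (v i + -star (v (rc (true, a) i))), ⟨?_, ?_, ?_, ?_, ?_⟩, ?_, ?_, ?_, ?_⟩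
  · intro i j hij
    rw [hS.cl i j hij, hS.cl _ _ ((K.Gcls _ ha i j).2 hij)]
  · intro i hi
    rw [hS.np i hi, hS.np _ fun h => hi ((K.Gpole _ ha i).1 h)]
    simp
  · intro i
    exact ((hS.hol i).add (diff_mir (isOpen_Q _ _) (hS.hol _) a fun z hz => hQ hz)).const_smul
      (1 / 2 : ℂ)
  · intro s hs i z hz
    rw [hG, mem_singleton_iff] at hs
    subst hs
    have h1 : g (rc (false, (0, 2 * a.2)) i) (rz K.κ (false, (0, 2 * a.2)) z) = g i z :=
      hS.sg _ rfl i z hz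
    simp only [rc_rc, rz_rz, h1]
    simp [st, add_comm]
  · intro s hs i
    rw [hG, mem_singleton_iff] at hs
    subst hs
    have h1 : v (rc (false, (0, 2 * a.2)) i) = v i := hS.sr _ rfl i
    simp only [rc_rc, h1]
    simp [sv, add_comm]
  · intro i z hz
    exact avg_le (hg i z hz) (by rw [norm_star]; exact hg _ _ (hQ hz))
  · intro i
    exact avg_le (hv i) (by rw [norm_neg, norm_star]; exact hv _)
  · intro i j hij z hz
    have h1 := hm i j hij z hz
    have h2 := hm (rc (true, a) i) (rc (true, a) j) (fun h => hij ((K.Gcls _ ha i j).1 h)) _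
      ⟨hQ hz.1, hQ hz.2⟩
    rw [← norm_star] at h2
    refine (avg_le h1 h2).trans_eq' (congrArg norm ?_)
    have h3 := hL.cs _ ha i j z hz
    have h4 : ∀ x, star (L (rc (true, a) i) (rc (true, a) j) x) = L i j (star x) := by
      intro x
      have := hL.Ls _ ha i j ((dist_le_one hz.1 hz.2).trans (by linarith)) (star x)
      simp only [st, if_true, star_star] at this
      rw [this, star_star]
    have h5 : ∀ k, star ((rz K.κ (true, a) z - pt K.κ (rc (true, a) k))⁻¹) = -(z - pt K.κ k)⁻¹ := by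
      intro k
      rw [rz_sub_pt]
      simp only [cj, if_true, inv_neg, star_neg, star_inv₀, RCLike.star_def, conj_conj]
    simp only [st, if_true] at h3
    change (1 / 2 : ℂ) • (g i z + (z - pt K.κ i)⁻¹ • v i - L i j (g j z + (z - pt K.κ j)⁻¹ • v j)
      - c i j z + star (g (rc (true, a) i) (rz K.κ (true, a) z) +
        (rz K.κ (true, a) z - pt K.κ (rc (true, a) i))⁻¹ • v (rc (true, a) i) -
        L (rc (true, a) i) (rc (true, a) j) (g (rc (true, a) j) (rz K.κ (true, a) z) +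
        (rz K.κ (true, a) z - pt K.κ (rc (true, a) j))⁻¹ • v (rc (true, a) j)) -
        c (rc (true, a) i) (rc (true, a) j) (rz K.κ (true, a) z))) = _
    rw [h3]
    simp only [star_sub, star_add, star_smul, h4, h5, star_star, map_add, map_smul, map_neg]
    module
  · intro i D hD1 hc z hz
    refine avg_le (hD i D hD1 hc z hz) ?_
    rw [norm_star]
    refine hD _ D hD1 (fun j hj => ?_) _ (hQ hz)
    obtain ⟨k, rfl⟩ := rc_surj (true, a) j
    exact (K.Gcls _ ha k i).2 (hc k (by rwa [dist_rc] at hj))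

end Pool.Agent.Lib.RC
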