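import Pool.Agent.Lib.RC.Lat67
import Pool.Agent.Lib.RC.LinSym84
import Pool.Agent.Lib.RC.Ker84

set_option autoImplicit false

open MeasureTheory Metric Set Filter Complex
open scoped Topology

noncomputable section

namespace Pool.Agent.Lib.RC.Lin

open Pool.Agent.RC.Lat Pool.Agent.RC.Ker

/-- the cell containing a point -/
def cell (κ : ℝ) (z : ℂ) : Cell := (round (z.re / κ), round z.im)

/-- partition of unity -/
def br (κ : ℝ) (l : Cell) (z : ℂ) : ℝ := th (z.re / κ - l.1) * th (z.im - l.2)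

/-- its antiholomorphic derivative -/
def db (κ : ℝ) (l : Cell) (z : ℂ) : ℂ :=
  (1 / 2 : ℂ) * (((deriv th (z.re / κ - l.1) / κ * th (z.im - l.2) : ℝ) : ℂ) +
    I * ((th (z.re / κ - l.1) * deriv th (z.im - l.2) : ℝ) : ℂ))

/-- closed support -/
def Cl (κ : ℝ) (l : Cell) : Set ℂ := {z | |z.re / κ - l.1| ≤ 7 / 10 ∧ |z.im - l.2| ≤ 7 / 10}

/-- the nine offsets -/
def nb : Finset Cell := ({-1, 0, 1} : Finset ℤ) ×ˢ ({-1, 0, 1} : Finset ℤ)

variable {κ : ℝ} {z w : ℂ} {i j k l t : Cell} {n : ℕ}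

theorem cell_mem (κ : ℝ) (z : ℂ) : z ∈ Q κ (cell κ z) :=
  ⟨(abs_sub_round _).trans_lt (by norm_num), (abs_sub_round _).trans_lt (by norm_num)⟩

theorem Cl_sub (h : z ∈ Cl κ l) : z ∈ Q κ l :=
  ⟨h.1.trans_lt (by norm_num), h.2.trans_lt (by norm_num)⟩

theorem isClosed_Cl (κ : ℝ) (l : Cell) : IsClosed (Cl κ l) := by
  have h1 : IsClosed {z : ℂ | |z.re / κ - l.1| ≤ 7 / 10} := isClosed_le (by fun_prop) continuous_const
  have h2 : IsClosed {z : ℂ | |z.im - l.2| ≤ 7 / 10} := isClosed_le (by fun_prop) continuous_const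
  exact h1.inter h2

theorem br_zero (h : z ∉ Cl κ l) : br κ l z = 0 := by
  unfold br
  rcases not_and_or.1 h with h | h
  · rw [th_zero (not_le.1 h).le, zero_mul]
  · rw [th_zero (not_le.1 h).le, mul_zero]

theorem db_zero (h : z ∉ Cl κ l) : db κ l z = 0 := by
  unfold db
  rcases not_and_or.1 h with h | h
  · rw [th_zero (not_le.1 h).le, dth_zero (not_le.1 h)]
    simp
  · rw [th_zero (not_le.1 h).le, dth_zero (not_le.1 h)]
    simp

theorem mem_nb {d : Cell} : d ∈ nb ↔ (-1 ≤ d.1 ∧ d.1 ≤ 1) ∧ (-1 ≤ d.2 ∧ d.2 ≤ 1) := by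
  simp only [nb, Finset.mem_product, Finset.mem_insert, Finset.mem_singleton]
  omega

theorem sub_mem_nb (hk : z ∈ Q κ k) (hl : z ∈ Q κ l) : l - k ∈ nb := by
  have key : ∀ (x : ℝ) (a b : ℤ), |x - a| < 4 / 5 → |x - b| < 4 / 5 → -1 ≤ b - a ∧ b - a ≤ 1 := by
    intro x a b ha hb
    rw [abs_lt] at ha hb
    have h1 : (-2 : ℤ) < b - a := by
      have : ((-2 : ℤ) : ℝ) < ((b - a : ℤ) : ℝ) := by push_cast; linarith
      exact_mod_cast this
    have h2 : b - a < (2 : ℤ) := by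
      have : ((b - a : ℤ) : ℝ) < ((2 : ℤ) : ℝ) := by push_cast; linarith
      exact_mod_cast this
    omega
  exact mem_nb.2 ⟨key _ _ _ hk.1 hl.1, key _ _ _ hk.2 hl.2⟩

theorem fs (hk : z ∈ Q κ k) (F : Cell → E n) (hF : ∀ l, z ∉ Cl κ l → F l = 0) :
    ∑ᶠ l, F l = ∑ d ∈ nb, F (k + d) := by
  rw [finsum_eq_sum_of_support_subset (s := nb.image (k + ·)) F, Finset.sum_image]
  · intro a _ b _ h
    exact add_left_cancel h
  · intro l hl
    have h1 : z ∈ Cl κ l := by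
      by_contra h
      exact hl (hF l h)
    simp only [Finset.coe_image, mem_image, Finset.mem_coe]
    exact ⟨l - k, sub_mem_nb hk (Cl_sub h1), by abel⟩

theorem sum3 (f : ℝ → ℝ) (x : ℝ) (a : ℤ) :
    ∑ d ∈ ({-1, 0, 1} : Finset ℤ), f (x - ((a + d : ℤ) : ℝ)) =
      f (x - a + 1) + f (x - a) + f (x - a - 1) := by
  rw [Finset.sum_insert (by decide), Finset.sum_insert (by decide), Finset.sum_singleton]
  push_cast
  rw [show x - (a + -1) = x - a + 1 by ring, show x - (a + 1) = x - a - 1 by ring, add_zero,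
    add_assoc]

theorem sum9 (f g : ℝ → ℝ) (x y : ℝ) (k : Cell) :
    ∑ d ∈ nb, f (x - ((k + d).1 : ℤ)) * g (y - ((k + d).2 : ℤ)) =
      (f (x - k.1 + 1) + f (x - k.1) + f (x - k.1 - 1)) *
        (g (y - k.2 + 1) + g (y - k.2) + g (y - k.2 - 1)) := by
  rw [← sum3, ← sum3, Finset.sum_mul_sum, nb, Finset.sum_product]
  rfl

theorem sum_br (hk : z ∈ Q κ k) : ∑ d ∈ nb, (br κ (k + d) z : ℂ) = 1 := by
  rw [← Complex.ofReal_sum]
  unfold br
  rw [sum9, th_sum hk.1, th_sum hk.2]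
  simp

theorem sum_db (hk : z ∈ Q κ k) : ∑ d ∈ nb, db κ (k + d) z = 0 := by
  unfold db
  rw [← Finset.mul_sum, Finset.sum_add_distrib, ← Finset.mul_sum, ← Complex.ofReal_sum,
    ← Complex.ofReal_sum, sum9 (fun x => deriv th x / κ) th, sum9 th (deriv th),
    dth_sum hk.2, ← add_div, ← add_div, dth_sum hk.1]
  simp

theorem br_bd (κ : ℝ) (l : Cell) (z : ℂ) : ‖(br κ l z : ℂ)‖ ≤ 1 := by
  rw [Complex.norm_real, br, Real.norm_eq_abs,
    abs_of_nonneg (mul_nonneg (th_nonneg _) (th_nonneg _))]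
  exact mul_le_one₀ (th_le_one _) (th_nonneg _) (th_le_one _)

theorem db_bd : ∃ B : ℝ, 1 ≤ B ∧ ∀ κ : ℝ, 1 ≤ κ → ∀ l z, ‖db κ l z‖ ≤ B := by
  obtain ⟨B, hB, h⟩ := dth_bdd
  refine ⟨B, hB, fun κ hκ l z => ?_⟩
  have h1 : ∀ x y : ℝ, |deriv th x / κ * th y| ≤ B := by
    intro x y
    rw [abs_mul, abs_div, abs_of_nonneg (th_nonneg y), abs_of_nonneg (by linarith : 0 ≤ κ)]
    have : |deriv th x| / κ ≤ B := (div_le_self (abs_nonneg _) hκ).trans (h x)
    calc _ ≤ B * 1 := mul_le_mul this (th_le_one y) (th_nonneg y) (by linarith)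
      _ = B := mul_one B
  have h2 : ∀ x y : ℝ, |th x * deriv th y| ≤ B := by
    intro x y
    rw [abs_mul, abs_of_nonneg (th_nonneg x)]
    calc _ ≤ 1 * B := mul_le_mul (th_le_one x) (h y) (abs_nonneg _) zero_le_one
      _ = B := one_mul B
  unfold db
  rw [norm_mul]
  have h3 := norm_add_le (((deriv th (z.re / κ - l.1) / κ * th (z.im - l.2) : ℝ) : ℂ))
    (I * ((th (z.re / κ - l.1) * deriv th (z.im - l.2) : ℝ) : ℂ))
  rw [norm_mul, Complex.norm_I, one_mul, Complex.norm_real, Complex.norm_real, Real.norm_eq_abs,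
    Real.norm_eq_abs] at h3
  have h4 : ‖(1 / 2 : ℂ)‖ = 1 / 2 := by norm_num
  rw [h4]
  linarith [h1 (z.re / κ - l.1) (z.im - l.2), h2 (z.re / κ - l.1) (z.im - l.2)]

theorem sum_bd {φ : Cell → ℂ} {F : Cell → E n} {B m : ℝ} (hB : 0 ≤ B) (hm : 0 ≤ m)
    (h1 : ∀ l, ‖φ l‖ ≤ B) (h2 : ∀ l, z ∉ Cl κ l → φ l = 0) (h3 : ∀ l, z ∈ Q κ l → ‖F l‖ ≤ m) :
    ‖∑ d ∈ nb, φ (k + d) • F (k + d)‖ ≤ 9 * B * m := by
  have h : ∀ d ∈ nb, ‖φ (k + d) • F (k + d)‖ ≤ B * m := by
    intro d _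
    by_cases hz : z ∈ Cl κ (k + d)
    · rw [norm_smul]
      exact mul_le_mul (h1 _) (h3 _ (Cl_sub hz)) (norm_nonneg _) hB
    · rw [h2 _ hz, zero_smul, norm_zero]
      positivity
  refine (norm_sum_le _ _).trans ((Finset.sum_le_card_nsmul _ _ _ h).trans ?_)
  have : nb.card = 9 := by decide
  rw [this, nsmul_eq_mul]
  norm_num [mul_assoc]

theorem re_shift (hκ : κ ≠ 0) (z : ℂ) (t : Cell) : (z + pt κ t).re / κ = z.re / κ + t.1 := by
  simp [pt]
  field_simp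

theorem im_shift (κ : ℝ) (z : ℂ) (t : Cell) : (z + pt κ t).im = z.im + t.2 := by
  simp [pt]

theorem re_shift' (hκ : κ ≠ 0) (z : ℂ) (l t : Cell) :
    (z + pt κ t).re / κ - ((l + t).1 : ℤ) = z.re / κ - l.1 := by
  rw [re_shift hκ, Prod.fst_add]
  push_cast
  ring

theorem im_shift' (κ : ℝ) (z : ℂ) (l t : Cell) :
    (z + pt κ t).im - ((l + t).2 : ℤ) = z.im - l.2 := by
  rw [im_shift, Prod.snd_add]
  push_cast
  ring

theorem br_shift (hκ : κ ≠ 0) : br κ (l + t) (z + pt κ t) = br κ l z := by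
  unfold br
  rw [re_shift' hκ, im_shift']

theorem db_shift (hκ : κ ≠ 0) : db κ (l + t) (z + pt κ t) = db κ l z := by
  unfold db
  rw [re_shift' hκ, im_shift']

theorem Q_shift (hκ : κ ≠ 0) : z + pt κ t ∈ Q κ (l + t) ↔ z ∈ Q κ l := by
  unfold Q
  rw [mem_setOf_eq, mem_setOf_eq, re_shift' hκ, im_shift']

theorem cell_shift (hκ : κ ≠ 0) : cell κ (z + pt κ t) = cell κ z + t := by
  unfold cell
  rw [re_shift hκ, im_shift, round_add_intCast, round_add_intCast]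
  rfl

theorem pt_add (κ : ℝ) (l t : Cell) : pt κ (l + t) = pt κ l + pt κ t := by
  simp [pt]
  ring

theorem br_smooth (κ : ℝ) (l : Cell) : ContDiff ℝ 1 (fun z => (br κ l z : ℂ)) := by
  have h : ContDiff ℝ 1 th := th_smooth.of_le (by norm_num)
  refine Complex.ofRealCLM.contDiff.comp (f := br κ l) ?_
  unfold br
  exact (h.comp ((Complex.reCLM.contDiff.div_const κ).sub contDiff_const)).mul
    (h.comp (Complex.imCLM.contDiff.sub contDiff_const))

theorem db_cont (κ : ℝ) (l : Cell) : Continuous (db κ l) := by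
  have h1 := th_smooth.continuous
  have h2 := dth_cont
  unfold db
  fun_prop

theorem br_fderiv (κ : ℝ) (l : Cell) (z v : ℂ) :
    fderiv ℝ (fun z => (br κ l z : ℂ)) z v =
      ((deriv th (z.re / κ - l.1) * (v.re / κ) * th (z.im - l.2) +
        th (z.re / κ - l.1) * (deriv th (z.im - l.2) * v.im) : ℝ) : ℂ) := by
  have a1 : HasFDerivAt (fun z : ℂ => z.re / κ - l.1) (κ⁻¹ • Complex.reCLM) z := by
    have := (Complex.reCLM.hasFDerivAt (x := z)).const_smul κ⁻¹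
    refine (this.sub_const (l.1 : ℝ)).congr_of_eventuallyEq (Eventually.of_forall fun y => ?_)
    simp [div_eq_inv_mul]
  have a2 : HasFDerivAt (fun z : ℂ => z.im - l.2) Complex.imCLM z :=
    (Complex.imCLM.hasFDerivAt (x := z)).sub_const _
  have b1 := (th_diff _).hasDerivAt.comp_hasFDerivAt z a1
  have b2 := (th_diff _).hasDerivAt.comp_hasFDerivAt z a2
  have c1 := Complex.ofRealCLM.hasFDerivAt.comp z (b1.mul b2)
  have c2 : fderiv ℝ (fun z => (br κ l z : ℂ)) z = _ := c1.fderiv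
  rw [c2]
  simp [div_eq_inv_mul]
  ring

theorem term_fderiv {f : ℂ → E n} (hf : DifferentiableAt ℂ f z) :
    (1 / 2 : ℂ) • (fderiv ℝ (fun z => (br κ l z : ℂ) • f z) z 1 +
      I • fderiv ℝ (fun z => (br κ l z : ℂ) • f z) z I) = db κ l z • f z := by
  have h1 : HasFDerivAt (fun z => (br κ l z : ℂ)) (fderiv ℝ (fun z => (br κ l z : ℂ)) z) z :=
    ((br_smooth κ l).differentiable (by norm_num) z).hasFDerivAt
  have h2 := hf.hasDerivAt.hasFDerivAt.restrictScalars ℝ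
  have h3 : fderiv ℝ (fun z => (br κ l z : ℂ) • f z) z = _ := (h1.smul h2).fderiv
  rw [h3]
  simp only [ContinuousLinearMap.add_apply, ContinuousLinearMap.smul_apply,
    ContinuousLinearMap.smulRight_apply, ContinuousLinearMap.coe_restrictScalars',
    ContinuousLinearMap.toSpanSingleton_apply, br_fderiv]
  ext m
  simp [db]
  have hI : I * I = -1 := Complex.I_mul_I
  linear_combination ((1 / 2) * (br κ l z : ℂ) * deriv f z m) * hI

theorem sepP (hκ : 1 ≤ κ) (hz : z ∈ Q κ j) (h : l ≠ j) : 1 / 10 ≤ ‖z - pt κ l‖ := by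
  have key : ∀ (x : ℝ) (a b : ℤ), |x - a| < 4 / 5 → b ≠ a → 1 / 5 ≤ |x - b| := by
    intro x a b ha hb
    rw [abs_lt] at ha
    rcases lt_or_gt_of_ne hb with h | h
    · have : (b : ℝ) + 1 ≤ a := by exact_mod_cast h
      exact le_abs.2 (Or.inl (by linarith))
    · have : (a : ℝ) + 1 ≤ b := by exact_mod_cast h
      exact le_abs.2 (Or.inr (by linarith))
  by_cases h1 : l.1 = j.1
  · have h2 : l.2 ≠ j.2 := fun h2 => h (Prod.ext h1 h2)
    have h3 := key _ _ _ hz.2 h2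
    have h4 := Complex.abs_im_le_norm (z - pt κ l)
    have h5 : (z - pt κ l).im = z.im - l.2 := by simp [pt]
    rw [h5] at h4
    linarith
  · have h3 := key _ _ _ hz.1 h1
    have h4 := Complex.abs_re_le_norm (z - pt κ l)
    have h5 : (z - pt κ l).re = κ * (z.re / κ - l.1) := by
      simp [pt]
      field_simp
    rw [h5, abs_mul, abs_of_nonneg (by linarith : 0 ≤ κ)] at h4
    nlinarith

theorem far (hκ : 1 ≤ κ) (hz : z ∈ Q κ i) (hw : w ∈ Q κ k) : dist i k ≤ ‖z - w‖ + 2 := by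
  have h1 := abs_lt.1 hz.1
  have h2 := abs_lt.1 hz.2
  have h3 := abs_lt.1 hw.1
  have h4 := abs_lt.1 hw.2
  have h5 := abs_le.1 (Complex.abs_im_le_norm (z - w))
  have h6 : |z.re / κ - w.re / κ| ≤ ‖z - w‖ := by
    rw [← sub_div, abs_div, abs_of_nonneg (by linarith : 0 ≤ κ), ← Complex.sub_re]
    exact (div_le_self (abs_nonneg _) hκ).trans (Complex.abs_re_le_norm _)
  have h7 := abs_le.1 h6
  rw [Complex.sub_im] at h5
  rw [Prod.dist_eq, Int.dist_eq, Int.dist_eq]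
  refine max_le (abs_le.2 ⟨by linarith, by linarith⟩) (abs_le.2 ⟨by linarith, by linarith⟩)

theorem near_pt (hκ : 1 ≤ κ) (hκ2 : κ ≤ 2) (h : dist l (cell κ w) ≤ 3) : ‖pt κ l - w‖ ≤ 11 := by
  rw [Prod.dist_eq, Int.dist_eq, Int.dist_eq, max_le_iff] at h
  have h1 := abs_le.1 h.1
  have h2 := abs_le.1 h.2
  have h3 := abs_le.1 (abs_sub_round (w.re / κ))
  have h4 := abs_le.1 (abs_sub_round w.im)
  have h5 := Complex.norm_le_abs_re_add_abs_im (pt κ l - w)
  have h6 : (pt κ l - w).re = κ * (l.1 - w.re / κ) := by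
    simp [pt]
    field_simp
  have h7 : (pt κ l - w).im = l.2 - w.im := by simp [pt]
  simp only [cell] at h1 h2
  have h8 : |(l.1 : ℝ) - w.re / κ| ≤ 7 / 2 := abs_le.2 ⟨by linarith, by linarith⟩
  have h9 : |(l.2 : ℝ) - w.im| ≤ 7 / 2 := abs_le.2 ⟨by linarith, by linarith⟩
  rw [h6, h7, abs_mul, abs_of_nonneg (by linarith : 0 ≤ κ)] at h5
  nlinarith [abs_nonneg ((l.1 : ℝ) - w.re / κ)]

theorem sep_pt (hκ : 1 ≤ κ) (h : l ≠ j) : 1 ≤ ‖pt κ l - pt κ j‖ := by
  have key : ∀ a b : ℤ, a ≠ b → (1 : ℝ) ≤ |(a : ℝ) - b| := by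
    intro a b hab
    exact_mod_cast Int.one_le_abs (sub_ne_zero.2 hab)
  by_cases h1 : l.1 = j.1
  · have h3 := key _ _ (fun h2 => h (Prod.ext h1 h2))
    have h4 := Complex.abs_im_le_norm (pt κ l - pt κ j)
    have h5 : (pt κ l - pt κ j).im = l.2 - j.2 := by simp [pt]
    rw [h5] at h4
    linarith
  · have h3 := key _ _ h1
    have h4 := Complex.abs_re_le_norm (pt κ l - pt κ j)
    have h5 : (pt κ l - pt κ j).re = κ * (l.1 - j.1) := by
      simp [pt]
      ring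
    rw [h5, abs_mul, abs_of_nonneg (by linarith : 0 ≤ κ)] at h4
    nlinarith

theorem ball_sub (hκ : 1 ≤ κ) (i : Cell) : closedBall (pt κ i) (1 / 10) ⊆ Q κ i := by
  intro z hz
  rw [mem_closedBall, dist_eq_norm] at hz
  have h1 := Complex.abs_im_le_norm (z - pt κ i)
  have h2 := Complex.abs_re_le_norm (z - pt κ i)
  have h3 : (z - pt κ i).im = z.im - i.2 := by simp [pt]
  have h4 : (z - pt κ i).re = κ * (z.re / κ - i.1) := by
    simp [pt]
    field_simp
  rw [h3] at h1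
  rw [h4, abs_mul, abs_of_nonneg (by linarith : 0 ≤ κ)] at h2
  exact ⟨by nlinarith [abs_nonneg (z.re / κ - i.1)], by linarith⟩

theorem meas_cell (κ : ℝ) : Measurable (cell κ) := by
  have h : Measurable (round : ℝ → ℤ) := by
    have : (round : ℝ → ℤ) = fun x => ⌊x + 1 / 2⌋ := funext round_eq
    rw [this]
    exact (measurable_id.add_const _).floor
  exact (h.comp (Complex.measurable_re.div_const κ)).prodMk (h.comp Complex.measurable_im)

end Pool.Agent.Lib.RC.Lin
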