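import Pool.Agent.Lib.RC.Lin67a

set_option autoImplicit false

open MeasureTheory Metric Set Filter Complex
open scoped Topology

noncomputable section

namespace Pool.Agent.Lib.RC.Lin

open Pool.Agent.RC.Lat Pool.Agent.RC.Ker
open Classical

variable {n : ℕ}

/-- union of the cells of a class -/
def WW (K : Comb) (i : Cell) : Set ℂ := {z | ∃ j, K.cls j = K.cls i ∧ z ∈ Q K.κ j}

/-- smooth solution of the Cousin problem -/
def AA (K : Comb) (c : Cell → ℂ → E n) (z : ℂ) : E n := ∑ᶠ l, (br K.κ l z : ℂ) • c l z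

/-- its antiholomorphic derivative -/
def om (K : Comb) (c : Cell → ℂ → E n) (z : ℂ) : E n := ∑ᶠ l, db K.κ l z • c l z

/-- cell `k` is near the class of `i` -/
def Nr (K : Comb) (M : ℝ) (i k : Cell) : Prop := ∃ j, K.cls j = K.cls i ∧ dist j k ≤ M

/-- the source seen from the class of `i` -/
def bb (K : Comb) (M : ℝ) (L : Cell → Cell → E n →L[ℂ] E n) (c : Cell → Cell → ℂ → E n)
    (i : Cell) (w : ℂ) : E n :=
  if w ∈ WW K i then om K (c i) w
  else if Nr K M i (cell K.κ w) then L i (cell K.κ w) (om K (c (cell K.κ w)) w) else 0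

/-- valid pairs of offsets -/
def Gd (K : Comb) (k : Cell) (d : Cell × Cell) : Prop :=
  d.1 ≠ d.2 ∧ K.pole (k + d.1) ∧ K.pole (k + d.2) ∧ dist d.1 0 ≤ 3 ∧ dist d.2 0 ≤ 3

/-- chosen pair of offsets -/
def off (K : Comb) (k : Cell) : Cell × Cell := Classical.epsilon (Gd K k)

/-- first pole -/
def r1 (K : Comb) (w : ℂ) : ℂ := pt K.κ (cell K.κ w + (off K (cell K.κ w)).1)

/-- second pole -/
def r2 (K : Comb) (w : ℂ) : ℂ := pt K.κ (cell K.κ w + (off K (cell K.κ w)).2)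

/-- pole centres -/
def PP (K : Comb) : Set ℂ := {q | ∃ j, K.pole j ∧ q = pt K.κ j}

variable {K : Comb} {C1 M ε δ B : ℝ} {L : Cell → Cell → E n →L[ℂ] E n}
  {c : Cell → Cell → ℂ → E n} {z w : ℂ} {i j k l t : Cell}

theorem AA_eq (f : Cell → ℂ → E n) (hk : z ∈ Q K.κ k) :
    AA K f z = ∑ d ∈ nb, (br K.κ (k + d) z : ℂ) • f (k + d) z :=
  fs hk (fun l => (br K.κ l z : ℂ) • f l z) fun l h => by simp [br_zero h]

theorem om_eq (f : Cell → ℂ → E n) (hk : z ∈ Q K.κ k) :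
    om K f z = ∑ d ∈ nb, db K.κ (k + d) z • f (k + d) z :=
  fs hk (fun l => db K.κ l z • f l z) fun l h => by simp [db_zero h]

theorem br0 (h : z ∉ Cl K.κ l) : (br K.κ l z : ℂ) = 0 := by simp [br_zero h]

theorem AA_bd (H : LinHyp K C1 M ε δ L c) (hδ : 0 ≤ δ) (hi : z ∈ Q K.κ i) :
    ‖AA K (c i) z‖ ≤ 9 * 1 * δ := by
  rw [AA_eq _ hi]
  exact sum_bd (φ := fun l => (br K.κ l z : ℂ)) (F := fun l => c i l z) zero_le_one hδ
    (fun l => br_bd _ _ _) (fun l h => br0 h) fun l hl => H.cb i l z ⟨hi, hl⟩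

theorem om_bd (H : LinHyp K C1 M ε δ L c) (hδ : 0 ≤ δ) (hB0 : 0 ≤ B)
    (hB : ∀ l z, ‖db K.κ l z‖ ≤ B) (hi : z ∈ Q K.κ i) : ‖om K (c i) z‖ ≤ 9 * B * δ := by
  rw [om_eq _ hi]
  exact sum_bd (φ := fun l => db K.κ l z) (F := fun l => c i l z) hB0 hδ
    (fun l => hB _ _) (fun l h => db_zero h) fun l hl => H.cb i l z ⟨hi, hl⟩

theorem AA_co (H : LinHyp K C1 M ε δ L c) (h0 : 0 ≤ ε * δ) (hi : z ∈ Q K.κ i) (hk : z ∈ Q K.κ k) :
    ‖AA K (c i) z - L i k (AA K (c k) z) - c i k z‖ ≤ 9 * 1 * (ε * δ) := by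
  have e : AA K (c i) z - L i k (AA K (c k) z) - c i k z = ∑ d ∈ nb, (br K.κ (k + d) z : ℂ) •
      (c i (k + d) z - c i k z - L i k (c k (k + d) z)) := by
    simp only [smul_sub, Finset.sum_sub_distrib]
    rw [← Finset.sum_smul, sum_br hk, one_smul, AA_eq _ hk, AA_eq _ hk, map_sum]
    simp only [map_smul]
    abel
  rw [e]
  exact sum_bd (φ := fun l => (br K.κ l z : ℂ))
    (F := fun l => c i l z - c i k z - L i k (c k l z)) zero_le_one h0
    (fun l => br_bd _ _ _) (fun l h => br0 h) fun l hl => H.cco i k l z ⟨⟨hi, hk⟩, hl⟩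

theorem om_co (H : LinHyp K C1 M ε δ L c) (h0 : 0 ≤ ε * δ) (hB0 : 0 ≤ B)
    (hB : ∀ l z, ‖db K.κ l z‖ ≤ B) (hi : z ∈ Q K.κ i) (hk : z ∈ Q K.κ k) :
    ‖om K (c i) z - L i k (om K (c k) z)‖ ≤ 9 * B * (ε * δ) := by
  have e : om K (c i) z - L i k (om K (c k) z) = ∑ d ∈ nb, db K.κ (k + d) z •
      (c i (k + d) z - c i k z - L i k (c k (k + d) z)) := by
    simp only [smul_sub, Finset.sum_sub_distrib]
    rw [← Finset.sum_smul, sum_db hk, zero_smul, om_eq _ hk, om_eq _ hk, map_sum]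
    simp only [map_smul]
    abel
  rw [e]
  exact sum_bd (φ := fun l => db K.κ l z)
    (F := fun l => c i l z - c i k z - L i k (c k l z)) hB0 h0
    (fun l => hB _ _) (fun l h => db_zero h) fun l hl => H.cco i k l z ⟨⟨hi, hk⟩, hl⟩

theorem c_cl (H : LinHyp K C1 M ε δ L c) (h : K.cls i = K.cls j) : c i = c j :=
  funext fun k => H.ccl i j k h

theorem dist_nb {d : Cell} (h : d ∈ nb) (k : Cell) : dist (k + d) k ≤ 1 := by
  obtain ⟨⟨h1, h2⟩, h3, h4⟩ := mem_nb.1 h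
  have e1 : (-1 : ℝ) ≤ d.1 := by exact_mod_cast h1
  have e2 : (d.1 : ℝ) ≤ 1 := by exact_mod_cast h2
  have e3 : (-1 : ℝ) ≤ d.2 := by exact_mod_cast h3
  have e4 : (d.2 : ℝ) ≤ 1 := by exact_mod_cast h4
  rw [Prod.dist_eq, Int.dist_eq, Int.dist_eq, Prod.fst_add, Prod.snd_add]
  push_cast
  exact max_le (abs_le.2 ⟨by linarith, by linarith⟩) (abs_le.2 ⟨by linarith, by linarith⟩)

theorem c_diff (H : LinHyp K C1 M ε δ L c) (hi : z ∈ Q K.κ i) (hl : z ∈ Q K.κ l) :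
    AnalyticAt ℂ (c i l) z :=
  (H.hol i l).analyticAt (((Sym84.isOpen_Q _ _).inter (Sym84.isOpen_Q _ _)).mem_nhds ⟨hi, hl⟩)

theorem ev_zero (φ : Cell → ℂ → ℂ) (h0 : ∀ l z, z ∉ Cl K.κ l → φ l z = 0) (f : ℂ → E n)
    (hl : z ∉ Q K.κ l) : (fun z => φ l z • f z) =ᶠ[𝓝 z] fun _ => 0 := by
  filter_upwards [(isClosed_Cl K.κ l).isOpen_compl.mem_nhds (fun h => hl (Cl_sub h))] with y hy
  rw [h0 l y hy, zero_smul]

theorem term_smooth (H : LinHyp K C1 M ε δ L c) (hi : z ∈ Q K.κ i) (l : Cell) :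
    ContDiffAt ℝ 1 (fun z => (br K.κ l z : ℂ) • c i l z) z := by
  by_cases hl : z ∈ Q K.κ l
  · exact (br_smooth _ _).contDiffAt.smul ((c_diff H hi hl).contDiffAt.restrict_scalars ℝ)
  · exact contDiffAt_const.congr_of_eventuallyEq
      (ev_zero (fun l z => (br K.κ l z : ℂ)) (fun _ _ h => br0 h) _ hl)

theorem AA_ev (f : Cell → ℂ → E n) (hi : z ∈ Q K.κ i) :
    AA K f =ᶠ[𝓝 z] fun z => ∑ d ∈ nb, (br K.κ (i + d) z : ℂ) • f (i + d) z := by
  filter_upwards [(Sym84.isOpen_Q _ _).mem_nhds hi] with y hy using AA_eq f hy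

theorem AA_smooth (H : LinHyp K C1 M ε δ L c) (i : Cell) :
    ContDiffOn ℝ 1 (AA K (c i)) (Q K.κ i) := fun _ hz =>
  ((ContDiffAt.sum fun d _ => term_smooth H hz (i + d)).congr_of_eventuallyEq
    (AA_ev _ hz)).contDiffWithinAt

theorem AA_dbar (H : LinHyp K C1 M ε δ L c) (hi : z ∈ Q K.κ i) :
    om K (c i) z = dbar (AA K (c i)) z := by
  unfold dbar
  rw [(AA_ev _ hi).fderiv_eq, fderiv_fun_sum fun d _ =>
    (term_smooth H hi (i + d)).differentiableAt (by norm_num), om_eq _ hi,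
    sum_apply, sum_apply, Finset.smul_sum,
    ← Finset.sum_add_distrib, Finset.smul_sum]
  refine Finset.sum_congr rfl fun d _ => ?_
  by_cases hl : z ∈ Q K.κ (i + d)
  · exact (term_fderiv (c_diff H hi hl).differentiableAt).symm
  · rw [(ev_zero (fun l z => (br K.κ l z : ℂ)) (fun _ _ h => br0 h) _ hl).fderiv_eq,
      db_zero fun h => hl (Cl_sub h)]
    simp

theorem om_cont (H : LinHyp K C1 M ε δ L c) (hi : z ∈ Q K.κ i) : ContinuousAt (om K (c i)) z := by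
  have ev : om K (c i) =ᶠ[𝓝 z] fun z => ∑ d ∈ nb, db K.κ (i + d) z • c i (i + d) z := by
    filter_upwards [(Sym84.isOpen_Q _ _).mem_nhds hi] with y hy using om_eq _ hy
  refine ContinuousAt.congr ?_ ev.symm
  refine tendsto_finset_sum _ fun d _ => ?_
  by_cases hl : z ∈ Q K.κ (i + d)
  · exact (db_cont _ _).continuousAt.smul (c_diff H hi hl).continuousAt
  · exact continuousAt_const.congr (ev_zero (db K.κ) (fun _ _ h => db_zero h) _ hl).symm

theorem bb_Q (M : ℝ) (L : Cell → Cell → E n →L[ℂ] E n) (c : Cell → Cell → ℂ → E n)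
    (hi : w ∈ Q K.κ i) : bb K M L c i w = om K (c i) w :=
  if_pos ⟨i, rfl, hi⟩

theorem bb_cl (H : LinHyp K C1 M ε δ L c) (h : K.cls i = K.cls j) :
    bb K M L c i = bb K M L c j := by
  funext w
  have e1 : WW K i = WW K j := by simp only [WW, h]
  have e2 : Nr K M i = Nr K M j := by
    funext k
    simp only [Nr, h]
  unfold bb
  rw [e1, e2, c_cl H h, H.Lcl i j _ h]

theorem deep_zero (H : LinHyp K C1 M ε δ L c) (φ : Cell → ℂ)
    (h : ∀ l, dist l k ≤ 1 → K.cls l = K.cls k) :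
    ∑ d ∈ nb, φ (k + d) • c k (k + d) z = 0 :=
  Finset.sum_eq_zero fun d hd => by simp [H.c0 k (k + d) (h _ (dist_nb hd k)).symm]

theorem bb_zero (H : LinHyp K C1 M ε δ L c)
    (h : ∀ l, dist l (cell K.κ w) ≤ 1 → K.cls l = K.cls (cell K.κ w)) : bb K M L c i w = 0 := by
  have h0 : om K (c (cell K.κ w)) w = 0 := by
    rw [om_eq _ (cell_mem _ _)]
    exact deep_zero H (fun l => db K.κ l w) h
  unfold bb
  split_ifs with h1 h2
  · obtain ⟨j, hj, hw⟩ := h1
    rw [c_cl H (hj.symm.trans (h j (Sym84.dist_le_one hw (cell_mem _ _)))), h0]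
  · rw [h0, map_zero]
  · rfl

theorem bb_bd (H : LinHyp K C1 M ε δ L c) (hC : 1 ≤ C1) (hδ : 0 ≤ δ) (hB0 : 0 ≤ B)
    (hB : ∀ l z, ‖db K.κ l z‖ ≤ B) (i : Cell) (w : ℂ) : ‖bb K M L c i w‖ ≤ C1 * (9 * B * δ) := by
  have h9 : 0 ≤ 9 * B * δ := by positivity
  unfold bb
  split_ifs with h1 h2
  · obtain ⟨j, hj, hw⟩ := h1
    rw [← c_cl H hj]
    exact (om_bd H hδ hB0 hB hw).trans (le_mul_of_one_le_left h9 hC)
  · obtain ⟨j, hj, hw⟩ := h2
    rw [← H.Lcl j i _ hj]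
    exact (ContinuousLinearMap.le_opNorm _ _).trans (mul_le_mul (H.Lb _ _ hw)
      (om_bd H hδ hB0 hB (cell_mem _ _)) (norm_nonneg _) (by linarith))
  · rw [norm_zero]
    positivity

theorem bb_near (H : LinHyp K C1 M ε δ L c) (h0 : 0 ≤ ε * δ) (hB0 : 0 ≤ B)
    (hB : ∀ l z, ‖db K.κ l z‖ ≤ B) (h : dist i (cell K.κ w) ≤ M) :
    ‖bb K M L c i w - L i (cell K.κ w) (om K (c (cell K.κ w)) w)‖ ≤ 9 * B * (ε * δ) := by
  unfold bb
  split_ifs with h1 h2
  · obtain ⟨j, hj, hw⟩ := h1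
    rw [← c_cl H hj, ← H.Lcl j i _ hj]
    exact om_co H h0 hB0 hB hw (cell_mem _ _)
  · rw [sub_self, norm_zero]
    positivity
  · exact absurd ⟨i, rfl, h⟩ h2

theorem bb_meas (H : LinHyp K C1 M ε δ L c) (i : Cell) :
    AEStronglyMeasurable (bb K M L c i) volume := by
  have hW : MeasurableSet (WW K i) := by
    have : WW K i = ⋃ j ∈ {j | K.cls j = K.cls i}, Q K.κ j := by
      ext z
      simp [WW]
    rw [this]
    exact (isOpen_biUnion fun j _ => Sym84.isOpen_Q _ _).measurableSet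
  have hS : ∀ k : Cell, MeasurableSet (cell K.κ ⁻¹' {k}) := fun k =>
    meas_cell _ (measurableSet_singleton k)
  have hU : (univ : Set ℂ) = ⋃ k : Cell, ((cell K.κ ⁻¹' {k} ∩ WW K i) ∪
      (cell K.κ ⁻¹' {k} \ WW K i)) := by
    ext z
    simp
  rw [← Measure.restrict_univ (μ := volume), hU, aestronglyMeasurable_iUnion_iff]
  intro k
  rw [aestronglyMeasurable_union_iff]
  constructor
  · refine ContinuousOn.aestronglyMeasurable ?_ ((hS k).inter hW)
    refine ContinuousOn.congr (f := om K (c i)) (fun z hz => ?_) fun z hz => if_pos hz.2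
    obtain ⟨j, hj, hw⟩ := hz.2
    rw [← c_cl H hj]
    exact (om_cont H hw).continuousWithinAt
  · refine ContinuousOn.aestronglyMeasurable ?_ ((hS k).diff hW)
    refine ContinuousOn.congr (f := fun w => if Nr K M i k then L i k (om K (c k) w) else 0)
      (fun z hz => ?_) fun z hz => ?_
    · have hk : z ∈ Q K.κ k := by
        have : cell K.κ z = k := hz.1
        rw [← this]
        exact cell_mem _ _
      split_ifs
      · exact ((L i k).continuous.continuousAt.comp (om_cont H hk)).continuousWithinAt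
      · exact continuousWithinAt_const
    · have : cell K.κ z = k := hz.1
      unfold bb
      rw [if_neg hz.2, this]

theorem adm (H : LinHyp K C1 M ε δ L c) (hC : 1 ≤ C1) (hδ : 0 ≤ δ) (hB0 : 0 ≤ B)
    (hB : ∀ l z, ‖db K.κ l z‖ ≤ B) (i : Cell) :
    Pool.Agent.RC.Ker.Adm (PP K) (r1 K) (r2 K) (bb K M L c i) (C1 * (9 * B * δ)) where
  m1 := (measurable_of_countable fun k => pt K.κ (k + (off K k).1)).comp (meas_cell _)
  m2 := (measurable_of_countable fun k => pt K.κ (k + (off K k).2)).comp (meas_cell _)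
  mb := bb_meas H i
  bd := bb_bd H hC hδ hB0 hB i
  hr := by
    intro w hw
    have h1 : ∃ d, Gd K (cell K.κ w) d := by
      by_contra hne
      refine hw (bb_zero H fun l hl => ?_)
      by_contra h
      obtain ⟨a, b, hab, ha, hb, da, db⟩ := K.two (cell K.κ w) l (by rwa [dist_comm])
        (fun e => h e.symm)
      refine hne ⟨(a - cell K.κ w, b - cell K.κ w), fun e => hab (sub_left_injective e), ?_, ?_,
        ?_, ?_⟩
      · simpa using ha
      · simpa using hb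
      · rwa [dist_zero_right, ← dist_eq_norm]
      · rwa [dist_zero_right, ← dist_eq_norm]
    obtain ⟨h2, h3, h4, h5, h6⟩ : Gd K (cell K.κ w) (off K (cell K.κ w)) := Classical.epsilon_spec h1
    refine ⟨near_pt K.κ1 K.κ2 ?_, near_pt K.κ1 K.κ2 ?_,
      sep_pt K.κ1 fun e => h2 (add_left_cancel e), ⟨_, h3, rfl⟩, ⟨_, h4, rfl⟩⟩
    · simpa using h5
    · simpa using h6

end Pool.Agent.Lib.RC.Lin
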