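import Pool.Agent.Lib.RC.BlueG
import Pool.Agent.Lib.RC.End59a
import Pool.Agent.Lib.RC.End59b
import Pool.Agent.Lib.RC.Lp14

namespace Pool.Agent.RC.G

open Pool.Agent.Lib.RC Pool.Agent.RC.Sp Set Filter Topology Complex MvPolynomial
open scoped Real Polynomial

variable {n : ℕ}

/-- every periodic loop is freely null-homotopic -/
def Null (X : Type) [TopologicalSpace X] : Prop :=
  ∀ g : ℝ → X, Continuous g → (∀ θ, g (θ + 2 * π) = g θ) →
    ∃ (F : unitInterval × ℝ → X) (y : X), Continuous F ∧ (∀ s θ, F (s, θ + 2 * π) = F (s, θ)) ∧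
      (∀ θ, F (0, θ) = g θ) ∧ ∀ θ, F (1, θ) = y

/-- the equivariant holomorphic sphere -/
theorem sphere {X : Type} [MetricSpace X] [CompactSpace X] [PathConnectedSpace X] (𝒜 : Atlas X n)
    (hA : St_Asph) (hG : Good 𝒜 = univ) (hN : Null X) :
    ∃ (g : ℂ → X) (y : X), Hol 𝒜 g univ ∧ Tendsto g (cocompact ℂ) (𝓝 y) ∧
      ∀ u, u ≠ 0 → g (-(starRingEnd ℂ u)⁻¹) = 𝒜.σ (g u) := by
  obtain ⟨f0, y, h1, -, h3, h4, -⟩ := End.eqv 𝒜.σ 𝒜.σc 𝒜.σσ hN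
  obtain ⟨f, hf, hs, hl, hr⟩ := hA n X 𝒜 f0 y h1 (fun w => hG ▸ mem_univ _) h3 h4
  have hp : ∀ w, f (w + 2 * π * I) = f w := fun w => by
    have : w + 2 * π * I = rho (rho w) := by simp [rho]; ring
    rw [this, hs, hs, 𝒜.σσ]
  obtain ⟨g, hg, -, hgu⟩ := Lp.desc hf hp hl
  refine ⟨g, 𝒜.σ y, hg, (hr.comp Lp.tendsto_log_inf).congr' ?_, fun u hu => ?_⟩
  · filter_upwards [(isCompact_singleton (x := (0 : ℂ))).compl_mem_cocompact] with u hu
      using (hgu u hu).symm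
  · have h0 : -(starRingEnd ℂ u)⁻¹ ≠ 0 := by simpa using hu
    rw [hgu _ h0, hgu u hu, ← hs]
    refine Lp.per_exp hp ?_
    rw [exp_log h0, rho, exp_add, exp_pi_mul_I, exp_neg, exp_conj, exp_log hu, mul_neg_one]

theorem st_MAIN_of (hA : St_Asph) (hAll : St_ALL) (hP : St_PI1) (hAlg : St_ALG) : St_MAIN := by
  intro n M H hE
  obtain ⟨hG, hc⟩ := hAll n M H hE
  obtain ⟨g, y, hg, hy, hs⟩ := sphere (atlas H) hA (eq_univ_of_forall hG) (hP n M H hG)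
  obtain ⟨b, hb⟩ := exists_dom H (g 0)
  obtain ⟨P, Q, ⟨hQ, hZ⟩, -, h⟩ := hAlg n M H g y b 0 hg hy hb
  obtain ⟨A, B, h1, h2⟩ := End.conic_desc P Q hQ fun u hu q1 q2 i => by
    have e := hs u hu
    rw [h _ q1, h _ q2] at e
    have e2 := congrArg (crd H b) (e.trans (conj_ι H (hZ _ q1)))
    rw [crd_ι H (hZ _ q2), crd_ι H (star_mem (hZ _ q1))] at e2
    exact congrFun e2 i
  refine ⟨b, A, B, h1, fun x y hxy hB => ?_⟩
  obtain ⟨-, q, e⟩ := h2 x y hxy hB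
  rw [funext e]
  exact hZ _ q

end Pool.Agent.RC.G
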