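import Pool.Agent.Lib.RC.End59a

/-! Holomorphic maps from the line into a space glued from affine charts. -/

set_option autoImplicit false

open Set Filter Topology Polynomial

noncomputable section

namespace Pool.Agent.RC.M15

/-- a polynomial function -/
def Pol {V : Type} (F : (V → ℂ) → ℂ) : Prop :=
  ∃ P : MvPolynomial V ℂ, ∀ p, F p = MvPolynomial.eval p P

theorem pol_aeval {V : Type} (P : MvPolynomial V ℝ) :
    Pol (fun p : V → ℂ => MvPolynomial.aeval p P) :=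
  ⟨MvPolynomial.map (algebraMap ℝ ℂ) P, fun p => by
    rw [MvPolynomial.eval_map]
    rfl⟩

theorem Pol.mero {V : Type} {F : (V → ℂ) → ℂ} (hF : Pol F) {a : ℂ → V → ℂ} {z : ℂ}
    (ha : ∀ i, MeromorphicAt (fun w => a w i) z) : MeromorphicAt (fun w => F (a w)) z := by
  obtain ⟨P, hP⟩ := hF
  simp only [hP]
  clear hP
  induction P using MvPolynomial.induction_on with
  | C k => simp only [MvPolynomial.eval_C]; exact MeromorphicAt.const _ _
  | add p q hp hq => simp only [map_add]; exact hp.add hq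
  | mul_X p i hp => simp only [map_mul, MvPolynomial.eval_X]; exact hp.mul (ha i)

theorem Pol.ana {V : Type} {F : (V → ℂ) → ℂ} (hF : Pol F) {a : ℂ → V → ℂ} {z : ℂ}
    (ha : ∀ i, AnalyticAt ℂ (fun w => a w i) z) : AnalyticAt ℂ (fun w => F (a w)) z := by
  obtain ⟨P, hP⟩ := hF
  simp only [hP]
  exact AnalyticAt.aeval_mvPolynomial ha P

/-- a meromorphic germ with a finite cluster value is analytic after a change at the point -/
theorem ana_of_cluster {h : ℂ → ℂ} {z c : ℂ} (hm : MeromorphicAt h z)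
    (hc : MapClusterPt c (𝓝[≠] z) h) :
    ∃ g : ℂ → ℂ, AnalyticAt ℂ g z ∧ h =ᶠ[𝓝[≠] z] g ∧ g z = c := by
  have h0 : 0 ≤ meromorphicOrderAt h z := by
    by_contra hneg
    have h1 := tendsto_cobounded_of_meromorphicOrderAt_neg (not_le.1 hneg)
    have h2 : ∀ᶠ w in 𝓝[≠] z, h w ∈ (Metric.ball c 1)ᶜ :=
      h1.eventually (Bornology.isBounded_def.1 Metric.isBounded_ball)
    have h3 : ∃ᶠ w in 𝓝[≠] z, h w ∈ Metric.ball c 1 :=
      hc.frequently (Metric.ball_mem_nhds c one_pos)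
    obtain ⟨w, h4, h5⟩ := (h3.and_eventually h2).exists
    exact h5 h4
  obtain ⟨g, hg, hhg⟩ := hm.meromorphicOrderAt_nonneg_iff.1 h0
  refine ⟨g, hg, hhg, ?_⟩
  have h6 : Tendsto h (𝓝[≠] z) (𝓝 (g z)) :=
    (hg.continuousAt.tendsto.mono_left nhdsWithin_le_nhds).congr' hhg.symm
  have h7 : ClusterPt c (𝓝 (g z)) := ClusterPt.mono hc h6
  exact (eq_of_nhds_neBot h7).symm

/-- a space glued from zero sets `Z b` along principal open sets -/
structure Sys (X : Type) [TopologicalSpace X] (B : Type) (V : B → Type) where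
  Z : ∀ b, Set (V b → ℂ)
  ι : ∀ b, (V b → ℂ) → X
  crd : ∀ b, X → V b → ℂ
  L : B → B → Type
  ob : ∀ b g, L b g → (V b → ℂ) → ℂ
  oa : ∀ b g, L b g → V g → (V b → ℂ) → ℂ
  fin : ∀ b g, Finite (L b g)
  pob : ∀ b g l, Pol (ob b g l)
  poa : ∀ b g l i, Pol (oa b g l i)
  ιc : ∀ b, ContinuousOn (ι b) (Z b)
  Uo : ∀ b, IsOpen (ι b '' Z b)
  crdc : ∀ b, ContinuousOn (crd b) (ι b '' Z b)
  crdι : ∀ b, ∀ p ∈ Z b, crd b (ι b p) = p
  cover : ∀ x, ∃ b, x ∈ ι b '' Z b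
  same : ∀ b g, ∀ p ∈ Z b, ι b p ∈ ι g '' Z g → ∃ l, ob b g l p ≠ 0
  trans : ∀ b g l, ∀ p ∈ Z b, ob b g l p ≠ 0 →
    (fun i => oa b g l i p / ob b g l p) ∈ Z g ∧ ι b p = ι g (fun i => oa b g l i p / ob b g l p)

variable {X : Type} [TopologicalSpace X] {B : Type} {V : B → Type}

namespace Sys

variable (S : Sys X B V)

/-- the open set covered by chart `b` -/
def U (b : B) : Set X := S.ι b '' S.Z b

/-- holomorphic maps: continuous with holomorphic coordinates -/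
def Hol (f : ℂ → X) (Ω : Set ℂ) : Prop :=
  ContinuousOn f Ω ∧ ∀ b i, DifferentiableOn ℂ (fun z => S.crd b (f z) i) (Ω ∩ f ⁻¹' S.U b)

/-- holomorphic near a point -/
def HolAt (f : ℂ → X) (z : ℂ) : Prop :=
  ∃ (g : B) (c : ℂ → V g → ℂ), (∀ i, AnalyticAt ℂ (fun w => c w i) z) ∧
    ∀ᶠ w in 𝓝 z, c w ∈ S.Z g ∧ f w = S.ι g (c w)

variable {S}

theorem crd_mem {b : B} {x : X} (hx : x ∈ S.U b) : S.crd b x ∈ S.Z b ∧ S.ι b (S.crd b x) = x := by
  obtain ⟨p, hp, rfl⟩ := hx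
  rw [S.crdι b p hp]
  exact ⟨hp, rfl⟩

theorem mem_of_ob {b g : B} {l : S.L b g} {p : V b → ℂ} (hp : p ∈ S.Z b)
    (h : S.ob b g l p ≠ 0) :
    S.ι b p ∈ S.U g ∧ ∀ i, S.crd g (S.ι b p) i = S.oa b g l i p / S.ob b g l p := by
  obtain ⟨h1, h2⟩ := S.trans b g l p hp h
  refine ⟨⟨_, h1, h2.symm⟩, fun i => ?_⟩
  rw [h2, S.crdι g _ h1]

theorem HolAt.continuousAt {f : ℂ → X} {z : ℂ} (h : S.HolAt f z) : ContinuousAt f z := by
  obtain ⟨g, c, hc, h⟩ := h
  have h1 : Tendsto c (𝓝 z) (𝓝[S.Z g] (c z)) :=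
    tendsto_nhdsWithin_iff.2
      ⟨tendsto_pi_nhds.2 fun i => (hc i).continuousAt, h.mono fun w hw => hw.1⟩
  have h2 : Tendsto (fun w => S.ι g (c w)) (𝓝 z) (𝓝 (S.ι g (c z))) :=
    (S.ιc g (c z) h.self_of_nhds.1).tendsto.comp h1
  unfold ContinuousAt
  rw [h.self_of_nhds.2]
  exact h2.congr' (h.mono fun w hw => hw.2.symm)

theorem HolAt.ana {f : ℂ → X} {z : ℂ} (h : S.HolAt f z) {b : B} (hb : f z ∈ S.U b) (i : V b) :
    AnalyticAt ℂ (fun w => S.crd b (f w) i) z := by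
  obtain ⟨g, c, hc, h⟩ := h
  obtain ⟨h1, h2⟩ := h.self_of_nhds
  obtain ⟨l, hl⟩ := S.same g b (c z) h1 (h2 ▸ hb)
  have h3 := (S.pob g b l).ana hc
  refine (((S.poa g b l i).ana hc).div h3 hl).congr ?_
  filter_upwards [h, h3.continuousAt.eventually_ne hl] with w hw hw'
  rw [hw.2, (mem_of_ob hw.1 hw').2 i]
  rfl

theorem HolAt.congr {f f' : ℂ → X} {z : ℂ} (h : S.HolAt f z) (hf : f =ᶠ[𝓝 z] f') :
    S.HolAt f' z := by
  obtain ⟨g, c, hc, h⟩ := h
  refine ⟨g, c, hc, ?_⟩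
  filter_upwards [h, hf] with w h1 h2
  exact ⟨h1.1, h2 ▸ h1.2⟩

theorem HolAt.comp {f : ℂ → X} {h : ℂ → ℂ} {z : ℂ} (hf : S.HolAt f (h z))
    (hh : AnalyticAt ℂ h z) : S.HolAt (fun w => f (h w)) z := by
  obtain ⟨g, c, hc, hf⟩ := hf
  exact ⟨g, fun w => c (h w), fun i => (hc i).comp hh, hh.continuousAt.eventually hf⟩

theorem holAt_of {f : ℂ → X} {z : ℂ} {b : B} (hf : ContinuousAt f z) (hb : f z ∈ S.U b)
    (ha : ∀ i, AnalyticAt ℂ (fun w => S.crd b (f w) i) z) : S.HolAt f z :=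
  ⟨b, fun w => S.crd b (f w), ha, (hf.eventually ((S.Uo b).mem_nhds hb)).mono fun _ hw =>
    ⟨(crd_mem hw).1, (crd_mem hw).2.symm⟩⟩

theorem holAt_const (x : X) (z : ℂ) : S.HolAt (fun _ => x) z := by
  obtain ⟨b, hb⟩ := S.cover x
  exact holAt_of continuousAt_const hb fun _ => analyticAt_const

theorem hol_of_holAt {f : ℂ → X} {Ω : Set ℂ} (h : ∀ z ∈ Ω, S.HolAt f z) : S.Hol f Ω :=
  ⟨fun z hz => (h z hz).continuousAt.continuousWithinAt, fun _ i z hz =>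
    ((h z hz.1).ana hz.2 i).differentiableAt.differentiableWithinAt⟩

theorem hol_iff {f : ℂ → X} {Ω : Set ℂ} (hΩ : IsOpen Ω) :
    S.Hol f Ω ↔ ∀ z ∈ Ω, S.HolAt f z := by
  refine ⟨?_, hol_of_holAt⟩
  rintro ⟨hc, hd⟩ z hz
  obtain ⟨b, hb⟩ := S.cover (f z)
  have ho : IsOpen (Ω ∩ f ⁻¹' S.U b) := hc.isOpen_inter_preimage hΩ (S.Uo b)
  exact holAt_of (hc.continuousAt (hΩ.mem_nhds hz)) hb fun i =>
    (hd b i).analyticAt (ho.mem_nhds ⟨hz, hb⟩)

/-- REM: removable singularity -/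
theorem rem {f : ℂ → X} {z : ℂ} (hc : ContinuousAt f z) (h : ∀ᶠ w in 𝓝[≠] z, S.HolAt f w) :
    S.HolAt f z := by
  obtain ⟨b, hb⟩ := S.cover (f z)
  refine holAt_of hc hb fun i => ?_
  refine Complex.analyticAt_of_differentiable_on_punctured_nhds_of_continuousAt ?_ ?_
  · filter_upwards [h, (hc.eventually ((S.Uo b).mem_nhds hb)).filter_mono nhdsWithin_le_nhds]
      with w h1 h2
    exact (h1.ana h2 i).differentiableAt
  · exact (continuous_apply i).continuousAt.comp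
      (((S.crdc b).continuousAt ((S.Uo b).mem_nhds hb)).comp hc)

theorem ev_ne {p : ℂ → Prop} {z : ℂ} (h : ∀ᶠ w in 𝓝[≠] z, p w) :
    ∀ᶠ w in 𝓝 z, ∀ᶠ u in 𝓝[≠] w, p u := by
  rw [← nhdsNE_sup_pure z, eventually_sup, eventually_pure]
  exact ⟨(eventually_nhdsNE_eventually_nhds_iff.2 h).mono fun w hw =>
    hw.filter_mono nhdsWithin_le_nhds, h⟩

/-- near a point a holomorphic map avoids a chart, or has meromorphic coordinates in it -/
theorem HolAt.dicho {f : ℂ → X} {z : ℂ} (h : S.HolAt f z) (b : B) :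
    (∀ᶠ w in 𝓝 z, f w ∉ S.U b) ∨
      ((∀ᶠ w in 𝓝[≠] z, f w ∈ S.U b) ∧ ∀ i, MeromorphicAt (fun w => S.crd b (f w) i) z) := by
  obtain ⟨g, c, hc, h⟩ := h
  have := S.fin g b
  by_cases h0 : ∀ l, ∀ᶠ w in 𝓝 z, S.ob g b l (c w) = 0
  · left
    filter_upwards [h, eventually_all.2 h0] with w h1 h2 h3
    obtain ⟨l, hl⟩ := S.same g b (c w) h1.1 (h1.2 ▸ h3)
    exact hl (h2 l)
  · right
    obtain ⟨l, hl⟩ := not_forall.1 h0
    have h3 := (S.pob g b l).ana hc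
    have h4 := h3.eventually_eq_zero_or_eventually_ne_zero.resolve_left hl
    have h5 := h.filter_mono (nhdsWithin_le_nhds (s := {z}ᶜ))
    refine ⟨?_, fun i => ?_⟩
    · filter_upwards [h4, h5] with w h6 h7
      rw [h7.2]
      exact (mem_of_ob h7.1 h6).1
    · refine (((S.poa g b l i).ana hc).meromorphicAt.div h3.meromorphicAt).congr ?_
      filter_upwards [h4, h5] with w h6 h7
      rw [h7.2, (mem_of_ob h7.1 h6).2 i]
      rfl

/-- MERO -/
theorem mero {f : ℂ → X} {Ω : Set ℂ} (hΩ : IsPreconnected Ω) (h : ∀ z ∈ Ω, S.HolAt f z)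
    {b : B} {z0 : ℂ} (hz0 : z0 ∈ Ω) (hb : f z0 ∈ S.U b) : ∀ z ∈ Ω,
      (∀ᶠ w in 𝓝[≠] z, f w ∈ S.U b) ∧ ∀ i, MeromorphicAt (fun w => S.crd b (f w) i) z := by
  have hd : Disjoint {z : ℂ | ∀ᶠ w in 𝓝[≠] z, f w ∈ S.U b} {z | ∀ᶠ w in 𝓝 z, f w ∉ S.U b} := by
    refine Set.disjoint_left.2 fun z h1 h2 => ?_
    have h1' : ∀ᶠ w in 𝓝[≠] z, f w ∈ S.U b := h1
    have h2' : ∀ᶠ w in 𝓝 z, f w ∉ S.U b := h2
    obtain ⟨w, h3, h4⟩ := (h1'.and (h2'.filter_mono nhdsWithin_le_nhds)).exists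
    exact h4 h3
  have key : Ω ⊆ {z : ℂ | ∀ᶠ w in 𝓝[≠] z, f w ∈ S.U b} := by
    refine hΩ.subset_left_of_subset_union (isOpen_iff_mem_nhds.2 fun z hz => ev_ne hz)
      (isOpen_iff_mem_nhds.2 fun z hz => Eventually.eventually_nhds hz) hd (fun z hz => ?_)
      ⟨z0, hz0, ?_⟩
    · rcases (h z hz).dicho b with h1 | h1
      · exact Or.inr h1
      · exact Or.inl h1.1
    · exact ((h z0 hz0).continuousAt.eventually ((S.Uo b).mem_nhds hb)).filter_mono
        nhdsWithin_le_nhds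
  intro z hz
  exact ((h z hz).dicho b).resolve_left fun h1 => Set.disjoint_left.1 hd (key hz) h1

omit [TopologicalSpace X] in
theorem per_eq {f : ℂ → X} (hp : ∀ w, f (w + 2 * Real.pi * Complex.I) = f w) {a b : ℂ}
    (hab : Complex.exp a = Complex.exp b) : f a = f b := by
  obtain ⟨n, rfl⟩ := Complex.exp_eq_exp_iff_exists_int.1 hab
  exact (Function.Periodic.int_mul (f := f) hp n) b

omit [TopologicalSpace X] in
theorem desc_exp {f : ℂ → X} (hp : ∀ w, f (w + 2 * Real.pi * Complex.I) = f w) (w : ℂ) :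
    f (Complex.log (Complex.exp w)) = f w :=
  per_eq hp (Complex.exp_log (Complex.exp_ne_zero w))

/-- DESC -/
theorem desc {f : ℂ → X} (h : ∀ w, S.HolAt f w)
    (hp : ∀ w, f (w + 2 * Real.pi * Complex.I) = f w) {u : ℂ} (hu : u ≠ 0) :
    S.HolAt (fun v => f (Complex.log v)) u := by
  have h1 : AnalyticAt ℂ (fun v => Complex.log (v / u) + Complex.log u) u := by
    refine AnalyticAt.add (AnalyticAt.clog (by fun_prop) ?_) analyticAt_const
    rw [div_self hu]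
    exact Complex.one_mem_slitPlane
  refine ((h _).comp h1).congr ?_
  filter_upwards [eventually_ne_nhds hu] with v hv
  refine per_eq hp ?_
  rw [Complex.exp_add, Complex.exp_log (div_ne_zero hv hu), Complex.exp_log hu,
    Complex.exp_log hv, div_mul_cancel₀ v hu]

theorem tendsto_inv_ne : Tendsto (fun w : ℂ => w⁻¹) (𝓝[≠] 0) (Bornology.cobounded ℂ) :=
  tendsto_inv₀_nhdsNE_zero

/-- a map holomorphic near infinity with a limit there is holomorphic at infinity -/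
theorem holAt_inf {f : ℂ → X} (h : ∀ᶠ z in Bornology.cobounded ℂ, S.HolAt f z) {y : X}
    (hy : Tendsto f (Bornology.cobounded ℂ) (𝓝 y)) :
    S.HolAt (Function.update (fun w => f w⁻¹) 0 y) 0 := by
  refine rem (continuousAt_update_same.2 (hy.comp tendsto_inv_ne)) ?_
  filter_upwards [tendsto_inv_ne.eventually h, self_mem_nhdsWithin] with w h1 h2
  have h3 : w ≠ 0 := h2
  refine (h1.comp (h := fun w => w⁻¹) (analyticAt_id.inv h3)).congr ?_
  filter_upwards [eventually_ne_nhds h3] with v hv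
  rw [Function.update_of_ne hv]

theorem growth {g : ℂ → ℂ} (hi : MeromorphicAt (fun z => g z⁻¹) 0) :
    ∃ (m : ℕ) (C R : ℝ), ∀ z, R ≤ ‖z‖ → ‖g z‖ ≤ C * ‖z‖ ^ m := by
  obtain ⟨m, hm⟩ := hi
  have h1 := hm.continuousAt.norm.eventually (Iio_mem_nhds (lt_add_one _))
  have h2 := (End.inv_tendsto.mono_right nhdsWithin_le_nhds).eventually h1
  have h3 : ∀ᶠ z : ℂ in Bornology.cobounded ℂ, z ≠ 0 := Bornology.eventually_ne_cobounded 0
  obtain ⟨R, -, hR⟩ := (Filter.hasBasis_cobounded_norm (E := ℂ)).eventually_iff.1 (h2.and h3)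
  refine ⟨m, ‖((0 : ℂ) - 0) ^ m • g (0 : ℂ)⁻¹‖ + 1, R, fun z hz => ?_⟩
  obtain ⟨h4, h5⟩ := hR hz
  have h6 : 0 < ‖z‖ ^ m := pow_pos (norm_pos_iff.2 h5) m
  have h7 : ‖(z⁻¹ - 0) ^ m • g z⁻¹⁻¹‖ = ‖g z‖ / ‖z‖ ^ m := by
    rw [inv_inv, sub_zero, norm_smul, norm_pow, norm_inv, inv_pow, div_eq_inv_mul]
  have h8 : ‖(z⁻¹ - 0) ^ m • g z⁻¹⁻¹‖ < ‖((0 : ℂ) - 0) ^ m • g (0 : ℂ)⁻¹‖ + 1 := h4
  rw [h7, div_lt_iff₀ h6] at h8
  exact h8.le

theorem mero_poly_inv (Q : ℂ[X]) : MeromorphicAt (fun w : ℂ => Q.eval w⁻¹) 0 := by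
  induction Q using Polynomial.induction_on' with
  | add p q hp hq => simp only [eval_add]; exact hp.add hq
  | monomial n a =>
    simp only [eval_monomial]
    exact (MeromorphicAt.const a 0).mul ((MeromorphicAt.id 0).inv.pow n)

variable [∀ b, Finite (V b)]

theorem HolAt.eventually {f : ℂ → X} {z : ℂ} (h : S.HolAt f z) : ∀ᶠ w in 𝓝 z, S.HolAt f w := by
  obtain ⟨g, c, hc, h⟩ := h
  filter_upwards [eventually_all.2 fun i => (hc i).eventually_analyticAt, h.eventually_nhds]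
    with w h1 h2
  exact ⟨g, c, h1, h2⟩

/-- ALG, strong form -/
theorem alg {f : ℂ → X} (h : ∀ z, S.HolAt f z) {y : X}
    (hy : Tendsto f (Bornology.cobounded ℂ) (𝓝 y)) {b : B} {z0 : ℂ} (hb : f z0 ∈ S.U b) :
    ∃ (P : V b → ℂ[X]) (Q : ℂ[X]), (∀ u, Q.eval u ≠ 0 ↔ f u ∈ S.U b) ∧
      ∀ u, Q.eval u ≠ 0 → ∀ i, S.crd b (f u) i = (P i).eval u / Q.eval u := by
  classical
  have hm := mero isPreconnected_univ (fun z _ => h z) (mem_univ z0) hb
  have hF0 := holAt_inf (Eventually.of_forall h) hy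
  have hF : ∀ w, S.HolAt (Function.update (fun w => f w⁻¹) 0 y) w := by
    intro w
    by_cases h3 : w = 0
    · exact h3 ▸ hF0
    · refine ((h w⁻¹).comp (h := fun w => w⁻¹) (analyticAt_id.inv h3)).congr ?_
      filter_upwards [eventually_ne_nhds h3] with v hv
      rw [Function.update_of_ne hv]
  obtain ⟨u1, hu1, hu2⟩ := ((hm 0 trivial).1.and self_mem_nhdsWithin).exists
  have hu3 : u1⁻¹ ≠ 0 := inv_ne_zero hu2
  obtain ⟨hi1, hi2⟩ := mero isPreconnected_univ (fun z _ => hF z) (mem_univ u1⁻¹) (b := b)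
    (by rw [Function.update_of_ne hu3, inv_inv]; exact hu1) 0 trivial
  have hi3 : ∀ i, MeromorphicAt (fun w => S.crd b (f w⁻¹) i) 0 := fun i =>
    (hi2 i).congr (by
      filter_upwards [self_mem_nhdsWithin] with w hw
      rw [Function.update_of_ne hw])
  have hi4 : ∀ᶠ z in Bornology.cobounded ℂ, f z ∈ S.U b := by
    filter_upwards [End.inv_tendsto.eventually hi1, Bornology.eventually_ne_cobounded (0 : ℂ)]
      with z h1 h2
    rwa [Function.update_of_ne (inv_ne_zero h2), inv_inv] at h1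
  have hfin : {u | f u ∉ S.U b}.Finite := by
    have hcl : IsClosed {u | f u ∉ S.U b} :=
      (S.Uo b).isClosed_compl.preimage (continuous_iff_continuousAt.2 fun z => (h z).continuousAt)
    have hbd : Bornology.IsBounded {u | f u ∉ S.U b} :=
      Bornology.isBounded_def.2 (hi4.mono fun z hz => not_not.2 hz)
    refine (Metric.isCompact_of_isClosed_isBounded hcl hbd).finite ?_
    refine isDiscrete_iff_nhdsNE.2 fun z _ => ?_
    rw [inf_principal_eq_bot]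
    exact (hm z trivial).1.mono fun w hw => not_not.2 hw
  set N := hfin.toFinset with hN
  have hmem : ∀ u, u ∈ N ↔ f u ∉ S.U b := fun u => hfin.mem_toFinset
  have hM : ∀ᶠ M : ℕ in atTop, ∀ a ∈ N, ∀ i,
      AnalyticAt ℂ (fun z => (z - a) ^ M * S.crd b (f z) i) a := by
    refine (eventually_all_finset N).2 fun a _ => eventually_all.2 fun i => ?_
    obtain ⟨m, hm'⟩ := (hm a trivial).2 i
    filter_upwards [eventually_ge_atTop m] with M hM
    obtain ⟨k, rfl⟩ := Nat.exists_eq_add_of_le hM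
    have h1 : AnalyticAt ℂ (fun z : ℂ => (z - a) ^ k) a := by fun_prop
    refine (h1.mul hm').congr (Eventually.of_forall fun z => ?_)
    simp only [Pi.mul_apply, smul_eq_mul]
    ring
  obtain ⟨M, hM1, hM2⟩ := (hM.and (eventually_gt_atTop 0)).exists
  set Q : ℂ[X] := ∏ a ∈ N, (Polynomial.X - C a) ^ M with hQ
  have hQe : ∀ u, Q.eval u = ∏ a ∈ N, (u - a) ^ M := by
    intro u
    simp [hQ, eval_prod]
  have hQ0 : ∀ u, Q.eval u ≠ 0 ↔ f u ∈ S.U b := by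
    intro u
    rw [hQe, Finset.prod_ne_zero_iff]
    constructor
    · intro h1
      by_contra h2
      exact h1 u ((hmem u).2 h2) (by rw [sub_self, zero_pow hM2.ne'])
    · intro h1 a ha
      refine pow_ne_zero _ (sub_ne_zero.2 ?_)
      rintro rfl
      exact (hmem u).1 ha h1
  have hP : ∀ i, ∃ p : ℂ[X], ∀ z, Q.eval z * S.crd b (f z) i = p.eval z := by
    intro i
    have hd : Differentiable ℂ (fun z => Q.eval z * S.crd b (f z) i) := by
      intro z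
      refine AnalyticAt.differentiableAt ?_
      by_cases hz : z ∈ N
      · have h1 : AnalyticAt ℂ (fun w : ℂ => ∏ a ∈ N.erase z, (w - a) ^ M) z :=
          Finset.analyticAt_fun_prod _ fun a _ => by fun_prop
        refine (h1.mul (hM1 z hz i)).congr (Eventually.of_forall fun w => ?_)
        simp only [Pi.mul_apply]
        rw [hQe, ← Finset.mul_prod_erase N _ hz]
        ring
      · have h1 : f z ∈ S.U b := not_not.1 fun h2 => hz ((hmem z).2 h2)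
        exact (AnalyticOnNhd.eval_polynomial Q z trivial).mul ((h z).ana h1 i)
    obtain ⟨m, C', R, hg⟩ := growth (g := fun z => Q.eval z * S.crd b (f z) i)
      ((mero_poly_inv Q).mul (hi3 i))
    exact End.poly_of_growth m _ hd C' R hg
  choose P hP using hP
  refine ⟨P, Q, hQ0, fun u hu i => ?_⟩
  rw [← hP i u, mul_div_cancel_left₀ _ hu]

/-- EXT at one point -/
theorem ext_loc [CompactSpace X] {b : B} {a : ℂ → V b → ℂ} {z : ℂ}
    (hm : ∀ i, MeromorphicAt (fun w => a w i) z) (hZ : ∀ᶠ w in 𝓝[≠] z, a w ∈ S.Z b) :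
    ∃ F : ℂ → X, S.HolAt F z ∧ ∀ᶠ w in 𝓝[≠] z, S.ι b (a w) = F w := by
  obtain ⟨x, hx⟩ := exists_clusterPt_of_compactSpace (map (fun w => S.ι b (a w)) (𝓝[≠] z))
  have hx' : MapClusterPt x (𝓝[≠] z) (fun w => S.ι b (a w)) := hx
  obtain ⟨g, hg⟩ := S.cover x
  have h1 : ∃ᶠ w in 𝓝[≠] z, S.ι b (a w) ∈ S.U g := hx'.frequently ((S.Uo g).mem_nhds hg)
  have := S.fin b g
  have h2 : ∃ l, ¬ ∀ᶠ w in 𝓝[≠] z, S.ob b g l (a w) = 0 := by
    by_contra hn
    have h0 : ∀ l, ∀ᶠ w in 𝓝[≠] z, S.ob b g l (a w) = 0 := fun l =>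
      not_not.1 fun h => hn ⟨l, h⟩
    obtain ⟨w, h3, h4, h5⟩ := (h1.and_eventually (hZ.and (eventually_all.2 h0))).exists
    obtain ⟨l, hl⟩ := S.same b g (a w) h4 h3
    exact hl (h5 l)
  obtain ⟨l, hl⟩ := h2
  have h3 := ((S.pob b g l).mero hm).eventually_eq_zero_or_eventually_ne_zero.resolve_left hl
  have h4 : ∀ i, MeromorphicAt (fun w => S.crd g (S.ι b (a w)) i) z := fun i =>
    (((S.poa b g l i).mero hm).div ((S.pob b g l).mero hm)).congr (by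
      filter_upwards [hZ, h3] with w h5 h6
      exact ((mem_of_ob h5 h6).2 i).symm)
  have h5 : ∀ i, MapClusterPt (S.crd g x i) (𝓝[≠] z) (fun w => S.crd g (S.ι b (a w)) i) :=
    fun i => hx'.continuousAt_comp (f := fun y => S.crd g y i)
      ((continuous_apply i).continuousAt.comp ((S.crdc g).continuousAt ((S.Uo g).mem_nhds hg)))
  choose c hc1 hc2 hc3 using fun i => ana_of_cluster (h4 i) (h5 i)
  have h6 : ∀ᶠ w in 𝓝[≠] z, (fun i => c i w) ∈ S.Z g ∧ S.ι b (a w) = S.ι g (fun i => c i w) := by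
    filter_upwards [hZ, h3, eventually_all.2 hc2] with w h7 h8 h9
    have h10 : (fun i => c i w) = S.crd g (S.ι b (a w)) := funext fun i => (h9 i).symm
    have h11 := crd_mem (mem_of_ob h7 h8).1
    rw [h10]
    exact ⟨h11.1, h11.2.symm⟩
  refine ⟨fun w => S.ι g (fun i => c i w), ⟨g, fun w i => c i w, hc1, ?_⟩, h6.mono fun w hw => hw.2⟩
  rw [← nhdsNE_sup_pure z, eventually_sup, eventually_pure]
  refine ⟨h6.mono fun w hw => ⟨hw.1, rfl⟩, ?_, rfl⟩
  have h12 : (fun i => c i z) = S.crd g x := funext hc3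
  change (fun i => c i z) ∈ S.Z g
  rw [h12]
  exact (crd_mem hg).1

variable [CompactSpace X] [T2Space X]

/-- EXT for meromorphic coordinates -/
theorem ext_mero {b : B} {a : ℂ → V b → ℂ} {Ω : Set ℂ}
    (hm : ∀ z ∈ Ω, ∀ i, MeromorphicAt (fun w => a w i) z)
    (hZ : ∀ z ∈ Ω, ∀ᶠ w in 𝓝[≠] z, a w ∈ S.Z b) :
    ∃ f : ℂ → X, (∀ z ∈ Ω, S.HolAt f z) ∧ (∀ z ∈ Ω, ∀ᶠ w in 𝓝[≠] z, f w = S.ι b (a w)) ∧
      ∀ z ∈ Ω, ContinuousAt a z → a z ∈ S.Z b → f z = S.ι b (a z) := by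
  have : Nonempty X := ⟨S.ι b 0⟩
  have key : ∀ z ∈ Ω, ∃ F : ℂ → X, S.HolAt F z ∧ (∀ᶠ w in 𝓝[≠] z, S.ι b (a w) = F w) ∧
      F =ᶠ[𝓝 z] fun w => limUnder (𝓝[≠] w) (fun u => S.ι b (a u)) := by
    intro z hz
    obtain ⟨F, h1, h2⟩ := ext_loc (hm z hz) (hZ z hz)
    refine ⟨F, h1, h2, ?_⟩
    filter_upwards [h1.eventually, ev_ne h2] with w h3 h4
    refine (Tendsto.limUnder_eq ?_).symm
    exact (h3.continuousAt.tendsto.mono_left nhdsWithin_le_nhds).congr'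
      (h4.mono fun u hu => hu.symm)
  refine ⟨fun w => limUnder (𝓝[≠] w) (fun u => S.ι b (a u)), fun z hz => ?_, fun z hz => ?_,
    fun z hz hc hz' => ?_⟩
  · obtain ⟨F, h1, -, h3⟩ := key z hz
    exact h1.congr h3
  · obtain ⟨F, -, h2, h3⟩ := key z hz
    filter_upwards [h2, h3.filter_mono nhdsWithin_le_nhds] with w h4 h5
    exact h5.symm.trans h4.symm
  · refine Tendsto.limUnder_eq ?_
    exact (S.ιc b (a z) hz').tendsto.comp (tendsto_nhdsWithin_iff.2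
      ⟨hc.tendsto.mono_left nhdsWithin_le_nhds, hZ z hz⟩)

/-- EXT -/
theorem ext {b : B} {P : V b → ℂ → ℂ} {Q : ℂ → ℂ} {Ω : Set ℂ} (hΩ : IsOpen Ω)
    (hP : ∀ i, DifferentiableOn ℂ (P i) Ω) (hQ : DifferentiableOn ℂ Q Ω)
    (hQ0 : ∀ z ∈ Ω, ∃ᶠ w in 𝓝 z, Q w ≠ 0)
    (hZ : ∀ z ∈ Ω, Q z ≠ 0 → (fun i => P i z / Q z) ∈ S.Z b) :
    ∃ f : ℂ → X, (∀ z ∈ Ω, S.HolAt f z) ∧
      ∀ z ∈ Ω, Q z ≠ 0 → f z = S.ι b (fun i => P i z / Q z) := by
  have hPa : ∀ z ∈ Ω, ∀ i, AnalyticAt ℂ (P i) z := fun z hz i =>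
    (hP i).analyticAt (hΩ.mem_nhds hz)
  have hQa : ∀ z ∈ Ω, AnalyticAt ℂ Q z := fun z hz => hQ.analyticAt (hΩ.mem_nhds hz)
  obtain ⟨f, h1, -, h3⟩ := ext_mero (S := S) (a := fun z i => P i z / Q z) (Ω := Ω)
    (fun z hz i => (hPa z hz i).meromorphicAt.div (hQa z hz).meromorphicAt) (fun z hz => by
      have h4 := (hQa z hz).eventually_eq_zero_or_eventually_ne_zero.resolve_left fun h0 =>
        hQ0 z hz (h0.mono fun w hw => not_not.2 hw)
      filter_upwards [h4, mem_nhdsWithin_of_mem_nhds (hΩ.mem_nhds hz)] with w h5 h6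
      exact hZ w h6 h5)
  refine ⟨f, h1, fun z hz h0 => h3 z hz ?_ (hZ z hz h0)⟩
  exact continuousAt_pi.2 fun i => (hPa z hz i).continuousAt.div (hQa z hz).continuousAt h0

/-- EXT on a connected open set -/
theorem ext_conn {b : B} {P : V b → ℂ → ℂ} {Q : ℂ → ℂ} {Ω : Set ℂ} (hΩ : IsOpen Ω)
    (hc : IsPreconnected Ω) (hP : ∀ i, DifferentiableOn ℂ (P i) Ω) (hQ : DifferentiableOn ℂ Q Ω)
    (hQ0 : ∃ z ∈ Ω, Q z ≠ 0) (hZ : ∀ z ∈ Ω, Q z ≠ 0 → (fun i => P i z / Q z) ∈ S.Z b) :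
    ∃ f : ℂ → X, (∀ z ∈ Ω, S.HolAt f z) ∧
      ∀ z ∈ Ω, Q z ≠ 0 → f z = S.ι b (fun i => P i z / Q z) := by
  refine ext hΩ hP hQ (fun z hz h0 => ?_) hZ
  obtain ⟨z0, h1, h2⟩ := hQ0
  exact h2 ((hQ.analyticOnNhd hΩ).eqOn_zero_of_preconnected_of_eventuallyEq_zero hc hz
    (h0.mono fun w hw => not_not.1 hw) h1)

/-- a rational curve in a chart is a holomorphic map with a limit at infinity -/
theorem rat_ext {b : B} (P : V b → ℂ[X]) {Q : ℂ[X]} (hQ : Q ≠ 0)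
    (hZ : ∀ᶠ u in cofinite, (fun i => (P i).eval u / Q.eval u) ∈ S.Z b) :
    ∃ (f : ℂ → X) (y : X), (∀ z, S.HolAt f z) ∧ Tendsto f (Bornology.cobounded ℂ) (𝓝 y) ∧
      ∀ u, Q.eval u ≠ 0 → (fun i => (P i).eval u / Q.eval u) ∈ S.Z b →
        f u = S.ι b (fun i => (P i).eval u / Q.eval u) := by
  have ha : ∀ (p : ℂ[X]) (z : ℂ), AnalyticAt ℂ (fun u => p.eval u) z := fun p z =>
    AnalyticOnNhd.eval_polynomial p z trivial
  obtain ⟨f, h1, -, h3⟩ := ext_mero (S := S) (a := fun u i => (P i).eval u / Q.eval u)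
    (Ω := univ) (fun z _ i => (ha _ z).meromorphicAt.div (ha _ z).meromorphicAt)
    (fun z _ => hZ.filter_mono (nhdsNE_le_cofinite z))
  have h4 : ∀ u, Q.eval u ≠ 0 → (fun i => (P i).eval u / Q.eval u) ∈ S.Z b →
      f u = S.ι b (fun i => (P i).eval u / Q.eval u) := fun u h0 h5 =>
    h3 u trivial (continuousAt_pi.2 fun i =>
      (ha _ u).continuousAt.div (ha _ u).continuousAt h0) h5
  have hco : Bornology.cobounded ℂ ≤ cofinite := Bornology.le_cofinite ℂ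
  obtain ⟨F, h6, h7⟩ := ext_loc (S := S) (a := fun w i => (P i).eval w⁻¹ / Q.eval w⁻¹) (z := 0)
    (fun i => (mero_poly_inv _).div (mero_poly_inv _))
    (tendsto_inv_ne.eventually (hZ.filter_mono hco))
  refine ⟨f, F 0, fun z => h1 z trivial, ?_, h4⟩
  have h8 : Tendsto (fun u : ℂ => F u⁻¹) (Bornology.cobounded ℂ) (𝓝 (F 0)) :=
    (h6.continuousAt.tendsto.mono_left nhdsWithin_le_nhds).comp End.inv_tendsto
  refine h8.congr' ?_
  have h9 : ∀ᶠ u in cofinite, Q.eval u ≠ 0 := 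
    (Q.finite_setOfPred_isRoot hQ).subset fun u hu => not_not.1 hu
  filter_upwards [End.inv_tendsto.eventually h7, hZ.filter_mono hco, h9.filter_mono hco]
    with u h10 h11 h12
  rw [← h10, h4 u h12 h11, inv_inv]

end Sys

end Pool.Agent.RC.M15
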