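import Pool.Agent.Lib.RC.BlueA

namespace Pool.Agent.Lib.RC.M64

open Set Metric Complex Filter Topology

variable {X : Type} [TopologicalSpace X] {n : ℕ}

theorem cj_true (z : ℂ) : cj true z = -(starRingEnd ℂ z) := rfl
theorem cj_false (z : ℂ) : cj false z = z := rfl

theorem cj_cj (b : Bool) (z : ℂ) : cj b (cj b z) = z := by
  cases b <;> simp [cj]

theorem norm_cj (b : Bool) (z : ℂ) : ‖cj b z‖ = ‖z‖ := by
  cases b <;> simp [cj]

theorem continuous_cj (b : Bool) : Continuous (cj b) := by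
  cases b
  · exact continuous_id
  · exact continuous_conj.neg

/-- `z ↦ star (g (-conj z))` is holomorphic where `g` is -/
theorem diffAt_mirror {g : ℂ → E n} {z : ℂ} (hg : DifferentiableAt ℂ g (cj true z)) :
    DifferentiableAt ℂ (fun w => star (g (cj true w))) z := by
  have h1 : DifferentiableAt ℂ (fun w => g (-w)) (starRingEnd ℂ z) :=
    DifferentiableAt.comp (g := g) (f := fun w : ℂ => -w) (starRingEnd ℂ z) hg
      (differentiableAt_id.neg)
  have h2 := h1.star_conj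
  simp only [conj_conj] at h2
  exact h2

theorem diffOn_mirror {g : ℂ → E n} {U V : Set ℂ} (hV : IsOpen V) (hg : DifferentiableOn ℂ g V)
    (hm : MapsTo (cj true) U V) : DifferentiableOn ℂ (fun w => star (g (cj true w))) U :=
  fun _ hz => (diffAt_mirror (hg.differentiableAt (hV.mem_nhds (hm hz)))).differentiableWithinAt

/-- the mirror image of a holomorphic map is holomorphic -/
theorem hol_mirror {𝒜 : Atlas X n} {G : ℂ → X} {U V : Set ℂ} (hV : IsOpen V) (hG : Hol 𝒜 G V)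
    (hm : MapsTo (cj true) U V) : Hol 𝒜 (fun z => 𝒜.σ (G (cj true z))) U := by
  refine ⟨𝒜.σc.comp_continuousOn (hG.1.comp (continuous_cj true).continuousOn hm), ?_⟩
  intro ψ hψ
  obtain ⟨ψ', hψ', h1, h2, _⟩ := 𝒜.mir ψ hψ
  have h3 := diffOn_mirror (U := U ∩ (fun z => 𝒜.σ (G (cj true z))) ⁻¹' ψ.source)
    (hG.1.isOpen_inter_preimage hV ψ'.open_source) (hG.2 ψ' hψ')
    (fun z hz => ⟨hm hz.1, by rw [h1]; exact hz.2⟩)
  refine h3.congr fun z _ => ?_
  rw [h2, star_star]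

theorem adm_mirror {e : E n} {r : ℝ} {g : ℂ → E n} {v : E n} (h : Adm (star e) r g v) :
    Adm e r (fun w => star (g (cj true w))) (-star v) := by
  have hm : MapsTo (cj true) (ball (0 : ℂ) 1) (ball 0 1) := fun z hz => by
    rwa [mem_ball_zero_iff, norm_cj, ← mem_ball_zero_iff]
  refine ⟨diffOn_mirror isOpen_ball h.1 hm, fun s hs => ?_, by simpa using h.2.2⟩
  have := h.2.1 _ (hm hs)
  rwa [← norm_star, star_sub, star_star] at this

theorem datum_mirror {𝒜 : Atlas X n} {ψ ψ' : Chart X n} (h0 : ψ' ∈ 𝒜.A) (hm : IsMir 𝒜 ψ ψ') {e : E n}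
    {r r' C : ℝ} {Ψ : (ℂ → E n) → E n → ℂ → E n} (h : Datum 𝒜 ψ e r r' C Ψ) :
    Datum 𝒜 ψ' (star e) r r' C (mirΨ Ψ) := by
  obtain ⟨h1, h2, h3⟩ := hm
  have hb : MapsTo (cj true) (ball (0 : ℂ) 1) (ball 0 1) := fun z hz => by
    rwa [mem_ball_zero_iff, norm_cj, ← mem_ball_zero_iff]
  have ho : IsOpen {s : ℂ | 1 / 2 < ‖s‖} := isOpen_lt continuous_const continuous_norm
  refine ⟨h0, h.r0, h.rr, fun y hy => ?_, fun g v ha => ?_, fun g v ha s hs => ?_,
    fun g v g' v' d ha ha' hg hv s hs => ?_, fun g v ha => ?_⟩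
  · have hy' : star y ∈ ψ.target := h.tgt (by
      rw [mem_ball, dist_eq_norm] at hy ⊢
      rwa [← norm_star, star_sub, star_star])
    have hx : 𝒜.σ (ψ.symm (star y)) ∈ ψ'.source := by
      rw [h1, mem_preimage, 𝒜.σσ]; exact ψ.map_target hy'
    have := ψ'.map_source hx
    rwa [h2, 𝒜.σσ, ψ.right_inv hy', star_star] at this
  · exact diffOn_mirror ho (h.hol _ _ (adm_mirror ha)) (fun z hz => by
      simpa only [mem_ofPred_eq, norm_cj] using hz)
  · have := h.bd _ _ (adm_mirror ha) (cj true s) (by rwa [norm_cj])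
    rw [norm_cj] at this
    simpa only [mirΨ, norm_star] using this
  · have := h.lip _ _ _ _ d (adm_mirror ha) (adm_mirror ha') (fun s hs => by
      rw [← star_sub, norm_star]; exact hg _ (hb hs)) (by
      rw [neg_sub_neg, ← star_sub, norm_star, norm_sub_rev]; exact hv) (cj true s)
      (by rwa [norm_cj])
    rw [norm_cj] at this
    simpa only [mirΨ, ← star_sub, norm_star] using this
  · obtain ⟨G, hG, hG'⟩ := h.bub _ _ (adm_mirror ha)
    refine ⟨fun z => 𝒜.σ (G (cj true z)), hol_mirror isOpen_ball hG hb, fun s hs hs' => ?_⟩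
    beta_reduce
    rw [h3, hG' (cj true s) (by rwa [norm_cj]) (by rwa [norm_cj]), cj_cj]
    congr 2
    simp only [mirΨ, star_add, star_star, star_smul, cj_true, smul_neg, inv_neg, neg_smul,
      neg_neg, star_inv₀, RCLike.star_def]

theorem isOpen_good (𝒜 : Atlas X n) : IsOpen (Good 𝒜) := by
  rw [isOpen_iff_mem_nhds]
  rintro x ⟨ψ, e, r, r', C, Ψ, hD, hx, hr⟩
  have ho : IsOpen (ψ.source ∩ ψ ⁻¹' ball e (r / 4)) := ψ.isOpen_inter_preimage isOpen_ball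
  filter_upwards [ho.mem_nhds ⟨hx, mem_ball_iff_norm.2 hr⟩] with y hy
  exact ⟨ψ, e, r, r', C, Ψ, hD, hy.1, mem_ball_iff_norm.1 hy.2⟩

theorem good_sigma (𝒜 : Atlas X n) {x : X} (hx : x ∈ Good 𝒜) : 𝒜.σ x ∈ Good 𝒜 := by
  obtain ⟨ψ, e, r, r', C, Ψ, hD, hx, hr⟩ := hx
  obtain ⟨ψ', hm⟩ := 𝒜.mir ψ hD.mem
  refine ⟨ψ', star e, r, r', C, mirΨ Ψ, datum_mirror hm.1 hm.2 hD, ?_, ?_⟩
  · rw [hm.2.1, mem_preimage, 𝒜.σσ]; exact hx
  · rwa [hm.2.2.1, 𝒜.σσ, ← star_sub, norm_star]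

end Pool.Agent.Lib.RC.M64

namespace Pool.Agent.Lib.RC

open Set Metric Filter Topology

theorem st_MIR64 : St_MIR := fun _ _ _ _ _ _ _ _ _ _ _ hD h0 hm => M64.datum_mirror h0 hm hD

theorem st_STN64 : St_STN := by
  intro n X _ 𝒜 K' hK hG
  classical
  have hG' : ∀ x : K', (x : X) ∈ Good 𝒜 := fun x => hG x.2
  choose ψ e r r' C Ψ hD hs hr using hG'
  have ho : ∀ x, IsOpen ((ψ x).source ∩ ψ x ⁻¹' ball (e x) (r x / 4)) := fun x =>
    (ψ x).isOpen_inter_preimage isOpen_ball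
  obtain ⟨t, ht⟩ := hK.elim_finite_subcover _ ho
    (fun x hx => mem_iUnion.2 ⟨⟨x, hx⟩, hs _, mem_ball_iff_norm.2 (hr _)⟩)
  obtain ⟨L, hLc, hLs, hL⟩ := hK.finite_compact_cover t _ (fun x _ => ho x) ht
  let q : Fin t.card → K' := fun a => (t.equivFin.symm a : K')
  obtain ⟨r0, hr0, hr0'⟩ : ∃ r0 > 0, ∀ a, r0 ≤ r (q a) := by
    have : ∀ᶠ r0 in 𝓝[>] (0 : ℝ), ∀ a, r0 ≤ r (q a) := eventually_all.2 fun a =>
      mem_of_superset (Ioo_mem_nhdsGT (hD (q a)).r0) fun _ h => h.2.le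
    exact (Filter.Eventually.and (self_mem_nhdsWithin : ∀ᶠ a in 𝓝[>] (0 : ℝ), a ∈ Ioi (0 : ℝ))
      this).exists
  obtain ⟨R, hR⟩ := Finite.exists_le fun a => r' (q a)
  obtain ⟨D, hD'⟩ := Finite.exists_le fun a => C (q a)
  refine ⟨t.card, fun a => ψ (q a), fun a => L (q a), fun a => Ψ (q a), r0, R, D, hr0,
    fun x hx => ?_, fun a => ⟨hLc _, fun y hy => (hLs _ hy).1, _, _, _, _, hD (q a), hr0' a,
      hR a, hD' a, fun y hy => (mem_ball_iff_norm.1 (hLs _ hy).2).le⟩⟩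
  rw [hL] at hx
  obtain ⟨y, hy, hxy⟩ := mem_iUnion₂.1 hx
  exact ⟨t.equivFin ⟨y, hy⟩, by simpa [q] using hxy⟩

end Pool.Agent.Lib.RC
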