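import Pool.Agent.Lib.RC.BlueA

namespace Pool.Agent.Lib.RC.NL

open Set Metric Complex Filter Topology

theorem isOpen_Q (κ : ℝ) (j : Cell) : IsOpen (Q κ j) :=
  (isOpen_lt (f := fun z : ℂ => |z.re / κ - j.1|) (by fun_prop) continuous_const).inter
    (isOpen_lt (f := fun z : ℂ => |z.im - j.2|) (by fun_prop) continuous_const)

theorem pt_re (κ : ℝ) (j : Cell) : (pt κ j).re = κ * j.1 := by simp [pt]
theorem pt_im (κ : ℝ) (j : Cell) : (pt κ j).im = j.2 := by simp [pt]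

theorem int_one {a b : ℤ} {x : ℝ} (ha : |x - a| < 4 / 5) (hb : |x - b| < 4 / 5) :
    dist a b ≤ 1 ∧ (a ≠ b → 1 / 5 ≤ |x - a|) := by
  rw [abs_lt] at ha hb
  have h1 : a - b < 2 := by exact_mod_cast (by linarith : (a : ℝ) - b < 2)
  have h2 : b - a < 2 := by exact_mod_cast (by linarith : (b : ℝ) - a < 2)
  refine ⟨?_, fun h => ?_⟩
  · rw [Int.dist_eq, abs_le]
    exact ⟨by exact_mod_cast (by omega : -1 ≤ a - b), by exact_mod_cast (by omega : a - b ≤ 1)⟩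
  · rcases lt_or_gt_of_ne h with h | h
    · have : (a : ℝ) + 1 ≤ b := by exact_mod_cast h
      exact le_abs.2 (Or.inl (by linarith))
    · have : (b : ℝ) + 1 ≤ a := by exact_mod_cast h
      exact le_abs.2 (Or.inr (by linarith))

theorem adj {κ : ℝ} {i j : Cell} {z : ℂ} (hi : z ∈ Q κ i) (hj : z ∈ Q κ j) : dist i j ≤ 1 :=
  max_le (int_one hi.1 hj.1).1 (int_one hi.2 hj.2).1

theorem sep {κ : ℝ} (hκ : 1 ≤ κ) {i j : Cell} {z : ℂ} (hi : z ∈ Q κ i) (hj : z ∈ Q κ j)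
    (h : i ≠ j) : 1 / 5 ≤ ‖z - pt κ i‖ := by
  by_cases h1 : i.1 = j.1
  · have := (int_one hi.2 hj.2).2 fun h2 => h (Prod.ext h1 h2)
    refine this.trans (le_trans (le_of_eq ?_) (abs_im_le_norm _))
    rw [sub_im, pt_im]
  · have := (int_one hi.1 hj.1).2 h1
    refine le_trans ?_ (abs_re_le_norm _)
    have e : (z - pt κ i).re = κ * (z.re / κ - i.1) := by
      rw [sub_re, pt_re]; field_simp
    rw [e, abs_mul, abs_of_pos (by linarith : 0 < κ)]
    nlinarith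

theorem ball_Q {κ : ℝ} (hκ : 1 ≤ κ) (i : Cell) {w : ℂ} (hw : ‖w‖ ≤ 1 / 2) :
    pt κ i + w ∈ Q κ i := by
  have h1 := abs_re_le_norm w
  have h2 := abs_im_le_norm w
  constructor
  · have e : (pt κ i + w).re / κ - i.1 = w.re / κ := by rw [add_re, pt_re]; field_simp; ring
    rw [e, abs_div, abs_of_pos (by linarith : 0 < κ), div_lt_iff₀ (by linarith)]
    linarith
  · rw [add_im, pt_im, add_sub_cancel_left]; linarith

theorem exists_Q (κ : ℝ) (z : ℂ) : ∃ k, z ∈ Q κ k :=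
  ⟨(round (z.re / κ), round z.im), (abs_sub_round _).trans_lt (by norm_num),
    (abs_sub_round _).trans_lt (by norm_num)⟩

theorem cj_cj (b : Bool) (z : ℂ) : cj b (cj b z) = z := by cases b <;> simp [cj]
theorem norm_cj (b : Bool) (z : ℂ) : ‖cj b z‖ = ‖z‖ := by cases b <;> simp [cj]
theorem cj_div (b : Bool) (z : ℂ) (ϱ : ℝ) : cj b (z / ϱ) = cj b z / ϱ := by
  cases b <;> simp [cj, neg_div]
theorem rz_sub (κ : ℝ) (s : Sy) (i : Cell) (z : ℂ) :
    rz κ s z - pt κ (rc s i) = cj s.1 (z - pt κ i) := by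
  obtain ⟨b, a⟩ := s
  cases b <;> simp [rz, rc, cj, pt] <;> ring
theorem rz_add (κ : ℝ) (s : Sy) (i : Cell) (ϱ : ℝ) (w : ℂ) :
    rz κ s (pt κ i + ϱ * cj s.1 w) = pt κ (rc s i) + ϱ * w := by
  obtain ⟨b, a⟩ := s
  cases b <;> simp [rz, rc, cj, pt] <;> ring
theorem rz_Q {κ : ℝ} (hκ : 1 ≤ κ) (s : Sy) {i : Cell} {z : ℂ} (h : z ∈ Q κ i) :
    rz κ s z ∈ Q κ (rc s i) := by
  obtain ⟨b, a⟩ := s
  have h0 : κ ≠ 0 := by linarith
  obtain ⟨h1, h2⟩ := h
  cases b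
  · refine ⟨lt_of_eq_of_lt ?_ h1, lt_of_eq_of_lt ?_ h2⟩
    · congr 1; simp [rz, rc, cj, pt]; field_simp; ring
    · congr 1; simp [rz, rc, cj, pt]
  · refine ⟨lt_of_eq_of_lt ?_ h1, lt_of_eq_of_lt ?_ h2⟩
    · rw [← abs_neg]; congr 1; simp [rz, rc, cj, pt]; field_simp; ring
    · congr 1; simp [rz, rc, cj, pt]

variable {n : ℕ}

theorem st_add (b : Bool) (x y : E n) : st b (x + y) = st b x + st b y := by cases b <;> simp [st]
theorem st_sub (b : Bool) (x y : E n) : st b (x - y) = st b x - st b y := by cases b <;> simp [st]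
theorem st_zero (b : Bool) : st b (0 : E n) = 0 := by cases b <;> simp [st]
theorem sv_add (b : Bool) (x y : E n) : sv b (x + y) = sv b x + sv b y := by
  cases b <;> simp [sv, add_comm]
theorem st_res (b : Bool) (w : ℂ) (x : E n) : (cj b w)⁻¹ • sv b x = st b (w⁻¹ • x) := by
  cases b <;> simp [st, sv, cj]
theorem sv_smul (b : Bool) (ϱ : ℝ) (x : E n) : (ϱ : ℂ)⁻¹ • sv b x = sv b ((ϱ : ℂ)⁻¹ • x) := by
  cases b <;> simp [sv]
theorem cont_st (b : Bool) : Continuous (st b : E n → E n) := by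
  cases b
  · exact continuous_id
  · exact continuous_star
theorem cont_sv (b : Bool) : Continuous (sv b : E n → E n) := by
  cases b
  · exact continuous_id
  · exact continuous_star.neg

theorem fderiv_st (b : Bool) {T T' : E n → E n} {y : E n} (hT : DifferentiableAt ℂ T y)
    (h : ∀ y, T' (st b y) = st b (T y)) (x : E n) :
    fderiv ℂ T' (st b y) (st b x) = st b (fderiv ℂ T y x) := by
  cases b
  · obtain rfl : T' = T := funext h
    rfl
  · obtain rfl : T' = star ∘ T ∘ star := funext fun y => by simpa [st] using h (star y)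
    simp [st, hT.hasFDerivAt.star_star.fderiv]

variable {X : Type} [TopologicalSpace X] {𝒜 : Atlas X n}

def HolAt (𝒜 : Atlas X n) (f : ℂ → X) (z : ℂ) : Prop :=
  ContinuousAt f z ∧ ∀ ψ ∈ 𝒜.A, f z ∈ ψ.source → DifferentiableAt ℂ (fun z => ψ (f z)) z

theorem hol_iff {f : ℂ → X} {Ω : Set ℂ} (hΩ : IsOpen Ω) : Hol 𝒜 f Ω ↔ ∀ z ∈ Ω, HolAt 𝒜 f z := by
  refine ⟨fun h z hz => ?_, fun h => ⟨fun z hz => (h z hz).1.continuousWithinAt,
    fun ψ hψ z hz => ((h z hz.1).2 ψ hψ hz.2).differentiableWithinAt⟩⟩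
  have hc := h.1.continuousAt (hΩ.mem_nhds hz)
  exact ⟨hc, fun ψ hψ hs => (h.2 ψ hψ).differentiableAt
    (inter_mem (hΩ.mem_nhds hz) (hc (ψ.open_source.mem_nhds hs)))⟩

theorem HolAt.congr {f g : ℂ → X} {z : ℂ} (h : HolAt 𝒜 f z) (e : g =ᶠ[𝓝 z] f) : HolAt 𝒜 g z :=
  ⟨h.1.congr e.symm, fun ψ hψ hs => (h.2 ψ hψ (e.eq_of_nhds ▸ hs)).congr_of_eventuallyEq
    (e.mono fun _ h => congrArg ψ h)⟩

theorem HolAt.comp {f : ℂ → X} {u : ℂ → ℂ} {z : ℂ} (h : HolAt 𝒜 f (u z))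
    (hu : DifferentiableAt ℂ u z) : HolAt 𝒜 (fun z => f (u z)) z :=
  ⟨h.1.comp hu.continuousAt, fun ψ hψ hs => (h.2 ψ hψ hs).comp z hu⟩

theorem holAt_symm {ψ : Chart X n} (hψ : ψ ∈ 𝒜.A) {F : ℂ → E n} {z : ℂ}
    (hF : DifferentiableAt ℂ F z) (ht : F z ∈ ψ.target) : HolAt 𝒜 (fun z => ψ.symm (F z)) z :=
  ⟨(ψ.continuousAt_symm ht).comp hF.continuousAt,
    fun ψ' hψ' hs => (𝒜.tr ψ hψ ψ' hψ' _ ht hs).differentiableAt.comp z hF⟩

theorem sx_sx (b : Bool) (x : X) : 𝒜.sx b (𝒜.sx b x) = x := by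
  cases b <;> simp [Atlas.sx, 𝒜.σσ]

theorem holAt_mirror {f : ℂ → X} (h : ∀ z, HolAt 𝒜 f z) (κ : ℝ) (s : Sy) (z : ℂ) :
    HolAt 𝒜 (fun z => 𝒜.sx s.1 (f (rz κ s z))) z := by
  obtain ⟨b, a⟩ := s
  cases b
  · exact HolAt.comp (u := fun z => z + pt κ a) (h _) (by fun_prop)
  · have h1 : HolAt 𝒜 (fun w => f (-w + pt κ a)) (starRingEnd ℂ z) :=
      HolAt.comp (u := fun w => -w + pt κ a) (h _) (by fun_prop)
    refine ⟨𝒜.σc.continuousAt.comp (h1.1.comp continuous_conj.continuousAt), fun ψ hψ hs => ?_⟩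
    obtain ⟨ψ', hψ', h2, h3, -⟩ := 𝒜.mir ψ hψ
    have h4 := (h1.2 ψ' hψ' (by rw [h2]; exact hs)).star_conj
    rw [conj_conj] at h4
    refine h4.congr_of_eventuallyEq (Eventually.of_forall fun w => ?_)
    simp [h3, Atlas.sx, rz, cj]

theorem hol_id [T2Space X] {f g : ℂ → X} (hf : ∀ z, HolAt 𝒜 f z) (hg : ∀ z, HolAt 𝒜 g z) {z0 : ℂ}
    (h0 : f =ᶠ[𝓝 z0] g) : f = g := by
  have hS : IsClopen {z | f =ᶠ[𝓝 z] g} := by
    refine ⟨isClosed_of_closure_subset fun z hz => ?_, isOpen_setOfPred_eventually_nhds⟩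
    have e : f z = g z := by
      refine closure_minimal (fun w hw => hw.eq_of_nhds) (isClosed_eq ?_ ?_) hz
      exacts [continuous_iff_continuousAt.2 fun z => (hf z).1,
        continuous_iff_continuousAt.2 fun z => (hg z).1]
    obtain ⟨ψ, hψ, hs⟩ := 𝒜.cover (f z)
    obtain ⟨r, hr, hb⟩ := Metric.mem_nhds_iff.1 (inter_mem ((hf z).1 (ψ.open_source.mem_nhds hs))
      ((hg z).1 (ψ.open_source.mem_nhds (e ▸ hs))))
    obtain ⟨w, hw, hw'⟩ := mem_closure_iff_nhds.1 hz _ (ball_mem_nhds z hr)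
    have a1 : AnalyticOnNhd ℂ (fun z => ψ (f z)) (ball z r) := DifferentiableOn.analyticOnNhd
      (fun w hw => ((hf w).2 ψ hψ (hb hw).1).differentiableWithinAt) isOpen_ball
    have a2 : AnalyticOnNhd ℂ (fun z => ψ (g z)) (ball z r) := DifferentiableOn.analyticOnNhd
      (fun w hw => ((hg w).2 ψ hψ (hb hw).2).differentiableWithinAt) isOpen_ball
    have := a1.eqOn_of_preconnected_of_eventuallyEq a2 (convex_ball z r).isPreconnected hw
      (hw'.mono fun _ h => congrArg ψ h)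
    filter_upwards [ball_mem_nhds z hr] with w hw using ψ.injOn (hb hw).1 (hb hw).2 (this hw)
  exact funext fun z => EventuallyEq.eq_of_nhds
    (show z ∈ {z | f =ᶠ[𝓝 z] g} from (hS.eq_univ ⟨z0, h0⟩).symm ▸ mem_univ z)

end Pool.Agent.Lib.RC.NL
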