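import Pool.Agent.Lib.RC.NL1

namespace Pool.Agent.Lib.RC.NL

open Set Metric Complex Filter Topology

structure Cst (C1 C2 M ε r r' C δ0 η m δs ϱ : ℝ) : Prop where
  C1' : 1 ≤ C1
  C2' : 1 ≤ C2
  M' : 10 ≤ M
  e0 : 0 ≤ ε
  e1 : ε * C1 ≤ 1
  stp : C2 * (ε * C1 + 1 / M) + 7 * ε * C2 ≤ 3 / 8
  r0 : 0 < r
  C0 : 0 ≤ C
  η0 : 0 < η
  ds : δs = (2 * C1 + 5) * η
  hm : m = 2 * C2 * δs
  hρ : ϱ * r = m
  ρ0 : 0 < ϱ
  ρ1 : ϱ ≤ 1 / 10
  t1 : 25 * r' * ϱ ^ 2 ≤ η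
  t2 : (C1 + 1) * (25 * C * ϱ) * C2 ≤ 1 / 8
  ad : η + m ≤ r / 2
  bl : 2 * η + 6 * m + δs < δ0

variable {n : ℕ} {X : Type} [TopologicalSpace X]

noncomputable def loc (K : Comb) (ϱ : ℝ) (g : Cell → ℂ → E n) (i : Cell) : ℂ → E n :=
  fun s => g i (pt K.κ i + ϱ * s)

open Classical in
noncomputable def tau (K : Comb) (Ψ : Cell → (ℂ → E n) → E n → ℂ → E n) (ϱ : ℝ)
    (g : Cell → ℂ → E n) (v : Cell → E n) (i : Cell) (z : ℂ) : E n :=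
  if K.pole i then Ψ i (loc K ϱ g i) ((ϱ : ℂ)⁻¹ • v i) ((z - pt K.κ i) / ϱ) else 0

noncomputable def FF (K : Comb) (Ψ : Cell → (ℂ → E n) → E n → ℂ → E n) (ϱ : ℝ)
    (g : Cell → ℂ → E n) (v : Cell → E n) (i : Cell) (z : ℂ) : E n :=
  g i z + (z - pt K.κ i)⁻¹ • v i + tau K Ψ ϱ g v i z

noncomputable def TT (ψ : Cell → Chart X n) (i k : Cell) : E n → E n :=
  fun y => ψ i ((ψ k).symm y)

noncomputable def LL (ψ : Cell → Chart X n) (e : Cell → E n) (i k : Cell) : E n →L[ℂ] E n :=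
  fderiv ℂ (TT ψ i k) (e k)

noncomputable def mis (K : Comb) (ψ : Cell → Chart X n) (F : Cell → ℂ → E n) (i k : Cell) :
    ℂ → E n :=
  if K.cls i = K.cls k then 0 else fun z => TT ψ i k (F k z) - F i z

def Gd (K : Comb) (i : Cell) (z : ℂ) : Prop := z ∈ Q K.κ i ∧ (K.pole i → 1 / 5 ≤ ‖z - pt K.κ i‖)

structure Nr (K : Comb) (g0 : Cell → ℂ → E n) (μ : ℝ) (g : Cell → ℂ → E n) (v : Cell → E n) :
    Prop where
  st : State K g v
  gb : ∀ i, ∀ z ∈ Q K.κ i, ‖g i z - g0 i z‖ ≤ μ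
  vb : ∀ i, ‖v i‖ ≤ μ
  dp : ∀ i (D : ℝ), 1 ≤ D → (∀ j, dist j i ≤ D → K.cls j = K.cls i) →
    ∀ z ∈ Q K.κ i, ‖g i z - g0 i z‖ ≤ μ / D

def Mis (K : Comb) (ψ : Cell → Chart X n) (F : Cell → ℂ → E n) (δ : ℝ) : Prop :=
  ∀ i k, ∀ z ∈ Q K.κ i ∩ Q K.κ k, ‖mis K ψ F i k z‖ ≤ δ

theorem gd_of {K : Comb} {i k : Cell} {z : ℂ} (hi : z ∈ Q K.κ i) (hk : z ∈ Q K.κ k) (h : i ≠ k) :
    Gd K i z := ⟨hi, fun _ => sep K.κ1 hi hk h⟩

theorem res_le {K : Comb} {i : Cell} {z : ℂ} (hz : Gd K i z) {w : E n} (h0 : ¬ K.pole i → w = 0) :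
    ‖(z - pt K.κ i)⁻¹ • w‖ ≤ 5 * ‖w‖ := by
  by_cases hp : K.pole i
  · rw [norm_smul, norm_inv]
    refine mul_le_mul_of_nonneg_right ?_ (norm_nonneg _)
    rw [inv_le_comm₀ (by linarith [hz.2 hp]) (by norm_num)]
    linarith [hz.2 hp]
  · simp [h0 hp]

variable {𝒜 : Atlas X n} {K : Comb} {C1 C2 M ε r r' C δ0 η m δs ϱ : ℝ} {ψ : Cell → Chart X n}
  {e : Cell → E n} {g0 : Cell → ℂ → E n} {Ψ : Cell → (ℂ → E n) → E n → ℂ → E n}
  {μ μ' : ℝ} {g g' : Cell → ℂ → E n} {v v' : Cell → E n}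

theorem Cst.ds0 (c : Cst C1 C2 M ε r r' C δ0 η m δs ϱ) : 0 < δs := by
  rw [c.ds]; have := c.C1'; have := c.η0; positivity

theorem Cst.m0 (c : Cst C1 C2 M ε r r' C δ0 η m δs ϱ) : 0 < m := by
  rw [c.hm]; have := c.C2'; have := c.ds0; positivity

theorem Cst.ε1 (c : Cst C1 C2 M ε r r' C δ0 η m δs ϱ) : ε ≤ 1 := by
  nlinarith [c.e0, c.e1, c.C1']

theorem Cst.locQ (c : Cst C1 C2 M ε r r' C δ0 η m δs ϱ) (i : Cell) {s : ℂ} (hs : s ∈ ball (0 : ℂ) 1) :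
    pt K.κ i + ϱ * s ∈ Q K.κ i := by
  refine ball_Q K.κ1 i ?_
  rw [norm_mul, norm_real, Real.norm_eq_abs, abs_of_pos c.ρ0]
  have := mem_ball_zero_iff.1 hs
  nlinarith [c.ρ0, c.ρ1, norm_nonneg s]

theorem Cst.nd (c : Cst C1 C2 M ε r r' C δ0 η m δs ϱ) (w : ℂ) : ‖w / ϱ‖ = ‖w‖ / ϱ := by
  rw [norm_div, norm_real, Real.norm_eq_abs, abs_of_pos c.ρ0]

theorem Cst.ns (c : Cst C1 C2 M ε r r' C δ0 η m δs ϱ) (w : E n) : ‖(ϱ : ℂ)⁻¹ • w‖ = ‖w‖ / ϱ := by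
  rw [norm_smul, norm_inv, norm_real, Real.norm_eq_abs, abs_of_pos c.ρ0, inv_mul_eq_div]

theorem Cst.far (c : Cst C1 C2 M ε r r' C δ0 η m δs ϱ) {w : ℂ} (hw : 1 / 5 ≤ ‖w‖) (a : ℝ)
    (ha : 0 ≤ a) : 1 / 2 < ‖w / ϱ‖ ∧ a / ‖w / ϱ‖ ^ 2 ≤ 25 * a * ϱ ^ 2 := by
  have := c.ρ0
  have := c.ρ1
  rw [c.nd]
  refine ⟨by rw [lt_div_iff₀ c.ρ0]; linarith, ?_⟩
  rw [div_pow, div_div_eq_mul_div, div_le_iff₀ (by positivity)]
  have h1 : 1 ≤ 25 * ‖w‖ ^ 2 := by nlinarith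
  nlinarith [mul_nonneg ha (sq_nonneg ϱ)]

section
variable (H : NLHyp 𝒜 K C1 M ε r r' C δ0 η ψ e g0 Ψ) (c : Cst C1 C2 M ε r r' C δ0 η m δs ϱ)
include H c

theorem adm (h : Nr K g0 μ g v) (hμ : μ ≤ m) {i : Cell} {e' : E n} {ri : ℝ} (hr : r ≤ ri)
    (he : ‖e i - e'‖ ≤ ri / 4) : Adm e' ri (loc K ϱ g i) ((ϱ : ℂ)⁻¹ • v i) := by
  refine ⟨(h.st.hol i).comp (by fun_prop) fun s hs => c.locQ i hs, fun s hs => ?_, ?_⟩
  · have h1 := h.gb i _ (c.locQ i hs)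
    have h2 := H.g0b i _ (c.locQ i hs)
    have h3 := norm_sub_le_norm_sub_add_norm_sub (loc K ϱ g i s) (g0 i (pt K.κ i + ϱ * s)) (e i)
    have h4 := norm_sub_le_norm_sub_add_norm_sub (loc K ϱ g i s) (e i) e'
    have := c.ad
    have := c.r0
    simp only [loc] at h3 h4 ⊢
    linarith
  · rw [c.ns, div_le_iff₀ c.ρ0]
    nlinarith [h.vb i, c.hρ, c.ρ0]

theorem tau_diff (h : Nr K g0 μ g v) (hμ : μ ≤ m) {i : Cell} {z : ℂ}
    (hz : K.pole i → 1 / 2 < ‖(z - pt K.κ i) / ϱ‖) : DifferentiableAt ℂ (tau K Ψ ϱ g v i) z := by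
  unfold tau
  by_cases hp : K.pole i
  · obtain ⟨e', ri, ri', Ci, D, h1, -, -, h4⟩ := H.dat i hp
    simp only [if_pos hp]
    exact ((D.hol _ _ (adm H c h hμ h1 h4)).differentiableAt ((isOpen_lt continuous_const
      continuous_norm).mem_nhds (hz hp))).comp z (f := fun z => (z - pt K.κ i) / ϱ) (by fun_prop)
  · simp only [if_neg hp]; fun_prop

theorem F_diff (h : Nr K g0 μ g v) (hμ : μ ≤ m) {i : Cell} {z : ℂ} (hq : z ∈ Q K.κ i)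
    (hz : K.pole i → 1 / 2 < ‖(z - pt K.κ i) / ϱ‖) : DifferentiableAt ℂ (FF K Ψ ϱ g v i) z := by
  refine (((h.st.hol i).differentiableAt ((isOpen_Q _ _).mem_nhds hq)).add ?_).add
    (tau_diff H c h hμ hz)
  by_cases hp : K.pole i
  · refine (DifferentiableAt.inv (by fun_prop) fun h0 => ?_).smul_const _
    have := hz hp
    rw [h0] at this
    norm_num at this
  · simp [h.st.np i hp]

theorem F_gd (h : Nr K g0 μ g v) (hμ : μ ≤ m) {i : Cell} {z : ℂ} (hz : Gd K i z) :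
    DifferentiableAt ℂ (FF K Ψ ϱ g v i) z ∧ ‖FF K Ψ ϱ g v i z - g0 i z‖ ≤ η + 6 * μ ∧
      ‖FF K Ψ ϱ g v i z - e i‖ ≤ 2 * η + 6 * μ := by
  have h1 : ‖tau K Ψ ϱ g v i z‖ ≤ η := by
    unfold tau
    split_ifs with hp
    · obtain ⟨e', ri, ri', Ci, D, h1, h2, -, h4⟩ := H.dat i hp
      obtain ⟨h5, h6⟩ := c.far (hz.2 hp) ri' (D.r0.le.trans D.rr)
      refine ((D.bd _ _ (adm H c h hμ h1 h4) _ h5).trans h6).trans (le_trans ?_ c.t1)
      gcongr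
    · simpa using c.η0.le
  have h2 := res_le hz (h.st.np i)
  have h3 : ‖FF K Ψ ϱ g v i z - g0 i z‖ ≤ η + 6 * μ := by
    have : FF K Ψ ϱ g v i z - g0 i z =
      g i z - g0 i z + (z - pt K.κ i)⁻¹ • v i + tau K Ψ ϱ g v i z := by unfold FF; abel
    rw [this]
    linarith [norm_add₃_le (a := g i z - g0 i z) (b := (z - pt K.κ i)⁻¹ • v i)
      (c := tau K Ψ ϱ g v i z), h.gb i z hz.1, h.vb i]
  refine ⟨F_diff H c h hμ hz.1 fun hp => (c.far (hz.2 hp) 0 le_rfl).1, h3, ?_⟩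
  linarith [norm_sub_le_norm_sub_add_norm_sub (FF K Ψ ϱ g v i z) (g0 i z) (e i), H.g0b i z hz.1]

theorem F_ball (h : Nr K g0 μ g v) (hμ : μ ≤ m) {i : Cell} {z : ℂ} (hz : Gd K i z) :
    FF K Ψ ϱ g v i z ∈ ball (e i) δ0 := by
  rw [mem_ball, dist_eq_norm]
  linarith [(F_gd H c h hμ hz).2.2, c.bl, c.ds0]

theorem tau_lip (h : Nr K g0 μ g v) (hμ : μ ≤ m) (h' : Nr K g0 μ' g' v') (hμ' : μ' ≤ m) {d : ℝ}
    {i : Cell} (hg : ∀ z ∈ Q K.κ i, ‖g' i z - g i z‖ ≤ d) (hv : ‖v' i - v i‖ ≤ d) {z : ℂ}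
    (hz : Gd K i z) : ‖tau K Ψ ϱ g' v' i z - tau K Ψ ϱ g v i z‖ ≤ 25 * C * ϱ * d := by
  have d0 : 0 ≤ d := (norm_nonneg _).trans hv
  have := c.ρ0
  have := c.C0
  unfold tau
  split_ifs with hp
  · obtain ⟨e', ri, ri', Ci, D, h1, -, h3, h4⟩ := H.dat i hp
    obtain ⟨h5, h6⟩ := c.far (hz.2 hp) (C * (d / ϱ)) (by positivity)
    refine (D.lip _ _ _ _ (d / ϱ) (adm H c h' hμ' h1 h4) (adm H c h hμ h1 h4) (fun s hs => ?_) ?_
      _ h5).trans (le_trans ?_ (h6.trans_eq ?_))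
    · refine (hg _ (c.locQ i hs)).trans ?_
      rw [le_div_iff₀ c.ρ0]; nlinarith [c.ρ1]
    · rw [← smul_sub, c.ns]; gcongr
    · gcongr
    · field_simp
  · simp only [sub_zero, norm_zero]; positivity

omit c in
theorem T_diff {i k : Cell} (hd : dist i k ≤ M) {y : E n} (hy : y ∈ ball (e k) δ0) :
    DifferentiableAt ℂ (TT ψ i k) y :=
  (𝒜.tr _ (H.mem k) _ (H.mem i) y (H.tgt k hy) (H.src i k hd y hy)).differentiableAt

omit c in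
theorem T_app {i k : Cell} (hd : dist i k ≤ M) {y y' : E n} (hy : y ∈ ball (e k) δ0)
    (hy' : y' ∈ ball (e k) δ0) :
    ‖TT ψ i k y - TT ψ i k y' - LL ψ e i k (y - y')‖ ≤ ε * ‖y - y'‖ :=
  (convex_ball (e k) δ0).norm_image_sub_le_of_norm_fderiv_le' (fun _ hx => T_diff H hd hx)
    (H.uc i k hd) hy' hy

omit c in
theorem T_lip {i k : Cell} (hd : dist i k ≤ M) {y y' : E n} (hy : y ∈ ball (e k) δ0)
    (hy' : y' ∈ ball (e k) δ0) : ‖TT ψ i k y - TT ψ i k y'‖ ≤ (C1 + ε) * ‖y - y'‖ := by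
  have h1 := T_app H hd hy hy'
  have h2 := (LL ψ e i k).le_of_opNorm_le (H.Lb i k hd) (y - y')
  linarith [norm_sub_norm_le (TT ψ i k y - TT ψ i k y') (LL ψ e i k (y - y'))]

omit c in
theorem T_comp {i j k : Cell} (hd : dist j k ≤ M) {y : E n} (hy : y ∈ ball (e k) δ0) :
    TT ψ i j (TT ψ j k y) = TT ψ i k y := by
  unfold TT; rw [(ψ j).left_inv (H.src j k hd y hy)]

omit H c in
theorem F_cl (h : State K g v) {i i' : Cell} (hc : K.cls i = K.cls i') :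
    FF K Ψ ϱ g v i = FF K Ψ ϱ g v i' := by
  by_cases hi : i = i'
  · rw [hi]
  · have h1 : ¬ K.pole i := fun hp => hi (K.sing _ _ hp hc)
    have h2 : ¬ K.pole i' := fun hp => hi (K.sing _ _ hp hc.symm).symm
    funext z
    simp [FF, tau, h1, h2, h.np i h1, h.np i' h2, h.cl i i' hc]

theorem mis_eq (h : Nr K g0 μ g v) (hμ : μ ≤ m) {i k : Cell} {z : ℂ} (hk : Gd K k z) :
    mis K ψ (FF K Ψ ϱ g v) i k z = TT ψ i k (FF K Ψ ϱ g v k z) - FF K Ψ ϱ g v i z := by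
  unfold mis
  split_ifs with hc
  · rw [F_cl h.st hc, TT, H.cl i k hc, (ψ k).right_inv (H.tgt k (F_ball H c h hμ hk))]; simp
  · rfl

theorem F_sym (h : Nr K g0 μ g v) (hμ : μ ≤ m) {s : Sy} (hs : s ∈ K.G) {i : Cell} {z : ℂ}
    (hz : Gd K i z) : FF K Ψ ϱ g v (rc s i) (rz K.κ s z) = st s.1 (FF K Ψ ϱ g v i z) := by
  unfold FF
  rw [st_add, st_add, h.st.sg s hs i z hz.1, h.st.sr s hs i, rz_sub, st_res]
  congr 1
  unfold tau
  by_cases hp : K.pole i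
  · have hp' := (K.Gpole s hs i).2 hp
    rw [if_pos hp, if_pos hp', ← H.sΨ s hs i hp, rz_sub, ← cj_div]
    obtain ⟨e', ri, ri', Ci, D, h1, -, -, h4⟩ := H.dat _ hp'
    have a1 := adm H c h hμ h1 h4
    have e1 : ∀ w ∈ ball (0 : ℂ) 1, loc K ϱ g (rc s i) w = st s.1 (loc K ϱ g i (cj s.1 w)) :=
      fun w hw => by
        unfold loc
        rw [← h.st.sg s hs i _ (c.locQ i (by simpa [norm_cj] using hw)), rz_add]
    rw [h.st.sr s hs i, sv_smul] at a1 ⊢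
    have := D.lip _ _ _ _ 0 a1 ⟨a1.1.congr fun w hw => (e1 w hw).symm,
      fun w hw => e1 w hw ▸ a1.2.1 w hw, a1.2.2⟩ (fun w hw => by simp [e1 w hw]) (by simp)
      (cj s.1 ((z - pt K.κ i) / ϱ)) (by rw [norm_cj]; exact (c.far (hz.2 hp) 0 le_rfl).1)
    simpa [sub_eq_zero] using this
  · rw [if_neg hp, if_neg fun h => hp ((K.Gpole s hs i).1 h), st_zero]

omit c in
theorem T_sym {s : Sy} (hs : s ∈ K.G) (i k : Cell) (y : E n) :
    TT ψ (rc s i) (rc s k) (st s.1 y) = st s.1 (TT ψ i k y) := by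
  unfold TT; rw [H.sψ' s hs, H.sψ s hs]

theorem linHyp (h : Nr K g0 μ g v) (hμ : μ ≤ m) {δ : ℝ} (hδ : δ ≤ δs)
    (hm : Mis K ψ (FF K Ψ ϱ g v) δ) :
    LinHyp K C1 M (ε * C1) δ (LL ψ e) (mis K ψ (FF K Ψ ϱ g v)) := by
  have M1 : (1 : ℝ) ≤ M := by linarith [c.M']
  have d0 : 0 < δ0 := by linarith [c.bl, c.η0, c.m0, c.ds0]
  refine ⟨fun i i' k hc => by unfold LL TT; rw [H.cl i i' hc], fun i i' k hc => ?_,
    fun i k hc => if_pos hc, fun i k => ?_, hm, H.Lb, fun i j k hij hik hjk => ?_,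
    fun i j k z hz => ?_, fun s hs i k hd x => ?_, fun s hs i k z hz => ?_⟩
  · unfold mis TT; rw [hc, H.cl i i' hc, F_cl h.st hc]
  · unfold mis
    split_ifs with hc
    · exact differentiableOn_const 0
    · have hn : i ≠ k := fun h => hc (h ▸ rfl)
      intro z hz
      have gk := gd_of hz.2 hz.1 hn.symm
      exact (((T_diff H ((adj hz.1 hz.2).trans M1) (F_ball H c h hμ gk)).comp z
        (F_gd H c h hμ gk).1).sub (F_gd H c h hμ (gd_of hz.1 hz.2 hn)).1).differentiableWithinAt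
  · have hy : TT ψ j k (e k) ∈ ball (e j) δ0 := by
      rw [mem_ball, dist_eq_norm]
      exact (H.ctr j k hjk).trans_lt (by linarith [c.bl, c.η0, c.m0, c.ds0])
    have e1 : LL ψ e i k = (fderiv ℂ (TT ψ i j) (TT ψ j k (e k))).comp (LL ψ e j k) := by
      rw [LL, LL, ← fderiv_comp _ (T_diff H (hij.trans M1) hy) (T_diff H hjk (mem_ball_self d0))]
      refine EventuallyEq.fderiv_eq ?_
      filter_upwards [ball_mem_nhds (e k) d0] with y hy using (T_comp H hjk hy).symm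
    rw [e1, ← ContinuousLinearMap.sub_comp]
    refine (ContinuousLinearMap.opNorm_comp_le _ _).trans
      (mul_le_mul ?_ (H.Lb j k hjk) (norm_nonneg _) c.e0)
    rw [norm_sub_rev]; exact H.uc i j (hij.trans M1) _ hy
  · obtain ⟨⟨hi, hj⟩, hk⟩ := hz
    have δ0' : 0 ≤ δ := (norm_nonneg _).trans (hm i k z ⟨hi, hk⟩)
    have := c.e0
    have := c.C1'
    by_cases hjk : j = k
    · subst hjk
      simp only [mis, if_true, Pi.zero_apply, map_zero, sub_self]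
      simp only [norm_zero]; positivity
    have gj := gd_of hj hk hjk
    have gk := gd_of hk hj (Ne.symm hjk)
    have b := hm j k z ⟨hj, hk⟩
    rw [mis_eq H c h hμ gk] at b ⊢
    rw [mis_eq H c h hμ gk, mis_eq H c h hμ gj,
      ← T_comp H (i := i) ((adj hj hk).trans M1) (F_ball H c h hμ gk), sub_sub_sub_cancel_right]
    refine (T_app H ((adj hi hj).trans M1) ?_ (F_ball H c h hμ gj)).trans ?_
    · rw [mem_ball, dist_eq_norm]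
      linarith [norm_sub_le_norm_sub_add_norm_sub (TT ψ j k (FF K Ψ ϱ g v k z))
        (FF K Ψ ϱ g v j z) (e j), (F_gd H c h hμ gj).2.2, c.bl]
    · nlinarith [mul_nonneg c.e0 δ0', mul_le_mul_of_nonneg_left b c.e0]
  · unfold LL
    rw [H.se s hs k]
    exact fderiv_st _ (T_diff H hd (mem_ball_self d0)) (T_sym H hs i k) x
  · unfold mis
    by_cases hc : K.cls i = K.cls k
    · rw [if_pos hc, if_pos ((K.Gcls s hs i k).2 hc)]; exact (st_zero _).symm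
    · have hn : i ≠ k := fun h => hc (h ▸ rfl)
      rw [if_neg hc, if_neg fun h => hc ((K.Gcls s hs i k).1 h)]
      rw [F_sym H c h hμ hs (gd_of hz.1 hz.2 hn), F_sym H c h hμ hs (gd_of hz.2 hz.1 hn.symm),
        T_sym H hs, st_sub]

end

end Pool.Agent.Lib.RC.NL
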