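import Mathlib

/-! Homogenisation of polynomials, countable coefficient rings, and validity of theta data. -/

namespace Pool.Agent.RC.P77

open MvPolynomial Set Filter Topology

section hg
variable {R A B V : Type} [CommRing R] [CommRing A] [CommRing B] [Algebra R A] [Algebra R B]

/-- homogenisation of `P` in degree `N`, evaluated at `(y0, y)` -/
noncomputable def hg (N : ℕ) (P : MvPolynomial V R) (y0 : A) (y : V → A) : A :=
  ∑ α ∈ P.support, algebraMap R A (P.coeff α) * y0 ^ (N - α.degree) * ∏ i ∈ α.support, y i ^ α i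

theorem map_hg (φ : A →ₐ[R] B) (N : ℕ) (P : MvPolynomial V R) (y0 : A) (y : V → A) :
    φ (hg N P y0 y) = hg N P (φ y0) (fun i => φ (y i)) := by
  simp only [hg, map_sum, map_mul, map_pow, map_prod, AlgHom.commutes]

theorem hg_smul {N : ℕ} {P : MvPolynomial V R} (h : P.totalDegree ≤ N) (t y0 : A) (y : V → A) :
    hg N P (t * y0) (fun i => t * y i) = t ^ N * hg N P y0 y := by
  simp only [hg, Finset.mul_sum]
  refine Finset.sum_congr rfl fun α hα => ?_
  have h1 : α.degree ≤ N := (le_totalDegree hα).trans h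
  have h2 : t ^ N = t ^ (N - α.degree) * t ^ α.degree := by
    rw [← pow_add, Nat.sub_add_cancel h1]
  simp only [mul_pow, Finset.prod_mul_distrib, Finset.prod_pow_eq_pow_sum]
  rw [h2, Finsupp.degree_apply]
  ring

theorem hg_one (N : ℕ) (P : MvPolynomial V R) (y : V → A) : hg N P 1 y = aeval y P := by
  simp only [hg, one_pow, mul_one, aeval_def, eval₂_eq]

theorem hg_div [Algebra R ℂ] {N : ℕ} {P : MvPolynomial V R} (h : P.totalDegree ≤ N) {y0 : ℂ}
    (h0 : y0 ≠ 0) (y : V → ℂ) : hg N P y0 y = y0 ^ N * aeval (fun i => y i / y0) P := by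
  rw [← hg_one N, ← hg_smul h]
  simp only [mul_one, mul_div_cancel₀ _ h0]

theorem differentiable_hg [Algebra R ℂ] (N : ℕ) (P : MvPolynomial V R) {f0 : ℂ → ℂ}
    {f : V → ℂ → ℂ} (h0 : Differentiable ℂ f0) (h : ∀ i, Differentiable ℂ (f i)) :
    Differentiable ℂ fun w => hg N P (f0 w) (fun i => f i w) := by
  unfold hg
  refine Differentiable.fun_sum fun α _ => ?_
  exact ((differentiable_const _).mul (h0.pow _)).mul
    (Differentiable.fun_finsetProd fun i _ => (h i).pow _)

end hg

/-- a countable family of polynomials is defined over a countable subring -/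
theorem exists_subring {k T : Type} [CommRing k] [Algebra k ℂ] [Countable T] {V : T → Type}
    (P : ∀ t, MvPolynomial (V t) k) : ∃ k1 : Subring ℂ, Countable k1 ∧
      ∀ t, ∃ P' : MvPolynomial (V t) k1, ∀ y : V t → ℂ, aeval y P' = aeval y (P t) := by
  classical
  set S : Set ℂ := ⋃ t, (fun α => algebraMap k ℂ ((P t).coeff α)) '' (P t).support with hS
  have hc : S.Countable := countable_iUnion fun t => ((P t).support.finite_toSet.image _).countable
  refine ⟨(Subfield.closure S).toSubring, ?_, fun t => ?_⟩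
  · have h := Subfield.cardinalMk_closure_le_max S
    rw [← Cardinal.mk_le_aleph0_iff]
    exact h.trans (max_le (Cardinal.le_aleph0_iff_set_countable.2 hc) le_rfl)
  · refine ⟨∑ α ∈ (P t).support.attach, monomial α.1
      ⟨algebraMap k ℂ ((P t).coeff α.1), Subfield.subset_closure (mem_iUnion.2 ⟨t, α.1, α.2, rfl⟩)⟩,
      fun y => ?_⟩
    rw [map_sum]
    conv_rhs => rw [(P t).as_sum, map_sum, ← Finset.sum_attach]
    refine Finset.sum_congr rfl fun α _ => ?_
    rw [aeval_monomial, aeval_monomial]
    rfl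

/-- an entire function vanishing at the points `1 / (s + 1)` vanishes -/
theorem eq_zero_of_samples {G : ℂ → ℂ} (hG : Differentiable ℂ G)
    (h : ∀ s : ℕ, G (1 / ((s : ℂ) + 1)) = 0) (w : ℂ) : G w = 0 := by
  have ha : AnalyticOnNhd ℂ G univ := hG.differentiableOn.analyticOnNhd isOpen_univ
  have ht : Tendsto (fun s : ℕ => 1 / ((s : ℂ) + 1)) atTop (𝓝[≠] 0) := by
    refine tendsto_nhdsWithin_iff.2 ⟨tendsto_one_div_add_atTop_nhds_zero_nat, ?_⟩
    exact Eventually.of_forall fun s => one_div_ne_zero (Nat.cast_add_one_ne_zero s)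
  exact ha.eqOn_zero_of_preconnected_of_frequently_eq_zero isPreconnected_univ (mem_univ 0)
    (ht.frequently (Frequently.of_forall h)) (mem_univ w)

end Pool.Agent.RC.P77
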