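import Mathlib

/-!
Theta functions of level `d` on the torus with periods `2 π i` and `l` (`0 < re l`).
-/

open Complex Filter Topology Set
open scoped Real

namespace Pool.Agent.RC.Th

/-- the `n`-th term of the theta series of level `d` -/
noncomputable def tm (d : ℕ) (l w : ℂ) (n : ℤ) : ℂ :=
  cexp (n * w - l * (n * (n + d)) / (2 * d))

/-- the `j`-th theta function of level `d` -/
noncomputable def th (d : ℕ) (j : ZMod d) (l w : ℂ) : ℂ :=
  ∑' n : ℤ, if (n : ZMod d) = j then tm d l w n else 0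

lemma tm_ne_zero (d : ℕ) (l w : ℂ) (n : ℤ) : tm d l w n ≠ 0 := Complex.exp_ne_zero _

lemma norm_tm (d : ℕ) (l w : ℂ) (n : ℤ) :
    ‖tm d l w n‖ = Real.exp (n * w.re - l.re * (n * (n + d)) / (2 * d)) := by
  rw [tm, Complex.norm_exp]
  congr 1
  have : (n : ℂ) * w - l * (n * (n + d)) / (2 * d)
      = ((n : ℝ) : ℂ) * w - (((n * (n + d)) / (2 * d) : ℝ) : ℂ) * l := by
    push_cast; ring
  rw [this, sub_re, re_ofReal_mul, re_ofReal_mul]
  ring

lemma tm_add_two_pi (d : ℕ) (l w : ℂ) (n : ℤ) : tm d l (w + 2 * π * I) n = tm d l w n := by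
  unfold tm
  have : (n : ℂ) * (w + 2 * π * I) - l * (n * (n + d)) / (2 * d)
      = (n * w - l * (n * (n + d)) / (2 * d)) + n * (2 * π * I) := by ring
  rw [this, Complex.exp_add, Complex.exp_int_mul_two_pi_mul_I, mul_one]

lemma tm_add_l {d : ℕ} (hd : d ≠ 0) (l w : ℂ) (n : ℤ) :
    tm d l (w + l) (n + d) = cexp (d * w) * tm d l w n := by
  unfold tm
  rw [← Complex.exp_add]
  congr 1
  have : (d : ℂ) ≠ 0 := by exact_mod_cast hd
  push_cast
  field_simp
  ring

/-- the summable majorant -/
lemma bound_summable {d : ℕ} (hd : d ≠ 0) {a : ℝ} (ha : 0 < a) (b : ℝ) :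
    Summable fun n : ℤ => Real.exp (b * |(n : ℝ)| - a * (n : ℝ) ^ 2 / (2 * d)) := by
  have hd' : (0 : ℝ) < d := by exact_mod_cast Nat.pos_of_ne_zero hd
  have h := summable_pow_mul_jacobiTheta₂_term_bound (b / (2 * π))
    (T := a / (2 * d * π)) (by positivity) 0
  refine h.congr fun n => ?_
  rw [pow_zero, one_mul]
  congr 1
  have := Real.pi_pos.ne'
  push_cast
  field_simp
  ring

lemma norm_tm_le {d : ℕ} (hd : d ≠ 0) {a b : ℝ} {l w : ℂ} (hl : a ≤ l.re) (hl' : ‖l‖ ≤ b)
    (hw : ‖w‖ ≤ b) (n : ℤ) :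
    ‖tm d l w n‖ ≤ Real.exp ((2 * b) * |(n : ℝ)| - a * (n : ℝ) ^ 2 / (2 * d)) := by
  have hd' : (0 : ℝ) < d := by exact_mod_cast Nat.pos_of_ne_zero hd
  rw [norm_tm, Real.exp_le_exp]
  have h1 : (n : ℝ) * w.re ≤ b * |(n : ℝ)| := by
    calc (n : ℝ) * w.re ≤ |(n : ℝ) * w.re| := le_abs_self _
      _ = |(n : ℝ)| * |w.re| := abs_mul _ _
      _ ≤ |(n : ℝ)| * b := by
          gcongr; exact (abs_re_le_norm w).trans hw
      _ = b * |(n : ℝ)| := mul_comm _ _
  have h2 : -((n : ℝ) * l.re) ≤ b * |(n : ℝ)| := by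
    calc -((n : ℝ) * l.re) ≤ |(n : ℝ) * l.re| := neg_le_abs _
      _ = |(n : ℝ)| * |l.re| := abs_mul _ _
      _ ≤ |(n : ℝ)| * b := by
          gcongr; exact (abs_re_le_norm l).trans hl'
      _ = b * |(n : ℝ)| := mul_comm _ _
  have h3 : a * (n : ℝ) ^ 2 / (2 * d) ≤ l.re * (n : ℝ) ^ 2 / (2 * d) := by gcongr
  have h4 : l.re * (n * (n + d)) / (2 * d) = l.re * (n : ℝ) ^ 2 / (2 * d) + (n * l.re) / 2 := by
    field_simp
  have h5 : 0 ≤ b * |(n : ℝ)| := mul_nonneg ((norm_nonneg _).trans hw) (abs_nonneg _)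
  rw [h4]
  linarith

lemma summable_norm_tm {d : ℕ} (hd : d ≠ 0) {l : ℂ} (hl : 0 < l.re) (w : ℂ) :
    Summable fun n : ℤ => ‖tm d l w n‖ :=
  (bound_summable hd hl (2 * max ‖l‖ ‖w‖)).of_nonneg_of_le (fun _ => norm_nonneg _)
    fun n => norm_tm_le hd le_rfl (le_max_left _ _) (le_max_right _ _) n

lemma norm_ite_le (p : Prop) [Decidable p] (x : ℂ) : ‖if p then x else 0‖ ≤ ‖x‖ := by
  split_ifs <;> simp

lemma hasSum_th {d : ℕ} (hd : d ≠ 0) (j : ZMod d) {l : ℂ} (hl : 0 < l.re) (w : ℂ) :
    HasSum (fun n : ℤ => if (n : ZMod d) = j then tm d l w n else 0) (th d j l w) :=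
  ((summable_norm_tm hd hl w).of_norm_bounded fun _ => norm_ite_le _ _).hasSum

/-- the Laurent series of a combination of the theta functions -/
theorem hasSum_comb {E : Type*} [NormedAddCommGroup E] [NormedSpace ℂ E] {d : ℕ} [NeZero d]
    (A : ZMod d → E) {l : ℂ} (hl : 0 < l.re) (w : ℂ) :
    HasSum (fun n : ℤ => tm d l w n • A n) (∑ j, th d j l w • A j) := by
  have h := hasSum_sum (s := Finset.univ) fun (j : ZMod d) _ =>
    (hasSum_th (NeZero.ne d) j hl w).smul_const (A j)
  have e : (fun n : ℤ => tm d l w n • A n)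
      = fun n : ℤ => ∑ j, (if (n : ZMod d) = j then tm d l w n else 0) • A j := by
    funext n
    simp only [ite_smul, zero_smul, Finset.sum_ite_eq, Finset.mem_univ, if_true]
  rw [e]
  exact h

lemma th_add_two_pi (d : ℕ) (j : ZMod d) (l w : ℂ) : th d j l (w + 2 * π * I) = th d j l w := by
  unfold th
  simp only [tm_add_two_pi]

lemma th_add_l {d : ℕ} (hd : d ≠ 0) (j : ZMod d) (l w : ℂ) :
    th d j l (w + l) = cexp (d * w) * th d j l w := by
  unfold th
  rw [← tsum_mul_left, ← (Equiv.addRight (d : ℤ)).tsum_eq]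
  refine tsum_congr fun n => ?_
  have e : (((n + (d : ℤ) : ℤ)) : ZMod d) = (n : ZMod d) := by push_cast; simp
  simp only [Equiv.coe_addRight, e, tm_add_l hd]
  split_ifs <;> simp

lemma differentiable_tm (d : ℕ) (n : ℤ) : Differentiable ℂ fun p : ℂ × ℂ => tm d p.1 p.2 n := by
  unfold tm; fun_prop

/-- the theta functions are entire in `w` -/
theorem differentiable_th {d : ℕ} (hd : d ≠ 0) (j : ZMod d) {l : ℂ} (hl : 0 < l.re) :
    Differentiable ℂ (th d j l) := by
  intro w
  have hb : IsOpen (Metric.ball (0 : ℂ) (‖w‖ + 1)) := Metric.isOpen_ball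
  have h := differentiableOn_tsum_of_summable_norm
    (F := fun (n : ℤ) (w : ℂ) => if (n : ZMod d) = j then tm d l w n else 0)
    (bound_summable hd hl (2 * max ‖l‖ (‖w‖ + 1))) (fun n => ?_) hb (fun n z hz => ?_)
  · exact h.differentiableAt (hb.mem_nhds (by simp))
  · split_ifs
    · exact Differentiable.differentiableOn (by unfold tm; fun_prop)
    · exact differentiableOn_const _
  · refine (norm_ite_le _ _).trans (norm_tm_le hd le_rfl (le_max_left _ _) ?_ n)
    exact (mem_ball_zero_iff.1 hz).le.trans (le_max_right _ _)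

/-- the theta functions are holomorphic in `l` on the right half plane -/
theorem differentiableOn_th_l {d : ℕ} (hd : d ≠ 0) (j : ZMod d) (w : ℂ) :
    DifferentiableOn ℂ (fun l => th d j l w) {l : ℂ | 0 < l.re} := by
  intro l hl
  have hl' : 0 < l.re := hl
  have hb : IsOpen ({z : ℂ | l.re / 2 < z.re} ∩ Metric.ball (0 : ℂ) (‖l‖ + 1)) :=
    (isOpen_lt continuous_const continuous_re).inter Metric.isOpen_ball
  have h := differentiableOn_tsum_of_summable_norm
    (F := fun (n : ℤ) (z : ℂ) => if (n : ZMod d) = j then tm d z w n else 0)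
    (bound_summable hd (half_pos hl') (2 * max (‖l‖ + 1) ‖w‖)) (fun n => ?_) hb (fun n z hz => ?_)
  · refine (h.differentiableAt (hb.mem_nhds ⟨?_, by simp⟩)).differentiableWithinAt
    show l.re / 2 < l.re
    linarith
  · split_ifs
    · exact Differentiable.differentiableOn (by unfold tm; fun_prop)
    · exact differentiableOn_const _
  · refine (norm_ite_le _ _).trans (norm_tm_le hd (le_of_lt hz.1) ?_ (le_max_right _ _) n)
    exact (mem_ball_zero_iff.1 hz.2).le.trans (le_max_left _ _)

theorem analyticOnNhd_th_l {d : ℕ} (hd : d ≠ 0) (j : ZMod d) (w : ℂ) :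
    AnalyticOnNhd ℂ (fun l => th d j l w) {l : ℂ | 0 < l.re} :=
  (differentiableOn_th_l hd j w).analyticOnNhd (isOpen_lt continuous_const continuous_re)

/-- joint continuity in `(l, w)` -/
theorem continuousAt_th {d : ℕ} (hd : d ≠ 0) (j : ZMod d) {l : ℂ} (hl : 0 < l.re) (w : ℂ) :
    ContinuousAt (fun p : ℂ × ℂ => th d j p.1 p.2) (l, w) := by
  have hb : IsOpen (({z : ℂ | l.re / 2 < z.re} ∩ Metric.ball (0 : ℂ) (‖l‖ + 1)) ×ˢ
      Metric.ball (0 : ℂ) (‖w‖ + 1)) :=
    ((isOpen_lt continuous_const continuous_re).inter Metric.isOpen_ball).prod Metric.isOpen_ball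
  have h := continuousOn_tsum (s := ({z : ℂ | l.re / 2 < z.re} ∩ Metric.ball (0 : ℂ) (‖l‖ + 1)) ×ˢ
      Metric.ball (0 : ℂ) (‖w‖ + 1))
    (f := fun (n : ℤ) (p : ℂ × ℂ) => if (n : ZMod d) = j then tm d p.1 p.2 n else 0)
    (fun n => ?_) (bound_summable hd (half_pos hl) (2 * max (‖l‖ + 1) (‖w‖ + 1))) (fun n z hz => ?_)
  · refine h.continuousAt (hb.mem_nhds ⟨⟨?_, by simp⟩, by simp⟩)
    show l.re / 2 < l.re
    linarith
  · split_ifs
    · exact (differentiable_tm d n).continuous.continuousOn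
    · exact continuousOn_const
  · refine (norm_ite_le _ _).trans (norm_tm_le hd (le_of_lt hz.1.1) ?_ ?_ n)
    · exact (mem_ball_zero_iff.1 hz.1.2).le.trans (le_max_left _ _)
    · exact (mem_ball_zero_iff.1 hz.2).le.trans (le_max_right _ _)

theorem continuousOn_th {d : ℕ} (hd : d ≠ 0) (j : ZMod d) :
    ContinuousOn (fun p : ℂ × ℂ => th d j p.1 p.2) {p | 0 < p.1.re} :=
  fun p hp => (continuousAt_th hd j hp p.2).continuousWithinAt

/-! Fourier coefficients along vertical lines -/

/-- the `n`-th coefficient along the line through `a` (times `2 π`) -/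
noncomputable def co (s : ℂ → ℂ) (a : ℂ) (n : ℤ) : ℂ :=
  ∫ y in (0 : ℝ)..2 * π, cexp (-(n * (a + y * I))) * s (a + y * I)

lemma co_indep {s : ℂ → ℂ} (hs : Differentiable ℂ s) (hp : ∀ w, s (w + 2 * π * I) = s w)
    (a : ℂ) (n : ℤ) : co s a n = co s 0 n := by
  set g : ℂ → ℂ := fun w => cexp (-(n * w)) * s w with hg
  have hgd : Differentiable ℂ g := by rw [hg]; fun_prop
  have hgp : ∀ w, g (w + 2 * π * I) = g w := by
    intro w
    simp only [hg, hp]
    congr 1
    have : -((n : ℂ) * (w + 2 * π * I)) = -(n * w) + ((-n : ℤ) : ℂ) * (2 * π * I) := by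
      push_cast; ring
    rw [this, Complex.exp_add, Complex.exp_int_mul_two_pi_mul_I, mul_one]
  have h1 : co s a n = ∫ y in (0 : ℝ)..2 * π, g (a.re + y * I) := by
    have hper : Function.Periodic (fun y : ℝ => g (a.re + y * I)) (2 * π) := by
      intro y
      show g (a.re + ((y + 2 * π : ℝ) : ℂ) * I) = g (a.re + y * I)
      rw [← hgp (a.re + y * I)]
      congr 1
      push_cast; ring
    have h2 := hper.intervalIntegral_add_eq a.im 0
    rw [zero_add] at h2
    rw [← h2]
    have h3 := intervalIntegral.integral_comp_add_left (a := 0) (b := 2 * π)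
      (fun y : ℝ => g (a.re + y * I)) a.im
    rw [add_zero] at h3
    rw [← h3]
    refine intervalIntegral.integral_congr fun y _ => ?_
    have : (a.re : ℂ) + ((a.im + y : ℝ) : ℂ) * I = a + y * I := by
      conv_rhs => rw [← re_add_im a]
      push_cast; ring
    show _ = g _
    rw [this]
  have h0 : co s 0 n = ∫ y in (0 : ℝ)..2 * π, g (((0 : ℝ) : ℂ) + y * I) := by
    unfold co
    simp only [hg, ofReal_zero]
  have h := integral_boundary_rect_eq_zero_of_differentiableOn g 0 ⟨a.re, 2 * π⟩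
    hgd.differentiableOn
  simp only [zero_re, zero_im] at h
  have e : ∀ x : ℝ, g (x + ((2 * π : ℝ) : ℂ) * I) = g (x + ((0 : ℝ) : ℂ) * I) := by
    intro x
    rw [← hgp (x + ((0 : ℝ) : ℂ) * I)]
    congr 1
    push_cast; ring
  simp only [e, sub_self, zero_add] at h
  rw [h1, h0]
  rw [← smul_sub, smul_eq_zero] at h
  exact sub_eq_zero.1 (h.resolve_left I_ne_zero)

lemma eq_zero_of_co {s : ℂ → ℂ} (hs : Differentiable ℂ s) (h : ∀ n, co s 0 n = 0) : s = 0 := by
  have hc : Continuous fun y : ℝ => s (y * I) := hs.continuous.comp (by fun_prop)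
  have hab : (0 : ℝ) < 2 * π := Real.two_pi_pos
  have hL : MeasureTheory.MemLp (fun y : ℝ => s (y * I)) 2
      (MeasureTheory.volume.restrict (Ioc (0 : ℝ) (2 * π))) := by
    obtain ⟨C, hC⟩ := (isCompact_Icc (a := (0 : ℝ)) (b := 2 * π)).exists_bound_of_continuousOn
      hc.continuousOn
    refine MeasureTheory.MemLp.of_bound hc.aestronglyMeasurable C ?_
    filter_upwards [MeasureTheory.ae_restrict_mem measurableSet_Ioc] with y hy
    exact hC y (Ioc_subset_Icc_self hy)
  have h1 := tsum_sq_fourierCoeffOn hab hL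
  have h2 : ∀ n : ℤ, fourierCoeffOn hab (fun y : ℝ => s (y * I)) n = 0 := by
    intro n
    rw [fourierCoeffOn_eq_integral]
    have := h n
    unfold co at this
    have e : ∀ y : ℝ, fourier (-n) (y : AddCircle (2 * π - 0)) • s (y * I)
        = cexp (-(n * (0 + y * I))) * s (0 + y * I) := by
      intro y
      rw [fourier_coe_apply, smul_eq_mul, zero_add]
      congr 2
      have : (π : ℂ) ≠ 0 := by exact_mod_cast Real.pi_pos.ne'
      push_cast
      field_simp
      ring
    simp only [e, this, smul_zero]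
  simp only [h2, norm_zero, ne_eq, OfNat.ofNat_ne_zero, not_false_eq_true, zero_pow, tsum_zero,
    smul_eq_mul] at h1
  have h3 : ∫ y in (0 : ℝ)..2 * π, ‖s (y * I)‖ ^ 2 = 0 := by
    rcases mul_eq_zero.1 h1.symm with h | h
    · exact absurd h (inv_ne_zero (by linarith))
    · exact h
  have h4 : ∀ y ∈ Ioo (0 : ℝ) (2 * π), s (y * I) = 0 := by
    by_contra hne
    push Not at hne
    obtain ⟨y, hy, hy'⟩ := hne
    have := intervalIntegral.integral_pos hab (f := fun y : ℝ => ‖s (y * I)‖ ^ 2)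
      (hc.norm.pow 2).continuousOn (fun _ _ => by positivity)
      ⟨y, Ioo_subset_Icc_self hy, by positivity⟩
    exact this.ne' h3
  have han : AnalyticOnNhd ℂ s univ := hs.differentiableOn.analyticOnNhd isOpen_univ
  funext w
  refine han.eqOn_zero_of_preconnected_of_frequently_eq_zero isPreconnected_univ
    (mem_univ ((π : ℝ) * I : ℂ)) ?_ (mem_univ w)
  have ht : Tendsto (fun y : ℝ => (y : ℂ) * I) (𝓝[≠] π) (𝓝[≠] ((π : ℝ) * I : ℂ)) := by
    refine tendsto_nhdsWithin_iff.2 ⟨?_, ?_⟩
    · exact (Continuous.tendsto (by fun_prop) π).mono_left nhdsWithin_le_nhds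
    · filter_upwards [self_mem_nhdsWithin] with y hy
      intro h
      have := mul_right_cancel₀ I_ne_zero (mem_singleton_iff.1 h)
      exact hy (by exact_mod_cast this)
  refine ht.frequently (Eventually.frequently ?_)
  have : Ioo (0 : ℝ) (2 * π) ∈ 𝓝 π := Ioo_mem_nhds Real.pi_pos (by linarith [Real.pi_pos])
  filter_upwards [mem_nhdsWithin_of_mem_nhds this] with y hy using h4 y hy

lemma co_of_hasSum {s : ℂ → ℂ} {c : ℤ → ℂ} (hc : Summable fun n => ‖c n‖)
    (hs : ∀ y : ℝ, HasSum (fun n : ℤ => c n * cexp (n * (y * I))) (s (y * I))) (m : ℤ) :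
    co s 0 m = 2 * π * c m := by
  have hab : (0 : ℝ) ≤ 2 * π := Real.two_pi_pos.le
  set F : ℤ → ℝ → ℂ := fun n y => c n * cexp (((n - m : ℤ) : ℂ) * I * y) with hF
  have hn : ∀ n y, ‖F n y‖ = ‖c n‖ := by
    intro n y
    have : ((n - m : ℤ) : ℂ) * I * y = (((n - m : ℤ) * y : ℝ) : ℂ) * I := by push_cast; ring
    simp only [hF, norm_mul, this, norm_exp_ofReal_mul_I, mul_one]
  have hcont : ∀ n, Continuous (F n) := fun n => by rw [hF]; fun_prop
  have h := MeasureTheory.hasSum_integral_of_summable_integral_norm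
    (μ := MeasureTheory.volume.restrict (Ioc (0 : ℝ) (2 * π))) (F := F)
    (fun n => ((hcont n).intervalIntegrable 0 (2 * π)).1) (by
      simp only [hn, MeasureTheory.integral_const, smul_eq_mul]
      exact hc.mul_left _)
  have e1 : ∀ y : ℝ, ∑' n, F n y = cexp (-(m * (0 + y * I))) * s (0 + y * I) := by
    intro y
    rw [zero_add]
    refine HasSum.tsum_eq ?_
    have := (hs y).mul_left (cexp (-(m * (y * I))))
    have e : (fun n => F n y)
        = fun n : ℤ => cexp (-(m * (y * I))) * (c n * cexp (n * (y * I))) := by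
      funext n
      simp only [hF]
      rw [mul_left_comm, ← Complex.exp_add]
      congr 2
      push_cast; ring
    rw [e]; exact this
  have e2 : ∀ n, ∫ y in Ioc (0 : ℝ) (2 * π), F n y = if n = m then 2 * π * c m else 0 := by
    intro n
    rw [← intervalIntegral.integral_of_le hab]
    split_ifs with hnm
    · subst hnm
      simp [hF]
    · have hne : ((n - m : ℤ) : ℂ) * I ≠ 0 :=
        mul_ne_zero (by exact_mod_cast sub_ne_zero.2 hnm) I_ne_zero
      simp only [hF]
      rw [intervalIntegral.integral_const_mul, integral_exp_mul_complex hne]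
      have : ((n - m : ℤ) : ℂ) * I * ((2 * π : ℝ) : ℂ) = ((n - m : ℤ) : ℂ) * (2 * π * I) := by
        push_cast; ring
      rw [this, Complex.exp_int_mul_two_pi_mul_I]
      simp
  simp only [e1, e2] at h
  have h' := hasSum_ite_eq m (2 * π * c m : ℂ)
  rw [co, intervalIntegral.integral_of_le hab]
  exact h.unique h'

lemma co_comb {d : ℕ} [NeZero d] (A : ZMod d → ℂ) {l : ℂ} (hl : 0 < l.re) (m : ℤ) :
    co (fun w => ∑ j, th d j l w * A j) 0 m = 2 * π * (tm d l 0 m * A m) := by
  refine co_of_hasSum (c := fun n => tm d l 0 n * A n) ?_ (fun y => ?_) m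
  · refine ((summable_norm_tm (NeZero.ne d) hl 0).mul_right ‖A‖).of_nonneg_of_le
      (fun _ => norm_nonneg _) fun n => ?_
    rw [norm_mul]
    gcongr
    exact norm_le_pi_norm A _
  · have h := hasSum_comb A hl (y * I)
    simp only [smul_eq_mul] at h
    have e : (fun n : ℤ => tm d l 0 n * A n * cexp (n * (y * I)))
        = fun n : ℤ => tm d l (y * I) n * A n := by
      funext n
      unfold tm
      rw [mul_right_comm, ← Complex.exp_add]
      congr 2
      ring
    rw [e]; exact h

/-- the theta functions of level `d` are linearly independent -/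
theorem eq_zero_of_comb {d : ℕ} [NeZero d] (A : ZMod d → ℂ) {l : ℂ} (hl : 0 < l.re)
    (h : ∀ w, ∑ j, th d j l w * A j = 0) : A = 0 := by
  funext j
  have h1 := co_comb A hl (j.val : ℤ)
  simp only [h, co, mul_zero, intervalIntegral.integral_zero] at h1
  have h2 : (2 * π : ℂ) ≠ 0 := by exact_mod_cast Real.two_pi_pos.ne'
  have h3 := (mul_eq_zero.1 ((mul_eq_zero.1 h1.symm).resolve_left h2)).resolve_left
    (tm_ne_zero _ _ _ _)
  simpa using h3

/-- REP: an entire function with the two quasi-periods is a combination of theta functions -/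
theorem rep {d : ℕ} [NeZero d] {l : ℂ} (hl : 0 < l.re) {s : ℂ → ℂ} (hs : Differentiable ℂ s)
    (hp : ∀ w, s (w + 2 * π * I) = s w) (hq : ∀ w, s (w + l) = cexp (d * w) * s w) :
    ∃ A : ZMod d → ℂ, ∀ w, s w = ∑ j, th d j l w * A j := by
  have hd := NeZero.ne d
  set B : ℤ → ℂ := fun n => co s 0 n / (2 * π * tm d l 0 n) with hB
  have h2 : (2 * π : ℂ) ≠ 0 := by exact_mod_cast Real.two_pi_pos.ne'
  have hrec : ∀ n : ℤ, co s 0 (n + d) = cexp (-((n + d) * l)) * co s 0 n := by
    intro n
    rw [← co_indep hs hp l, co, co, ← intervalIntegral.integral_const_mul]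
    refine intervalIntegral.integral_congr fun y _ => ?_
    have e : l + y * I = (0 + y * I) + l := by ring
    show cexp (-(((n + d : ℤ) : ℂ) * (l + y * I))) * s (l + y * I)
      = cexp (-((n + d) * l)) * (cexp (-(n * (0 + y * I))) * s (0 + y * I))
    conv_lhs => rw [e, hq]
    rw [← mul_assoc, ← mul_assoc, ← Complex.exp_add, ← Complex.exp_add]
    congr 2
    push_cast; ring
  have htm : ∀ n : ℤ, tm d l 0 (n + d) = cexp (-((n + d) * l)) * tm d l 0 n := by
    intro n
    unfold tm
    rw [← Complex.exp_add]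
    congr 1
    have : (d : ℂ) ≠ 0 := by exact_mod_cast hd
    push_cast
    field_simp
    ring
  have hper : Function.Periodic B (d : ℤ) := by
    intro n
    simp only [hB, hrec, htm]
    have := Complex.exp_ne_zero (-((n + d) * l))
    have := tm_ne_zero d l 0 n
    field_simp
  refine ⟨fun j => B j.val, ?_⟩
  have hBA : ∀ n : ℤ, B ((n : ZMod d).val : ℤ) = B n := by
    intro n
    rw [ZMod.val_intCast, Int.emod_def, mul_comm]
    exact hper.sub_int_mul_eq _
  have hdiff : Differentiable ℂ fun w => ∑ j, th d j l w * B j.val :=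
    Differentiable.fun_sum fun j _ => (differentiable_th hd j hl).mul_const _
  have hz := eq_zero_of_co (hs.sub hdiff) fun n => by
    have h1 := co_comb (fun j : ZMod d => B j.val) hl n
    have h3 : co (s - fun w => ∑ j, th d j l w * B j.val) 0 n
        = co s 0 n - co (fun w => ∑ j, th d j l w * B j.val) 0 n := by
      unfold co
      rw [← intervalIntegral.integral_sub]
      · simp only [Pi.sub_apply, mul_sub]
      · have := hs.continuous
        exact Continuous.intervalIntegrable (by fun_prop) _ _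
      · have := hdiff.continuous
        exact Continuous.intervalIntegrable
          (Continuous.mul (by fun_prop) (this.comp (by fun_prop))) _ _
    rw [h3, h1, hBA]
    simp only [hB]
    have := tm_ne_zero d l 0 n
    field_simp
    ring
  intro w
  exact sub_eq_zero.1 (congrFun hz w)

end Pool.Agent.RC.Th
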