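import Pool.Agent.Lib.RC.Pi77a
import Pool.Agent.Lib.RC.Th88

/-! Theta data of a holomorphic torus and their continuation in the modulus. -/

namespace Pool.Agent.RC.P77

open MvPolynomial Set Filter Topology Complex Pool.Agent.RC.Th
open scoped Real

/-- a combination of theta functions -/
noncomputable def S (d : ℕ) [NeZero d] (l : ℂ) (a : ZMod d → ℂ) (w : ℂ) : ℂ :=
  ∑ j, th d j l w * a j

theorem differentiable_S (d : ℕ) [NeZero d] {l : ℂ} (hl : 0 < l.re) (a : ZMod d → ℂ) :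
    Differentiable ℂ (S d l a) :=
  Differentiable.fun_sum fun j _ => (differentiable_th (NeZero.ne d) j hl).mul_const _

theorem S_per (d : ℕ) [NeZero d] (l : ℂ) (a : ZMod d → ℂ) (w : ℂ) :
    S d l a (w + 2 * π * I) = S d l a w := by
  simp only [S, th_add_two_pi]

theorem S_add (d : ℕ) [NeZero d] (l : ℂ) (a : ZMod d → ℂ) (w : ℂ) :
    S d l a (w + l) = cexp (d * w) * S d l a w := by
  simp only [S, th_add_l (NeZero.ne d), Finset.mul_sum, mul_assoc]

theorem continuous_S (d : ℕ) [NeZero d] {T : Type*} [TopologicalSpace T] {l w : T → ℂ}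
    {a : T → ZMod d → ℂ} (hl : Continuous l) (h0 : ∀ t, 0 < (l t).re) (ha : Continuous a)
    (hw : Continuous w) : Continuous fun t => S d (l t) (a t) (w t) := by
  refine continuous_finsetSum _ fun j _ => Continuous.mul ?_ ((continuous_apply j).comp ha)
  exact (continuousOn_th (NeZero.ne d) j).comp_continuous (hl.prodMk hw) h0

/-- valid theta data for the set `Z` -/
def Valid {V : Type} (Z : Set (V → ℂ)) (d : ℕ) [NeZero d] (l : ℂ) (c : Option V → ZMod d → ℂ) :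
    Prop :=
  (∃ w, S d l (c none) w ≠ 0) ∧
    ∀ w, S d l (c none) w ≠ 0 → (fun i => S d l (c (some i)) w / S d l (c none) w) ∈ Z

/-- the continuation theorem used as a black box -/
def PathSt : Prop :=
  ∀ (k1 : Subring ℂ) [Countable k1] {I : Type} [Countable I] {D : Set ℂ}, IsOpen D → Convex ℝ D →
    ∀ a : ℂ → I → ℂ, (∀ i, AnalyticOnNhd ℂ (fun l => a l i) D) →
    ∃ N : Set ℂ, N.Countable ∧ ∀ l0 ∈ D, l0 ∉ N → ∀ (J : Type) [Finite J] (c0 : J → ℂ) (V : Set ℂ),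
      IsOpen V → (V ∩ D).Nonempty →
      ∃ (l : ℝ → ℂ) (c : ℝ → J → ℂ), Continuous l ∧ Continuous c ∧ l 0 = l0 ∧ c 0 = c0 ∧ l 1 ∈ V ∧
        (∀ t, l t ∈ D) ∧ ∀ Φ : MvPolynomial (I ⊕ J) k1, aeval (Sum.elim (a l0) c0) Φ = 0 →
          ∀ t, aeval (Sum.elim (a (l t)) (c t)) Φ = 0

theorem spread (hP : PathSt) {k Γ : Type} [CommRing k] [Algebra k ℂ] [Countable Γ]
    {V κ : Γ → Type} [∀ b, Finite (V b)] [∀ b, Countable (κ b)]
    (eqn : ∀ b, κ b → MvPolynomial (V b) k) :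
    ∃ N : Set ℂ, N.Countable ∧ ∀ l0 : ℂ, 0 < l0.re → l0 ∉ N → ∀ (b : Γ) (d : ℕ) [NeZero d]
      (c0 : Option (V b) → ZMod d → ℂ), Valid {p | ∀ e, aeval p (eqn b e) = 0} d l0 c0 →
      ∀ L : ℝ, ∃ (l : ℝ → ℂ) (c : ℝ → Option (V b) → ZMod d → ℂ), Continuous l ∧ Continuous c ∧
        l 0 = l0 ∧ c 0 = c0 ∧ L ≤ (l 1).re ∧
        ∀ t, 0 < (l t).re ∧ Valid {p | ∀ e, aeval p (eqn b e) = 0} d (l t) (c t) := by
  obtain ⟨k1, hk1, hlift⟩ := exists_subring (T := Σ b, κ b) (V := fun t => V t.1)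
    (fun t => eqn t.1 t.2)
  obtain ⟨N, hN, h⟩ := hP k1 (I := Σ d : ℕ, ZMod (d + 1) × ℕ) (D := {l : ℂ | 0 < l.re})
    (isOpen_lt continuous_const continuous_re) (convex_halfSpace_re_gt 0)
    (fun l i => th (i.1 + 1) i.2.1 l (1 / ((i.2.2 : ℂ) + 1)))
    (fun i => analyticOnNhd_th_l (Nat.succ_ne_zero _) _ _)
  refine ⟨N, hN, fun l0 hl0 hlN b d _ c0 hv L => ?_⟩
  obtain ⟨d, rfl⟩ : ∃ d', d = d' + 1 := ⟨d - 1, by have := NeZero.ne d; omega⟩
  obtain ⟨s0, hs0⟩ : ∃ s : ℕ, S (d + 1) l0 (c0 none) (1 / ((s : ℂ) + 1)) ≠ 0 := by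
    by_contra hc
    push Not at hc
    obtain ⟨w, hw⟩ := hv.1
    exact hw (eq_zero_of_samples (differentiable_S _ hl0 _) hc w)
  obtain ⟨l, c, hl, hc, e0, e1, e2, e3, e4⟩ := h l0 hl0 hlN
    (Option (Option (V b) × ZMod (d + 1)))
    (fun o => o.elim (S (d + 1) l0 (c0 none) (1 / ((s0 : ℂ) + 1)))⁻¹ fun q => c0 q.1 q.2)
    {l : ℂ | L < l.re} (isOpen_lt continuous_const continuous_re)
    ⟨((max L 0 + 1 : ℝ) : ℂ), by
      constructor
      · show L < (((max L 0 + 1 : ℝ) : ℂ)).re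
        rw [ofReal_re]; linarith [le_max_left L 0]
      · show 0 < (((max L 0 + 1 : ℝ) : ℂ)).re
        rw [ofReal_re]; linarith [le_max_right L 0]⟩
  set Y : ℕ → Option (V b) →
      MvPolynomial ((Σ d : ℕ, ZMod (d + 1) × ℕ) ⊕ Option (Option (V b) × ZMod (d + 1))) k1 :=
    fun s a => ∑ j, X (Sum.inl ⟨d, j, s⟩) * X (Sum.inr (some (a, j))) with hY
  have hYe : ∀ (l : ℂ) (c : Option (Option (V b) × ZMod (d + 1)) → ℂ) (s : ℕ) a,
      aeval (Sum.elim (fun i : Σ d : ℕ, ZMod (d + 1) × ℕ =>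
        th (i.1 + 1) i.2.1 l (1 / ((i.2.2 : ℂ) + 1))) c) (Y s a) =
        S (d + 1) l (fun j => c (some (a, j))) (1 / ((s : ℂ) + 1)) := by
    intro l c s a
    simp only [hY, map_sum, map_mul, aeval_X, Sum.elim_inl, Sum.elim_inr, S]
  refine ⟨l, fun t a j => c t (some (a, j)), hl, by fun_prop, e0, ?_, le_of_lt e2,
    fun t => ⟨e3 t, ⟨1 / ((s0 : ℂ) + 1), ?_⟩, fun w hw e => ?_⟩⟩
  · funext a j
    exact congrFun e1 (some (a, j))
  · have := e4 (X (Sum.inr none) * Y s0 none - 1) (by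
      rw [map_sub, map_mul, hYe, aeval_X, map_one]
      exact sub_eq_zero.2 (inv_mul_cancel₀ hs0)) t
    rw [map_sub, map_mul, hYe, map_one, sub_eq_zero] at this
    exact right_ne_zero_of_mul_eq_one this
  · obtain ⟨P, hPe⟩ := hlift ⟨b, e⟩
    have h1 : ∀ s : ℕ, S (d + 1) (l t) (fun j => c t (some (none, j))) (1 / ((s : ℂ) + 1)) *
        hg P.totalDegree P (S (d + 1) (l t) (fun j => c t (some (none, j))) (1 / ((s : ℂ) + 1)))
          (fun i => S (d + 1) (l t) (fun j => c t (some (some i, j))) (1 / ((s : ℂ) + 1))) = 0 := by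
      intro s
      have := e4 (Y s none * hg P.totalDegree P (Y s none) fun i => Y s (some i)) (by
        rw [map_mul, map_hg]
        simp only [hYe]
        by_cases h0 : S (d + 1) l0 (c0 none) (1 / ((s : ℂ) + 1)) = 0
        · exact mul_eq_zero_of_left h0 _
        · refine mul_eq_zero_of_right _ ?_
          refine (hg_div le_rfl h0 _).trans (mul_eq_zero_of_right _ ?_)
          exact (hPe _).trans (hv.2 _ h0 e)) t
      rw [map_mul, map_hg] at this
      simpa only [hYe] using this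
    have h2 := eq_zero_of_samples ((differentiable_S (d + 1) (e3 t) _).mul
      (differentiable_hg P.totalDegree P (differentiable_S (d + 1) (e3 t) _)
        fun i => differentiable_S (d + 1) (e3 t) _)) h1 w
    have h3 := (hg_div le_rfl hw _).symm.trans ((mul_eq_zero.1 h2).resolve_left hw)
    exact (hPe _).symm.trans ((mul_eq_zero.1 h3).resolve_left (pow_ne_zero _ hw))

end Pool.Agent.RC.P77
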