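import Pool.Agent.Lib.RC.Th88

/-!
A vertical line on which finitely many theta series are all dominated by one monomial.
-/

open Complex Filter Topology Set
open scoped Real

namespace Pool.Agent.RC.Th

lemma exists_argmax {t : ℤ → ℝ} (hs : Summable t) (h0 : ∀ n, 0 ≤ t n) (h : ∃ n, 0 < t n) :
    ∃ m, 0 < t m ∧ ∀ n, t n ≤ t m := by
  obtain ⟨n0, hn0⟩ := h
  have hf : {n | t n0 ≤ t n}.Finite := by
    have := hs.tendsto_cofinite_zero.eventually (gt_mem_nhds hn0)
    rw [eventually_cofinite] at this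
    simpa only [not_lt] using this
  obtain ⟨m, hm, hmax⟩ := hf.exists_maximalFor t _ ⟨n0, le_refl (t n0)⟩
  refine ⟨m, hn0.trans_le hm, fun n => ?_⟩
  by_contra hlt
  push Not at hlt
  exact absurd (hmax (le_trans hm hlt.le) hlt.le) (not_le.2 hlt)

lemma argmax_mono {a : ℤ → ℝ} {x x' : ℝ} (hx : x < x') {m m' : ℤ} (hm : 0 < a m) (hm' : 0 < a m')
    (h : a m' * Real.exp (m' * x) ≤ a m * Real.exp (m * x))
    (h' : a m * Real.exp (m * x') ≤ a m' * Real.exp (m' * x')) : m ≤ m' := by
  have h1 := mul_le_mul h h' (by positivity) (by positivity)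
  have e1 : a m' * Real.exp (m' * x) * (a m * Real.exp (m * x'))
      = (a m * a m') * Real.exp (m' * x + m * x') := by rw [Real.exp_add]; ring
  have e2 : a m * Real.exp (m * x) * (a m' * Real.exp (m' * x'))
      = (a m * a m') * Real.exp (m * x + m' * x') := by rw [Real.exp_add]; ring
  rw [e1, e2, mul_le_mul_iff_right₀ (mul_pos hm hm'), Real.exp_le_exp] at h1
  by_contra hlt
  push Not at hlt
  have : (m' : ℝ) < m := by exact_mod_cast hlt
  nlinarith

/-- the combinatorial core: a common gap of finitely many Newton polygons -/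
theorem gap_core {ι : Type*} [Fintype ι] (d : ι → ℕ) {T : ℝ} (hT : 0 < T) (a : ι → ℤ → ℝ)
    (h0 : ∀ i n, 0 ≤ a i n) (hpos : ∀ i, ∃ n, 0 < a i n)
    (hs : ∀ i (x : ℝ), Summable fun n : ℤ => a i n * Real.exp (n * x))
    (hq : ∀ i (n : ℤ), a i (n + d i) * Real.exp ((n + d i) * T) = a i n) :
    ∃ (x : ℝ) (m : ι → ℤ), ∀ i, 0 < a i (m i) ∧ ∀ n : ℤ, a i n * Real.exp (n * x)
      ≤ a i (m i) * Real.exp (m i * x)
        * Real.exp (-(T / (2 * (∑ i, d i + 2 : ℕ))) * |(n : ℝ) - m i|) := by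
  set M : ℕ := ∑ i, d i + 2 with hM
  have hM0 : (0 : ℝ) < M := by rw [hM]; positivity
  have hex : ∀ i (x : ℝ), ∃ m, 0 < a i m ∧ ∀ n : ℤ, a i n * Real.exp (n * x)
      ≤ a i m * Real.exp (m * x) := by
    intro i x
    obtain ⟨n, hn⟩ := hpos i
    obtain ⟨m, hm, hm'⟩ := exists_argmax (hs i x) (fun n => mul_nonneg (h0 i n) (Real.exp_pos _).le)
      ⟨n, mul_pos hn (Real.exp_pos _)⟩
    exact ⟨m, (mul_pos_iff_of_pos_right (Real.exp_pos _)).1 hm, hm'⟩
  choose N hN hNmax using hex
  set x : ℕ → ℝ := fun k => k * (T / M) with hx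
  have hxs : ∀ k, x (k + 1) = x k + T / M := fun k => by simp only [hx]; push_cast; ring
  have hTM : 0 < T / M := div_pos hT hM0
  have hmono : ∀ i k, N i (x k) ≤ N i (x (k + 1)) := fun i k =>
    argmax_mono (by rw [hxs]; linarith) (hN _ _) (hN _ _) (hNmax _ _ _) (hNmax _ _ _)
  have hlast : ∀ i, N i (x (M - 1)) ≤ N i (x 0) + d i := by
    intro i
    have hx0 : x 0 = 0 := by simp [hx]
    have hpos' : 0 < a i (N i (x 0) + d i) := by
      have := hq i (N i (x 0))
      exact (mul_pos_iff_of_pos_right (Real.exp_pos _)).1 (this ▸ hN i (x 0))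
    refine argmax_mono (x' := T) ?_ (hN _ _) hpos' (hNmax _ _ _) ?_
    · have : ((M - 1 : ℕ) : ℝ) = M - 1 := by rw [Nat.cast_sub (by omega)]; simp
      simp only [hx, this]
      have : (M : ℝ) * (T / M) = T := by field_simp
      nlinarith
    · have e1 := hq i (N i (x 0))
      have e2 := hq i (N i (x (M - 1)) - d i)
      have e3 := hNmax i (x 0) (N i (x (M - 1)) - d i)
      rw [hx0] at e3
      simp only [mul_zero, Real.exp_zero, mul_one] at e3
      rw [sub_add_cancel] at e2
      push_cast at e2 ⊢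
      rw [sub_add_cancel] at e2
      rw [e2, e1, hx0]
      exact e3
  have hk : ∃ k, ∀ i, N i (x k) = N i (x (k + 1)) := by
    by_contra hne
    push Not at hne
    have hstep : ∀ k, ∑ i, N i (x k) + 1 ≤ ∑ i, N i (x (k + 1)) := by
      intro k
      obtain ⟨i, hi⟩ := hne k
      exact Finset.sum_lt_sum (fun j _ => hmono j k)
        ⟨i, Finset.mem_univ i, lt_of_le_of_ne (hmono i k) hi⟩
    have hind : ∀ k : ℕ, ∑ i, N i (x 0) + k ≤ ∑ i, N i (x k) := by
      intro k
      induction k with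
      | zero => simp
      | succ k ih => have := hstep k; push_cast; linarith
    have h1 := hind (M - 1)
    have h2 : ∑ i, N i (x (M - 1)) ≤ ∑ i, N i (x 0) + ((∑ i, d i : ℕ) : ℤ) := by
      rw [Nat.cast_sum, ← Finset.sum_add_distrib]
      exact Finset.sum_le_sum fun i _ => hlast i
    omega
  obtain ⟨k, hk⟩ := hk
  refine ⟨x k + T / (2 * M), fun i => N i (x k), fun i => ⟨hN _ _, fun n => ?_⟩⟩
  have hg : T / M = 2 * (T / (2 * M)) := by field_simp
  beta_reduce
  set g := T / (2 * M) with hgdef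
  set m := N i (x k) with hm
  rcases le_total (n : ℝ) m with hnm | hnm
  · have h1 := hNmax i (x k) n
    rw [← hm] at h1
    rw [abs_of_nonpos (by linarith)]
    calc a i n * Real.exp (n * (x k + g)) = a i n * Real.exp (n * x k) * Real.exp (n * g) := by
          rw [mul_assoc, ← Real.exp_add]; ring_nf
      _ ≤ a i m * Real.exp (m * x k) * Real.exp (n * g) := by gcongr
      _ = _ := by rw [mul_assoc, mul_assoc, ← Real.exp_add, ← Real.exp_add]; ring_nf
  · have h1 := hNmax i (x (k + 1)) n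
    rw [← hk i, hxs, hg, ← hm] at h1
    rw [abs_of_nonneg (by linarith)]
    calc a i n * Real.exp (n * (x k + g))
        = a i n * Real.exp (n * (x k + 2 * g)) * Real.exp (-(n * g)) := by
          rw [mul_assoc, ← Real.exp_add]; ring_nf
      _ ≤ a i m * Real.exp (m * (x k + 2 * g)) * Real.exp (-(n * g)) := by gcongr
      _ = _ := by rw [mul_assoc, mul_assoc, ← Real.exp_add, ← Real.exp_add]; ring_nf

lemma hasSum_geo {r : ℝ} (h0 : 0 ≤ r) (h1 : r < 1) :
    HasSum (fun k : ℤ => if k = 0 then 0 else r ^ k.natAbs) (2 * (r * (1 - r)⁻¹)) := by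
  have hg := (hasSum_geometric_of_lt_one h0 h1).mul_left r
  have ha : HasSum (fun n : ℕ => if ((n : ℤ)) = 0 then 0 else r ^ (n : ℤ).natAbs)
      (r * (1 - r)⁻¹) := by
    rw [← hasSum_nat_add_iff' 1]
    simp only [Finset.range_one, Finset.sum_singleton, Nat.cast_zero, if_true, sub_zero]
    have e : (fun n : ℕ => if ((n + 1 : ℕ) : ℤ) = 0 then 0 else r ^ ((n + 1 : ℕ) : ℤ).natAbs)
        = fun n => r * r ^ n := by
      funext n
      rw [if_neg (by omega), Int.natAbs_natCast, pow_succ']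
    rw [e]; exact hg
  have hb : HasSum (fun n : ℕ => if (-((n : ℤ) + 1)) = 0 then 0 else r ^ (-((n : ℤ) + 1)).natAbs)
      (r * (1 - r)⁻¹) := by
    have e : (fun n : ℕ => if (-((n : ℤ) + 1)) = 0 then 0 else r ^ (-((n : ℤ) + 1)).natAbs)
        = fun n => r * r ^ n := by
      funext n
      have : (-((n : ℤ) + 1)).natAbs = n + 1 := by omega
      rw [if_neg (by omega), this, pow_succ']
    rw [e]; exact hg
  rw [two_mul]
  exact HasSum.of_nat_of_neg_add_one (f := fun k : ℤ => if k = 0 then 0 else r ^ k.natAbs) ha hb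

lemma tail_le {E : Type*} [NormedAddCommGroup E] {t : ℤ → E} {S : E} (hS : HasSum t S) {m : ℤ}
    {c g : ℝ} (hc : 0 ≤ c) (hg : 0 < g)
    (ht : ∀ n, ‖t n‖ ≤ c * Real.exp (-g * |(n : ℝ) - m|)) :
    ‖S - t m‖ ≤ c * (2 * (Real.exp (-g) * (1 - Real.exp (-g))⁻¹)) := by
  have hr : Real.exp (-g) < 1 := by rw [← Real.exp_zero]; exact Real.exp_lt_exp.2 (by linarith)
  have h1 := ((hasSum_geo (Real.exp_pos _).le hr).mul_left c)
  have h2 := (Equiv.subRight m).hasSum_iff.2 h1
  have h3 := hasSum_ite_sub_hasSum hS m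
  refine h3.norm_le_of_bounded h2 fun n => ?_
  simp only [Function.comp, Equiv.subRight_apply, sub_eq_zero]
  split_ifs with h
  · simp
  · refine (ht n).trans (le_of_eq ?_)
    rw [← Real.exp_nat_mul]
    congr 2
    rw [Nat.cast_natAbs]
    push_cast; ring

/-- GAP: for `re l` large there is a vertical line on which every one of finitely many non-zero
combinations of theta functions is one monomial up to a relative error `ε`. -/
theorem gap {ι : Type*} [Fintype ι] (d : ι → ℕ) [∀ i, NeZero (d i)] (E : ι → Type*)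
    [∀ i, NormedAddCommGroup (E i)] [∀ i, NormedSpace ℂ (E i)] {ε : ℝ} (hε : 0 < ε) :
    ∃ L : ℝ, 0 < L ∧ ∀ l : ℂ, L ≤ l.re → ∀ A : ∀ i, ZMod (d i) → E i, (∀ i, A i ≠ 0) →
      ∃ (x : ℝ) (m : ι → ℤ) (B : ∀ i, E i), ∀ i, B i ≠ 0 ∧ ∀ w : ℂ, w.re = x →
        ‖cexp (-(m i * w)) • ∑ j, th (d i) j l w • A i j - B i‖ ≤ ε * ‖B i‖ := by
  have hlim : Tendsto (fun g : ℝ => 2 * (Real.exp (-g) * (1 - Real.exp (-g))⁻¹)) atTop
      (𝓝 (2 * (0 * (1 - 0)⁻¹))) := by
    have h := Real.tendsto_exp_neg_atTop_nhds_zero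
    exact (h.mul ((tendsto_const_nhds.sub h).inv₀ (by norm_num))).const_mul 2
  simp only [zero_mul, mul_zero] at hlim
  obtain ⟨g0, hg0⟩ := eventually_atTop.1 (hlim.eventually (ge_mem_nhds hε))
  set M : ℕ := ∑ i, d i + 2 with hM
  have hM0 : (0 : ℝ) < M := by rw [hM]; positivity
  refine ⟨2 * M * max g0 1, by positivity, fun l hl A hA => ?_⟩
  have hl0 : 0 < l.re := lt_of_lt_of_le (by positivity) hl
  have hnorm : ∀ i (w : ℂ) (n : ℤ), ‖tm (d i) l w n • A i n‖
      = ‖tm (d i) l 0 n‖ * ‖A i n‖ * Real.exp (n * w.re) := by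
    intro i w n
    rw [norm_smul, norm_tm, norm_tm, mul_right_comm, ← Real.exp_add]
    congr 2
    simp only [zero_re]
    ring
  refine (gap_core d hl0 (fun i n => ‖tm (d i) l 0 n‖ * ‖A i n‖)
    (fun i n => by positivity) (fun i => ?_) (fun i x => ?_) (fun i n => ?_)).elim ?_
  rotate_left 3
  · rintro x ⟨m, h⟩
    refine ⟨x, m, fun i => tm (d i) l 0 (m i) • A i (m i), fun i => ⟨?_, fun w hw => ?_⟩⟩
    · intro h0
      beta_reduce at h0
      have := (h i).1
      rw [← norm_smul, h0, norm_zero] at this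
      exact lt_irrefl _ this
    · have hg : max g0 1 ≤ l.re / (2 * M) := by
        rw [le_div_iff₀ (by positivity)]; linarith
      have hgpos : 0 < l.re / (2 * M) := by positivity
      have ht := tail_le (hasSum_comb (A i) hl0 w) (m := m i)
        (c := ‖tm (d i) l 0 (m i)‖ * ‖A i (m i)‖ * Real.exp (m i * x)) (by positivity) hgpos
        (fun n => by rw [hnorm, hw]; exact (h i).2 n)
      have e : tm (d i) l 0 (m i) • A i (m i)
          = cexp (-(m i * w)) • tm (d i) l w (m i) • A i (m i) := by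
        rw [smul_smul]
        congr 1
        unfold tm
        rw [← Complex.exp_add]
        congr 1
        ring
      have hε' := hg0 _ ((le_max_left _ _).trans hg)
      have e2 : ‖cexp (-(m i * w))‖ * Real.exp (m i * x) = 1 := by
        rw [Complex.norm_exp, ← Real.exp_add]
        simp [hw]
      show ‖_ - tm (d i) l 0 (m i) • A i (m i)‖ ≤ ε * ‖tm (d i) l 0 (m i) • A i (m i)‖
      conv_lhs => rw [e, ← smul_sub, norm_smul]
      rw [norm_smul]
      calc _ ≤ ‖cexp (-(m i * w))‖ * (‖tm (d i) l 0 (m i)‖ * ‖A i (m i)‖ * Real.exp (m i * x) * ε) := by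
            gcongr
            refine ht.trans ?_
            gcongr
        _ = (‖cexp (-(m i * w))‖ * Real.exp (m i * x)) * (ε * (‖tm (d i) l 0 (m i)‖ * ‖A i (m i)‖)) := by
            ring
        _ = _ := by rw [e2, one_mul]
  · obtain ⟨j, hj⟩ := Function.ne_iff.1 (hA i)
    refine ⟨(j.val : ℤ), mul_pos (norm_pos_iff.2 (tm_ne_zero _ _ _ _)) (norm_pos_iff.2 ?_)⟩
    simpa using hj
  · have hs := (summable_norm_tm (NeZero.ne (d i)) hl0 (x : ℂ)).mul_right (∑ j, ‖A i j‖)
    refine hs.of_nonneg_of_le (fun n => by positivity) fun n => ?_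
    have := hnorm i x n
    rw [ofReal_re] at this
    rw [← this, norm_smul]
    gcongr
    exact Finset.single_le_sum (f := fun j => ‖A i j‖) (fun _ _ => norm_nonneg _)
      (Finset.mem_univ _)
  · have e : (((n + (d i : ℤ) : ℤ)) : ZMod (d i)) = (n : ZMod (d i)) := by push_cast; simp
    have hd : (d i : ℝ) ≠ 0 := by exact_mod_cast NeZero.ne (d i)
    simp only [e]
    rw [mul_right_comm, norm_tm, norm_tm, ← Real.exp_add]
    congr 2
    simp only [zero_re]
    push_cast
    field_simp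
    ring

end Pool.Agent.RC.Th
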