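import Pool.Agent.Lib.RC.Th88

/-!
Doubly periodic meromorphic functions are quotients of theta functions of one level.
-/

open Complex Filter Topology Set
open scoped Real

namespace Pool.Agent.RC.Th

lemma th_one_zero (l : ℂ) : th 1 0 l (π * I) = 0 := by
  have e : ∀ n : ℤ, (if (n : ZMod 1) = 0 then tm 1 l (π * I) n else 0) = tm 1 l (π * I) n :=
    fun n => if_pos (Subsingleton.elim _ _)
  have h : th 1 0 l (π * I) = ∑' n : ℤ, tm 1 l (π * I) n := tsum_congr e
  have h2 : ∀ n : ℤ, tm 1 l (π * I) (-1 - n) = -tm 1 l (π * I) n := by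
    intro n
    unfold tm
    have : (((-1 - n : ℤ) : ℂ)) * (π * I) - l * (((-1 - n : ℤ) : ℂ) * (((-1 - n : ℤ) : ℂ) + (1 : ℕ)))
        / (2 * (1 : ℕ)) = ((n : ℂ) * (π * I) - l * (n * (n + (1 : ℕ))) / (2 * (1 : ℕ)))
          + (((-1 - n : ℤ) : ℂ) * (2 * π * I) + π * I) := by
      push_cast; ring
    rw [this, Complex.exp_add, Complex.exp_add, Complex.exp_int_mul_two_pi_mul_I, exp_pi_mul_I]
    ring
  have h3 := (Equiv.subLeft (-1 : ℤ)).tsum_eq (tm 1 l (π * I))
  simp only [Equiv.subLeft_apply, h2, tsum_neg] at h3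
  rw [h]
  linear_combination (-1 / 2 : ℂ) * h3

lemma th_one_ne {l : ℂ} (hl : 0 < l.re) : ∃ w, th 1 0 l w ≠ 0 := by
  by_contra h
  push Not at h
  have := eq_zero_of_comb (d := 1) (fun _ => 1) hl fun w => by
    rw [Fintype.sum_subsingleton _ (0 : ZMod 1), h, zero_mul]
  exact one_ne_zero (congrFun this 0)

/-- an entire function which is not identically zero has isolated zeros -/
lemma eventually_ne_zero {s : ℂ → ℂ} (hs : Differentiable ℂ s) (h : ∃ w, s w ≠ 0) (p : ℂ) :
    ∀ᶠ w in 𝓝[≠] p, s w ≠ 0 := by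
  have han : AnalyticOnNhd ℂ s univ := hs.differentiableOn.analyticOnNhd isOpen_univ
  rcases (han p (mem_univ p)).eventually_eq_zero_or_eventually_ne_zero with h0 | h0
  · obtain ⟨w, hw⟩ := h
    exact absurd (han.eqOn_zero_of_preconnected_of_eventuallyEq_zero isPreconnected_univ
      (mem_univ p) h0 (mem_univ w)) hw
  · exact h0

/-- a non-zero combination of theta functions has isolated zeros -/
theorem comb_eventually_ne_zero {d : ℕ} [NeZero d] {A : ZMod d → ℂ} (hA : A ≠ 0) {l : ℂ}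
    (hl : 0 < l.re) (p : ℂ) : ∀ᶠ w in 𝓝[≠] p, ∑ j, th d j l w * A j ≠ 0 := by
  refine eventually_ne_zero (s := fun w => ∑ j, th d j l w * A j)
    (Differentiable.fun_sum fun j _ => (differentiable_th (NeZero.ne d) j hl).mul_const _) ?_ p
  by_contra h
  push Not at h
  exact hA (eq_zero_of_comb A hl h)

lemma int_induct {Q : ℂ → Prop} {c : ℂ} (h : ∀ w, Q (w + c) ↔ Q w) (n : ℤ) (w : ℂ) :
    Q (w + n * c) ↔ Q w := by
  induction n using Int.induction_on generalizing w with
  | zero => simp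
  | succ n ih =>
    have : w + ((n + 1 : ℤ) : ℂ) * c = (w + ((n : ℤ) : ℂ) * c) + c := by push_cast; ring
    rw [this, h, ih]
  | pred n ih =>
    have : w + ((-n : ℤ) : ℂ) * c = (w + ((-n - 1 : ℤ) : ℂ) * c) + c := by push_cast; ring
    rw [← ih w, this, h]

/-- a compact set meeting every class modulo the periods -/
lemma exists_fund {l : ℂ} (hl : 0 < l.re) : ∃ P : Set ℂ, IsCompact P ∧ ∀ Q : ℂ → Prop,
    (∀ w, Q (w + 2 * π * I) ↔ Q w) → (∀ w, Q (w + l) ↔ Q w) → (∀ w ∈ P, Q w) → ∀ w, Q w := by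
  refine ⟨Icc 0 l.re ×ℂ Icc 0 (2 * π), isCompact_Icc.reProdIm isCompact_Icc,
    fun Q h1 h2 hP w => ?_⟩
  set m : ℤ := -⌊w.re / l.re⌋ with hm
  set w1 := w + m * l with hw1
  set n : ℤ := -⌊w1.im / (2 * π)⌋ with hn
  rw [← int_induct h2 m w, ← hw1, ← int_induct h1 n w1]
  refine hP _ ⟨?_, ?_⟩
  · have e : (w1 + n * (2 * π * I)).re = w.re - ⌊w.re / l.re⌋ * l.re := by
      simp [hw1, hm]; ring
    show (w1 + n * (2 * π * I)).re ∈ Icc 0 l.re
    rw [e]
    exact ⟨Int.sub_floor_div_mul_nonneg _ hl, (Int.sub_floor_div_mul_lt _ hl).le⟩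
  · have e : (w1 + n * (2 * π * I)).im = w1.im - ⌊w1.im / (2 * π)⌋ * (2 * π) := by
      simp [hn]; ring
    show (w1 + n * (2 * π * I)).im ∈ Icc 0 (2 * π)
    rw [e]
    exact ⟨Int.sub_floor_div_mul_nonneg _ Real.two_pi_pos,
      (Int.sub_floor_div_mul_lt _ Real.two_pi_pos).le⟩

lemma finite_bad {G P : Set ℂ} (hP : IsCompact P) (hG : ∀ p, ∀ᶠ w in 𝓝[≠] p, w ∈ G) :
    (P \ G).Finite := by
  obtain ⟨t, -, ht⟩ := hP.elim_nhds_subcover (fun p => {p} ∪ G) (fun p _ => by
    have := hG p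
    rw [eventually_nhdsWithin_iff] at this
    filter_upwards [this] with w hw
    by_cases h : w = p
    · exact Or.inl h
    · exact Or.inr (hw h))
  refine t.finite_toSet.subset fun w hw => ?_
  obtain ⟨p, hp, hwp⟩ := mem_iUnion₂.1 (ht hw.1)
  rcases hwp with h | h
  · rw [mem_singleton_iff.1 h]; exact hp
  · exact absurd h hw.2

/-- CLEAR: finitely many doubly periodic meromorphic functions, continuous on a periodic set `G`
with discrete complement, are quotients of theta functions of one level, with a denominator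
that vanishes off `G`. -/
theorem clear {ι : Type*} [Finite ι] {l : ℂ} (hl : 0 < l.re) (G : Set ℂ) (a : ι → ℂ → ℂ)
    (hG : ∀ p, ∀ᶠ w in 𝓝[≠] p, w ∈ G)
    (hG1 : ∀ w, w + 2 * π * I ∈ G ↔ w ∈ G) (hG2 : ∀ w, w + l ∈ G ↔ w ∈ G)
    (hm : ∀ i p, MeromorphicAt (a i) p) (hc : ∀ i, ∀ w ∈ G, ContinuousAt (a i) w)
    (h1 : ∀ i, ∀ w ∈ G, a i (w + 2 * π * I) = a i w) (h2 : ∀ i, ∀ w ∈ G, a i (w + l) = a i w) :
    ∃ (d : ℕ) (_ : NeZero d) (A0 : ZMod d → ℂ) (A : ι → ZMod d → ℂ), A0 ≠ 0 ∧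
      (∀ w, w ∉ G → ∑ j, th d j l w * A0 j = 0) ∧
      ∀ i w, ∑ j, th d j l w * A i j = (∑ j, th d j l w * A0 j) * a i w := by
  classical
  obtain ⟨P, hP, hfund⟩ := exists_fund hl
  set S := (finite_bad hP hG).toFinset with hS
  have hmem : ∀ p, p ∈ S ↔ p ∈ P ∧ p ∉ G := fun p => by simp [hS]
  choose k hk using hm
  obtain ⟨N, hN⟩ : ∃ N : ℕ, ∀ i, ∀ p ∈ S, k i p ≤ N := by
    obtain ⟨N, hN⟩ := (Set.finite_range fun q : ι × S => k q.1 q.2).bddAbove
    exact ⟨N, fun i p hp => hN ⟨(i, ⟨p, hp⟩), rfl⟩⟩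
  set θ := th 1 0 l with hθ
  have hθd : Differentiable ℂ θ := differentiable_th one_ne_zero 0 hl
  set c : ℂ := ∑ p ∈ S, ((N + 1 : ℕ) : ℂ) * (π * I - p) with hcdef
  set s0 : ℂ → ℂ := fun w => (∏ p ∈ S, θ (w + (π * I - p)) ^ (N + 1)) * θ (w - c) with hs0
  set d : ℕ := S.card * (N + 1) + 1 with hd
  haveI : NeZero d := ⟨by omega⟩
  have hs0d : Differentiable ℂ s0 := by
    refine Differentiable.mul (Differentiable.fun_finsetProd fun p _ => ?_) (by fun_prop)
    fun_prop
  have hp0 : ∀ w, s0 (w + 2 * π * I) = s0 w := by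
    intro w
    have e : ∀ b, θ (w + 2 * π * I + b) = θ (w + b) := fun b => by
      rw [add_right_comm, hθ, th_add_two_pi]
    simp only [hs0, sub_eq_add_neg _ c, e]
  have hq0 : ∀ w, s0 (w + l) = cexp (d * w) * s0 w := by
    intro w
    have e : ∀ b, θ (w + l + b) = cexp (w + b) * θ (w + b) := fun b => by
      rw [add_right_comm, hθ, th_add_l one_ne_zero, Nat.cast_one, one_mul]
    simp only [hs0, sub_eq_add_neg _ c, e, mul_pow, Finset.prod_mul_distrib, ← Complex.exp_nat_mul,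
      ← Complex.exp_sum]
    have e2 : cexp (d * w) = cexp (∑ p ∈ S, ((N + 1 : ℕ) : ℂ) * (w + (π * I - p)))
        * cexp (w + -c) := by
      rw [← Complex.exp_add]
      congr 1
      simp only [mul_add, Finset.sum_add_distrib, Finset.sum_const, nsmul_eq_mul, ← hcdef, hd]
      push_cast; ring
    rw [e2]; ring
  have hz : ∀ w, w ∉ G → s0 w = 0 := by
    refine hfund _ (fun w => ?_) (fun w => ?_) fun p hp hpG => ?_
    · rw [hG1, hp0]
    · rw [hG2, hq0, mul_eq_zero, or_iff_right (Complex.exp_ne_zero _)]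
    · refine mul_eq_zero_of_left (Finset.prod_eq_zero ((hmem p).2 ⟨hp, hpG⟩) ?_) _
      rw [add_sub_cancel, hθ, th_one_zero, zero_pow (Nat.succ_ne_zero _)]
  have hne : ∃ w, s0 w ≠ 0 := by
    obtain ⟨w0, hw0⟩ := th_one_ne hl
    have e : ∀ b : ℂ, ∀ᶠ w in 𝓝[≠] (0 : ℂ), θ (w + b) ≠ 0 := fun b =>
      eventually_ne_zero (s := fun w => θ (w + b)) (by fun_prop)
        ⟨w0 - b, by simpa only [sub_add_cancel] using hw0⟩ 0
    have e2 := ((eventually_all_finset S).2 fun p _ => e (π * I - p)).and (e (-c))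
    obtain ⟨w, hw, hw'⟩ := e2.exists
    refine ⟨w, mul_ne_zero (Finset.prod_ne_zero_iff.2 fun p hp => pow_ne_zero _ (hw p hp)) ?_⟩
    rwa [sub_eq_add_neg]
  have hp1 : ∀ i w, s0 (w + 2 * π * I) * a i (w + 2 * π * I) = s0 w * a i w := by
    intro i w
    by_cases hw : w ∈ G
    · rw [hp0, h1 i w hw]
    · rw [hp0, hz w hw, zero_mul, zero_mul]
  have hq1 : ∀ i w, s0 (w + l) * a i (w + l) = cexp (d * w) * (s0 w * a i w) := by
    intro i w
    by_cases hw : w ∈ G
    · rw [hq0, h2 i w hw, mul_assoc]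
    · rw [hq0, hz w hw]; simp
  have hshift : ∀ (s e : ℂ → ℂ) (b : ℂ), Differentiable ℂ e → (∀ w, e w ≠ 0) →
      (∀ w, s (w + b) = e w * s w) → ∀ w, DifferentiableAt ℂ s (w + b) ↔ DifferentiableAt ℂ s w := by
    intro s e b he he0 hs w
    rw [← differentiableAt_comp_add_right]
    simp only [hs]
    constructor
    · intro h
      have h' := ((he w).inv (he0 w)).mul h
      refine h'.congr_of_eventuallyEq (Eventually.of_forall fun z => ?_)
      simp only [Pi.mul_apply, Pi.inv_apply]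
      rw [inv_mul_cancel_left₀ (he0 z)]
    · exact fun h => (he w).mul h
  have hd1 : ∀ i, Differentiable ℂ fun w => s0 w * a i w := by
    intro i
    refine hfund (fun w => DifferentiableAt ℂ (fun w => s0 w * a i w) w)
      (hshift _ (fun _ => 1) _ (differentiable_const _) (fun _ => one_ne_zero)
        fun w => by rw [hp1, one_mul])
      (hshift _ (fun w => cexp (d * w)) _ (by fun_prop) (fun _ => Complex.exp_ne_zero _)
        (hq1 i)) fun p hp => ?_
    by_cases hpG : p ∈ G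
    · exact (hs0d p).mul
        (MeromorphicAt.analyticAt ⟨k i p, hk i p⟩ (hc i p hpG)).differentiableAt
    · have hpS := (hmem p).2 ⟨hp, hpG⟩
      set u : ℂ → ℂ := fun w => θ (w + (π * I - p)) with hu
      have hud : Differentiable ℂ u := by rw [hu]; fun_prop
      have hup : u p = 0 := by
        simp only [hu]; rw [add_sub_cancel, hθ, th_one_zero]
      have hds : DifferentiableAt ℂ (dslope u p) p :=
        ((differentiableOn_dslope (s := univ) univ_mem).2 hud.differentiableOn).differentiableAt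
          univ_mem
      have e : (fun w => s0 w * a i w) = fun w => (dslope u p w ^ (N + 1) * (w - p) ^ (N + 1 - k i p)
          * ((∏ q ∈ S.erase p, θ (w + (π * I - q)) ^ (N + 1)) * θ (w - c)))
            * ((w - p) ^ k i p • a i w) := by
        funext w
        have e1 : u w = (w - p) * dslope u p w := by
          have := sub_smul_dslope u p w
          rw [hup, sub_zero, smul_eq_mul] at this
          exact this.symm
        have e2 : (w - p) ^ (N + 1) = (w - p) ^ (N + 1 - k i p) * (w - p) ^ k i p := by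
          rw [← pow_add, Nat.sub_add_cancel ((hN i p hpS).trans (Nat.le_succ _))]
        simp only [hs0]
        rw [← Finset.mul_prod_erase S _ hpS]
        change u w ^ (N + 1) * _ * _ * _ = _
        rw [e1, mul_pow, e2, smul_eq_mul]
        ring
      rw [e]
      refine DifferentiableAt.mul (DifferentiableAt.mul (by fun_prop) ?_) (hk i p).differentiableAt
      refine DifferentiableAt.mul (DifferentiableAt.fun_finsetProd fun q _ => ?_) (by fun_prop)
      fun_prop
  obtain ⟨A0, hA0⟩ := rep hl hs0d hp0 hq0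
  choose A hA using fun i => rep hl (hd1 i) (hp1 i) (hq1 i)
  refine ⟨d, inferInstance, A0, A, ?_, fun w hw => by rw [← hA0, hz w hw],
    fun i w => by rw [← hA0, ← hA]⟩
  rintro rfl
  obtain ⟨w, hw⟩ := hne
  exact hw (by rw [hA0]; simp)

end Pool.Agent.RC.Th
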