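import Pool.Agent.Lib.RC.Pi77b
import Pool.Agent.Lib.RC.Th88b
import Pool.Agent.Lib.RC.Th88c
import Pool.Agent.Lib.RC.Deg44
import Pool.Agent.Lib.RC.Close64
import Pool.Agent.Lib.RC.Space7

/-! Extension over zeros of the denominator, and short loops for large modulus. -/

namespace Pool.Agent.RC.P77

open MvPolynomial Set Filter Topology Complex Pool.Agent.RC.Th Pool.Agent.RC.Sp Pool.Agent.RC.D44
open Pool.Agent.Lib.RC
open scoped Real

theorem meromorphicAt_aeval {V : Type} {u : V → ℂ → ℂ} {z : ℂ} (hu : ∀ i, MeromorphicAt (u i) z)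
    (P : MvPolynomial V ℝ) : MeromorphicAt (fun w => aeval (fun i => u i w) P) z := by
  induction P using MvPolynomial.induction_on with
  | C a => simpa only [aeval_C] using MeromorphicAt.const _ z
  | add p q hp hq => simpa only [map_add] using hp.fun_add hq
  | mul_X p j hp => simpa only [map_mul, aeval_X] using hp.fun_mul (hu j)

theorem tendsto_of_cluster {m : ℂ → ℂ} {z c : ℂ} (hm : MeromorphicAt m z)
    (hc : MapClusterPt c (𝓝[≠] z) m) : Tendsto m (𝓝[≠] z) (𝓝 c) := by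
  by_cases h : meromorphicOrderAt m z < 0
  · have h1 := tendsto_cobounded_of_meromorphicOrderAt_neg h
    have h2 : ∀ᶠ w in 𝓝[≠] z, m w ∉ Metric.ball c 1 :=
      h1.eventually (Metric.isBounded_ball (x := c) (r := 1))
    exact absurd h2 (by
      rw [← not_frequently, not_not]
      exact hc.frequently (Metric.ball_mem_nhds c one_pos))
  · obtain ⟨c', hc'⟩ := tendsto_nhds_of_meromorphicOrderAt_nonneg hm (not_lt.1 h)
    have : c = c' := eq_of_nhds_neBot (hc.clusterPt.mono hc')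
    rwa [this]

variable {n : ℕ} {M : Dat n} (H : M.Ok)

theorem ext_lim {b : M.B} {u : M.V b → ℂ → ℂ} {z : ℂ} (hu : ∀ i, MeromorphicAt (u i) z)
    (hZ : ∀ᶠ w in 𝓝[≠] z, (fun i => u i w) ∈ M.Z ℂ b) :
    ∃ x, Tendsto (fun w => ι H b fun i => u i w) (𝓝[≠] z) (𝓝 x) := by
  have := H.fin
  obtain ⟨x, -, hx⟩ := isCompact_univ.exists_mapClusterPt (f := 𝓝[≠] z)
    (u := fun w => ι H b fun i => u i w) (by simp)
  obtain ⟨g, hg⟩ := exists_dom H x
  have h1 : ∃ᶠ w in 𝓝[≠] z, ∃ l, aeval (fun i => u i w) (M.ob b g l) ≠ 0 := by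
    refine ((hx.frequently ((isOpen_dom H g).mem_nhds hg)).and_eventually hZ).mono ?_
    rintro w ⟨h1, h2⟩
    obtain ⟨l, hl, -⟩ := same_crd H (ι_mem H h2) h1
    rw [crd_ι H h2] at hl
    exact ⟨l, hl⟩
  obtain ⟨l, hl⟩ := frequently_exists.1 h1
  have h2 : ∀ᶠ w in 𝓝[≠] z, aeval (fun i => u i w) (M.ob b g l) ≠ 0 :=
    (meromorphicAt_aeval hu _).eventually_eq_zero_or_eventually_ne_zero.resolve_left
      fun h => hl (h.mono fun w hw => not_not.2 hw)
  have h3 : ∀ᶠ w in 𝓝[≠] z, ι H b (fun i => u i w) ∈ dom H g ∧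
      crd H g (ι H b fun i => u i w) = tr b g l fun i => u i w := by
    filter_upwards [h2, hZ] with w h1 h2
    have := mem_dom_of_ne H (l := l) (ι_mem H h2) (by rwa [crd_ι H h2])
    rwa [crd_ι H h2] at this
  have h4 : Tendsto (fun w => crd H g (ι H b fun i => u i w)) (𝓝[≠] z) (𝓝 (crd H g x)) := by
    refine tendsto_pi_nhds.2 fun i => tendsto_of_cluster ?_ ?_
    · refine ((meromorphicAt_aeval hu (M.oa b g l i)).fun_div
        (meromorphicAt_aeval hu (M.ob b g l))).congr (h3.mono fun w hw => ?_)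
      exact (congrFun hw.2 i).symm
    · exact hx.continuousAt_comp (f := fun y => crd H g y i)
        ((continuous_apply i).continuousAt.comp (continuousAt_crd H hg))
  have h5 := tendsto_ι H (h3.mono fun w hw => crd_mem H hw.1) (crd_mem H hg) h4
  exact ⟨_, h5.congr' (h3.mono fun w hw => ι_crd H hw.1)⟩

theorem ext_cont {b : M.B} {F0 : ℂ → ℂ} {F : M.V b → ℂ → ℂ} (h0 : Differentiable ℂ F0)
    (h : ∀ i, Differentiable ℂ (F i)) (hne : ∃ w, F0 w ≠ 0)
    (hZ : ∀ w, F0 w ≠ 0 → (fun i => F i w / F0 w) ∈ M.Z ℂ b) :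
    ∃ f : ℂ → X H, Continuous f ∧ ∀ w, F0 w ≠ 0 → f w = ι H b fun i => F i w / F0 w := by
  have hev : ∀ z, ∀ᶠ w in 𝓝[≠] z, F0 w ≠ 0 := eventually_ne_zero h0 hne
  have hd : Dense {w | F0 w ≠ 0} := fun z =>
    mem_closure_iff_frequently.2 ((hev z).frequently.filter_mono nhdsWithin_le_nhds)
  have hc : ContinuousOn (fun w => ι H b fun i => F i w / F0 w) {w | F0 w ≠ 0} :=
    (continuousOn_ι H b).comp (continuousOn_pi.2 fun i => (h i).continuous.continuousOn.div
      h0.continuous.continuousOn fun _ hw => hw) hZ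
  refine ⟨extendFrom {w | F0 w ≠ 0} fun w => ι H b fun i => F i w / F0 w,
    continuous_extendFrom hd fun z => ?_, extendFrom_extends hc⟩
  by_cases hz : F0 z = 0
  · obtain ⟨x, hx⟩ := ext_lim H (u := fun i w => F i w / F0 w) (z := z)
      (fun i => ((h i).analyticAt z).meromorphicAt.fun_div (h0.analyticAt z).meromorphicAt)
      ((hev z).mono hZ)
    exact ⟨x, hx.mono_left (nhdsWithin_mono _ fun w hw hwz => hw (by rw [hwz]; exact hz))⟩
  · exact ⟨_, hc z hz⟩

theorem per_of_dense {Y : Type*} [TopologicalSpace Y] [T2Space Y] {f : ℂ → Y} (hf : Continuous f)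
    {F0 : ℂ → ℂ} (h0 : Differentiable ℂ F0) (hne : ∃ w, F0 w ≠ 0) {c : ℂ}
    (h : ∀ w, F0 w ≠ 0 → f (w + c) = f w) (w : ℂ) : f (w + c) = f w := by
  have hd : Dense {w | F0 w ≠ 0} := fun z => mem_closure_iff_frequently.2
    ((eventually_ne_zero h0 hne z).frequently.filter_mono nhdsWithin_le_nhds)
  exact congrFun (Continuous.ext_on hd (hf.comp (continuous_add_const c)) hf h) w

theorem close : ∃ δ > 0, ∀ g g' : ℝ → X H, Continuous g → Continuous g' →
    (∀ θ, g (θ + 2 * π) = g θ) → (∀ θ, g' (θ + 2 * π) = g' θ) → (∀ θ, dist (g θ) (g' θ) < δ) →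
    LH g g' := by
  obtain ⟨δ, hδ, m, hm⟩ := CLOSE.exists_slide (X := X H) (E := E n) fun x => by
    obtain ⟨ψ, -, hx⟩ := (atlas H).cover x
    exact ⟨ψ, hx⟩
  refine ⟨δ, hδ, fun g g' hg hg' p p' hd => LH.of_on (fun q => m q.1 (g q.2) (g' q.2)) ?_
    (fun s _ θ => by simp only [p, p']) (fun θ => hm.zero _ _ (hd θ))
    fun θ => hm.one _ _ (hd θ) (mem_univ _)⟩
  exact hm.cont.comp (f := fun q : ℝ × ℝ => (q.1, g q.2, g' q.2)) (by fun_prop)
    fun q hq => ⟨hq.1, hd _⟩

/-- for large modulus some vertical line has a small image -/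
theorem short (b : M.B) (d : ℕ) [NeZero d] {δ : ℝ} (hδ : 0 < δ) :
    ∃ L : ℝ, ∀ (l : ℂ) (c : Option (M.V b) → ZMod d → ℂ) (f : ℂ → X H), 0 < l.re → L ≤ l.re →
      Valid (M.Z ℂ b) d l c → (∀ w, S d l (c none) w ≠ 0 →
        f w = ι H b fun i => S d l (c (some i)) w / S d l (c none) w) →
      ∃ (x : ℝ) (y : X H), ∀ θ, dist (loop f x θ) y < δ := by
  classical
  have := H.fin
  have := Fintype.ofFinite M.B
  obtain ⟨ε, hε, hT⟩ := tdeg M.V (M.Z ℂ) isClosed_Z (ι H) (continuousOn_ι H) (dom H)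
    (isOpen_dom H) (exists_dom H) (crd H) (continuousOn_crd H)
    (fun g x hx => ⟨crd_mem H hx, ι_crd H hx⟩) hδ
  set P : ∀ g, Fin (M.L b g) → Option (M.V g) → MvPolynomial (M.V b) ℝ :=
    fun g l o => o.elim (M.ob b g l) (M.oa b g l) with hP
  obtain ⟨N, hN⟩ : ∃ N, ∀ g l o, (P g l o).totalDegree ≤ N := by
    obtain ⟨N, hN⟩ := (finite_range fun q : Σ g, Fin (M.L b g) × Option (M.V g) =>
      (P q.1 q.2.1 q.2.2).totalDegree).bddAbove
    exact ⟨N, fun g l o => hN ⟨⟨g, l, o⟩, rfl⟩⟩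
  have : NeZero (d * (N + 1)) := ⟨mul_ne_zero (NeZero.ne d) (Nat.succ_ne_zero N)⟩
  obtain ⟨L, -, hL⟩ := gap (ι := Σ g, Fin (M.L b g)) (fun _ => d * (N + 1))
    (fun q => Option (M.V q.1) → ℂ) hε
  refine ⟨L, fun l c f hl hLl hv hf => ?_⟩
  set G : ∀ g, Fin (M.L b g) → ℂ → Option (M.V g) → ℂ := fun g k w o =>
    S d l (c none) w * hg N (P g k o) (S d l (c none) w) fun i => S d l (c (some i)) w with hG
  have hrep : ∀ g k o, ∃ A : ZMod (d * (N + 1)) → ℂ,
      ∀ w, G g k w o = ∑ j, th (d * (N + 1)) j l w * A j := by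
    intro g k o
    refine rep hl ((differentiable_S d hl _).mul (differentiable_hg N _ (differentiable_S d hl _)
      fun i => differentiable_S d hl _)) (fun w => by simp only [hG, S_per]) fun w => ?_
    simp only [hG, S_add]
    rw [hg_smul (hN g k o)]
    have : cexp (((d * (N + 1) : ℕ) : ℂ) * w) = cexp (d * w) ^ N * cexp (d * w) := by
      rw [← pow_succ, ← Complex.exp_nat_mul]
      congr 1
      push_cast
      ring
    rw [this]
    ring
  choose A hA using hrep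
  have hA' : ∀ g k w, ∑ j, th (d * (N + 1)) j l w • (fun o => A g k o j) = G g k w := by
    intro g k w
    funext o
    rw [Finset.sum_apply, hA]
    rfl
  obtain ⟨x, m, B, hB⟩ := hL l hLl
    (fun q => if (fun j o => A q.1 q.2 o j) = 0 then 1 else fun j o => A q.1 q.2 o j)
    fun q => by
      split_ifs with h
      · exact one_ne_zero
      · exact h
  obtain ⟨θ0, hθ0⟩ : ∃ θ : ℝ, S d l (c none) (x + θ * I) ≠ 0 := by
    by_contra hc
    push Not at hc
    obtain ⟨w, hw⟩ := hv.1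
    have h1 := eq_zero_of_samples (G := fun u => S d l (c none) (x + u * I))
      ((differentiable_S d hl _).comp (by fun_prop))
      (fun s => by simpa using hc (1 / ((s : ℝ) + 1))) ((w - x) / I)
    rw [div_mul_cancel₀ _ I_ne_zero, add_sub_cancel] at h1
    exact hw h1
  have hGe : ∀ g k w o, S d l (c none) w ≠ 0 → G g k w o = S d l (c none) w ^ (N + 1) *
      aeval (fun i => S d l (c (some i)) w / S d l (c none) w) (P g k o) := by
    intro g k w o hw
    simp only [hG]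
    rw [hg_div (hN g k o) hw]
    ring
  refine ⟨x, f (x + θ0 * I), fun θ => hT ℂ (fun g => Fin (M.L b g)) f G {w | w.re = x} _
    (by simp) (fun g hg => ?_) (fun g k w hw => ?_) (fun g k hk => ?_) _ (by simp)⟩
  · rw [hf _ hθ0] at hg
    obtain ⟨k, hk, -⟩ := same_crd H (ι_mem H (hv.2 _ hθ0)) hg
    rw [crd_ι H (hv.2 _ hθ0)] at hk
    exact ⟨k, by rw [hGe _ _ _ _ hθ0]; exact mul_ne_zero (pow_ne_zero _ hθ0) hk⟩
  · have h0 : S d l (c none) w ≠ 0 := left_ne_zero_of_mul hw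
    have h1 := hw
    rw [hGe _ _ _ _ h0] at h1
    have h2 := mem_dom_of_ne H (l := k) (ι_mem H (hv.2 _ h0))
      (by rw [crd_ι H (hv.2 _ h0)]; exact right_ne_zero_of_mul h1)
    rw [crd_ι H (hv.2 _ h0), ← hf _ h0] at h2
    refine ⟨h2.1, fun i => ?_⟩
    rw [h2.2, hGe _ _ _ _ h0, hGe _ _ _ _ h0, mul_div_mul_left _ _ (pow_ne_zero _ h0)]
    rfl
  · have h1 : (fun j o => A g k o j) ≠ 0 := by
      intro h
      obtain ⟨w, hw⟩ := hk
      refine hw ((hA' g k w).symm.trans (Finset.sum_eq_zero fun j _ => ?_))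
      rw [show (fun o => A g k o j) = 0 from congrFun h j, smul_zero]
    obtain ⟨h2, h3⟩ := hB ⟨g, k⟩
    refine ⟨_, h2, fun w hw => ⟨cexp (-(m ⟨g, k⟩ * w)), ?_⟩⟩
    have h4 := h3 w hw
    simp only [if_neg h1] at h4
    rwa [hA'] at h4

end Pool.Agent.RC.P77
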