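import Pool.Agent.Lib.RC.Spr25

/-! Spreading in the language of polynomial relations over a coefficient ring. -/

open Polynomial Filter Topology Set

noncomputable section

namespace Pool.Agent.RC.Spr

/-- `a'` satisfies every relation of `a` with coefficients in `k`. -/
def Rel {k I : Type} [CommRing k] (c : k →+* ℂ) (a a' : I → ℂ) : Prop :=
  ∀ Φ : MvPolynomial I k, MvPolynomial.eval₂ c a Φ = 0 → MvPolynomial.eval₂ c a' Φ = 0

/-- II.2 SP. -/
theorem sp {k I J : Type} [CommRing k] [Finite J] (c : k →+* ℂ) (a : I → ℂ) (b : J → ℂ) :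
    ∃ (P : (MvPolynomial I ℂ)[X]) (D : MvPolynomial I ℂ) (G : J → (MvPolynomial I ℂ)[X]) (Y₀ : ℂ),
      P.Monic ∧ MvPolynomial.eval a D ≠ 0 ∧ P.eval₂ (MvPolynomial.eval a) Y₀ = 0 ∧
      (derivative P).eval₂ (MvPolynomial.eval a) Y₀ ≠ 0 ∧
      (∀ j, b j = (G j).eval₂ (MvPolynomial.eval a) Y₀ / MvPolynomial.eval a D) ∧
      ∀ (a' : I → ℂ) (Y : ℂ), Rel c a a' → MvPolynomial.eval a' D ≠ 0 →
        P.eval₂ (MvPolynomial.eval a') Y = 0 → Rel c (Sum.elim a b) (Sum.elim a' fun j =>
          (G j).eval₂ (MvPolynomial.eval a') Y / MvPolynomial.eval a' D) := by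
  classical
  have h0 : Rel c a a := fun _ h => h
  obtain ⟨R, _, mk, i, hmk, hmi, hi⟩ : ∃ (R : Type) (_ : CommRing R) (mk : MvPolynomial I k →+* R)
      (i : ∀ a', Rel c a a' → R →+* ℂ), Function.Surjective mk ∧
      (∀ a' h x, i a' h (mk x) = MvPolynomial.eval₂ c a' x) ∧ Function.Injective (i a h0) :=
    ⟨MvPolynomial I k ⧸ RingHom.ker (MvPolynomial.eval₂Hom c a), inferInstance,
      Ideal.Quotient.mk _, fun a' h => Ideal.Quotient.lift _ (MvPolynomial.eval₂Hom c a') h,
      Ideal.Quotient.mk_surjective, fun _ _ _ => rfl, RingHom.kerLift_injective _⟩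
  let g : MvPolynomial J R →+* ℂ := MvPolynomial.eval₂Hom (i a h0) b
  let B := MvPolynomial J R ⧸ RingHom.ker g
  let mB : MvPolynomial J R →+* B := Ideal.Quotient.mk _
  obtain ⟨σ, s, P, w₀, D, N, l, p1, p2, p3, p4, p5, p6⟩ := core (B := B) (i a h0) hi
    (RingHom.kerLift g) fun x => (RingHom.kerLift_mk g _).trans (MvPolynomial.eval₂Hom_C _ _ x)
  let m : MvPolynomial σ (MvPolynomial I k) →+* MvPolynomial σ R := MvPolynomial.map mk
  have hm : Function.Surjective m := MvPolynomial.map_surjective _ hmk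
  let φ : MvPolynomial σ (MvPolynomial I k) →+* MvPolynomial I ℂ :=
    MvPolynomial.eval₂Hom (MvPolynomial.map c) fun x => MvPolynomial.C (s x)
  have hφ : ∀ a' h, (MvPolynomial.eval a').comp φ = (MvPolynomial.eval₂Hom (i a' h) s).comp m := by
    intro a' h
    refine MvPolynomial.ringHom_ext (fun r => ?_) fun x => by simp [φ, m]
    simp only [RingHom.comp_apply, φ, m, MvPolynomial.eval₂Hom_C, MvPolynomial.map_C,
      MvPolynomial.eval_map, hmi]
  have hp : ∀ a' h Y (Q : (MvPolynomial σ (MvPolynomial I k))[X]),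
      (Q.map φ).eval₂ (MvPolynomial.eval a') Y =
        (Q.map m).eval₂ (MvPolynomial.eval₂Hom (i a' h) s) Y := fun a' h Y Q => by
    rw [eval₂_map, eval₂_map, hφ a' h]
  obtain ⟨P', rfl, -, hP'⟩ := lifts_and_natDegree_eq_and_monic
    ((mem_lifts P).2 (map_surjective m hm P)) p1
  obtain ⟨D', rfl⟩ := hm D
  choose N' hN' using fun j => map_surjective m hm (N (mB (MvPolynomial.X j)))
  have := Fintype.ofFinite J
  let M := (Finset.univ.sup fun j => l (mB (MvPolynomial.X j))) + 1
  have hM : ∀ j, l (mB (MvPolynomial.X j)) ≤ M := fun j =>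
    (Finset.le_sup (f := fun j => l (mB (MvPolynomial.X j))) (Finset.mem_univ j)).trans
      (Nat.le_succ _)
  have hD : ∀ a' h, MvPolynomial.eval a' (φ D') = MvPolynomial.eval₂Hom (i a' h) s (m D') :=
    fun a' h => RingHom.congr_fun (hφ a' h) D'
  have hG : ∀ a' h Y j, MvPolynomial.eval a' (φ D') ≠ 0 →
      ((N' j).map φ * C (φ D') ^ (M - l (mB (MvPolynomial.X j)))).eval₂ (MvPolynomial.eval a') Y /
        MvPolynomial.eval a' (φ D' ^ M) =
      (N (mB (MvPolynomial.X j))).eval₂ (MvPolynomial.eval₂Hom (i a' h) s) Y /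
        MvPolynomial.eval₂Hom (i a' h) s (m D') ^ l (mB (MvPolynomial.X j)) := by
    intro a' h Y j hne
    rw [eval₂_mul, eval₂_pow, eval₂_C, hp a' h, hN', map_pow, ← hD a' h,
      div_eq_div_iff (pow_ne_zero _ hne) (pow_ne_zero _ hne), mul_assoc, ← pow_add,
      Nat.sub_add_cancel (hM j)]
  have hne : MvPolynomial.eval a (φ D') ≠ 0 := (hD a h0).symm ▸ p4
  refine ⟨P'.map φ, φ D' ^ M, fun j => (N' j).map φ * C (φ D') ^ (M - l (mB (MvPolynomial.X j))),
    w₀, hP'.map φ, ?_, ?_, ?_, fun j => ?_, fun a' Y h h1 h2 Φ hΦ => ?_⟩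
  · rw [map_pow]
    exact pow_ne_zero _ hne
  · rw [hp a h0, p2]
  · rw [derivative_map, hp a h0, ← derivative_map]
    exact p3
  · rw [hG a h0 w₀ j hne, ← p5]
    exact ((RingHom.kerLift_mk g _).trans (MvPolynomial.eval₂Hom_X' _ _ j)).symm
  · have hne' : MvPolynomial.eval a' (φ D') ≠ 0 := fun h3 => h1 (by
      rw [map_pow, h3]
      exact zero_pow (Nat.succ_ne_zero _))
    obtain ⟨f, f1, f2⟩ := p6 (i a' h) Y ((hp a' h Y P').symm.trans h2) (hD a' h ▸ hne')
    let π : MvPolynomial (I ⊕ J) k →+* B := MvPolynomial.eval₂Hom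
      ((algebraMap R B).comp (mk.comp MvPolynomial.C))
      (Sum.elim (fun x => algebraMap R B (mk (MvPolynomial.X x))) fun j => mB (MvPolynomial.X j))
    have key : ∀ (a' : I → ℂ) (h : Rel c a a') (f : B →+* ℂ),
        (∀ x, f (algebraMap R B x) = i a' h x) → f (π Φ) = MvPolynomial.eval₂ c
          (Sum.elim a' fun j => f (mB (MvPolynomial.X j))) Φ := by
      intro a' h f hf
      have : f.comp π = MvPolynomial.eval₂Hom c (Sum.elim a' fun j => f (mB (MvPolynomial.X j))) := by
        refine MvPolynomial.ringHom_ext (fun r => ?_) ?_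
        · simp only [RingHom.comp_apply, π, MvPolynomial.eval₂Hom_C, hf, hmi, MvPolynomial.eval₂_C]
        · rintro (x | j)
          · simp only [RingHom.comp_apply, π, MvPolynomial.eval₂Hom_X', hf, Sum.elim_inl, hmi,
              MvPolynomial.eval₂_X]
          · simp only [RingHom.comp_apply, π, MvPolynomial.eval₂Hom_X', Sum.elim_inr]
      exact RingHom.congr_fun this Φ
    have k1 := key a h0 (RingHom.kerLift g) fun x =>
      (RingHom.kerLift_mk g _).trans (MvPolynomial.eval₂Hom_C _ _ x)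
    have k2 : (fun j => RingHom.kerLift g (mB (MvPolynomial.X j))) = b := funext fun j =>
      (RingHom.kerLift_mk g _).trans (MvPolynomial.eval₂Hom_X' _ _ j)
    rw [k2, hΦ, map_eq_zero_iff _ (RingHom.kerLift_injective g)] at k1
    have k3 := key a' h f f1
    rw [k1, map_zero] at k3
    simp only [hG a' h Y _ hne', ← f2]
    exact k3.symm

/-- Local analytic spreading: if `z t` is analytic and keeps the relations of `z t₀`, every finite
family `b` moves analytically so that all relations of `(z t₀, b)` are kept. -/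
theorem sp_local {E : Type} [NormedAddCommGroup E] [NormedSpace ℂ E] [CompleteSpace E]
    {k I J : Type} [CommRing k] [Finite J] (c : k →+* ℂ) (z : E → I → ℂ) {t₀ : E}
    (hz : ∀ i, AnalyticAt ℂ (fun t => z t i) t₀) (hr : ∀ᶠ t in 𝓝 t₀, Rel c (z t₀) (z t))
    (b : J → ℂ) : ∃ w : E → J → ℂ, w t₀ = b ∧ (∀ j, AnalyticAt ℂ (fun t => w t j) t₀) ∧
      ∀ᶠ t in 𝓝 t₀, Rel c (Sum.elim (z t₀) b) (Sum.elim (z t) (w t)) := by
  obtain ⟨P, D, G, Y₀, -, p2, p3, p4, p5, p6⟩ := sp c (z t₀) b
  have hi : ∀ F : MvPolynomial I ℂ, AnalyticAt ℂ (fun t => MvPolynomial.eval (z t) F) t₀ := by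
    intro F
    induction F using MvPolynomial.induction_on with
    | C a => simpa using analyticAt_const
    | add a b ha hb =>
      simp only [map_add]
      exact ha.add hb
    | mul_X a n ha =>
      simp only [map_mul, MvPolynomial.eval_X]
      exact ha.mul (hz n)
  obtain ⟨Y, y1, y2, y3, -⟩ := root (i := fun t => MvPolynomial.eval (z t)) hi P p3 p4
  refine ⟨fun t j => (G j).eval₂ (MvPolynomial.eval (z t)) (Y t) / MvPolynomial.eval (z t) D,
    funext fun j => by simp only [p5 j, y1], fun j => ?_, ?_⟩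
  · exact ((an_poly (i := fun t => MvPolynomial.eval (z t)) hi (G j) (Y t₀)).comp_of_eq
      (analyticAt_id.prod y2) rfl).div (hi D) p2
  · filter_upwards [hr, y3, (hi D).continuousAt.eventually_ne p2] with t h1 h2 h3
    exact p6 _ _ h1 h3 h2

end Pool.Agent.RC.Spr
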