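import Mathlib

open AlgebraicGeometry CategoryTheory CategoryTheory.Limits TopologicalSpace IsLocalRing
open scoped TensorProduct

noncomputable section

namespace Pool.Agent.RC.S72

/-- A non-nilpotent element of a finite type algebra is nonzero at some geometric point. -/
theorem exists_algHom_ne {k L A : Type} [Field k] [Field L] [IsAlgClosed L] [Algebra k L]
    [CommRing A] [Algebra k A] [Algebra.FiniteType k A] (h : A) (hh : ¬ IsNilpotent h) :
    ∃ a : A →ₐ[k] L, a h ≠ 0 := by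
  have : Nontrivial (Localization.Away h) := by
    by_contra hn
    rw [not_nontrivial_iff_subsingleton] at hn
    have h0 := (IsLocalization.subsingleton_iff (M := Submonoid.powers h)
      (S := Localization.Away h)).1 hn
    obtain ⟨n, hn⟩ := h0
    exact hh ⟨n, hn⟩
  obtain ⟨m, hm⟩ := Ideal.exists_maximal (Localization.Away h)
  have ft1 : Algebra.FiniteType A (Localization.Away h) :=
    IsLocalization.finiteType_of_monoid_fg (Submonoid.powers h) _
  have ft2 : Algebra.FiniteType k (Localization.Away h) := .trans (S := A) inferInstance ft1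
  let : Field (Localization.Away h ⧸ m) := Ideal.Quotient.field m
  have ft3 : Algebra.FiniteType k (Localization.Away h ⧸ m) := inferInstance
  have fin : Module.Finite k (Localization.Away h ⧸ m) :=
    finite_of_finite_type_of_isJacobsonRing _ _
  let l : (Localization.Away h ⧸ m) →ₐ[k] L := IsAlgClosed.lift
  refine ⟨(l.comp (Ideal.Quotient.mkₐ k m)).comp (IsScalarTower.toAlgHom k A _), ?_⟩
  have hu : IsUnit (algebraMap A (Localization.Away h) h) := IsLocalization.Away.algebraMap_isUnit h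
  exact (hu.map (l.comp (Ideal.Quotient.mkₐ k m))).ne_zero

/-- A nonempty open subset of the spectrum contains a basic open set with a geometric point. -/
theorem exists_basic {k L A : Type} [Field k] [Field L] [IsAlgClosed L] [Algebra k L]
    [CommRing A] [Algebra k A] [Algebra.FiniteType k A] (W : Set (PrimeSpectrum A))
    (hW : IsOpen W) (hne : W.Nonempty) :
    ∃ h : A, (PrimeSpectrum.basicOpen h : Set (PrimeSpectrum A)) ⊆ W ∧
      ∃ a : A →ₐ[k] L, a h ≠ 0 := by
  obtain ⟨x, hx⟩ := hne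
  obtain ⟨_, ⟨h, rfl⟩, hx', hs⟩ :=
    PrimeSpectrum.isTopologicalBasis_basic_opens.exists_subset_of_mem_open hx hW
  refine ⟨h, hs, exists_algHom_ne h ?_⟩
  intro hn
  have := (PrimeSpectrum.basicOpen_eq_bot_iff h).2 hn
  simp [this] at hx'

theorem mem_basic {A L : Type} [CommRing A] [Field L] (a : A →+* L) (h : A)
    (z : Spec (.of L)) :
    (Spec.map (CommRingCat.ofHom a) z) ∈ (PrimeSpectrum.basicOpen h : Set (PrimeSpectrum A))
      ↔ a h ≠ 0 := by
  have hz : z.asIdeal = ⊥ := by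
    have := z.isPrime
    exact Ideal.eq_bot_of_prime _
  change ¬ (a h ∈ z.asIdeal) ↔ _
  rw [hz]; simp

/-- Products of affine charts are affine charts. -/
theorem oi {k A1 A2 B : CommRingCat.{0}} {a1 : k ⟶ A1} {a2 : k ⟶ A2} {i1 : A1 ⟶ B}
    {i2 : A2 ⟶ B} (h : IsPushout a1 a2 i1 i2) {Y1 Y2 : Scheme.{0}} (t1 : Y1 ⟶ Spec k)
    (t2 : Y2 ⟶ Spec k) (j1 : Spec A1 ⟶ Y1) (j2 : Spec A2 ⟶ Y2) [IsOpenImmersion j1]
    [IsOpenImmersion j2] (h1 : j1 ≫ t1 = Spec.map a1) (h2 : j2 ≫ t2 = Spec.map a2) :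
    ∃ j : Spec B ⟶ pullback t1 t2, IsOpenImmersion j ∧
      j ≫ pullback.fst _ _ = Spec.map i1 ≫ j1 ∧ j ≫ pullback.snd _ _ = Spec.map i2 ≫ j2 := by
  have hp := isPullback_SpecMap_of_isPushout _ _ _ _ h
  refine ⟨hp.isoPullback.hom ≫ pullback.map _ _ _ _ j1 j2 (𝟙 _) (by simp [h1]) (by simp [h2]),
    inferInstance, ?_, ?_⟩
  · rw [Category.assoc, pullback.lift_fst, IsPullback.isoPullback_hom_fst_assoc]
  · rw [Category.assoc, pullback.lift_snd, IsPullback.isoPullback_hom_snd_assoc]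

/-- The structure morphism of the complex point over the real point. -/
abbrev cR : Spec (.of ℂ) ⟶ Spec (.of ℝ) := Spec.map (CommRingCat.ofHom (algebraMap ℝ ℂ))

/-- The complexification of an affine chart. -/
theorem chartC {X : Scheme.{0}} (s : X ⟶ Spec (.of ℝ)) {A : Type} [CommRing A] [Algebra ℝ A]
    (j : Spec (.of A) ⟶ X) [IsOpenImmersion j]
    (hj : j ≫ s = Spec.map (CommRingCat.ofHom (algebraMap ℝ A))) :
    ∃ J : Spec (.of (ℂ ⊗[ℝ] A)) ⟶ pullback s cR, IsOpenImmersion J ∧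
      J ≫ pullback.fst _ _ = Spec.map (CommRingCat.ofHom
        (Algebra.TensorProduct.includeRight : A →ₐ[ℝ] ℂ ⊗[ℝ] A).toRingHom) ≫ j ∧
      J ≫ pullback.snd _ _ = Spec.map (CommRingCat.ofHom (algebraMap ℂ (ℂ ⊗[ℝ] A))) := by
  obtain ⟨J, h1, h2, h3⟩ := oi (CommRingCat.isPushout_tensorProduct ℝ ℂ A).flip s cR j (𝟙 _) hj
    (by simp)
  exact ⟨J, h1, h2, by rw [h3, Category.comp_id]⟩

/-- (dom), tensor form. -/
theorem dom_tensor {X : Scheme.{0}} (s : X ⟶ Spec (.of ℝ)) [GeometricallyIntegral s] {A : Type}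
    [CommRing A] [Algebra ℝ A] [Nontrivial A] (j : Spec (.of A) ⟶ X) [IsOpenImmersion j]
    (hj : j ≫ s = Spec.map (CommRingCat.ofHom (algebraMap ℝ A))) : IsDomain (ℂ ⊗[ℝ] A) := by
  obtain ⟨J, h1, -, -⟩ := chartC s j hj
  have : IsIntegral (pullback s cR) :=
    GeometricallyIntegral.geometrically_isIntegral _ _ _ (.of_hasPullback _ _)
  have nt : Nontrivial (ℂ ⊗[ℝ] A) := inferInstance
  have : Nonempty (Spec (.of (ℂ ⊗[ℝ] A))) := (inferInstance : Nonempty (PrimeSpectrum (ℂ ⊗[ℝ] A)))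
  have := isIntegral_of_isOpenImmersion J
  exact (affine_isIntegral_iff _).1 this

/-- The complexified presentation. -/
def piC {V A : Type} [CommRing A] [Algebra ℝ A] (π : MvPolynomial V ℝ →ₐ[ℝ] A) :
    MvPolynomial V ℂ →ₐ[ℂ] ℂ ⊗[ℝ] A :=
  MvPolynomial.aeval fun v => (1 : ℂ) ⊗ₜ π (MvPolynomial.X v)

theorem piC_eq {V A : Type} [CommRing A] [Algebra ℝ A] (π : MvPolynomial V ℝ →ₐ[ℝ] A) :
    piC π = (Algebra.TensorProduct.map (AlgHom.id ℂ ℂ) π).comp
      (MvPolynomial.algebraTensorAlgEquiv ℝ ℂ (σ := V)).symm.toAlgHom := by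
  ext v
  simp [piC]

theorem piC_map {V A : Type} [CommRing A] [Algebra ℝ A] (π : MvPolynomial V ℝ →ₐ[ℝ] A)
    (F : MvPolynomial V ℝ) :
    piC π (MvPolynomial.map (algebraMap ℝ ℂ) F) = (1 : ℂ) ⊗ₜ π F := by
  rw [piC_eq]
  simp

theorem piC_surj {V A : Type} [CommRing A] [Algebra ℝ A] (π : MvPolynomial V ℝ →ₐ[ℝ] A)
    (hπ : Function.Surjective π) : Function.Surjective (piC π) := by
  intro z
  induction z using TensorProduct.induction_on with
  | zero => exact ⟨0, map_zero _⟩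
  | tmul c a =>
    obtain ⟨F, rfl⟩ := hπ a
    refine ⟨c • MvPolynomial.map (algebraMap ℝ ℂ) F, ?_⟩
    rw [map_smul, piC_map, TensorProduct.smul_tmul']
    simp
  | add x y hx hy =>
    obtain ⟨a, rfl⟩ := hx
    obtain ⟨b, rfl⟩ := hy
    exact ⟨a + b, map_add _ _ _⟩

theorem ker_piC {V A : Type} [CommRing A] [Algebra ℝ A] (π : MvPolynomial V ℝ →ₐ[ℝ] A)
    (hπ : Function.Surjective π) :
    RingHom.ker (piC π) = (RingHom.ker π).map (MvPolynomial.map (algebraMap ℝ ℂ)) := by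
  apply le_antisymm
  · intro F hF
    set e := MvPolynomial.algebraTensorAlgEquiv ℝ ℂ (σ := V)
    have h1 : e.symm F ∈ RingHom.ker (Algebra.TensorProduct.map (AlgHom.id ℝ ℂ) π) := by
      rw [RingHom.mem_ker, piC_eq] at hF
      exact hF
    rw [Algebra.TensorProduct.lTensor_ker π hπ] at h1
    have h2 := Ideal.mem_map_of_mem (e : ℂ ⊗[ℝ] MvPolynomial V ℝ →+* MvPolynomial V ℂ) h1
    have h3 : ((RingHom.ker π).map (Algebra.TensorProduct.includeRight :
        MvPolynomial V ℝ →ₐ[ℝ] ℂ ⊗[ℝ] MvPolynomial V ℝ)).map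
        (e : ℂ ⊗[ℝ] MvPolynomial V ℝ →+* MvPolynomial V ℂ) ≤
        (RingHom.ker π).map (MvPolynomial.map (algebraMap ℝ ℂ)) := by
      rw [Ideal.map_le_iff_le_comap, Ideal.map_le_iff_le_comap]
      intro G hG
      simp only [Ideal.mem_comap]
      have : (e : ℂ ⊗[ℝ] MvPolynomial V ℝ →+* MvPolynomial V ℂ)
          (Algebra.TensorProduct.includeRight (R := ℝ) (A := ℂ) G) =
          MvPolynomial.map (algebraMap ℝ ℂ) G := by
        simp [e]
      rw [this]
      exact Ideal.mem_map_of_mem _ hG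
    have h4 := h3 h2
    simpa using h4
  · rw [Ideal.map_le_iff_le_comap]
    intro G hG
    rw [RingHom.mem_ker] at hG
    rw [Ideal.mem_comap, RingHom.mem_ker, piC_map, hG, TensorProduct.tmul_zero]

/-- (dom): the complexified ideal of a nonempty chart is prime. -/
theorem dom {X : Scheme.{0}} (s : X ⟶ Spec (.of ℝ)) [GeometricallyIntegral s] {A V : Type}
    [CommRing A] [Algebra ℝ A] [Nontrivial A] (j : Spec (.of A) ⟶ X) [IsOpenImmersion j]
    (hj : j ≫ s = Spec.map (CommRingCat.ofHom (algebraMap ℝ A)))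
    (π : MvPolynomial V ℝ →ₐ[ℝ] A) (hπ : Function.Surjective π) :
    ((RingHom.ker π).map (MvPolynomial.map (algebraMap ℝ ℂ))).IsPrime := by
  have := dom_tensor s j hj
  rw [← ker_piC π hπ]
  exact RingHom.ker_isPrime _

/-- (dom) for a presentation by a family of equations. -/
theorem dom_eqn {X : Scheme.{0}} (s : X ⟶ Spec (.of ℝ)) [GeometricallyIntegral s] {A V I : Type}
    [CommRing A] [Algebra ℝ A] [Nontrivial A] (j : Spec (.of A) ⟶ X) [IsOpenImmersion j]
    (hj : j ≫ s = Spec.map (CommRingCat.ofHom (algebraMap ℝ A)))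
    (π : MvPolynomial V ℝ →ₐ[ℝ] A) (hπ : Function.Surjective π) (eqn : I → MvPolynomial V ℝ)
    (hk : RingHom.ker π = Ideal.span (Set.range eqn)) :
    (Ideal.span (Set.range fun i => MvPolynomial.map (algebraMap ℝ ℂ) (eqn i))).IsPrime := by
  have := dom s j hj π hπ
  rw [hk, Ideal.map_span, ← Set.range_comp] at this
  exact this

/-- (meet): two nonempty charts share a complex point. -/
theorem meet {X : Scheme.{0}} (s : X ⟶ Spec (.of ℝ)) [GeometricallyIntegral s] {A1 A2 : Type}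
    [CommRing A1] [Algebra ℝ A1] [Nontrivial A1] [Algebra.FiniteType ℝ A1]
    [CommRing A2] [Algebra ℝ A2] [Nontrivial A2]
    (j1 : Spec (.of A1) ⟶ X) [IsOpenImmersion j1] (j2 : Spec (.of A2) ⟶ X) [IsOpenImmersion j2]
    (h1 : j1 ≫ s = Spec.map (CommRingCat.ofHom (algebraMap ℝ A1)))
    (h2 : j2 ≫ s = Spec.map (CommRingCat.ofHom (algebraMap ℝ A2))) :
    ∃ (a1 : A1 →ₐ[ℝ] ℂ) (a2 : A2 →ₐ[ℝ] ℂ), Spec.map (CommRingCat.ofHom a1.toRingHom) ≫ j1 =
      Spec.map (CommRingCat.ofHom a2.toRingHom) ≫ j2 := by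
  have : IsIntegral X := GeometricallyIntegral.isIntegral_of_subsingleton s
  have n1 : Nonempty (Spec (.of A1)) := (inferInstance : Nonempty (PrimeSpectrum A1))
  have n2 : Nonempty (Spec (.of A2)) := (inferInstance : Nonempty (PrimeSpectrum A2))
  obtain ⟨x, ⟨y, rfl⟩, hx⟩ := nonempty_preirreducible_inter j1.isOpenEmbedding.isOpen_range
    j2.isOpenEmbedding.isOpen_range (Set.range_nonempty _) (Set.range_nonempty _)
  obtain ⟨h, hs, a1, ha⟩ := exists_basic (k := ℝ) (L := ℂ) (A := A1) (j1 ⁻¹' Set.range j2)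
    (j2.isOpenEmbedding.isOpen_range.preimage j1.continuous) ⟨y, hx⟩
  have hr : Set.range (Spec.map (CommRingCat.ofHom a1.toRingHom) ≫ j1) ⊆ Set.range j2 := by
    rintro _ ⟨z, rfl⟩
    rw [Scheme.Hom.comp_apply]
    exact hs ((mem_basic a1.toRingHom h z).2 ha)
  let g := IsOpenImmersion.lift j2 _ hr
  have hg : g ≫ j2 = _ := IsOpenImmersion.lift_fac j2 _ hr
  obtain ⟨φ, hφ⟩ := Spec.map_surjective g
  have hc : CommRingCat.ofHom (algebraMap ℝ A2) ≫ φ = CommRingCat.ofHom (algebraMap ℝ ℂ) := by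
    apply Spec.map_injective
    rw [Spec.map_comp, ← h2, hφ, ← Category.assoc, hg, Category.assoc, h1, ← Spec.map_comp]
    congr 1
    ext r
    simp
  refine ⟨a1, ⟨φ.hom, fun r => ?_⟩, ?_⟩
  · exact congr($(hc).hom r)
  · rw [← hg, ← hφ]; rfl

end Pool.Agent.RC.S72
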