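import Pool.Agent.Lib.RC.Sch72a

open AlgebraicGeometry CategoryTheory CategoryTheory.Limits TopologicalSpace IsLocalRing
open scoped TensorProduct Polynomial

noncomputable section

namespace Pool.Agent.RC.S72

/-- The closed point `u` of the complex affine line. -/
def lpt (u : ℂ) : Spec (.of ℂ[X]) :=
  Spec.map (CommRingCat.ofHom (Polynomial.evalRingHom u)) (closedPoint ℂ)

/-- Two points of a complex scheme are the values at `0` and `1` of a map from the line. -/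
def Join {Y : Scheme.{0}} (t : Y ⟶ Spec (.of ℂ)) (x y : Y) : Prop :=
  ∃ F : Spec (.of ℂ[X]) ⟶ Y, F ≫ t = Spec.map (CommRingCat.ofHom (algebraMap ℂ ℂ[X])) ∧
    F (lpt 0) = x ∧ F (lpt 1) = y

theorem algHom_ext_pt {B : Type} [CommRing B] [Algebra ℂ B] (p q : B →ₐ[ℂ] ℂ)
    (h : Spec.map (CommRingCat.ofHom p.toRingHom) (closedPoint ℂ) =
      Spec.map (CommRingCat.ofHom q.toRingHom) (closedPoint ℂ)) : p = q := by
  ext b
  have h1 := mem_basic p.toRingHom (b - algebraMap ℂ B (p b)) (closedPoint ℂ)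
  have h2 := mem_basic q.toRingHom (b - algebraMap ℂ B (p b)) (closedPoint ℂ)
  rw [h, h2] at h1
  have h3 : p.toRingHom (b - algebraMap ℂ B (p b)) = 0 := by simp
  have h4 : q.toRingHom (b - algebraMap ℂ B (p b)) = 0 := by
    by_contra hn
    exact h1.1 hn h3
  have h5 : q b - p b = 0 := by simpa using h4
  exact (sub_eq_zero.1 h5).symm

/-- A map from the line, read in an affine chart. -/
theorem curve {Y : Scheme.{0}} (t : Y ⟶ Spec (.of ℂ)) {B V : Type} [Finite V] [CommRing B]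
    [Algebra ℂ B] (J : Spec (.of B) ⟶ Y) [IsOpenImmersion J]
    (hJ : J ≫ t = Spec.map (CommRingCat.ofHom (algebraMap ℂ B))) (π : MvPolynomial V ℂ →ₐ[ℂ] B)
    (p q : B →ₐ[ℂ] ℂ)
    (H : Join t (J (Spec.map (CommRingCat.ofHom p.toRingHom) (closedPoint ℂ)))
      (J (Spec.map (CommRingCat.ofHom q.toRingHom) (closedPoint ℂ)))) :
    ∃ (P : V → ℂ[X]) (Q : ℂ[X]), Q.eval 0 ≠ 0 ∧ Q.eval 1 ≠ 0 ∧
      (∀ v, (P v).eval 0 / Q.eval 0 = p (π (MvPolynomial.X v))) ∧
      (∀ v, (P v).eval 1 / Q.eval 1 = q (π (MvPolynomial.X v))) ∧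
      ∀ u, Q.eval u ≠ 0 → ∀ G, π G = 0 →
        MvPolynomial.aeval (fun v => (P v).eval u / Q.eval u) G = 0 := by
  obtain ⟨F, hF, h0, h1⟩ := H
  have hW : IsClosed ((F ⁻¹' Set.range J)ᶜ : Set (PrimeSpectrum ℂ[X])) :=
    (J.isOpenEmbedding.isOpen_range.preimage F.continuous).isClosed_compl
  obtain ⟨I, hI⟩ := (PrimeSpectrum.isClosed_iff_zeroLocus_ideal _).1 hW
  obtain ⟨Q0, hQ0⟩ := (IsPrincipalIdealRing.principal I).principal
  have hb : (PrimeSpectrum.basicOpen Q0 : Set (PrimeSpectrum ℂ[X])) = F ⁻¹' Set.range J := by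
    rw [PrimeSpectrum.basicOpen_eq_zeroLocus_compl, ← PrimeSpectrum.zeroLocus_span]
    have : (Ideal.span {Q0} : Ideal ℂ[X]) = I := hQ0.symm
    rw [this, ← hI, compl_compl]
    rfl
  have hne : ∀ u, F (lpt u) ∈ Set.range J → Q0.eval u ≠ 0 := by
    intro u hu
    have : lpt u ∈ (PrimeSpectrum.basicOpen Q0 : Set (PrimeSpectrum ℂ[X])) := by
      rw [hb]; exact hu
    exact (mem_basic (Polynomial.evalRingHom u) Q0 _).1 this
  have q0 := hne 0 ⟨_, h0.symm⟩
  have q1 := hne 1 ⟨_, h1.symm⟩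
  let L := Localization.Away Q0
  let ι : Spec (.of L) ⟶ Spec (.of ℂ[X]) := Spec.map (CommRingCat.ofHom (algebraMap ℂ[X] L))
  have hr : Set.range (ι ≫ F) ⊆ Set.range J := by
    rintro _ ⟨z, rfl⟩
    rw [Scheme.Hom.comp_apply]
    have : ι z ∈ (PrimeSpectrum.basicOpen Q0 : Set (PrimeSpectrum ℂ[X])) := by
      rw [← PrimeSpectrum.localization_away_comap_range L Q0]
      exact ⟨z, rfl⟩
    rw [hb] at this
    exact this
  let g := IsOpenImmersion.lift J _ hr
  have hg : g ≫ J = _ := IsOpenImmersion.lift_fac J _ hr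
  obtain ⟨φ, hφ⟩ := Spec.map_surjective g
  have hc : CommRingCat.ofHom (algebraMap ℂ B) ≫ φ = CommRingCat.ofHom (algebraMap ℂ L) := by
    apply Spec.map_injective
    rw [Spec.map_comp, ← hJ, hφ, ← Category.assoc, hg, Category.assoc, hF, ← Spec.map_comp]
    rfl
  let ρ : B →ₐ[ℂ] L := ⟨φ.hom, fun r => congr($(hc).hom r)⟩
  have hev : ∀ u, Q0.eval u ≠ 0 → ∃ e : L →ₐ[ℂ] ℂ, ∀ R : ℂ[X],
      e (algebraMap ℂ[X] L R) = R.eval u := by
    intro u hu
    let e0 : L →+* ℂ := IsLocalization.Away.lift Q0 (g := Polynomial.evalRingHom u)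
      (isUnit_iff_ne_zero.2 hu)
    have he0 : ∀ R : ℂ[X], e0 (algebraMap ℂ[X] L R) = R.eval u := fun R =>
      IsLocalization.Away.lift_eq Q0 _ R
    refine ⟨⟨e0, fun r => ?_⟩, he0⟩
    have := he0 (Polynomial.C r)
    rw [Polynomial.eval_C] at this
    exact this
  have hpt : ∀ u (e : L →ₐ[ℂ] ℂ), (∀ R : ℂ[X], e (algebraMap ℂ[X] L R) = R.eval u) →
      J (Spec.map (CommRingCat.ofHom (e.comp ρ).toRingHom) (closedPoint ℂ)) = F (lpt u) := by
    intro u e he
    have e1 : Spec.map (CommRingCat.ofHom (e.comp ρ).toRingHom) ≫ J =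
        Spec.map (CommRingCat.ofHom (Polynomial.evalRingHom u)) ≫ F := by
      have a1 : CommRingCat.ofHom (e.comp ρ).toRingHom = φ ≫ CommRingCat.ofHom e.toRingHom := rfl
      have a2 : CommRingCat.ofHom (Polynomial.evalRingHom u) =
          CommRingCat.ofHom (algebraMap ℂ[X] L) ≫ CommRingCat.ofHom e.toRingHom := by
        apply CommRingCat.hom_ext
        apply RingHom.ext
        intro R
        exact (he R).symm
      rw [a1, a2, Spec.map_comp, Spec.map_comp, hφ, Category.assoc, hg, Category.assoc]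
    have := congr($e1 (closedPoint ℂ))
    simpa only [Scheme.Hom.comp_apply, lpt] using this
  obtain ⟨b, hbP⟩ := IsLocalization.exist_integer_multiples_of_finite (Submonoid.powers Q0)
    (fun v => ρ (π (MvPolynomial.X v)))
  choose P hP using hbP
  have hb0 : ∀ u, Q0.eval u ≠ 0 → (b : ℂ[X]).eval u ≠ 0 := by
    intro u hu
    obtain ⟨n, hn⟩ := b.2
    rw [← hn]
    simp only [Polynomial.eval_pow]
    exact pow_ne_zero _ hu
  have hval : ∀ u (e : L →ₐ[ℂ] ℂ), Q0.eval u ≠ 0 →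
      (∀ R : ℂ[X], e (algebraMap ℂ[X] L R) = R.eval u) → ∀ v,
      (P v * Q0).eval u / ((b : ℂ[X]) * Q0).eval u = (e.comp ρ) (π (MvPolynomial.X v)) := by
    intro u e hu he v
    have h2 := congr(e $(hP v))
    rw [he, Algebra.smul_def, map_mul, he] at h2
    have := hb0 u hu
    rw [Polynomial.eval_mul, Polynomial.eval_mul, h2]
    simp only [AlgHom.comp_apply]
    field_simp
  refine ⟨fun v => P v * Q0, (b : ℂ[X]) * Q0, ?_, ?_, ?_, ?_, ?_⟩
  · rw [Polynomial.eval_mul]; exact mul_ne_zero (hb0 0 q0) q0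
  · rw [Polynomial.eval_mul]; exact mul_ne_zero (hb0 1 q1) q1
  · obtain ⟨e, he⟩ := hev 0 q0
    have : e.comp ρ = p :=
      algHom_ext_pt _ _ (J.isOpenEmbedding.injective ((hpt 0 e he).trans h0))
    intro v
    rw [hval 0 e q0 he, this]
  · obtain ⟨e, he⟩ := hev 1 q1
    have : e.comp ρ = q :=
      algHom_ext_pt _ _ (J.isOpenEmbedding.injective ((hpt 1 e he).trans h1))
    intro v
    rw [hval 1 e q1 he, this]
  · intro u hu G hG
    have hu0 : Q0.eval u ≠ 0 := by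
      rw [Polynomial.eval_mul] at hu
      exact right_ne_zero_of_mul hu
    obtain ⟨e, he⟩ := hev u hu0
    have : (MvPolynomial.aeval fun v => (P v * Q0).eval u / ((b : ℂ[X]) * Q0).eval u :
        MvPolynomial V ℂ →ₐ[ℂ] ℂ) = (e.comp ρ).comp π := by
      ext v
      rw [MvPolynomial.aeval_X, hval u e hu0 he]
      rfl
    rw [this, AlgHom.comp_apply, hG, map_zero]

/-- A dense open subset of the square, read in an affine chart. -/
theorem square {Y : Scheme.{0}} (t : Y ⟶ Spec (.of ℂ)) {B V : Type} [Finite V] [CommRing B]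
    [Algebra ℂ B] [Nontrivial B] (J : Spec (.of B) ⟶ Y) [IsOpenImmersion J]
    (hJ : J ≫ t = Spec.map (CommRingCat.ofHom (algebraMap ℂ B))) (π : MvPolynomial V ℂ →ₐ[ℂ] B)
    (hπ : Function.Surjective π) (W : Set ↥(pullback t t)) (hWo : IsOpen W) (hWd : Dense W) :
    ∃ h : MvPolynomial (V ⊕ V) ℂ,
      (∃ p q : B →ₐ[ℂ] ℂ, MvPolynomial.aeval (Sum.elim (fun v => p (π (MvPolynomial.X v)))
        fun v => q (π (MvPolynomial.X v))) h ≠ 0) ∧
      ∀ p q : B →ₐ[ℂ] ℂ, MvPolynomial.aeval (Sum.elim (fun v => p (π (MvPolynomial.X v)))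
        fun v => q (π (MvPolynomial.X v))) h ≠ 0 →
        ∃ z : Spec (.of ℂ) ⟶ pullback t t,
          z ≫ pullback.fst _ _ = Spec.map (CommRingCat.ofHom p.toRingHom) ≫ J ∧
          z ≫ pullback.snd _ _ = Spec.map (CommRingCat.ofHom q.toRingHom) ≫ J ∧
          z (closedPoint ℂ) ∈ W := by
  obtain ⟨K, hK, k1, k2⟩ := oi (CommRingCat.isPushout_tensorProduct ℂ B B) t t J J hJ hJ
  have ft : Algebra.FiniteType ℂ B := .of_surjective π hπ
  have ft2 : Algebra.FiniteType ℂ (B ⊗[ℂ] B) := .trans (S := B) ft inferInstance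
  have nt : Nontrivial (B ⊗[ℂ] B) := inferInstance
  have ne : Nonempty (Spec (.of (B ⊗[ℂ] B))) :=
    (inferInstance : Nonempty (PrimeSpectrum (B ⊗[ℂ] B)))
  obtain ⟨x, ⟨y, rfl⟩, hx⟩ := hWd.inter_open_nonempty _ K.isOpenEmbedding.isOpen_range
    (Set.range_nonempty _)
  obtain ⟨H, hs, a, ha⟩ := exists_basic (k := ℂ) (L := ℂ) (A := B ⊗[ℂ] B) (K ⁻¹' W)
    (hWo.preimage K.continuous) ⟨y, hx⟩
  let π2 : MvPolynomial (V ⊕ V) ℂ →ₐ[ℂ] B ⊗[ℂ] B := MvPolynomial.aeval
    (Sum.elim (fun v => π (MvPolynomial.X v) ⊗ₜ 1) fun v => 1 ⊗ₜ π (MvPolynomial.X v))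
  have l1 : π2.comp (MvPolynomial.rename Sum.inl) =
      (Algebra.TensorProduct.includeLeft : B →ₐ[ℂ] B ⊗[ℂ] B).comp π := by
    ext v; simp [π2]
  have l2 : π2.comp (MvPolynomial.rename Sum.inr) =
      (Algebra.TensorProduct.includeRight : B →ₐ[ℂ] B ⊗[ℂ] B).comp π := by
    ext v; simp [π2]
  have hs2 : Function.Surjective π2 := by
    intro z
    induction z using TensorProduct.induction_on with
    | zero => exact ⟨0, map_zero _⟩
    | tmul c d =>
      obtain ⟨c, rfl⟩ := hπ c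
      obtain ⟨d, rfl⟩ := hπ d
      refine ⟨MvPolynomial.rename Sum.inl c * MvPolynomial.rename Sum.inr d, ?_⟩
      have a1 := congr($l1 c)
      have a2 := congr($l2 d)
      simp only [AlgHom.comp_apply] at a1 a2
      rw [map_mul, a1, a2]
      simp
    | add x y hx hy =>
      obtain ⟨a, rfl⟩ := hx
      obtain ⟨b, rfl⟩ := hy
      exact ⟨a + b, map_add _ _ _⟩
  obtain ⟨h, rfl⟩ := hs2 H
  have key : ∀ p q : B →ₐ[ℂ] ℂ, (MvPolynomial.aeval (Sum.elim (fun v => p (π (MvPolynomial.X v)))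
      fun v => q (π (MvPolynomial.X v))) : MvPolynomial (V ⊕ V) ℂ →ₐ[ℂ] ℂ) =
      (Algebra.TensorProduct.productMap p q).comp π2 := by
    intro p q
    ext v
    rcases v with v | v <;> simp [π2]
  refine ⟨h, ⟨a.comp Algebra.TensorProduct.includeLeft, a.comp Algebra.TensorProduct.includeRight,
    ?_⟩, ?_⟩
  · rw [key]
    have : Algebra.TensorProduct.productMap (a.comp Algebra.TensorProduct.includeLeft)
        (a.comp Algebra.TensorProduct.includeRight) = a := by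
      ext b <;> simp [← Algebra.TensorProduct.one_def]
    rw [this]
    exact ha
  · intro p q hpq
    rw [key] at hpq
    refine ⟨Spec.map (CommRingCat.ofHom (Algebra.TensorProduct.productMap p q).toRingHom) ≫ K,
      ?_, ?_, ?_⟩
    · rw [Category.assoc, k1, ← Category.assoc, ← Spec.map_comp]
      congr 2
      ext b
      simp
    · rw [Category.assoc, k2, ← Category.assoc, ← Spec.map_comp]
      congr 2
      ext b
      simp
    · rw [Scheme.Hom.comp_apply]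
      exact hs ((mem_basic _ _ _).2 hpq)

/-- Points of the complexified chart from solutions of the equations. -/
theorem exists_hom {V A : Type} [CommRing A] [Algebra ℝ A] (π : MvPolynomial V ℝ →ₐ[ℝ] A)
    (hπ : Function.Surjective π) (p : V → ℂ)
    (hp : ∀ F, π F = 0 → MvPolynomial.aeval p F = 0) :
    ∃ a : ℂ ⊗[ℝ] A →ₐ[ℂ] ℂ, ∀ v, a (piC π (MvPolynomial.X v)) = p v := by
  have hk : RingHom.ker (piC π).toRingHom ≤
      RingHom.ker (MvPolynomial.aeval p : MvPolynomial V ℂ →ₐ[ℂ] ℂ).toRingHom := by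
    change RingHom.ker (piC π) ≤ _
    rw [ker_piC π hπ, Ideal.map_le_iff_le_comap]
    intro F hF
    rw [Ideal.mem_comap, RingHom.mem_ker]
    change MvPolynomial.aeval p (MvPolynomial.map (algebraMap ℝ ℂ) F) = 0
    rw [MvPolynomial.aeval_map_algebraMap]
    exact hp F hF
  refine ⟨AlgHom.liftOfSurjective _ (piC_surj π hπ) _ hk, fun v => ?_⟩
  rw [AlgHom.liftOfSurjective_apply, MvPolynomial.aeval_X]

theorem hom_mem {V A : Type} [CommRing A] [Algebra ℝ A] (π : MvPolynomial V ℝ →ₐ[ℝ] A)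
    (a : ℂ ⊗[ℝ] A →ₐ[ℂ] ℂ) (F : MvPolynomial V ℝ) (hF : π F = 0) :
    MvPolynomial.aeval (fun v => a (piC π (MvPolynomial.X v))) F = 0 := by
  have : (MvPolynomial.aeval (fun v => a (piC π (MvPolynomial.X v))) :
      MvPolynomial V ℂ →ₐ[ℂ] ℂ) = a.comp (piC π) := by
    ext v; simp
  rw [← MvPolynomial.aeval_map_algebraMap ℂ, this, AlgHom.comp_apply, piC_map, hF,
    TensorProduct.tmul_zero, map_zero]

/-- (RC) in a chart, from curves parametrised by the affine line. -/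
theorem rc_line {X : Scheme.{0}} (s : X ⟶ Spec (.of ℝ)) {A V : Type} [Finite V]
    [CommRing A] [Algebra ℝ A] [Nontrivial A] (j : Spec (.of A) ⟶ X) [IsOpenImmersion j]
    (hj : j ≫ s = Spec.map (CommRingCat.ofHom (algebraMap ℝ A)))
    (π : MvPolynomial V ℝ →ₐ[ℝ] A) (hπ : Function.Surjective π)
    (W : Set ↥(pullback (pullback.snd s cR) (pullback.snd s cR))) (hWo : IsOpen W) (hWd : Dense W)
    (H : ∀ z : Spec (.of ℂ) ⟶ pullback (pullback.snd s cR) (pullback.snd s cR),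
      z ≫ pullback.fst _ _ ≫ pullback.snd s cR = 𝟙 _ → z (closedPoint ℂ) ∈ W →
      Join (pullback.snd s cR) ((z ≫ pullback.fst _ _) (closedPoint ℂ))
        ((z ≫ pullback.snd _ _) (closedPoint ℂ))) :
    ∃ h : MvPolynomial (V ⊕ V) ℂ,
      (∃ p q : V → ℂ, (∀ F, π F = 0 → MvPolynomial.aeval p F = 0) ∧
        (∀ F, π F = 0 → MvPolynomial.aeval q F = 0) ∧
        MvPolynomial.eval (Sum.elim p q) h ≠ 0) ∧
      ∀ p q : V → ℂ, (∀ F, π F = 0 → MvPolynomial.aeval p F = 0) →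
        (∀ F, π F = 0 → MvPolynomial.aeval q F = 0) → MvPolynomial.eval (Sum.elim p q) h ≠ 0 →
        ∃ (P : V → ℂ[X]) (Q : ℂ[X]), Q.eval 0 ≠ 0 ∧ Q.eval 1 ≠ 0 ∧
          (∀ v, (P v).eval 0 / Q.eval 0 = p v) ∧ (∀ v, (P v).eval 1 / Q.eval 1 = q v) ∧
          ∀ u, Q.eval u ≠ 0 → ∀ F, π F = 0 →
            MvPolynomial.aeval (fun v => (P v).eval u / Q.eval u) F = 0 := by
  obtain ⟨J, hJ, -, h2⟩ := chartC s j hj
  have nt : Nontrivial (ℂ ⊗[ℝ] A) := inferInstance
  obtain ⟨h, ⟨a, b, hab⟩, hh⟩ := square (pullback.snd s cR) J h2 (piC π) (piC_surj π hπ) W hWo hWd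
  refine ⟨h, ⟨_, _, hom_mem π a, hom_mem π b, hab⟩, ?_⟩
  intro p q hp hq hpq
  obtain ⟨a, ha⟩ := exists_hom π hπ p hp
  obtain ⟨b, hb⟩ := exists_hom π hπ q hq
  obtain rfl : p = fun v => a (piC π (MvPolynomial.X v)) := funext fun v => (ha v).symm
  obtain rfl : q = fun v => b (piC π (MvPolynomial.X v)) := funext fun v => (hb v).symm
  obtain ⟨z, z1, z2, hz⟩ := hh a b hpq
  have hz0 : z ≫ pullback.fst _ _ ≫ pullback.snd s cR = 𝟙 _ := by
    rw [← Category.assoc, z1, Category.assoc, h2, ← Spec.map_comp, ← Spec.map_id]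
    congr 1
    apply CommRingCat.hom_ext
    apply RingHom.ext
    intro c
    exact a.commutes c
  have hj := H z hz0 hz
  rw [z1, z2, Scheme.Hom.comp_apply, Scheme.Hom.comp_apply] at hj
  obtain ⟨P, Q, c0, c1, c2, c3, c4⟩ := curve (pullback.snd s cR) J h2 (piC π) a b hj
  refine ⟨P, Q, c0, c1, c2, c3, fun u hu F hF => ?_⟩
  rw [← MvPolynomial.aeval_map_algebraMap ℂ]
  apply c4 u hu
  rw [piC_map, hF, TensorProduct.tmul_zero]

end Pool.Agent.RC.S72
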