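import Pool.Agent.Lib.RC.Sch82a

/-! Overlaps of standard smooth charts, finite atlases and the valuative criteria. -/

set_option autoImplicit false

open AlgebraicGeometry CategoryTheory MvPolynomial

noncomputable section

namespace Pool.Agent.RC.S82

variable {X : Scheme.{0}} {s : X ⟶ Spec (.of ℝ)} {n : ℕ}

namespace Chart

theorem ev_comp (ch : Chart s n) {K : Type} [CommRing K] (κ : ℝ →+* K) (p : ch.V → K)
    (hp : ch.Z κ p) : (ch.ev κ p hp).comp (qmap ch.eqn) = κ :=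
  RingHom.ext fun r => eval₂_C κ p r

theorem pt_apply (ch : Chart s n) {K : Type} [CommRing K] (κ : ℝ →+* K) (p : ch.V → K)
    (hp : ch.Z κ p) (y : PrimeSpectrum K) :
    ch.pt κ p hp y = ch.j (PrimeSpectrum.comap (ch.ev κ p hp) y) := rfl

theorem overlap_one (ch ch' : Chart s n) (f : ch.A)
    (hf : ∀ x : PrimeSpectrum ch.A, f ∉ x.asIdeal → ch.j x ∈ Set.range ch'.j) :
    ∃ (N : ℕ) (ob : MvPolynomial ch.V ℝ) (oa : ch'.V → MvPolynomial ch.V ℝ),
      Ideal.Quotient.mk _ ob = f ^ (N + 1) ∧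
      ∀ (K : Type) [CommRing K] (κ : ℝ →+* K) (p : ch.V → K) (hp : ch.Z κ p),
        IsUnit (eval₂ κ p ob) → ∃ (q : ch'.V → K) (hq : ch'.Z κ q),
          (∀ i, q i * eval₂ κ p ob = eval₂ κ p (oa i)) ∧ ch.pt κ p hp = ch'.pt κ q hq := by
  let φ : ch.A →+* Localization.Away f := algebraMap _ _
  obtain ⟨q0, hq0, h0⟩ := ch'.exists_pt (φ.comp (qmap ch.eqn))
    (Spec.map (CommRingCat.ofHom φ) ≫ ch.j)
    (by rw [Category.assoc, ch.ov, ← Spec.map_comp]; rfl) (by
      rintro _ ⟨y, rfl⟩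
      refine hf (PrimeSpectrum.comap φ y) fun h => ?_
      exact y.2.ne_top (Ideal.eq_top_of_isUnit_mem _ h (IsLocalization.Away.algebraMap_isUnit f)))
  obtain ⟨⟨_, N, rfl⟩, hb⟩ :=
    IsLocalization.exist_integer_multiples_of_finite (Submonoid.powers f) q0
  choose a ha using hb
  obtain ⟨ob, hob⟩ := Ideal.Quotient.mk_surjective (f ^ (N + 1))
  choose oa hoa using fun i => Ideal.Quotient.mk_surjective (f * a i)
  refine ⟨N, ob, oa, hob, fun K _ κ p hp hu => ?_⟩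
  have h1 : eval₂ κ p ob = ch.ev κ p hp (f ^ (N + 1)) := by rw [← hob, ev_mk]
  have h2 : IsUnit (ch.ev κ p hp f) := by
    rw [h1, map_pow] at hu
    exact (isUnit_pow_iff (Nat.succ_ne_zero N)).1 hu
  let θ : Localization.Away f →+* K := IsLocalization.Away.lift f h2
  have hθ : θ.comp φ = ch.ev κ p hp := IsLocalization.Away.lift_comp f h2
  have hκ : θ.comp (φ.comp (qmap ch.eqn)) = κ := by
    rw [← RingHom.comp_assoc, hθ, ev_comp]
  have hq := ch'.Z_map hq0 θ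
  refine ⟨fun i => θ (q0 i), hκ ▸ hq, fun i => ?_, ?_⟩
  · have h3 : φ (a i) = φ (f ^ N) * q0 i := by
      have := ha i
      rw [Algebra.smul_def] at this
      exact this
    have h4 : ∀ x, ch.ev κ p hp x = θ (φ x) := fun x => (DFunLike.congr_fun hθ x).symm
    rw [h1, ← ch.ev_mk κ p hp, hoa, h4, h4, map_mul φ, h3, ← map_mul θ, pow_succ, map_mul φ]
    congr 1
    ring
  · rw [← ch'.pt_congr hq _ hκ rfl, ← ch'.pt_map hq0 θ, ← h0, ← Category.assoc, ← Spec.map_comp,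
      pt, ← hθ]
    rfl

theorem overlap (ch ch' : Chart s n) :
    ∃ (L : ℕ) (ob : Fin L → MvPolynomial ch.V ℝ) (oa : Fin L → ch'.V → MvPolynomial ch.V ℝ),
      (∀ (K : Type) [CommRing K] (κ : ℝ →+* K) (p : ch.V → K) (hp : ch.Z κ p) (l : Fin L),
        IsUnit (eval₂ κ p (ob l)) → ∃ (q : ch'.V → K) (hq : ch'.Z κ q),
          (∀ i, q i * eval₂ κ p (ob l) = eval₂ κ p (oa l i)) ∧ ch.pt κ p hp = ch'.pt κ q hq) ∧
      ∀ x : PrimeSpectrum ch.A,
        ch.j x ∈ Set.range ch'.j ↔ ∃ l, Ideal.Quotient.mk _ (ob l) ∉ x.asIdeal := by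
  have := ch'.isOpen
  have hW : IsOpen (X := PrimeSpectrum ch.A) (ch.j ⁻¹' Set.range ch'.j) :=
    ch'.j.isOpenEmbedding.isOpen_range.preimage ch.j.continuous
  obtain ⟨t, ht⟩ := PrimeSpectrum.isCompact_isOpen_iff.1
    ⟨TopologicalSpace.NoetherianSpace.isCompact _, hW⟩
  have hx : ∀ x : PrimeSpectrum ch.A, ch.j x ∈ Set.range ch'.j ↔ ∃ f ∈ t, f ∉ x.asIdeal := by
    intro x
    refine (Set.ext_iff.1 ht x).symm.trans ?_
    rw [Set.mem_compl_iff, PrimeSpectrum.mem_zeroLocus, Set.not_subset]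
    rfl
  choose N ob oa h1 h2 using fun l : Fin t.card =>
    overlap_one ch ch' (t.equivFin.symm l) fun x h => (hx x).2 ⟨_, (t.equivFin.symm l).2, h⟩
  refine ⟨t.card, ob, oa, fun K _ κ p hp l => h2 l K κ p hp, fun x => ?_⟩
  rw [hx]
  constructor
  · rintro ⟨f, hf, h⟩
    refine ⟨t.equivFin ⟨f, hf⟩, fun h' => h ?_⟩
    rw [h1, Equiv.symm_apply_apply] at h'
    exact x.2.mem_of_pow_mem _ h'
  · rintro ⟨l, h⟩
    refine ⟨_, (t.equivFin.symm l).2, fun h' => h ?_⟩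
    rw [h1]
    exact Ideal.pow_mem_of_mem _ h' _ (Nat.succ_pos _)

end Chart

/-- a finite atlas of standard smooth charts with explicit transition fractions -/
structure Pres {X : Scheme.{0}} (s : X ⟶ Spec (.of ℝ)) (n : ℕ) where
  m : ℕ
  ch : Fin m → Chart s n
  cover : ∀ x : X, ∃ b, x ∈ Set.range (ch b).j
  ne : ∀ b, (Set.range (ch b).j).Nonempty
  L : Fin m → Fin m → ℕ
  ob : ∀ b g, Fin (L b g) → MvPolynomial (ch b).V ℝ
  oa : ∀ b g, Fin (L b g) → (ch g).V → MvPolynomial (ch b).V ℝ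
  tr : ∀ b g (K : Type) [CommRing K] (κ : ℝ →+* K) (p : (ch b).V → K) (hp : (ch b).Z κ p)
    (l : Fin (L b g)), IsUnit (eval₂ κ p (ob b g l)) → ∃ (q : (ch g).V → K) (hq : (ch g).Z κ q),
      (∀ i, q i * eval₂ κ p (ob b g l) = eval₂ κ p (oa b g l i)) ∧
        (ch b).pt κ p hp = (ch g).pt κ q hq
  mem : ∀ b g (x : PrimeSpectrum (ch b).A),
    (ch b).j x ∈ Set.range (ch g).j ↔ ∃ l, Ideal.Quotient.mk _ (ob b g l) ∉ x.asIdeal

theorem exists_Pres [SmoothOfRelativeDimension n s] [QuasiCompact s] : Nonempty (Pres s n) := by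
  have : CompactSpace X := QuasiCompact.compactSpace_of_compactSpace s
  choose ch hch using exists_chart (s := s) (n := n)
  obtain ⟨t, ht⟩ := isCompact_univ.elim_finite_subcover (fun x => Set.range (ch x).j)
    (fun x => by
      have := (ch x).isOpen
      exact (ch x).j.isOpenEmbedding.isOpen_range)
    (fun x _ => Set.mem_iUnion.2 ⟨x, hch x⟩)
  choose L ob oa h1 h2 using fun b g : Fin t.card =>
    Chart.overlap (ch (t.equivFin.symm b)) (ch (t.equivFin.symm g))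
  refine ⟨⟨t.card, fun b => ch (t.equivFin.symm b), fun x => ?_, fun b => ⟨_, hch _⟩, L, ob, oa,
    h1, h2⟩⟩
  obtain ⟨y, hy, hx⟩ := Set.mem_iUnion₂.1 (ht (Set.mem_univ x))
  refine ⟨t.equivFin ⟨y, hy⟩, ?_⟩
  rw [Equiv.symm_apply_apply]
  exact hx

namespace Pres

variable (P : Pres s n) {K T : Type}

/-- two points of charts are related by one of the transition fractions -/
def Same [CommRing K] (κ : ℝ →+* K) (b g : Fin P.m) (p : (P.ch b).V → K)
    (q : (P.ch g).V → K) : Prop :=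
  ∃ l, eval₂ κ p (P.ob b g l) ≠ 0 ∧ ∀ i, q i * eval₂ κ p (P.ob b g l) = eval₂ κ p (P.oa b g l i)

theorem exists_pt_local [CommRing K] [IsLocalRing K] (κ : ℝ →+* K) (f : Spec (.of K) ⟶ X)
    (hf : f ≫ s = Spec.map (CommRingCat.ofHom κ)) :
    ∃ (b : Fin P.m) (p : (P.ch b).V → K) (hp : (P.ch b).Z κ p), f = (P.ch b).pt κ p hp := by
  obtain ⟨b, hb⟩ := P.cover (f (IsLocalRing.closedPoint K))
  exact ⟨b, (P.ch b).exists_pt_local κ f hf hb⟩

theorem mem_iff_unit [CommRing K] [IsLocalRing K] (κ : ℝ →+* K) (b g : Fin P.m)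
    (p : (P.ch b).V → K) (hp : (P.ch b).Z κ p) :
    (P.ch b).pt κ p hp (IsLocalRing.closedPoint K) ∈ Set.range (P.ch g).j ↔
      ∃ l, IsUnit (eval₂ κ p (P.ob b g l)) := by
  rw [Chart.pt_apply, P.mem]
  refine exists_congr fun l => ?_
  change ¬ ((P.ch b).ev κ p hp (Ideal.Quotient.mk _ (P.ob b g l)) ∈
    IsLocalRing.maximalIdeal K) ↔ _
  rw [Chart.ev_mk, IsLocalRing.notMem_maximalIdeal]

theorem Z_div [Field K] (κ : ℝ →+* K) (b g : Fin P.m) (p : (P.ch b).V → K)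
    (hp : (P.ch b).Z κ p) (l : Fin (P.L b g)) (h : eval₂ κ p (P.ob b g l) ≠ 0) :
    (P.ch g).Z κ (fun i => eval₂ κ p (P.oa b g l i) / eval₂ κ p (P.ob b g l)) := by
  obtain ⟨q, hq, h1, -⟩ := P.tr b g K κ p hp l h.isUnit
  have : q = fun i => eval₂ κ p (P.oa b g l i) / eval₂ κ p (P.ob b g l) :=
    funext fun i => (eq_div_iff h).2 (h1 i)
  exact this ▸ hq

theorem same_iff [Field K] (κ : ℝ →+* K) (b g : Fin P.m) (p : (P.ch b).V → K)
    (q : (P.ch g).V → K) (hp : (P.ch b).Z κ p) (hq : (P.ch g).Z κ q) :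
    P.Same κ b g p q ↔ (P.ch b).pt κ p hp = (P.ch g).pt κ q hq := by
  constructor
  · rintro ⟨l, h, h1⟩
    obtain ⟨q', hq', h2, h3⟩ := P.tr b g K κ p hp l h.isUnit
    rw [h3]
    exact (P.ch g).pt_congr _ _ rfl
      (funext fun i => mul_right_cancel₀ h ((h2 i).trans (h1 i).symm))
  · intro h
    obtain ⟨l, hl⟩ := (P.mem_iff_unit κ b g p hp).1 (by
      rw [h, Chart.pt_apply]
      exact ⟨_, rfl⟩)
    obtain ⟨q', hq', h2, h3⟩ := P.tr b g K κ p hp l hl
    have := (P.ch g).pt_inj hq hq' (h.symm.trans h3)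
    subst this
    exact ⟨l, hl.ne_zero, h2⟩

theorem same_Z [Field K] {κ : ℝ →+* K} {b g : Fin P.m} {p : (P.ch b).V → K}
    {q : (P.ch g).V → K} (hp : (P.ch b).Z κ p) (h : P.Same κ b g p q) : (P.ch g).Z κ q := by
  obtain ⟨l, h, h1⟩ := h
  have : q = fun i => eval₂ κ p (P.oa b g l i) / eval₂ κ p (P.ob b g l) :=
    funext fun i => (eq_div_iff h).2 (h1 i)
  exact this ▸ P.Z_div κ b g p hp l h

theorem same_self [Field K] (κ : ℝ →+* K) (b : Fin P.m) (p q : (P.ch b).V → K)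
    (hp : (P.ch b).Z κ p) : P.Same κ b b p q ↔ p = q := by
  constructor
  · intro h
    exact (P.ch b).pt_inj hp (P.same_Z hp h) ((P.same_iff κ b b p q hp _).1 h)
  · rintro rfl
    exact (P.same_iff κ b b p p hp hp).2 rfl

theorem same_symm [Field K] {κ : ℝ →+* K} {b g : Fin P.m} {p : (P.ch b).V → K}
    {q : (P.ch g).V → K} (hp : (P.ch b).Z κ p) (h : P.Same κ b g p q) : P.Same κ g b q p :=
  (P.same_iff κ g b q p (P.same_Z hp h) hp).2 ((P.same_iff κ b g p q hp _).1 h).symm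

theorem same_trans [Field K] {κ : ℝ →+* K} {b g d : Fin P.m} {p : (P.ch b).V → K}
    {q : (P.ch g).V → K} {r : (P.ch d).V → K} (hp : (P.ch b).Z κ p) (h : P.Same κ b g p q)
    (h' : P.Same κ g d q r) : P.Same κ b d p r :=
  (P.same_iff κ b d p r hp (P.same_Z (P.same_Z hp h) h')).2
    (((P.same_iff κ b g p q hp (P.same_Z hp h)).1 h).trans ((P.same_iff κ g d q r _ _).1 h'))

/-- existence part of the valuative criterion -/
theorem ve [UniversallyClosed s] [Field K] (κ : ℝ →+* K) (O : ValuationSubring K)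
    (hO : ∀ r, κ r ∈ O) (b : Fin P.m) (p : (P.ch b).V → K) (hp : (P.ch b).Z κ p) :
    ∃ (g : Fin P.m) (q : (P.ch g).V → K), (P.ch g).Z κ q ∧ (∀ i, q i ∈ O) ∧
      P.Same κ b g p q := by
  have hE : ValuativeCriterion.Existence s := by
    have h : UniversallyClosed s := inferInstance
    rw [UniversallyClosed.eq_valuativeCriterion] at h
    exact h.1
  let κ0 : ℝ →+* O := κ.codRestrict O.toSubring hO
  have hκ : (algebraMap O K).comp κ0 = κ := RingHom.ext fun r => rfl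
  obtain ⟨⟨l, h1, h2⟩⟩ := hE
    { R := O, K := K, i₁ := (P.ch b).pt κ p hp, i₂ := Spec.map (CommRingCat.ofHom κ0)
      commSq := ⟨by rw [Chart.pt_over, ← Spec.map_comp, ← hκ]; rfl⟩ }
  obtain ⟨g, q, hq, h3⟩ := P.exists_pt_local κ0 l h2
  have hq' : (P.ch g).Z κ fun i => algebraMap O K (q i) := hκ ▸ (P.ch g).Z_map hq (algebraMap O K)
  refine ⟨g, _, hq', fun i => (q i).2, (P.same_iff κ b g p _ hp hq').2 ?_⟩
  rw [← (P.ch g).pt_congr ((P.ch g).Z_map hq (algebraMap O K)) hq' hκ rfl,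
    ← (P.ch g).pt_map hq, ← h3]
  exact h1.symm

theorem Z_of_inj [CommRing T] [CommRing K] (κ : ℝ →+* T) (j : T →+* K)
    (hj : Function.Injective j) (b : Fin P.m) (p : (P.ch b).V → T)
    (hp : (P.ch b).Z (j.comp κ) fun i => j (p i)) : (P.ch b).Z κ p := by
  intro i
  apply hj
  rw [eval₂_comp_left, map_zero]
  exact hp i

/-- uniqueness part of the valuative criterion, for any subring of a field -/
theorem vu_pt [IsSeparated s] [CommRing T] [Field K] (κ : ℝ →+* T) (j : T →+* K)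
    (hj : Function.Injective j) (b g : Fin P.m) (p : (P.ch b).V → T) (q : (P.ch g).V → T)
    (hp : (P.ch b).Z κ p) (hq : (P.ch g).Z κ q)
    (h : P.Same (j.comp κ) b g (fun i => j (p i)) (fun i => j (q i))) :
    (P.ch b).pt κ p hp = (P.ch g).pt κ q hq := by
  have : IsDomain T := hj.isDomain j
  have : IsDominant (Spec.map (CommRingCat.ofHom j)) := by
    refine ⟨(PrimeSpectrum.denseRange_comap_iff_ker_le_nilRadical j).2 ?_⟩
    rw [(RingHom.injective_iff_ker_eq_bot j).1 hj]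
    exact bot_le
  refine ext_of_isDominant_of_isSeparated s (by rw [Chart.pt_over, Chart.pt_over])
    (Spec.map (CommRingCat.ofHom j)) ?_
  rw [Chart.pt_map, Chart.pt_map]
  exact (P.same_iff _ b g _ _ _ _).1 h

theorem vu [IsSeparated s] [CommRing T] [Field K] {K' : Type} [Field K'] (κ : ℝ →+* T)
    (j : T →+* K) (hj : Function.Injective j) (st : T →+* K') (b g : Fin P.m)
    (p : (P.ch b).V → T) (q : (P.ch g).V → T)
    (hp : (P.ch b).Z (j.comp κ) fun i => j (p i))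
    (h : P.Same (j.comp κ) b g (fun i => j (p i)) (fun i => j (q i))) :
    (P.ch b).Z (st.comp κ) (fun i => st (p i)) ∧
      P.Same (st.comp κ) b g (fun i => st (p i)) (fun i => st (q i)) := by
  have hp0 := P.Z_of_inj κ j hj b p hp
  have hq0 := P.Z_of_inj κ j hj g q (P.same_Z hp h)
  refine ⟨(P.ch b).Z_map hp0 st, (P.same_iff _ b g _ _ ((P.ch b).Z_map hp0 st)
    ((P.ch g).Z_map hq0 st)).2 ?_⟩
  rw [← (P.ch b).pt_map hp0, ← (P.ch g).pt_map hq0, P.vu_pt κ j hj b g p q hp0 hq0 h]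

end Pres

end Pool.Agent.RC.S82
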