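import Pool.Agent.Lib.RC.Sch72b
import Pool.Agent.Lib.RC.Sch82b
import Pool.Agent.Lib.RC.Blue3

open AlgebraicGeometry CategoryTheory CategoryTheory.Limits TopologicalSpace IsLocalRing
open scoped TensorProduct Polynomial

noncomputable section

namespace Pool.Agent.RC.S72

open Pool.Agent.RC.S82 Pool.Agent.Lib.RC

variable {X : Scheme.{0}} {s : X ⟶ Spec (.of ℝ)} {n : ℕ}

theorem chart_nontrivial (ch : Chart s n) (h : (Set.range ch.j).Nonempty) : Nontrivial ch.A := by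
  obtain ⟨_, x, -⟩ := h
  exact PrimeSpectrum.nonempty_iff_nontrivial.1 ⟨x⟩

theorem chart_ov (ch : Chart s n) :
    ch.j ≫ s = Spec.map (CommRingCat.ofHom (algebraMap ℝ ch.A)) := ch.ov

theorem Z_iff (ch : Chart s n) (p : ch.V → ℂ) :
    (∀ F, Ideal.Quotient.mkₐ ℝ (Ideal.span (Set.range ch.eqn)) F = 0 →
      MvPolynomial.aeval p F = 0) ↔ ∀ i, MvPolynomial.aeval p (ch.eqn i) = 0 := by
  constructor
  · intro h i
    exact h _ (Ideal.Quotient.eq_zero_iff_mem.2 (Ideal.subset_span ⟨i, rfl⟩))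
  · intro h F hF
    have h1 : Ideal.span (Set.range ch.eqn) ≤
        RingHom.ker (MvPolynomial.aeval p : MvPolynomial ch.V ℝ →ₐ[ℝ] ℂ) := by
      rw [Ideal.span_le]
      rintro _ ⟨i, rfl⟩
      exact h i
    exact h1 (Ideal.Quotient.eq_zero_iff_mem.1 hF)

/-- (dom) for a nonempty chart. -/
theorem chart_dom [GeometricallyIntegral s] (ch : Chart s n) (h : (Set.range ch.j).Nonempty) :
    (Ideal.span (Set.range fun i => MvPolynomial.map (algebraMap ℝ ℂ) (ch.eqn i))).IsPrime := by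
  have := chart_nontrivial ch h
  have := ch.isOpen
  exact dom_eqn s ch.j (chart_ov ch) (Ideal.Quotient.mkₐ ℝ _) (Ideal.Quotient.mkₐ_surjective ℝ _)
    ch.eqn (Ideal.Quotient.mkₐ_ker ℝ _)

theorem pres_dom [GeometricallyIntegral s] (P : Pres s n) (b : Fin P.m) :
    (Ideal.span (Set.range fun i =>
      MvPolynomial.map (algebraMap ℝ ℂ) ((P.ch b).eqn i))).IsPrime :=
  chart_dom (P.ch b) (P.ne b)

/-- (meet) for a finite atlas. -/
theorem pres_meet [GeometricallyIntegral s] (P : Pres s n) (b g : Fin P.m) :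
    ∃ p : (P.ch b).V → ℂ, (∀ i, MvPolynomial.aeval p ((P.ch b).eqn i) = 0) ∧
      ∃ l, MvPolynomial.aeval p (P.ob b g l) ≠ 0 := by
  have := chart_nontrivial _ (P.ne b)
  have := chart_nontrivial _ (P.ne g)
  have := (P.ch b).isOpen
  have := (P.ch g).isOpen
  obtain ⟨a1, a2, h⟩ := meet s (P.ch b).j (P.ch g).j (chart_ov _) (chart_ov _)
  have e : (MvPolynomial.aeval (fun v => a1 (Ideal.Quotient.mk _ (MvPolynomial.X v))) :
      MvPolynomial (P.ch b).V ℝ →ₐ[ℝ] ℂ) = a1.comp (Ideal.Quotient.mkₐ ℝ _) := by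
    ext v; simp
  have h1 : (P.ch b).j (Spec.map (CommRingCat.ofHom a1.toRingHom) (closedPoint ℂ)) ∈
      Set.range (P.ch g).j := by
    rw [← Scheme.Hom.comp_apply, h, Scheme.Hom.comp_apply]
    exact ⟨_, rfl⟩
  obtain ⟨l, hl⟩ := (P.mem b g _).1 h1
  refine ⟨fun v => a1 (Ideal.Quotient.mk _ (MvPolynomial.X v)), fun i => ?_, l, ?_⟩
  · have h0 : Ideal.Quotient.mk (Ideal.span (Set.range (P.ch b).eqn)) ((P.ch b).eqn i) = 0 :=
      Ideal.Quotient.eq_zero_iff_mem.2 (Ideal.subset_span ⟨i, rfl⟩)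
    rw [e, AlgHom.comp_apply, Ideal.Quotient.mkₐ_eq_mk, h0, map_zero]
  · rw [e]
    exact (mem_basic a1.toRingHom _ (closedPoint ℂ)).1 hl

/-- (RC) for a nonempty chart. -/
theorem chart_rc (H : RCA1 (complexify s)) (ch : Chart s n) (hne : (Set.range ch.j).Nonempty) :
    ∃ h : MvPolynomial (ch.V ⊕ ch.V) ℂ,
      (∃ p q : ch.V → ℂ, (∀ i, MvPolynomial.aeval p (ch.eqn i) = 0) ∧
        (∀ i, MvPolynomial.aeval q (ch.eqn i) = 0) ∧ MvPolynomial.eval (Sum.elim p q) h ≠ 0) ∧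
      ∀ p q : ch.V → ℂ, (∀ i, MvPolynomial.aeval p (ch.eqn i) = 0) →
        (∀ i, MvPolynomial.aeval q (ch.eqn i) = 0) → MvPolynomial.eval (Sum.elim p q) h ≠ 0 →
        ∃ (P : ch.V → ℂ[X]) (Q : ℂ[X]), Q.eval 0 ≠ 0 ∧ Q.eval 1 ≠ 0 ∧
          (∀ v, (P v).eval 0 / Q.eval 0 = p v) ∧ (∀ v, (P v).eval 1 / Q.eval 1 = q v) ∧
          ∀ u, Q.eval u ≠ 0 → ∀ i,
            MvPolynomial.aeval (fun v => (P v).eval u / Q.eval u) (ch.eqn i) = 0 := by
  have := chart_nontrivial ch hne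
  have := ch.isOpen
  obtain ⟨U, hU, H⟩ := H
  obtain ⟨h, ⟨p, q, hp, hq, hpq⟩, hh⟩ := rc_line s ch.j (chart_ov ch) (Ideal.Quotient.mkₐ ℝ _)
    (Ideal.Quotient.mkₐ_surjective ℝ _) U U.isOpen hU (by
      intro z hz hW
      obtain ⟨g, hg, g0, g1⟩ := H z hz (by
        rintro _ ⟨w, rfl⟩
        have : w = closedPoint ℂ := Subsingleton.elim _ _
        rw [this]; exact hW)
      refine ⟨g, hg, ?_, ?_⟩
      · rw [← g0, Scheme.Hom.comp_apply]; rfl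
      · rw [← g1, Scheme.Hom.comp_apply]; rfl)
  refine ⟨h, ⟨p, q, (Z_iff ch p).1 hp, (Z_iff ch q).1 hq, hpq⟩, fun p q hp hq hpq => ?_⟩
  obtain ⟨P, Q, c0, c1, c2, c3, c4⟩ := hh p q ((Z_iff ch p).2 hp) ((Z_iff ch q).2 hq) hpq
  exact ⟨P, Q, c0, c1, c2, c3, fun u hu => (Z_iff ch _).1 (c4 u hu)⟩

theorem pres_rc (H : RCA1 (complexify s)) (P : Pres s n) (b : Fin P.m) :
    ∃ h : MvPolynomial ((P.ch b).V ⊕ (P.ch b).V) ℂ,
      (∃ p q : (P.ch b).V → ℂ, (∀ i, MvPolynomial.aeval p ((P.ch b).eqn i) = 0) ∧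
        (∀ i, MvPolynomial.aeval q ((P.ch b).eqn i) = 0) ∧
        MvPolynomial.eval (Sum.elim p q) h ≠ 0) ∧
      ∀ p q : (P.ch b).V → ℂ, (∀ i, MvPolynomial.aeval p ((P.ch b).eqn i) = 0) →
        (∀ i, MvPolynomial.aeval q ((P.ch b).eqn i) = 0) →
        MvPolynomial.eval (Sum.elim p q) h ≠ 0 →
        ∃ (R : (P.ch b).V → ℂ[X]) (Q : ℂ[X]), Q.eval 0 ≠ 0 ∧ Q.eval 1 ≠ 0 ∧
          (∀ v, (R v).eval 0 / Q.eval 0 = p v) ∧ (∀ v, (R v).eval 1 / Q.eval 1 = q v) ∧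
          ∀ u, Q.eval u ≠ 0 → ∀ i,
            MvPolynomial.aeval (fun v => (R v).eval u / Q.eval u) ((P.ch b).eqn i) = 0 :=
  chart_rc H (P.ch b) (P.ne b)

end Pool.Agent.RC.S72
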