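import Mathlib

/-! Standard smooth affine charts of a smooth real scheme and their points. -/

set_option autoImplicit false

open AlgebraicGeometry CategoryTheory MvPolynomial

noncomputable section

namespace Pool.Agent.RC.S82

/-- the structure map of a real algebra given by generators and relations -/
def qmap {V ι : Type} (e : ι → MvPolynomial V ℝ) :
    ℝ →+* MvPolynomial V ℝ ⧸ Ideal.span (Set.range e) :=
  (Ideal.Quotient.mk _).comp C

/-- an affine chart with a standard smooth presentation -/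
structure Chart {X : Scheme.{0}} (s : X ⟶ Spec (.of ℝ)) (n : ℕ) where
  c : ℕ
  eqn : Fin c → MvPolynomial (Fin c ⊕ Fin n) ℝ
  j : Spec (.of (MvPolynomial (Fin c ⊕ Fin n) ℝ ⧸ Ideal.span (Set.range eqn))) ⟶ X
  isOpen : IsOpenImmersion j
  ov : j ≫ s = Spec.map (CommRingCat.ofHom (qmap eqn))
  jac : IsUnit (Ideal.Quotient.mk (Ideal.span (Set.range eqn))
    (Matrix.det (Matrix.of fun i k : Fin c => pderiv (Sum.inl i) (eqn k))))

variable {X : Scheme.{0}} {s : X ⟶ Spec (.of ℝ)} {n : ℕ}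

theorem exists_pres {S : Type} [CommRing S] [Algebra ℝ S]
    (h : Algebra.IsStandardSmoothOfRelativeDimension n ℝ S) :
    ∃ (c : ℕ) (P : Algebra.SubmersivePresentation ℝ S (Fin c ⊕ Fin n) (Fin c)),
      P.map = Sum.inl := by
  classical
  obtain ⟨ι, σ, _, _, P, hP⟩ := h.out
  have := Fintype.ofFinite ι
  have := Fintype.ofFinite σ
  let f : Fin (Fintype.card σ) ≃ σ := (Fintype.equivFin σ).symm
  have hc : Fintype.card {x : ι // ¬ x ∈ Set.range P.map} = n := by
    rw [Fintype.card_subtype_compl, ← hP, Algebra.Presentation.dimension, Nat.card_eq_fintype_card,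
      Nat.card_eq_fintype_card]
    congr 1
    exact Set.card_range_of_injective P.map_inj
  let g : Fin n ≃ {x : ι // ¬ x ∈ Set.range P.map} := (Fintype.equivFinOfCardEq hc).symm
  let e : Fin (Fintype.card σ) ⊕ Fin n ≃ ι :=
    (Equiv.sumCongr (f.trans (Equiv.ofInjective P.map P.map_inj)) g).trans
      (Equiv.sumCompl fun x => x ∈ Set.range P.map)
  refine ⟨_, P.reindex e f, ?_⟩
  funext i
  change e.symm (P.map (f i)) = Sum.inl i
  rw [Equiv.symm_apply_eq]
  rfl

theorem exists_quot {R S : Type} [CommRing R] [CommRing S] (g : R →+* S) (I : Ideal R)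
    (hs : Function.Surjective g) (hk : I = RingHom.ker g) :
    ∃ ψ : (R ⧸ I) ≃+* S, ∀ a, ψ (Ideal.Quotient.mk I a) = g a := by
  subst hk
  exact ⟨RingHom.quotientKerEquivOfSurjective hs, fun a => rfl⟩

theorem exists_equiv' {S : Type} [CommRing S] [Algebra ℝ S]
    (h : Algebra.IsStandardSmoothOfRelativeDimension n ℝ S) :
    ∃ (c : ℕ) (eqn : Fin c → MvPolynomial (Fin c ⊕ Fin n) ℝ)
      (ψ : (MvPolynomial (Fin c ⊕ Fin n) ℝ ⧸ Ideal.span (Set.range eqn)) ≃+* S),
      (∀ r, ψ (qmap eqn r) = algebraMap ℝ S r) ∧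
        IsUnit (Ideal.Quotient.mk (Ideal.span (Set.range eqn))
          (Matrix.det (Matrix.of fun i k : Fin c => pderiv (Sum.inl i) (eqn k)))) := by
  obtain ⟨c, P, hP⟩ := exists_pres h
  obtain ⟨ψ, hψ⟩ := exists_quot (algebraMap P.Ring S) (Ideal.span (Set.range P.relation))
    P.algebraMap_surjective P.span_range_relation_eq_ker
  refine ⟨c, P.relation, ψ, fun r => ?_, ?_⟩
  · refine (hψ (C r)).trans ?_
    rw [Algebra.Generators.algebraMap_apply, aeval_C]
  · have h1 := P.jacobian_isUnit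
    rw [Algebra.PreSubmersivePresentation.jacobian_eq_jacobiMatrix_det, ← hψ] at h1
    have h2 : P.jacobiMatrix = Matrix.of fun i k : Fin c => pderiv (Sum.inl i) (P.relation k) := by
      ext i k : 1
      rw [Algebra.PreSubmersivePresentation.jacobiMatrix_apply, hP]
      rfl
    rw [h2] at h1
    exact (MulEquiv.isUnit_map ψ).1 h1

theorem exists_equiv {S : Type} [CommRing S] (φ : ℝ →+* S)
    (hφ : φ.IsStandardSmoothOfRelativeDimension n) :
    ∃ (c : ℕ) (eqn : Fin c → MvPolynomial (Fin c ⊕ Fin n) ℝ)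
      (ψ : (MvPolynomial (Fin c ⊕ Fin n) ℝ ⧸ Ideal.span (Set.range eqn)) ≃+* S),
      (∀ r, ψ (qmap eqn r) = φ r) ∧ IsUnit (Ideal.Quotient.mk (Ideal.span (Set.range eqn))
        (Matrix.det (Matrix.of fun i k : Fin c => pderiv (Sum.inl i) (eqn k)))) :=
  @exists_equiv' n S _ φ.toAlgebra hφ

theorem exists_chart [SmoothOfRelativeDimension n s] (x : X) :
    ∃ ch : Chart s n, x ∈ Set.range ch.j := by
  obtain ⟨U, hU, W, hW, hx, e, hf⟩ :=
    SmoothOfRelativeDimension.exists_isStandardSmoothOfRelativeDimension (n := n) (f := s) x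
  have hUtop : U = ⊤ := by
    have hmem : s x ∈ U := e hx
    ext y
    have : y = s x := Subsingleton.elim (α := PrimeSpectrum ℝ) _ _
    simp only [this, TopologicalSpace.Opens.coe_top, Set.mem_univ, iff_true]
    exact hmem
  subst hUtop
  obtain ⟨c, eqn, ψ, h1, h2⟩ := exists_equiv
    ((s.appLE ⊤ W e).hom.comp (Scheme.ΓSpecIso (.of ℝ)).inv.hom)
    (RingHom.isStandardSmoothOfRelativeDimension_respectsIso.right _
      (Scheme.ΓSpecIso (.of ℝ)).symm.commRingCatIsoToRingEquiv hf)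
  let ε : Γ(X, W) ≅ CommRingCat.of
      (MvPolynomial (Fin c ⊕ Fin n) ℝ ⧸ Ideal.span (Set.range eqn)) := ψ.symm.toCommRingCatIso
  have h3 : (Spec.map ε.hom ≫ hW.fromSpec) ≫ s = Spec.map (CommRingCat.ofHom (qmap eqn)) := by
    rw [Category.assoc, ← IsAffineOpen.SpecMap_appLE_fromSpec s hU hW e,
      IsAffineOpen.fromSpec_top, Scheme.isoSpec_Spec_inv, ← Spec.map_comp, ← Spec.map_comp]
    congr 1
    ext r : 2
    exact ψ.symm_apply_eq.2 (h1 r).symm
  refine ⟨⟨c, eqn, Spec.map ε.hom ≫ hW.fromSpec, inferInstance, h3, h2⟩, ?_⟩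
  change x ∈ Set.range (Spec.map ε.hom ≫ hW.fromSpec)
  rw [Scheme.Hom.comp_base, TopCat.coe_comp, Set.range_comp,
    Set.range_eq_univ.2 (Spec.map ε.hom).surjective, Set.image_univ, hW.range_fromSpec]
  exact hx

namespace Chart

variable (ch : Chart s n) {K K' : Type} [CommRing K] [CommRing K']

/-- the variables of a chart -/
abbrev V := Fin ch.c ⊕ Fin n

/-- the coordinate ring of a chart -/
abbrev A := MvPolynomial ch.V ℝ ⧸ Ideal.span (Set.range ch.eqn)

/-- points of the chart with coordinates in `K` -/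
def Z (κ : ℝ →+* K) (p : ch.V → K) : Prop := ∀ i, eval₂ κ p (ch.eqn i) = 0

/-- evaluation at a point of the chart -/
def ev (κ : ℝ →+* K) (p : ch.V → K) (hp : ch.Z κ p) : ch.A →+* K :=
  Ideal.Quotient.lift _ (eval₂Hom κ p) fun a ha =>
    (Ideal.span_le (I := RingHom.ker (eval₂Hom κ p))).2 (by rintro _ ⟨i, rfl⟩; exact hp i) ha

theorem ev_mk (κ : ℝ →+* K) (p : ch.V → K) (hp : ch.Z κ p) (a : MvPolynomial ch.V ℝ) :
    ch.ev κ p hp (Ideal.Quotient.mk _ a) = eval₂ κ p a := rfl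

/-- the scheme point given by a point of the chart -/
def pt (κ : ℝ →+* K) (p : ch.V → K) (hp : ch.Z κ p) : Spec (.of K) ⟶ X :=
  Spec.map (CommRingCat.ofHom (ch.ev κ p hp)) ≫ ch.j

theorem pt_over (κ : ℝ →+* K) (p : ch.V → K) (hp : ch.Z κ p) :
    ch.pt κ p hp ≫ s = Spec.map (CommRingCat.ofHom κ) := by
  rw [pt, Category.assoc, ch.ov, ← Spec.map_comp]
  congr 1
  ext r
  exact eval₂_C κ p r

theorem Z_map {κ : ℝ →+* K} {p : ch.V → K} (hp : ch.Z κ p) (θ : K →+* K') :
    ch.Z (θ.comp κ) (fun i => θ (p i)) := by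
  intro i
  have := congrArg θ (hp i)
  rw [eval₂_comp_left, map_zero] at this
  exact this

theorem ev_map {κ : ℝ →+* K} {p : ch.V → K} (hp : ch.Z κ p) (θ : K →+* K') :
    ch.ev (θ.comp κ) (fun i => θ (p i)) (ch.Z_map hp θ) = θ.comp (ch.ev κ p hp) := by
  refine Ideal.Quotient.ringHom_ext (RingHom.ext fun a => ?_)
  exact (eval₂_comp_left θ κ p a).symm

theorem pt_map {κ : ℝ →+* K} {p : ch.V → K} (hp : ch.Z κ p) (θ : K →+* K') :
    Spec.map (CommRingCat.ofHom θ) ≫ ch.pt κ p hp =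
      ch.pt (θ.comp κ) (fun i => θ (p i)) (ch.Z_map hp θ) := by
  rw [pt, pt, ← Category.assoc, ← Spec.map_comp, ch.ev_map hp θ]
  rfl

theorem pt_congr {κ κ' : ℝ →+* K} {p p' : ch.V → K} (hp : ch.Z κ p) (hp' : ch.Z κ' p')
    (h1 : κ = κ') (h2 : p = p') : ch.pt κ p hp = ch.pt κ' p' hp' := by
  subst h1 h2
  rfl

theorem pt_inj {κ κ' : ℝ →+* K} {p p' : ch.V → K} (hp : ch.Z κ p) (hp' : ch.Z κ' p')
    (h : ch.pt κ p hp = ch.pt κ' p' hp') : p = p' := by
  have := ch.isOpen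
  have h1 := Spec.map_injective ((cancel_mono ch.j).1 h)
  have h2 : ch.ev κ p hp = ch.ev κ' p' hp' := congrArg CommRingCat.Hom.hom h1
  funext i
  have h3 := DFunLike.congr_fun h2 (Ideal.Quotient.mk _ (MvPolynomial.X i))
  rwa [ev_mk, ev_mk, eval₂_X, eval₂_X] at h3

theorem exists_of_hom (φ : ch.A →+* K) :
    ∃ hp : ch.Z (φ.comp (qmap ch.eqn)) (fun i => φ (Ideal.Quotient.mk _ (MvPolynomial.X i))),
      ch.ev _ _ hp = φ := by
  have h : ∀ a : MvPolynomial ch.V ℝ, eval₂ (φ.comp (qmap ch.eqn))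
      (fun i => φ (Ideal.Quotient.mk _ (MvPolynomial.X i))) a = φ (Ideal.Quotient.mk _ a) := by
    intro a
    have h1 : eval₂Hom (φ.comp (qmap ch.eqn))
        (fun i => φ (Ideal.Quotient.mk _ (MvPolynomial.X i))) = φ.comp (Ideal.Quotient.mk _) := by
      apply MvPolynomial.ringHom_ext
      · intro r
        rw [eval₂Hom_C]
        rfl
      · intro i
        rw [eval₂Hom_X']
        rfl
    exact DFunLike.congr_fun h1 a
  refine ⟨fun i => ?_, Ideal.Quotient.ringHom_ext (RingHom.ext fun a => h a)⟩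
  rw [h, Ideal.Quotient.eq_zero_iff_mem.2 (Ideal.subset_span (Set.mem_range_self i)), map_zero]

theorem exists_pt (κ : ℝ →+* K) (f : Spec (.of K) ⟶ X)
    (hf : f ≫ s = Spec.map (CommRingCat.ofHom κ)) (hr : Set.range f ⊆ Set.range ch.j) :
    ∃ (p : ch.V → K) (hp : ch.Z κ p), f = ch.pt κ p hp := by
  have := ch.isOpen
  obtain ⟨φ, hφ⟩ := Spec.map_surjective (IsOpenImmersion.lift ch.j f hr)
  have h1 : Spec.map φ ≫ ch.j = f := by rw [hφ, IsOpenImmersion.lift_fac]
  obtain ⟨hp, h2⟩ := ch.exists_of_hom φ.hom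
  have h3 : φ.hom.comp (qmap ch.eqn) = κ := by
    rw [← h1, Category.assoc, ch.ov, ← Spec.map_comp] at hf
    exact congrArg CommRingCat.Hom.hom (Spec.map_injective hf)
  subst h3
  refine ⟨_, hp, ?_⟩
  rw [pt, h2, ← h1]
  rfl

theorem exists_pt_local [IsLocalRing K] (κ : ℝ →+* K) (f : Spec (.of K) ⟶ X)
    (hf : f ≫ s = Spec.map (CommRingCat.ofHom κ))
    (hr : f (IsLocalRing.closedPoint K) ∈ Set.range ch.j) :
    ∃ (p : ch.V → K) (hp : ch.Z κ p), f = ch.pt κ p hp := by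
  have := ch.isOpen
  refine ch.exists_pt κ f hf ?_
  rintro _ ⟨y, rfl⟩
  exact ((IsLocalRing.specializes_closedPoint y).map f.continuous).mem_open
    ch.j.isOpenEmbedding.isOpen_range hr

theorem jac_ne [Nontrivial K] {κ : ℝ →+* K} {p : ch.V → K} (hp : ch.Z κ p) :
    (Matrix.of fun i k : Fin ch.c => eval₂ κ p (pderiv (Sum.inl i) (ch.eqn k))).det ≠ 0 := by
  have h1 := ch.jac.map (ch.ev κ p hp)
  rw [ev_mk, ← coe_eval₂Hom, RingHom.map_det] at h1
  exact h1.ne_zero

end Chart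

end Pool.Agent.RC.S82
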