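import Pool.Agent.Lib.RC.Sch82d
import Pool.Agent.Lib.RC.Sch72b

/-! Irreducibility and rational connectedness in terms of the polynomial gluing data. -/

set_option autoImplicit false

open AlgebraicGeometry CategoryTheory Limits MvPolynomial

noncomputable section

namespace Pool.Agent.RC.S82

open Pool.Agent.RC.Sp Pool.Agent.Lib.RC

variable {X : Scheme.{0}} {s : X ⟶ Spec (.of ℝ)} {n : ℕ}

theorem Chart.nontrivial (ch : Chart s n) (h : (Set.range ch.j).Nonempty) : Nontrivial ch.A := by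
  obtain ⟨_, x, -⟩ := h
  exact PrimeSpectrum.nonempty_iff_nontrivial.1 ⟨x⟩

theorem Chart.Z_iff (ch : Chart s n) (p : ch.V → ℂ) :
    (∀ F, Ideal.Quotient.mkₐ ℝ (Ideal.span (Set.range ch.eqn)) F = 0 → aeval p F = 0) ↔
      ch.Z (algebraMap ℝ ℂ) p := by
  constructor
  · intro h i
    exact h _ (Ideal.Quotient.eq_zero_iff_mem.2 (Ideal.subset_span (Set.mem_range_self i)))
  · intro hp F hF
    have h1 := ch.ev_mk _ p hp F
    have h2 : Ideal.Quotient.mk (Ideal.span (Set.range ch.eqn)) F = 0 := hF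
    rw [h2, map_zero] at h1
    exact h1.symm

namespace Pres

variable (P : Pres s n)

theorem dom [GeometricallyIntegral s] (b : Fin P.m) :
    (Ideal.span (Set.range fun i => MvPolynomial.map (algebraMap ℝ ℂ) (P.dat.eqn b i))).IsPrime := by
  have := (P.ch b).isOpen
  have := (P.ch b).nontrivial (P.ne b)
  exact S72.dom_eqn s (P.ch b).j (P.ch b).ov (Ideal.Quotient.mkₐ ℝ _)
    Ideal.Quotient.mk_surjective _ Ideal.mk_ker

theorem meet [GeometricallyIntegral s] (b g : Fin P.m) :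
    ∃ p ∈ P.dat.Z ℂ b, ∃ l, aeval p (P.dat.ob b g l) ≠ 0 := by
  have := (P.ch b).isOpen
  have := (P.ch g).isOpen
  have := (P.ch b).nontrivial (P.ne b)
  have := (P.ch g).nontrivial (P.ne g)
  obtain ⟨a1, a2, h⟩ := S72.meet s (P.ch b).j (P.ch g).j (P.ch b).ov (P.ch g).ov
  obtain ⟨p, hp, h1⟩ := (P.ch b).exists_pt (algebraMap ℝ ℂ)
    (Spec.map (CommRingCat.ofHom a1.toRingHom) ≫ (P.ch b).j)
    (by
      rw [Category.assoc, (P.ch b).ov, ← Spec.map_comp]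
      congr 1
      ext r : 2
      exact a1.commutes r)
    (by
      rintro _ ⟨y, rfl⟩
      exact ⟨_, rfl⟩)
  obtain ⟨l, hl⟩ := (P.mem_iff_unit (algebraMap ℝ ℂ) b g p hp).1 (by
    rw [← h1, h]
    exact ⟨_, rfl⟩)
  exact ⟨p, hp, l, hl.ne_zero⟩

theorem rc (H : RCA1 (complexify s)) (b : Fin P.m) :
    ∃ h : MvPolynomial (P.dat.V b ⊕ P.dat.V b) ℂ,
      (∃ p ∈ P.dat.Z ℂ b, ∃ q ∈ P.dat.Z ℂ b, eval (Sum.elim p q) h ≠ 0) ∧
      ∀ p ∈ P.dat.Z ℂ b, ∀ q ∈ P.dat.Z ℂ b, eval (Sum.elim p q) h ≠ 0 →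
        ∃ (A : P.dat.V b → Polynomial ℂ) (Q : Polynomial ℂ), Q.eval 0 ≠ 0 ∧ Q.eval 1 ≠ 0 ∧
          (∀ v, (A v).eval 0 / Q.eval 0 = p v) ∧ (∀ v, (A v).eval 1 / Q.eval 1 = q v) ∧
          ∀ u, Q.eval u ≠ 0 → (fun v => (A v).eval u / Q.eval u) ∈ P.dat.Z ℂ b := by
  have := (P.ch b).isOpen
  have := (P.ch b).nontrivial (P.ne b)
  obtain ⟨U, hU, H⟩ := H
  obtain ⟨h, ⟨p, q, hp, hq, h1⟩, h2⟩ := S72.rc_line s (P.ch b).j (P.ch b).ov
    (Ideal.Quotient.mkₐ ℝ _) Ideal.Quotient.mk_surjective U U.2 hU (by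
      intro z hz hzU
      obtain ⟨g, g1, g2, g3⟩ := H z hz (by
        rintro _ ⟨y, rfl⟩
        rwa [Subsingleton.elim (α := PrimeSpectrum ℂ) y (IsLocalRing.closedPoint ℂ)])
      refine ⟨g, g1, ?_, ?_⟩
      · rw [← g2]
        rfl
      · rw [← g3]
        rfl)
  refine ⟨h, ⟨p, ((P.ch b).Z_iff p).1 hp, q, ((P.ch b).Z_iff q).1 hq, h1⟩, ?_⟩
  intro p hp q hq hpq
  obtain ⟨A, Q, c0, c1, c2, c3, c4⟩ :=
    h2 p q (((P.ch b).Z_iff p).2 hp) (((P.ch b).Z_iff q).2 hq) hpq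
  exact ⟨A, Q, c0, c1, c2, c3, fun u hu => ((P.ch b).Z_iff _).1 (c4 u hu)⟩

end Pres

end Pool.Agent.RC.S82
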