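import Mathlib

open AlgebraicGeometry CategoryTheory Limits MvPolynomial

noncomputable section

namespace Pool.Agent.Lib.RC

attribute [local instance] MvPolynomial.gradedAlgebra

/-- Projective `n`-space over a field `k`. -/
def PP (k : Type) [Field k] (n : ℕ) : Scheme.{0} :=
  Proj (homogeneousSubmodule (Fin (n + 1)) k)

/-- The structure morphism of projective `n`-space. -/
def PPstr (k : Type) [Field k] (n : ℕ) : PP k n ⟶ Spec (.of k) :=
  Proj.toSpecZero _ ≫ Spec.map (CommRingCat.ofHom (algebraMap k _))

/-- Two general complex points lie on the image of a morphism from the projective line: there is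
a dense open subset `U` of `Y × Y` such that for every complex point of `U` both its components
lie on the image of one `ℂ`-morphism `ℙ¹ ⟶ Y`. -/
def RationallyConnected {Y : Scheme.{0}} (t : Y ⟶ Spec (.of ℂ)) : Prop :=
  ∃ U : (pullback t t).Opens, Dense (U : Set ↥(pullback t t)) ∧
    ∀ z : Spec (.of ℂ) ⟶ pullback t t, z ≫ pullback.fst t t ≫ t = 𝟙 _ → Set.range z ⊆ U →
      ∃ f : PP ℂ 1 ⟶ Y, f ≫ t = PPstr ℂ 1 ∧ Set.range (z ≫ pullback.fst t t) ⊆ Set.range f ∧
        Set.range (z ≫ pullback.snd t t) ⊆ Set.range f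

/-- The complexification `X ×_ℝ ℂ ⟶ Spec ℂ`. -/
abbrev complexify {X : Scheme.{0}} (s : X ⟶ Spec (.of ℝ)) :
    pullback s (Spec.map (CommRingCat.ofHom (algebraMap ℝ ℂ))) ⟶ Spec (.of ℂ) :=
  pullback.snd _ _

/-- The ideal sheaf of the closed subset `x² + y² + z² = 0` of the real projective plane
(the complement of the open set where the form does not vanish). -/
def conicIdeal : (PP ℝ 2).IdealSheafData :=
  .vanishingIdeal (Proj.basicOpen (homogeneousSubmodule (Fin (2 + 1)) ℝ)
    (X 0 ^ 2 + X 1 ^ 2 + X 2 ^ 2)).compl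

/-- The conic `C₀ : x² + y² + z² = 0`, a reduced closed subscheme of the real projective plane. -/
def C0 : Scheme.{0} := conicIdeal.subscheme

/-- The structure morphism of the conic. -/
def C0str : C0 ⟶ Spec (.of ℝ) := conicIdeal.subschemeι ≫ PPstr ℝ 2

end Pool.Agent.Lib.RC
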